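import Pool.Agent.Lib_MP_8306f4_co.CaseB.Defs

/-!
# MP_8306f4_co, case B, piece Base21

Notation. x·y = qop f x y = x f(x⁻¹y) on N; lambda_m: y -> m y is always an automorphism of it
(f commutes with nothing needed). 1·y = f(y). If Equi P f, then y -> p•y is an automorphism.
core(A): a∘b = 2b-a. For every x: y -> x·y is bijective (f bijective), for every y: x -> x·y is
bijective (x⁻¹f(x) bijective). '2 is invertible': all groups N have odd order.

## B18 (Base21.lean): base_21. N≅Z7:Z3, (a,b)(a',b')=(a+2^b a',b+b'), z-action (-a,b); word LLR, a=(1,1); F on (0,0),(0,1),..: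
[(0,0),(0,2),(0,1),(2,1),(4,2),(5,2),(4,0),(3,1),(1,1),(6,2),(5,0),(1,0),(1,2),(2,0),(6,0),(3,0),(4,1),(6,1),(5,1),(3,2),(2,2)]

-/

universe u v w

namespace Pool.Agent.Lib_MP_8306f4_co.CaseB

open Pool.Agent.Lib_MP_8306f4_co

namespace Base21

/-! ### the table on the codes `3 a + b` -/

def mulT (i j : Fin 21) : Fin 21 :=
  ⟨3 * ((i.1 / 3 + 2 ^ (i.1 % 3) * (j.1 / 3)) % 7) + (i.1 % 3 + j.1 % 3) % 3, by omega⟩

def invT (i : Fin 21) : Fin 21 :=
  ⟨3 * ((7 - (2 ^ ((3 - i.1 % 3) % 3) * (i.1 / 3)) % 7) % 7) + (3 - i.1 % 3) % 3, by omega⟩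

def zT (i : Fin 21) : Fin 21 :=
  ⟨3 * ((7 - i.1 / 3) % 7) + i.1 % 3, by omega⟩

def FT : Fin 21 → Fin 21 :=
  ![0, 2, 1, 7, 14, 17, 12, 10, 4, 20, 15, 3, 5, 6, 18, 9, 13, 19, 16, 11, 8]

def opT (i j : Fin 21) : Fin 21 := mulT i (FT (mulT (invT i) j))

theorem mul_invT : ∀ i, mulT i (invT i) = 0 := by decide +kernel

theorem FT_inj : ∀ i j, FT i = FT j → i = j := by decide +kernel

theorem G_inj : ∀ i j, mulT (invT i) (FT i) = mulT (invT j) (FT j) → i = j := by decide +kernel

theorem FT_zT : ∀ i, FT (zT i) = zT (FT i) := by decide +kernel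

theorem op_zero : ∀ i, opT 0 i = FT i := by decide +kernel

theorem op_zT : ∀ i j, zT (opT i j) = opT (zT i) (zT j) := by decide +kernel

theorem word_fwd : opT (FT (FT 4)) 0 = 4 := by decide +kernel

theorem word : ∀ i, i ≠ 0 → opT (FT (FT i)) 0 = i → i = 4 ∨ i = 19 := by decide +kernel

theorem gen {α β : Fin 21 → Fin 21} (hα : ∀ i j, α (opT i j) = opT (α i) (α j))
    (hβ : ∀ i j, β (opT i j) = opT (β i) (β j)) (h0 : α 0 = β 0) (h4 : α 4 = β 4) :
    ∀ i, α i = β i := by
  have st : ∀ i j k, opT i j = k → α i = β i → α j = β j → α k = β k := by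
    rintro i j _ rfl hi hj
    rw [hα, hβ, hi, hj]
  have h14 := st 0 4 14 (by decide +kernel) h0 h4
  have h10 := st 4 0 10 (by decide +kernel) h4 h0
  have h8 := st 4 14 8 (by decide +kernel) h4 h14
  have h18 := st 0 14 18 (by decide +kernel) h0 h14
  have h15 := st 0 10 15 (by decide +kernel) h0 h10
  have h17 := st 4 10 17 (by decide +kernel) h4 h10
  have h16 := st 4 8 16 (by decide +kernel) h4 h8
  have h11 := st 4 15 11 (by decide +kernel) h4 h15
  have h7 := st 14 0 7 (by decide +kernel) h14 h0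
  have h1 := st 14 8 1 (by decide +kernel) h14 h8
  have h6 := st 14 15 6 (by decide +kernel) h14 h15
  have h20 := st 14 17 20 (by decide +kernel) h14 h17
  have h3 := st 14 16 3 (by decide +kernel) h14 h16
  have h19 := st 10 8 19 (by decide +kernel) h10 h8
  have h5 := st 10 18 5 (by decide +kernel) h10 h18
  have h12 := st 10 17 12 (by decide +kernel) h10 h17
  have h2 := st 10 16 2 (by decide +kernel) h10 h16
  have h9 := st 10 11 9 (by decide +kernel) h10 h11
  have h13 := st 10 1 13 (by decide +kernel) h10 h1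
  intro i
  fin_cases i
  · exact h0
  · exact h1
  · exact h2
  · exact h3
  · exact h4
  · exact h5
  · exact h6
  · exact h7
  · exact h8
  · exact h9
  · exact h10
  · exact h11
  · exact h12
  · exact h13
  · exact h14
  · exact h15
  · exact h16
  · exact h17
  · exact h18
  · exact h19
  · exact h20

section

variable {N : Type u} [Group N]

/-- the coordinates on the group -/
def E (A B : N) (i : Fin 21) : N := A ^ (i.1 / 3) * B ^ (i.1 % 3)

variable {A B : N}

theorem conj_pow (h : B * A = A ^ 2 * B) (b a : ℕ) : B ^ b * A ^ a = A ^ (2 ^ b * a) * B ^ b := by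
  have h1 : ∀ a : ℕ, B * A ^ a = A ^ (2 * a) * B := by
    intro a
    induction a with
    | zero => simp
    | succ a ih =>
      rw [pow_succ, ← mul_assoc, ih, mul_assoc, h, ← mul_assoc, ← pow_add]
      congr 2
  induction b generalizing a with
  | zero => simp
  | succ b ih =>
    rw [pow_succ, mul_assoc, h1, ← mul_assoc, ih, mul_assoc]
    congr 2
    ring

theorem E_mul (hA : A ^ 7 = 1) (hB : B ^ 3 = 1) (h : B * A = A ^ 2 * B) (i j : Fin 21) :
    E A B i * E A B j = E A B (mulT i j) := by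
  have e1 : (mulT i j).1 / 3 = (i.1 / 3 + 2 ^ (i.1 % 3) * (j.1 / 3)) % 7 := by
    change (3 * ((i.1 / 3 + 2 ^ (i.1 % 3) * (j.1 / 3)) % 7) + (i.1 % 3 + j.1 % 3) % 3) / 3 = _
    omega
  have e2 : (mulT i j).1 % 3 = (i.1 % 3 + j.1 % 3) % 3 := by
    change (3 * ((i.1 / 3 + 2 ^ (i.1 % 3) * (j.1 / 3)) % 7) + (i.1 % 3 + j.1 % 3) % 3) % 3 = _
    omega
  have e3 : A ^ ((i.1 / 3 + 2 ^ (i.1 % 3) * (j.1 / 3)) % 7) =
      A ^ (i.1 / 3 + 2 ^ (i.1 % 3) * (j.1 / 3)) := (pow_eq_pow_mod _ hA).symm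
  have e4 : B ^ ((i.1 % 3 + j.1 % 3) % 3) = B ^ (i.1 % 3 + j.1 % 3) := (pow_eq_pow_mod _ hB).symm
  unfold E
  rw [e1, e2, e3, e4]
  calc A ^ (i.1 / 3) * B ^ (i.1 % 3) * (A ^ (j.1 / 3) * B ^ (j.1 % 3))
      = A ^ (i.1 / 3) * (B ^ (i.1 % 3) * A ^ (j.1 / 3)) * B ^ (j.1 % 3) := by
        simp only [mul_assoc]
    _ = A ^ (i.1 / 3) * (A ^ (2 ^ (i.1 % 3) * (j.1 / 3)) * B ^ (i.1 % 3)) * B ^ (j.1 % 3) := by
        rw [conj_pow h]
    _ = _ := by
        rw [pow_add, pow_add]
        simp only [mul_assoc]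

theorem E_zero : E A B 0 = 1 := by
  unfold E
  simp

theorem E_inv (hA : A ^ 7 = 1) (hB : B ^ 3 = 1) (h : B * A = A ^ 2 * B) (i : Fin 21) :
    (E A B i)⁻¹ = E A B (invT i) := by
  rw [inv_eq_iff_mul_eq_one, E_mul hA hB h, mul_invT, E_zero]

theorem E_inj (hA : orderOf A = 7) (h : B * A = A ^ 2 * B) :
    Function.Injective (E A B) := by
  intro i j hij
  -- compare the actions on `A`
  have act : ∀ i : Fin 21, E A B i * A = A ^ (2 ^ (i.1 % 3)) * E A B i := by
    intro i
    unfold E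
    have h1 := conj_pow h (i.1 % 3) 1
    rw [mul_one, pow_one] at h1
    rw [mul_assoc, h1, ← mul_assoc, ← mul_assoc, ← pow_add, ← pow_add, add_comm]
  have h2 : A ^ (2 ^ (i.1 % 3)) = A ^ (2 ^ (j.1 % 3)) := by
    have h3 := act i
    rw [hij, act j] at h3
    exact (mul_right_cancel h3).symm
  have h4 : 2 ^ (i.1 % 3) % 7 = 2 ^ (j.1 % 3) % 7 := by
    have h5 := pow_inj_mod.mp h2
    rwa [hA] at h5
  have h5 : i.1 % 3 = j.1 % 3 := by
    have hi : i.1 % 3 < 3 := Nat.mod_lt _ (by norm_num)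
    have hj : j.1 % 3 < 3 := Nat.mod_lt _ (by norm_num)
    revert h4
    generalize i.1 % 3 = x at *
    generalize j.1 % 3 = y at *
    interval_cases x <;> interval_cases y <;> simp
  have h6 : A ^ (i.1 / 3) = A ^ (j.1 / 3) := by
    unfold E at hij
    rw [h5] at hij
    exact mul_right_cancel hij
  have h7 : i.1 / 3 % 7 = j.1 / 3 % 7 := by
    have h8 := pow_inj_mod.mp h6
    rwa [hA] at h8
  apply Fin.ext
  omega

end

/-- The structure of the group. -/
theorem structure_21 {P : Type v} [Group P] {z : P} (hzz : z * z = 1)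
    {L N : Type u} [Group L] [Group N] [Finite N] [MulDistribMulAction P L]
    [MulDistribMulAction P N] (ι : L →* N) (hι : Function.Injective ι)
    (hιe : ∀ (p : P) l, ι (p • l) = p • ι l) (hL : Nat.card L = 7) (hN : Nat.card N = 21)
    (hinv : ∀ l : L, z • l = l⁻¹) (hc : ∀ n : N, (∀ l, n * ι l = ι l * n) → ∃ l, ι l = n) :
    ∃ A B : N, orderOf A = 7 ∧ B ^ 3 = 1 ∧ B * A = A ^ 2 * B ∧ z • A = A⁻¹ ∧ z • B = B := by
  have h7 : Fact (Nat.Prime 7) := ⟨by norm_num⟩
  have hzz' : ∀ x : N, z • z • x = x := by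
    intro x
    rw [← mul_smul, hzz, one_smul]
  -- the generator
  have hfinL : Finite L := Nat.finite_of_card_ne_zero (by rw [hL]; norm_num)
  obtain ⟨a0, ha0⟩ := exists_prime_orderOf_dvd_card' (G := L) 7 (by rw [hL])
  have htop : ∀ l : L, ∃ k : ℤ, a0 ^ k = l := by
    intro l
    have h1 : Subgroup.zpowers a0 = ⊤ := by
      apply Subgroup.eq_top_of_card_eq
      rw [Nat.card_zpowers, ha0, hL]
    have h2 : l ∈ Subgroup.zpowers a0 := by rw [h1]; exact Subgroup.mem_top l
    exact Subgroup.mem_zpowers_iff.mp h2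
  set A : N := ι a0 with hAdef
  have hA : orderOf A = 7 := by
    rw [hAdef, orderOf_injective ι hι, ha0]
  have hA7 : A ^ 7 = 1 := by rw [← hA]; exact pow_orderOf_eq_one A
  have hA7z : A ^ (7 : ℤ) = 1 := by exact_mod_cast hA7
  have h7k : ∀ k : ℤ, A ^ (7 * k) = 1 := fun k => by rw [zpow_mul, hA7z, one_zpow]
  have hrange : ∀ l : L, ∃ k : ℤ, A ^ k = ι l := by
    intro l
    obtain ⟨k, hk⟩ := htop l
    exact ⟨k, by rw [← hk, map_zpow]⟩
  have hzA : z • A = A⁻¹ := by
    rw [hAdef, ← hιe, hinv, map_inv]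
  have hzAk : ∀ k : ℤ, z • (A ^ k) = A ^ (-k) := by
    intro k
    have h1 : z • (A ^ k) = (z • A) ^ k := map_zpow (MulDistribMulAction.toMonoidHom N z) A k
    rw [h1, hzA, inv_zpow, zpow_neg]
  have hcA : ∀ n : N, n * A = A * n → ∃ k : ℤ, A ^ k = n := by
    intro n hn
    obtain ⟨l, hl⟩ := hc n (by
      intro l
      obtain ⟨k, hk⟩ := hrange l
      rw [← hk]
      have h1 : Commute n A := hn
      exact (h1.zpow_right k).eq)
    obtain ⟨k, hk⟩ := hrange l
    exact ⟨k, by rw [hk, hl]⟩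
  -- the image is normal
  have hcardH : Nat.card ι.range = 7 := by
    rw [← hL]
    exact (Nat.card_congr (Equiv.ofInjective ι hι)).symm
  have hindex : ι.range.index = 3 := by
    have h1 := ι.range.card_mul_index
    rw [hcardH, hN] at h1
    omega
  have hnormal : ι.range.Normal := by
    apply Subgroup.normal_of_index_eq_minFac_card
    rw [hindex, hN]
    norm_num
  -- an element outside
  obtain ⟨n, hn⟩ : ∃ n : N, n ∉ ι.range := by
    by_contra hcon
    push Not at hcon
    have h1 : ι.range = ⊤ := by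
      ext x
      exact ⟨fun _ => Subgroup.mem_top x, fun _ => hcon x⟩
    rw [h1, Subgroup.index_top] at hindex
    norm_num at hindex
  have hmemA : ∀ k : ℤ, A ^ k ∈ ι.range := fun k => ⟨a0 ^ k, by rw [map_zpow]⟩
  have hmem' : ∀ x ∈ ι.range, ∃ k : ℤ, A ^ k = x := by
    rintro x ⟨l, rfl⟩
    exact hrange l
  have hconj : ∀ x : N, ∃ k : ℤ, x * A * x⁻¹ = A ^ k := by
    intro x
    obtain ⟨k, hk⟩ := hmem' _ (hnormal.conj_mem A (by simpa using hmemA 1) x)
    exact ⟨k, hk.symm⟩
  -- `z • n = n A ^ j`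
  obtain ⟨j, hj⟩ : ∃ j : ℤ, A ^ j = n⁻¹ * (z • n) := by
    apply hcA
    obtain ⟨k, hk⟩ := hconj n
    have h1 : (z • n) * A * (z • n)⁻¹ = A ^ k := by
      have h2 : z • (n * A⁻¹ * n⁻¹) = z • (A ^ (-k)) := by
        rw [zpow_neg, ← hk]
        group
      rw [hzAk, neg_neg] at h2
      rw [← h2, smul_mul', smul_mul', smul_inv', smul_inv', hzA, inv_inv]
    have h3 : (z • n) * A = A ^ k * (z • n) := by
      rw [← h1]; group
    have h4 : A ^ k * n = n * A := by
      rw [← hk]; group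
    calc n⁻¹ * z • n * A = n⁻¹ * (z • n * A) := by rw [mul_assoc]
      _ = n⁻¹ * (A ^ k * (z • n)) := by rw [h3]
      _ = n⁻¹ * (A ^ k * n) * n⁻¹ * (z • n) := by group
      _ = A * (n⁻¹ * z • n) := by rw [h4]; group
  have hzn : z • n = n * A ^ j := by rw [hj]; group
  -- the fixed element
  set B0 : N := n * A ^ (4 * j) with hB0
  have hzB0 : z • B0 = B0 := by
    rw [hB0, smul_mul', hzn, hzAk, mul_assoc, ← zpow_add]
    apply congrArg
    have h1 : j + -(4 * j) = 4 * j + 7 * (-j) := by ring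
    rw [h1, zpow_add, h7k, mul_one]
  have hB0mem : B0 ∉ ι.range := by
    intro h
    apply hn
    have h1 : n = B0 * A ^ (-(4 * j)) := by rw [hB0, mul_assoc, ← zpow_add]; simp
    rw [h1]
    exact mul_mem h (hmemA _)
  have hB03 : B0 ^ 3 = 1 := by
    have h1 : B0 ^ 3 ∈ ι.range := by
      rw [← hindex]
      exact Subgroup.pow_index_mem _ B0
    obtain ⟨m, hm⟩ := hmem' _ h1
    have h2 : z • (B0 ^ 3) = B0 ^ 3 := by rw [smul_pow', hzB0]
    rw [← hm, hzAk] at h2
    have h3 : A ^ (2 * m) = 1 := by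
      have : (2 : ℤ) * m = m - (-m) := by ring
      rw [this, zpow_sub, h2, mul_inv_cancel]
    have h4 : A ^ m = 1 := by
      have h5 : m = (2 * m) * 4 + 7 * (-m) := by ring
      have h6 : A ^ (2 * m * 4) = 1 := by rw [zpow_mul, h3, one_zpow]
      rw [h5, zpow_add, h6, h7k, mul_one]
    rw [← hm, h4]
  -- the action
  obtain ⟨k0, hk0⟩ := hconj B0
  obtain ⟨k, hk7, hk⟩ : ∃ k : ℕ, k < 7 ∧ B0 * A = A ^ k * B0 := by
    refine ⟨(k0 % 7).toNat, ?_, ?_⟩
    · have := Int.emod_lt_of_pos k0 (show (0 : ℤ) < 7 by norm_num)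
      have := Int.emod_nonneg k0 (show (7 : ℤ) ≠ 0 by norm_num)
      omega
    · have h1 : A ^ ((k0 % 7).toNat) = A ^ k0 := by
        have h2 := Int.emod_nonneg k0 (show (7 : ℤ) ≠ 0 by norm_num)
        rw [← zpow_natCast, Int.toNat_of_nonneg h2]
        have h3 : k0 = k0 % 7 + 7 * (k0 / 7) := (Int.emod_add_mul_ediv k0 7).symm
        conv_rhs => rw [h3, zpow_add, zpow_mul, hA7z, one_zpow, mul_one]
      rw [h1, ← hk0]
      group
  have hB0p : ∀ a : ℕ, B0 * A ^ a = A ^ (k * a) * B0 := by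
    intro a
    induction a with
    | zero => simp
    | succ a ih =>
      rw [pow_succ, ← mul_assoc, ih, mul_assoc, hk, ← mul_assoc, ← pow_add]
      congr 2
  have hcube : A ^ (k * (k * k)) = A ^ 1 := by
    have h1 : B0 ^ 3 * A = A ^ (k * (k * k)) * B0 ^ 3 := by
      have h2 : B0 ^ 3 * A = B0 * (B0 * (B0 * A)) := by
        rw [pow_succ, pow_two]; simp only [mul_assoc]
      have h3 : A ^ (k * (k * k)) * B0 ^ 3 = A ^ (k * (k * k)) * B0 * (B0 * B0) := by
        rw [pow_succ, pow_two]; simp only [mul_assoc]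
      rw [h2, h3, hk, ← mul_assoc B0 (A ^ k), hB0p k, mul_assoc (A ^ (k * k)), ← mul_assoc B0,
        hB0p (k * k)]
    rw [hB03, one_mul, mul_one] at h1
    rw [pow_one, ← h1]
  have hcube' : k * (k * k) % 7 = 1 := by
    have h1 := pow_inj_mod.mp hcube
    rw [hA] at h1
    simpa using h1
  have hk1 : k ≠ 1 := by
    rintro rfl
    rw [pow_one] at hk
    obtain ⟨i, hi⟩ := hcA B0 hk
    exact hB0mem (hi ▸ hmemA i)
  have hk24 : k = 2 ∨ k = 4 := by
    interval_cases k <;> simp_all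
  rcases hk24 with rfl | rfl
  · exact ⟨A, B0, hA, hB03, hk, hzA, hzB0⟩
  · refine ⟨A, B0 ^ 2, hA, ?_, ?_, hzA, by rw [smul_pow', hzB0]⟩
    · rw [← pow_mul, mul_comm, pow_mul, hB03, one_pow]
    · rw [pow_two, mul_assoc, hk, ← mul_assoc, hB0p 4, mul_assoc]
      congr 1
      have h1 : 4 * 4 = 2 + 7 * 2 := by norm_num
      rw [h1, pow_add, pow_mul, hA7, one_pow, mul_one]

end Base21

theorem base_21 {P : Type v} [Group P] {z : P} (hz : TwoCyc z) (h2 : Nat.card P = 2)
    {L N : Type u} [Group L] [Group N] [Finite N] [MulDistribMulAction P L]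
    [MulDistribMulAction P N] (ι : L →* N) (hι : Function.Injective ι)
    (hιe : ∀ (p : P) l, ι (p • l) = p • ι l) (hL : Nat.card L = 7) (hN : Nat.card N = 21)
    (hinv : ∀ l : L, z • l = l⁻¹) (hc : ∀ n : N, (∀ l, n * ι l = ι l * n) → ∃ l, ι l = n) :
    RepGood P N := by
  obtain ⟨A, B, hA, hB, hAB, hzA, hzB⟩ := Base21.structure_21 hz.sq ι hι hιe hL hN hinv hc
  have hA7 : A ^ 7 = 1 := by rw [← hA]; exact pow_orderOf_eq_one A
  have hinj := Base21.E_inj hA hAB
  have hbij : Function.Bijective (Base21.E A B) := by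
    have : Fintype N := Fintype.ofFinite N
    rw [Fintype.bijective_iff_injective_and_card]
    refine ⟨hinj, ?_⟩
    rw [Fintype.card_fin, ← Nat.card_eq_fintype_card, hN]
  set e : Fin 21 ≃ N := Equiv.ofBijective _ hbij with he
  have heE : ∀ i, e i = Base21.E A B i := fun i => rfl
  have hmul : ∀ i j, e i * e j = e (Base21.mulT i j) := fun i j => Base21.E_mul hA7 hB hAB i j
  have hone : e 0 = 1 := Base21.E_zero
  have hinvE : ∀ i, (e i)⁻¹ = e (Base21.invT i) := fun i => Base21.E_inv hA7 hB hAB i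
  have hzE : ∀ i, z • e i = e (Base21.zT i) := by
    intro i
    have e1 : (Base21.zT i).1 / 3 = (7 - i.1 / 3) % 7 := by
      change (3 * ((7 - i.1 / 3) % 7) + i.1 % 3) / 3 = _
      omega
    have e2 : (Base21.zT i).1 % 3 = i.1 % 3 := by
      change (3 * ((7 - i.1 / 3) % 7) + i.1 % 3) % 3 = _
      omega
    rw [heE, heE]
    unfold Base21.E
    rw [e1, e2, ← pow_eq_pow_mod _ hA7, smul_mul', smul_pow', smul_pow', hzA, hzB]
    congr 1
    rw [inv_pow, inv_eq_iff_mul_eq_one, ← pow_add]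
    have h3 : i.1 / 3 + (7 - i.1 / 3) = 7 := by omega
    rw [h3, hA7]
  let f : N → N := fun x => e (Base21.FT (e.symm x))
  have hf : ∀ i, f (e i) = e (Base21.FT i) := fun i => by
    change e (Base21.FT (e.symm (e i))) = _
    rw [Equiv.symm_apply_apply]
  have hop : ∀ i j, qop f (e i) (e j) = e (Base21.opT i j) := by
    intro i j
    change e i * f ((e i)⁻¹ * e j) = e (Base21.mulT i (Base21.FT (Base21.mulT (Base21.invT i) j)))
    rw [hinvE, hmul (Base21.invT i) j, hf, hmul]
  have hP : ∀ p : P, p = 1 ∨ p = z := by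
    intro p
    have : Finite P := hz.fin
    have : Fintype P := Fintype.ofFinite P
    rw [Nat.card_eq_fintype_card] at h2
    by_contra hcon
    push Not at hcon
    classical
    have h3 : ({1, z, p} : Finset P).card ≤ Fintype.card P := Finset.card_le_univ _
    rw [h2, Finset.card_eq_three.mpr ⟨1, z, p, hz.ne_one.symm, hcon.1.symm, hcon.2.symm, rfl⟩] at h3
    omega
  refine ⟨f, ⟨?_, ?_⟩, ?_, ?_⟩
  · apply Function.Injective.bijective_of_finite
    intro x y hxy
    obtain ⟨i, rfl⟩ := e.surjective x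
    obtain ⟨j, rfl⟩ := e.surjective y
    rw [hf, hf] at hxy
    exact congrArg e (Base21.FT_inj i j (e.injective hxy))
  · apply Function.Injective.bijective_of_finite
    intro x y hxy
    obtain ⟨i, rfl⟩ := e.surjective x
    obtain ⟨j, rfl⟩ := e.surjective y
    dsimp only at hxy
    rw [hf, hf, hinvE, hinvE, hmul, hmul] at hxy
    exact congrArg e (Base21.G_inj i j (e.injective hxy))
  · intro p x
    obtain ⟨i, rfl⟩ := e.surjective x
    rcases hP p with rfl | rfl
    · rw [one_smul, one_smul]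
    · rw [hzE, hf, hf, hzE, Base21.FT_zT]
  · intro α hα hα1
    have hα' : ∀ x y, α (qop f x y) = qop f (α x) (α y) := hα
    set β : Fin 21 → Fin 21 := fun i => e.symm (α (e i)) with hβ
    have heβ : ∀ i, e (β i) = α (e i) := fun i => by rw [hβ]; exact e.apply_symm_apply _
    have hβop : ∀ i j, β (Base21.opT i j) = Base21.opT (β i) (β j) := by
      intro i j
      apply e.injective
      rw [heβ, ← hop, hα', ← heβ, ← heβ, hop]
    have hβ0 : β 0 = 0 := by
      apply e.injective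
      rw [heβ, hone, hα1]
    have hβinj : Function.Injective β := by
      intro i j hij
      have h3 : α (e i) = α (e j) := by rw [← heβ, ← heβ, hij]
      exact e.injective (α.injective h3)
    have hβF : ∀ i, β (Base21.FT i) = Base21.FT (β i) := by
      intro i
      rw [← Base21.op_zero, hβop, hβ0, Base21.op_zero]
    have hβ4 : β 4 = 4 ∨ β 4 = 19 := by
      apply Base21.word
      · intro h
        rw [← hβ0] at h
        exact absurd (hβinj h) (by decide)
      · have h3 := congrArg β Base21.word_fwd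
        rw [hβop, hβF, hβF, hβ0] at h3
        exact h3
    rcases hβ4 with h4 | h4
    · refine ⟨1, fun x => ?_⟩
      obtain ⟨i, rfl⟩ := e.surjective x
      rw [one_smul, ← heβ]
      exact congrArg e (Base21.gen (α := β) (β := fun i => i) hβop (fun _ _ => rfl) hβ0 h4 i)
    · refine ⟨z, fun x => ?_⟩
      obtain ⟨i, rfl⟩ := e.surjective x
      rw [hzE, ← heβ]
      exact congrArg e (Base21.gen (α := β) (β := Base21.zT) hβop Base21.op_zT
        (by rw [hβ0]; decide +kernel) (by rw [h4]; decide +kernel) i)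

end Pool.Agent.Lib_MP_8306f4_co.CaseB
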