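import Pool.Agent.Lib_MP_8306f4_co.CaseB.Defs

/-!
# MP_8306f4_co, case B, piece Transfer

Notation. x·y = qop f x y = x f(x⁻¹y) on N; lambda_m: y -> m y is always an automorphism of it
(f commutes with nothing needed). 1·y = f(y). If Equi P f, then y -> p•y is an automorphism.
core(A): a∘b = 2b-a. For every x: y -> x·y is bijective (f bijective), for every y: x -> x·y is
bijective (x⁻¹f(x) bijective). '2 is invertible': all groups N have odd order.

## B1 (Transfer.lean): wgood_of_model, wgood_of_amodel, wgood_congr: direct.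

-/

universe u v w

namespace Pool.Agent.Lib_MP_8306f4_co.CaseB

open Pool.Agent.Lib_MP_8306f4_co

namespace Transfer

section
variable {N : Type u} {V : Type w} [Group N] [Group V] (e : N ≃* V) (F : V → V)

/-- transport of a map along an isomorphism -/
def tr (x : N) : N := e.symm (F (e x))

lemma e_tr (x : N) : e (tr e F x) = F (e x) := by simp [tr]

lemma orth_tr (h : IsOrth F) : IsOrth (tr e F) := by
  constructor
  · have h1 : tr e F = e.symm ∘ F ∘ e := rfl
    rw [h1]
    exact e.symm.bijective.comp (h.1.comp e.bijective)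
  · have h1 : (fun x => x⁻¹ * tr e F x) = e.symm ∘ (fun x => x⁻¹ * F x) ∘ e := by
      ext x
      simp [tr]
    rw [h1]
    exact e.symm.bijective.comp (h.2.comp e.bijective)

lemma qop_tr (x y : N) : e (qop (tr e F) x y) = qop F (e x) (e y) := by
  simp [qop, tr]

lemma aut_tr {α : Equiv.Perm N} (hα : α ∈ autGroup (qop (tr e F))) :
    (e.symm.toEquiv.trans α).trans e.toEquiv ∈ autGroup (qop F) := by
  intro x y
  change e (α (e.symm (qop F x y))) = qop F (e (α (e.symm x))) (e (α (e.symm y)))
  have h1 : e.symm (qop F x y) = qop (tr e F) (e.symm x) (e.symm y) := by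
    apply e.injective
    rw [qop_tr]
    simp
  rw [h1, hα, qop_tr]

lemma homFree_tr (h : HomFree F) : HomFree (tr e F) := by
  intro r hr g hg x
  have h1 : IsHom F (fun v => g (e.symm v)) := by
    intro v w
    have h2 : e.symm (qop F v w) = qop (tr e F) (e.symm v) (e.symm w) := by
      apply e.injective
      rw [qop_tr]
      simp
    change g (e.symm (qop F v w)) = _
    rw [h2, hg]
  have h3 := h r hr _ h1 (e x)
  simpa using h3

lemma ks_tr {m : N} (hm : m ∈ KS (tr e F)) : e m ∈ KS F := by
  intro x y
  have h1 := congrArg e (hm (e.symm x) (e.symm y))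
  rw [e_tr] at h1
  simpa [e_tr] using h1

end

end Transfer

theorem wgood_of_model {P : Type v} [Group P] (ρ : P) (hρ : ∀ p : P, ∃ k : ℕ, p = ρ ^ k)
    {N : Type u} [Group N] [MulDistribMulAction P N] {V : Type w} [Group V] (e : N ≃* V)
    {R F : V → V} (he : ∀ x, e (ρ • x) = R (e x)) (h : Model R F) : WGood P N := by
  have hpow : ∀ (k : ℕ) (x : N), e (ρ ^ k • x) = R^[k] (e x) := by
    intro k
    induction k with
    | zero => intro x; simp
    | succ k ih =>
      intro x
      rw [pow_succ', mul_smul, he, ih, Function.iterate_succ_apply']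
  have hcomm : ∀ (k : ℕ) (x : V), F (R^[k] x) = R^[k] (F x) := by
    intro k
    induction k with
    | zero => intro x; rfl
    | succ k ih =>
      intro x
      rw [Function.iterate_succ_apply', Function.iterate_succ_apply', h.comm, ih]
  refine ⟨Transfer.tr e F, Transfer.orth_tr e F h.orth, ?_, ?_, ?_,
    Transfer.homFree_tr e F h.hom, ⊥, bot_le, ?_, ?_⟩
  · intro p x
    obtain ⟨k, rfl⟩ := hρ p
    apply e.injective
    rw [Transfer.e_tr, hpow, hpow, Transfer.e_tr, hcomm]
  · apply e.injective
    rw [Transfer.e_tr, map_one, h.one]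
  · intro α hα hα1
    obtain ⟨k, hk⟩ := h.rig _ (Transfer.aut_tr e F hα) (by
      change e (α (e.symm 1)) = 1
      rw [map_one, hα1, map_one])
    refine ⟨ρ ^ k, fun x => ?_⟩
    apply e.injective
    rw [hpow, ← hk (e x)]
    change e (α x) = e (α (e.symm (e x)))
    rw [e.symm_apply_apply]
  · intro m hm
    have h1 := h.ker _ (Transfer.ks_tr e F hm)
    rw [SetLike.mem_coe, Subgroup.mem_bot]
    exact (map_eq_one_iff e e.injective).1 h1
  · intro k hk hk1
    exact absurd (Subgroup.mem_bot.1 hk) hk1

theorem wgood_of_amodel {P : Type v} [Group P] (ρ : P) (hρ : ∀ p : P, ∃ k : ℕ, p = ρ ^ k)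
    {N : Type u} [Group N] [MulDistribMulAction P N] {V : Type w} [AddCommGroup V] (e : N ≃ V)
    (hmul : ∀ x y, e (x * y) = e x + e y)
    {R F : V → V} (he : ∀ x, e (ρ • x) = R (e x)) (h : AModel R F) : WGood P N := by
  let e' : N ≃* Multiplicative V :=
    { toFun := fun x => Multiplicative.ofAdd (e x)
      invFun := fun v => e.symm (Multiplicative.toAdd v)
      left_inv := fun x => by simp
      right_inv := fun v => by simp
      map_mul' := fun x y => by
        rw [hmul]
        rfl }
  let R' : Multiplicative V → Multiplicative V := fun v =>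
    Multiplicative.ofAdd (R (Multiplicative.toAdd v))
  let F' : Multiplicative V → Multiplicative V := fun v =>
    Multiplicative.ofAdd (F (Multiplicative.toAdd v))
  have hq : ∀ x y : V, qop F' (Multiplicative.ofAdd x) (Multiplicative.ofAdd y) =
      Multiplicative.ofAdd (x + F (y - x)) := by
    intro x y
    change Multiplicative.ofAdd (x + F (-x + y)) = _
    rw [neg_add_eq_sub]
  refine wgood_of_model ρ hρ e' (R := R') (F := F') (fun x => ?_) ⟨?_, ?_, ?_, ?_, ?_, ?_⟩
  · change Multiplicative.ofAdd (e (ρ • x)) = Multiplicative.ofAdd (R (e x))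
    rw [he]
  · refine ⟨h.bij, ?_⟩
    have h1 : (fun x : Multiplicative V => x⁻¹ * F' x) =
        (fun x : V => F x - x) := by
      funext x
      change -(Multiplicative.toAdd x) + F (Multiplicative.toAdd x) =
        F (Multiplicative.toAdd x) - Multiplicative.toAdd x
      exact neg_add_eq_sub _ _
    rw [h1]
    exact h.bij'
  · intro x
    exact congrArg Multiplicative.ofAdd (h.comm x)
  · exact congrArg Multiplicative.ofAdd h.zero
  · intro α hα hα1
    refine h.rig α (fun x y => ?_) hα1
    have h1 := hα (Multiplicative.ofAdd x) (Multiplicative.ofAdd y)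
    rw [hq] at h1
    exact h1.trans (hq (Multiplicative.toAdd (α (Multiplicative.ofAdd x)))
      (Multiplicative.toAdd (α (Multiplicative.ofAdd y))))
  · intro r hr g hg x
    refine h.hom r hr g (fun x y => ?_) x
    have h1 := hg (Multiplicative.ofAdd x) (Multiplicative.ofAdd y)
    rw [hq] at h1
    refine h1.trans ?_
    rw [nsmul_eq_mul]
    norm_cast
  · intro m hm
    refine h.ker m fun y => ?_
    have h1 := hm 1 (Multiplicative.ofAdd y)
    rw [inv_one, one_mul, mul_one, one_mul, mul_one] at h1
    exact h1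

theorem wgood_congr {P : Type v} [Group P] {N : Type u} {N' : Type w} [Group N] [Group N']
    [MulDistribMulAction P N] [MulDistribMulAction P N'] (e : N ≃* N')
    (he : ∀ (p : P) x, e (p • x) = p • e x) (h : WGood P N) : WGood P N' := by
  obtain ⟨F, h⟩ := h
  have he' : ∀ (p : P) x, e.symm (p • x) = p • e.symm x := by
    intro p x
    apply e.injective
    rw [he]
    simp
  obtain ⟨K, hK1, hK2, hK3⟩ := h.ker
  refine ⟨Transfer.tr e.symm F, Transfer.orth_tr e.symm F h.orth, ?_, ?_, ?_,
    Transfer.homFree_tr e.symm F h.hom, K.map e.toMonoidHom, ?_, ?_, ?_⟩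
  · intro p x
    apply e.symm.injective
    rw [Transfer.e_tr, he', he', Transfer.e_tr, h.equi]
  · apply e.symm.injective
    rw [Transfer.e_tr, map_one, h.one]
  · intro α hα hα1
    obtain ⟨p, hp⟩ := h.rig _ (Transfer.aut_tr e.symm F hα) (by
      change e.symm (α (e.symm.symm 1)) = 1
      rw [map_one, hα1, map_one])
    refine ⟨p, fun x => ?_⟩
    apply e.symm.injective
    rw [he', ← hp (e.symm x)]
    change e.symm (α x) = e.symm (α (e.symm.symm (e.symm x)))
    rw [e.symm.symm_apply_apply]
  · rintro _ ⟨k, hk, rfl⟩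
    rw [Subgroup.mem_center_iff]
    intro g
    have h1 := Subgroup.mem_center_iff.1 (hK1 hk) (e.symm g)
    apply e.symm.injective
    rw [map_mul, map_mul]
    simpa using h1
  · intro m hm
    have h1 := hK2 (Transfer.ks_tr e.symm F hm)
    exact ⟨e.symm m, h1, by simp⟩
  · rintro _ ⟨k, hk, rfl⟩ hk1 H hH hkH
    have h1 : K ≤ H.comap e.toMonoidHom := by
      refine hK3 k hk (fun h0 => hk1 (by rw [h0]; exact map_one _)) _ ?_ hkH
      intro p x hx
      have h2 := hH p _ hx
      change e (p • x) ∈ H
      rw [he]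
      exact h2
    rintro _ ⟨l, hl, rfl⟩
    exact h1 hl

end Pool.Agent.Lib_MP_8306f4_co.CaseB
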