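import Pool.Agent.Lib_MP_8306f4_co.CaseB.Defs
import Pool.Agent.Lib_MP_8306f4_co.CaseB.Transfer

/-!
# MP_8306f4_co, case B, piece Base27

Notation. x·y = qop f x y = x f(x⁻¹y) on N; lambda_m: y -> m y is always an automorphism of it
(f commutes with nothing needed). 1·y = f(y). If Equi P f, then y -> p•y is an automorphism.
core(A): a∘b = 2b-a. For every x: y -> x·y is bijective (f bijective), for every y: x -> x·y is
bijective (x⁻¹f(x) bijective). '2 is invertible': all groups N have odd order.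

## B11 (Base27.lean): base_27. N nonabelian (else the fixed subgroup is central). Z(N)=<c> inverted, order 3; y fixed of
order 3; x inverted, not in Z(N). Either x³=1 or x³≠1 (then order 9). Models (word LLR: x≠1 and R(L(L x))=x iff x in
{a, z a}, L=F, R(x)=x F(x⁻¹); {1,a} generates; R^k(b)=b, k odd, {1,b} generates):
M1: (x,y,z)(x',y',z')=(x+x',y+y',z+z'+x y') mod 3, z-action (-x,y,-z); F on (0,0,0),(0,0,1),..,(2,2,2) (lexicographic):
[(0,0,0),(1,1,0),(2,1,0),(0,2,0),(2,2,1),(1,2,2),(0,1,0),(2,2,0),(1,2,0),(2,2,2),(0,2,1),(0,0,2),(1,1,2),(0,1,2),(2,0,2),(1,1,1),(1,0,0),(2,0,1),(1,2,1),(0,0,1),(0,2,2),(2,1,1),(1,0,1),(0,1,1),(2,1,2),(1,0,2),(2,0,0)]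
a=(1,2,1), b=(0,0,1), k=5.
M2: Z9:Z3, (a,b)(a',b')=(a+4^b a',b+b'), z-action (-a,b); F on (0,0),(0,1),(0,2),(1,0),...:
[(0,0),(0,2),(0,1),(5,0),(2,2),(4,2),(3,0),(8,0),(1,1),(6,1),(8,2),(2,0),(6,2),(5,1),(2,1),(3,2),(4,1),(7,1),(3,1),(1,2),(7,0),(6,0),(1,0),(8,1),(4,0),(7,2),(5,2)]
a=(1,2), b=(1,1), k=3.
-/

universe u v w

namespace Pool.Agent.Lib_MP_8306f4_co.CaseB

open Pool.Agent.Lib_MP_8306f4_co

namespace Base27

section

variable {V : Type} [Group V] [DecidableEq V]

/-- the elements generated in the given steps -/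
def run (op : V → V → V) : List (V × V) → List V → List V
  | [], l => l
  | p :: s, l => if p.1 ∈ l ∧ p.2 ∈ l then run op s (op p.1 p.2 :: l) else l

omit [Group V] in
theorem run_sound (op : V → V → V) {T : V → Prop} (hT : ∀ x y, T x → T y → T (op x y)) :
    ∀ (s : List (V × V)) (l : List V), (∀ x ∈ l, T x) → ∀ x ∈ run op s l, T x := by
  intro s
  induction s with
  | nil => intro l hl x hx; exact hl x hx
  | cons p s ih =>
    intro l hl x hx
    rw [run] at hx
    split_ifs at hx with h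
    · refine ih _ ?_ x hx
      intro y hy
      rcases List.mem_cons.1 hy with rfl | hy
      · exact hT _ _ (hl _ h.1) (hl _ h.2)
      · exact hl _ hy
    · exact hl x hx

/-- certificates for models -/
theorem model_of_cert [Finite V] {R F : V → V} (A : List V) (hA : ∀ x, x ∈ A)
    (hRmul : ∀ x y, R (x * y) = R x * R y) (a b : V) (k : ℕ)
    (hk : k % 2 = 1) (s1 s2 : List (V × V))
    (h1 : A.all (fun x => A.all fun y => decide (x = y) ||
      (decide (F x ≠ F y) && decide (x⁻¹ * F x ≠ y⁻¹ * F y))) = true)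
    (h2 : A.all (fun x => decide (F (R x) = R (F x))) = true) (h3 : F 1 = 1)
    (h4 : A.all (fun x => decide (x = 1) || decide (x = a) || decide (x = R a) ||
      decide (F (F x) * F (F (F x))⁻¹ ≠ x)) = true)
    (h4' : a ≠ 1) (h4'' : F (F a) * F (F (F a))⁻¹ = a)
    (h5 : A.all (fun x => decide (x ∈ run (qop F) s1 [a, 1])) = true)
    (h6 : A.all (fun x => decide (x ∈ run (qop F) s2 [b, 1])) = true)
    (h7 : (fun x => x * F x⁻¹)^[k] b = b)
    (h8 : A.all (fun m => decide (m = 1) ||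
      A.any (fun y => decide (F (m * y) ≠ m * m * F y))) = true) : Model R F := by
  simp only [List.all_eq_true, List.any_eq_true, decide_eq_true_eq, Bool.or_eq_true,
    Bool.and_eq_true] at h1 h2 h4 h5 h6 h8
  have hinj1 : Function.Injective F := by
    intro x y hxy
    rcases h1 x (hA x) y (hA y) with h | h
    · exact h
    · exact absurd hxy h.1
  have hinj2 : Function.Injective (fun x => x⁻¹ * F x) := by
    intro x y hxy
    rcases h1 x (hA x) y (hA y) with h | h
    · exact h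
    · exact absurd hxy h.2
  have horth : IsOrth F :=
    ⟨Finite.injective_iff_bijective.1 hinj1, Finite.injective_iff_bijective.1 hinj2⟩
  have hR1 : R 1 = 1 := by
    have := hRmul 1 1
    simpa using this
  have hRi : ∀ x, R x⁻¹ = (R x)⁻¹ := by
    intro x
    have := hRmul x⁻¹ x
    rw [inv_mul_cancel, hR1] at this
    exact eq_inv_of_mul_eq_one_left this.symm
  have hRF : ∀ x, F (R x) = R (F x) := fun x => h2 x (hA x)
  have hRq : ∀ x y, R (qop F x y) = qop F (R x) (R y) := by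
    intro x y
    simp only [qop]
    rw [hRmul, ← hRF, hRmul, hRi]
  have gen1 : ∀ T : V → Prop, (∀ x y, T x → T y → T (qop F x y)) → T 1 → T a → ∀ x, T x := by
    intro T hT hT1 hTa x
    refine run_sound _ hT s1 [a, 1] ?_ x (h5 x (hA x))
    intro y hy
    simp only [List.mem_cons, List.not_mem_nil, or_false] at hy
    rcases hy with rfl | rfl
    · exact hTa
    · exact hT1
  have gen2 : ∀ T : V → Prop, (∀ x y, T x → T y → T (qop F x y)) → T 1 → T b → ∀ x, T x := by
    intro T hT hT1 hTa x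
    refine run_sound _ hT s2 [b, 1] ?_ x (h6 x (hA x))
    intro y hy
    simp only [List.mem_cons, List.not_mem_nil, or_false] at hy
    rcases hy with rfl | rfl
    · exact hTa
    · exact hT1
  have q1 : ∀ x, qop F 1 x = F x := fun x => by simp [qop]
  have q2 : ∀ x, qop F x 1 = x * F x⁻¹ := fun x => by simp [qop]
  refine ⟨horth, hRF, h3, ?_, ?_, ?_⟩
  · intro α hα hα1
    have hα' : ∀ x y, α (qop F x y) = qop F (α x) (α y) := hα
    have hαF : ∀ x, α (F x) = F (α x) := by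
      intro x
      have := hα' 1 x
      rwa [hα1, q1, q1] at this
    have hαR : ∀ x, α (x * F x⁻¹) = α x * F (α x)⁻¹ := by
      intro x
      have := hα' x 1
      rwa [hα1, q2, q2] at this
    have e1 : F (F (α a)) * F (F (F (α a)))⁻¹ = α a := by
      rw [← hαF, ← hαF, ← hαR, h4'']
    rcases h4 (α a) (hA _) with ((h | h) | h) | h
    · exfalso
      apply h4'
      apply α.injective
      rw [h, hα1]
    · refine ⟨0, fun x => ?_⟩
      have := gen1 (fun x => α x = x) (by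
        intro x y hx hy
        rw [hα', hx, hy]) hα1 h x
      simpa using this
    · refine ⟨1, fun x => ?_⟩
      have := gen1 (fun x => α x = R x) (by
        intro x y hx hy
        rw [hα', hx, hy, hRq]) (by rw [hα1, hR1]) h x
      simpa using this
    · exact absurd e1 h
  · intro r hr h hh x
    have hop : ∀ x y, h (qop F x y) = 2 • h y - h x := hh
    rcases hr.eq_two_or_odd with rfl | hodd
    · obtain ⟨y, hy⟩ := (qop_isQuasigroup horth).1 x |>.2 1
      have h9 := hop x y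
      simp only at hy
      rw [hy] at h9
      have h10 : (2 : ℕ) • h y = 0 := by
        rw [nsmul_eq_mul, CharP.cast_eq_zero, zero_mul]
      rw [h10, zero_sub] at h9
      have h11 : ∀ c : ZMod 2, -c = c := by decide
      rw [h9, h11]
    · have hneg : ∀ n : ℕ, h ((fun x => x * F x⁻¹)^[n] b) - h 1 = (-1) ^ n * (h b - h 1) := by
        intro n
        induction n with
        | zero => simp
        | succ n ih =>
          rw [Function.iterate_succ_apply']
          have h9 := hop ((fun x => x * F x⁻¹)^[n] b) 1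
          rw [q2] at h9
          rw [h9, pow_succ]
          have h10 : (2 : ℕ) • h 1 = 2 * h 1 := by simp
          rw [h10]
          linear_combination -ih
      have hb : h b = h 1 := by
        have h9 := hneg k
        rw [h7] at h9
        have h10 : (-1 : ZMod r) ^ k = -1 := Odd.neg_one_pow (Nat.odd_iff.2 hk)
        rw [h10] at h9
        have hf : Fact r.Prime := ⟨hr⟩
        have h11 : (2 : ZMod r) * (h b - h 1) = 0 := by linear_combination h9
        have h12 : (2 : ZMod r) ≠ 0 := by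
          intro h0
          have h13 : ((2 : ℕ) : ZMod r) = 0 := by exact_mod_cast h0
          rw [ZMod.natCast_eq_zero_iff] at h13
          have := Nat.le_of_dvd (by norm_num) h13
          have := hr.two_le
          have : r = 2 := by omega
          omega
        rcases mul_eq_zero.1 h11 with h13 | h13
        · exact absurd h13 h12
        · exact sub_eq_zero.1 h13
      exact gen2 (fun x => h x = h 1) (by
        intro x y hx hy
        rw [hop, hx, hy]
        simp [two_mul]) rfl hb x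
  · intro m hm
    rcases h8 m (hA m) with h | ⟨y, _, hy⟩
    · exact h
    · exfalso
      apply hy
      have := hm 1 y
      simpa [pow_two] using this

end

/-- the group of exponent 3 -/
def M1 : Type := ZMod 3 × ZMod 3 × ZMod 3

instance : DecidableEq M1 := inferInstanceAs (DecidableEq (ZMod 3 × ZMod 3 × ZMod 3))

instance : Finite M1 := inferInstanceAs (Finite (ZMod 3 × ZMod 3 × ZMod 3))

instance : Mul M1 := ⟨fun p q => (p.1 + q.1, p.2.1 + q.2.1, p.2.2 + q.2.2 + p.1 * q.2.1)⟩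

instance : One M1 := ⟨((0 : ZMod 3), (0 : ZMod 3), (0 : ZMod 3))⟩

instance : Inv M1 := ⟨fun p => (-p.1, -p.2.1, -p.2.2 + p.1 * p.2.1)⟩

theorem M1_mul (p q : M1) :
    p * q = (p.1 + q.1, p.2.1 + q.2.1, p.2.2 + q.2.2 + p.1 * q.2.1) := rfl

theorem M1_ext {p q : M1} (h1 : p.1 = q.1) (h2 : p.2.1 = q.2.1) (h3 : p.2.2 = q.2.2) : p = q :=
  Prod.ext h1 (Prod.ext h2 h3)

instance : Group M1 := Group.ofLeftAxioms
  (by
    intro p q r
    apply M1_ext
    · change p.1 + q.1 + r.1 = p.1 + (q.1 + r.1)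
      ring
    · change p.2.1 + q.2.1 + r.2.1 = p.2.1 + (q.2.1 + r.2.1)
      ring
    · change p.2.2 + q.2.2 + p.1 * q.2.1 + r.2.2 + (p.1 + q.1) * r.2.1 =
        p.2.2 + (q.2.2 + r.2.2 + q.1 * r.2.1) + p.1 * (q.2.1 + r.2.1)
      ring)
  (by
    intro p
    apply M1_ext
    · change 0 + p.1 = p.1
      ring
    · change 0 + p.2.1 = p.2.1
      ring
    · change 0 + p.2.2 + 0 * p.2.1 = p.2.2
      ring)
  (by
    intro p
    apply M1_ext
    · change -p.1 + p.1 = 0
      ring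
    · change -p.2.1 + p.2.1 = 0
      ring
    · change -p.2.2 + p.1 * p.2.1 + p.2.2 + -p.1 * p.2.1 = 0
      ring)

/-- the involution -/
def R1 (p : M1) : M1 := (-p.1, p.2.1, -p.2.2)

def T1 : List M1 :=
  [(0, 0, 0), (1, 1, 0), (2, 1, 0), (0, 2, 0), (2, 2, 1), (1, 2, 2), (0, 1, 0), (2, 2, 0), (1,
   2, 0), (2, 2, 2), (0, 2, 1), (0, 0, 2), (1, 1, 2), (0, 1, 2), (2, 0, 2), (1, 1, 1), (1, 0,
   0), (2, 0, 1), (1, 2, 1), (0, 0, 1), (0, 2, 2), (2, 1, 1), (1, 0, 1), (0, 1, 1), (2, 1, 2),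
   (1, 0, 2), (2, 0, 0)]

def A1 : List (ZMod 3 × ZMod 3 × ZMod 3) :=
  [(0, 0, 0), (0, 0, 1), (0, 0, 2), (0, 1, 0), (0, 1, 1), (0, 1, 2), (0, 2, 0), (0, 2, 1), (0,
   2, 2), (1, 0, 0), (1, 0, 1), (1, 0, 2), (1, 1, 0), (1, 1, 1), (1, 1, 2), (1, 2, 0), (1, 2,
   1), (1, 2, 2), (2, 0, 0), (2, 0, 1), (2, 0, 2), (2, 1, 0), (2, 1, 1), (2, 1, 2), (2, 2, 0),
   (2, 2, 1), (2, 2, 2)]

theorem A1_mem : ∀ x, x ∈ A1 := by decide +kernel

def F1 (p : M1) : M1 := T1.getD (9 * p.1.val + 3 * p.2.1.val + p.2.2.val) 1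

def s11 : List (M1 × M1) :=
  [((0, 0, 0), (1, 2, 1)), ((0, 0, 0), (1, 0, 0)), ((0, 0, 0), (2, 2, 2)), ((1, 2, 1), (1, 0,
   0)), ((0, 0, 0), (0, 1, 1)), ((0, 0, 0), (2, 2, 1)), ((0, 0, 0), (1, 0, 2)), ((0, 0, 0),
   (0, 0, 2)), ((0, 0, 0), (2, 1, 0)), ((0, 0, 0), (2, 1, 1)), ((0, 0, 0), (1, 0, 1)), ((0, 0,
   0), (0, 2, 1)), ((0, 0, 0), (2, 2, 0)), ((1, 2, 1), (2, 2, 2)), ((0, 0, 0), (1, 1, 1)),
   ((0, 0, 0), (0, 1, 2)), ((0, 0, 0), (1, 2, 2)), ((0, 0, 0), (2, 0, 1)), ((0, 0, 0), (0, 0,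
   1)), ((0, 0, 0), (1, 1, 0)), ((0, 0, 0), (1, 1, 2)), ((0, 0, 0), (2, 0, 2)), ((0, 0, 0),
   (0, 2, 2)), ((1, 2, 1), (1, 1, 1)), ((0, 0, 0), (0, 1, 0))]

def s12 : List (M1 × M1) :=
  [((0, 0, 0), (0, 0, 1)), ((0, 0, 0), (1, 1, 0)), ((0, 0, 0), (1, 1, 2)), ((0, 0, 0), (2, 0,
   2)), ((0, 0, 0), (0, 2, 2)), ((0, 0, 0), (1, 2, 0)), ((0, 0, 0), (1, 1, 1)), ((0, 0, 0),
   (0, 1, 2)), ((0, 0, 0), (1, 2, 2)), ((0, 0, 1), (0, 0, 0)), ((0, 0, 0), (2, 1, 1)), ((0, 0,
   0), (1, 0, 1)), ((0, 0, 0), (0, 2, 1)), ((0, 0, 0), (2, 2, 0)), ((0, 0, 0), (2, 1, 2)),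
   ((0, 0, 0), (0, 1, 1)), ((0, 0, 0), (2, 2, 1)), ((0, 0, 0), (1, 0, 2)), ((0, 0, 0), (0, 0,
   2)), ((0, 0, 1), (1, 1, 0)), ((0, 0, 0), (2, 0, 0)), ((0, 0, 0), (1, 2, 1)), ((0, 0, 0),
   (1, 0, 0)), ((0, 0, 1), (1, 1, 2)), ((0, 0, 0), (0, 1, 0))]

theorem model1 : Model R1 F1 := by
  refine model_of_cert (V := M1) A1 A1_mem ?_ ((1, 2, 1) : ZMod 3 × ZMod 3 × ZMod 3)
    ((0, 0, 1) : ZMod 3 × ZMod 3 × ZMod 3) 5 rfl s11 s12 ?_ ?_ ?_ ?_ ?_ ?_ ?_ ?_ ?_ ?_
  · intro p q
    apply M1_ext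
    · change -(p.1 + q.1) = -p.1 + -q.1
      ring
    · rfl
    · change -(p.2.2 + q.2.2 + p.1 * q.2.1) = -p.2.2 + -q.2.2 + -p.1 * q.2.1
      ring
  all_goals decide +kernel

/-- the group of exponent 9 -/
def M2 : Type := ZMod 9 × ZMod 3

/-- `4 ^ b` -/
def c4 (b : ZMod 3) : ZMod 9 := if b = 0 then 1 else if b = 1 then 4 else 7

theorem c4_add : ∀ a b : ZMod 3, c4 (a + b) = c4 a * c4 b := by decide

theorem c4_zero : c4 0 = 1 := rfl

instance : DecidableEq M2 := inferInstanceAs (DecidableEq (ZMod 9 × ZMod 3))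

instance : Finite M2 := inferInstanceAs (Finite (ZMod 9 × ZMod 3))

instance : Mul M2 := ⟨fun p q => (p.1 + c4 p.2 * q.1, p.2 + q.2)⟩

instance : One M2 := ⟨((0 : ZMod 9), (0 : ZMod 3))⟩

instance : Inv M2 := ⟨fun p => (-(c4 (-p.2) * p.1), -p.2)⟩

theorem M2_mul (p q : M2) : p * q = (p.1 + c4 p.2 * q.1, p.2 + q.2) := rfl

theorem M2_ext {p q : M2} (h1 : p.1 = q.1) (h2 : p.2 = q.2) : p = q :=
  Prod.ext h1 h2

instance : Group M2 := Group.ofLeftAxioms
  (by
    intro p q r
    apply M2_ext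
    · change p.1 + c4 p.2 * q.1 + c4 (p.2 + q.2) * r.1 = p.1 + c4 p.2 * (q.1 + c4 q.2 * r.1)
      rw [c4_add]
      ring
    · change p.2 + q.2 + r.2 = p.2 + (q.2 + r.2)
      ring)
  (by
    intro p
    apply M2_ext
    · change 0 + c4 0 * p.1 = p.1
      rw [c4_zero]
      ring
    · change 0 + p.2 = p.2
      ring)
  (by
    intro p
    apply M2_ext
    · change -(c4 (-p.2) * p.1) + c4 (-p.2) * p.1 = 0
      ring
    · change -p.2 + p.2 = 0
      ring)

/-- the involution -/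
def R2 (p : M2) : M2 := (-p.1, p.2)

def T2 : List M2 :=
  [(0, 0), (0, 2), (0, 1), (5, 0), (2, 2), (4, 2), (3, 0), (8, 0), (1, 1), (6, 1), (8, 2), (2,
   0), (6, 2), (5, 1), (2, 1), (3, 2), (4, 1), (7, 1), (3, 1), (1, 2), (7, 0), (6, 0), (1, 0),
   (8, 1), (4, 0), (7, 2), (5, 2)]

def A2 : List (ZMod 9 × ZMod 3) :=
  [(0, 0), (0, 1), (0, 2), (1, 0), (1, 1), (1, 2), (2, 0), (2, 1), (2, 2), (3, 0), (3, 1), (3,
   2), (4, 0), (4, 1), (4, 2), (5, 0), (5, 1), (5, 2), (6, 0), (6, 1), (6, 2), (7, 0), (7, 1),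
   (7, 2), (8, 0), (8, 1), (8, 2)]

theorem A2_mem : ∀ x, x ∈ A2 := by decide +kernel

def F2 (p : M2) : M2 := T2.getD (3 * p.1.val + p.2.val) 1

def s21 : List (M2 × M2) :=
  [((0, 0), (1, 2)), ((0, 0), (4, 2)), ((0, 0), (2, 1)), ((0, 0), (8, 0)), ((0, 0), (4, 0)),
   ((0, 0), (6, 2)), ((0, 0), (7, 0)), ((0, 0), (6, 0)), ((0, 0), (3, 1)), ((0, 0), (8, 2)),
   ((0, 0), (5, 2)), ((0, 0), (7, 1)), ((0, 0), (1, 0)), ((0, 0), (5, 0)), ((0, 0), (3, 2)),
   ((0, 0), (2, 0)), ((0, 0), (3, 0)), ((1, 2), (7, 0)), ((0, 0), (8, 1)), ((1, 2), (3, 1)),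
   ((0, 0), (0, 1)), ((1, 2), (1, 0)), ((0, 0), (1, 1)), ((1, 2), (3, 0)), ((0, 0), (5, 1))]

def s22 : List (M2 × M2) :=
  [((0, 0), (1, 1)), ((1, 1), (0, 0)), ((0, 0), (5, 2)), ((0, 0), (7, 1)), ((0, 0), (1, 0)),
   ((0, 0), (5, 0)), ((0, 0), (3, 2)), ((0, 0), (2, 0)), ((0, 0), (3, 0)), ((0, 0), (6, 1)),
   ((0, 0), (1, 2)), ((0, 0), (4, 2)), ((0, 0), (2, 1)), ((0, 0), (8, 0)), ((0, 0), (4, 0)),
   ((0, 0), (6, 2)), ((0, 0), (7, 0)), ((0, 0), (6, 0)), ((0, 0), (3, 1)), ((1, 1), (2, 2)),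
   ((0, 0), (5, 1)), ((1, 1), (6, 1)), ((0, 0), (8, 1)), ((1, 1), (8, 0)), ((0, 0), (0, 2))]

theorem model2 : Model R2 F2 := by
  refine model_of_cert (V := M2) A2 A2_mem ?_ ((1, 2) : ZMod 9 × ZMod 3)
    ((1, 1) : ZMod 9 × ZMod 3) 3 rfl s21 s22 ?_ ?_ ?_ ?_ ?_ ?_ ?_ ?_ ?_ ?_
  · intro p q
    apply M2_ext
    · change -(p.1 + c4 p.2 * q.1) = -p.1 + c4 p.2 * -q.1
      ring
    · rfl
  all_goals decide +kernel

theorem pow_val_add {N : Type u} [Group N] {n : ℕ} [NeZero n] {a : N} (ha : a ^ n = 1) :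
    ∀ i j : ZMod n, a ^ (i + j).val = a ^ i.val * a ^ j.val := by
  intro i j
  rw [ZMod.val_add, ← pow_add]
  conv_rhs => rw [← Nat.div_add_mod (i.val + j.val) n, pow_add, pow_mul, ha, one_pow, one_mul]

theorem pow_val_cast {N : Type u} [Group N] {n : ℕ} [NeZero n] {a : N} (ha : a ^ n = 1) (m : ℕ) :
    a ^ (m : ZMod n).val = a ^ m := by
  rw [ZMod.val_natCast]
  conv_rhs => rw [← Nat.div_add_mod m n, pow_add, pow_mul, ha, one_pow, one_mul]

theorem pow_val_neg {N : Type u} [Group N] {n : ℕ} [NeZero n] {a : N} (ha : a ^ n = 1)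
    (i : ZMod n) : a ^ (-i).val = a⁻¹ ^ i.val := by
  have h := pow_val_add ha (-i) i
  rw [neg_add_cancel, ZMod.val_zero, pow_zero] at h
  rw [inv_pow]
  exact eq_inv_of_mul_eq_one_left h.symm

theorem eq_of_val_dvd {n : ℕ} [NeZero n] {i j : ZMod n} (h : (n : ℤ) ∣ (i.val : ℤ) - j.val) :
    i = j := by
  have h1 : ((i.val : ℤ) : ZMod n) = ((j.val : ℤ) : ZMod n) :=
    ((ZMod.intCast_eq_intCast_iff_dvd_sub _ _ _).2 (by
      rw [← dvd_neg]
      simpa using h))
  simpa using h1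

section

variable {P : Type v} [Group P] {z : P} {N : Type u} [Group N] [MulDistribMulAction P N]

theorem dvd_of_zpow {c : N} (hc : c ^ 3 = 1) (hc1 : c ≠ 1) {l : ℤ} (h : c ^ l = 1) :
    (3 : ℤ) ∣ l := by
  have h3 : orderOf c = 3 := by
    have : Fact (Nat.Prime 3) := ⟨by norm_num⟩
    exact orderOf_eq_prime hc hc1
  have := orderOf_dvd_iff_zpow_eq_one.2 h
  rwa [h3] at this

theorem zpow_inj27 (hN : Nat.card N = 27) {x y c : N} (hzx : z • x = x⁻¹) (hzy : z • y = y)
    (hzc : z • c = c⁻¹) (hcc : c ∈ Subgroup.center N) (hc3 : c ^ 3 = 1) (hc1 : c ≠ 1)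
    (hy3 : y ^ 3 = 1) (hy1 : y ≠ 1) (hx : x ∉ Subgroup.center N) {m n l : ℤ}
    (h : y ^ m = x ^ n * c ^ l) (hn : |n| < 3) : n = 0 ∧ (3 : ℤ) ∣ l ∧ (3 : ℤ) ∣ m := by
  have hcen : ∀ g : N, Commute g c := fun g => (Subgroup.mem_center_iff.1 hcc g)
  have h1 : x ^ n * c ^ l = x⁻¹ ^ n * c⁻¹ ^ l := by
    have := congrArg (fun w => z • w) h
    rw [smul_mul', smul_zpow', smul_zpow', smul_zpow', hzx, hzy, hzc] at this
    rw [← h, this]
  have h2 : x ^ (2 * n) = c ^ (-(2 * l)) := by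
    have h3 : x ^ n * (x ^ n * c ^ l) * c ^ l = x ^ n * (x⁻¹ ^ n * c⁻¹ ^ l) * c ^ l := by
      rw [h1]
    rw [inv_zpow, inv_zpow, mul_inv_cancel_left, inv_mul_cancel] at h3
    have h4 : x ^ (2 * n) * c ^ (2 * l) = 1 := by
      rw [two_mul, two_mul, zpow_add, zpow_add, ← h3]
      simp only [mul_assoc]
    rw [zpow_neg]
    exact eq_inv_of_mul_eq_one_left h4
  have hn0 : n = 0 := by
    by_contra hne
    apply hx
    have h27 : x ^ (27 : ℤ) = 1 := by
      have := pow_card_eq_one' (x := x)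
      rw [hN] at this
      exact_mod_cast this
    have hcop : IsCoprime (2 * n) (27 : ℤ) := by
      have hn' : n = 1 ∨ n = -1 ∨ n = 2 ∨ n = -2 := by
        rw [abs_lt] at hn
        omega
      rcases hn' with rfl | rfl | rfl | rfl
      · exact ⟨14, -1, by norm_num⟩
      · exact ⟨-14, -1, by norm_num⟩
      · exact ⟨7, -1, by norm_num⟩
      · exact ⟨-7, -1, by norm_num⟩
    obtain ⟨u, w, huw⟩ := hcop
    have h5 : x = (x ^ (2 * n)) ^ u := by
      conv_lhs => rw [← zpow_one x, ← huw, zpow_add, mul_comm w, zpow_mul x 27, h27, one_zpow,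
        mul_one, mul_comm u, zpow_mul]
    rw [h5, h2]
    exact Subgroup.zpow_mem _ (Subgroup.zpow_mem _ hcc _) _
  subst hn0
  refine ⟨rfl, ?_, ?_⟩
  · have h3 : c ^ (-(2 * l)) = 1 := by rw [← h2]; simp
    have := dvd_of_zpow hc3 hc1 h3
    omega
  · have h3 : c ^ (-(2 * l)) = 1 := by rw [← h2]; simp
    have h4 := dvd_of_zpow hc3 hc1 h3
    have h5 : (3 : ℤ) ∣ l := by omega
    obtain ⟨l', rfl⟩ := h5
    have h6 : c ^ (3 * l') = 1 := by
      rw [zpow_mul]
      have : c ^ (3 : ℤ) = 1 := by exact_mod_cast hc3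
      rw [this, one_zpow]
    rw [h6, zpow_zero, one_mul] at h
    exact dvd_of_zpow hy3 hy1 h

/-- the parametrisation of the group -/
def Phi (x y c : N) (p : ZMod 3 × ZMod 3 × ZMod 3) : N :=
  y ^ p.2.1.val * x ^ p.1.val * c ^ p.2.2.val

theorem Phi_bij (hN : Nat.card N = 27) {x y c : N} (hzx : z • x = x⁻¹) (hzy : z • y = y)
    (hzc : z • c = c⁻¹) (hcc : c ∈ Subgroup.center N) (hc3 : c ^ 3 = 1) (hc1 : c ≠ 1)
    (hy3 : y ^ 3 = 1) (hy1 : y ≠ 1) (hx : x ∉ Subgroup.center N) :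
    Function.Bijective (Phi x y c) := by
  have hfin : Finite N := Nat.finite_of_card_ne_zero (by omega)
  have hcen : ∀ g : N, Commute g c := fun g => (Subgroup.mem_center_iff.1 hcc g)
  rw [Nat.bijective_iff_injective_and_card]
  constructor
  · rintro ⟨i, j, k⟩ ⟨i', j', k'⟩ h
    change y ^ j.val * x ^ i.val * c ^ k.val = y ^ j'.val * x ^ i'.val * c ^ k'.val at h
    have h1 : y ^ ((j.val : ℤ) - j'.val) =
        x ^ ((i'.val : ℤ) - i.val) * c ^ ((k'.val : ℤ) - k.val) := by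
      have e1 : y ^ ((j.val : ℤ) - j'.val) = (y ^ j'.val)⁻¹ * y ^ j.val := by
        rw [sub_eq_neg_add, zpow_add, zpow_neg, zpow_natCast, zpow_natCast]
      have e2 : x ^ ((i'.val : ℤ) - i.val) = x ^ i'.val * (x ^ i.val)⁻¹ := by
        rw [sub_eq_add_neg, zpow_add, zpow_neg, zpow_natCast, zpow_natCast]
      have e3 : c ^ ((k'.val : ℤ) - k.val) = c ^ k'.val * (c ^ k.val)⁻¹ := by
        rw [sub_eq_add_neg, zpow_add, zpow_neg, zpow_natCast, zpow_natCast]
      rw [e1, e2, e3]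
      have e4 : y ^ j.val = y ^ j'.val * x ^ i'.val * c ^ k'.val * (c ^ k.val)⁻¹ *
          (x ^ i.val)⁻¹ := by
        rw [← h]
        simp [mul_assoc]
      rw [e4]
      have e5 : (x ^ i.val)⁻¹ * (c ^ k'.val * (c ^ k.val)⁻¹) =
          c ^ k'.val * (c ^ k.val)⁻¹ * (x ^ i.val)⁻¹ := by
        have : Commute ((x ^ i.val)⁻¹) (c ^ k'.val * (c ^ k.val)⁻¹) :=
          ((hcen _).pow_right _).mul_right ((hcen _).pow_right _).inv_right
        exact this
      rw [mul_assoc (x ^ i'.val), e5]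
      simp [mul_assoc]
    have hi : i.val < 3 := ZMod.val_lt i
    have hi' : i'.val < 3 := ZMod.val_lt i'
    obtain ⟨h2, h3, h4⟩ := zpow_inj27 hN hzx hzy hzc hcc hc3 hc1 hy3 hy1 hx h1 (by
      rw [abs_lt]; omega)
    have g1 : i' = i := eq_of_val_dvd (by rw [h2]; exact dvd_zero _)
    have g2 : k' = k := eq_of_val_dvd h3
    have g3 : j = j' := eq_of_val_dvd h4
    rw [g1, g2, g3]
  · rw [hN, Nat.card_prod, Nat.card_prod, Nat.card_zmod]

theorem comm_pow {x y c : N} (hcc : c ∈ Subgroup.center N) (h : x * y = c * (y * x)) (i j : ℕ) :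
    x ^ i * y ^ j = c ^ (i * j) * (y ^ j * x ^ i) := by
  have hcen : ∀ g : N, Commute g c := fun g => (Subgroup.mem_center_iff.1 hcc g)
  have h1 : ∀ j : ℕ, x * y ^ j = c ^ j * (y ^ j * x) := by
    intro j
    induction j with
    | zero => simp
    | succ j ih =>
      calc x * y ^ (j + 1) = (x * y ^ j) * y := by rw [pow_succ, mul_assoc]
        _ = c ^ j * (y ^ j * (x * y)) := by rw [ih]; simp only [mul_assoc]
        _ = c ^ j * ((y ^ j * c) * (y * x)) := by rw [h]; simp only [mul_assoc]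
        _ = c ^ j * ((c * y ^ j) * (y * x)) := by rw [(hcen (y ^ j)).eq]
        _ = c ^ (j + 1) * (y ^ (j + 1) * x) := by
          rw [pow_succ, pow_succ]; simp only [mul_assoc]
  induction i with
  | zero => simp
  | succ i ih =>
    calc x ^ (i + 1) * y ^ j = x * (x ^ i * y ^ j) := by rw [pow_succ', mul_assoc]
      _ = (x * c ^ (i * j)) * (y ^ j * x ^ i) := by rw [ih, mul_assoc]
      _ = (c ^ (i * j) * x) * (y ^ j * x ^ i) := by rw [((hcen x).pow_right _).eq]
      _ = c ^ (i * j) * ((x * y ^ j) * x ^ i) := by simp only [mul_assoc]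
      _ = c ^ (i * j) * (c ^ j * (y ^ j * x) * x ^ i) := by rw [h1]
      _ = c ^ ((i + 1) * j) * (y ^ j * x ^ (i + 1)) := by
        rw [add_mul, one_mul, pow_add, pow_succ']; simp only [mul_assoc]

theorem good1 (hρ : ∀ p : P, ∃ k : ℕ, p = z ^ k) (hN : Nat.card N = 27) {x y c : N}
    (hzx : z • x = x⁻¹) (hzy : z • y = y)
    (hzc : z • c = c⁻¹) (hcc : c ∈ Subgroup.center N) (hc3 : c ^ 3 = 1) (hc1 : c ≠ 1)
    (hy3 : y ^ 3 = 1) (hy1 : y ≠ 1) (hx : x ∉ Subgroup.center N) (hx3 : x ^ 3 = 1)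
    (h : x * y = c * (y * x)) : WGood P N := by
  have hcen : ∀ g : N, Commute g c := fun g => (Subgroup.mem_center_iff.1 hcc g)
  have hmul : ∀ p q : M1, Phi x y c (p * q) = Phi x y c p * Phi x y c q := by
    intro p q
    rw [M1_mul]
    change y ^ (p.2.1 + q.2.1).val * x ^ (p.1 + q.1).val *
      c ^ (p.2.2 + q.2.2 + p.1 * q.2.1).val =
      (y ^ p.2.1.val * x ^ p.1.val * c ^ p.2.2.val) * (y ^ q.2.1.val * x ^ q.1.val * c ^ q.2.2.val)
    have e1 : c ^ (p.1 * q.2.1).val = c ^ (p.1.val * q.2.1.val) := by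
      rw [← pow_val_cast hc3 (p.1.val * q.2.1.val)]
      have e0 : ∀ u w : ZMod 3, u * w = ((u.val * w.val : ℕ) : ZMod 3) := by decide
      rw [e0]
    rw [pow_val_add hy3, pow_val_add hx3, pow_val_add hc3, pow_val_add hc3, e1]
    have e2 := comm_pow hcc h p.1.val q.2.1.val
    generalize p.1.val = i at *
    generalize p.2.1.val = j at *
    generalize p.2.2.val = k at *
    generalize q.1.val = i' at *
    generalize q.2.1.val = j' at *
    generalize q.2.2.val = k' at *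
    have c1 : ∀ (g : N) (n : ℕ), c ^ n * g = g * c ^ n := fun g n =>
      (((hcen g).pow_right n).eq).symm
    calc y ^ j * y ^ j' * (x ^ i * x ^ i') * (c ^ k * c ^ k' * c ^ (i * j'))
        = y ^ j * y ^ j' * (x ^ i * x ^ i') * (c ^ (i * j') * (c ^ k * c ^ k')) := by
          rw [c1 (c ^ k * c ^ k') (i * j')]
      _ = y ^ j * (c ^ (i * j') * (y ^ j' * x ^ i)) * x ^ i' * (c ^ k * c ^ k') := by
          rw [c1 (y ^ j' * x ^ i) (i * j')]
          simp only [mul_assoc]
          rw [← mul_assoc (x ^ i') (c ^ (i * j')), ← c1 (x ^ i') (i * j')]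
          simp only [mul_assoc]
      _ = y ^ j * (x ^ i * y ^ j') * x ^ i' * (c ^ k * c ^ k') := by rw [← e2]
      _ = y ^ j * x ^ i * (y ^ j' * x ^ i' * c ^ k) * c ^ k' := by simp only [mul_assoc]
      _ = y ^ j * x ^ i * (c ^ k * (y ^ j' * x ^ i')) * c ^ k' := by rw [c1 (y ^ j' * x ^ i') k]
      _ = _ := by simp only [mul_assoc]
  have hbij := Phi_bij hN hzx hzy hzc hcc hc3 hc1 hy3 hy1 hx
  let E : M1 ≃* N := MulEquiv.mk (Equiv.ofBijective (Phi x y c) hbij) hmul
  have hE : ∀ p, E p = Phi x y c p := fun p => rfl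
  refine wgood_of_model z hρ E.symm (R := R1) (F := F1) ?_ model1
  intro w
  rw [MulEquiv.symm_apply_eq, hE]
  obtain ⟨p, rfl⟩ := E.surjective w
  rw [MulEquiv.symm_apply_apply, hE]
  change z • (y ^ p.2.1.val * x ^ p.1.val * c ^ p.2.2.val) =
    y ^ p.2.1.val * x ^ (-p.1).val * c ^ (-p.2.2).val
  rw [smul_mul', smul_mul', smul_pow', smul_pow', smul_pow', hzx, hzy, hzc, pow_val_neg hx3,
    pow_val_neg hc3]

theorem good2 (hρ : ∀ p : P, ∃ k : ℕ, p = z ^ k) (hN : Nat.card N = 27) {x y : N}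
    (hzx : z • x = x⁻¹) (hzy : z • y = y) (hy3 : y ^ 3 = 1) (hy1 : y ≠ 1) (hx9 : x ^ 9 = 1)
    (hx3 : x ^ 3 ≠ 1) (h : y * x = x ^ 4 * y) : WGood P N := by
  have hord : orderOf x = 9 := by
    have : Fact (Nat.Prime 3) := ⟨by norm_num⟩
    exact orderOf_eq_prime_pow (p := 3) (n := 1) (by simpa using hx3) (by simpa using hx9)
  have h1 : ∀ n : ℕ, y * x ^ n = x ^ (4 * n) * y := by
    intro n
    induction n with
    | zero => simp
    | succ n ih =>
      rw [pow_succ, ← mul_assoc, ih, mul_assoc, h, ← mul_assoc, ← pow_add]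
      congr 2
  have h2 : ∀ b n : ℕ, y ^ b * x ^ n = x ^ (4 ^ b * n) * y ^ b := by
    intro b
    induction b with
    | zero => intro n; simp
    | succ b ih =>
      intro n
      rw [pow_succ, mul_assoc, h1, ← mul_assoc, ih, mul_assoc]
      congr 2
      ring
  let Psi : M2 → N := fun p => x ^ p.1.val * y ^ p.2.val
  have hmul : ∀ p q : M2, Psi (p * q) = Psi p * Psi q := by
    intro p q
    rw [M2_mul]
    change x ^ (p.1 + c4 p.2 * q.1).val * y ^ (p.2 + q.2).val =
      (x ^ p.1.val * y ^ p.2.val) * (x ^ q.1.val * y ^ q.2.val)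
    have e1 : x ^ (c4 p.2 * q.1).val = x ^ (4 ^ p.2.val * q.1.val) := by
      have e2 : ∀ (b : ZMod 3) (u : ZMod 9), c4 b * u = ((4 ^ b.val * u.val : ℕ) : ZMod 9) := by
        decide
      rw [← pow_val_cast hx9 (4 ^ p.2.val * q.1.val), e2]
    rw [pow_val_add hx9, pow_val_add hy3, e1, mul_assoc, mul_assoc, ← mul_assoc (y ^ p.2.val),
      h2]
    simp only [mul_assoc]
  have hbij : Function.Bijective Psi := by
    have hfin : Finite N := Nat.finite_of_card_ne_zero (by omega)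
    rw [Nat.bijective_iff_injective_and_card]
    constructor
    · intro p q hpq
      change x ^ p.1.val * y ^ p.2.val = x ^ q.1.val * y ^ q.2.val at hpq
      have h3 : x ^ ((p.1.val : ℤ) - q.1.val) = y ^ ((q.2.val : ℤ) - p.2.val) := by
        have e1 : y ^ ((q.2.val : ℤ) - p.2.val) = y ^ q.2.val * (y ^ p.2.val)⁻¹ := by
          rw [sub_eq_add_neg, zpow_add, zpow_neg, zpow_natCast, zpow_natCast]
        have e2 : x ^ ((p.1.val : ℤ) - q.1.val) = (x ^ q.1.val)⁻¹ * x ^ p.1.val := by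
          rw [sub_eq_neg_add, zpow_add, zpow_neg, zpow_natCast, zpow_natCast]
        rw [e1, e2, inv_mul_eq_iff_eq_mul, ← mul_assoc, ← hpq]
        simp [mul_assoc]
      have h4 : x⁻¹ ^ ((p.1.val : ℤ) - q.1.val) = y ^ ((q.2.val : ℤ) - p.2.val) := by
        have := congrArg (fun w => z • w) h3
        rwa [smul_zpow', smul_zpow', hzx, hzy] at this
      have h5 : x ^ (2 * ((p.1.val : ℤ) - q.1.val)) = 1 := by
        rw [two_mul, zpow_add]
        nth_rewrite 1 [h3]
        rw [← h4, inv_zpow, inv_mul_cancel]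
      have h6 := orderOf_dvd_iff_zpow_eq_one.2 h5
      rw [hord] at h6
      have h7 : (9 : ℤ) ∣ (p.1.val : ℤ) - q.1.val := by
        push_cast at h6
        omega
      have g1 : p.1 = q.1 := eq_of_val_dvd h7
      rw [g1, sub_self, zpow_zero] at h3
      have g2 : q.2 = p.2 := eq_of_val_dvd (dvd_of_zpow hy3 hy1 h3.symm)
      exact M2_ext g1 g2.symm
    · rw [hN]
      change Nat.card (ZMod 9 × ZMod 3) = 27
      rw [Nat.card_prod, Nat.card_zmod, Nat.card_zmod]
  let E : M2 ≃* N := MulEquiv.mk (Equiv.ofBijective Psi hbij) hmul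
  have hE : ∀ p, E p = Psi p := fun p => rfl
  refine wgood_of_model z hρ E.symm (R := R2) (F := F2) ?_ model2
  intro w
  rw [MulEquiv.symm_apply_eq, hE]
  obtain ⟨p, rfl⟩ := E.surjective w
  rw [MulEquiv.symm_apply_apply, hE]
  change z • (x ^ p.1.val * y ^ p.2.val) = x ^ (-p.1).val * y ^ p.2.val
  rw [smul_mul', smul_pow', smul_pow', hzx, hzy, pow_val_neg hx9]

end

end Base27

section
variable {P : Type v} [Group P] {z : P} {N : Type u} [Group N] [Finite N]
  [MulDistribMulAction P N]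

theorem base_27 (hz : TwoCyc z) (h2 : Nat.card P = 2) (h : Nat.card N = 27)
    (hfix : Nat.card (fixS z : Subgroup N) = 3)
    (hcen : ∀ x ∈ Subgroup.center N, z • x = x → x = 1) : WGood P N := by
  have hp3 : Fact (Nat.Prime 3) := ⟨by norm_num⟩
  have hρ : ∀ p : P, ∃ k : ℕ, p = z ^ k := by
    intro p
    obtain ⟨y, hy, hy2⟩ := (Nat.card_eq_two_iff' (1 : P)).1 h2
    by_cases hp : p = 1
    · exact ⟨0, by simpa using hp⟩
    · refine ⟨1, ?_⟩
      rw [pow_one, hy2 p hp, hy2 z hz.ne_one]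
  have hzz : ∀ g : N, z • z • g = g := fun g => by rw [← mul_smul, hz.sq, one_smul]
  -- the fixed element
  have hnt : Nontrivial (fixS z : Subgroup N) := by
    rw [← Finite.one_lt_card_iff_nontrivial]
    omega
  obtain ⟨⟨y, hyf⟩, hy⟩ := exists_ne (1 : (fixS z : Subgroup N))
  have hzy : z • y = y := hyf
  have hy1 : y ≠ 1 := by
    intro h0
    exact hy (Subtype.ext h0)
  have hy3 : y ^ 3 = 1 := by
    have := pow_card_eq_one' (x := (⟨y, hyf⟩ : (fixS z : Subgroup N)))
    rw [hfix] at this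
    exact congrArg Subtype.val this
  -- the center
  have hnc : ¬ ∀ a b : N, a * b = b * a := by
    intro hc
    exact hy1 (hcen y (Subgroup.mem_center_iff.2 fun g => hc g y) hzy)
  have hinvZ : ∀ c ∈ Subgroup.center N, z • c = c⁻¹ := by
    intro c hc
    have hcc := Subgroup.mem_center_iff.1 hc
    have hzc : z • c ∈ Subgroup.center N := by
      rw [Subgroup.mem_center_iff]
      intro g
      calc g * z • c = z • (z • g * c) := by rw [smul_mul', hzz]
        _ = z • (c * z • g) := by rw [hcc]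
        _ = z • c * g := by rw [smul_mul', hzz]
    have h1 := hcen (c * z • c) (Subgroup.mul_mem _ hc hzc) (by
      rw [smul_mul', hzz, hcc])
    exact eq_inv_of_mul_eq_one_right h1
  have hpg : IsPGroup 3 N := IsPGroup.of_card (n := 3) (by rw [h]; norm_num)
  have hntN : Nontrivial N := ⟨⟨y, 1, hy1⟩⟩
  have hcardZ : Nat.card (Subgroup.center N) = 3 := by
    have hdvd : Nat.card (Subgroup.center N) ∣ 3 ^ 3 := by
      have := Subgroup.card_subgroup_dvd_card (Subgroup.center N)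
      rwa [h] at this
    obtain ⟨k, hk, hk'⟩ := (Nat.dvd_prime_pow hp3.out).1 hdvd
    have hcardq := Subgroup.card_eq_card_quotient_mul_card_subgroup (Subgroup.center N)
    interval_cases k
    · exfalso
      have := hpg.center_nontrivial
      rw [← Finite.one_lt_card_iff_nontrivial, hk'] at this
      omega
    · rw [hk']
      norm_num
    · exfalso
      apply hnc
      rw [h, hk'] at hcardq
      have h3 : Nat.card (N ⧸ Subgroup.center N) = 3 := by omega
      have : IsCyclic (N ⧸ Subgroup.center N) := isCyclic_of_prime_card h3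
      exact commutative_of_cyclic_center_quotient (QuotientGroup.mk' (Subgroup.center N))
        (by simp)
    · exfalso
      apply hnc
      have : Subgroup.center N = ⊤ := by
        apply Subgroup.eq_top_of_card_eq
        rw [hk', h]
        norm_num
      intro a b
      exact (Subgroup.mem_center_iff.1 (this ▸ Subgroup.mem_top b : b ∈ Subgroup.center N) a)
  have hZ3 : ∀ c ∈ Subgroup.center N, c ^ 3 = 1 := by
    intro c hc
    have := pow_card_eq_one' (x := (⟨c, hc⟩ : Subgroup.center N))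
    rw [hcardZ] at this
    exact congrArg Subtype.val this
  have hcomm : ∀ a b : N, a * b * a⁻¹ * b⁻¹ ∈ Subgroup.center N := by
    intro a b
    have hcardq := Subgroup.card_eq_card_quotient_mul_card_subgroup (Subgroup.center N)
    rw [h, hcardZ] at hcardq
    have h9 : Nat.card (N ⧸ Subgroup.center N) = 3 ^ 2 := by omega
    have := IsPGroup.isMulCommutative_of_card_eq_prime_sq h9
    rw [← QuotientGroup.eq_one_iff]
    have h10 := mul_comm' (a : N ⧸ Subgroup.center N) b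
    rw [QuotientGroup.mk_mul, QuotientGroup.mk_mul, QuotientGroup.mk_mul, h10,
      QuotientGroup.mk_inv, QuotientGroup.mk_inv]
    simp
  -- the inverted element
  obtain ⟨w, hw⟩ : ∃ w : N, w⁻¹ * z • w ∉ Subgroup.center N := by
    by_contra hcon
    push Not at hcon
    have hs : Function.Surjective (fun p : ↥(fixS z : Subgroup N) × ↥(Subgroup.center N) =>
        (p.1 : N) * p.2) := by
      intro w
      have hc := hcon w
      have hcc := Subgroup.mem_center_iff.1 hc
      have e1 : z • w = w * (w⁻¹ * z • w) := by simp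
      set c := w⁻¹ * z • w with hcdef
      have hf : w * c ^ 2 ∈ fixS z := by
        change z • (w * c ^ 2) = w * c ^ 2
        rw [smul_mul', smul_pow', hinvZ c hc, e1, inv_pow, mul_assoc]
        congr 1
        have : c ^ 3 = 1 := hZ3 c hc
        have e2 : c ^ 2 * c ^ 2 = c := by
          rw [← pow_add, show 2 + 2 = 3 + 1 from rfl, pow_succ, this, one_mul]
        rw [mul_inv_eq_iff_eq_mul, e2]
      refine ⟨(⟨w * c ^ 2, hf⟩, ⟨(c ^ 2)⁻¹, Subgroup.inv_mem _ (Subgroup.pow_mem _ hc 2)⟩), ?_⟩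
      simp
    have := Nat.card_le_card_of_surjective _ hs
    rw [Nat.card_prod, hfix, hcardZ, h] at this
    omega
  set x := w⁻¹ * z • w with hxdef
  have hzx : z • x = x⁻¹ := by
    rw [hxdef, smul_mul', smul_inv', hzz]
    simp
  -- the commutator
  set c := x * y * x⁻¹ * y⁻¹ with hcdef
  have hcc : c ∈ Subgroup.center N := hcomm x y
  have hc3 : c ^ 3 = 1 := hZ3 c hcc
  have hzc : z • c = c⁻¹ := hinvZ c hcc
  have hxy : x * y = c * (y * x) := by
    rw [hcdef]
    simp [mul_assoc]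
  have hc1 : c ≠ 1 := by
    intro h0
    have hZnt : Nontrivial (Subgroup.center N) := by
      rw [← Finite.one_lt_card_iff_nontrivial]
      omega
    obtain ⟨⟨c0, hc0⟩, hc0'⟩ := exists_ne (1 : Subgroup.center N)
    have hc01 : c0 ≠ 1 := fun h0 => hc0' (Subtype.ext h0)
    have hbij := Base27.Phi_bij h hzx hzy (hinvZ c0 hc0) hc0 (hZ3 c0 hc0) hc01 hy3 hy1 hw
    apply hw
    rw [Subgroup.mem_center_iff]
    intro g
    obtain ⟨p, rfl⟩ := hbij.2 g
    have hcom : Commute y x := by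
      rw [h0, one_mul] at hxy
      exact hxy.symm
    have : Commute (Base27.Phi x y c0 p) x := by
      refine Commute.mul_left (Commute.mul_left (hcom.pow_left _) (Commute.pow_self _ _)) ?_
      exact Commute.pow_left (Subgroup.mem_center_iff.1 hc0 x).symm _
    exact this
  have hcen' : ∀ g : N, Commute g c := fun g => (Subgroup.mem_center_iff.1 hcc g)
  by_cases hx3 : x ^ 3 = 1
  · exact Base27.good1 hρ h hzx hzy hzc hcc hc3 hc1 hy3 hy1 hw hx3 hxy
  · have hx3Z : x ^ 3 ∈ Subgroup.center N := by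
      have hbij := Base27.Phi_bij h hzx hzy hzc hcc hc3 hc1 hy3 hy1 hw
      rw [Subgroup.mem_center_iff]
      intro g
      obtain ⟨p, rfl⟩ := hbij.2 g
      have hcom : Commute y (x ^ 3) := by
        have := Base27.comm_pow hcc hxy 3 1
        rw [mul_one, hc3, one_mul, pow_one] at this
        exact this.symm
      have : Commute (Base27.Phi x y c p) (x ^ 3) := by
        refine Commute.mul_left (Commute.mul_left (hcom.pow_left _) ?_) ?_
        · exact (Commute.pow_pow_self x _ _)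
        · exact Commute.pow_left (hcen' _).symm _
      exact this
    have hx9 : x ^ 9 = 1 := by
      have := hZ3 _ hx3Z
      rwa [← pow_mul] at this
    -- the commutator is a power of x ^ 3
    have hcpow : c = x ^ 3 ∨ c = x ^ 6 := by
      have hzp : Subgroup.zpowers (x ^ 3) = Subgroup.center N := by
        apply Subgroup.eq_of_le_of_card_ge
        · rw [Subgroup.zpowers_le]
          exact hx3Z
        · rw [Nat.card_zpowers, hcardZ, orderOf_eq_prime (p := 3) (by rw [← pow_mul]; exact hx9) hx3]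
      rw [← hzp] at hcc
      obtain ⟨k, hk⟩ := (mem_powers_iff_mem_zpowers.2 hcc)
      simp only at hk
      have hk' : c = (x ^ 3) ^ (k % 3) := by
        rw [← hk]
        have h33 : (x ^ 3) ^ 3 = 1 := by rw [← pow_mul]; exact hx9
        conv_lhs => rw [← Nat.div_add_mod k 3, pow_add, pow_mul, h33, one_pow, one_mul]
      have hlt : k % 3 < 3 := Nat.mod_lt _ (by norm_num)
      generalize k % 3 = j at hk' hlt
      interval_cases j
      · exact absurd (by simpa using hk') hc1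
      · left
        simpa using hk'
      · right
        rw [hk', ← pow_mul]
    have hyx : y * x = c⁻¹ * x * y := by
      rw [mul_assoc, hxy]
      simp
    rcases hcpow with hc | hc
    · -- use the square of y
      have e1 : c⁻¹ = x ^ 6 := by
        rw [inv_eq_iff_mul_eq_one, hc, ← pow_add]
        exact hx9
      have e2 : y * x = x ^ 7 * y := by
        rw [hyx, e1, ← pow_succ]
      have e3 : ∀ n : ℕ, y * x ^ n = x ^ (7 * n) * y := by
        intro n
        induction n with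
        | zero => simp
        | succ n ih =>
          rw [pow_succ, ← mul_assoc, ih, mul_assoc, e2, ← mul_assoc, ← pow_add]
          congr 2
      have e4 : y ^ 2 * x = x ^ 4 * y ^ 2 := by
        rw [pow_two, mul_assoc, e2, ← mul_assoc, e3, mul_assoc]
        congr 1
        have : x ^ (7 * 7) = (x ^ 9) ^ 5 * x ^ 4 := by rw [← pow_mul, ← pow_add]
        rw [this, hx9, one_pow, one_mul]
      refine Base27.good2 hρ h hzx (y := y ^ 2) ?_ ?_ ?_ hx9 hx3 e4
      · rw [smul_pow', hzy]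
      · rw [← pow_mul, mul_comm, pow_mul, hy3, one_pow]
      · intro h0
        apply hy1
        have : y = y ^ 3 * (y ^ 2)⁻¹ := by group
        rw [this, hy3, h0]
        simp
    · refine Base27.good2 hρ h hzx hzy hy3 hy1 hx9 hx3 ?_
      have e1 : c⁻¹ = x ^ 3 := by
        rw [inv_eq_iff_mul_eq_one, hc, ← pow_add]
        exact hx9
      rw [hyx, e1, ← pow_succ]

end

end Pool.Agent.Lib_MP_8306f4_co.CaseB
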