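import Pool.Agent.Lib_MP_8306f4_co.CaseB.Defs

/-!
# MP_8306f4_co, case B, piece HomSolv

Notation. x·y = qop f x y = x f(x⁻¹y) on N; lambda_m: y -> m y is always an automorphism of it
(f commutes with nothing needed). 1·y = f(y). If Equi P f, then y -> p•y is an automorphism.
core(A): a∘b = 2b-a. For every x: y -> x·y is bijective (f bijective), for every y: x -> x·y is
bijective (x⁻¹f(x) bijective). '2 is invertible': all groups N have odd order.

## H1 (HomSolv.lean): isHom_two, homFree_solv, isHom_coprime
isHom_two: 2h(y)-h(x) = h(x) in ZMod 2; x·y takes all values (y varies).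
homFree_solv: strong induction on |T|. T≠1 solvable: there is a surjective hom T -> Z_r (r prime;
abelianization nontrivial finite; or a normal subgroup of prime index). The composite is a hom to
core(Z_r), constant. So t(x)t(1)⁻¹ lies in a smaller solvable group T1 and satisfies the same identity.
isHom_coprime: r odd. Fibres: the number F(b) of x with h(x) = b satisfies F(2b-a) = F(b) for all a in
the image of h, so F is invariant under the translations by differences of values of h.

-/

universe u v w

namespace Pool.Agent.Lib_MP_8306f4_co.CaseB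

open Pool.Agent.Lib_MP_8306f4_co

theorem isHom_two {N : Type u} [Group N] {f : N → N} (hf : IsOrth f) (h : N → ZMod 2)
    (hh : IsHom f h) (x : N) : h x = h 1 := by
  obtain ⟨y, hy⟩ := hf.1.2 x
  have h1 := hh 1 y
  have h2 : qop f 1 y = x := by simp [qop, hy]
  rw [h2] at h1
  rw [h1]
  generalize h y = a
  generalize h 1 = b
  revert a b
  decide

namespace HomSolv

/-- A nontrivial finite solvable group has a nontrivial homomorphism to a group of prime order. -/
theorem exists_hom_zmod {T : Type w} [Group T] [Finite T] [Group.IsSolvable T] [Nontrivial T] :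
    ∃ r : ℕ, r.Prime ∧ ∃ ψ : T →* Multiplicative (ZMod r), ψ.ker ≠ ⊤ := by
  have hne : commutator T ≠ ⊤ := (Group.IsSolvable.commutator_lt_top_of_nontrivial T).ne
  have hA : Nontrivial (Abelianization T) := by
    rw [← not_subsingleton_iff_nontrivial]
    intro hs
    apply hne
    rw [eq_top_iff]
    intro x _
    have : Abelianization.of x = (1 : Abelianization T) := Subsingleton.elim _ _
    rw [← MonoidHom.mem_ker, Abelianization.ker_of] at this
    exact this
  obtain ⟨ι, _, n, hn, ⟨e⟩⟩ := CommGroup.equiv_prod_multiplicative_zmod_of_finite (Abelianization T)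
  have hι : Nonempty ι := by
    by_contra hemp
    rw [not_nonempty_iff] at hemp
    obtain ⟨a, b, hab⟩ := hA
    exact hab (e.injective (Subsingleton.elim _ _))
  obtain ⟨i⟩ := hι
  obtain ⟨r, hr, hrd⟩ := Nat.exists_prime_and_dvd (ne_of_gt (hn i))
  let c : Multiplicative (ZMod (n i)) →* Multiplicative (ZMod r) :=
    AddMonoidHom.toMultiplicative (ZMod.castHom hrd (ZMod r)).toAddMonoidHom
  let pr : ((i : ι) → Multiplicative (ZMod (n i))) →* Multiplicative (ZMod (n i)) :=
    Pi.evalMonoidHom _ i
  let ψ : T →* Multiplicative (ZMod r) :=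
    (c.comp (pr.comp e.toMonoidHom)).comp Abelianization.of
  have hsurj : Function.Surjective ψ := by
    have h1 : Function.Surjective c := by
      intro y
      obtain ⟨x, hx⟩ := ZMod.castHom_surjective hrd (Multiplicative.toAdd y)
      exact ⟨Multiplicative.ofAdd x, hx⟩
    have h2 : Function.Surjective pr := Function.surjective_eval i
    have h3 : Function.Surjective e := e.surjective
    have h4 : Function.Surjective (Abelianization.of : T →* Abelianization T) :=
      QuotientGroup.mk_surjective
    exact (h1.comp (h2.comp h3)).comp h4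
  refine ⟨r, hr, ψ, fun htop => ?_⟩
  obtain ⟨x, hx⟩ := hsurj (Multiplicative.ofAdd (1 : ZMod r))
  have h1 : ψ x = 1 := by
    rw [← MonoidHom.mem_ker, htop]; trivial
  rw [h1] at hx
  have h2 : (0 : ZMod r) = 1 := hx
  have : Fact r.Prime := ⟨hr⟩
  exact zero_ne_one h2

theorem aux (n : ℕ) : ∀ {N : Type u} [Group N] {f : N → N} (_ : HomFree f) {T : Type w}
    [Group T] [Finite T] [Group.IsSolvable T] (_ : Nat.card T = n) (t : N → T)
    (_ : ∀ x y, t (qop f x y) = t y * (t x)⁻¹ * t y) (_ : t 1 = 1) (x : N), t x = 1 := by
  induction n using Nat.strong_induction_on with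
  | _ n ih =>
    intro N _ f h T _ _ _ hn t ht ht1 x
    rcases subsingleton_or_nontrivial T with hs | hs
    · exact Subsingleton.elim _ _
    · obtain ⟨r, hr, ψ, hψ⟩ := exists_hom_zmod (T := T)
      have hker : ∀ x, t x ∈ ψ.ker := by
        intro x
        have h1 : IsHom f (fun x => Multiplicative.toAdd (ψ (t x))) := by
          intro x y
          show Multiplicative.toAdd (ψ (t (qop f x y))) = 2 • Multiplicative.toAdd (ψ (t y)) -
            Multiplicative.toAdd (ψ (t x))
          rw [ht, ψ.map_mul, ψ.map_mul, ψ.map_inv, toAdd_mul, toAdd_mul, toAdd_inv, two_nsmul]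
          abel
        have h2 := h r hr _ h1 x
        rw [MonoidHom.mem_ker]
        have h3 : Multiplicative.toAdd (ψ (t x)) = 0 := by
          refine h2.trans ?_
          rw [ht1, map_one]; rfl
        exact h3
      have hlt : Nat.card ψ.ker < n := by
        rw [← hn]
        exact lt_of_le_of_ne (Subgroup.card_le_card_group _)
          (fun he => hψ (Subgroup.eq_top_of_card_eq _ he))
      have h1 := ih _ hlt (N := N) (f := f) h (T := ψ.ker) rfl (fun x => ⟨t x, hker x⟩)
        (fun x y => Subtype.ext (ht x y)) (Subtype.ext ht1) x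
      exact congrArg Subtype.val h1

end HomSolv

theorem homFree_solv {N : Type u} [Group N] {f : N → N} (h : HomFree f) {T : Type w}
    [Group T] [Finite T] [Group.IsSolvable T] (t : N → T)
    (ht : ∀ x y, t (qop f x y) = t y * (t x)⁻¹ * t y) (x : N) : t x = t 1 := by
  have h1 := HomSolv.aux _ h (T := T) rfl (fun x => t x * (t 1)⁻¹) (by
    intro x y
    show t (qop f x y) * (t 1)⁻¹ = t y * (t 1)⁻¹ * (t x * (t 1)⁻¹)⁻¹ * (t y * (t 1)⁻¹)
    rw [ht]
    group) (mul_inv_cancel _) x
  exact mul_inv_eq_one.1 h1

/-- a homomorphism to a core is constant if the orders are coprime -/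
theorem isHom_coprime {N : Type u} [Group N] [Finite N] {f : N → N} (hf : IsOrth f) {r : ℕ}
    (hr : r.Prime) (hrN : ¬ r ∣ Nat.card N) (h : N → ZMod r) (hh : IsHom f h) (x : N) :
    h x = h 1 := by
  classical
  rcases hr.eq_two_or_odd' with rfl | hodd
  · exact isHom_two hf h hh x
  by_contra hne
  have : Fact r.Prime := ⟨hr⟩
  have : Fintype N := Fintype.ofFinite N
  have h2 : (2 : ZMod r) ≠ 0 := by
    intro h0
    have : ((2 : ℕ) : ZMod r) = 0 := by exact_mod_cast h0
    rw [ZMod.natCast_eq_zero_iff] at this
    have h3 := (Nat.prime_dvd_prime_iff_eq hr Nat.prime_two).1 this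
    subst h3
    exact absurd hodd (by decide)
  let F : ZMod r → ℕ := fun b => (Finset.univ.filter fun y => h y = b).card
  have hqinj : ∀ a, Function.Injective (qop f a) := by
    intro a y y' hy
    exact mul_left_cancel (hf.1.1 (mul_left_cancel hy))
  have hqsurj : ∀ a, Function.Surjective (qop f a) := by
    intro a z
    obtain ⟨y, hy⟩ := hf.1.2 (a⁻¹ * z)
    exact ⟨a * y, by simp [qop, hy]⟩
  have hF : ∀ a b, F (2 * b - h a) = F b := by
    intro a b
    have h3 : (Finset.univ.filter fun y => h y = 2 * b - h a) =
        (Finset.univ.filter fun y => h y = b).image (qop f a) := by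
      ext z
      simp only [Finset.mem_filter, Finset.mem_univ, true_and, Finset.mem_image]
      constructor
      · intro hz
        obtain ⟨y, rfl⟩ := hqsurj a z
        refine ⟨y, ?_, rfl⟩
        rw [hh, two_nsmul, ← two_mul, sub_left_inj] at hz
        exact mul_left_cancel₀ h2 hz
      · rintro ⟨y, hy, rfl⟩
        rw [hh, two_nsmul, ← two_mul, hy]
    show (Finset.univ.filter fun y => h y = 2 * b - h a).card = _
    rw [h3, Finset.card_image_of_injective _ (hqinj a)]
  set t : ZMod r := h x - h 1 with ht
  have ht0 : t ≠ 0 := sub_ne_zero.2 hne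
  have hFt : ∀ c, F (c + t) = F c := by
    intro c
    have h3 : 2 * ((c + h x) / 2) = c + h x := mul_div_cancel₀ _ h2
    have h4 := hF x ((c + h x) / 2)
    have h5 := hF 1 ((c + h x) / 2)
    rw [h3] at h4 h5
    have h6 : c + h x - h x = c := by ring
    have h7 : c + h x - h 1 = c + t := by rw [ht]; ring
    rw [h6] at h4
    rw [h7] at h5
    rw [h5, h4]
  have hFn : ∀ n : ℕ, F ((n : ZMod r) * t) = F 0 := by
    intro n
    induction n with
    | zero => simp
    | succ n ih =>
      rw [Nat.cast_succ, add_mul, one_mul, hFt, ih]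
  have hFc : ∀ b, F b = F 0 := by
    intro b
    have h3 : b = ((b / t).val : ZMod r) * t := by
      rw [ZMod.natCast_zmod_val, div_mul_cancel₀ _ ht0]
    rw [h3]
    exact hFn _
  apply hrN
  have h3 : (Finset.univ : Finset N).card = ∑ b : ZMod r, F b :=
    Finset.card_eq_sum_card_fiberwise (fun y _ => Finset.mem_univ (h y))
  rw [Nat.card_eq_fintype_card, ← Finset.card_univ, h3, Finset.sum_congr rfl (fun b _ => hFc b),
    Finset.sum_const, Finset.card_univ, ZMod.card, smul_eq_mul]
  exact Dvd.intro _ rfl

end Pool.Agent.Lib_MP_8306f4_co.CaseB
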