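import Pool.Agent.Lib_MP_8306f4_co.CaseB.Defs

/-!
# MP_8306f4_co, case B, piece KK

Notation. x·y = qop f x y = x f(x⁻¹y) on N; lambda_m: y -> m y is always an automorphism of it
(f commutes with nothing needed). 1·y = f(y). If Equi P f, then y -> p•y is an automorphism.
core(A): a∘b = 2b-a. For every x: y -> x·y is bijective (f bijective), for every y: x -> x·y is
bijective (x⁻¹f(x) bijective). '2 is invertible': all groups N have odd order.

## K1 (KK.lean): kk_*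
IsK f σ: σ in Aut, x·σ(y) = σ²(x·y).
kk_fix: σx=x: σ(x·y)=x·σ(y)=σ²(x·y) for all y, so σ(w)=w for all w = x·y.
kk_inv: replace y by σ⁻¹y.  powers of σ: by induction x·σ^k(y)=σ^{2k}(x·y).
kk_odd: if the order is even, a power τ of σ is an involution with IsK f τ; |N| odd, so τ has a fixed
point, so τ=1, contradiction.
kk_comm: σ(x)·y = σ(x·σ⁻¹y) = σ⁻¹(x·y). Hence σ(x)·τ(y) = σ⁻¹τ²(x·y) = τ²σ⁻¹(x·y), so τ² commutes
with σ; τ has odd order so τ is a power of τ². kk_mul: from kk_comm. kk_conj, kk_left: direct.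
kk_of_rig: m=σ(1); λ_{m⁻¹}σ is in A_1, so σ(x)=m (p•x). σ^k = (left mult)∘p^k. With k = orderOf σ odd:
evaluate at 1, get p^k•x=x for all x; p has 2-power order so p = (p^k)^j acts trivially. So σ=λ_m and
kk_left.

-/

universe u v w

namespace Pool.Agent.Lib_MP_8306f4_co.CaseB

open Pool.Agent.Lib_MP_8306f4_co

namespace KKAux

theorem qsurj {N : Type u} [Group N] {f : N → N} (hf : IsOrth f) (x w : N) :
    ∃ y, qop f x y = w :=
  (qop_isQuasigroup hf).1 x |>.2 w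

theorem pow_eq {N : Type u} [Group N] {f : N → N} {σ : Equiv.Perm N} (hσ : IsK f σ) (k : ℕ)
    (x y : N) : qop f x ((σ ^ k) y) = (σ ^ (2 * k)) (qop f x y) := by
  induction k with
  | zero => simp
  | succ k ih =>
    have h1 : (σ ^ (k + 1)) y = σ ((σ ^ k) y) := by
      rw [pow_succ']
      rfl
    rw [h1, hσ.2, ih]
    have h2 : 2 * (k + 1) = 1 + (1 + 2 * k) := by ring
    rw [h2, pow_add, pow_add, pow_one]
    rfl

theorem pow {N : Type u} [Group N] {f : N → N} {σ : Equiv.Perm N} (hσ : IsK f σ) (k : ℕ) :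
    IsK f (σ ^ k) := by
  refine ⟨pow_mem hσ.1 k, fun x y => ?_⟩
  rw [pow_eq hσ, two_mul, pow_add]
  rfl

end KKAux

open KKAux

section
variable {N : Type u} [Group N] [Finite N]

theorem kk_fix {f : N → N} (hf : IsOrth f) {σ : Equiv.Perm N} (hσ : IsK f σ) {x : N}
    (hx : σ x = x) : σ = 1 := by
  ext w
  obtain ⟨y, rfl⟩ := qsurj hf x w
  have h1 : σ (qop f x y) = qop f (σ x) (σ y) := hσ.1 x y
  rw [hx, hσ.2] at h1
  exact (σ.injective h1).symm

theorem kk_inv {f : N → N} {σ : Equiv.Perm N} (hσ : IsK f σ) : IsK f σ⁻¹ := by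
  refine ⟨inv_mem hσ.1, fun x y => ?_⟩
  apply σ.injective
  apply σ.injective
  rw [← hσ.2]
  simp

theorem kk_odd (hN : Odd (Nat.card N)) {f : N → N} (hf : IsOrth f) {σ : Equiv.Perm N}
    (hσ : IsK f σ) : Odd (orderOf σ) := by
  classical
  have : Fintype N := Fintype.ofFinite N
  rw [← Nat.not_even_iff_odd]
  rintro ⟨m, hm⟩
  have hpos : 0 < orderOf σ := orderOf_pos σ
  have hm0 : 0 < m := by omega
  have h2 : (σ ^ m) ^ 2 ^ 1 = 1 := by
    rw [← pow_mul, pow_one, mul_two, ← hm, pow_orderOf_eq_one]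
  have hcard : ¬ 2 ∣ Fintype.card N := by
    rw [← Nat.card_eq_fintype_card]
    intro h
    rw [← Nat.not_even_iff_odd] at hN
    exact hN (even_iff_two_dvd.2 h)
  obtain ⟨a, ha⟩ := Equiv.Perm.exists_fixed_point_of_prime (p := 2) hcard h2
  have h3 := kk_fix hf (KKAux.pow hσ m) ha
  have h4 := orderOf_dvd_of_pow_eq_one h3
  have h5 := Nat.le_of_dvd hm0 h4
  omega

theorem kk_comm (hN : Odd (Nat.card N)) {f : N → N} (hf : IsOrth f) {σ τ : Equiv.Perm N}
    (hσ : IsK f σ) (hτ : IsK f τ) : σ * τ = τ * σ := by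
  -- `σ(x) · y = σ⁻¹ (x · y)`
  have h1 : ∀ x y, qop f (σ x) y = σ⁻¹ (qop f x y) := by
    intro x y
    have h := hσ.1 x (σ⁻¹ y)
    have h' : σ (σ⁻¹ y) = y := by simp
    rw [h', (kk_inv hσ).2] at h
    rw [← h]
    simp
  have h2 : Commute (τ ^ 2) σ⁻¹ := by
    ext w
    obtain ⟨y, rfl⟩ := qsurj hf 1 w
    have e1 : qop f (σ 1) (τ y) = σ⁻¹ (τ (τ (qop f 1 y))) := by rw [h1, hτ.2]
    have e2 : qop f (σ 1) (τ y) = τ (τ (σ⁻¹ (qop f 1 y))) := by rw [hτ.2, h1]
    rw [pow_two]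
    exact e2.symm.trans e1
  have h3 : Commute (τ ^ 2) σ := by
    have := h2.inv_right
    rwa [inv_inv] at this
  obtain ⟨k, hk⟩ := kk_odd hN hf hτ
  have h4 : (τ ^ 2) ^ (k + 1) = τ := by
    rw [← pow_mul]
    have : 2 * (k + 1) = orderOf τ + 1 := by omega
    rw [this, pow_succ, pow_orderOf_eq_one, one_mul]
  have h5 := h3.pow_left (k + 1)
  rw [h4] at h5
  exact h5.symm

theorem kk_mul (hN : Odd (Nat.card N)) {f : N → N} (hf : IsOrth f) {σ τ : Equiv.Perm N}
    (hσ : IsK f σ) (hτ : IsK f τ) : IsK f (σ * τ) := by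
  refine ⟨mul_mem hσ.1 hτ.1, fun x y => ?_⟩
  have hc := kk_comm hN hf hσ hτ
  change qop f x (σ (τ y)) = σ (τ (σ (τ (qop f x y))))
  rw [hσ.2, hτ.2]
  have h1 : τ (σ (τ (qop f x y))) = σ (τ (τ (qop f x y))) := by
    have := DFunLike.congr_fun hc (τ (qop f x y))
    exact this.symm
  rw [h1]

theorem kk_conj {f : N → N} {α σ : Equiv.Perm N} (hα : α ∈ autGroup (qop f)) (hσ : IsK f σ) :
    IsK f (α * σ * α⁻¹) := by
  refine ⟨mul_mem (mul_mem hα hσ.1) (inv_mem hα), fun x y => ?_⟩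
  change qop f x (α (σ (α⁻¹ y))) = α (σ (α⁻¹ (α (σ (α⁻¹ (qop f x y))))))
  have h1 : α⁻¹ (qop f x y) = qop f (α⁻¹ x) (α⁻¹ y) := (inv_mem hα : α⁻¹ ∈ autGroup (qop f)) x y
  have h2 : ∀ w, α⁻¹ (α w) = w := by simp
  rw [h2, h1, ← hσ.2, hα]
  congr 1
  simp

theorem kk_left {f : N → N} (m : N) : IsK f (Equiv.mulLeft m) ↔ m ∈ KS f := by
  constructor
  · intro h x y
    have h1 := h.2 x (x * y)
    simp only [qop, Equiv.coe_mulLeft] at h1
    have h2 : x⁻¹ * (m * (x * y)) = x⁻¹ * m * x * y := by group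
    have h3 : x⁻¹ * (x * y) = y := by group
    rw [h2, h3] at h1
    have h4 : x⁻¹ * (x * f (x⁻¹ * m * x * y)) = x⁻¹ * (m * (m * (x * f y))) := by rw [h1]
    have h5 : x⁻¹ * (x * f (x⁻¹ * m * x * y)) = f (x⁻¹ * m * x * y) := by group
    rw [h5] at h4
    rw [h4, pow_two]
    group
  · intro h
    refine ⟨(leftT f m).2, fun x y => ?_⟩
    simp only [qop, Equiv.coe_mulLeft]
    have h1 := h x (x⁻¹ * y)
    have h2 : x⁻¹ * m * x * (x⁻¹ * y) = x⁻¹ * (m * y) := by group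
    rw [h2] at h1
    rw [h1, pow_two]
    group

theorem kk_of_rig {P : Type v} [Group P] [Finite P] (hP : IsPGroup 2 P) [MulDistribMulAction P N]
    (hN : Odd (Nat.card N)) {f : N → N} (hf : IsOrth f) (hr : Rig P f) {σ : Equiv.Perm N}
    (hσ : IsK f σ) : ∃ m ∈ KS f, ∀ x, σ x = m * x := by
  have hl : Equiv.mulLeft (σ 1)⁻¹ ∈ autGroup (qop f) := (leftT f (σ 1)⁻¹).2
  obtain ⟨p, hp⟩ := hr (Equiv.mulLeft (σ 1)⁻¹ * σ) (mul_mem hl hσ.1) (by simp)
  have hp' : ∀ x, σ x = σ 1 * (p • x) := by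
    intro x
    have h1 : (σ 1)⁻¹ * σ x = p • x := hp x
    rw [← h1, mul_inv_cancel_left]
  have hpow : ∀ k : ℕ, ∃ c : N, ∀ x, (σ ^ k) x = c * (p ^ k • x) := by
    intro k
    induction k with
    | zero => exact ⟨1, fun x => by simp⟩
    | succ k ih =>
      obtain ⟨c, hc⟩ := ih
      refine ⟨σ 1 * (p • c), fun x => ?_⟩
      have h1 : (σ ^ (k + 1)) x = σ ((σ ^ k) x) := by
        rw [pow_succ']
        rfl
      rw [h1, hc, hp', smul_mul', smul_smul, pow_succ' p k, mul_assoc]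
  have hodd := kk_odd hN hf hσ
  obtain ⟨c, hc⟩ := hpow (orderOf σ)
  rw [pow_orderOf_eq_one] at hc
  have hc1 : c = 1 := by
    have := hc 1
    rw [smul_one, mul_one] at this
    exact this.symm
  have hfix : ∀ x : N, p ^ orderOf σ • x = x := by
    intro x
    have := hc x
    rw [hc1, one_mul] at this
    exact this.symm
  obtain ⟨s, hs⟩ := hP p
  have hcop : (orderOf σ).Coprime (orderOf p) := by
    refine Nat.Coprime.coprime_dvd_right (orderOf_dvd_of_pow_eq_one hs) ?_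
    exact Nat.Coprime.pow_right s (Nat.coprime_two_right.2 hodd)
  obtain ⟨j, hj⟩ := exists_pow_eq_self_of_coprime hcop
  have hfix2 : ∀ x : N, p • x = x := by
    have : ∀ (i : ℕ) (x : N), (p ^ orderOf σ) ^ i • x = x := by
      intro i
      induction i with
      | zero => intro x; simp
      | succ i ih =>
        intro x
        rw [pow_succ, mul_smul, hfix, ih]
    intro x
    have h := this j x
    rwa [hj] at h
  have hσ' : σ = Equiv.mulLeft (σ 1) := by
    ext x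
    rw [hp', hfix2]
    rfl
  refine ⟨σ 1, ?_, fun x => by rw [hp' x, hfix2]⟩
  rw [← kk_left, ← hσ']
  exact hσ

end

end Pool.Agent.Lib_MP_8306f4_co.CaseB
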