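import Pool.Agent.Lib_MP_8306f4_co.CaseB.Defs
import Pool.Agent.Lib_MP_8306f4_co.CaseB.KK
import Pool.Agent.Lib_MP_8306f4_co.CaseB.HomSolv

/-!
# MP_8306f4_co, case B, piece Lift

Notation. x·y = qop f x y = x f(x⁻¹y) on N; lambda_m: y -> m y is always an automorphism of it
(f commutes with nothing needed). 1·y = f(y). If Equi P f, then y -> p•y is an automorphism.
core(A): a∘b = 2b-a. For every x: y -> x·y is bijective (f bijective), for every y: x -> x·y is
bijective (x⁻¹f(x) bijective). '2 is invertible': all groups N have odd order.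

## L1 (Lift.lean): uniq, kk_qlift, lift_rig   [needs K1, H1]
uniq: δ(x)=γ(x)x⁻¹ in ker, δ(kx)=δ(x), so δ=δ'∘π. (δ(x)x)·(δ(y)y)=δ(x)⁻¹δ(y)²(x·y) (central, quad), so
δ'(a·b)=δ'(a)⁻¹δ'(b)² : constant by homFree_solv with T = ker (commutative).
kk_qlift: λ_k (k in ker) is IsK, so σ commutes with it, σ induces σ' on M with IsK f' σ', so
(kk_of_rig on M; |M| odd) σ'=λ_{π n}; λ_n⁻¹σ satisfies the hypotheses of uniq, so σ=λ_{nk}; kk_left.
lift_rig: α in A_1(f). For k in ker αλ_kα⁻¹ is IsK, so = λ_m with m in KS f, so m in ker (hK). So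
π∘α factors, ᾱ in A_1(f')=P, ᾱ=p. γ=p⁻¹α: πγ=π; γ(x)=δ(x)x, δ:N->ker, δ(x·y)=δ(x)⁻¹δ(y)²,
homFree_solv (HomFree f) gives δ=δ(1)=1.

-/

universe u v w

namespace Pool.Agent.Lib_MP_8306f4_co.CaseB

open Pool.Agent.Lib_MP_8306f4_co

namespace LiftAux

theorem delta_rel {N M : Type u} [Group N] [Group M] {f : N → N} {f' : M → M} {π : N →* M}
    (hl : QLift π f f') {γ : N → N} (hγ : ∀ x y, γ (qop f x y) = qop f (γ x) (γ y))
    (h1 : ∀ x, γ x * x⁻¹ ∈ π.ker) (x y : N) :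
    γ (qop f x y) * (qop f x y)⁻¹ = γ y * y⁻¹ * (γ x * x⁻¹)⁻¹ * (γ y * y⁻¹) := by
  have cent : ∀ k ∈ π.ker, ∀ x, k * x = x * k := fun k hk x =>
    (Subgroup.mem_center_iff.1 (hl.cent hk) x).symm
  obtain ⟨a, ha⟩ : ∃ a, a = γ x * x⁻¹ := ⟨_, rfl⟩
  obtain ⟨b, hb⟩ : ∃ b, b = γ y * y⁻¹ := ⟨_, rfl⟩
  have haK : a ∈ π.ker := by rw [ha]; exact h1 x
  have hbK : b ∈ π.ker := by rw [hb]; exact h1 y
  have hx : γ x = a * x := by rw [ha]; group
  have hy : γ y = b * y := by rw [hb]; group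
  have habK : a⁻¹ * b ∈ π.ker := mul_mem (inv_mem haK) hbK
  have e1 : (a * x)⁻¹ * (b * y) = a⁻¹ * b * (x⁻¹ * y) := by
    have : (a * x)⁻¹ * (b * y) = x⁻¹ * (a⁻¹ * b) * y := by group
    rw [this, ← cent _ habK x⁻¹]
    group
  have hsq : (a⁻¹ * b) ^ 2 ∈ π.ker := pow_mem habK 2
  have e2 : qop f (a * x) (b * y) = b * a⁻¹ * b * qop f x y := by
    have e3 : x * (a⁻¹ * b) ^ 2 = (a⁻¹ * b) ^ 2 * x := (cent _ hsq x).symm
    calc qop f (a * x) (b * y) = a * x * f ((a * x)⁻¹ * (b * y)) := rfl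
      _ = a * x * ((a⁻¹ * b) ^ 2 * f (x⁻¹ * y)) := by rw [e1, hl.quad _ habK]
      _ = a * (x * (a⁻¹ * b) ^ 2) * f (x⁻¹ * y) := by group
      _ = a * ((a⁻¹ * b) ^ 2 * x) * f (x⁻¹ * y) := by rw [e3]
      _ = b * a⁻¹ * b * (x * f (x⁻¹ * y)) := by rw [pow_two]; group
      _ = b * a⁻¹ * b * qop f x y := rfl
  rw [hγ, hx, hy, e2]
  group

/-- A map compatible with `qop` which is the identity modulo the kernel is a translation, under
the hypothesis that it comes from `HomFree`. -/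
theorem const_of {N M : Type u} [Group N] [Finite N] [Group M] {f : N → N} {f' : M → M}
    {π : N →* M} (hl : QLift π f f') {N' : Type u} [Group N'] {g : N' → N'} (hg : HomFree g)
    (t : N' → π.ker) (ht : ∀ x y, (t (qop g x y) : N) = t y * (t x : N)⁻¹ * t y) (x : N') :
    t x = t 1 := by
  have hcomm : ∀ a b : π.ker, a * b = b * a := by
    intro a b
    apply Subtype.ext
    exact (Subgroup.mem_center_iff.1 (hl.cent a.2) b).symm
  have hsolv : Group.IsSolvable π.ker := Group.isSolvable_of_comm hcomm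
  exact homFree_solv hg t (fun x y => Subtype.ext (by rw [ht]; rfl)) x

/-- The map induced on the quotient. -/
theorem induced {N M : Type u} [Group N] [Group M] {f : N → N} {f' : M → M} {π : N →* M}
    (hl : QLift π f f') {σ : Equiv.Perm N} (h : ∀ x y, π x = π y → π (σ x) = π (σ y))
    (h' : ∀ x y, π x = π y → π (σ⁻¹ x) = π (σ⁻¹ y)) :
    ∃ τ : Equiv.Perm M, ∀ x, τ (π x) = π (σ x) := by
  have hs := Function.surjInv_eq hl.surj
  refine ⟨⟨fun m => π (σ (Function.surjInv hl.surj m)),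
    fun m => π (σ⁻¹ (Function.surjInv hl.surj m)), fun m => ?_, fun m => ?_⟩, fun x => ?_⟩
  · have e1 : π (σ⁻¹ (Function.surjInv hl.surj (π (σ (Function.surjInv hl.surj m))))) =
        π (σ⁻¹ (σ (Function.surjInv hl.surj m))) := h' _ _ (hs _)
    simp only
    rw [e1]
    simp [hs]
  · have e1 : π (σ (Function.surjInv hl.surj (π (σ⁻¹ (Function.surjInv hl.surj m))))) =
        π (σ (σ⁻¹ (Function.surjInv hl.surj m))) := h _ _ (hs _)
    simp only
    rw [e1]
    simp [hs]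
  · exact h _ _ (hs _)

theorem pi_qop {N M : Type u} [Group N] [Group M] {f : N → N} {f' : M → M} {π : N →* M}
    (hl : QLift π f f') (x y : N) : π (qop f x y) = qop f' (π x) (π y) := by
  simp only [qop, map_mul, map_inv, hl.lift]

end LiftAux

open LiftAux

section
variable {P : Type v} [Group P] [Finite P] {N M : Type u} [Group N] [Finite N] [Group M]
  [MulDistribMulAction P N] [MulDistribMulAction P M]

theorem uniq {f : N → N} {f' : M → M} {π : N →* M} (hl : QLift π f f') (hh : HomFree f')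
    {γ : Equiv.Perm N} (hγ : γ ∈ autGroup (qop f)) (h1 : ∀ x, π (γ x) = π x)
    (h2 : ∀ k ∈ π.ker, ∀ x, γ (k * x) = k * γ x) : ∃ k ∈ π.ker, ∀ x, γ x = k * x := by
  have hs := Function.surjInv_eq hl.surj
  have hker : ∀ x, γ x * x⁻¹ ∈ π.ker := by
    intro x
    rw [MonoidHom.mem_ker, map_mul, map_inv, h1, mul_inv_cancel]
  have hfac : ∀ x x', π x = π x' → γ x * x⁻¹ = γ x' * x'⁻¹ := by
    intro x x' hx
    have hk : x * x'⁻¹ ∈ π.ker := by
      rw [MonoidHom.mem_ker, map_mul, map_inv, hx, mul_inv_cancel]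
    have e := h2 _ hk x'
    rw [inv_mul_cancel_right] at e
    rw [e]
    have hc : x * x'⁻¹ * (γ x' * x⁻¹) = γ x' * x⁻¹ * (x * x'⁻¹) :=
      (Subgroup.mem_center_iff.1 (hl.cent hk) _).symm
    rw [mul_assoc, hc]
    group
  have hrel := delta_rel hl (γ := γ) hγ hker
  have hc := const_of hl hh
    (fun m => ⟨γ (Function.surjInv hl.surj m) * (Function.surjInv hl.surj m)⁻¹, hker _⟩) (by
      intro a b
      have e1 : γ (Function.surjInv hl.surj (qop f' a b)) *
          (Function.surjInv hl.surj (qop f' a b))⁻¹ =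
          γ (qop f (Function.surjInv hl.surj a) (Function.surjInv hl.surj b)) *
          (qop f (Function.surjInv hl.surj a) (Function.surjInv hl.surj b))⁻¹ := by
        apply hfac
        rw [hs, pi_qop hl, hs, hs]
      simp only
      rw [e1, hrel])
  refine ⟨γ 1 * 1⁻¹, hker 1, fun x => ?_⟩
  have e1 : γ x * x⁻¹ = γ (Function.surjInv hl.surj (π x)) * (Function.surjInv hl.surj (π x))⁻¹ :=
    hfac _ _ (hs _).symm
  have e2 : γ 1 * 1⁻¹ = γ (Function.surjInv hl.surj 1) * (Function.surjInv hl.surj 1)⁻¹ := by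
    apply hfac
    rw [map_one]
    exact (hs _).symm
  have e3 := congrArg Subtype.val (hc (π x))
  simp only at e3
  rw [e2, ← e3, ← e1]
  group

theorem kk_qlift (hP : IsPGroup 2 P) (hN : Odd (Nat.card N)) {f : N → N} {f' : M → M}
    {π : N →* M} (hl : QLift π f f') (hr : Rig P f') (hh : HomFree f') {σ : Equiv.Perm N}
    (hσ : IsK f σ) : ∃ m ∈ KS f, ∀ x, σ x = m * x := by
  have cent : ∀ k ∈ π.ker, ∀ x, k * x = x * k := fun k hk x =>
    (Subgroup.mem_center_iff.1 (hl.cent hk) x).symm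
  have hkK : ∀ k ∈ π.ker, IsK f (Equiv.mulLeft k) := by
    intro k hk
    rw [kk_left]
    intro x y
    have e1 : x⁻¹ * k * x * y = k * y := by rw [← cent k hk x⁻¹]; group
    have e2 : x⁻¹ * k ^ 2 * x * f y = k ^ 2 * f y := by
      rw [← cent (k ^ 2) (pow_mem hk 2) x⁻¹]; group
    rw [e1, e2, hl.quad k hk]
  have hcomm : ∀ σ : Equiv.Perm N, IsK f σ → ∀ k ∈ π.ker, ∀ x, σ (k * x) = k * σ x := by
    intro σ hσ k hk x
    exact DFunLike.congr_fun (kk_comm hN hl.orth hσ (hkK k hk)) x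
  have hfac : ∀ σ : Equiv.Perm N, IsK f σ → ∀ x y, π x = π y → π (σ x) = π (σ y) := by
    intro σ hσ x x' hx
    have hk : x * x'⁻¹ ∈ π.ker := by
      rw [MonoidHom.mem_ker, map_mul, map_inv, hx, mul_inv_cancel]
    have e := hcomm σ hσ _ hk x'
    rw [inv_mul_cancel_right] at e
    rw [e, map_mul, (MonoidHom.mem_ker).1 hk, one_mul]
  obtain ⟨τ, hτ⟩ := induced hl (hfac σ hσ) (hfac σ⁻¹ (kk_inv hσ))
  have : Finite M := Finite.of_surjective π hl.surj
  have hM : Odd (Nat.card M) := by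
    have := Subgroup.card_dvd_of_surjective π hl.surj
    exact Odd.of_dvd_nat hN this
  have hτK : IsK f' τ := by
    constructor
    · intro a b
      obtain ⟨x, rfl⟩ := hl.surj a
      obtain ⟨y, rfl⟩ := hl.surj b
      rw [← pi_qop hl, hτ, hτ, hτ, ← pi_qop hl, hσ.1 x y]
    · intro a b
      obtain ⟨x, rfl⟩ := hl.surj a
      obtain ⟨y, rfl⟩ := hl.surj b
      rw [← pi_qop hl, hτ, hτ, hτ, ← pi_qop hl, hσ.2]
  obtain ⟨m', -, hm'⟩ := kk_of_rig hP hM hl.orth' hr hτK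
  obtain ⟨n, rfl⟩ := hl.surj m'
  obtain ⟨k, hk, hγ⟩ := uniq hl hh (γ := Equiv.mulLeft n⁻¹ * σ)
    (mul_mem (leftT f n⁻¹).2 hσ.1) (by
      intro x
      change π (n⁻¹ * σ x) = π x
      rw [map_mul, map_inv, ← hτ, hm', inv_mul_cancel_left]) (by
      intro k hk x
      change n⁻¹ * σ (k * x) = k * (n⁻¹ * σ x)
      rw [hcomm σ hσ k hk, ← mul_assoc, ← cent k hk n⁻¹, mul_assoc])
  have hσ' : ∀ x, σ x = n * k * x := by
    intro x
    have e : n⁻¹ * σ x = k * x := hγ x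
    rw [mul_assoc, ← e, mul_inv_cancel_left]
  refine ⟨n * k, ?_, hσ'⟩
  rw [← kk_left]
  have : Equiv.mulLeft (n * k) = σ := by
    ext x
    exact (hσ' x).symm
  rw [this]
  exact hσ

theorem lift_rig (hP : IsPGroup 2 P) (hN : Odd (Nat.card N)) {f : N → N} {f' : M → M}
    {π : N →* M} (hl : QLift π f f') (he : ∀ (p : P) x, π (p • x) = p • π x) (hf : Equi P f)
    (hr : Rig P f') (hh' : HomFree f') (hh : HomFree f) (hK : ∀ m ∈ KS f, π m = 1) :
    Rig P f := by
  intro α hα hα1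
  have cent : ∀ k ∈ π.ker, ∀ x, k * x = x * k := fun k hk x =>
    (Subgroup.mem_center_iff.1 (hl.cent hk) x).symm
  have hkK : ∀ k ∈ π.ker, IsK f (Equiv.mulLeft k) := by
    intro k hk
    rw [kk_left]
    intro x y
    have e1 : x⁻¹ * k * x * y = k * y := by rw [← cent k hk x⁻¹]; group
    have e2 : x⁻¹ * k ^ 2 * x * f y = k ^ 2 * f y := by
      rw [← cent (k ^ 2) (pow_mem hk 2) x⁻¹]; group
    rw [e1, e2, hl.quad k hk]
  have hfac : ∀ α : Equiv.Perm N, α ∈ autGroup (qop f) →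
      ∀ x y, π x = π y → π (α x) = π (α y) := by
    intro α hα x x' hx
    have hk : x * x'⁻¹ ∈ π.ker := by
      rw [MonoidHom.mem_ker, map_mul, map_inv, hx, mul_inv_cancel]
    obtain ⟨m, hm, e⟩ := kk_qlift hP hN hl hr hh' (kk_conj hα (hkK _ hk))
    have e1 := e (α x')
    change α (x * x'⁻¹ * (α⁻¹ (α x'))) = m * α x' at e1
    have e2 : α⁻¹ (α x') = x' := by simp
    rw [e2, inv_mul_cancel_right] at e1
    rw [e1, map_mul, hK m hm, one_mul]
  obtain ⟨τ, hτ⟩ := induced hl (hfac α hα) (hfac α⁻¹ (inv_mem hα))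
  obtain ⟨p, hp⟩ := hr τ (by
    intro a b
    obtain ⟨x, rfl⟩ := hl.surj a
    obtain ⟨y, rfl⟩ := hl.surj b
    rw [← pi_qop hl, hτ, hτ, hτ, ← pi_qop hl, hα x y]) (by
    rw [← map_one π, hτ, hα1])
  have hp' : ∀ x, π (α x) = p • π x := by
    intro x
    rw [← hτ, hp]
  have hγ : ∀ x y, p⁻¹ • α (qop f x y) = qop f (p⁻¹ • α x) (p⁻¹ • α y) := by
    intro x y
    rw [hα x y]
    simp only [qop]
    rw [smul_mul', ← hf, smul_mul', smul_inv']
  have hker : ∀ x, p⁻¹ • α x * x⁻¹ ∈ π.ker := by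
    intro x
    rw [MonoidHom.mem_ker, map_mul, map_inv, he, hp', inv_smul_smul, mul_inv_cancel]
  have hrel := delta_rel hl (γ := fun x => p⁻¹ • α x) hγ hker
  have hc := const_of hl hh (fun x => ⟨p⁻¹ • α x * x⁻¹, hker x⟩) (fun x y => hrel x y)
  refine ⟨p, fun x => ?_⟩
  have e3 := congrArg Subtype.val (hc x)
  simp only [hα1, smul_one, inv_one, mul_one] at e3
  have e4 : p⁻¹ • α x = x := by
    rw [mul_inv_eq_one] at e3
    exact e3
  rw [← e4, smul_inv_smul]
  rw [e4]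

end

end Pool.Agent.Lib_MP_8306f4_co.CaseB
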