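import Pool.Agent.Lib_MP_8306f4_co.CaseB.Defs
import Pool.Agent.Lib_MP_8306f4_co.CaseB.HomSolv

/-!
# MP_8306f4_co, case B, piece LemmaA

Notation. x·y = qop f x y = x f(x⁻¹y) on N; lambda_m: y -> m y is always an automorphism of it
(f commutes with nothing needed). 1·y = f(y). If Equi P f, then y -> p•y is an automorphism.
core(A): a∘b = 2b-a. For every x: y -> x·y is bijective (f bijective), for every y: x -> x·y is
bijective (x⁻¹f(x) bijective). '2 is invertible': all groups N have odd order.

## H2 (LemmaA.lean): lemmaA, homFree_of_no_invariant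
lemmaA: r=2: h const by isHom_two, η=0. r odd: for k in ker, D_k(y)=h(ky)-h(y). x·(ky)=k²(x·y)
(k central, quad) gives 2D_k(y)=D_{k²}(x·y) for all x,y; fix y, x varies: D_{k²} constant; so 2D_k(y)
independent of y: D_k constant. For n in N: h_n(y)=h(ny)-h(y) is a hom (difference of two homs), and
h_n(ky)=h_n(y), so it factors through M and is constant. So h(ny)-h(y)=h(n)-h(1): η=h-h(1) is additive;
h(f x)=h(1·x)=2h(x)-h(1).
homFree_of_no_invariant: T={u : exists c, forall x, h(xu)=h(x)+c} is a subgroup, f-invariant since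
x·(xu)=x f(u): h(x f u)=2h(xu)-h(x)=h(x)+2c. So T=⊤. {u: forall x, h(xu)=h(x)} is f-invariant too, so ⊤.

-/

universe u v w

namespace Pool.Agent.Lib_MP_8306f4_co.CaseB

open Pool.Agent.Lib_MP_8306f4_co

namespace LemmaAAux

theorem rsurj {N : Type u} [Group N] {f : N → N} (hf : IsOrth f) (y w : N) :
    ∃ x, qop f x y = w :=
  (qop_isQuasigroup hf).2 y |>.2 w

theorem qop_left {N : Type u} [Group N] (f : N → N) (n x y : N) :
    qop f (n * x) (n * y) = n * qop f x y := by
  simp [qop, mul_assoc]

end LemmaAAux

open LemmaAAux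

theorem lemmaA {N M : Type u} [Group N] [Group M] {f : N → N} {f' : M → M} {π : N →* M}
    (hl : QLift π f f') {r : ℕ} (hr : r.Prime)
    (hM : ∀ h : M → ZMod r, IsHom f' h → ∀ x, h x = h 1) (h : N → ZMod r) (hh : IsHom f h) :
    ∃ η : N → ZMod r, (∀ x y, η (x * y) = η x + η y) ∧ (∀ x, h x = h 1 + η x) ∧
      ∀ x, η (f x) = 2 * η x := by
  have hh' : ∀ x y, h (qop f x y) = 2 * h y - h x := by
    intro x y
    rw [hh x y, nsmul_eq_mul]
    norm_cast
  by_cases h2 : r = 2
  · subst h2
    refine ⟨fun _ => 0, fun _ _ => by simp, fun x => ?_, fun x => by simp⟩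
    rw [add_zero]
    exact isHom_two hl.orth h hh x
  have : Fact r.Prime := ⟨hr⟩
  have two_ne : (2 : ZMod r) ≠ 0 := by
    intro h0
    have h1 : ((2 : ℕ) : ZMod r) = 0 := by exact_mod_cast h0
    rw [ZMod.natCast_eq_zero_iff] at h1
    have h3 := (Nat.prime_dvd_prime_iff_eq hr Nat.prime_two).1 h1
    exact h2 h3
  have cent : ∀ k ∈ π.ker, ∀ x, k * x = x * k := fun k hk x =>
    (Subgroup.mem_center_iff.1 (hl.cent hk) x).symm
  -- `x · (k y) = k² (x · y)`
  have hq : ∀ k ∈ π.ker, ∀ x y, qop f x (k * y) = k ^ 2 * qop f x y := by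
    intro k hk x y
    have e1 : x⁻¹ * (k * y) = k * (x⁻¹ * y) := by
      rw [← mul_assoc, ← cent k hk x⁻¹, mul_assoc]
    have hk2 : k ^ 2 ∈ π.ker := pow_mem hk 2
    rw [qop, e1, hl.quad k hk, ← mul_assoc, ← cent _ hk2 x, mul_assoc, qop]
  -- translations by the kernel
  have hD : ∀ k ∈ π.ker, ∀ y, h (k * y) - h y = h k - h 1 := by
    intro k hk y
    have key : ∀ y w, h (k ^ 2 * w) - h w = 2 * (h (k * y) - h y) := by
      intro y w
      obtain ⟨x, rfl⟩ := rsurj hl.orth y w
      rw [← hq k hk, hh', hh']
      ring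
    have e1 := key y 1
    have e2 := key 1 1
    rw [mul_one k] at e2
    have e3 : 2 * (h (k * y) - h y) = 2 * (h k - h 1) := by rw [← e1, ← e2]
    exact mul_left_cancel₀ two_ne e3
  -- translations by all elements
  have hn : ∀ n y, h (n * y) - h y = h n - h 1 := by
    intro n y
    obtain ⟨hn, hn_def⟩ : ∃ g : N → ZMod r, ∀ y, g y = h (n * y) - h y := ⟨_, fun _ => rfl⟩
    have hn_hom : ∀ x y, hn (qop f x y) = 2 * hn y - hn x := by
      intro x y
      rw [hn_def, hn_def, hn_def, ← qop_left, hh', hh']
      ring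
    have hn_ker : ∀ k ∈ π.ker, ∀ y, hn (k * y) = hn y := by
      intro k hk y
      rw [hn_def, hn_def]
      have e1 := hD k hk (n * y)
      have e2 := hD k hk y
      have e3 : n * (k * y) = k * (n * y) := by
        rw [← mul_assoc, ← cent k hk n, mul_assoc]
      rw [e3]
      linear_combination e1 - e2
    have hfac : ∀ x x', π x = π x' → hn x = hn x' := by
      intro x x' hx
      have hk : x * x'⁻¹ ∈ π.ker := by
        rw [MonoidHom.mem_ker, map_mul, map_inv, hx, mul_inv_cancel]
      have := hn_ker _ hk x'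
      rwa [inv_mul_cancel_right] at this
    have hM1 := hM (fun m => hn (Function.surjInv hl.surj m)) (by
      intro a b
      have ha := Function.surjInv_eq hl.surj a
      have hb := Function.surjInv_eq hl.surj b
      have hπ : ∀ x y, π (qop f x y) = qop f' (π x) (π y) := by
        intro x y
        simp only [qop, map_mul, map_inv, hl.lift]
      have e1 : hn (Function.surjInv hl.surj (qop f' a b)) =
          hn (qop f (Function.surjInv hl.surj a) (Function.surjInv hl.surj b)) := by
        apply hfac
        rw [Function.surjInv_eq hl.surj, hπ, ha, hb]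
      change hn (Function.surjInv hl.surj (qop f' a b)) =
        2 • hn (Function.surjInv hl.surj b) - hn (Function.surjInv hl.surj a)
      rw [e1, hn_hom, nsmul_eq_mul]
      norm_cast)
    have hconst : ∀ x, hn x = hn 1 := by
      intro x
      have e1 : hn x = hn (Function.surjInv hl.surj (π x)) :=
        hfac _ _ (Function.surjInv_eq hl.surj (π x)).symm
      have e2 : hn 1 = hn (Function.surjInv hl.surj 1) := by
        apply hfac
        rw [map_one]
        exact (Function.surjInv_eq hl.surj 1).symm
      rw [e1, e2]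
      exact hM1 (π x)
    have e := hconst y
    rw [hn_def, hn_def, mul_one] at e
    exact e
  refine ⟨fun x => h x - h 1, fun x y => ?_, fun x => by ring, fun x => ?_⟩
  · linear_combination hn x y
  · have e1 : f x = qop f 1 x := by simp [qop]
    change h (f x) - h 1 = 2 * (h x - h 1)
    rw [e1, hh']
    ring

/-- orthomorphisms without proper invariant subgroup -/
theorem homFree_of_no_invariant {N : Type u} [Group N] {f : N → N} (hf : IsOrth f)
    (hinv : ∀ H : Subgroup N, (∀ x ∈ H, f x ∈ H) → H = ⊤) : HomFree f := by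
  intro r _ h hh x
  have hh' : ∀ x y, h (qop f x y) = 2 * h y - h x := by
    intro x y
    rw [hh x y, nsmul_eq_mul]
    norm_cast
  let T : Subgroup N :=
    { carrier := {u | ∀ x, h (x * u) = h x}
      one_mem' := by
        intro x
        rw [mul_one]
      mul_mem' := by
        intro a b ha hb x
        rw [← mul_assoc, hb (x * a), ha x]
      inv_mem' := by
        intro a ha x
        have := ha (x * a⁻¹)
        rw [inv_mul_cancel_right] at this
        exact this.symm }
  have hT : T = ⊤ := by
    apply hinv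
    intro u hu x
    have h1 : qop f x (x * u) = x * f u := by simp [qop]
    rw [← h1, hh', hu x]
    ring
  have hx : x ∈ T := hT ▸ Subgroup.mem_top x
  have := hx 1
  rwa [one_mul] at this

end Pool.Agent.Lib_MP_8306f4_co.CaseB
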