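import Pool.Agent.Lib_MP_8306f4_co.CaseB.Defs
import Pool.Agent.Lib_MP_8306f4_co.CaseB.LemmaA

/-!
# MP_8306f4_co, case B, piece Retraction

Notation. x·y = qop f x y = x f(x⁻¹y) on N; lambda_m: y -> m y is always an automorphism of it
(f commutes with nothing needed). 1·y = f(y). If Equi P f, then y -> p•y is an automorphism.
core(A): a∘b = 2b-a. For every x: y -> x·y is bijective (f bijective), for every y: x -> x·y is
bijective (x⁻¹f(x) bijective). '2 is invertible': all groups N have odd order.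

## L3 (Retraction.lean): exists_retraction [needs H1, H2]
not HomFree f: r prime, h nonconst; r≠2 (isHom_two). lemmaA: η:N->Z_r additive, η(f x)=2η(x), η≠0.
η nonzero on ker (else η factors through M and is a hom to the core there, so 0). E(x)=(η(p•x))_{p in P}
: N -> (P -> ZMod r) additive, E(f x)=2E(x) (f equivariant). ker E ∩ ker π is P-invariant and ≠ ker π so
trivial (PMin): E is injective on ker π. Choose a linear left inverse of the embedding ker π -> (P -> ZMod r)
(ker π is an F_r-vector space), get ψ:N->ker π hom, ψ=id on ker, ψ(f x)=ψ(x)². Average over P: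
τ(x)=(∏_p p⁻¹•ψ(p•x))^j with j|P|=1 mod r.

-/

universe u v w

namespace Pool.Agent.Lib_MP_8306f4_co.CaseB

open Pool.Agent.Lib_MP_8306f4_co

section
variable {P : Type v} [Group P] [Finite P] {N M : Type u} [Group N] [Finite N] [Group M]
  [MulDistribMulAction P N] [MulDistribMulAction P M]

/-- If there is a nonconstant homomorphism to a core, there is an equivariant retraction `τ` onto
the kernel with `τ(f x) = τ(x)²`. -/
theorem exists_retraction (hP : IsPGroup 2 P) (hN : Odd (Nat.card N)) {f : N → N} {f' : M → M}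
    {π : N →* M} (hl : QLift π f f') (he : ∀ (p : P) x, π (p • x) = p • π x) (hf : Equi P f)
    (hmin : PMin P π.ker) (hh' : HomFree f') (hh : ¬ HomFree f) :
    ∃ τ : N →* N, (∀ (p : P) x, τ (p • x) = p • τ x) ∧ (∀ x, τ x ∈ π.ker) ∧
      (∀ k ∈ π.ker, τ k = k) ∧ ∀ x, τ (f x) = τ x ^ 2 := by
  classical
  have : Fintype P := Fintype.ofFinite P
  simp only [HomFree, not_forall] at hh
  obtain ⟨r, hr, h, hhom, x0, hx0⟩ := hh
  have : Fact r.Prime := ⟨hr⟩
  obtain ⟨η, hadd, hη, hηf⟩ := lemmaA hl hr (hh' r hr) h hhom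
  have η1 : η 1 = 0 := by
    have h1 := hadd 1 1
    rw [mul_one] at h1
    linear_combination -h1
  have ηinv : ∀ x, η x⁻¹ = -η x := by
    intro x
    have h1 := hadd x⁻¹ x
    rw [inv_mul_cancel, η1] at h1
    linear_combination -h1
  have hr2 : r ≠ 2 := by
    rintro rfl
    exact hx0 (isHom_two hl.orth h hhom x0)
  have two_ne : (2 : ZMod r) ≠ 0 := by
    intro h0
    have h1 : ((2 : ℕ) : ZMod r) = 0 := by exact_mod_cast h0
    rw [ZMod.natCast_eq_zero_iff] at h1
    exact hr2 ((Nat.prime_dvd_prime_iff_eq hr Nat.prime_two).1 h1)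
  have hs := Function.surjInv_eq hl.surj
  -- `η` is nonzero on the kernel
  have hker : ∃ k ∈ π.ker, η k ≠ 0 := by
    by_contra hcon
    push Not at hcon
    have hfac : ∀ x y, π x = π y → η x = η y := by
      intro x y hxy
      have hk : x * y⁻¹ ∈ π.ker := by
        rw [MonoidHom.mem_ker, map_mul, map_inv, hxy, mul_inv_cancel]
      have h1 := hcon _ hk
      rw [hadd, ηinv] at h1
      linear_combination h1
    have h1 := hh' r hr (fun m => η (Function.surjInv hl.surj m)) (by
      intro a b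
      have e1 : η (Function.surjInv hl.surj (qop f' a b)) =
          η (qop f (Function.surjInv hl.surj a) (Function.surjInv hl.surj b)) := by
        apply hfac
        rw [hs]
        simp only [qop, map_mul, map_inv, hl.lift, hs]
      change η (Function.surjInv hl.surj (qop f' a b)) =
        2 • η (Function.surjInv hl.surj b) - η (Function.surjInv hl.surj a)
      rw [e1, qop, hadd, hηf, hadd, ηinv, nsmul_eq_mul]
      push_cast
      ring)
    have h2 : η x0 = 0 := by
      have e1 : η x0 = η (Function.surjInv hl.surj (π x0)) := hfac _ _ (hs _).symm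
      have e2 : η (Function.surjInv hl.surj 1) = η 1 := hfac _ _ (by rw [hs, map_one])
      rw [e1, h1 (π x0), e2, η1]
    apply hx0
    rw [hη x0, h2, add_zero]
  -- the embedding
  let V := P → ZMod r
  let E : N → V := fun x p => η (p • x)
  let S : P → V →ₗ[ZMod r] V := fun q => LinearMap.funLeft (ZMod r) (ZMod r) (fun p => p * q)
  have hS : ∀ (q : P) (v : V) (p : P), S q v p = v (p * q) := fun q v p => rfl
  have hSS : ∀ (q s : P) (v : V), S q (S s v) = S (q * s) v := by
    intro q s v
    ext p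
    rw [hS, hS, hS, mul_assoc]
  have hS1 : ∀ v : V, S 1 v = v := by
    intro v
    ext p
    rw [hS, mul_one]
  have E_mul : ∀ x y, E (x * y) = E x + E y := by
    intro x y
    ext p
    change η (p • (x * y)) = η (p • x) + η (p • y)
    rw [smul_mul', hadd]
  have E_f : ∀ x, E (f x) = (2 : ZMod r) • E x := by
    intro x
    ext p
    change η (p • f x) = 2 * η (p • x)
    rw [← hf, hηf]
  have E_act : ∀ (q : P) x, E (q • x) = S q (E x) := by
    intro q x
    ext p
    rw [hS]
    change η (p • q • x) = η ((p * q) • x)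
    rw [smul_smul]
  have E_one : E 1 = 0 := by
    have h1 := E_mul 1 1
    rw [mul_one] at h1
    exact (left_eq_add.mp h1)
  have E_inv : ∀ x, E x⁻¹ = -E x := by
    intro x
    have h1 := E_mul x⁻¹ x
    rw [inv_mul_cancel, E_one] at h1
    exact eq_neg_of_add_eq_zero_left h1.symm
  -- injectivity on the kernel
  have hinv : PInv P π.ker := hmin.2.1
  have E_ker : ∀ k ∈ π.ker, E k = 0 → k = 1 := by
    let H : Subgroup N :=
      { carrier := {x | x ∈ π.ker ∧ E x = 0}
        one_mem' := ⟨one_mem _, E_one⟩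
        mul_mem' := by
          rintro a b ⟨ha, ha'⟩ ⟨hb, hb'⟩
          exact ⟨mul_mem ha hb, by rw [E_mul, ha', hb', add_zero]⟩
        inv_mem' := by
          rintro a ⟨ha, ha'⟩
          exact ⟨inv_mem ha, by rw [E_inv, ha', neg_zero]⟩ }
    have hH : PInv P H := by
      rintro p x ⟨hx, hx'⟩
      exact ⟨hinv p x hx, by rw [E_act, hx', map_zero]⟩
    rcases hmin.2.2 H hH (fun x hx => hx.1) with h1 | h1
    · intro k hk hk'
      have : k ∈ H := ⟨hk, hk'⟩
      rw [h1] at this
      exact (Subgroup.mem_bot).1 this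
    · exfalso
      obtain ⟨k, hk, hk'⟩ := hker
      have h2 : k ∈ H := by rw [h1]; exact hk
      have h3 := congrFun h2.2 1
      apply hk'
      change η ((1 : P) • k) = 0 at h3
      rwa [one_smul] at h3
  have E_inj : ∀ k ∈ π.ker, ∀ k' ∈ π.ker, E k = E k' → k = k' := by
    intro k hk k' hk' hkk
    have h1 : k * k'⁻¹ = 1 := by
      apply E_ker _ (mul_mem hk (inv_mem hk'))
      rw [E_mul, E_inv, hkk, add_neg_cancel]
    exact mul_inv_eq_one.1 h1
  -- the subspace
  let W₀ : AddSubgroup V :=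
    { carrier := {v | ∃ k ∈ π.ker, E k = v}
      zero_mem' := ⟨1, one_mem _, E_one⟩
      add_mem' := by
        rintro _ _ ⟨k, hk, rfl⟩ ⟨k', hk', rfl⟩
        exact ⟨k * k', mul_mem hk hk', E_mul k k'⟩
      neg_mem' := by
        rintro _ ⟨k, hk, rfl⟩
        exact ⟨k⁻¹, inv_mem hk, E_inv k⟩ }
  let W : Submodule (ZMod r) V := AddSubgroup.toZModSubmodule r W₀
  have hW : ∀ v, v ∈ W ↔ ∃ k ∈ π.ker, E k = v := fun v => Iff.rfl
  have hWS : ∀ (q : P), ∀ w ∈ W, S q w ∈ W := by
    intro q w hw
    obtain ⟨k, hk, rfl⟩ := (hW w).1 hw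
    exact (hW _).2 ⟨q • k, hinv q k hk, E_act q k⟩
  obtain ⟨g, hg⟩ := LinearMap.exists_leftInverse_of_injective W.subtype (Submodule.ker_subtype W)
  have hg' : ∀ w (hw : w ∈ W), ((g w : W) : V) = w := by
    intro w hw
    have h1 := DFunLike.congr_fun hg ⟨w, hw⟩
    exact congrArg Subtype.val h1
  -- the average
  have hcard : (Fintype.card P : ZMod r) ≠ 0 := by
    obtain ⟨n, hn⟩ := (IsPGroup.iff_card).1 hP
    rw [Nat.card_eq_fintype_card] at hn
    rw [hn]
    push_cast
    exact pow_ne_zero n two_ne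
  let G : V →ₗ[ZMod r] V := (Fintype.card P : ZMod r)⁻¹ •
    ∑ q : P, (S q⁻¹).comp (W.subtype.comp (g.comp (S q)))
  have hG : ∀ v, G v = (Fintype.card P : ZMod r)⁻¹ • ∑ q : P, S q⁻¹ ((g (S q v) : W) : V) := by
    intro v
    simp only [G, LinearMap.smul_apply, LinearMap.sum_apply, LinearMap.comp_apply,
      Submodule.subtype_apply]
  have hGW : ∀ v, G v ∈ W := by
    intro v
    rw [hG]
    exact W.smul_mem _ (W.sum_mem fun q _ => hWS _ _ (g (S q v)).2)
  have hGid : ∀ w ∈ W, G w = w := by
    intro w hw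
    rw [hG]
    have h1 : ∀ q : P, S q⁻¹ ((g (S q w) : W) : V) = w := by
      intro q
      rw [hg' _ (hWS q w hw), hSS, inv_mul_cancel, hS1]
    rw [Finset.sum_congr rfl (fun q _ => h1 q), Finset.sum_const, Finset.card_univ,
      ← Nat.cast_smul_eq_nsmul (ZMod r), smul_smul, inv_mul_cancel₀ hcard, one_smul]
  have hGS : ∀ (s : P) v, G (S s v) = S s (G v) := by
    intro s v
    rw [hG, hG, map_smul, map_sum]
    congr 1
    have h1 : ∀ q : P, S q⁻¹ ((g (S q (S s v)) : W) : V) =
        S s (S (q * s)⁻¹ ((g (S (q * s) v) : W) : V)) := by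
      intro q
      rw [hSS q s, hSS s, mul_inv_rev, mul_inv_cancel_left]
    rw [Finset.sum_congr rfl (fun q _ => h1 q)]
    exact Fintype.sum_equiv (Equiv.mulRight s) _ _ (fun q => rfl)
  -- the retraction
  choose τ hτK hτE using fun x : N => (hW _).1 (hGW (E x))
  have hτmul : ∀ x y, τ (x * y) = τ x * τ y := by
    intro x y
    apply E_inj _ (hτK _) _ (mul_mem (hτK x) (hτK y))
    rw [hτE, E_mul, E_mul, hτE, hτE, map_add]
  refine ⟨MonoidHom.mk' τ hτmul, fun p x => ?_, hτK, fun k hk => ?_, fun x => ?_⟩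
  · apply E_inj _ (hτK _) _ (hinv p _ (hτK x))
    change E (τ (p • x)) = E (p • τ x)
    rw [hτE, E_act, E_act, hτE, hGS]
  · apply E_inj _ (hτK _) _ hk
    rw [hτE]
    exact hGid _ ((hW _).2 ⟨k, hk, rfl⟩)
  · apply E_inj _ (hτK _) _ (pow_mem (hτK x) 2)
    change E (τ (f x)) = E (τ x ^ 2)
    rw [hτE, E_f, map_smul, pow_two, E_mul, hτE, two_smul]

end

end Pool.Agent.Lib_MP_8306f4_co.CaseB
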