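import Pool.Agent.Lib_MP_8306f4_co.CaseB.Defs

/-!
# MP_8306f4_co, case B, piece Section

Notation. x·y = qop f x y = x f(x⁻¹y) on N; lambda_m: y -> m y is always an automorphism of it
(f commutes with nothing needed). 1·y = f(y). If Equi P f, then y -> p•y is an automorphism.
core(A): a∘b = 2b-a. For every x: y -> x·y is bijective (f bijective), for every y: x -> x·y is
bijective (x⁻¹f(x) bijective). '2 is invertible': all groups N have odd order.

## L2 (Section.lean): exists_section, exists_qlift, qlift_mul, exists_delta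
exists_section: for each P-orbit in M choose a representative m; the stabiliser P_m (2-group) acts on
the coset π⁻¹(m) of odd size |ker|, so has a fixed point r(m); r(p•m)=p•r(m). (Orbit of 1: r(1)=1.)
exists_qlift: f(x)=r(f'(πx)) (x r(πx)⁻¹)². qlift_mul direct.
exists_delta: s(p•a)=p•k on the orbit of a (regular), 1 elsewhere.

-/

universe u v w

namespace Pool.Agent.Lib_MP_8306f4_co.CaseB

open Pool.Agent.Lib_MP_8306f4_co

namespace Section

/-- A point of the fibre fixed by the stabiliser. -/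
theorem exists_fixed {P : Type v} [Group P] [Finite P] {N M : Type u} [Group N] [Finite N]
    [Group M] [MulDistribMulAction P N] [MulDistribMulAction P M] (hP : IsPGroup 2 P)
    (hN : Odd (Nat.card N)) (π : N →* M) (hs : Function.Surjective π)
    (he : ∀ (p : P) x, π (p • x) = p • π x) (m : M) :
    ∃ x : N, π x = m ∧ (∀ p : P, p • m = m → p • x = x) ∧ (m = 1 → x = 1) := by
  by_cases hm : m = 1
  · exact ⟨1, by rw [hm, map_one], fun p _ => smul_one p, fun _ => rfl⟩
  obtain ⟨x0, hx0⟩ := hs m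
  let S := MulAction.stabilizer P m
  let F := {x : N // π x = m}
  let _ : MulAction S F :=
    { smul := fun p x => ⟨(p : P) • x.1, by rw [he, x.2]; exact p.2⟩
      one_smul := fun x => Subtype.ext (one_smul P x.1)
      mul_smul := fun p q x => Subtype.ext (mul_smul (p : P) (q : P) x.1) }
  let e : π.ker ≃ F :=
    { toFun := fun k => ⟨k.1 * x0, by rw [map_mul, hx0, (MonoidHom.mem_ker).1 k.2, one_mul]⟩
      invFun := fun x => ⟨x.1 * x0⁻¹, by
        rw [MonoidHom.mem_ker, map_mul, map_inv, hx0, x.2, mul_inv_cancel]⟩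
      left_inv := fun k => Subtype.ext (by simp)
      right_inv := fun x => Subtype.ext (by simp) }
  have hcard : ¬ 2 ∣ Nat.card F := by
    rw [← Nat.card_congr e]
    intro h2
    have h3 : 2 ∣ Nat.card N := h2.trans (Subgroup.card_subgroup_dvd_card π.ker)
    rw [← Nat.not_even_iff_odd, even_iff_two_dvd] at hN
    exact hN h3
  obtain ⟨x, hx⟩ := (hP.to_subgroup S).nonempty_fixed_point_of_prime_not_dvd_card F hcard
  refine ⟨x.1, x.2, fun p hp => ?_, fun h => absurd h hm⟩
  exact congrArg Subtype.val (hx ⟨p, hp⟩)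

/-- A map which lifts an orthomorphism and is quadratic on the fibres is an orthomorphism. -/
theorem orth_of {N M : Type u} [Group N] [Finite N] [Group M] (π : N →* M)
    (hc : π.ker ≤ Subgroup.center N) {f : N → N} {f' : M → M} (hf' : IsOrth f')
    (hl : ∀ x, π (f x) = f' (π x)) (hq : ∀ k ∈ π.ker, ∀ x, f (k * x) = k ^ 2 * f x)
    (h2 : ∀ k ∈ π.ker, k ^ 2 = 1 → k = 1) : IsOrth f := by
  constructor
  · rw [Finite.injective_iff_bijective.symm]
    intro x y hxy
    have h1 : π x = π y := hf'.1.1 (by rw [← hl, ← hl, hxy])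
    have hk : y * x⁻¹ ∈ π.ker := by
      rw [MonoidHom.mem_ker, map_mul, map_inv, h1, mul_inv_cancel]
    have h3 := hq _ hk x
    rw [inv_mul_cancel_right, ← hxy] at h3
    have h4 : (y * x⁻¹) ^ 2 = 1 := by
      have := h3.symm
      exact mul_eq_right.1 this
    exact (mul_inv_eq_one.1 (h2 _ hk h4)).symm
  · rw [Finite.injective_iff_bijective.symm]
    intro x y hxy
    have hxy' : x⁻¹ * f x = y⁻¹ * f y := hxy
    have h1 : π x = π y := hf'.2.1 (by
      show (π x)⁻¹ * f' (π x) = (π y)⁻¹ * f' (π y)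
      rw [← hl, ← hl, ← map_inv, ← map_inv, ← map_mul, ← map_mul, hxy'])
    have hk : y * x⁻¹ ∈ π.ker := by
      rw [MonoidHom.mem_ker, map_mul, map_inv, h1, mul_inv_cancel]
    set k := y * x⁻¹ with hkd
    have hy : y = k * x := by rw [hkd, inv_mul_cancel_right]
    have hcomm := Subgroup.mem_center_iff.1 (hc hk)
    rw [hy, hq _ hk, mul_inv_rev, pow_two] at hxy'
    have h5 : x⁻¹ * k⁻¹ * (k * k * f x) = k * (x⁻¹ * f x) := by
      calc x⁻¹ * k⁻¹ * (k * k * f x) = x⁻¹ * k * f x := by group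
        _ = k * x⁻¹ * f x := by rw [hcomm x⁻¹]
        _ = k * (x⁻¹ * f x) := by rw [mul_assoc]
    rw [h5] at hxy'
    have h6 : k = 1 := mul_eq_right.1 hxy'.symm
    rw [hy, h6, one_mul]

theorem sq_eq_one {N : Type u} [Group N] [Finite N] (hN : Odd (Nat.card N)) {k : N}
    (hk : k ^ 2 = 1) : k = 1 := by
  have h1 : orderOf k ∣ 2 := orderOf_dvd_of_pow_eq_one hk
  have h2 : orderOf k ∣ Nat.card N := orderOf_dvd_natCard k
  have h3 : orderOf k ∣ 1 := by
    have h4 : Nat.Coprime 2 (Nat.card N) := by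
      rw [Nat.coprime_two_left]
      exact hN
    rw [← h4]
    exact Nat.dvd_gcd h1 h2
  exact orderOf_eq_one_iff.1 (Nat.dvd_one.1 h3)

end Section

section
variable {P : Type v} [Group P] [Finite P] {N M : Type u} [Group N] [Finite N] [Group M]
  [MulDistribMulAction P N] [MulDistribMulAction P M]

theorem exists_section (hP : IsPGroup 2 P) (hN : Odd (Nat.card N)) (π : N →* M)
    (hs : Function.Surjective π) (he : ∀ (p : P) x, π (p • x) = p • π x) :
    ∃ r : M → N, (∀ m, π (r m) = m) ∧ (∀ (p : P) m, r (p • m) = p • r m) ∧ r 1 = 1 := by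
  classical
  choose x hx1 hx2 hx3 using Section.exists_fixed hP hN π hs he
  let rep : M → M := fun m => Quotient.out (Quotient.mk (MulAction.orbitRel P M) m)
  have hrep : ∀ m, ∃ p : P, p • rep m = m := by
    intro m
    have h1 : (MulAction.orbitRel P M) (rep m) m := Quotient.mk_out (s := MulAction.orbitRel P M) m
    have h2 : (MulAction.orbitRel P M) m (rep m) := (MulAction.orbitRel P M).symm h1
    rw [MulAction.orbitRel_apply, MulAction.mem_orbit_iff] at h2
    exact h2
  have hrep2 : ∀ (p : P) m, rep (p • m) = rep m := by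
    intro p m
    show Quotient.out _ = Quotient.out _
    congr 1
    apply Quotient.sound
    show (MulAction.orbitRel P M) (p • m) m
    rw [MulAction.orbitRel_apply]
    exact MulAction.mem_orbit m p
  choose q hq using hrep
  refine ⟨fun m => q m • x (rep m), fun m => ?_, fun p m => ?_, ?_⟩
  · rw [he, hx1, hq]
  · show q (p • m) • x (rep (p • m)) = p • q m • x (rep m)
    rw [hrep2]
    have h1 : q (p • m) • rep m = p • q m • rep m := by
      rw [hq]
      have := hq (p • m)
      rw [hrep2] at this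
      exact this
    have h2 : ((p * q m)⁻¹ * q (p • m)) • rep m = rep m := by
      rw [mul_smul, h1, ← mul_smul p, inv_smul_smul]
    have h3 := hx2 _ _ h2
    rw [mul_smul, inv_smul_eq_iff, mul_smul] at h3
    exact h3
  · show q 1 • x (rep 1) = 1
    have h1 : rep 1 = 1 := by
      have := hq 1
      rw [smul_eq_iff_eq_inv_smul, smul_one] at this
      exact this
    rw [h1, hx3 1 rfl, smul_one]

theorem exists_qlift (hP : IsPGroup 2 P) (hN : Odd (Nat.card N)) (π : N →* M)
    (hs : Function.Surjective π) (he : ∀ (p : P) x, π (p • x) = p • π x)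
    (hc : π.ker ≤ Subgroup.center N) {f' : M → M} (hf' : IsOrth f') (he' : Equi P f')
    (h1 : f' 1 = 1) : ∃ f : N → N, QLift π f f' ∧ Equi P f ∧ f 1 = 1 := by
  obtain ⟨r, hr1, hr2, hr3⟩ := exists_section hP hN π hs he
  have hlift : ∀ x, π (r (f' (π x)) * (x * (r (π x))⁻¹) ^ 2) = f' (π x) := by
    intro x
    rw [map_mul, map_pow, map_mul, map_inv, hr1, hr1, mul_inv_cancel, one_pow, mul_one]
  have hquad : ∀ k ∈ π.ker, ∀ x, r (f' (π (k * x))) * (k * x * (r (π (k * x)))⁻¹) ^ 2 =
      k ^ 2 * (r (f' (π x)) * (x * (r (π x))⁻¹) ^ 2) := by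
    intro k hk x
    have h2 : π (k * x) = π x := by rw [map_mul, (MonoidHom.mem_ker).1 hk, one_mul]
    have hcomm := Subgroup.mem_center_iff.1 (hc hk)
    rw [h2]
    generalize r (f' (π x)) = a
    have h3 : k * x * (r (π x))⁻¹ = k * (x * (r (π x))⁻¹) := by rw [mul_assoc]
    rw [h3]
    generalize x * (r (π x))⁻¹ = b
    have h4 : (k * b) ^ 2 = k ^ 2 * b ^ 2 := (show Commute k b from (hcomm b).symm).mul_pow 2
    have h5 : Commute a (k ^ 2) := (show Commute a k from hcomm a).pow_right 2
    rw [h4, ← mul_assoc, h5.eq, mul_assoc]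
  refine ⟨fun x => r (f' (π x)) * (x * (r (π x))⁻¹) ^ 2, ⟨hs, hc, hlift, hquad, ?_, hf'⟩, ?_, ?_⟩
  · exact Section.orth_of π hc hf' hlift hquad (fun k _ hk => Section.sq_eq_one hN hk)
  · intro p x
    show r (f' (π (p • x))) * (p • x * (r (π (p • x)))⁻¹) ^ 2 = p • (_ * _)
    rw [he, he', hr2, hr2, smul_mul', smul_pow', smul_mul', smul_inv']
  · show r (f' (π 1)) * (1 * (r (π 1))⁻¹) ^ 2 = 1
    rw [map_one, h1, hr3]
    simp

theorem qlift_mul {f : N → N} {f' : M → M} {π : N →* M} (hl : QLift π f f') (s : M → N)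
    (hs : ∀ m, s m ∈ π.ker) : QLift π (fun x => f x * s (π x)) f' := by
  have hlift : ∀ x, π (f x * s (π x)) = f' (π x) := by
    intro x
    rw [map_mul, (MonoidHom.mem_ker).1 (hs _), mul_one, hl.lift]
  have hquad : ∀ k ∈ π.ker, ∀ x, f (k * x) * s (π (k * x)) = k ^ 2 * (f x * s (π x)) := by
    intro k hk x
    have h2 : π (k * x) = π x := by rw [map_mul, (MonoidHom.mem_ker).1 hk, one_mul]
    rw [h2, hl.quad k hk, mul_assoc]
  refine ⟨hl.surj, hl.cent, hlift, hquad, ?_, hl.orth'⟩
  refine Section.orth_of π hl.cent hl.orth' hlift hquad (fun k hk hk2 => ?_)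
  have h1 := hl.quad k hk 1
  rw [hk2, one_mul, mul_one] at h1
  exact hl.orth.1.1 h1

/-- Equivariant functions supported on a regular orbit. -/
theorem exists_delta (π : N →* M) (a : M) (ha1 : a ≠ 1) (ha : ∀ p : P, p • a = a → p = 1)
    (hk : ∀ (p : P), ∀ k ∈ π.ker, p • k ∈ π.ker) (k : N) (hk' : k ∈ π.ker) :
    ∃ s : M → N, (∀ m, s m ∈ π.ker) ∧ (∀ (p : P) m, s (p • m) = p • s m) ∧ s 1 = 1 ∧ s a = k ∧
      ∀ m, (∀ p : P, m ≠ p • a) → s m = 1 := by
  classical
  have huniq : ∀ p q : P, p • a = q • a → p = q := by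
    intro p q h
    have h1 : (q⁻¹ * p) • a = a := by rw [mul_smul, h, inv_smul_smul]
    exact (inv_mul_eq_one.1 (ha _ h1)).symm
  let s : M → N := fun m => if h : ∃ p : P, m = p • a then h.choose • k else 1
  have hs1 : ∀ p : P, s (p • a) = p • k := by
    intro p
    have h : ∃ q : P, p • a = q • a := ⟨p, rfl⟩
    have h1 : s (p • a) = h.choose • k := dif_pos h
    rw [h1, ← huniq _ _ h.choose_spec]
  have hs2 : ∀ m, (∀ p : P, m ≠ p • a) → s m = 1 := by
    intro m hm
    exact dif_neg (fun ⟨p, hp⟩ => hm p hp)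
  refine ⟨s, fun m => ?_, fun p m => ?_, ?_, ?_, hs2⟩
  · by_cases h : ∃ p : P, m = p • a
    · obtain ⟨p, rfl⟩ := h
      rw [hs1]
      exact hk p k hk'
    · rw [hs2 m (fun p hp => h ⟨p, hp⟩)]
      exact π.ker.one_mem
  · by_cases h : ∃ q : P, m = q • a
    · obtain ⟨q, rfl⟩ := h
      rw [← mul_smul, hs1, hs1, mul_smul]
    · rw [hs2 m (fun p hp => h ⟨p, hp⟩), smul_one]
      apply hs2
      intro q hq
      apply h
      refine ⟨p⁻¹ * q, ?_⟩
      rw [mul_smul, ← hq, inv_smul_smul]
  · apply hs2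
    intro p hp
    apply ha1
    have : p⁻¹ • (1 : M) = a := by rw [hp, inv_smul_smul]
    rw [← this, smul_one]
  · have := hs1 1
    rw [one_smul, one_smul] at this
    exact this

end

end Pool.Agent.Lib_MP_8306f4_co.CaseB
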