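import Pool.Agent.Lib_MP_8306f4_co.CaseB.Defs
import Pool.Agent.Lib_MP_8306f4_co.CaseB.Lift
import Pool.Agent.Lib_MP_8306f4_co.CaseB.Section
import Pool.Agent.Lib_MP_8306f4_co.CaseB.Retraction

/-!
# MP_8306f4_co, case B, piece Bsc

Notation. x·y = qop f x y = x f(x⁻¹y) on N; lambda_m: y -> m y is always an automorphism of it
(f commutes with nothing needed). 1·y = f(y). If Equi P f, then y -> p•y is an automorphism.
core(A): a∘b = 2b-a. For every x: y -> x·y is bijective (f bijective), for every y: x -> x·y is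
bijective (x⁻¹f(x) bijective). '2 is invertible': all groups N have odd order.

## L4 (Bsc.lean): bsc [needs K1, L1, L2, L3]
f' from hM with K' ≤ center M (field ker). f0 from exists_qlift. X = {s : M -> ker π equivariant, s 1 = 1},
f_s(x)=f0(x) s(πx) (QLift by qlift_mul, Equi, f_s 1 = 1). If HomFree f_s and KS f_s ⊆ ker π then lift_rig
gives Rig and WGoodF holds with K = ker π (PMin).
(a) X_a={s : not KS f_s ⊆ ker}. If s in X_a: U=π(KS f_s) is a P-invariant subgroup (kk_mul, kk_inv, kk_left)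
contained in KS f' ⊆ K', ≠1, so K' ≤ U: every k in K' has a lift n in KS f_s: f_s(n u)=n² f_s(u). Changing
the lift by an element of ker does not matter (quad). So for s,s' in X_a, s s'⁻¹(k u)=s s'⁻¹(u) for all k in
K'. X_a0 := {s in X : s(ku)=s(u) for all k in K'} is a subgroup; if X_a is nonempty, K'≠1 and the function
δ of exists_delta (at a, with a nontrivial value) is not in X_a0 (otherwise P•a is a union of K'-cosets
and |K'| odd >1 divides |P| = 2^k).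
(b) X_b={s : not HomFree f_s}. s in X_b gives a retraction τ with τ(f_s x)=τ(x)² (L3). For s,s' in X_b,
η=τ τ'⁻¹ factors through M, and s s'⁻¹=η²(η∘f')⁻¹. X_b0:={η²(η∘f')⁻¹ : η:M->ker equivariant hom} is a
subgroup of X, of size ≤ number of equivariant homs < |X| if some s in X is not a hom. If there is no
retraction X_b is empty.
So there is δ* in X outside X_a0 (if needed) and X_b0 (if needed): a group is not a union of two proper
subgroups (δ, s1, or δ s1). Among s=1, δ*, δ*² at most one is in X_a, at most one in X_b (odd order).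

-/

universe u v w

namespace Pool.Agent.Lib_MP_8306f4_co.CaseB

open Pool.Agent.Lib_MP_8306f4_co

namespace Bsc

open scoped IsMulCommutative

lemma pow_two_notMem {G : Type*} [Group G] {A0 : Subgroup G} {d : G} (hd : d ∉ A0) {n : ℕ}
    (hn : Odd n) (hG : d ^ n = 1) : d * d ∉ A0 := by
  intro h
  apply hd
  obtain ⟨m, rfl⟩ := hn
  have h2 : (d * d) ^ (m + 1) = d := by
    rw [← pow_two, ← pow_mul]
    have : 2 * (m + 1) = (2 * m + 1) + 1 := by ring
    rw [this, pow_succ, hG, one_mul]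
  rw [← h2]
  exact pow_mem h _

lemma three_facts {G : Type*} [Group G] (A : Set G) (A0 : Subgroup G)
    (hA : ∀ a ∈ A, ∀ b ∈ A, a * b⁻¹ ∈ A0) {n : ℕ} (hn : Odd n) {d : G} (hG : d ^ n = 1)
    (hd : A.Nonempty → d ∉ A0) :
    ¬ (1 ∈ A ∧ d ∈ A) ∧ ¬ (1 ∈ A ∧ d * d ∈ A) ∧ ¬ (d ∈ A ∧ d * d ∈ A) := by
  refine ⟨?_, ?_, ?_⟩
  · rintro ⟨h1, h2⟩
    have := hA _ h2 _ h1
    simp only [inv_one, mul_one] at this
    exact hd ⟨1, h1⟩ this
  · rintro ⟨h1, h2⟩
    have := hA _ h2 _ h1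
    simp only [inv_one, mul_one] at this
    exact pow_two_notMem (hd ⟨1, h1⟩) hn hG this
  · rintro ⟨h1, h2⟩
    have := hA _ h2 _ h1
    simp only [mul_inv_cancel_right] at this
    exact hd ⟨d, h1⟩ this

lemma exists_good {G : Type*} [Group G] (A B : Set G) (A0 B0 : Subgroup G)
    (hA : ∀ a ∈ A, ∀ b ∈ A, a * b⁻¹ ∈ A0) (hB : ∀ a ∈ B, ∀ b ∈ B, a * b⁻¹ ∈ B0)
    (hA0 : A.Nonempty → A0 ≠ ⊤) (hB0 : B.Nonempty → B0 ≠ ⊤) {n : ℕ} (hn : Odd n)
    (hG : ∀ g : G, g ^ n = 1) : ∃ g, g ∉ A ∧ g ∉ B := by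
  have key : ∃ d : G, (A.Nonempty → d ∉ A0) ∧ (B.Nonempty → d ∉ B0) := by
    by_cases hAe : A.Nonempty
    · have h1 := hA0 hAe
      rw [Ne, Subgroup.eq_top_iff'] at h1
      push Not at h1
      obtain ⟨x, hx⟩ := h1
      by_cases hBe : B.Nonempty
      · have h2 := hB0 hBe
        rw [Ne, Subgroup.eq_top_iff'] at h2
        push Not at h2
        obtain ⟨y, hy⟩ := h2
        by_cases hxB : x ∈ B0
        · by_cases hyA : y ∈ A0
          · refine ⟨x * y, fun _ h => hx ?_, fun _ h => hy ?_⟩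
            · exact (Subgroup.mul_mem_cancel_right _ hyA).1 h
            · exact (Subgroup.mul_mem_cancel_left _ hxB).1 h
          · exact ⟨y, fun _ => hyA, fun _ => hy⟩
        · exact ⟨x, fun _ => hx, fun _ => hxB⟩
      · exact ⟨x, fun _ => hx, fun h => absurd h hBe⟩
    · by_cases hBe : B.Nonempty
      · have h2 := hB0 hBe
        rw [Ne, Subgroup.eq_top_iff'] at h2
        push Not at h2
        obtain ⟨y, hy⟩ := h2
        exact ⟨y, fun h => absurd h hAe, fun _ => hy⟩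
      · exact ⟨1, fun h => absurd h hAe, fun h => absurd h hBe⟩
  obtain ⟨d, hdA, hdB⟩ := key
  obtain ⟨a1, a2, a3⟩ := three_facts A A0 hA hn (hG d) hdA
  obtain ⟨b1, b2, b3⟩ := three_facts B B0 hB hn (hG d) hdB
  by_contra hcon
  push Not at hcon
  have c1 := hcon 1
  have c2 := hcon d
  have c3 := hcon (d * d)
  by_cases h1 : (1 : G) ∈ A
  · exact b3 ⟨c2 fun h => a1 ⟨h1, h⟩, c3 fun h => a2 ⟨h1, h⟩⟩
  · by_cases h2 : d ∈ A
    · exact b2 ⟨c1 h1, c3 fun h => a3 ⟨h2, h⟩⟩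
    · exact b1 ⟨c1 h1, c2 h2⟩

lemma comm_aux1 {C : Type*} [CommGroup C] (a b c d : C) : (a * b) ^ 2 * (c * d)⁻¹ =
    (a ^ 2 * c⁻¹) * (b ^ 2 * d⁻¹) := by
  simp only [mul_inv, pow_two]
  ac_rfl

lemma comm_aux2 {C : Type*} [CommGroup C] (p q a b x y : C) (h1 : p * a = x ^ 2)
    (h2 : q * b = y ^ 2) : a * b⁻¹ = (x * y⁻¹) ^ 2 * (p * q⁻¹)⁻¹ := by
  have ha : a = p⁻¹ * x ^ 2 := by rw [← h1]; group
  have hb : b = q⁻¹ * y ^ 2 := by rw [← h2]; group
  rw [ha, hb]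
  simp only [mul_inv, inv_inv, pow_two]
  ac_rfl

lemma comm_aux3 {N : Type*} [Group N] {p q a b x y : N} (hp : p ∈ Subgroup.center N)
    (hq : q ∈ Subgroup.center N) (ha : a ∈ Subgroup.center N) (hb : b ∈ Subgroup.center N)
    (hx : x ∈ Subgroup.center N) (hy : y ∈ Subgroup.center N) (h1 : p * a = x ^ 2)
    (h2 : q * b = y ^ 2) : a * b⁻¹ = (x * y⁻¹) ^ 2 * (p * q⁻¹)⁻¹ :=
  congrArg Subtype.val (comm_aux2 (C := Subgroup.center N) ⟨p, hp⟩ ⟨q, hq⟩ ⟨a, ha⟩ ⟨b, hb⟩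
    ⟨x, hx⟩ ⟨y, hy⟩ (Subtype.ext h1) (Subtype.ext h2))

section
variable (P : Type v) [Group P] {N M : Type u} [Group N] [Group M]
  [MulDistribMulAction P N] [MulDistribMulAction P M]

/-- equivariant functions with values in the kernel and value 1 at 1 -/
def X (π : N →* M) : Subgroup (M → N) where
  carrier := {s | (∀ m, s m ∈ π.ker) ∧ (∀ (p : P) m, s (p • m) = p • s m) ∧ s 1 = 1}
  one_mem' := ⟨fun _ => one_mem _, fun p _ => (smul_one p).symm, rfl⟩
  mul_mem' := by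
    rintro s t ⟨hs1, hs2, hs3⟩ ⟨ht1, ht2, ht3⟩
    refine ⟨fun m => mul_mem (hs1 m) (ht1 m), fun p m => ?_, ?_⟩
    · change s (p • m) * t (p • m) = p • (s m * t m)
      rw [hs2, ht2, smul_mul']
    · change s 1 * t 1 = 1
      rw [hs3, ht3, one_mul]
  inv_mem' := by
    rintro s ⟨hs1, hs2, hs3⟩
    refine ⟨fun m => inv_mem (hs1 m), fun p m => ?_, ?_⟩
    · change (s (p • m))⁻¹ = p • (s m)⁻¹
      rw [hs2, smul_inv']
    · change (s 1)⁻¹ = 1
      rw [hs3, inv_one]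

/-- the multiplicative functions -/
def H (π : N →* M) (hc : π.ker ≤ Subgroup.center N) : Subgroup (X P π) where
  carrier := {s | ∀ m n, s.1 (m * n) = s.1 m * s.1 n}
  one_mem' := fun _ _ => (one_mul _).symm
  mul_mem' := by
    intro s t hs ht m n
    change s.1 (m * n) * t.1 (m * n) = (s.1 m * t.1 m) * (s.1 n * t.1 n)
    rw [hs, ht]
    have := Subgroup.mem_center_iff.1 (hc (s.2.1 n)) (t.1 m)
    calc s.1 m * s.1 n * (t.1 m * t.1 n) = s.1 m * (s.1 n * t.1 m) * t.1 n := by group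
      _ = s.1 m * (t.1 m * s.1 n) * t.1 n := by rw [this]
      _ = _ := by group
  inv_mem' := by
    intro s hs m n
    change (s.1 (m * n))⁻¹ = (s.1 m)⁻¹ * (s.1 n)⁻¹
    rw [hs, mul_inv_rev]
    exact (Subgroup.mem_center_iff.1 (inv_mem (hc (s.2.1 n))) ((s.1 m)⁻¹)).symm

/-- the map `η ↦ η² (η ∘ f')⁻¹` -/
def Phi (π : N →* M) (hc : π.ker ≤ Subgroup.center N) {f' : M → M} (he' : Equi P f')
    (h1 : f' 1 = 1) : X P π →* X P π where
  toFun η := ⟨fun m => η.1 m ^ 2 * (η.1 (f' m))⁻¹, by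
    refine ⟨fun m => mul_mem (pow_mem (η.2.1 m) 2) (inv_mem (η.2.1 _)), fun p m => ?_, ?_⟩
    · change η.1 (p • m) ^ 2 * (η.1 (f' (p • m)))⁻¹ = p • (η.1 m ^ 2 * (η.1 (f' m))⁻¹)
      rw [he', η.2.2.1, η.2.2.1, smul_mul', smul_inv', smul_pow']
    · change η.1 1 ^ 2 * (η.1 (f' 1))⁻¹ = 1
      rw [h1, η.2.2.2]
      simp⟩
  map_one' := by
    apply Subtype.ext
    funext m
    change (1 : N) ^ 2 * (1 : N)⁻¹ = 1
    simp
  map_mul' := by
    intro s t
    apply Subtype.ext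
    funext m
    change (s.1 m * t.1 m) ^ 2 * (s.1 (f' m) * t.1 (f' m))⁻¹ =
      (s.1 m ^ 2 * (s.1 (f' m))⁻¹) * (t.1 m ^ 2 * (t.1 (f' m))⁻¹)
    exact congrArg Subtype.val (comm_aux1 (C := Subgroup.center N) ⟨s.1 m, hc (s.2.1 m)⟩ ⟨t.1 m, hc (t.2.1 m)⟩
      ⟨s.1 (f' m), hc (s.2.1 _)⟩ ⟨t.1 (f' m), hc (t.2.1 _)⟩)

end

/-- `KS f` as a subgroup -/
def ksSub {N : Type u} [Group N] [Finite N] (hN : Odd (Nat.card N)) {f : N → N}
    (hf : IsOrth f) : Subgroup N where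
  carrier := KS f
  one_mem' := by
    intro x y
    simp
  mul_mem' := by
    intro a b ha hb
    have h1 := kk_mul hN hf ((kk_left a).2 ha) ((kk_left b).2 hb)
    have h2 : Equiv.mulLeft a * Equiv.mulLeft b = Equiv.mulLeft (a * b) := by
      ext x
      simp
    rw [h2] at h1
    exact (kk_left _).1 h1
  inv_mem' := by
    intro a ha
    have h1 := kk_inv ((kk_left a).2 ha)
    have h2 : (Equiv.mulLeft a)⁻¹ = Equiv.mulLeft a⁻¹ := by
      ext x
      simp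
    rw [h2] at h1
    exact (kk_left _).1 h1

lemma ks_map {N M : Type u} [Group N] [Group M] {π : N →* M} {f : N → N} {f' : M → M}
    (hl : QLift π f f') {m : N} (hm : m ∈ KS f) : π m ∈ KS f' := by
  intro x' y'
  obtain ⟨x, rfl⟩ := hl.surj x'
  obtain ⟨y, rfl⟩ := hl.surj y'
  have h := congrArg π (hm x y)
  rw [hl.lift] at h
  simpa only [map_mul, map_inv, map_pow, hl.lift] using h

lemma ks_smul {P : Type v} [Group P] {N : Type u} [Group N] [MulDistribMulAction P N]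
    {f : N → N} (he : Equi P f) {m : N} (hm : m ∈ KS f) (p : P) : p • m ∈ KS f := by
  intro x y
  have h : p • f ((p⁻¹ • x)⁻¹ * m * (p⁻¹ • x) * (p⁻¹ • y)) =
      p • ((p⁻¹ • x)⁻¹ * m ^ 2 * (p⁻¹ • x) * f (p⁻¹ • y)) :=
    congrArg (fun t => p • t) (hm (p⁻¹ • x) (p⁻¹ • y))
  rw [← he] at h
  have h2 : p • f (p⁻¹ • y) = f y := by rw [← he, smul_inv_smul]
  simpa only [smul_mul', smul_inv', smul_pow', smul_inv_smul, h2] using h

lemma lift_of_KS {P : Type v} [Group P] {N M : Type u} [Group N] [Finite N] [Group M]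
    [MulDistribMulAction P N] [MulDistribMulAction P M] (hN : Odd (Nat.card N)) {π : N →* M}
    (he : ∀ (p : P) x, π (p • x) = p • π x) {f : N → N} {f' : M → M} (hl : QLift π f f')
    (hf : Equi P f) {K' : Subgroup M} (hK : KS f' ⊆ K')
    (hmin : ∀ k ∈ K', k ≠ 1 → ∀ H : Subgroup M, PInv P H → k ∈ H → K' ≤ H)
    {m : N} (hm : m ∈ KS f) (hm1 : π m ≠ 1) : ∀ k ∈ K', ∃ n ∈ KS f, π n = k := by
  have hle : K' ≤ (ksSub hN hl.orth).map π := by
    apply hmin (π m) (hK (ks_map hl hm)) hm1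
    · rintro p _ ⟨n, hn, rfl⟩
      exact ⟨p • n, ks_smul hf hn p, he p n⟩
    · exact ⟨m, hm, rfl⟩
  intro k hk
  obtain ⟨n, hn, rfl⟩ := hle hk
  exact ⟨n, hn, rfl⟩

lemma diff_a {N M : Type u} [Group N] [Group M] {π : N →* M}
    {f0 : N → N} {f' : M → M} (hl : QLift π f0 f') {s t : M → N} (hs : ∀ m, s m ∈ π.ker)
    (ht : ∀ m, t m ∈ π.ker) {k : M}
    (h1 : ∃ n ∈ KS (fun x => f0 x * s (π x)), π n = k)
    (h2 : ∃ n ∈ KS (fun x => f0 x * t (π x)), π n = k) (u : M) :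
    s (k * u) * (t (k * u))⁻¹ = s u * (t u)⁻¹ := by
  obtain ⟨n, hn, hnk⟩ := h1
  obtain ⟨n', hn', hnk'⟩ := h2
  obtain ⟨v, rfl⟩ := hl.surj u
  have e1 := hn 1 v
  have e2 := hn' 1 v
  simp only [inv_one, one_mul, mul_one, map_mul, hnk, hnk'] at e1 e2
  have hcen : ∀ c ∈ π.ker, ∀ x, c * x = x * c := fun c hcm x =>
    ((Subgroup.mem_center_iff.1 (hl.cent hcm)) x).symm
  have hck : n' * n⁻¹ ∈ π.ker := by
    rw [MonoidHom.mem_ker, map_mul, map_inv, hnk, hnk', mul_inv_cancel]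
  obtain ⟨c, hc, rfl⟩ : ∃ c ∈ π.ker, n' = c * n := ⟨n' * n⁻¹, hck, by group⟩
  rw [mul_assoc c n v, hl.quad c hc] at e2
  have hc2 : (c * n) ^ 2 = c ^ 2 * n ^ 2 := by
    rw [(show Commute c n from hcen c hc n).mul_pow]
  rw [hc2, mul_assoc (c ^ 2), mul_assoc (c ^ 2)] at e2
  have e3 := mul_left_cancel e2
  have es : s (k * π v) = (f0 (n * v))⁻¹ * (n ^ 2 * f0 v) * s (π v) := by
    rw [mul_assoc, mul_assoc (n ^ 2), ← e1, inv_mul_cancel_left]
  have et : t (k * π v) = (f0 (n * v))⁻¹ * (n ^ 2 * f0 v) * t (π v) := by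
    rw [mul_assoc, mul_assoc (n ^ 2), ← e3, inv_mul_cancel_left]
  rw [es, et]
  set W := (f0 (n * v))⁻¹ * (n ^ 2 * f0 v)
  have hd : s (π v) * (t (π v))⁻¹ ∈ π.ker := mul_mem (hs _) (inv_mem (ht _))
  calc W * s (π v) * (W * t (π v))⁻¹ = W * (s (π v) * (t (π v))⁻¹) * W⁻¹ := by group
    _ = (s (π v) * (t (π v))⁻¹) * W * W⁻¹ := by rw [hcen _ hd W]
    _ = _ := by group

lemma diff_b {P : Type v} [Group P] {N M : Type u} [Group N] [Group M]
    [MulDistribMulAction P N] [MulDistribMulAction P M] {π : N →* M}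
    (he : ∀ (p : P) x, π (p • x) = p • π x)
    {f0 : N → N} {f' : M → M} (hl : QLift π f0 f') {s t : M → N} (hs : ∀ m, s m ∈ π.ker)
    (ht : ∀ m, t m ∈ π.ker)
    (h1 : ∃ τ : N →* N, (∀ (p : P) x, τ (p • x) = p • τ x) ∧ (∀ x, τ x ∈ π.ker) ∧
      (∀ k ∈ π.ker, τ k = k) ∧ ∀ x, τ (f0 x * s (π x)) = τ x ^ 2)
    (h2 : ∃ τ : N →* N, (∀ (p : P) x, τ (p • x) = p • τ x) ∧ (∀ x, τ x ∈ π.ker) ∧
      (∀ k ∈ π.ker, τ k = k) ∧ ∀ x, τ (f0 x * t (π x)) = τ x ^ 2) :
    ∃ η : M → N, (∀ m, η m ∈ π.ker) ∧ (∀ (p : P) m, η (p • m) = p • η m) ∧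
      (∀ m n, η (m * n) = η m * η n) ∧ ∀ m, s m * (t m)⁻¹ = η m ^ 2 * (η (f' m))⁻¹ := by
  obtain ⟨τ, τe, τk, τi, τf⟩ := h1
  obtain ⟨ρ, ρe, ρk, ρi, ρf⟩ := h2
  have hcen : ∀ c ∈ π.ker, ∀ x, c * x = x * c := fun c hcm x =>
    ((Subgroup.mem_center_iff.1 (hl.cent hcm)) x).symm
  let g : N → N := fun x => τ x * (ρ x)⁻¹
  have gk : ∀ x, g x ∈ π.ker := fun x => mul_mem (τk x) (inv_mem (ρk x))
  have gm : ∀ x y, g (x * y) = g x * g y := by
    intro x y
    change τ (x * y) * (ρ (x * y))⁻¹ = (τ x * (ρ x)⁻¹) * (τ y * (ρ y)⁻¹)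
    rw [map_mul, map_mul, mul_inv_rev]
    calc τ x * τ y * ((ρ y)⁻¹ * (ρ x)⁻¹) = τ x * ((τ y * (ρ y)⁻¹) * (ρ x)⁻¹) := by group
      _ = τ x * ((ρ x)⁻¹ * (τ y * (ρ y)⁻¹)) := by rw [hcen _ (gk y) (ρ x)⁻¹]
      _ = _ := by group
  have ge : ∀ (p : P) x, g (p • x) = p • g x := by
    intro p x
    change τ (p • x) * (ρ (p • x))⁻¹ = p • (τ x * (ρ x)⁻¹)
    rw [τe, ρe, smul_mul', smul_inv']
  have gw : ∀ x y, π x = π y → g x = g y := by
    intro x y hxy
    have hk : x * y⁻¹ ∈ π.ker := by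
      rw [MonoidHom.mem_ker, map_mul, map_inv, hxy, mul_inv_cancel]
    have h3 : g (x * y⁻¹) = 1 := by
      change τ (x * y⁻¹) * (ρ (x * y⁻¹))⁻¹ = 1
      rw [τi _ hk, ρi _ hk, mul_inv_cancel]
    have h4 : x = (x * y⁻¹) * y := by group
    rw [h4, gm, h3, one_mul]
  let r : M → N := Function.surjInv hl.surj
  have hr : ∀ m, π (r m) = m := Function.surjInv_eq hl.surj
  have gr : ∀ x, g (r (π x)) = g x := fun x => gw _ _ (hr _)
  refine ⟨fun m => g (r m), fun m => gk _, fun p m => ?_, fun m n => ?_, fun m => ?_⟩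
  · change g (r (p • m)) = p • g (r m)
    rw [← ge]
    apply gw
    rw [hr, he, hr]
  · change g (r (m * n)) = g (r m) * g (r n)
    rw [← gm]
    apply gw
    rw [hr, map_mul, hr, hr]
  · obtain ⟨x, rfl⟩ := hl.surj m
    change s (π x) * (t (π x))⁻¹ = g (r (π x)) ^ 2 * (g (r (f' (π x))))⁻¹
    rw [gr, ← hl.lift, gr]
    have e1 := τf x
    have e2 := ρf x
    rw [map_mul, τi _ (hs _)] at e1
    rw [map_mul, ρi _ (ht _)] at e2
    exact comm_aux3 (hl.cent (τk _)) (hl.cent (ρk _)) (hl.cent (hs _)) (hl.cent (ht _))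
      (hl.cent (τk _)) (hl.cent (ρk _)) e1 e2

/-- an equivariant function supported on a regular orbit, nontrivial there, is not invariant under
a nontrivial subgroup of odd order -/
lemma delta_not {P : Type v} [Group P] [Finite P] {N M : Type u} [Group N] [Group M] [Finite M]
    [MulDistribMulAction P N] [MulDistribMulAction P M] (hP : IsPGroup 2 P)
    (hM : Odd (Nat.card M)) {a : M} (ha : ∀ p : P, p • a = a → p = 1) {K' : Subgroup M}
    (hK' : K' ≠ ⊥) {s : M → N} (hs : ∀ (p : P) m, s (p • m) = p • s m) (hsa : s a ≠ 1)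
    (hs0 : ∀ m, (∀ p : P, m ≠ p • a) → s m = 1) (hinv : ∀ k ∈ K', ∀ u, s (k * u) = s u) :
    False := by
  classical
  have hcard : Nat.card K' ≠ 1 := fun h => hK' (Subgroup.card_eq_one.1 h)
  set q := (Nat.card K').minFac with hq
  have hqp : q.Prime := Nat.minFac_prime hcard
  have : Fact q.Prime := ⟨hqp⟩
  obtain ⟨k, hk⟩ := exists_prime_orderOf_dvd_card' (G := K') q (Nat.minFac_dvd _)
  let O : Set M := Set.range (fun p : P => p • a)
  have hO : ∀ u : O, (k : M) * u ∈ O := by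
    intro u
    by_contra hcon
    have h1 : s (k * u) = 1 := hs0 _ (fun p hp => hcon ⟨p, hp.symm⟩)
    rw [hinv k k.2] at h1
    obtain ⟨p, hp⟩ := u.2
    have hp' : p • a = (u : M) := hp
    rw [← hp', hs] at h1
    have h3 := congrArg (fun x => p⁻¹ • x) h1
    simp only [inv_smul_smul, smul_one] at h3
    exact hsa h3
  let F : Function.End O := fun u => ⟨(k : M) * u, hO u⟩
  let _ : Fintype O := Fintype.ofFinite _
  have hpow : ∀ j : ℕ, ∀ u : O, (((F ^ j : Function.End O) u : O) : M) = (k : M) ^ j * u := by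
    intro j
    induction j with
    | zero =>
      intro u
      rw [pow_zero, pow_zero, one_mul]
      rfl
    | succ j ih =>
      intro u
      rw [pow_succ']
      change (k : M) * (((F ^ j : Function.End O) u : O) : M) = _
      rw [ih, pow_succ', mul_assoc]
  have hF : F ^ q ^ 1 = 1 := by
    funext u
    apply Subtype.ext
    rw [hpow, pow_one]
    have : (k : M) ^ q = 1 := by
      have := pow_orderOf_eq_one k
      rw [hk] at this
      exact congrArg Subtype.val this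
    rw [this, one_mul]
    rfl
  have hmod := Equiv.Perm.card_fixedPoints_modEq hF
  have hfix : IsEmpty (Function.fixedPoints F) := by
    constructor
    rintro ⟨u, hu⟩
    have h1 : (k : M) * u = u := congrArg Subtype.val hu
    have h2 : (k : M) = 1 := by simpa using h1
    have h3 : k = 1 := Subtype.ext h2
    rw [h3, orderOf_one] at hk
    exact hqp.one_lt.ne hk
  rw [Fintype.card_eq_zero_iff.2 hfix] at hmod
  have hd : q ∣ Fintype.card O := (Nat.modEq_zero_iff_dvd).1 hmod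
  have hc : Fintype.card O = Nat.card P := by
    rw [← Nat.card_eq_fintype_card]
    refine (Nat.card_congr (Equiv.ofInjective (fun p : P => p • a) ?_)).symm
    intro p p' hpp
    have hpp' : p • a = p' • a := hpp
    have := ha (p'⁻¹ * p) (by rw [mul_smul, hpp', inv_smul_smul])
    exact (inv_mul_eq_one.1 this).symm
  rw [hc] at hd
  obtain ⟨n, hn⟩ := IsPGroup.iff_card.1 hP
  rw [hn] at hd
  have hq2 : q = 2 := (Nat.prime_dvd_prime_iff_eq hqp Nat.prime_two).1 (hqp.dvd_of_dvd_pow hd)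
  have h2 : 2 ∣ Nat.card M := by
    rw [← hq2]
    exact (Nat.minFac_dvd _).trans (Subgroup.card_subgroup_dvd_card K')
  exact (Nat.not_even_iff_odd.2 hM) (even_iff_two_dvd.2 h2)

end Bsc

section
variable {P : Type v} [Group P] [Finite P] {N M : Type u} [Group N] [Finite N] [Group M]
  [MulDistribMulAction P N] [MulDistribMulAction P M]

/-- The central extension step. -/
theorem bsc (hP : IsPGroup 2 P) (hN : Odd (Nat.card N)) (π : N →* M)
    (hs : Function.Surjective π) (he : ∀ (p : P) x, π (p • x) = p • π x)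
    (hc : π.ker ≤ Subgroup.center N) (hmin : PMin P π.ker) (hM : WGood P M)
    (a : M) (ha1 : a ≠ 1) (ha : ∀ p : P, p • a = a → p = 1)
    (hb : (¬ ∃ τ : N →* N, (∀ (p : P) x, τ (p • x) = p • τ x) ∧ (∀ x, τ x ∈ π.ker) ∧
        ∀ k ∈ π.ker, τ k = k) ∨
      ∃ s : M → N, (∀ m, s m ∈ π.ker) ∧ (∀ (p : P) m, s (p • m) = p • s m) ∧ s 1 = 1 ∧
        ∃ m n, s (m * n) ≠ s m * s n) : WGood P N := by
  classical
  obtain ⟨f', hf'⟩ := hM
  obtain ⟨K', hK'c, hK'K, hK'min⟩ := hf'.ker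
  have : Finite M := Finite.of_surjective π hs
  have hMo : Odd (Nat.card M) := by
    have h1 : Nat.card M ∣ Nat.card N := Subgroup.card_dvd_of_surjective π hs
    exact Odd.of_dvd_nat hN h1
  obtain ⟨f0, hl0, he0, h01⟩ := exists_qlift hP hN π hs he hc hf'.orth hf'.equi hf'.one
  have hkp : ∀ (p : P), ∀ k ∈ π.ker, p • k ∈ π.ker := fun p k hk => hmin.2.1 p k hk
  have hFl : ∀ s ∈ Bsc.X P π, QLift π (fun x => f0 x * s (π x)) f' := fun s hs' =>
    qlift_mul hl0 s hs'.1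
  have hFe : ∀ s ∈ Bsc.X P π, Equi P (fun x => f0 x * s (π x)) := by
    intro s hs' p x
    change f0 (p • x) * s (π (p • x)) = p • (f0 x * s (π x))
    rw [he0, he, hs'.2.1, smul_mul']
  have hF1 : ∀ s ∈ Bsc.X P π, f0 1 * s (π 1) = 1 := by
    intro s hs'
    rw [h01, map_one, hs'.2.2, one_mul]
  let A : Set (Bsc.X P π) := {s | ∃ m ∈ KS (fun x => f0 x * s.1 (π x)), π m ≠ 1}
  let B : Set (Bsc.X P π) := {s | ¬ HomFree (fun x => f0 x * s.1 (π x))}
  let A0 : Subgroup (Bsc.X P π) :=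
    { carrier := {t | ∀ k ∈ K', ∀ u, t.1 (k * u) = t.1 u}
      one_mem' := fun _ _ _ => rfl
      mul_mem' := by
        intro s t hs' ht' k hk u
        change s.1 (k * u) * t.1 (k * u) = s.1 u * t.1 u
        rw [hs' k hk u, ht' k hk u]
      inv_mem' := by
        intro s hs' k hk u
        change (s.1 (k * u))⁻¹ = (s.1 u)⁻¹
        rw [hs' k hk u] }
  let B0 : Subgroup (Bsc.X P π) := (Bsc.H P π hc).map (Bsc.Phi P π hc hf'.equi hf'.one)
  have hodd : ∀ g : Bsc.X P π, g ^ Nat.card N = 1 := by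
    intro g
    apply Subtype.ext
    funext m
    change (g.1 m) ^ Nat.card N = 1
    exact pow_card_eq_one'
  obtain ⟨s, hsA, hsB⟩ := Bsc.exists_good A B A0 B0 (by
    rintro s ⟨m, hm, hm1⟩ t ⟨m', hm', hm1'⟩ k hk u
    exact Bsc.diff_a hl0 s.2.1 t.2.1
      (Bsc.lift_of_KS hN he (hFl s.1 s.2) (hFe s.1 s.2) hK'K hK'min hm hm1 k hk)
      (Bsc.lift_of_KS hN he (hFl t.1 t.2) (hFe t.1 t.2) hK'K hK'min hm' hm1' k hk) u) (by
    intro s hs' t ht'
    obtain ⟨η, η1, η2, η3, η4⟩ := Bsc.diff_b he hl0 s.2.1 t.2.1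
      (exists_retraction hP hN (hFl s.1 s.2) he (hFe s.1 s.2) hmin hf'.hom hs')
      (exists_retraction hP hN (hFl t.1 t.2) he (hFe t.1 t.2) hmin hf'.hom ht')
    have η5 : η 1 = 1 := by
      have := η3 1 1
      rw [mul_one] at this
      exact (left_eq_mul.1 this)
    refine ⟨⟨η, η1, η2, η5⟩, η3, ?_⟩
    apply Subtype.ext
    funext m
    exact (η4 m).symm) (by
    rintro ⟨s, m, hm, hm1⟩ htop
    have hK'1 : K' ≠ ⊥ := by
      intro h
      have h1 := hK'K (Bsc.ks_map (hFl s.1 s.2) hm)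
      rw [h] at h1
      exact hm1 (Subgroup.mem_bot.1 h1)
    obtain ⟨v, hv, hv1⟩ : ∃ v, v ∈ π.ker ∧ v ≠ 1 := by
      obtain ⟨v, hv⟩ := Subgroup.ne_bot_iff_exists_ne_one.1 hmin.1
      exact ⟨v.1, v.2, fun h => hv (Subtype.ext h)⟩
    obtain ⟨d, d1, d2, d3, d4, d5⟩ := exists_delta (P := P) π a ha1 ha hkp v hv
    have hd : (⟨d, d1, d2, d3⟩ : Bsc.X P π) ∈ A0 := by rw [htop]; trivial
    exact Bsc.delta_not hP hMo ha hK'1 d2 (by rw [d4]; exact hv1) d5 hd) (by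
    rintro ⟨s, hs'⟩ htop
    obtain ⟨τ, τ1, τ2, τ3, -⟩ :=
      exists_retraction hP hN (hFl s.1 s.2) he (hFe s.1 s.2) hmin hf'.hom hs'
    rcases hb with hb | ⟨s1, b1, b2, b3, m, n, b4⟩
    · exact hb ⟨τ, τ1, τ2, τ3⟩
    · have h1 : Nat.card (Bsc.X P π) ≤ Nat.card (Bsc.H P π hc) := by
        have h2 : Nat.card B0 = Nat.card (Bsc.X P π) := by
          rw [htop]
          exact Nat.card_congr Subgroup.topEquiv.toEquiv
        rw [← h2]
        exact Nat.card_le_card_of_surjective _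
          ((Bsc.Phi P π hc hf'.equi hf'.one).subgroupMap_surjective (Bsc.H P π hc))
      have h2 : Bsc.H P π hc = ⊤ := Subgroup.eq_top_of_le_card _ h1
      have h3 : (⟨s1, b1, b2, b3⟩ : Bsc.X P π) ∈ Bsc.H P π hc := by rw [h2]; trivial
      exact b4 (h3 m n)) hN hodd
  have hsA' : ∀ m ∈ KS (fun x => f0 x * s.1 (π x)), π m = 1 := by
    intro m hm
    by_contra h
    exact hsA ⟨m, hm, h⟩
  have hsB' : HomFree (fun x => f0 x * s.1 (π x)) := by
    by_contra h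
    exact hsB h
  refine ⟨fun x => f0 x * s.1 (π x), (hFl s.1 s.2).orth, hFe s.1 s.2, hF1 s.1 s.2, ?_, hsB', ?_⟩
  · exact lift_rig hP hN (hFl s.1 s.2) he (hFe s.1 s.2) hf'.rig hf'.hom hsB' hsA'
  · refine ⟨π.ker, hc, hsA', ?_⟩
    intro k hk hk1 L hL hkL
    rcases hmin.2.2 (L ⊓ π.ker) (fun p x hx => ⟨hL p x hx.1, hkp p x hx.2⟩) inf_le_right with h | h
    · exact absurd ((Subgroup.mem_bot.1 (h ▸ (⟨hkL, hk⟩ : k ∈ L ⊓ π.ker)))) hk1
    · rw [← h]
      exact inf_le_left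

end

end Pool.Agent.Lib_MP_8306f4_co.CaseB
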