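import Pool.Agent.Lib_MP_8306f4_co.CaseB.Defs

/-!
# MP_8306f4_co, case B, piece GBasics

Notation. x·y = qop f x y = x f(x⁻¹y) on N; lambda_m: y -> m y is always an automorphism of it
(f commutes with nothing needed). 1·y = f(y). If Equi P f, then y -> p•y is an automorphism.
core(A): a∘b = 2b-a. For every x: y -> x·y is bijective (f bijective), for every y: x -> x·y is
bijective (x⁻¹f(x) bijective). '2 is invertible': all groups N have odd order.

## G1 (GBasics.lean), G2 (GInv.lean): standard.
-/

universe u v w

namespace Pool.Agent.Lib_MP_8306f4_co.CaseB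

open Pool.Agent.Lib_MP_8306f4_co

section
variable {P : Type v} [Group P] {z : P}

theorem TwoCyc.comm (hz : TwoCyc z) (p q : P) : p * q = q * p := by
  obtain ⟨g, hg⟩ := hz.cyclic.exists_zpow_surjective
  obtain ⟨a, rfl⟩ := hg p
  obtain ⟨b, rfl⟩ := hg q
  change g ^ a * g ^ b = g ^ b * g ^ a
  rw [← zpow_add, ← zpow_add, add_comm]

theorem TwoCyc.mem_zpowers (hz : TwoCyc z) {p : P} (hp : p ≠ 1) : z ∈ Subgroup.zpowers p := by
  classical
  haveI := hz.fin
  haveI := hz.cyclic
  haveI := Fintype.ofFinite P
  obtain ⟨k, hk⟩ := (IsPGroup.iff_orderOf (p := 2)).1 hz.pgroup p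
  have hk0 : k ≠ 0 := by
    rintro rfl
    rw [pow_zero, orderOf_eq_one_iff] at hk
    exact hp hk
  obtain ⟨m, rfl⟩ := Nat.exists_eq_succ_of_ne_zero hk0
  have h1 : p ^ (2 ^ m) ≠ 1 := by
    intro h
    have := orderOf_dvd_of_pow_eq_one h
    rw [hk] at this
    have h2 := Nat.le_of_dvd (by positivity) this
    rw [Nat.succ_eq_add_one, pow_succ] at h2
    have : 0 < 2 ^ m := by positivity
    omega
  have h2 : (p ^ (2 ^ m)) ^ 2 = 1 := by
    rw [← pow_mul, ← pow_succ, ← Nat.succ_eq_add_one, ← hk, pow_orderOf_eq_one]
  have h3 : (Finset.univ.filter fun a : P => a ^ 2 = 1).card ≤ 2 :=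
    IsCyclic.card_pow_eq_one_le (by norm_num)
  by_contra hcon
  have hne : p ^ (2 ^ m) ≠ z := by
    intro h
    exact hcon (h ▸ Subgroup.pow_mem _ (Subgroup.mem_zpowers p) _)
  have h4 : ({1, z, p ^ (2 ^ m)} : Finset P) ⊆ Finset.univ.filter fun a : P => a ^ 2 = 1 := by
    intro a ha
    simp only [Finset.mem_insert, Finset.mem_singleton] at ha
    simp only [Finset.mem_filter, Finset.mem_univ, true_and]
    rcases ha with rfl | rfl | rfl
    · simp
    · rw [pow_two]; exact hz.sq
    · exact h2
  have h5 := Finset.card_le_card h4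
  rw [Finset.card_insert_of_notMem, Finset.card_insert_of_notMem, Finset.card_singleton] at h5
  · omega
  · simp only [Finset.mem_singleton]
    exact fun h => hne h.symm
  · simp only [Finset.mem_insert, Finset.mem_singleton, not_or]
    exact ⟨fun h => hz.ne_one h.symm, fun h => h1 h.symm⟩

/-- the order of `P` -/
theorem TwoCyc.card (hz : TwoCyc z) : ∃ k, 1 ≤ k ∧ Nat.card P = 2 ^ k := by
  haveI := hz.fin
  obtain ⟨k, hk⟩ := (IsPGroup.iff_card (p := 2)).1 hz.pgroup
  refine ⟨k, ?_, hk⟩
  rcases Nat.eq_zero_or_pos k with rfl | h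
  · exfalso
    rw [pow_zero, Nat.card_eq_one_iff_unique] at hk
    obtain ⟨h1, _⟩ := hk
    exact hz.ne_one (Subsingleton.elim _ _)
  · exact h

/-- an element not fixed by `z` has a regular orbit -/
theorem TwoCyc.regular (hz : TwoCyc z) {N : Type u} [Group N] [MulDistribMulAction P N] {a : N}
    (ha : z • a ≠ a) {p : P} (hp : p • a = a) : p = 1 := by
  by_contra h
  obtain ⟨k, hk⟩ := Subgroup.mem_zpowers_iff.1 (hz.mem_zpowers h)
  apply ha
  have : p ∈ MulAction.stabilizer P a := hp
  have h2 : z ∈ MulAction.stabilizer P a := by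
    rw [← hk]
    exact Subgroup.zpow_mem _ this k
  exact h2

end

/-- The quotient by a normal `P`-invariant subgroup. -/
theorem exists_quot {P : Type v} [Group P] {N : Type u} [Group N] [MulDistribMulAction P N]
    (K : Subgroup N) [K.Normal] (hK : PInv P K) :
    ∃ (M : Type u) (_ : Group M) (_ : MulDistribMulAction P M) (π : N →* M),
      Function.Surjective π ∧ (∀ (p : P) x, π (p • x) = p • π x) ∧ π.ker = K := by
  let act : P → (N ⧸ K →* N ⧸ K) := fun p =>
    QuotientGroup.map K K (MulDistribMulAction.toMonoidHom N p) (fun x hx => hK p x hx)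
  have hact : ∀ (p : P) (x : N), act p (QuotientGroup.mk' K x) = QuotientGroup.mk' K (p • x) := by
    intro p x
    rfl
  let inst : MulDistribMulAction P (N ⧸ K) :=
    { smul := fun p x => act p x
      one_smul := by
        intro x
        obtain ⟨y, rfl⟩ := QuotientGroup.mk'_surjective K x
        change act 1 _ = _
        rw [hact, one_smul]
      mul_smul := by
        intro p q x
        obtain ⟨y, rfl⟩ := QuotientGroup.mk'_surjective K x
        change act (p * q) _ = act p (act q _)
        rw [hact, hact, hact, mul_smul]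
      smul_mul := by
        intro p x y
        exact map_mul (act p) x y
      smul_one := by
        intro p
        exact map_one (act p) }
  refine ⟨N ⧸ K, inferInstance, inst, QuotientGroup.mk' K, QuotientGroup.mk'_surjective K, ?_,
    QuotientGroup.ker_mk' K⟩
  intro p x
  exact (hact p x).symm

/-- A `P`-invariant subgroup as a group with `P`-action. -/
theorem exists_sub {P : Type v} [Group P] {N : Type u} [Group N] [MulDistribMulAction P N]
    (K : Subgroup N) (hK : PInv P K) :
    ∃ (L : Type u) (_ : Group L) (_ : MulDistribMulAction P L) (ι : L →* N),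
      Function.Injective ι ∧ (∀ (p : P) x, ι (p • x) = p • ι x) ∧ ι.range = K := by
  let inst : MulDistribMulAction P K :=
    { smul := fun p x => ⟨p • (x : N), hK p x x.2⟩
      one_smul := by
        intro x
        exact Subtype.ext (one_smul P (x : N))
      mul_smul := by
        intro p q x
        exact Subtype.ext (mul_smul p q (x : N))
      smul_mul := by
        intro p x y
        exact Subtype.ext (smul_mul' p (x : N) (y : N))
      smul_one := by
        intro p
        exact Subtype.ext (smul_one p) }
  exact ⟨K, inferInstance, inst, K.subtype, K.subtype_injective, fun p x => rfl,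
    K.range_subtype⟩

end Pool.Agent.Lib_MP_8306f4_co.CaseB
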