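import Pool.Agent.Lib_MP_8306f4_co.CaseB.Defs

/-!
# MP_8306f4_co, case B, piece GInv

Notation. x·y = qop f x y = x f(x⁻¹y) on N; lambda_m: y -> m y is always an automorphism of it
(f commutes with nothing needed). 1·y = f(y). If Equi P f, then y -> p•y is an automorphism.
core(A): a∘b = 2b-a. For every x: y -> x·y is bijective (f bijective), for every y: x -> x·y is
bijective (x⁻¹f(x) bijective). '2 is invertible': all groups N have odd order.

## G1 (GBasics.lean), G2 (GInv.lean): standard.
-/

universe u v w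

namespace Pool.Agent.Lib_MP_8306f4_co.CaseB

open Pool.Agent.Lib_MP_8306f4_co

namespace GInv

/-- an involution of a finite set with an odd number of elements has a fixed point -/
lemma exists_fixed {α : Type*} [Finite α] (hα : Odd (Nat.card α)) (f : α → α)
    (hf : ∀ x, f (f x) = x) : ∃ x, f x = x := by
  classical
  have := Fintype.ofFinite α
  have : Fact (Nat.Prime 2) := ⟨Nat.prime_two⟩
  have h1 := Equiv.Perm.card_fixedPoints_modEq (α := α) (f := f) (p := 2) (n := 1) (by
    funext x
    exact hf x)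
  by_contra hcon
  push Not at hcon
  have h2 : IsEmpty (Function.fixedPoints f) := ⟨fun x => hcon x.1 x.2⟩
  have h3 : Fintype.card (Function.fixedPoints f) = 0 := Fintype.card_eq_zero_iff.2 h2
  rw [h3, ← Nat.card_eq_fintype_card] at h1
  rw [Nat.odd_iff] at hα
  unfold Nat.ModEq at h1
  omega

end GInv

section
variable {P : Type v} [Group P] {z : P} {N M : Type u} [Group N] [Finite N] [Group M]
  [MulDistribMulAction P N] [MulDistribMulAction P M]

/-- fixed points lift to extensions -/
theorem fix_lift (hz2 : z * z = 1) (hN : Odd (Nat.card N)) (π : N →* M)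
    (hs : Function.Surjective π) (he : ∀ x, π (z • x) = z • π x) {m : M} (hm : z • m = m) :
    ∃ x, π x = m ∧ z • x = x := by
  obtain ⟨x0, hx0⟩ := hs m
  have hzz : ∀ x : N, z • z • x = x := fun x => by rw [← mul_smul, hz2, one_smul]
  let e : π.ker ≃ {x : N // π x = m} :=
    { toFun := fun k => ⟨x0 * k, by rw [map_mul, hx0, k.2, mul_one]⟩
      invFun := fun x => ⟨x0⁻¹ * x, by
        rw [MonoidHom.mem_ker, map_mul, map_inv, hx0, x.2, inv_mul_cancel]⟩
      left_inv := fun k => by simp
      right_inv := fun x => by simp }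
  have hodd : Odd (Nat.card {x : N // π x = m}) := by
    rw [← Nat.card_congr e]
    exact Odd.of_dvd_nat hN (Subgroup.card_subgroup_dvd_card _)
  obtain ⟨⟨x, hx⟩, h1⟩ := GInv.exists_fixed hodd
    (fun x => ⟨z • x.1, by rw [he, x.2, hm]⟩) (fun x => Subtype.ext (hzz x.1))
  exact ⟨x, hx, congrArg Subtype.val h1⟩

theorem inv_of_fix (hz2 : z * z = 1) (h : ∀ x : N, z • x = x → x = 1) (x : N) :
    z • x = x⁻¹ := by
  have hzz : ∀ x : N, z • z • x = x := fun x => by rw [← mul_smul, hz2, one_smul]
  have hinj : Function.Injective (fun x : N => x⁻¹ * z • x) := by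
    intro a b hab
    change a⁻¹ * z • a = b⁻¹ * z • b at hab
    have h1 : z • (b * a⁻¹) = b * a⁻¹ := by
      rw [smul_mul', smul_inv']
      have h2 : b * (a⁻¹ * z • a) * (z • a)⁻¹ = b * (b⁻¹ * z • b) * (z • a)⁻¹ := by rw [hab]
      rw [← mul_assoc, mul_inv_cancel_right, mul_inv_cancel_left] at h2
      exact h2.symm
    have h3 := h _ h1
    exact (mul_inv_eq_one.1 h3).symm
  obtain ⟨y, hy⟩ := (Finite.injective_iff_surjective.1 hinj) x
  change y⁻¹ * z • y = x at hy
  rw [← hy, smul_mul', hzz, smul_inv', mul_inv_rev, inv_inv]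

theorem comm_of_inv (h : ∀ x : N, z • x = x⁻¹) (x y : N) : x * y = y * x := by
  have h1 := h (x * y)
  rw [smul_mul', h, h, ← mul_inv_rev] at h1
  exact (inv_injective h1).symm

/-- the induced map on fixed points -/
def GInv.fixMap (z : P) (π : N →* M) (he : ∀ x, π (z • x) = z • π x) :
    (fixS z : Subgroup N) →* (fixS z : Subgroup M) where
  toFun x := ⟨π x, by
    have h1 : z • (x : N) = x := x.2
    rw [mem_fixS, ← he, h1]⟩
  map_one' := by simp
  map_mul' a b := by simp

omit [Finite N] in
lemma GInv.fixMap_coe (π : N →* M) (he : ∀ x, π (z • x) = z • π x)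
    (x : (fixS z : Subgroup N)) : (GInv.fixMap z π he x : M) = π x := rfl

lemma GInv.fixMap_surj (hz2 : z * z = 1) (hN : Odd (Nat.card N)) (π : N →* M)
    (hs : Function.Surjective π) (he : ∀ x, π (z • x) = z • π x) :
    Function.Surjective (GInv.fixMap z π he) := by
  rintro ⟨m, hm⟩
  obtain ⟨x, hx, hzx⟩ := fix_lift hz2 hN π hs he hm
  exact ⟨⟨x, hzx⟩, Subtype.ext hx⟩

/-- If `z` acts trivially on the kernel, the number of fixed points multiplies. -/
theorem card_fix_of_trivial (hz2 : z * z = 1) (hN : Odd (Nat.card N)) (π : N →* M)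
    (hs : Function.Surjective π) (he : ∀ x, π (z • x) = z • π x)
    (hk : ∀ x ∈ π.ker, z • x = x) :
    Nat.card (fixS z : Subgroup N) = Nat.card π.ker * Nat.card (fixS z : Subgroup M) := by
  have h1 := Subgroup.card_mul_index (GInv.fixMap z π he).ker
  rw [Subgroup.index_ker, MonoidHom.range_eq_top.2 (GInv.fixMap_surj hz2 hN π hs he),
    Subgroup.card_top] at h1
  rw [← h1]
  congr 1
  refine Nat.card_congr
    { toFun := fun x => ⟨x.1.1, congrArg Subtype.val x.2⟩
      invFun := fun x => ⟨⟨x.1, hk x.1 x.2⟩, Subtype.ext x.2⟩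
      left_inv := fun x => rfl
      right_inv := fun x => rfl }

/-- If `z` acts without fixed points on the kernel, the number of fixed points is the same. -/
theorem card_fix_of_inv (hz2 : z * z = 1) (hN : Odd (Nat.card N)) (π : N →* M)
    (hs : Function.Surjective π) (he : ∀ x, π (z • x) = z • π x)
    (hk : ∀ x ∈ π.ker, z • x = x → x = 1) :
    Nat.card (fixS z : Subgroup N) = Nat.card (fixS z : Subgroup M) := by
  refine Nat.card_congr (Equiv.ofBijective (GInv.fixMap z π he)
    ⟨?_, GInv.fixMap_surj hz2 hN π hs he⟩)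
  rw [injective_iff_map_eq_one]
  rintro ⟨x, hx⟩ h1
  exact Subtype.ext (hk x (congrArg Subtype.val h1) hx)

end

end Pool.Agent.Lib_MP_8306f4_co.CaseB
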