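import Pool.Agent.Lib_MP_8306f4_co.CaseB.Defs
import Pool.Agent.Lib_MP_8306f4_co.CaseB.Lift
import Pool.Agent.Lib_MP_8306f4_co.CaseB.Section
import Pool.Agent.Lib_MP_8306f4_co.CaseB.LemmaA
import Pool.Agent.Lib_MP_8306f4_co.CaseB.GBasics
import Pool.Agent.Lib_MP_8306f4_co.CaseB.GInv

/-!
# MP_8306f4_co, case B, piece Bsgen

Notation. x·y = qop f x y = x f(x⁻¹y) on N; lambda_m: y -> m y is always an automorphism of it
(f commutes with nothing needed). 1·y = f(y). If Equi P f, then y -> p•y is an automorphism.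
core(A): a∘b = 2b-a. For every x: y -> x·y is bijective (f bijective), for every y: x -> x·y is
bijective (x⁻¹f(x) bijective). '2 is invertible': all groups N have odd order.

## L5 (Bsgen.lean): bsgen [needs K1, L1, L2, H2]
z acts on M without fixed points (fixed points lift: hfix), so it inverts M, M abelian. S={x : z•x=x⁻¹}:
π|S is bijective onto M; r:M->S⊂N its inverse, equivariant since z is central in P. v in ker, v≠1; s =
exists_delta at a with value v (stabiliser of a trivial: hz, z inverts M). f(r(m)k)=r(A m)k² s(m).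
QLift π f A. HomFree A: h(1)=0 normalised, h(A y)=2h(y), h(x A(x)⁻¹)=-h(x), hence h additive, h((A-2)m)=0, A-2
surjective. IsK A σ' implies σ'=1: σ'(x)=b g(x), g automorphism commuting with A (affine quasigroup);
x·σ'(y)=σ'²(x·y): g²=1, then g=1, then A b=b², b=1. So IsK f σ => σ = λ_k, k in ker (as in kk_qlift).
Uniqueness (U): γ in A_1(f), πγ=π, γ(kx)=kγ(x) for k in ker => γ=1 (uniq).
α in A_1(f): normalises {λ_k}: α(kx)=κ(k)α(x). ᾱ=c in Aut M commuting with A. For n in N,
β=λ_{α(n)}⁻¹αλ_n in A_1(f) has the same c and κ, so by (U) β=α: α is a group automorphism. Commutator of α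
and z: trivial on M (c commutes with inversion), commutes with λ_k: so α commutes with z, α(S)=S,
α(r(m))=r(c m). So κ(s(m))=s(c m): c a in P•a, c a=p•a; replace α by p⁻¹α: c a=a, c commutes with A so c=1
(hgen); κ=1 on the subgroup generated by P•v = ker (PMin); α=1 by (U).
HomFree f: lemmaA: η additive, η(f x)=2η(x). η(r(A m))+η(s(m))=2η(r m); replace m by m⁻¹=z•m:
s(z•m)=z•s(m)=s(m) (z trivial on ker), so 2η(s(m))=0, η=0 on P•v hence on ker; η factors through M: 0.
ker field: K = ker π.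

-/

universe u v w

namespace Pool.Agent.Lib_MP_8306f4_co.CaseB

open Pool.Agent.Lib_MP_8306f4_co

set_option linter.unusedSectionVars false

namespace Bsgen

/-! ### Linear maps on commutative groups -/

section Comm

variable {M : Type u} [CommGroup M] [Finite M]

lemma bij_aux (A B : M →* M) (h : ∀ m, A m = B m → m = 1) :
    Function.Bijective (fun x => (B x)⁻¹ * A x) := by
  rw [← Finite.injective_iff_bijective]
  intro x y hxy
  simp only at hxy
  have h1 : A (x * y⁻¹) = B (x * y⁻¹) := by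
    rw [map_mul, map_mul, map_inv, map_inv]
    have h2 : A x = B x * ((B y)⁻¹ * A y) := by
      rw [← hxy, mul_inv_cancel_left]
    rw [h2]
    rw [mul_assoc, mul_assoc, mul_inv_cancel, mul_one]
  have h2 := h _ h1
  exact mul_inv_eq_one.1 h2

lemma bij_A (A : M →* M) (h : ∀ m, A m = 1 → m = 1) : Function.Bijective A := by
  rw [← Finite.injective_iff_bijective]
  rw [injective_iff_map_eq_one]
  exact h

lemma orth_A (A : M →* M) (hA0 : ∀ m, A m = 1 → m = 1) (hA1 : ∀ m, A m = m → m = 1) :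
    IsOrth (A : M → M) := by
  refine ⟨bij_A A hA0, ?_⟩
  exact bij_aux A (MonoidHom.id M) hA1

lemma qop_A (A : M →* M) (x y : M) : qop (A : M → M) x y = x * (A x)⁻¹ * A y := by
  simp [qop, mul_assoc]

lemma homFree_A (A : M →* M) (hA0 : ∀ m, A m = 1 → m = 1) (hA1 : ∀ m, A m = m → m = 1)
    (hA2 : ∀ m, A m = m ^ 2 → m = 1) : HomFree (A : M → M) := by
  intro q hq h hh x
  set h0 : M → ZMod q := fun x => h x - h 1 with hh0
  have h01 : h0 1 = 0 := by simp [hh0]
  have e : ∀ x y, h0 (x * (A x)⁻¹ * A y) = 2 * h0 y - h0 x := by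
    intro x y
    have := hh x y
    rw [qop_A] at this
    simp only [hh0, this]
    rw [two_nsmul]
    ring
  have e1 : ∀ y, h0 (A y) = 2 * h0 y := by
    intro y
    have := e 1 y
    rw [map_one, inv_one, mul_one, one_mul, h01, sub_zero] at this
    exact this
  have e2 : ∀ x, h0 (x * (A x)⁻¹) = - h0 x := by
    intro x
    have := e x 1
    rw [map_one, mul_one, h01, mul_zero, zero_sub] at this
    exact this
  have add : ∀ u v, h0 (u * v) = h0 u + h0 v := by
    intro u v
    obtain ⟨y, rfl⟩ := (bij_A A hA0).2 v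
    obtain ⟨x, hx⟩ := (bij_aux A (MonoidHom.id M) hA1).2 u⁻¹
    simp only [MonoidHom.id_apply] at hx
    have hu : u = x * (A x)⁻¹ := by
      rw [← inv_inv u, ← hx, mul_inv_rev, inv_inv, mul_comm]
    rw [hu, e, e1, e2]
    ring
  have hinv : ∀ u, h0 u⁻¹ = - h0 u := by
    intro u
    have := add u u⁻¹
    rw [mul_inv_cancel, h01] at this
    exact (neg_eq_of_add_eq_zero_right this.symm).symm
  obtain ⟨m, hm⟩ := (bij_aux A (powMonoidHom 2) hA2).2 x
  simp only [powMonoidHom_apply] at hm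
  have : h0 x = 0 := by
    rw [← hm, add, hinv, e1, pow_two, add]
    ring
  simp only [hh0] at this
  exact sub_eq_zero.1 this

lemma affine (A : M →* M) (hA0 : ∀ m, A m = 1 → m = 1) (hA1 : ∀ m, A m = m → m = 1)
    {g : M → M} (hg : ∀ x y, g (qop (A : M → M) x y) = qop (A : M → M) (g x) (g y))
    (h1 : g 1 = 1) : (∀ x y, g (x * y) = g x * g y) ∧ ∀ x, g (A x) = A (g x) := by
  have e1 : ∀ y, g (A y) = A (g y) := by
    intro y
    have := hg 1 y
    rw [qop_A, qop_A, h1, map_one, inv_one, mul_one, one_mul, one_mul] at this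
    exact this
  have e2 : ∀ x, g (x * (A x)⁻¹) = g x * (A (g x))⁻¹ := by
    intro x
    have := hg x 1
    rw [qop_A, qop_A, h1, map_one, mul_one, mul_one] at this
    exact this
  refine ⟨fun u v => ?_, e1⟩
  obtain ⟨y, rfl⟩ := (bij_A A hA0).2 v
  obtain ⟨x, hx⟩ := (bij_aux A (MonoidHom.id M) hA1).2 u⁻¹
  simp only [MonoidHom.id_apply] at hx
  have hu : u = x * (A x)⁻¹ := by
    rw [← inv_inv u, ← hx, mul_inv_rev, inv_inv, mul_comm]
  have := hg x y
  rw [qop_A, qop_A] at this
  rw [hu, this, e1, e2]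

lemma qop_left {G : Type u} [Group G] (f : G → G) (m x y : G) :
    qop f (m * x) (m * y) = m * qop f x y := by
  simp [qop, mul_assoc]

lemma isK_A (A : M →* M) (hA0 : ∀ m, A m = 1 → m = 1) (hA1 : ∀ m, A m = m → m = 1)
    (hA2 : ∀ m, A m = m ^ 2 → m = 1) {σ : Equiv.Perm M} (hσ : IsK (A : M → M) σ) (x : M) :
    σ x = x := by
  obtain ⟨hσ1, hσ2⟩ := hσ
  set b := σ 1 with hb
  set g : M → M := fun x => b⁻¹ * σ x with hg
  have hσg : ∀ x, σ x = b * g x := fun x => by simp [hg]
  have hg1 : g 1 = 1 := by simp [hg, hb]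
  have hgaut : ∀ x y, g (qop (A : M → M) x y) = qop (A : M → M) (g x) (g y) := by
    intro x y
    have h1 : σ (qop (A : M → M) x y) = qop (A : M → M) (σ x) (σ y) := hσ1 x y
    simp only [hg, h1, qop_left]
  obtain ⟨gmul, gA⟩ := affine A hA0 hA1 hgaut hg1
  have key : ∀ x y, x * (A x)⁻¹ * A (b * g y) = b * g (b * g (x * (A x)⁻¹ * A y)) := by
    intro x y
    have := hσ2 x y
    rw [qop_A, qop_A, hσg y, hσg, hσg] at this
    exact this
  -- the value at `(1, 1)`
  have k1 : A b = b * g b := by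
    have := key 1 1
    simp only [map_one, inv_one, mul_one, one_mul, hg1] at this
    exact this
  have k2 : ∀ x y, x * (A x)⁻¹ * A (g y) = g (g (x * (A x)⁻¹ * A y)) := by
    intro x y
    have := key x y
    rw [map_mul, gmul b, ← mul_assoc b, ← k1] at this
    have h2 : A b * (x * (A x)⁻¹ * A (g y)) = A b * g (g (x * (A x)⁻¹ * A y)) := by
      rw [← this]
      rw [mul_left_comm]
    exact mul_left_cancel h2
  have k3 : ∀ u, g (g u) = u := by
    intro u
    obtain ⟨x, hx⟩ := (bij_aux A (MonoidHom.id M) hA1).2 u⁻¹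
    simp only [MonoidHom.id_apply] at hx
    have hu : u = x * (A x)⁻¹ := by
      rw [← inv_inv u, ← hx, mul_inv_rev, inv_inv, mul_comm]
    have := k2 x 1
    rw [hg1, map_one, mul_one] at this
    rw [hu, ← this]
  have k4 : ∀ y, g y = y := by
    intro y
    have := k2 1 y
    rw [map_one, inv_one, mul_one, one_mul, one_mul, k3] at this
    exact (bij_A A hA0).1 this
  have k5 : b = 1 := by
    apply hA2
    rw [k1, k4, pow_two]
  rw [hσg, k4, k5, one_mul]

end Comm

section Grp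

variable {M : Type u} [Group M] [Finite M] (hcm : ∀ x y : M, x * y = y * x)

include hcm

lemma orth_A' (A : M →* M) (hA0 : ∀ m, A m = 1 → m = 1) (hA1 : ∀ m, A m = m → m = 1) :
    IsOrth (A : M → M) := by
  let _ : CommGroup M := { (inferInstance : Group M) with mul_comm := hcm }
  exact orth_A A hA0 hA1

lemma homFree_A' (A : M →* M) (hA0 : ∀ m, A m = 1 → m = 1) (hA1 : ∀ m, A m = m → m = 1)
    (hA2 : ∀ m, A m = m ^ 2 → m = 1) : HomFree (A : M → M) := by
  let _ : CommGroup M := { (inferInstance : Group M) with mul_comm := hcm }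
  exact homFree_A A hA0 hA1 hA2

lemma affine' (A : M →* M) (hA0 : ∀ m, A m = 1 → m = 1) (hA1 : ∀ m, A m = m → m = 1)
    {g : M → M} (hg : ∀ x y, g (qop (A : M → M) x y) = qop (A : M → M) (g x) (g y))
    (h1 : g 1 = 1) : (∀ x y, g (x * y) = g x * g y) ∧ ∀ x, g (A x) = A (g x) := by
  let _ : CommGroup M := { (inferInstance : Group M) with mul_comm := hcm }
  exact affine A hA0 hA1 hg h1

lemma isK_A' (A : M →* M) (hA0 : ∀ m, A m = 1 → m = 1) (hA1 : ∀ m, A m = m → m = 1)
    (hA2 : ∀ m, A m = m ^ 2 → m = 1) {σ : Equiv.Perm M} (hσ : IsK (A : M → M) σ) (x : M) :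
    σ x = x := by
  let _ : CommGroup M := { (inferInstance : Group M) with mul_comm := hcm }
  exact isK_A A hA0 hA1 hA2 hσ x

end Grp

section Main

variable {P : Type v} [Group P] [Finite P] {N M : Type u} [Group N] [Finite N] [Group M]
  [MulDistribMulAction P N] [MulDistribMulAction P M]

/-- the situation -/
structure Dt (z : P) (π : N →* M) (A : M →* M) (r s : M → N) (f : N → N) : Prop where
  hz : TwoCyc z
  hN : Odd (Nat.card N)
  he : ∀ (p : P) x, π (p • x) = p • π x
  zk : ∀ k ∈ π.ker, z • k = k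
  inv : ∀ m : M, z • m = m⁻¹
  comm : ∀ m m' : M, m * m' = m' * m
  hA0 : ∀ m, A m = 1 → m = 1
  hA1 : ∀ m, A m = m → m = 1
  hA2 : ∀ m, A m = m ^ 2 → m = 1
  ql : QLift π f A
  fe : Equi P f
  r1 : ∀ m, π (r m) = m
  r2 : ∀ m, z • r m = (r m)⁻¹
  r3 : ∀ x : N, z • x = x⁻¹ → x = r (π x)
  s1 : ∀ m, s m ∈ π.ker
  s2 : ∀ (p : P) m, s (p • m) = p • s m
  fr : ∀ m, f (r m) = r (A m) * s m

variable {z : P} {π : N →* M} {A : M →* M} {r s : M → N} {f : N → N}

lemma cen (D : Dt z π A r s f) {k : N} (hk : k ∈ π.ker) (x : N) : k * x = x * k :=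
  ((Subgroup.mem_center_iff.1 (D.ql.cent hk)) x).symm

lemma dec (D : Dt z π A r s f) (x : N) : ∃ k ∈ π.ker, x = k * r (π x) := by
  refine ⟨x * (r (π x))⁻¹, ?_, by simp⟩
  rw [MonoidHom.mem_ker, map_mul, map_inv, D.r1, mul_inv_cancel]

lemma finM (D : Dt z π A r s f) : Finite M := Finite.of_surjective π D.ql.surj

lemma f_one (D : Dt z π A r s f) : π (f 1) = 1 := by
  rw [D.ql.lift, map_one, map_one]

lemma pi_qop (D : Dt z π A r s f) (x y : N) :
    π (qop f x y) = qop (A : M → M) (π x) (π y) := by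
  unfold qop
  rw [map_mul, D.ql.lift, map_mul, map_inv]

lemma ker_KS (D : Dt z π A r s f) {k : N} (hk : k ∈ π.ker) : k ∈ KS f := by
  intro x y
  have h1 : x⁻¹ * k * x = k := by
    rw [mul_assoc, cen D hk x, inv_mul_cancel_left]
  have h2 : x⁻¹ * k ^ 2 * x = k ^ 2 := by
    rw [mul_assoc, cen D (π.ker.pow_mem hk 2) x, inv_mul_cancel_left]
  rw [h1, h2, D.ql.quad k hk]

lemma KS_ker (D : Dt z π A r s f) {n : N} (hn : n ∈ KS f) : n ∈ π.ker := by
  have h1 : ∀ y, f (n * y) = n ^ 2 * f y := by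
    intro y
    have := hn 1 y
    simpa using this
  have h2 := congrArg π (h1 1)
  rw [mul_one, map_mul, map_pow, D.ql.lift, f_one D, mul_one] at h2
  exact D.hA2 _ h2

/-- the permutations of type `IsK` are left translations by elements of the kernel -/
lemma isK_f (D : Dt z π A r s f) {σ : Equiv.Perm N} (hσ : IsK f σ) :
    ∃ k ∈ π.ker, ∀ x, σ x = k * x := by
  have hfin := finM D
  have hσk : ∀ k ∈ π.ker, ∀ x, σ (k * x) = k * σ x := by
    intro k hk x
    have h1 : IsK f (Equiv.mulLeft k) := (kk_left k).2 (ker_KS D hk)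
    have h2 := kk_comm D.hN D.ql.orth hσ h1
    have h3 := Equiv.congr_fun h2 x
    simpa using h3
  set g : M → M := fun m => π (σ (r m)) with hg
  have hgπ : ∀ x, π (σ x) = g (π x) := by
    intro x
    obtain ⟨k, hk, hx⟩ := dec D x
    conv_lhs => rw [hx, hσk k hk, map_mul, (MonoidHom.mem_ker.1 hk), one_mul]
  have hgs : Function.Surjective g := by
    intro m
    obtain ⟨x, rfl⟩ := D.ql.surj m
    exact ⟨π (σ.symm x), by rw [← hgπ, Equiv.apply_symm_apply]⟩
  have hgb : Function.Bijective g := (Finite.surjective_iff_bijective).1 hgs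
  have hK : IsK (A : M → M) (Equiv.ofBijective g hgb) := by
    constructor
    · intro x y
      obtain ⟨x, rfl⟩ := D.ql.surj x
      obtain ⟨y, rfl⟩ := D.ql.surj y
      simp only [Equiv.ofBijective_apply]
      rw [← pi_qop D, ← hgπ, ← hgπ, ← hgπ, ← pi_qop D]
      exact congrArg π (hσ.1 x y)
    · intro x y
      obtain ⟨x, rfl⟩ := D.ql.surj x
      obtain ⟨y, rfl⟩ := D.ql.surj y
      simp only [Equiv.ofBijective_apply]
      calc qop (A : M → M) (π x) (g (π y)) = qop (A : M → M) (π x) (π (σ y)) := by rw [hgπ]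
        _ = π (qop f x (σ y)) := (pi_qop D _ _).symm
        _ = π (σ (σ (qop f x y))) := congrArg π (hσ.2 x y)
        _ = g (g (π (qop f x y))) := by rw [hgπ, hgπ]
        _ = g (g (qop (A : M → M) (π x) (π y))) := by rw [pi_qop D]
  have h1 : ∀ x, π (σ x) = π x := by
    intro x
    rw [hgπ]
    exact isK_A' D.comm A D.hA0 D.hA1 D.hA2 hK (π x)
  exact uniq D.ql (homFree_A' D.comm A D.hA0 D.hA1 D.hA2) hσ.1 h1 hσk

lemma left_mem (f : N → N) (n : N) : Equiv.mulLeft n ∈ autGroup (qop f) := (leftT f n).2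

/-- an automorphism over the identity of `M` which commutes with the kernel is trivial -/
lemma triv (D : Dt z π A r s f) {γ : Equiv.Perm N} (hγ : γ ∈ autGroup (qop f)) (h0 : γ 1 = 1)
    (h1 : ∀ x, π (γ x) = π x) (h2 : ∀ k ∈ π.ker, ∀ x, γ (k * x) = k * γ x) (x : N) :
    γ x = x := by
  have hfin := finM D
  obtain ⟨k, hk, h3⟩ := uniq D.ql (homFree_A' D.comm A D.hA0 D.hA1 D.hA2) hγ h1 h2
  have h4 := h3 1
  rw [h0, mul_one] at h4
  rw [h3, ← h4, one_mul]

lemma facts (D : Dt z π A r s f) {α : Equiv.Perm N} (hα : α ∈ autGroup (qop f)) (h1 : α 1 = 1) :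
    (∀ k ∈ π.ker, α k ∈ π.ker) ∧ (∀ x y, α (x * y) = α x * α y) ∧
      ∃ c : M → M, (∀ x, π (α x) = c (π x)) ∧ (∀ m m', c (m * m') = c m * c m') ∧
        (∀ m, c (A m) = A (c m)) ∧ ∀ m, α (s m) = s (c m) := by
  have hfin := finM D
  have hmul : ∀ k ∈ π.ker, α k ∈ π.ker ∧ ∀ x, α (k * x) = α k * α x := by
    intro k hk
    have h2 : IsK f (α * Equiv.mulLeft k * α⁻¹) := kk_conj hα ((kk_left k).2 (ker_KS D hk))
    obtain ⟨k', hk', h3⟩ := isK_f D h2
    have h4 : ∀ x, α (k * x) = k' * α x := by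
      intro x
      have := h3 (α x)
      simpa using this
    have h5 : α k = k' := by
      have := h4 1
      rwa [mul_one, h1, mul_one] at this
    rw [h5]
    exact ⟨hk', h4⟩
  have hsk : ∀ k ∈ π.ker, ∃ k' ∈ π.ker, α k' = k := by
    have hinj : Function.Injective (fun k : π.ker => (⟨α k, (hmul k k.2).1⟩ : π.ker)) := by
      intro a b hab
      have := congrArg Subtype.val hab
      exact Subtype.ext (α.injective this)
    have hsurj := (Finite.injective_iff_surjective).1 hinj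
    intro k hk
    obtain ⟨k', hk'⟩ := hsurj ⟨k, hk⟩
    exact ⟨k', k'.2, congrArg Subtype.val hk'⟩
  set c : M → M := fun m => π (α (r m)) with hc
  have hcπ : ∀ x, π (α x) = c (π x) := by
    intro x
    obtain ⟨k, hk, hx⟩ := dec D x
    conv_lhs => rw [hx, (hmul k hk).2, map_mul, MonoidHom.mem_ker.1 (hmul k hk).1, one_mul]
  have hc1 : c 1 = 1 := by
    rw [← map_one π, ← hcπ, h1]
  have hcA : ∀ x y, c (qop (A : M → M) x y) = qop (A : M → M) (c x) (c y) := by
    intro x y
    obtain ⟨x, rfl⟩ := D.ql.surj x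
    obtain ⟨y, rfl⟩ := D.ql.surj y
    rw [← pi_qop D, ← hcπ, ← hcπ, ← hcπ, ← pi_qop D]
    exact congrArg π (hα x y)
  obtain ⟨cmul, cA⟩ := affine' D.comm A D.hA0 D.hA1 hcA hc1
  -- `α` is a homomorphism
  have amul : ∀ n x, α (n * x) = α n * α x := by
    intro n x
    have hγ : (Equiv.mulLeft (α n))⁻¹ * α * Equiv.mulLeft n * α⁻¹ ∈ autGroup (qop f) :=
      mul_mem (mul_mem (mul_mem (inv_mem (left_mem f _)) hα) (left_mem f _)) (inv_mem hα)
    have hval : ∀ y, ((Equiv.mulLeft (α n))⁻¹ * α * Equiv.mulLeft n * α⁻¹) (α y) =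
        (α n)⁻¹ * α (n * y) := by
      intro y
      simp
    have h3 := triv D hγ (by
      have := hval 1
      rw [h1, mul_one, inv_mul_cancel] at this
      exact this) (by
      intro y
      obtain ⟨y, rfl⟩ := α.surjective y
      rw [hval, map_mul, map_inv, hcπ, hcπ, hcπ, map_mul, cmul, inv_mul_cancel_left]) (by
      intro k hk y
      obtain ⟨y, rfl⟩ := α.surjective y
      obtain ⟨k', hk', rfl⟩ := hsk k hk
      rw [← (hmul k' hk').2, hval, hval, ← mul_assoc n, ← cen D hk' n, mul_assoc k',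
        (hmul k' hk').2, ← mul_assoc, ← cen D hk, mul_assoc]) (α x)
    rw [hval] at h3
    rw [← h3, mul_inv_cancel_left]
  have ainv : ∀ x, α x⁻¹ = (α x)⁻¹ := by
    intro x
    have := amul x x⁻¹
    rw [mul_inv_cancel, h1] at this
    exact (inv_eq_of_mul_eq_one_right this.symm).symm
  -- `α` commutes with `z`
  have az : ∀ x, α (z • x) = z • α x := by
    intro x
    set ζ : Equiv.Perm N := MulAction.toPerm z with hζd
    have hζa : ∀ x, ζ x = z • x := fun x => rfl
    have hζ : ζ ∈ autGroup (qop f) := by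
      intro x y
      simp only [hζa, qop]
      rw [smul_mul', ← D.fe, smul_mul', smul_inv']
    have hzz : ∀ x : N, z • z • x = x := fun x => by rw [smul_smul, D.hz.sq, one_smul]
    have hγ : ζ * α * ζ * α⁻¹ ∈ autGroup (qop f) :=
      mul_mem (mul_mem (mul_mem hζ hα) hζ) (inv_mem hα)
    have hval : ∀ y, (ζ * α * ζ * α⁻¹) (α y) = z • α (z • y) := by
      intro y
      simp [hζa]
    have h3 := triv D hγ (by
      have := hval 1
      rw [smul_one, h1, smul_one] at this
      exact this) (by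
      intro y
      obtain ⟨y, rfl⟩ := α.surjective y
      rw [hval, D.he, hcπ, D.he, hcπ, D.inv, D.inv]
      have : c (π y)⁻¹ = (c (π y))⁻¹ := by
        have := cmul (π y) (π y)⁻¹
        rw [mul_inv_cancel, hc1] at this
        exact (inv_eq_of_mul_eq_one_right this.symm).symm
      rw [this, inv_inv]) (by
      intro k hk y
      obtain ⟨y, rfl⟩ := α.surjective y
      obtain ⟨k', hk', rfl⟩ := hsk k hk
      rw [← (hmul k' hk').2, hval, hval, smul_mul', D.zk k' hk', (hmul k' hk').2, smul_mul',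
        D.zk _ hk]) (α x)
    rw [hval] at h3
    rw [← h3, hzz]
  have ar : ∀ m, α (r m) = r (c m) := by
    intro m
    have h3 : z • α (r m) = (α (r m))⁻¹ := by
      rw [← az, D.r2, ainv]
    have := D.r3 _ h3
    rw [this, hcπ, D.r1]
  refine ⟨fun k hk => (hmul k hk).1, amul, c, hcπ, cmul, cA, fun m => ?_⟩
  have h3 : α (f (r m)) = f (α (r m)) := by
    have := hα 1 (r m)
    rw [h1] at this
    simpa [qop] using this
  rw [ar, D.fr, D.fr, amul, ar, cA] at h3
  exact mul_left_cancel h3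


/-- rigidity -/
lemma rig (D : Dt z π A r s f) (hmin : PMin P π.ker) {a : M} {v : N} (hv : v ≠ 1)
    (hsa : s a = v) (hs0 : ∀ m, (∀ p : P, m ≠ p • a) → s m = 1)
    (hgen : ∀ H : Subgroup M, a ∈ H → (∀ x ∈ H, A x ∈ H) → H = ⊤) : Rig P f := by
  intro α hα h1
  have hfin := finM D
  obtain ⟨-, -, c0, c0π, -, -, c0s⟩ := facts D hα h1
  -- `c a` is in the orbit of `a`
  obtain ⟨p, hp⟩ : ∃ p : P, c0 a = p • a := by
    by_contra hcon
    push Not at hcon
    have h2 := hs0 _ hcon
    rw [← c0s, hsa] at h2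
    exact hv (α.injective (h2.trans h1.symm))
  refine ⟨p, ?_⟩
  set ζ : Equiv.Perm N := MulAction.toPerm p⁻¹ with hζd
  have hζa : ∀ x, ζ x = p⁻¹ • x := fun x => rfl
  have hζ : ζ ∈ autGroup (qop f) := by
    intro x y
    simp only [hζa, qop]
    rw [smul_mul', ← D.fe, smul_mul', smul_inv']
  have hβ : ζ * α ∈ autGroup (qop f) := mul_mem hζ hα
  have hβa : ∀ x, (ζ * α) x = p⁻¹ • α x := fun x => rfl
  have hβ1 : (ζ * α) 1 = 1 := by rw [hβa, h1, smul_one]
  obtain ⟨bker, bmul, c, cπ, cmul, cA, cs⟩ := facts D hβ hβ1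
  have hc1 : c 1 = 1 := by
    rw [← map_one π, ← cπ, hβ1]
  have hca : c a = a := by
    obtain ⟨x0, hx0⟩ := D.ql.surj a
    rw [← hx0, ← cπ, hβa, D.he, c0π, hx0, hp, smul_smul, inv_mul_cancel, one_smul]
  -- `c` is the identity
  have hcid : ∀ m, c m = m := by
    let H : Subgroup M :=
      { carrier := {m | c m = m}
        one_mem' := hc1
        mul_mem' := by
          intro x y hx hy
          change c (x * y) = x * y
          rw [cmul, hx, hy]
        inv_mem' := by
          intro x hx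
          change c x⁻¹ = x⁻¹
          have := cmul x x⁻¹
          rw [mul_inv_cancel, hc1, hx] at this
          exact (inv_eq_of_mul_eq_one_right this.symm).symm }
    have hH : H = ⊤ := hgen H hca (by
      intro x hx
      change c (A x) = A x
      rw [cA, hx])
    intro m
    have : m ∈ H := hH ▸ Subgroup.mem_top m
    exact this
  -- the identity on the kernel
  have hker : ∀ k ∈ π.ker, (ζ * α) k = k := by
    let H : Subgroup N :=
      { carrier := {k | k ∈ π.ker ∧ ∀ q : P, (ζ * α) (q • k) = q • k}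
        one_mem' := ⟨one_mem _, fun q => by rw [smul_one, hβ1]⟩
        mul_mem' := by
          intro x y hx hy
          refine ⟨mul_mem hx.1 hy.1, fun q => ?_⟩
          rw [smul_mul', bmul, hx.2, hy.2]
        inv_mem' := by
          intro x hx
          refine ⟨inv_mem hx.1, fun q => ?_⟩
          have := bmul (q • x) (q • x)⁻¹
          rw [mul_inv_cancel, hβ1, hx.2] at this
          rw [smul_inv']
          exact (inv_eq_of_mul_eq_one_right this.symm).symm }
    have hle : H ≤ π.ker := fun x hx => hx.1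
    have hinv : PInv P H := by
      intro q x hx
      refine ⟨hmin.2.1 q x hx.1, fun q' => ?_⟩
      rw [smul_smul]
      exact hx.2 _
    have hvH : v ∈ H := by
      refine ⟨hsa ▸ D.s1 a, fun q => ?_⟩
      rw [← hsa, ← D.s2, cs, hcid]
    rcases hmin.2.2 H hinv hle with h2 | h2
    · rw [h2] at hvH
      exact absurd (Subgroup.mem_bot.1 hvH) hv
    · intro k hk
      rw [← h2] at hk
      have := hk.2 1
      rwa [one_smul] at this
  have h3 := triv D hβ hβ1 (fun x => by rw [cπ, hcid]) (fun k hk x => by rw [bmul, hker k hk])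
  intro x
  have := h3 x
  rw [hβa] at this
  rw [← this, smul_smul, mul_inv_cancel, one_smul, this]


lemma r_inv (D : Dt z π A r s f) (m : M) : r m⁻¹ = (r m)⁻¹ := by
  have h1 := D.r3 (r m)⁻¹ (by rw [smul_inv', D.r2])
  rw [map_inv, D.r1] at h1
  exact h1.symm

lemma r_one (D : Dt z π A r s f) : r 1 = 1 := by
  have h1 := D.r3 1 (by rw [smul_one, inv_one])
  rw [map_one] at h1
  exact h1.symm

lemma homFree_f (D : Dt z π A r s f) (hmin : PMin P π.ker) {a : M} {v : N} (hv : v ≠ 1)
    (hsa : s a = v) : HomFree f := by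
  intro q hq h hh x
  have hfin := finM D
  rcases eq_or_ne q 2 with rfl | hq2
  · exact isHom_two D.ql.orth h hh x
  have hq' : Fact q.Prime := ⟨hq⟩
  have two_ne : (2 : ZMod q) ≠ 0 := by
    intro h2
    have h3 : ((2 : ℕ) : ZMod q) = 0 := by exact_mod_cast h2
    rw [ZMod.natCast_eq_zero_iff] at h3
    exact hq2 ((Nat.prime_dvd_prime_iff_eq hq Nat.prime_two).1 h3)
  have hAfree := homFree_A' D.comm A D.hA0 D.hA1 D.hA2
  obtain ⟨η, ηmul, hη, ηf⟩ := lemmaA D.ql hq (hAfree q hq) h hh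
  have η1 : η 1 = 0 := by
    have := ηmul 1 1
    rw [mul_one] at this
    exact left_eq_add.1 this
  have ηinv : ∀ x, η x⁻¹ = - η x := by
    intro x
    have := ηmul x x⁻¹
    rw [mul_inv_cancel, η1] at this
    exact (neg_eq_of_add_eq_zero_right this.symm).symm
  have ηs : ∀ m, η (s m) = 0 := by
    intro m
    have e1 := ηf (r m)
    have e2 := ηf (r m⁻¹)
    have e3 : s m⁻¹ = s m := by
      rw [← D.inv m, D.s2, D.zk _ (D.s1 m)]
    rw [D.fr, ηmul] at e1 e2
    rw [e3, map_inv, r_inv D, r_inv D, ηinv, ηinv] at e2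
    have e4 : 2 * η (s m) = 0 := by linear_combination e1 + e2
    exact (mul_eq_zero.1 e4).resolve_left two_ne
  have ηker : ∀ k ∈ π.ker, η k = 0 := by
    let H : Subgroup N :=
      { carrier := {k | k ∈ π.ker ∧ ∀ q : P, η (q • k) = 0}
        one_mem' := ⟨one_mem _, fun q => by rw [smul_one, η1]⟩
        mul_mem' := by
          intro x y hx hy
          refine ⟨mul_mem hx.1 hy.1, fun q => ?_⟩
          rw [smul_mul', ηmul, hx.2, hy.2, add_zero]
        inv_mem' := by
          intro x hx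
          refine ⟨inv_mem hx.1, fun q => ?_⟩
          rw [smul_inv', ηinv, hx.2, neg_zero] }
    have hle : H ≤ π.ker := fun x hx => hx.1
    have hinv : PInv P H := by
      intro q x hx
      refine ⟨hmin.2.1 q x hx.1, fun q' => ?_⟩
      rw [smul_smul]
      exact hx.2 _
    have hvH : v ∈ H := by
      refine ⟨hsa ▸ D.s1 a, fun q => ?_⟩
      rw [← hsa, ← D.s2, ηs]
    rcases hmin.2.2 H hinv hle with h2 | h2
    · rw [h2] at hvH
      exact absurd (Subgroup.mem_bot.1 hvH) hv
    · intro k hk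
      rw [← h2] at hk
      have := hk.2 1
      rwa [one_smul] at this
  have ηπ : ∀ x, η x = η (r (π x)) := by
    intro x
    obtain ⟨k, hk, hx⟩ := dec D x
    conv_lhs => rw [hx, ηmul, ηker k hk, zero_add]
  have hhom : IsHom (A : M → M) (fun m => η (r m)) := by
    intro x y
    obtain ⟨x, rfl⟩ := D.ql.surj x
    obtain ⟨y, rfl⟩ := D.ql.surj y
    simp only
    rw [← pi_qop D, ← ηπ, ← ηπ, ← ηπ]
    have e1 := hh x y
    rw [hη (qop f x y), hη x, hη y, two_nsmul] at e1
    rw [two_nsmul]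
    linear_combination e1
  have h3 : η (r (π x)) = η (r 1) := hAfree q hq _ hhom (π x)
  rw [r_one D, η1] at h3
  rw [hη x, ηπ, h3, add_zero]

end Main

lemma sq_root {N : Type u} [Group N] (hN : Odd (Nat.card N)) : ∃ j : ℕ, ∀ w : N,
    (w ^ j) ^ 2 = w := by
  obtain ⟨i, hi⟩ := hN
  refine ⟨i + 1, fun w => ?_⟩
  have h1 : (i + 1) * 2 = Nat.card N + 1 := by omega
  rw [← pow_mul, h1, pow_succ, pow_card_eq_one', one_mul]

lemma eq_one_of_sq {N : Type u} [Group N] (hN : Odd (Nat.card N)) {w : N} (hw : w ^ 2 = 1) :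
    w = 1 := by
  obtain ⟨j, hj⟩ := sq_root hN
  rw [← hj w, ← pow_mul, mul_comm, pow_mul, hw, one_pow]

end Bsgen

section
variable {P : Type v} [Group P] [Finite P] {N M : Type u} [Group N] [Finite N] [Group M]
  [MulDistribMulAction P N] [MulDistribMulAction P M]

/-- The central extension step for linear `f'`. -/
theorem bsgen {z : P} (hz : TwoCyc z) (hN : Odd (Nat.card N)) (π : N →* M)
    (hs : Function.Surjective π) (he : ∀ (p : P) x, π (p • x) = p • π x)
    (hc : π.ker ≤ Subgroup.center N) (hmin : PMin P π.ker)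
    (hfix : ∀ x : N, z • x = x ↔ x ∈ π.ker) (A : M →* M)
    (hAe : ∀ (p : P) m, A (p • m) = p • A m) (hA0 : ∀ m, A m = 1 → m = 1)
    (hA1 : ∀ m, A m = m → m = 1) (hA2 : ∀ m, A m = m ^ 2 → m = 1) (a : M) (ha : a ≠ 1)
    (hgen : ∀ H : Subgroup M, a ∈ H → (∀ x ∈ H, A x ∈ H) → H = ⊤) : WGood P N := by
  have hfin : Finite M := Finite.of_surjective π hs
  have hM : Odd (Nat.card M) := by
    obtain ⟨c, hc'⟩ := Subgroup.card_dvd_of_surjective π hs
    rw [hc'] at hN
    exact (Nat.odd_mul.1 hN).1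
  have zk : ∀ k ∈ π.ker, z • k = k := fun k hk => (hfix k).2 hk
  have hinv : ∀ m : M, z • m = m⁻¹ := by
    intro m
    apply inv_of_fix hz.sq
    intro m hm
    obtain ⟨x, hx1, hx2⟩ := fix_lift hz.sq hN π hs (he z) hm
    rw [← hx1]
    exact (hfix x).1 hx2
  have hcomm : ∀ m m' : M, m * m' = m' * m := comm_of_inv hinv
  have hcen : ∀ k ∈ π.ker, ∀ x, k * x = x * k := fun k hk x =>
    ((Subgroup.mem_center_iff.1 (hc hk)) x).symm
  -- the section
  have hex : ∀ m : M, ∃ x : N, π x = m ∧ z • x = x⁻¹ := by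
    intro m
    obtain ⟨x0, hx0⟩ := hs m
    obtain ⟨j, hj⟩ := Bsgen.sq_root hN
    have hw : (z • x0) * x0 ∈ π.ker := by
      rw [MonoidHom.mem_ker, map_mul, he, hx0, hinv, inv_mul_cancel]
    set w := (z • x0) * x0 with hwd
    have hk : (w⁻¹) ^ j ∈ π.ker := pow_mem (inv_mem hw) j
    have hk2 := hj w⁻¹
    set k := (w⁻¹) ^ j with hkd
    refine ⟨x0 * k, ?_, ?_⟩
    · rw [map_mul, MonoidHom.mem_ker.1 hk, mul_one, hx0]
    · rw [smul_mul', zk k hk]
      apply eq_inv_of_mul_eq_one_left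
      calc (z • x0) * k * (x0 * k) = (z • x0) * (k * x0) * k := by simp only [mul_assoc]
        _ = (z • x0) * (x0 * k) * k := by rw [hcen k hk x0]
        _ = w * k ^ 2 := by rw [hwd, pow_two]; simp only [mul_assoc]
        _ = 1 := by rw [hk2, mul_inv_cancel]
  choose r hr1 hr2 using hex
  have hr3 : ∀ x : N, z • x = x⁻¹ → x = r (π x) := by
    intro x hx
    have hk : (r (π x))⁻¹ * x ∈ π.ker := by
      rw [MonoidHom.mem_ker, map_mul, map_inv, hr1, inv_mul_cancel]
    set k := (r (π x))⁻¹ * x with hkd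
    have hxk : x = r (π x) * k := by rw [hkd, mul_inv_cancel_left]
    have h1 : z • x = (r (π x))⁻¹ * k := by
      conv_lhs => rw [hxk]
      rw [smul_mul', hr2, zk k hk]
    have h2 : x⁻¹ = (r (π x))⁻¹ * k⁻¹ := by
      conv_lhs => rw [hxk]
      rw [mul_inv_rev, hcen _ (inv_mem hk)]
    rw [h1, h2] at hx
    have h3 : k ^ 2 = 1 := by
      rw [pow_two]
      exact mul_eq_one_iff_eq_inv.2 (mul_left_cancel hx)
    have h4 := Bsgen.eq_one_of_sq hN h3
    rw [h4, mul_one] at hxk
    exact hxk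
  have hrp : ∀ (p : P) m, r (p • m) = p • r m := by
    intro p m
    have h1 := hr3 (p • r m) (by
      rw [smul_smul, hz.comm z p, ← smul_smul, hr2, smul_inv'])
    rw [he, hr1] at h1
    exact h1.symm
  have hr0 : r 1 = 1 := by
    have h1 := hr3 1 (by rw [smul_one, inv_one])
    rw [map_one] at h1
    exact h1.symm
  obtain ⟨f0, hl0, he0, h10⟩ := exists_qlift hz.pgroup hN π hs he hc
    (Bsgen.orth_A' hcomm A hA0 hA1) (fun p m => hAe p m) (map_one A)
  -- the perturbation
  obtain ⟨⟨v, hvk⟩, hv'⟩ := (Subgroup.ne_bot_iff_exists_ne_one.1 hmin.1)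
  have hv : v ≠ 1 := fun h => hv' (Subtype.ext h)
  have hza : z • a ≠ a := by
    intro h
    rw [hinv] at h
    apply ha
    apply Bsgen.eq_one_of_sq hM
    rw [pow_two]
    exact mul_eq_one_iff_eq_inv.2 h.symm
  obtain ⟨s, hs1, hs2, hs3, hs4, hs5⟩ := exists_delta (P := P) π a ha
    (fun p hp => hz.regular hza hp) (fun p k hk => hmin.2.1 p k hk) v hvk
  obtain ⟨t, ht⟩ : ∃ t : M → N, ∀ m, t m = (r (A m))⁻¹ * f0 (r m) := ⟨_, fun _ => rfl⟩
  have ht1 : ∀ m, t m ∈ π.ker := by
    intro m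
    rw [MonoidHom.mem_ker, ht, map_mul, map_inv, hr1, hl0.lift, hr1, inv_mul_cancel]
  have ht2 : ∀ (p : P) m, t (p • m) = p • t m := by
    intro p m
    rw [ht, ht, hAe, hrp, hrp, he0, smul_mul', smul_inv']
  have hs'1 : ∀ m, (t m)⁻¹ * s m ∈ π.ker := fun m => mul_mem (inv_mem (ht1 m)) (hs1 m)
  have hl := qlift_mul hl0 (fun m => (t m)⁻¹ * s m) hs'1
  set f : N → N := fun x => f0 x * ((t (π x))⁻¹ * s (π x)) with hf
  have hfe : Equi P f := by
    intro p x
    simp only [hf]
    rw [he0, he, ht2, hs2, smul_mul', smul_mul', smul_inv']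
  have hfr : ∀ m, f (r m) = r (A m) * s m := by
    intro m
    simp only [hf]
    rw [hr1, ht, mul_inv_rev, inv_inv, ← mul_assoc, ← mul_assoc, mul_inv_cancel, one_mul]
  have hf1 : f 1 = 1 := by
    have h1 := hfr 1
    rw [hr0, map_one, hr0, hs3, one_mul] at h1
    exact h1
  have D : Bsgen.Dt z π A r s f :=
    ⟨hz, hN, he, zk, hinv, hcomm, hA0, hA1, hA2, hl, hfe, hr1, hr2, hr3, hs1, hs2, hfr⟩
  refine ⟨f, hl.orth, hfe, hf1, Bsgen.rig D hmin hv hs4 hs5 hgen,
    Bsgen.homFree_f D hmin hv hs4, π.ker, hc, fun n hn => Bsgen.KS_ker D hn, ?_⟩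
  intro k hk hk1 H hH hkH
  have h1 : PInv P (H ⊓ π.ker) := fun p x hx => ⟨hH p x hx.1, hmin.2.1 p x hx.2⟩
  rcases hmin.2.2 (H ⊓ π.ker) h1 inf_le_right with h2 | h2
  · exfalso
    have h3 : k ∈ H ⊓ π.ker := ⟨hkH, hk⟩
    rw [h2] at h3
    exact hk1 (Subgroup.mem_bot.1 h3)
  · rw [← h2]
    exact inf_le_left

end

end Pool.Agent.Lib_MP_8306f4_co.CaseB
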