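import Pool.Agent.Lib_MP_8306f4_co.CaseB.Defs

/-!
# A certificate checker for models
-/

universe u v w

namespace Pool.Agent.Lib_MP_8306f4_co.CaseB.Cert

open Pool.Agent.Lib_MP_8306f4_co
open Pool.Agent.Lib_MP_8306f4_co.CaseB

/-- table lookup -/
def tb (T i : ℕ) : ℕ := T / 256 ^ i % 256

section
variable {V : Type u} [AddCommGroup V]

/-- right multiplication by `0` -/
def rt (F : V → V) (x : V) : V := x + F (0 - x)

/-- `p`, `q`, `ρ` show that `0` and `b` generate: every other `x` is the product of `p x` and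
`q x`, which have smaller rank. -/
def Gen (F : V → V) (b : V) (p q : V → V) (ρ : V → ℕ) : Prop :=
  ∀ x, x = 0 ∨ x = b ∨ (p x + F (q x - p x) = x ∧ ρ (p x) < ρ x ∧ ρ (q x) < ρ x)

instance (F : V → V) (b : V) (p q : V → V) (ρ : V → ℕ) [Fintype V] [DecidableEq V] :
    Decidable (Gen F b p q ρ) := by
  unfold Gen
  infer_instance

lemma Gen.all {F : V → V} {b : V} {p q : V → V} {ρ : V → ℕ} (h : Gen F b p q ρ) {S : V → Prop}
    (h0 : S 0) (hb : S b) (hop : ∀ x y, S x → S y → S (x + F (y - x))) (x : V) : S x := by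
  have key : ∀ n, ∀ x, ρ x ≤ n → S x := by
    intro n
    induction n with
    | zero =>
      intro x hx
      rcases h x with rfl | rfl | ⟨_, h2, _⟩
      · exact h0
      · exact hb
      · omega
    | succ n ih =>
      intro x hx
      rcases h x with rfl | rfl | ⟨h1, h2, h3⟩
      · exact h0
      · exact hb
      · rw [← h1]
        exact hop _ _ (ih _ (by omega)) (ih _ (by omega))
  exact key _ x le_rfl

/-- words in `F` (true) and `rt F` (false) -/
def word (F : V → V) : List Bool → V → V
  | [], x => x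
  | true :: t, x => word F t (F x)
  | false :: t, x => word F t (rt F x)

lemma word_comm {F : V → V} {α : V → V} (h0 : α 0 = 0)
    (hα : ∀ x y, α (x + F (y - x)) = α x + F (α y - α x)) (l : List Bool) :
    ∀ x, α (word F l x) = word F l (α x) := by
  induction l with
  | nil => intro x; rfl
  | cons b t ih =>
    intro x
    cases b
    · change α (word F t (rt F x)) = word F t (rt F (α x))
      rw [ih]
      congr 1
      change α (x + F (0 - x)) = α x + F (0 - α x)
      rw [hα, h0]
    · change α (word F t (F x)) = word F t (F (α x))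
      rw [ih]
      congr 1
      have := hα 0 x
      simpa [h0] using this

lemma const_two {F : V → V} (hb : Function.Surjective F) (h : V → ZMod 2)
    (hh : ∀ x y, h (x + F (y - x)) = 2 * h y - h x) (x : V) : h x = h 0 := by
  have h2 : ∀ x w, h w = h x := by
    intro x w
    obtain ⟨u, hu⟩ := hb (w - x)
    have := hh x (x + u)
    rw [add_sub_cancel_left, hu, add_sub_cancel] at this
    rw [this]
    have h3 : (2 : ZMod 2) = 0 := rfl
    rw [h3, zero_mul, zero_sub]
    exact ZMod.neg_eq_self_mod_two _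
  exact h2 0 x

/-- The certificate, with the condition on homomorphisms left open. -/
theorem amodel_of_cert' [Finite V] {R F G H : V → V} {a : V} {p q : V → V} {ρ : V → ℕ}
    {wd : List Bool} (hR : ∀ x y, R (x + y) = R x + R y)
    (hG : ∀ x, F (G x) = x) (hH : ∀ x, F (H x) - H x = x)
    (hFR : ∀ x, F (R x) = R (F x)) (hF0 : F 0 = 0)
    (ha : word F wd a = a) (ha0 : a ≠ 0) (n : ℕ)
    (hw : ∀ x, x ≠ 0 → word F wd x = x → ∃ k < n, x = R^[k] a)
    (hl : Gen F a p q ρ)
    (hom : ∀ r : ℕ, r.Prime → r ≠ 2 → ∀ h : V → ZMod r,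
      (∀ x y, h (x + F (y - x)) = 2 * h y - h x) → ∀ x, h x = h 0)
    (hk : ∀ m, m ≠ 0 → F m ≠ m + m) : AModel R F := by
  have hR0 : R 0 = 0 := by
    have := hR 0 0
    rw [add_zero] at this
    exact left_eq_add.1 this
  have hRs : ∀ x y, R (x - y) = R x - R y := by
    intro x y
    have := hR (x - y) y
    rw [sub_add_cancel] at this
    rw [this, add_sub_cancel_right]
  have hb1 : Function.Bijective F := Finite.surjective_iff_bijective.1 (fun x => ⟨G x, hG x⟩)
  have hb2 : Function.Bijective (fun x => F x - x) :=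
    Finite.surjective_iff_bijective.1 (fun x => ⟨H x, hH x⟩)
  refine ⟨hb1, hb2, hFR, hF0, ?_, ?_, ?_⟩
  · intro α hα h0
    have h1 : word F wd (α a) = α a := by
      rw [← word_comm h0 hα, ha]
    have h2 : α a ≠ 0 := by
      intro h
      exact ha0 (α.injective (h.trans h0.symm))
    obtain ⟨j, _, hj⟩ := hw _ h2 h1
    refine ⟨j, ?_⟩
    have hRj : ∀ j x y, R^[j] (x + F (y - x)) = R^[j] x + F (R^[j] y - R^[j] x) := by
      intro j
      induction j with
      | zero => intro x y; rfl
      | succ j ih =>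
        intro x y
        rw [Function.iterate_succ_apply', ih, hR, ← hFR, hRs, Function.iterate_succ_apply',
          Function.iterate_succ_apply']
    have hRj0 : R^[j] 0 = 0 := Function.iterate_fixed hR0 j
    intro x
    refine hl.all (S := fun x => α x = R^[j] x) (h0.trans hRj0.symm) hj ?_ x
    intro x y hx hy
    change α (x + F (y - x)) = R^[j] (x + F (y - x))
    rw [hα, hRj, hx, hy]
  · intro r hr h hh
    by_cases h2 : r = 2
    · subst h2
      exact const_two hb1.2 h hh
    · exact hom r hr h2 h hh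
  · intro m hm
    by_contra hm0
    have := hm 0
    rw [add_zero, hF0, add_zero, two_nsmul] at this
    exact hk m hm0 this

lemma two_ne {r : ℕ} (hr : r.Prime) (h2 : r ≠ 2) : (2 : ZMod r) ≠ 0 := by
  intro h3
  have h4 : ((2 : ℕ) : ZMod r) = 0 := by exact_mod_cast h3
  rw [ZMod.natCast_eq_zero_iff] at h4
  have h5 := Nat.le_of_dvd (by norm_num) h4
  have h6 := hr.two_le
  exact h2 (le_antisymm h5 h6)

lemma hom_of_gen {F : V → V} {b : V} {p q : V → V} {ρ : V → ℕ} (hl : Gen F b p q ρ) {r : ℕ}
    {h : V → ZMod r} (hh : ∀ x y, h (x + F (y - x)) = 2 * h y - h x) (hb : h b = h 0) (x : V) :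
    h x = h 0 := by
  refine hl.all (S := fun x => h x = h 0) rfl hb ?_ x
  intro x y hx hy
  change h (x + F (y - x)) = h 0
  rw [hh, hx, hy]
  ring

/-- an odd cycle of right multiplication by `0` -/
lemma hom_of_rt {F : V → V} {b : V} {p q : V → V} {ρ : V → ℕ} {k : ℕ} (hl : Gen F b p q ρ)
    (hb : (rt F)^[2 * k + 1] b = b) (r : ℕ) (hr : r.Prime) (hr2 : r ≠ 2) (h : V → ZMod r)
    (hh : ∀ x y, h (x + F (y - x)) = 2 * h y - h x) (x : V) : h x = h 0 := by
  apply hom_of_gen hl hh
  have hrt : ∀ j x, h ((rt F)^[j] x) - h 0 = (-1) ^ j * (h x - h 0) := by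
    intro j
    induction j with
    | zero => intro x; simp
    | succ j ih =>
      intro x
      rw [Function.iterate_succ_apply']
      have := hh ((rt F)^[j] x) 0
      change h (rt F ((rt F)^[j] x)) = _ at this
      rw [this, pow_succ]
      have h4 := ih x
      linear_combination -h4
  have h1 := hrt (2 * k + 1) b
  rw [hb, pow_succ, pow_mul] at h1
  have h2 : (2 : ZMod r) * (h b - h 0) = 0 := by
    have : ((-1 : ZMod r) ^ 2) ^ k = 1 := by simp
    rw [this] at h1
    linear_combination h1
  have : Fact r.Prime := ⟨hr⟩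
  rcases mul_eq_zero.1 h2 with h3 | h3
  · exact absurd h3 (two_ne hr hr2)
  · exact sub_eq_zero.1 h3

/-- a cycle of `F` -/
lemma hom_of_F {F : V → V} {b : V} {k : ℕ} (hb : F^[k] b = b) (r : ℕ) (h : V → ZMod r)
    (hh : ∀ x y, h (x + F (y - x)) = 2 * h y - h x) :
    (2 ^ k - 1 : ZMod r) * (h b - h 0) = 0 := by
  have hF : ∀ j x, h (F^[j] x) - h 0 = 2 ^ j * (h x - h 0) := by
    intro j
    induction j with
    | zero => intro x; simp
    | succ j ih =>
      intro x
      rw [Function.iterate_succ_apply']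
      have := hh 0 (F^[j] x)
      rw [zero_add, sub_zero] at this
      rw [this, pow_succ]
      have h4 := ih x
      linear_combination 2 * h4
  have h1 := hF k b
  rw [hb] at h1
  linear_combination -h1

theorem amodel_of_cert [Finite V] {R F G H : V → V} {a b : V} {p q p' q' : V → V}
    {ρ ρ' : V → ℕ} {wd : List Bool} {k : ℕ} (hR : ∀ x y, R (x + y) = R x + R y)
    (hG : ∀ x, F (G x) = x) (hH : ∀ x, F (H x) - H x = x)
    (hFR : ∀ x, F (R x) = R (F x)) (hF0 : F 0 = 0)
    (ha : word F wd a = a) (ha0 : a ≠ 0) (n : ℕ)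
    (hw : ∀ x, x ≠ 0 → word F wd x = x → ∃ k < n, x = R^[k] a)
    (hl : Gen F a p q ρ) (hb : (rt F)^[2 * k + 1] b = b) (hl' : Gen F b p' q' ρ')
    (hk : ∀ m, m ≠ 0 → F m ≠ m + m) : AModel R F :=
  amodel_of_cert' hR hG hH hFR hF0 ha ha0 n hw hl (hom_of_rt hl' hb) hk

end

end Pool.Agent.Lib_MP_8306f4_co.CaseB.Cert
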