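import Pool.Agent.Lib_MP_8306f4_co.Regular

/-!
# Quasigroups with a given transitive automorphism group: definitions

`N` is a finite group of odd order, `P` a group acting on it by automorphisms (a cyclic 2-group in
the applications).  To a `P`-equivariant orthomorphism `f` of `N` belongs the quasigroup
`x · y = x f(x⁻¹ y)` on `N`, with the automorphisms `x ↦ n (p • x)`.
-/

universe u v w

namespace Pool.Agent.Lib_MP_8306f4_co.CaseB

open Pool.Agent.Lib_MP_8306f4_co

/-- `f` commutes with the action of `P`. -/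
def Equi (P : Type v) {N : Type u} [Group P] [Group N] [MulDistribMulAction P N]
    (f : N → N) : Prop :=
  ∀ (p : P) (x : N), f (p • x) = p • f x

/-- The automorphisms of `(N, qop f)` which fix `1` are given by elements of `P`. -/
def Rig (P : Type v) {N : Type u} [Group P] [Group N] [MulDistribMulAction P N]
    (f : N → N) : Prop :=
  ∀ α : Equiv.Perm N, α ∈ autGroup (qop f) → α 1 = 1 → ∃ p : P, ∀ x, α x = p • x

/-- `h` is a homomorphism from `(N, qop f)` to the core `a ∘ b = 2b - a` of the abelian group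
`A`. -/
def IsHom {N : Type u} [Group N] (f : N → N) {A : Type w} [AddCommGroup A] (h : N → A) : Prop :=
  ∀ x y, h (qop f x y) = 2 • h y - h x

/-- All homomorphisms from `(N, qop f)` to cores of groups of prime order are constant. -/
def HomFree {N : Type u} [Group N] (f : N → N) : Prop :=
  ∀ r : ℕ, r.Prime → ∀ h : N → ZMod r, IsHom f h → ∀ x, h x = h 1

/-- The set `K(f)`. -/
def KS {N : Type u} [Group N] (f : N → N) : Set N :=
  {m | ∀ x y, f (x⁻¹ * m * x * y) = x⁻¹ * m ^ 2 * x * f y}

/-- The automorphisms `σ` with `x · σ(y) = σ²(x · y)`; for `σ` a left translation by `m` this says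
that `m ∈ KS f`. -/
def IsK {N : Type u} [Group N] (f : N → N) (σ : Equiv.Perm N) : Prop :=
  σ ∈ autGroup (qop f) ∧ ∀ x y, qop f x (σ y) = σ (σ (qop f x y))

/-- `H` is `P`-invariant. -/
def PInv (P : Type v) {N : Type u} [Group P] [Group N] [MulDistribMulAction P N]
    (H : Subgroup N) : Prop :=
  ∀ (p : P) (x : N), x ∈ H → p • x ∈ H

/-- `K` is a minimal nontrivial `P`-invariant subgroup. -/
def PMin (P : Type v) {N : Type u} [Group P] [Group N] [MulDistribMulAction P N]
    (K : Subgroup N) : Prop :=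
  K ≠ ⊥ ∧ PInv P K ∧ ∀ H : Subgroup N, PInv P H → H ≤ K → H = ⊥ ∨ H = K

/-- The main property of orthomorphisms used in the induction. -/
structure WGoodF (P : Type v) {N : Type u} [Group P] [Group N] [MulDistribMulAction P N]
    (f : N → N) : Prop where
  orth : IsOrth f
  equi : Equi P f
  one : f 1 = 1
  rig : Rig P f
  hom : HomFree f
  ker : ∃ K : Subgroup N, K ≤ Subgroup.center N ∧ KS f ⊆ K ∧
    ∀ k ∈ K, k ≠ 1 → ∀ H : Subgroup N, PInv P H → k ∈ H → K ≤ H

/-- There is a good orthomorphism. -/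
def WGood (P : Type v) (N : Type u) [Group P] [Group N] [MulDistribMulAction P N] : Prop :=
  ∃ f : N → N, WGoodF P f

/-- There is an orthomorphism `f` such that the automorphism group of `(N, qop f)` is `N P`. -/
def RepGood (P : Type v) (N : Type u) [Group P] [Group N] [MulDistribMulAction P N] : Prop :=
  ∃ f : N → N, IsOrth f ∧ Equi P f ∧ Rig P f

lemma WGood.repGood {P : Type v} {N : Type u} [Group P] [Group N] [MulDistribMulAction P N]
    (h : WGood P N) : RepGood P N := by
  obtain ⟨f, hf⟩ := h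
  exact ⟨f, hf.orth, hf.equi, hf.rig⟩

/-- `P` is a nontrivial cyclic 2-group with involution `z`. -/
structure TwoCyc {P : Type v} [Group P] (z : P) : Prop where
  fin : Finite P
  pgroup : IsPGroup 2 P
  cyclic : IsCyclic P
  ne_one : z ≠ 1
  sq : z * z = 1

/-- the elements fixed by `z` -/
def fixS {P : Type v} {N : Type u} [Group P] [Group N] [MulDistribMulAction P N] (z : P) :
    Subgroup N where
  carrier := {x | z • x = x}
  one_mem' := smul_one z
  mul_mem' := by
    intro a b ha hb
    change z • (a * b) = a * b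
    rw [smul_mul', ha, hb]
  inv_mem' := by
    intro a ha
    change z • a⁻¹ = a⁻¹
    rw [smul_inv', ha]

@[simp] lemma mem_fixS {P : Type v} {N : Type u} [Group P] [Group N] [MulDistribMulAction P N]
    {z : P} {x : N} : x ∈ (fixS z : Subgroup N) ↔ z • x = x := Iff.rfl

/-- The exceptions to the existence of good orthomorphisms on nilpotent groups. -/
def Exc {P : Type v} (N : Type u) [Group P] [Group N] [MulDistribMulAction P N] (z : P) : Prop :=
  (Nat.card P = 2 ∧ Nat.card N = 3 * Nat.card (fixS z : Subgroup N)) ∨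
  (Nat.card P = 2 ∧ (∀ x : N, z • x = x⁻¹) ∧ (Nat.card N = 5 ∨ Nat.card N = 7)) ∨
  (Nat.card P = 2 ∧ (∀ x : N, z • x = x⁻¹) ∧ Nat.card N = 9 ∧ ∀ x : N, x ^ 3 = 1) ∨
  (Nat.card P = 4 ∧ (∀ x : N, z • x = x⁻¹) ∧ Nat.card N = 9)

/-- `f : N → N` is a lift of `f' : M → M` along `π : N → M` with central kernel `K`, and
`f (k x) = k² f(x)` for `k` in `K`. -/
structure QLift {N : Type u} {M : Type w} [Group N] [Group M] (π : N →* M) (f : N → N)
    (f' : M → M) : Prop where
  surj : Function.Surjective π
  cent : π.ker ≤ Subgroup.center N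
  lift : ∀ x, π (f x) = f' (π x)
  quad : ∀ k ∈ π.ker, ∀ x, f (k * x) = k ^ 2 * f x
  orth : IsOrth f
  orth' : IsOrth f'

/-- The set of `E` such that `φ (E y) = W φ(y)` for some `W` contains no nontrivial normal
subgroup. -/
def TN {L : Type u} [Group L] (φ : L → L) : Prop :=
  ∀ H : Subgroup L, H.Normal → (∀ E ∈ H, ∃ W, ∀ y, φ (E * y) = W * φ y) → H = ⊥

/-- `1 → L → N → T → 1` is an exact sequence of groups with `P`-action, `C_N(L) ≤ L`, and `P`
acts faithfully on `L`. -/
structure Ext (P : Type v) [Group P] {L N T : Type u} [Group L] [Group N]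
    [Group T] [MulDistribMulAction P L] [MulDistribMulAction P N] [MulDistribMulAction P T]
    (ι : L →* N) (π : N →* T) : Prop where
  inj : Function.Injective ι
  surj : Function.Surjective π
  exact : ∀ x, π x = 1 ↔ ∃ l, ι l = x
  equi : ∀ (p : P) l, ι (p • l) = p • ι l
  equi' : ∀ (p : P) x, π (p • x) = p • π x
  cent : ∀ n, (∀ l, n * ι l = ι l * n) → π n = 1
  faith : ∀ p : P, (∀ l : L, p • l = l) → p = 1

/-- `f` is glued from `φ₁` on `L` and `φ₂` on the other cosets, over `g : T → T`; `r` is an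
equivariant section. -/
structure Glued (P : Type v) [Group P] {L N T : Type u} [Group L] [Group N]
    [Group T] [MulDistribMulAction P L] [MulDistribMulAction P N] [MulDistribMulAction P T]
    (ι : L →* N) (π : N →* T) (g : T → T) (φ₁ φ₂ : L → L) (r : T → N) (f : N → N) : Prop where
  sec : ∀ t, π (r t) = t
  sec_equi : ∀ (p : P) t, r (p • t) = p • r t
  sec_one : r 1 = 1
  on_L : ∀ l, f (ι l) = ι (φ₁ l)
  off_L : ∀ t, t ≠ 1 → ∀ l, f (r t * ι l) = r t * ι (φ₂ l) * r (t⁻¹ * g t)
  orth : IsOrth f
  equi : Equi P f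
  one : f 1 = 1
  proj : ∀ x, π (f x) = g (π x)
  gorth : IsOrth g
  gone : g 1 = 1
  orth₁ : IsOrth φ₁
  orth₂ : IsOrth φ₂

/-- A model for a good orthomorphism: `R` is the action of a generator of `P`. -/
structure Model {V : Type u} [Group V] (R F : V → V) : Prop where
  orth : IsOrth F
  comm : ∀ x, F (R x) = R (F x)
  one : F 1 = 1
  rig : ∀ α : Equiv.Perm V, α ∈ autGroup (qop F) → α 1 = 1 → ∃ k : ℕ, ∀ x, α x = R^[k] x
  hom : HomFree F
  ker : ∀ m ∈ KS F, m = 1

/-- The additive version. -/
structure AModel {V : Type u} [AddCommGroup V] (R F : V → V) : Prop where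
  bij : Function.Bijective F
  bij' : Function.Bijective (fun x => F x - x)
  comm : ∀ x, F (R x) = R (F x)
  zero : F 0 = 0
  rig : ∀ α : Equiv.Perm V, (∀ x y, α (x + F (y - x)) = α x + F (α y - α x)) → α 0 = 0 →
    ∃ k : ℕ, ∀ x, α x = R^[k] x
  hom : ∀ r : ℕ, r.Prime → ∀ h : V → ZMod r, (∀ x y, h (x + F (y - x)) = 2 * h y - h x) →
    ∀ x, h x = h 0
  ker : ∀ m, (∀ y, F (m + y) = 2 • m + F y) → m = 0

end Pool.Agent.Lib_MP_8306f4_co.CaseB
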