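import Pool.Agent.Lib_MP_8306f4_co.CaseB.Defs
import Pool.Agent.Lib_MP_8306f4_co.CaseB.GBasics
import Pool.Agent.Lib_MP_8306f4_co.CaseB.GInv

/-!
# MP_8306f4_co, case B, piece RExc

Notation. x·y = qop f x y = x f(x⁻¹y) on N; lambda_m: y -> m y is always an automorphism of it
(f commutes with nothing needed). 1·y = f(y). If Equi P f, then y -> p•y is an automorphism.
core(A): a∘b = 2b-a. For every x: y -> x·y is bijective (f bijective), for every y: x -> x·y is
bijective (x⁻¹f(x) bijective). '2 is invertible': all groups N have odd order.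

## R6 (RExc.lean): not_rep_of_exc: for each P-equivariant
orthomorphism f (also f(1)≠1) some group automorphism t of N, not in P, commutes with f (checked by computer: 3, 5, 33, 9, 13
orthomorphisms).
-/

universe u v w

namespace Pool.Agent.Lib_MP_8306f4_co.CaseB

open Pool.Agent.Lib_MP_8306f4_co

namespace RExc

/-- No good orthomorphism in the model. -/
def Bad {V : Type} [AddCommGroup V] (R : V → V) : Prop :=
  ∀ f : V → V, Function.Injective f → Function.Injective (fun x => f x - x) →
    (∀ x, f (R x) = R (f x)) →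
    ∃ t : V → V, Function.Bijective t ∧ (∀ x y, t (x + y) = t x + t y) ∧
      (∀ x, f (t x) = t (f x)) ∧ ∀ k : ℕ, ∃ x, t x ≠ R^[k] x

section

variable {V : Type} [AddCommGroup V] [DecidableEq V]

/-- the relations between the values `a`, `b` at `x`, `y` -/
def ok (R : V → V) (x a y b : V) : Bool :=
  (decide (y = x) == decide (b = a)) && (decide (y = x) == decide (b - y = a - x)) &&
  (decide (y = R x) == decide (b = R a)) && (decide (y = R x) == decide (b - y = R (a - x))) &&
  (decide (y = R (R x)) == decide (b = R (R a))) &&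
  (decide (y = R (R x)) == decide (b - y = R (R (a - x)))) &&
  (decide (y = R (R (R x))) == decide (b = R (R (R a)))) &&
  (decide (y = R (R (R x))) == decide (b - y = R (R (R (a - x)))))

theorem ok_of {R f : V → V} (hsub : ∀ x y, R (x - y) = R x - R y) (hf : Function.Injective f)
    (hg : Function.Injective (fun x => f x - x)) (hR : ∀ x, f (R x) = R (f x)) (x y : V) :
    ok R x (f x) y (f y) = true := by
  have h1 : ∀ y x : V, (y = x) ↔ (f y = f x) := fun y x => hf.eq_iff.symm
  have h2 : ∀ y x : V, (y = x) ↔ (f y - y = f x - x) := fun y x => (hg.eq_iff (a := y) (b := x)).symm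
  have h3 : ∀ x, R (f x - x) = f (R x) - R x := fun x => by rw [hsub, hR]
  unfold ok
  simp only [h3, ← hR, ← h1, ← h2]
  simp

/-- the value at `x` of the function with values `b` at `y`, `(y, b)` in the list -/
def ev (R : V → V) : List (V × V) → V → V
  | [], x => x
  | (y, b) :: l, x =>
    if x = y then b else if x = R y then R b else if x = R (R y) then R (R b) else
    if x = R (R (R y)) then R (R (R b)) else ev R l x

/-- depth first search -/
def search (R : V → V) (TT : List (V → V)) (A : List V) : List V → List (V × V) → Bool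
  | [], l => TT.any fun t => A.all fun x => decide (ev R l (t x) = t (ev R l x))
  | y :: ys, l => A.all fun b =>
      !(ok R y b y b && l.all fun p => ok R p.1 p.2 y b) || search R TT A ys ((y, b) :: l)

theorem search_sound {R f : V → V} {TT : List (V → V)} {A : List V} (hA : ∀ x, x ∈ A)
    (hok : ∀ x y, ok R x (f x) y (f y) = true) :
    ∀ (ys : List V) (l : List V),
      search R TT A ys (l.map fun y => (y, f y)) = true →
      ∃ t ∈ TT, ∀ x, ev R ((ys.reverse ++ l).map fun y => (y, f y)) (t x) =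
        t (ev R ((ys.reverse ++ l).map fun y => (y, f y)) x) := by
  intro ys
  induction ys with
  | nil =>
    intro l h
    simp only [search, List.any_eq_true, List.all_eq_true, decide_eq_true_eq] at h
    obtain ⟨t, ht, h⟩ := h
    exact ⟨t, ht, fun x => h x (hA x)⟩
  | cons y ys ih =>
    intro l h
    rw [search, List.all_eq_true] at h
    have h1 := h (f y) (hA _)
    have h2 : (ok R y (f y) y (f y) && (l.map fun y => (y, f y)).all
        fun p => ok R p.1 p.2 y (f y)) = true := by
      rw [Bool.and_eq_true, List.all_eq_true]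
      refine ⟨hok _ _, ?_⟩
      intro p hp
      obtain ⟨x, _, rfl⟩ := List.mem_map.1 hp
      exact hok _ _
    rw [h2] at h1
    simp only [Bool.not_true, Bool.false_or] at h1
    have h3 := ih (y :: l) (by simpa using h1)
    simpa using h3

omit [AddCommGroup V] in
theorem ev_eq {R f : V → V} (hR : ∀ x, f (R x) = R (f x)) (x : V) : ∀ l : List V,
    (∃ y ∈ l, x = y ∨ x = R y ∨ x = R (R y) ∨ x = R (R (R y))) →
      ev R (l.map fun y => (y, f y)) x = f x := by
  intro l
  induction l with
  | nil =>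
    rintro ⟨y, hy, _⟩
    simp at hy
  | cons y l ih =>
    intro h
    rw [List.map_cons, ev]
    split_ifs with h1 h2 h3 h4
    · rw [h1]
    · rw [h2, hR]
    · rw [h3, hR, hR]
    · rw [h4, hR, hR, hR]
    · apply ih
      obtain ⟨z, hz, h⟩ := h
      rcases List.mem_cons.1 hz with rfl | hz
      · tauto
      · exact ⟨z, hz, h⟩

theorem bad_of [Finite V] (R : V → V) (hsub : ∀ x y, R (x - y) = R x - R y)
    (hR4 : ∀ x, R^[4] x = x) (TT : List (V → V))
    (hadd : ∀ t ∈ TT, ∀ x y, t (x + y) = t x + t y) (hinj : ∀ t ∈ TT, ∀ x, t x = 0 → x = 0)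
    (hne : ∀ t ∈ TT, ∀ i < 4, ∃ x, t x ≠ R^[i] x) (A : List V) (hA : ∀ x, x ∈ A) (ys : List V)
    (hys : ∀ x, ∃ y ∈ ys.reverse ++ [], x = y ∨ x = R y ∨ x = R (R y) ∨ x = R (R (R y)))
    (hs : search R TT A ys [] = true) : Bad R := by
  intro f hf hg hR
  obtain ⟨t, ht, h⟩ := search_sound hA (ok_of hsub hf hg hR) ys [] (by simpa using hs)
  refine ⟨t, ?_, hadd t ht, ?_, ?_⟩
  · apply Finite.injective_iff_bijective.1
    intro x y hxy
    have h1 : t (x - y) + t y = t x := by rw [← hadd t ht, sub_add_cancel]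
    rw [hxy] at h1
    have h2 := hinj t ht (x - y) (by simpa using h1)
    exact sub_eq_zero.1 h2
  · intro x
    have h1 := h x
    rwa [ev_eq hR _ _ (hys _), ev_eq hR _ _ (hys _)] at h1
  · intro k
    obtain ⟨x, hx⟩ := hne t ht (k % 4) (Nat.mod_lt _ (by norm_num))
    refine ⟨x, ?_⟩
    have : R^[k % 4] x = R^[k] x := Function.IsPeriodicPt.iterate_mod_apply (hR4 x) k
    rwa [← this]

end

theorem bad5 : Bad (V := ZMod 5) (fun x => -x) := by
  refine bad_of _ (fun x y => by ring) (fun x => by simp) [fun x => 2 * x] ?_ ?_ ?_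
    [0, 1, 2, 3, 4] (by decide) [0, 1, 2] (by decide) (by decide +kernel)
  · intro t ht x y
    rw [List.mem_singleton] at ht
    subst ht
    ring
  · intro t ht
    rw [List.mem_singleton] at ht
    subst ht
    decide +kernel
  · intro t ht
    rw [List.mem_singleton] at ht
    subst ht
    decide +kernel

theorem bad7 : Bad (V := ZMod 7) (fun x => -x) := by
  refine bad_of _ (fun x y => by ring) (fun x => by simp) [fun x => 2 * x] ?_ ?_ ?_
    [0, 1, 2, 3, 4, 5, 6] (by decide) [0, 1, 2, 3] (by decide) (by decide +kernel)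
  · intro t ht x y
    rw [List.mem_singleton] at ht
    subst ht
    ring
  · intro t ht
    rw [List.mem_singleton] at ht
    subst ht
    decide +kernel
  · intro t ht
    rw [List.mem_singleton] at ht
    subst ht
    decide +kernel

abbrev V3 := ZMod 3 × ZMod 3

/-- linear map with images `u`, `v` of the basis vectors -/
def lin (t : V3 × V3) (p : V3) : V3 :=
  (p.1 * t.1.1 + p.2 * t.2.1, p.1 * t.1.2 + p.2 * t.2.2)

theorem lin_add (t : V3 × V3) (x y : V3) : lin t (x + y) = lin t x + lin t y := by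
  unfold lin
  ext
  · simp only [Prod.fst_add, Prod.snd_add]; ring
  · simp only [Prod.fst_add, Prod.snd_add]; ring

def A9 : List V3 := [(0, 0), (0, 1), (0, 2), (1, 0), (1, 1), (1, 2), (2, 0), (2, 1), (2, 2)]

theorem bad9a : Bad (V := V3) (fun x => (-x.1, x.2)) := by
  refine bad_of _ (fun x y => by ext <;> simp <;> ring) (fun x => by simp)
    [lin ((1, 1), (0, 1))] ?_ ?_ ?_
    A9 (by decide) [(0, 0), (0, 1), (0, 2), (1, 0), (1, 1), (1, 2)] (by decide)
    (by decide +kernel)
  · intro t ht x y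
    rw [List.mem_singleton] at ht
    subst ht
    exact lin_add _ _ _
  · intro t ht
    rw [List.mem_singleton] at ht
    subst ht
    decide +kernel
  · intro t ht
    rw [List.mem_singleton] at ht
    subst ht
    decide +kernel

theorem bad9b : Bad (V := V3) (fun x => (-x.2, x.1)) := by
  refine bad_of _ (fun x y => by ext <;> simp <;> ring) (fun x => by simp)
    [lin ((1, 1), (1, 2)), lin ((1, 1), (2, 1))] ?_ ?_ ?_
    A9 (by decide) [(0, 0), (1, 0), (1, 1)] (by decide)
    (by decide +kernel)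
  · intro t ht x y
    simp only [List.mem_cons, List.not_mem_nil, or_false] at ht
    rcases ht with rfl | rfl <;> exact lin_add _ _ _
  · intro t ht
    simp only [List.mem_cons, List.not_mem_nil, or_false] at ht
    rcases ht with rfl | rfl <;> decide +kernel
  · intro t ht
    simp only [List.mem_cons, List.not_mem_nil, or_false] at ht
    rcases ht with rfl | rfl <;> decide +kernel

theorem bad9c : Bad (V := V3) (fun x => -x) := by
  refine bad_of _ (fun x y => by ext <;> simp <;> ring) (fun x => by simp)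
    [lin ((0, 1), (2, 0)), lin ((0, 1), (1, 1)), lin ((0, 1), (1, 2)), lin ((0, 1), (2, 1)),
      lin ((0, 1), (2, 2)), lin ((1, 0), (1, 1)), lin ((1, 1), (0, 1))] ?_ ?_ ?_
    A9 (by decide) [(0, 0), (1, 0), (0, 1), (1, 1), (1, 2)] (by decide)
    (by decide +kernel)
  · intro t ht x y
    simp only [List.mem_cons, List.not_mem_nil, or_false] at ht
    rcases ht with rfl | rfl | rfl | rfl | rfl | rfl | rfl <;> exact lin_add _ _ _
  · intro t ht
    simp only [List.mem_cons, List.not_mem_nil, or_false] at ht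
    rcases ht with rfl | rfl | rfl | rfl | rfl | rfl | rfl <;> decide +kernel
  · intro t ht
    simp only [List.mem_cons, List.not_mem_nil, or_false] at ht
    rcases ht with rfl | rfl | rfl | rfl | rfl | rfl | rfl <;> decide +kernel

/-- transfer from the model to the group -/
theorem not_rep_of_bad {P : Type v} [Group P] (ρ : P) (hρ : ∀ p : P, ∃ k : ℕ, p = ρ ^ k)
    {N : Type u} [Group N] [MulDistribMulAction P N] {V : Type} [AddCommGroup V] (e : N ≃ V)
    (hmul : ∀ x y, e (x * y) = e x + e y) {R : V → V} (he : ∀ x, e (ρ • x) = R (e x))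
    (h : Bad R) : ¬ RepGood P N := by
  rintro ⟨f, hf, hequi, hrig⟩
  have hone : e 1 = 0 := by
    have := hmul 1 1
    simpa using this
  have hinv : ∀ x, e x⁻¹ = - e x := by
    intro x
    have := hmul x⁻¹ x
    rw [inv_mul_cancel, hone] at this
    exact eq_neg_of_add_eq_zero_left this.symm
  have hsymm : ∀ v w, e.symm (v + w) = e.symm v * e.symm w := by
    intro v w
    apply e.injective
    rw [hmul]
    simp
  obtain ⟨t, htb, htadd, htc, htn⟩ := h (fun v => e (f (e.symm v)))
    (e.injective.comp (hf.1.injective.comp e.symm.injective)) (by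
      have h1 : (fun v => e (f (e.symm v)) - v) = e ∘ (fun x => x⁻¹ * f x) ∘ e.symm := by
        funext v
        simp [hmul, hinv]
        abel
      rw [h1]
      exact e.injective.comp (hf.2.injective.comp e.symm.injective)) (by
      intro v
      have h2 : e.symm (R v) = ρ • e.symm v := by
        apply e.injective
        rw [he]
        simp
      rw [h2, hequi, he])
  have hα : ∀ x y : N, e.symm (t (e (x * y))) = e.symm (t (e x)) * e.symm (t (e y)) := by
    intro x y
    rw [hmul, htadd, hsymm]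
  let α : Equiv.Perm N := Equiv.ofBijective (fun x => e.symm (t (e x)))
    (e.symm.bijective.comp (htb.comp e.bijective))
  have hαm : ∀ x y, α (x * y) = α x * α y := hα
  have hα1 : α 1 = 1 := by
    have := hαm 1 1
    simpa using this
  have hαi : ∀ x, α x⁻¹ = (α x)⁻¹ := by
    intro x
    have := hαm x⁻¹ x
    rw [inv_mul_cancel, hα1] at this
    exact eq_inv_of_mul_eq_one_left this.symm
  have hαf : ∀ x, α (f x) = f (α x) := by
    intro x
    have h3 := htc (e x)
    apply e.injective
    change e (e.symm (t (e (f x)))) = e (f (e.symm (t (e x))))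
    simp only [Equiv.symm_apply_apply, Equiv.apply_symm_apply] at h3 ⊢
    exact h3.symm
  obtain ⟨p, hp⟩ := hrig α (by
    intro x y
    simp only [qop]
    rw [hαm, hαf, hαm, hαi]) hα1
  obtain ⟨k, rfl⟩ := hρ p
  obtain ⟨v, hv⟩ := htn k
  apply hv
  have h4 : ∀ (k : ℕ) (x : N), e (ρ ^ k • x) = R^[k] (e x) := by
    intro k
    induction k with
    | zero => intro x; simp
    | succ k ih =>
      intro x
      rw [pow_succ, mul_smul, ih, he, Function.iterate_succ_apply]
  have h5 := hp (e.symm v)
  have h6 := congrArg e h5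
  rw [h4] at h6
  change e (e.symm (t (e (e.symm v)))) = _ at h6
  simpa using h6

theorem pow_val_add {N : Type u} [Group N] {a : N} (ha : a ^ 3 = 1) :
    ∀ i j : ZMod 3, a ^ (i + j).val = a ^ i.val * a ^ j.val := by
  intro i j
  rw [ZMod.val_add, ← pow_add]
  conv_rhs => rw [← Nat.div_add_mod (i.val + j.val) 3, pow_add, pow_mul, ha, one_pow, one_mul]

/-- recognition of the elementary abelian group of order 9 -/
theorem exists_equiv {N : Type u} [Group N] (hN : Nat.card N = 9) {a b : N} (ha : a ^ 3 = 1)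
    (hb : b ^ 3 = 1) (hab : a * b = b * a) (ha1 : a ≠ 1) (hb1 : b ≠ 1) (hba : b ≠ a)
    (hba2 : b ≠ a ^ 2) : ∃ e : N ≃ V3, (∀ x y, e (x * y) = e x + e y) ∧ e a = (1, 0) ∧
      e b = (0, 1) ∧ ∀ x, ∃ i j : ℕ, x = a ^ i * b ^ j := by
  have hc : Commute a b := hab
  have : Finite N := Nat.finite_of_card_ne_zero (by omega)
  let φ : V3 → N := fun p => a ^ p.1.val * b ^ p.2.val
  have hφ : ∀ p q, φ (p + q) = φ p * φ q := by
    intro p q
    change a ^ (p.1 + q.1).val * b ^ (p.2 + q.2).val =
      (a ^ p.1.val * b ^ p.2.val) * (a ^ q.1.val * b ^ q.2.val)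
    rw [pow_val_add ha, pow_val_add hb]
    have h1 : b ^ p.2.val * a ^ q.1.val = a ^ q.1.val * b ^ p.2.val :=
      ((hc.pow_pow q.1.val p.2.val).eq).symm
    calc a ^ p.1.val * a ^ q.1.val * (b ^ p.2.val * b ^ q.2.val)
        = a ^ p.1.val * (a ^ q.1.val * b ^ p.2.val) * b ^ q.2.val := by simp only [mul_assoc]
      _ = a ^ p.1.val * (b ^ p.2.val * a ^ q.1.val) * b ^ q.2.val := by rw [h1]
      _ = _ := by simp only [mul_assoc]
  have hker : ∀ p, φ p = 1 → p = 0 := by
    have hai : a⁻¹ = a ^ 2 := by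
      rw [inv_eq_iff_mul_eq_one, ← pow_succ', ha]
    have hbi : b⁻¹ = b ^ 2 := by
      rw [inv_eq_iff_mul_eq_one, ← pow_succ', hb]
    have haa : a ^ 2 ≠ 1 := by
      intro h
      apply ha1
      rw [← hai] at h
      simpa using h
    have hbb : b ^ 2 ≠ 1 := by
      intro h
      apply hb1
      rw [← hbi] at h
      simpa using h
    rintro ⟨i, j⟩ h
    change a ^ i.val * b ^ j.val = 1 at h
    have h2 : b ^ j.val = (a ^ i.val)⁻¹ := eq_inv_of_mul_eq_one_right h
    have h1 : ∀ i : ZMod 3, i = 0 ∨ i = 1 ∨ i = 2 := by decide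
    have v0 : (0 : ZMod 3).val = 0 := rfl
    have v1 : (1 : ZMod 3).val = 1 := rfl
    have v2 : (2 : ZMod 3).val = 2 := rfl
    rcases h1 i with rfl | rfl | rfl <;> rcases h1 j with rfl | rfl | rfl <;>
      simp only [v0, v1, v2, pow_zero, pow_one, inv_one] at h2
    · rfl
    · exact absurd h2 hb1
    · exact absurd h2 hbb
    · exact absurd (inv_eq_one.1 h2.symm) ha1
    · exact absurd (h2.trans hai) hba2
    · rw [← hbi] at h2
      exact absurd (inv_injective h2) hba
    · exact absurd (inv_eq_one.1 h2.symm) haa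
    · rw [← hai, inv_inv] at h2
      exact absurd h2 hba
    · rw [← hbi] at h2
      exact absurd (inv_injective h2) hba2
  have hinj : Function.Injective φ := by
    intro p q hpq
    have h1 : φ (p - q) * φ q = φ p := by rw [← hφ, sub_add_cancel]
    rw [hpq] at h1
    exact sub_eq_zero.1 (hker _ (by simpa using h1))
  have hbij : Function.Bijective φ := by
    rw [Nat.bijective_iff_injective_and_card]
    refine ⟨hinj, ?_⟩
    rw [hN, Nat.card_prod, Nat.card_zmod]
  let E := Equiv.ofBijective φ hbij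
  have hE : ∀ p, E p = a ^ p.1.val * b ^ p.2.val := fun p => rfl
  refine ⟨E.symm, ?_, ?_, ?_, ?_⟩
  · intro x y
    apply E.injective
    change E (E.symm (x * y)) = φ (E.symm x + E.symm y)
    rw [hφ]
    change _ = E (E.symm x) * E (E.symm y)
    simp
  · rw [Equiv.symm_apply_eq, hE]
    change a = a ^ 1 * b ^ 0
    simp
  · rw [Equiv.symm_apply_eq, hE]
    change b = a ^ 0 * b ^ 1
    simp
  · intro x
    refine ⟨(E.symm x).1.val, (E.symm x).2.val, ?_⟩
    rw [← hE]
    simp

theorem map_pow_mul {N : Type u} [Group N] {V : Type} [AddCommGroup V] (e : N ≃ V)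
    (hmul : ∀ x y, e (x * y) = e x + e y) (a b : N) (i j : ℕ) :
    e (a ^ i * b ^ j) = i • e a + j • e b := by
  have hone : e 1 = 0 := by
    have := hmul 1 1
    simpa using this
  have hp : ∀ (c : N) (n : ℕ), e (c ^ n) = n • e c := by
    intro c n
    induction n with
    | zero => simpa using hone
    | succ n ih => rw [pow_succ, hmul, ih, succ_nsmul]
  rw [hmul, hp, hp]

/-- the action of `ρ` in coordinates -/
theorem smul_coord {P : Type v} [Group P] {N : Type u} [Group N] [MulDistribMulAction P N]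
    (ρ : P) {V : Type} [AddCommGroup V] (e : N ≃ V) (hmul : ∀ x y, e (x * y) = e x + e y)
    {a b : N} (hx : ∀ x, ∃ i j : ℕ, x = a ^ i * b ^ j) {R : V → V}
    (hR : ∀ x y, R (x + y) = R x + R y) (ha : e (ρ • a) = R (e a)) (hb : e (ρ • b) = R (e b))
    (x : N) : e (ρ • x) = R (e x) := by
  have hR0 : R 0 = 0 := by
    have := hR 0 0
    simpa using this
  have hRn : ∀ (n : ℕ) v, R (n • v) = n • R v := by
    intro n v
    induction n with
    | zero => simpa using hR0
    | succ n ih => rw [succ_nsmul, hR, ih, succ_nsmul]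
  obtain ⟨i, j, rfl⟩ := hx x
  rw [smul_mul', smul_pow', smul_pow', map_pow_mul e hmul, map_pow_mul e hmul, hR, hRn, hRn, ha,
    hb]

end RExc

/-- The exceptional pairs `(N, P)`. -/
def ExcR {P : Type v} [Group P] (N : Type u) [Group N] [MulDistribMulAction P N] (z : P) : Prop :=
  (Nat.card P = 2 ∧ (∀ x : N, z • x = x⁻¹) ∧ (Nat.card N = 5 ∨ Nat.card N = 7)) ∨
  (Nat.card P = 2 ∧ (∀ x : N, z • x = x⁻¹) ∧ Nat.card N = 9 ∧ ∀ x : N, x ^ 3 = 1) ∨
  (Nat.card P = 2 ∧ Nat.card N = 9 ∧ Nat.card (fixS z : Subgroup N) = 3) ∨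
  (Nat.card P = 4 ∧ (∀ x : N, z • x = x⁻¹) ∧ Nat.card N = 9)

namespace RExc

theorem two_powers {P : Type v} [Group P] {z : P} (hz : z ≠ 1) (h : Nat.card P = 2) (p : P) :
    ∃ k : ℕ, p = z ^ k := by
  obtain ⟨y, hy, hy2⟩ := (Nat.card_eq_two_iff' (1 : P)).1 h
  by_cases hp : p = 1
  · exact ⟨0, by simpa using hp⟩
  · refine ⟨1, ?_⟩
    rw [pow_one, hy2 p hp, hy2 z hz]

theorem comm_of_inv {P : Type v} [Group P] {z : P} {N : Type u} [Group N]
    [MulDistribMulAction P N] (h : ∀ x : N, z • x = x⁻¹) (x y : N) : x * y = y * x := by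
  have h1 := h (x⁻¹ * y⁻¹)
  rw [smul_mul', h, h] at h1
  simpa using h1

theorem prime_case {P : Type v} [Group P] {N : Type u} [Group N] [MulDistribMulAction P N]
    {z : P} (hz : z ≠ 1) (h2 : Nat.card P = 2) (hinv : ∀ x : N, z • x = x⁻¹) (n : ℕ)
    [hn : Fact n.Prime] (hN : Nat.card N = n) (hbad : Bad (V := ZMod n) (fun x => -x)) :
    ¬ RepGood P N := by
  have : IsCyclic N := isCyclic_of_prime_card hN
  subst hN
  let E := zmodCyclicMulEquiv (G := N) this
  refine not_rep_of_bad z (two_powers hz h2)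
    (E.symm.toEquiv.trans Multiplicative.toAdd) ?_ ?_ hbad
  · intro x y
    simp
  · intro x
    rw [hinv]
    simp

theorem exists_b {N : Type u} [Group N] (hN : Nat.card N = 9) (a : N) :
    ∃ b : N, b ≠ 1 ∧ b ≠ a ∧ b ≠ a ^ 2 := by
  by_contra hcon
  push Not at hcon
  have : Finite N := Nat.finite_of_card_ne_zero (by omega)
  have hs : Function.Surjective (fun i : Fin 3 => a ^ (i : ℕ)) := by
    intro x
    by_cases h1 : x = 1
    · exact ⟨0, by simp [h1]⟩
    · by_cases h2 : x = a
      · exact ⟨1, by simp [h2]⟩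
      · exact ⟨2, by simp [hcon x h1 h2]⟩
  have := Nat.card_le_card_of_surjective _ hs
  rw [hN, Nat.card_fin] at this
  omega

theorem case_a {P : Type v} [Group P] {N : Type u} [Group N] [MulDistribMulAction P N]
    {z : P} (hz : z ≠ 1) (h2 : Nat.card P = 2) (hinv : ∀ x : N, z • x = x⁻¹)
    (hN : Nat.card N = 9) (h3 : ∀ x : N, x ^ 3 = 1) : ¬ RepGood P N := by
  have : Finite N := Nat.finite_of_card_ne_zero (by omega)
  have : Nontrivial N := by
    rw [← Finite.one_lt_card_iff_nontrivial]
    omega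
  obtain ⟨a, ha⟩ := exists_ne (1 : N)
  obtain ⟨b, hb1, hba, hba2⟩ := exists_b hN a
  obtain ⟨e, he, ea, eb, hx⟩ := exists_equiv hN (h3 a) (h3 b) (comm_of_inv hinv a b) ha hb1 hba
    hba2
  refine not_rep_of_bad z (two_powers hz h2) e he ?_ bad9c
  refine smul_coord z e he hx (fun x y => neg_add x y) ?_ ?_
  · rw [hinv]
    have := he a⁻¹ a
    have h1 := he 1 1
    rw [inv_mul_cancel] at this
    rw [mul_one] at h1
    have h4 : e 1 = 0 := by simpa using h1
    rw [h4] at this
    exact eq_neg_of_add_eq_zero_left this.symm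
  · rw [hinv]
    have := he b⁻¹ b
    have h1 := he 1 1
    rw [inv_mul_cancel] at this
    rw [mul_one] at h1
    have h4 : e 1 = 0 := by simpa using h1
    rw [h4] at this
    exact eq_neg_of_add_eq_zero_left this.symm

theorem map_inv' {N : Type u} [Group N] {V : Type} [AddCommGroup V] (e : N ≃ V)
    (he : ∀ x y, e (x * y) = e x + e y) (a : N) : e a⁻¹ = - e a := by
  have h1 : e 1 = 0 := by
    have := he 1 1
    simpa using this
  have h2 := he a⁻¹ a
  rw [inv_mul_cancel, h1] at h2
  exact eq_neg_of_add_eq_zero_left h2.symm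

theorem case_b {P : Type v} [Group P] {N : Type u} [Group N] [MulDistribMulAction P N]
    {z : P} (hz : z ≠ 1) (hz2 : z * z = 1) (h2 : Nat.card P = 2) (hN : Nat.card N = 9)
    (h3 : Nat.card (fixS z : Subgroup N) = 3) : ¬ RepGood P N := by
  have : Finite N := Nat.finite_of_card_ne_zero (by omega)
  have hcomm : ∀ x y : N, x * y = y * x := by
    have : Fact (Nat.Prime 3) := ⟨by norm_num⟩
    have hN' : Nat.card N = 3 ^ 2 := hN
    have := IsPGroup.isMulCommutative_of_card_eq_prime_sq hN'
    exact fun x y => mul_comm' x y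
  have : Nontrivial (fixS z : Subgroup N) := by
    rw [← Finite.one_lt_card_iff_nontrivial]
    omega
  obtain ⟨⟨b, hbf⟩, hb⟩ := exists_ne (1 : (fixS z : Subgroup N))
  have hbz : z • b = b := hbf
  have hb1 : b ≠ 1 := by
    intro h
    exact hb (Subtype.ext h)
  have hb3 : b ^ 3 = 1 := by
    have := pow_card_eq_one' (x := (⟨b, hbf⟩ : (fixS z : Subgroup N)))
    rw [h3] at this
    exact congrArg Subtype.val this
  obtain ⟨x, hx⟩ : ∃ x : N, z • x ≠ x := by
    by_contra hcon
    push Not at hcon
    have : (fixS z : Subgroup N) = ⊤ := by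
      ext x
      simp [hcon x]
    rw [this, Subgroup.card_top] at h3
    omega
  set a := x⁻¹ * z • x with ha_def
  have ha1 : a ≠ 1 := by
    intro h
    apply hx
    rw [ha_def, inv_mul_eq_one] at h
    exact h.symm
  have haz : z • a = a⁻¹ := by
    rw [ha_def, smul_mul', smul_inv', ← mul_smul, hz2, one_smul]
    simp
  have ha3 : a ^ 3 = 1 := by
    by_contra hne
    have h9 : a ^ 9 = 1 := by
      have := pow_card_eq_one' (x := a)
      rwa [hN] at this
    have hord : orderOf a = 3 ^ 2 := by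
      have : Fact (Nat.Prime 3) := ⟨by norm_num⟩
      exact orderOf_eq_prime_pow (p := 3) (n := 1) (by simpa using hne) (by simpa using h9)
    have hmem : b ∈ Subgroup.zpowers a := by
      have : Subgroup.zpowers a = ⊤ := by
        apply Subgroup.eq_top_of_card_eq
        rw [Nat.card_zpowers, hord, hN]
        norm_num
      rw [this]
      trivial
    obtain ⟨k, hk⟩ := Subgroup.mem_zpowers_iff.1 hmem
    have h5 : z • b = b⁻¹ := by
      rw [← hk, smul_zpow', haz, inv_zpow]
    rw [hbz] at h5
    have h6 : b ^ 2 = 1 := by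
      rw [pow_two]
      nth_rewrite 1 [h5]
      simp
    apply hb1
    have : b = b ^ 3 * (b ^ 2)⁻¹ := by group
    rw [this, hb3, h6]
    simp
  have ha2 : a ^ 2 ≠ 1 := by
    intro h
    apply ha1
    have : a = a ^ 3 * (a ^ 2)⁻¹ := by group
    rw [this, ha3, h]
    simp
  have hfix : ∀ c : N, c = a ∨ c = a ^ 2 → z • c = c⁻¹ := by
    rintro c (rfl | rfl)
    · exact haz
    · rw [smul_pow', haz, inv_pow]
  have hbne : ∀ c : N, c = a ∨ c = a ^ 2 → b ≠ c := by
    intro c hc hbc
    have h5 := hfix c hc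
    rw [← hbc, hbz] at h5
    have h6 : b ^ 2 = 1 := by
      rw [pow_two]
      nth_rewrite 1 [h5]
      simp
    apply hb1
    have : b = b ^ 3 * (b ^ 2)⁻¹ := by group
    rw [this, hb3, h6]
    simp
  obtain ⟨e, he, ea, eb, hx⟩ := exists_equiv hN ha3 hb3 (hcomm a b) ha1 hb1
    (hbne a (Or.inl rfl)) (hbne _ (Or.inr rfl))
  refine not_rep_of_bad z (two_powers hz h2) e he ?_ bad9a
  refine smul_coord (R := fun x : V3 => (-x.1, x.2)) z e he hx (fun x y => ?_) ?_ ?_
  · ext
    · simp [add_comm]
    · simp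
  · rw [haz, map_inv' e he, ea]
    decide
  · rw [hbz, eb]
    decide

theorem case_c {P : Type v} [Group P] {N : Type u} [Group N] [MulDistribMulAction P N]
    {z : P} (hz : TwoCyc z) (h4 : Nat.card P = 4) (hinv : ∀ x : N, z • x = x⁻¹)
    (hN : Nat.card N = 9) : ¬ RepGood P N := by
  have : Finite N := Nat.finite_of_card_ne_zero (by omega)
  have : Finite P := hz.fin
  have := hz.cyclic
  obtain ⟨ρ, hρ⟩ := IsCyclic.exists_generator (α := P)
  have hpow : ∀ p : P, ∃ k : ℕ, p = ρ ^ k := by
    intro p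
    have := mem_powers_iff_mem_zpowers.2 (hρ p)
    obtain ⟨k, hk⟩ := this
    exact ⟨k, hk.symm⟩
  have hord : orderOf ρ = 4 := by
    rw [orderOf_eq_card_of_forall_mem_zpowers hρ, h4]
  have hzρ : z = ρ ^ 2 := by
    obtain ⟨k, hk⟩ := hpow z
    have h1 : ρ ^ (2 * k) = 1 := by
      rw [two_mul, pow_add, ← hk, hz.sq]
    have h2 := orderOf_dvd_of_pow_eq_one h1
    rw [hord] at h2
    have h3 : ¬ 4 ∣ k := by
      intro h
      apply hz.ne_one
      rw [hk]
      exact orderOf_dvd_iff_pow_eq_one.1 (by rwa [hord])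
    have h5 : k % 4 = 2 := by omega
    rw [hk, ← pow_mod_orderOf, hord, h5]
  have : Fact (Nat.Prime 3) := ⟨by norm_num⟩
  obtain ⟨a, ha⟩ := exists_prime_orderOf_dvd_card' (G := N) 3 (by rw [hN]; norm_num)
  have ha3 : a ^ 3 = 1 := by rw [← ha]; exact pow_orderOf_eq_one a
  have ha1 : a ≠ 1 := by
    intro h
    rw [h, orderOf_one] at ha
    omega
  have ha2 : a ^ 2 ≠ 1 := by
    intro h
    have := orderOf_dvd_of_pow_eq_one h
    rw [ha] at this
    omega
  have haz : ρ • (ρ • a) = a⁻¹ := by
    rw [← mul_smul, ← pow_two, ← hzρ, hinv]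
  have hai : a⁻¹ ≠ a := by
    intro h
    apply ha2
    rw [pow_two]
    nth_rewrite 1 [← h]
    simp
  have hb3 : (ρ • a) ^ 3 = 1 := by rw [← smul_pow', ha3, smul_one]
  have hb1 : ρ • a ≠ 1 := by
    intro h
    apply ha1
    have h1 := congrArg (fun x => ρ⁻¹ • x) h
    simpa using h1
  have hba : ρ • a ≠ a := by
    intro h
    rw [h, h] at haz
    exact hai haz.symm
  have hba2 : ρ • a ≠ a ^ 2 := by
    intro h
    rw [h, smul_pow', h, ← pow_mul] at haz
    apply hai
    rw [← haz]
    have : a ^ (2 * 2) = a ^ 3 * a := by rw [← pow_succ]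
    rw [this, ha3, one_mul]
  obtain ⟨e, he, ea, eb, hx⟩ := exists_equiv hN ha3 hb3 (comm_of_inv hinv a (ρ • a)) ha1 hb1
    hba hba2
  refine not_rep_of_bad ρ hpow e he ?_ bad9b
  refine smul_coord (R := fun x : V3 => (-x.2, x.1)) ρ e he hx (fun x y => ?_) ?_ ?_
  · ext
    · simp [add_comm]
    · simp
  · rw [ea, eb]
    simp
  · rw [haz, map_inv' e he, ea, eb]
    simp

end RExc

/-- The exceptional pairs have no good orthomorphism. -/
theorem not_rep_of_exc {P : Type v} [Group P] {N : Type u} [Group N] [MulDistribMulAction P N]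
    {z : P} (hz : TwoCyc z) (h : ExcR N z) : ¬ RepGood P N := by
  rcases h with ⟨h2, hinv, h5 | h7⟩ | ⟨h2, hinv, h9, h3⟩ | ⟨h2, h9, h3⟩ | ⟨h4, hinv, h9⟩
  · have : Fact (Nat.Prime 5) := ⟨by norm_num⟩
    exact RExc.prime_case hz.ne_one h2 hinv 5 h5 RExc.bad5
  · have : Fact (Nat.Prime 7) := ⟨by norm_num⟩
    exact RExc.prime_case hz.ne_one h2 hinv 7 h7 RExc.bad7
  · exact RExc.case_a hz.ne_one h2 hinv h9 h3
  · exact RExc.case_b hz.ne_one hz.sq h2 h9 h3
  · exact RExc.case_c hz h4 hinv h9

end Pool.Agent.Lib_MP_8306f4_co.CaseB
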