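import Pool.Agent.Lib_MP_8306f4_co.CaseB.Defs

/-!
# MP_8306f4_co, case B, piece RGood

Notation. x·y = qop f x y = x f(x⁻¹y) on N; lambda_m: y -> m y is always an automorphism of it
(f commutes with nothing needed). 1·y = f(y). If Equi P f, then y -> p•y is an automorphism.
core(A): a∘b = 2b-a. For every x: y -> x·y is bijective (f bijective), for every y: x -> x·y is
bijective (x⁻¹f(x) bijective). '2 is invertible': all groups N have odd order.

## R4 (RGood.lean): rep_of_good. Q=N, op=qop f; G acts by n s: x -> n (s x s⁻¹); G ≃* autGroup: injective by hf, surjective: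
σ in autGroup, λ_{σ(1)}⁻¹σ fixes 1, Rig.
-/

universe u v w

namespace Pool.Agent.Lib_MP_8306f4_co.CaseB

open Pool.Agent.Lib_MP_8306f4_co

/-- The conjugation action of a subgroup on a normal subgroup. -/
@[reducible] def conjAct {G : Type u} [Group G] (S N : Subgroup G) [N.Normal] :
    MulDistribMulAction S N :=
  MulDistribMulAction.compHom N ((MulAut.conjNormal (H := N)).comp S.subtype)

namespace RGood

/-- the action of `P` on the quasigroup -/
def actT {P : Type v} {N : Type u} [Group P] [Group N] [MulDistribMulAction P N] {f : N → N}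
    (hf : Equi P f) : P →* autGroup (qop f) where
  toFun p := ⟨MulAction.toPerm p, by
    intro x y
    change p • (x * f (x⁻¹ * y)) = (p • x) * f ((p • x)⁻¹ * (p • y))
    rw [smul_mul', ← hf, smul_mul', smul_inv']⟩
  map_one' := by
    ext x
    simp
  map_mul' a b := by
    ext x
    simp [mul_smul]

lemma coe_conj_smul {G : Type u} [Group G] (S N : Subgroup G) [N.Normal] (s : S) (n : N) :
    letI := conjAct S N
    ((s • n : N) : G) = s * n * (s : G)⁻¹ := rfl

end RGood

theorem rep_of_good {G : Type u} [Group G] [Finite G] (N S : Subgroup G) [N.Normal]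
    (hc : Subgroup.IsComplement' N S)
    (hf : ∀ s ∈ S, (∀ n ∈ N, s * n * s⁻¹ = n) → s = 1)
    (h : letI := conjAct S N; RepGood S N) : HasTransitiveRep G := by
  let := conjAct S N
  obtain ⟨f, hf1, hf2, hf3⟩ := h
  have hcompat : ∀ s : S, (leftT f).comp
      ((((N.normalizerMonoidHom).comp (Subgroup.inclusion (N.normalizer_eq_top ▸ le_top)) :
        S →* MulAut N) s).toMonoidHom) =
      ((MulAut.conj (RGood.actT hf2 s)).toMonoidHom).comp (leftT f) := by
    intro s
    ext n x
    have h1 : (((N.normalizerMonoidHom).comp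
        (Subgroup.inclusion (N.normalizer_eq_top ▸ le_top)) : S →* MulAut N) s) n = s • n := rfl
    change (((((((N.normalizerMonoidHom).comp
        (Subgroup.inclusion (N.normalizer_eq_top ▸ le_top)) : S →* MulAut N) s) n) * x : N) : G)) =
        ((s • (n * (s⁻¹ • x)) : N) : G)
    rw [h1, smul_mul', smul_inv_smul]
  let Φ := SemidirectProduct.lift (leftT f) (RGood.actT hf2) hcompat
  have hΦ : ∀ n s x, (Φ ⟨n, s⟩ : Equiv.Perm N) x = n * (s • x) := fun n s x => rfl
  have hbij : Function.Bijective Φ := by
    constructor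
    · rw [injective_iff_map_eq_one]
      rintro ⟨n, s⟩ h0
      have h1 : ∀ x, n * (s • x) = x := by
        intro x
        rw [← hΦ, h0]
        rfl
      have h2 : n = 1 := by
        have := h1 1
        rwa [smul_one, mul_one] at this
      have h3 : s = 1 := by
        apply Subtype.ext
        refine hf s s.2 fun m hm => ?_
        have h4 := h1 ⟨m, hm⟩
        rw [h2, one_mul] at h4
        exact congrArg Subtype.val h4
      rw [h2, h3]
      rfl
    · rintro ⟨σ, hσ⟩
      have h1 : Equiv.mulLeft (σ 1)⁻¹ * σ ∈ autGroup (qop f) :=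
        (autGroup (qop f)).mul_mem (leftT f (σ 1)⁻¹).2 hσ
      obtain ⟨s, hs⟩ := hf3 _ h1 (by simp)
      refine ⟨⟨σ 1, s⟩, ?_⟩
      apply Subtype.ext
      ext x
      rw [hΦ, ← hs x]
      simp
  refine ⟨N, qop f, ⟨1⟩, qop_isQuasigroup hf1,
    ⟨(MulEquiv.ofBijective Φ hbij).symm.trans (SemidirectProduct.mulEquivSubgroup hc)⟩, ?_⟩
  intro x y
  exact ⟨Equiv.mulLeft (y * x⁻¹), (leftT f (y * x⁻¹)).2, by simp⟩

end Pool.Agent.Lib_MP_8306f4_co.CaseB
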