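import Pool.Agent.Lib_MP_8306f4_co.CaseB.Defs
import Pool.Agent.Lib_MP_8306f4_co.CaseB.RGood
import Pool.Agent.Lib_MP_8306f4_co.Neg

/-!
# MP_8306f4_co, case B, piece RNeg

Notation. x·y = qop f x y = x f(x⁻¹y) on N; lambda_m: y -> m y is always an automorphism of it
(f commutes with nothing needed). 1·y = f(y). If Equi P f, then y -> p•y is an automorphism.
core(A): a∘b = 2b-a. For every x: y -> x·y is bijective (f bijective), for every y: x -> x·y is
bijective (x⁻¹f(x) bijective). '2 is invertible': all groups N have odd order.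

## R5 (RNeg.lean): good_of_rep. |Q| is odd: MP8306f4.odd_card_of_cyclic_sylow (file Lib_MP_8306f4_co/Neg.lean; S is a Sylow
2-subgroup). So S fixes q; H=Stab(q); H∩N is normal in G=NS (N abelian, S ≤ H) and fixes q, so it fixes every g q: trivial. So
N acts regularly; f(n) defined by op q (n q)=f(n) q; op (x q) (y q)=(x f(x⁻¹y)) q.
-/

universe u v w

namespace Pool.Agent.Lib_MP_8306f4_co.CaseB

open Pool.Agent.Lib_MP_8306f4_co

/-- If `G = N S` with `N` abelian of odd order, `S` a 2-group which normalises `N`, has a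
transitive representation, then it comes from an orthomorphism of `N`. -/
theorem good_of_rep {G : Type u} [Group G] [Finite G] (N S : Subgroup G) [N.Normal]
    (hc : Subgroup.IsComplement' N S) (hN : Odd (Nat.card N)) (hS : IsPGroup 2 S)
    (hSc : IsCyclic S) (hS1 : S ≠ ⊥)
    (hNc : ∀ x ∈ N, ∀ y ∈ N, x * y = y * x) (h : HasTransitiveRep G) :
    letI := conjAct S N; RepGood S N := by
  classical
  let _inst := conjAct S N
  obtain ⟨Q, op, hne, hq, ⟨e⟩, htr⟩ := h
  -- the action
  let ψ : G →* Equiv.Perm Q := (autGroup op).subtype.comp e.symm.toMonoidHom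
  have hψmem : ∀ g, ψ g ∈ autGroup op := fun g => (e.symm g).2
  have hψinj : Function.Injective ψ := fun a b hab => e.symm.injective (Subtype.ext hab)
  have hψsurj : ∀ σ ∈ autGroup op, ∃ g, ψ g = σ := by
    intro σ hσ
    refine ⟨e ⟨σ, hσ⟩, ?_⟩
    show ((e.symm (e ⟨σ, hσ⟩) : autGroup op) : Equiv.Perm Q) = σ
    rw [e.symm_apply_apply]
  have hψop : ∀ g x y, ψ g (op x y) = op (ψ g x) (ψ g y) := fun g x y => hψmem g x y
  have hψtr : ∀ x y : Q, ∃ g, ψ g x = y := by
    intro x y
    obtain ⟨σ, hσ, hxy⟩ := htr x y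
    obtain ⟨g, rfl⟩ := hψsurj σ hσ
    exact ⟨g, hxy⟩
  have hdec : ∀ g : G, ∃ n ∈ N, ∃ s ∈ S, g = n * s := by
    intro g
    obtain ⟨⟨n, s⟩, hns⟩ := hc.2 g
    exact ⟨n, n.2, s, s.2, hns.symm⟩
  -- the order of `Q` is odd
  have hidx : ¬ 2 ∣ S.index := by
    rw [hc.index_eq_card]
    intro h2
    exact (Nat.not_even_iff_odd.2 hN) (even_iff_two_dvd.2 h2)
  let P : Sylow 2 G := hS.toSylow hidx
  have hPc : IsCyclic P := hSc
  have hodd : Odd (Nat.card Q) := by
    let _ : MulAction G Q := MulAction.compHom Q ψ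
    refine MP8306f4.odd_card_of_cyclic_sylow (G := G) (Q := Q) (op := op) ?_ ?_ ?_ P hPc
    · exact ⟨hne, fun a b => (hq.1 a).existsUnique b, fun a b => (hq.2 a).existsUnique b⟩
    · intro g x y
      exact hψop g x y
    · intro x y
      exact hψtr x y
  -- a fixed point of `S`
  obtain ⟨q, hqS⟩ : ∃ q : Q, ∀ s ∈ S, ψ s q = q := by
    let _ : MulAction S Q := MulAction.compHom Q (ψ.comp S.subtype)
    obtain ⟨q, hq'⟩ := hS.nonempty_fixed_point_of_prime_not_dvd_card Q (by
      intro h2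
      exact (Nat.not_even_iff_odd.2 hodd) (even_iff_two_dvd.2 h2))
    exact ⟨q, fun s hs => hq' ⟨s, hs⟩⟩
  -- `N` acts regularly
  have hfix : ∀ n ∈ N, ψ n q = q → n = 1 := by
    intro n hn hnq
    apply hψinj
    rw [map_one]
    ext x
    obtain ⟨g, rfl⟩ := hψtr q x
    obtain ⟨m, hm, s, hs, rfl⟩ := hdec g
    have h1 : ψ (m * s) q = ψ m q := by
      rw [map_mul, Equiv.Perm.mul_apply, hqS s hs]
    rw [h1, Equiv.Perm.one_apply, ← Equiv.Perm.mul_apply, ← map_mul, hNc n hn m hm, map_mul,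
      Equiv.Perm.mul_apply, hnq]
  let b₀ : N → Q := fun n => ψ n q
  have hb₀ : Function.Bijective b₀ := by
    constructor
    · intro n m hnm
      have h1 : ψ ((m : G)⁻¹ * n) q = q := by
        have h2 : ψ (n : G) q = ψ (m : G) q := hnm
        rw [map_mul, Equiv.Perm.mul_apply, h2, ← Equiv.Perm.mul_apply, ← map_mul,
          inv_mul_cancel, map_one, Equiv.Perm.one_apply]
      have h2 := hfix _ (N.mul_mem (N.inv_mem m.2) n.2) h1
      apply Subtype.ext
      exact (inv_mul_eq_one.1 h2).symm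
    · intro x
      obtain ⟨g, rfl⟩ := hψtr q x
      obtain ⟨m, hm, s, hs, rfl⟩ := hdec g
      refine ⟨⟨m, hm⟩, ?_⟩
      show ψ m q = ψ (m * s) q
      rw [map_mul, Equiv.Perm.mul_apply, hqS s hs]
  let b : N ≃ Q := Equiv.ofBijective b₀ hb₀
  have hb : ∀ n : N, b n = ψ n q := fun n => rfl
  have hb1 : b 1 = q := by
    rw [hb]
    show ψ 1 q = q
    rw [map_one, Equiv.Perm.one_apply]
  have hbmul : ∀ (n m : N), b (n * m) = ψ n (b m) := by
    intro n m
    rw [hb, hb]
    show ψ ((n : G) * m) q = _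
    rw [map_mul, Equiv.Perm.mul_apply]
  let f : N → N := fun n => b.symm (op q (b n))
  have hf : ∀ n, b (f n) = op q (b n) := fun n => b.apply_symm_apply _
  have hiso : ∀ x y : N, b (qop f x y) = op (b x) (b y) := by
    intro x y
    have h1 : b (qop f x y) = ψ x (b (f (x⁻¹ * y))) := hbmul x (f (x⁻¹ * y))
    rw [h1, hf, hψop, ← hbmul, mul_inv_cancel_left]
    rfl
  have hact : ∀ (s : S) (n : N), b (s • n) = ψ s (b n) := by
    intro s n
    have h1 : ((s • n : N) : G) = s * n * (s : G)⁻¹ := rfl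
    rw [hb, h1, map_mul, map_mul, Equiv.Perm.mul_apply, Equiv.Perm.mul_apply,
      hqS _ (S.inv_mem s.2)]
    rfl
  refine ⟨f, ⟨?_, ?_⟩, ?_, ?_⟩
  · -- `f` is bijective
    have h1 : f = b.symm ∘ (fun x => op q x) ∘ b := rfl
    rw [h1]
    exact b.symm.bijective.comp ((hq.1 q).comp b.bijective)
  · have h1 : Function.Bijective fun x : N => qop f x 1 := by
      have h2 : (fun x : N => qop f x 1) = b.symm ∘ (fun x => op x (b 1)) ∘ b := by
        funext x
        apply b.injective
        rw [hiso]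
        show _ = b (b.symm _)
        rw [b.apply_symm_apply]
        rfl
      rw [h2]
      exact b.symm.bijective.comp ((hq.2 (b 1)).comp b.bijective)
    have h2 : (fun x : N => x⁻¹ * f x) = (fun x : N => qop f x 1) ∘ (fun x : N => x⁻¹) := by
      funext x
      show x⁻¹ * f x = x⁻¹ * f (x⁻¹⁻¹ * 1)
      rw [inv_inv, mul_one]
    rw [h2]
    exact h1.comp inv_involutive.bijective
  · intro s n
    apply b.injective
    rw [hf, hact, hact, hf, hψop, hqS _ s.2]
  · intro α hα hα1
    have hβ : (b.symm.trans (α.trans b)) ∈ autGroup op := by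
      intro x y
      show b (α (b.symm (op x y))) = op (b (α (b.symm x))) (b (α (b.symm y)))
      rw [← hiso, ← hα]
      congr 2
      apply b.injective
      rw [hiso, b.apply_symm_apply, b.apply_symm_apply, b.apply_symm_apply]
    obtain ⟨g, hg⟩ := hψsurj _ hβ
    have hgb : ∀ n : N, ψ g (b n) = b (α n) := by
      intro n
      rw [hg]
      show b (α (b.symm (b n))) = _
      rw [b.symm_apply_apply]
    have hgq : ψ g q = q := by
      rw [← hb1, hgb, hα1]
    obtain ⟨m, hm, s, hs, rfl⟩ := hdec g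
    have hm1 : m = 1 := by
      apply hfix m hm
      rw [map_mul, Equiv.Perm.mul_apply, hqS s hs] at hgq
      exact hgq
    subst hm1
    refine ⟨⟨s, hs⟩, fun x => ?_⟩
    apply b.injective
    rw [← hgb, one_mul]
    exact (hact ⟨s, hs⟩ x).symm

end Pool.Agent.Lib_MP_8306f4_co.CaseB
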