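import Pool.Agent.Lib_MP_8306f4_co.CaseB.Defs
import Pool.Agent.Lib_MP_8306f4_co.CaseB.RNeg
import Pool.Agent.Lib_MP_8306f4_co.CaseB.RExc

/-!
# MP_8306f4_co, case B, piece RZ

Notation. x·y = qop f x y = x f(x⁻¹y) on N; lambda_m: y -> m y is always an automorphism of it
(f commutes with nothing needed). 1·y = f(y). If Equi P f, then y -> p•y is an automorphism.
core(A): a∘b = 2b-a. For every x: y -> x·y is bijective (f bijective), for every y: x -> x·y is
bijective (x⁻¹f(x) bijective). '2 is invertible': all groups N have odd order.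

## R7 (RZ.lean): exceptional_of_excR: G = N S; choose a generator of S and generators of N (order 5, 7: D5, D7; order 9 inverted,
exponent 3: neg9; |fixS|=3: N = Z3(-) x Z3(+), G = C3 x S3; |S|=4: s² acts as inversion, basis a, s•a of N: quarter9) and write down the
isomorphism (SemidirectProduct.lift, or G ≃* N ⋊ S via SemidirectProduct.mulEquivSubgroup / IsComplement').
no_rep_of_exceptional: HasTransitiveRep is invariant under isomorphism; in each explicit group X take N, S explicitly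
(rotations / reflection etc.), IsComplement', N abelian of odd order, S cyclic 2-group; good_of_rep gives RepGood S N,
not_rep_of_exc gives the contradiction.

-/

universe u v w

namespace Pool.Agent.Lib_MP_8306f4_co.CaseB

open Pool.Agent.Lib_MP_8306f4_co

/-- The elementary abelian group of order 9. -/
abbrev V9 : Type := Multiplicative (ZMod 3 × ZMod 3)

/-- The automorphism `(x, y) ↦ (-x, -y)` of `V9`. -/
def neg9 : MulAut V9 :=
  AddEquiv.toMultiplicative
    { toFun := fun x => -x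
      invFun := fun x => -x
      left_inv := fun x => neg_neg x
      right_inv := fun x => neg_neg x
      map_add' := fun x y => by
        rw [neg_add] }

/-- The automorphism `(x, y) ↦ (-y, x)` of `V9`. -/
def quarter9 : MulAut V9 :=
  AddEquiv.toMultiplicative
    { toFun := fun x => (-x.2, x.1)
      invFun := fun x => (x.2, -x.1)
      left_inv := fun x => by
        ext <;> simp
      right_inv := fun x => by
        ext <;> simp
      map_add' := fun x y => by
        ext <;> simp [add_comm] }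

/-- The exceptional groups: the dihedral groups of order 10 and 14, `C₃ × S₃`, the generalised
dihedral group of order 18 over `C₃²`, and `C₃² ⋊ C₄` with `C₄` acting faithfully. -/
def Exceptional (G : Type u) [Group G] : Prop :=
  Nonempty (G ≃* DihedralGroup 5) ∨ Nonempty (G ≃* DihedralGroup 7) ∨
  Nonempty (G ≃* Multiplicative (ZMod 3) × DihedralGroup 3) ∨
  Nonempty (G ≃* V9 ⋊[(Subgroup.zpowers neg9).subtype] (Subgroup.zpowers neg9)) ∨
  Nonempty (G ≃* V9 ⋊[(Subgroup.zpowers quarter9).subtype] (Subgroup.zpowers quarter9))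

namespace RZ

section iso

variable {G : Type u} [Group G] {X : Type w} [Group X]

theorem iso_of (N S : Subgroup G) [N.Normal] (hc : Subgroup.IsComplement' N S)
    (N' S' : Subgroup X) [N'.Normal] (hc' : Subgroup.IsComplement' N' S')
    (eN : N ≃* N') (eS : S ≃* S')
    (h : ∀ (s : S) (n n₁ : N), (n₁ : G) = s * n * (s : G)⁻¹ →
      (eN n₁ : X) = eS s * eN n * (eS s : X)⁻¹) : Nonempty (G ≃* X) := by
  refine ⟨(SemidirectProduct.mulEquivSubgroup hc).symm.trans
    ((SemidirectProduct.congr eN eS ?_).trans (SemidirectProduct.mulEquivSubgroup hc'))⟩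
  intro s
  ext n
  exact h s n _ rfl

theorem iso_of_gen (N S : Subgroup G) [N.Normal] (hc : Subgroup.IsComplement' N S)
    (N' S' : Subgroup X) [N'.Normal] (hc' : Subgroup.IsComplement' N' S')
    (eN : N ≃* N') (eS : S ≃* S') (g : S) (hgen : ∀ s : S, ∃ k : ℕ, s = g ^ k)
    (h : ∀ (n n₁ : N), (n₁ : G) = g * n * (g : G)⁻¹ →
      (eN n₁ : X) = eS g * eN n * (eS g : X)⁻¹) : Nonempty (G ≃* X) := by
  apply iso_of N S hc N' S' hc' eN eS
  intro s
  obtain ⟨k, rfl⟩ := hgen s
  induction k with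
  | zero =>
    intro n n₁ hn
    rw [pow_zero] at hn ⊢
    have : n₁ = n := by
      apply Subtype.ext
      rw [hn]
      simp
    rw [this]
    simp
  | succ k ih =>
    intro n n₁ hn
    have hmem : (g ^ k : S) * (n : G) * ((g ^ k : S) : G)⁻¹ ∈ N :=
      ‹N.Normal›.conj_mem _ n.2 _
    have h1 := ih n ⟨_, hmem⟩ rfl
    have h2 := h ⟨_, hmem⟩ n₁ (by
      rw [hn, pow_succ']
      simp [mul_assoc])
    rw [h2, h1, pow_succ']
    simp [mul_assoc]

end iso

theorem pow_val_add {M : Type*} [Monoid M] {a : M} (h : a ^ 3 = 1) (i j : ZMod 3) :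
    a ^ (i + j).val = a ^ i.val * a ^ j.val := by
  rw [ZMod.val_add, ← pow_eq_pow_mod _ h, pow_add]

/-- the homomorphism from `V9` given by two commuting elements -/
def v9hom {N : Type*} [Group N] {a b : N} (ha : a ^ 3 = 1) (hb : b ^ 3 = 1)
    (hab : a * b = b * a) : V9 →* N where
  toFun x := a ^ (Multiplicative.toAdd x).1.val * b ^ (Multiplicative.toAdd x).2.val
  map_one' := by simp
  map_mul' x y := by
    have hc : Commute a b := hab
    have h1 : (Multiplicative.toAdd (x * y)).1 =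
      (Multiplicative.toAdd x).1 + (Multiplicative.toAdd y).1 := rfl
    have h2 : (Multiplicative.toAdd (x * y)).2 =
      (Multiplicative.toAdd x).2 + (Multiplicative.toAdd y).2 := rfl
    rw [h1, h2, pow_val_add ha, pow_val_add hb]
    have h3 := (hc.pow_pow (Multiplicative.toAdd y).1.val (Multiplicative.toAdd x).2.val).eq
    rw [mul_assoc, mul_assoc, ← mul_assoc (a ^ _) (b ^ _) (b ^ _), h3, mul_assoc]

theorem exists_v9 {N : Type*} [Group N] (hN : Nat.card N = 9) {a b : N}
    (ha : a ^ 3 = 1) (hb : b ^ 3 = 1) (hab : a * b = b * a)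
    (hinj : ∀ i j : ZMod 3, a ^ i.val * b ^ j.val = 1 → i = 0 ∧ j = 0) :
    ∃ e : V9 ≃* N, ∀ i j : ZMod 3,
      e (Multiplicative.ofAdd (i, j)) = a ^ i.val * b ^ j.val := by
  have hfin : Finite N := Nat.finite_of_card_ne_zero (by rw [hN]; norm_num)
  have hb : Function.Bijective (v9hom ha hb hab) := by
    rw [Nat.bijective_iff_injective_and_card]
    constructor
    · rw [injective_iff_map_eq_one]
      intro x hx
      obtain ⟨h1, h2⟩ := hinj _ _ hx
      exact Prod.ext h1 h2
    · rw [hN]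
      simp [V9, Nat.card_eq_fintype_card]
  exact ⟨MulEquiv.ofBijective _ hb, fun i j => rfl⟩

theorem inj_of_notMem {N : Type*} [Group N] {a b : N} (ha : a ^ 3 = 1) (ha1 : a ≠ 1)
    (hb : b ^ 3 = 1) (hnot : b ∉ Subgroup.zpowers a) (i j : ZMod 3)
    (h : a ^ i.val * b ^ j.val = 1) : i = 0 ∧ j = 0 := by
  have ha2 : a ^ 2 ≠ 1 := by
    intro h2
    apply ha1
    have : a ^ 3 = a ^ 2 * a := pow_succ a 2
    rw [ha, h2, one_mul] at this
    exact this.symm
  have hmem : b ^ j.val ∈ Subgroup.zpowers a := by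
    rw [eq_inv_of_mul_eq_one_right h]
    exact inv_mem (pow_mem (Subgroup.mem_zpowers a) _)
  have hi3 : i.val < 3 := ZMod.val_lt i
  have hj3 : j.val < 3 := ZMod.val_lt j
  have hj : j.val = 0 := by
    by_contra hj0
    have hj12 : j.val = 1 ∨ j.val = 2 := by omega
    rcases hj12 with hj1 | hj1
    · rw [hj1, pow_one] at hmem
      exact hnot hmem
    · rw [hj1] at hmem
      have h4 : (b ^ 2) ^ 2 = b := by
        rw [← pow_mul]
        show b ^ (3 + 1) = b
        rw [pow_add, hb, one_mul, pow_one]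
      apply hnot
      rw [← h4]
      exact pow_mem hmem 2
  rw [hj, pow_zero, mul_one] at h
  have hi : i.val = 0 := by
    by_contra hi0
    have hi12 : i.val = 1 ∨ i.val = 2 := by omega
    rcases hi12 with hi1 | hi1
    · rw [hi1, pow_one] at h
      exact ha1 h
    · rw [hi1] at h
      exact ha2 h
  exact ⟨(ZMod.val_eq_zero i).mp hi, (ZMod.val_eq_zero j).mp hj⟩

/-- powers of an involution-like or general cyclic generator -/
structure Typ {G : Type*} [Group G] (n m : ℕ) (N S : Subgroup G) (z : G) : Prop where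
  normal : N.Normal
  cardG : Nat.card G = n * m
  cardN : Nat.card N = n
  cardS : Nat.card S = m
  cyc : IsCyclic S
  mem : z ∈ S
  ne : z ≠ 1
  sq : z * z = 1
  cop : Nat.Coprime n m
  pos : 0 < n * m

section typ

variable {G : Type*} [Group G] {X : Type*} [Group X] {n m : ℕ} {N S : Subgroup G} {z : G}

theorem Typ.finite (h : Typ n m N S z) : Finite G :=
  Nat.finite_of_card_ne_zero (by rw [h.cardG]; exact h.pos.ne')

theorem Typ.compl (h : Typ n m N S z) : Subgroup.IsComplement' N S := by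
  have := h.finite
  apply Subgroup.isComplement'_of_coprime
  · rw [h.cardN, h.cardS, h.cardG]
  · rw [h.cardN, h.cardS]
    exact h.cop

theorem Typ.map (h : Typ n m N S z) (e : G ≃* X) :
    Typ n m (N.map e.toMonoidHom) (S.map e.toMonoidHom) (e z) where
  normal := h.normal.map _ e.surjective
  cardG := by rw [← Nat.card_congr e.toEquiv, h.cardG]
  cardN := by
    rw [← h.cardN]
    exact (Nat.card_congr (N.equivMapOfInjective e.toMonoidHom e.injective).toEquiv).symm
  cardS := by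
    rw [← h.cardS]
    exact (Nat.card_congr (S.equivMapOfInjective e.toMonoidHom e.injective).toEquiv).symm
  cyc := by
    have := h.cyc
    exact isCyclic_of_surjective (S.equivMapOfInjective e.toMonoidHom e.injective)
      (S.equivMapOfInjective e.toMonoidHom e.injective).surjective
  mem := Subgroup.mem_map_of_mem _ h.mem
  ne := fun h1 => h.ne (e.injective (h1.trans (map_one e).symm))
  sq := by rw [← map_mul, h.sq, map_one]
  cop := h.cop
  pos := h.pos

/-- the involution inverts `N` -/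
def Inverts (N : Subgroup G) (z : G) : Prop := ∀ x ∈ N, z * x * z⁻¹ = x⁻¹

theorem Inverts.map (h : Inverts N z) (e : G ≃* X) : Inverts (N.map e.toMonoidHom) (e z) := by
  rintro _ ⟨x, hx, rfl⟩
  show e z * e x * (e z)⁻¹ = (e x)⁻¹
  rw [← map_inv, ← map_mul, ← map_mul, h x hx, map_inv]

theorem Inverts.comm (h : Inverts N z) : ∀ x ∈ N, ∀ y ∈ N, x * y = y * x := by
  intro x hx y hy
  have h1 := h x hx
  have h2 := h y hy
  have h3 := h (x * y) (mul_mem hx hy)
  have h4 : z * (x * y) * z⁻¹ = (z * x * z⁻¹) * (z * y * z⁻¹) := by group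
  rw [h4, h1, h2] at h3
  have h5 := congrArg (fun t => t⁻¹) h3
  simp only [mul_inv_rev, inv_inv] at h5
  exact h5.symm

theorem exp_map (h : ∀ x ∈ N, x ^ 3 = 1) (e : G ≃* X) : ∀ x ∈ N.map e.toMonoidHom, x ^ 3 = 1 := by
  rintro _ ⟨x, hx, rfl⟩
  show (e x) ^ 3 = 1
  rw [← map_pow, h x hx, map_one]

/-- number of fixed points -/
def Fix3 (N : Subgroup G) (z : G) : Prop := Nat.card {x : G // x ∈ N ∧ z * x * z⁻¹ = x} = 3

theorem Fix3.map (h : Fix3 N z) (e : G ≃* X) : Fix3 (N.map e.toMonoidHom) (e z) := by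
  unfold Fix3 at h ⊢
  rw [← h]
  refine (Nat.card_congr (Equiv.subtypeEquiv e.toEquiv ?_)).symm
  intro x
  show _ ↔ e x ∈ N.map e.toMonoidHom ∧ e z * e x * (e z)⁻¹ = e x
  rw [← map_inv, ← map_mul, ← map_mul, e.injective.eq_iff]
  refine and_congr_left fun _ => ?_
  constructor
  · intro hx
    exact Subgroup.mem_map_of_mem _ hx
  · rintro ⟨y, hy, hyx⟩
    have : y = x := e.injective hyx
    rwa [← this]

end typ

section neg

variable {G : Type u} [Group G] {n m : ℕ} {N S : Subgroup G} {z : G}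

theorem neg_of (hT : Typ n m N S z) (hn : Odd n) (hm : ∃ k, m = 2 ^ k)
    (hcomm : ∀ x ∈ N, ∀ y ∈ N, x * y = y * x)
    (hex : letI := hT.normal; letI := conjAct S N; ExcR N (⟨z, hT.mem⟩ : S)) :
    ¬ HasTransitiveRep G := by
  intro hrep
  have := hT.normal
  have := hT.finite
  have hc := hT.compl
  obtain ⟨k, hk⟩ := hm
  have hS : IsPGroup 2 S := IsPGroup.of_card (n := k) (by rw [hT.cardS, hk])
  have hS1 : S ≠ ⊥ := by
    intro h
    have := hT.mem
    rw [h, Subgroup.mem_bot] at this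
    exact hT.ne this
  have h1 := good_of_rep N S hc (by rw [hT.cardN]; exact hn) hS hT.cyc hS1 hcomm hrep
  let := conjAct S N
  have hz : TwoCyc (⟨z, hT.mem⟩ : S) :=
    { fin := inferInstance
      pgroup := hS
      cyclic := hT.cyc
      ne_one := fun h => hT.ne (congrArg Subtype.val h)
      sq := Subtype.ext hT.sq }
  exact not_rep_of_exc hz hex h1

theorem smul_coe [N.Normal] (s : S) (x : N) :
    let := conjAct S N; ((s • x : N) : G) = s * x * (s : G)⁻¹ := rfl

theorem fix_card [N.Normal] (s : S) :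
    let := conjAct S N;
    Nat.card (fixS s : Subgroup N) = Nat.card {x : G // x ∈ N ∧ (s : G) * x * (s : G)⁻¹ = x} := by
  let := conjAct S N
  refine Nat.card_congr
    { toFun := fun x => ⟨x.1, x.1.2, congrArg Subtype.val x.2⟩
      invFun := fun x => ⟨⟨x.1, x.2.1⟩, Subtype.ext x.2.2⟩
      left_inv := fun x => rfl
      right_inv := fun x => rfl }

theorem neg_one {p : ℕ} (hp : p = 5 ∨ p = 7) (hT : Typ p 2 N S z) (hi : Inverts N z) :
    ¬ HasTransitiveRep G := by
  have := hT.normal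
  apply neg_of hT (by rcases hp with rfl | rfl <;> decide) ⟨1, rfl⟩ hi.comm
  let := conjAct S N
  left
  refine ⟨hT.cardS, fun x => Subtype.ext (hi x x.2), ?_⟩
  rcases hp with rfl | rfl
  · exact Or.inl hT.cardN
  · exact Or.inr hT.cardN

theorem neg_two (hT : Typ 9 2 N S z) (hi : Inverts N z) (he : ∀ x ∈ N, x ^ 3 = 1) :
    ¬ HasTransitiveRep G := by
  have := hT.normal
  apply neg_of hT (by decide) ⟨1, rfl⟩ hi.comm
  let := conjAct S N
  right
  left
  exact ⟨hT.cardS, fun x => Subtype.ext (hi x x.2), hT.cardN, fun x => Subtype.ext (he x x.2)⟩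

theorem comm_nine {N : Subgroup G} (h : Nat.card N = 9) : ∀ x ∈ N, ∀ y ∈ N, x * y = y * x := by
  have : Fact (Nat.Prime 3) := ⟨Nat.prime_three⟩
  intro x hx y hy
  have h2 := IsPGroup.isMulCommutative_of_card_eq_prime_sq (p := 3) (G := N) (by rw [h]; norm_num)
  exact congrArg Subtype.val (mul_comm' (⟨x, hx⟩ : N) ⟨y, hy⟩)

theorem neg_three (hT : Typ 9 2 N S z) (hf : Fix3 N z) :
    ¬ HasTransitiveRep G := by
  have := hT.normal
  apply neg_of hT (by decide) ⟨1, rfl⟩ (comm_nine hT.cardN)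
  let := conjAct S N
  right
  right
  left
  exact ⟨hT.cardS, hT.cardN, (fix_card (N := N) (⟨z, hT.mem⟩ : S)).trans hf⟩

theorem neg_four (hT : Typ 9 4 N S z) (hi : Inverts N z) :
    ¬ HasTransitiveRep G := by
  have := hT.normal
  apply neg_of hT (by decide) ⟨2, rfl⟩ hi.comm
  let := conjAct S N
  right
  right
  right
  exact ⟨hT.cardS, fun x => Subtype.ext (hi x x.2), hT.cardN⟩

end neg

section std

theorem std_dihedral (p : ℕ) (hp : Odd p) :
    Typ p 2 (Subgroup.zpowers (DihedralGroup.r 1 : DihedralGroup p))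
      (Subgroup.zpowers (DihedralGroup.sr 0)) (DihedralGroup.sr 0) ∧
    Inverts (Subgroup.zpowers (DihedralGroup.r 1 : DihedralGroup p)) (DihedralGroup.sr 0) := by
  have hp0 : 0 < p := hp.pos
  have h1 : Nat.card (Subgroup.zpowers (DihedralGroup.r 1 : DihedralGroup p)) = p := by
    rw [Nat.card_zpowers, DihedralGroup.orderOf_r_one]
  refine ⟨{ normal := ?_
            cardG := by rw [DihedralGroup.nat_card, mul_comm]
            cardN := h1
            cardS := by rw [Nat.card_zpowers, DihedralGroup.orderOf_sr]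
            cyc := inferInstance
            mem := Subgroup.mem_zpowers _
            ne := fun h => by cases h
            sq := DihedralGroup.sr_mul_self 0
            cop := (Nat.coprime_two_right).mpr hp
            pos := by omega }, ?_⟩
  · apply Subgroup.normal_of_index_eq_two
    have h2 := Subgroup.index_mul_card (Subgroup.zpowers (DihedralGroup.r 1 : DihedralGroup p))
    rw [h1, DihedralGroup.nat_card] at h2
    exact Nat.eq_of_mul_eq_mul_right hp0 h2
  · rintro x ⟨k, rfl⟩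
    simp only [DihedralGroup.r_one_zpow, DihedralGroup.inv_sr, DihedralGroup.sr_mul_r,
      DihedralGroup.sr_mul_sr, DihedralGroup.inv_r]
    simp

theorem std_prod :
    Typ 9 2 ((⊤ : Subgroup (Multiplicative (ZMod 3))).prod
        (Subgroup.zpowers (DihedralGroup.r 1 : DihedralGroup 3)))
      (Subgroup.zpowers ((1, DihedralGroup.sr 0) : Multiplicative (ZMod 3) × DihedralGroup 3))
      (1, DihedralGroup.sr 0) ∧
    Fix3 ((⊤ : Subgroup (Multiplicative (ZMod 3))).prod
        (Subgroup.zpowers (DihedralGroup.r 1 : DihedralGroup 3))) (1, DihedralGroup.sr 0) := by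
  obtain ⟨hT, hi⟩ := std_dihedral 3 (by decide)
  have hz : ((1, DihedralGroup.sr 0) : Multiplicative (ZMod 3) × DihedralGroup 3) *
      (1, DihedralGroup.sr 0) = 1 := by
    rw [Prod.mk_mul_mk, hT.sq, mul_one]
    rfl
  have hz1 : ((1, DihedralGroup.sr 0) : Multiplicative (ZMod 3) × DihedralGroup 3) ≠ 1 :=
    fun h => hT.ne (congrArg Prod.snd h)
  have hord : orderOf ((1, DihedralGroup.sr 0) : Multiplicative (ZMod 3) × DihedralGroup 3) = 2 :=
    orderOf_eq_prime (by rw [sq]; exact hz) hz1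
  have hcardX : Nat.card (Multiplicative (ZMod 3) × DihedralGroup 3) = 18 := by
    rw [Nat.card_prod, DihedralGroup.nat_card]
    simp
  have hcardN : Nat.card ((⊤ : Subgroup (Multiplicative (ZMod 3))).prod
        (Subgroup.zpowers (DihedralGroup.r 1 : DihedralGroup 3))) = 9 := by
    rw [Nat.card_congr (Subgroup.prodEquiv _ _).toEquiv, Nat.card_prod, hT.cardN]
    simp
  refine ⟨{ normal := ?_
            cardG := by rw [hcardX]
            cardN := hcardN
            cardS := by rw [Nat.card_zpowers, hord]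
            cyc := inferInstance
            mem := Subgroup.mem_zpowers _
            ne := hz1
            sq := hz
            cop := by decide
            pos := by norm_num }, ?_⟩
  · apply Subgroup.normal_of_index_eq_two
    have h2 := Subgroup.index_mul_card ((⊤ : Subgroup (Multiplicative (ZMod 3))).prod
        (Subgroup.zpowers (DihedralGroup.r 1 : DihedralGroup 3)))
    rw [hcardN, hcardX] at h2
    omega
  · have key : ∀ d ∈ Subgroup.zpowers (DihedralGroup.r 1 : DihedralGroup 3),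
        DihedralGroup.sr 0 * d * (DihedralGroup.sr 0)⁻¹ = d → d = 1 := by
      intro d hd h
      rw [hi d hd] at h
      have h2 : d ^ 2 = 1 := by
        rw [sq]
        nth_rewrite 1 [← h]
        exact inv_mul_cancel d
      have h3 : d ^ 3 = 1 := by
        have := pow_card_eq_one' (x := (⟨d, hd⟩ : Subgroup.zpowers (DihedralGroup.r 1 :
          DihedralGroup 3)))
        rw [hT.cardN] at this
        exact congrArg Subtype.val this
      rw [pow_succ, h2, one_mul] at h3
      exact h3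
    unfold Fix3
    have h3 : Nat.card (Multiplicative (ZMod 3)) = 3 := by simp
    refine Eq.trans ?_ h3
    refine Nat.card_congr
      { toFun := fun x => x.1.1
        invFun := fun a => ⟨(a, 1), ⟨Subgroup.mem_prod.mpr ⟨trivial, one_mem _⟩, ?_⟩⟩
        left_inv := ?_
        right_inv := fun a => rfl }
    · rw [Prod.mk_mul_mk, Prod.inv_mk, Prod.mk_mul_mk, mul_one, mul_inv_cancel, one_mul, inv_one,
        mul_one]
    · rintro ⟨⟨a, d⟩, hx, hx2⟩
      apply Subtype.ext
      have hd := key d (Subgroup.mem_prod.mp hx).2 (congrArg Prod.snd hx2)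
      exact Prod.ext rfl hd.symm

theorem std_semi (c : MulAut V9) (m : ℕ) (hm : orderOf c = m) (hcop : Nat.Coprime 9 m)
    (hpos : 0 < m) (w : Subgroup.zpowers c) (hw : w ≠ 1) (hw2 : w * w = 1)
    (hinv : ∀ v : V9, (w : MulAut V9) v = v⁻¹) :
    Typ 9 m (SemidirectProduct.inl : V9 →* V9 ⋊[(Subgroup.zpowers c).subtype] _).range
      (SemidirectProduct.inr : _ →* V9 ⋊[(Subgroup.zpowers c).subtype] _).range
      (SemidirectProduct.inr w) ∧
    Inverts (SemidirectProduct.inl : V9 →* V9 ⋊[(Subgroup.zpowers c).subtype] _).range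
      (SemidirectProduct.inr w) := by
  have hV : Nat.card V9 = 9 := by simp [V9, Nat.card_eq_fintype_card]
  have hC : Nat.card (Subgroup.zpowers c) = m := by rw [Nat.card_zpowers, hm]
  refine ⟨{ normal := ?_
            cardG := by rw [SemidirectProduct.card, hV, hC]
            cardN := ?_
            cardS := ?_
            cyc := ?_
            mem := ⟨w, rfl⟩
            ne := ?_
            sq := by rw [← map_mul, hw2, map_one]
            cop := hcop
            pos := by omega }, ?_⟩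
  · rw [SemidirectProduct.range_inl_eq_ker_rightHom]
    infer_instance
  · rw [← hV]
    exact (Nat.card_congr
      (MonoidHom.ofInjective SemidirectProduct.inl_injective).toEquiv).symm
  · rw [← hC]
    exact (Nat.card_congr
      (MonoidHom.ofInjective SemidirectProduct.inr_injective).toEquiv).symm
  · exact isCyclic_of_surjective
      (SemidirectProduct.inr : _ →* V9 ⋊[(Subgroup.zpowers c).subtype] _).rangeRestrict
      (MonoidHom.rangeRestrict_surjective _)
  · intro h
    exact hw (SemidirectProduct.inr_injective (h.trans (map_one _).symm))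
  · rintro _ ⟨v, rfl⟩
    have h := SemidirectProduct.inl_aut (φ := (Subgroup.zpowers c).subtype) w v
    have h2 : (Subgroup.zpowers c).subtype w v = v⁻¹ := hinv v
    rw [h2, map_inv, map_inv] at h
    exact h.symm

end std

section pos

variable {G : Type u} [Group G] {X : Type w} [Group X] {n : ℕ} {N S : Subgroup G} {z : G}
  {N' S' : Subgroup X} {z' : X}

theorem two_cases (h : Nat.card S = 2) (hz : z ∈ S) (hz1 : z ≠ 1) (s : S) :
    s = 1 ∨ s = ⟨z, hz⟩ := by
  obtain ⟨y, -, hy⟩ := (Nat.card_eq_two_iff' (1 : S)).mp h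
  by_cases hs : s = 1
  · exact Or.inl hs
  · right
    rw [hy s hs, hy ⟨z, hz⟩ (fun h => hz1 (congrArg Subtype.val h))]

theorem iso_two (hT : Typ n 2 N S z) (hT' : Typ n 2 N' S' z') (eN : N ≃* N')
    (h : ∀ n n₁ : N, (n₁ : G) = z * n * z⁻¹ → (eN n₁ : X) = z' * eN n * z'⁻¹) :
    Nonempty (G ≃* X) := by
  have := hT.normal
  have := hT'.normal
  have : Fact (Nat.Prime 2) := ⟨Nat.prime_two⟩
  let eS : S ≃* S' := mulEquivOfPrimeCardEq hT.cardS hT'.cardS
  have hg : eS ⟨z, hT.mem⟩ = ⟨z', hT'.mem⟩ := by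
    rcases two_cases hT'.cardS hT'.mem hT'.ne (eS ⟨z, hT.mem⟩) with h1 | h1
    · exfalso
      have h2 : (⟨z, hT.mem⟩ : S) = 1 := eS.injective (h1.trans (map_one eS).symm)
      exact hT.ne (congrArg Subtype.val h2)
    · exact h1
  apply iso_of_gen N S hT.compl N' S' hT'.compl eN eS ⟨z, hT.mem⟩
  · intro s
    rcases two_cases hT.cardS hT.mem hT.ne s with h1 | h1
    · exact ⟨0, by rw [h1, pow_zero]⟩
    · exact ⟨1, by rw [h1, pow_one]⟩
  · intro n n₁ hn
    rw [hg]
    exact h n n₁ hn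

theorem iso_two_inv (hT : Typ n 2 N S z) (hT' : Typ n 2 N' S' z') (eN : N ≃* N')
    (hi : Inverts N z) (hi' : Inverts N' z') : Nonempty (G ≃* X) := by
  apply iso_two hT hT' eN
  intro n n₁ hn
  have h1 : n₁ = n⁻¹ := Subtype.ext (hn.trans (hi n n.2))
  rw [h1, map_inv, hi' _ (eN n).2]
  rfl

theorem iso_one {p : ℕ} (hp : p.Prime) (hT : Typ p 2 N S z) (hT' : Typ p 2 N' S' z')
    (hi : Inverts N z) (hi' : Inverts N' z') : Nonempty (G ≃* X) := by
  have : Fact p.Prime := ⟨hp⟩
  exact iso_two_inv hT hT' (mulEquivOfPrimeCardEq hT.cardN hT'.cardN) hi hi'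

/-- an elementary abelian subgroup of order 9 -/
theorem exists_v9_exp (hN : Nat.card N = 9) (he : ∀ x ∈ N, x ^ 3 = 1) : Nonempty (V9 ≃* N) := by
  have hfin : Finite N := Nat.finite_of_card_ne_zero (by rw [hN]; norm_num)
  have he' : ∀ x : N, x ^ 3 = 1 := fun x => Subtype.ext (he x x.2)
  have : Nontrivial N := Finite.one_lt_card_iff_nontrivial.mp (by rw [hN]; norm_num)
  obtain ⟨a, ha⟩ := exists_ne (1 : N)
  have h2 : ∃ b : N, b ∉ Subgroup.zpowers a := by
    by_contra hcon
    push Not at hcon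
    have htop : Subgroup.zpowers a = ⊤ := (Subgroup.eq_top_iff' _).mpr hcon
    have h3 : Nat.card (Subgroup.zpowers a) = 9 := by
      rw [htop, Subgroup.card_top, hN]
    rw [Nat.card_zpowers] at h3
    have h4 := orderOf_dvd_of_pow_eq_one (he' a)
    rw [h3] at h4
    exact absurd h4 (by decide)
  obtain ⟨b, hb⟩ := h2
  obtain ⟨e, -⟩ := exists_v9 hN (he' a) (he' b)
    (Subtype.ext (comm_nine hN a a.2 b b.2)) (inj_of_notMem (he' a) ha (he' b) hb)
  exact ⟨e⟩

theorem iso_exp (hT : Typ 9 2 N S z) (hT' : Typ 9 2 N' S' z')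
    (hi : Inverts N z) (hi' : Inverts N' z') (he : ∀ x ∈ N, x ^ 3 = 1)
    (he' : ∀ x ∈ N', x ^ 3 = 1) : Nonempty (G ≃* X) := by
  obtain ⟨e⟩ := exists_v9_exp hT.cardN he
  obtain ⟨e'⟩ := exists_v9_exp hT'.cardN he'
  exact iso_two_inv hT hT' (e.symm.trans e') hi hi'

end pos

section more

variable {G : Type u} [Group G] {X : Type w} [Group X] {N S : Subgroup G} {z : G}
  {N' S' : Subgroup X} {z' : X}

theorem pow_neg_val {M : Type*} [Group M] {b : M} (hb : b ^ 3 = 1) (j : ZMod 3) :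
    b ^ (-j).val = (b ^ j.val)⁻¹ := by
  have h := pow_val_add hb (-j) j
  rw [neg_add_cancel, ZMod.val_zero, pow_zero] at h
  exact eq_inv_of_mul_eq_one_left h.symm

theorem v9_fix (hT : Typ 9 2 N S z) (hf : Fix3 N z) :
    ∃ e : V9 ≃* N, ∀ i j : ZMod 3,
      z * (e (Multiplicative.ofAdd (i, j)) : G) * z⁻¹ = e (Multiplicative.ofAdd (i, -j)) := by
  have hfin := hT.finite
  have hnor := hT.normal
  let F : Subgroup G :=
    { carrier := {x | x ∈ N ∧ z * x * z⁻¹ = x}
      one_mem' := ⟨one_mem _, by group⟩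
      mul_mem' := by
        rintro x y ⟨h1, h2⟩ ⟨h3, h4⟩
        refine ⟨mul_mem h1 h3, ?_⟩
        calc z * (x * y) * z⁻¹ = (z * x * z⁻¹) * (z * y * z⁻¹) := by group
          _ = x * y := by rw [h2, h4]
      inv_mem' := by
        rintro x ⟨h1, h2⟩
        refine ⟨inv_mem h1, ?_⟩
        calc z * x⁻¹ * z⁻¹ = (z * x * z⁻¹)⁻¹ := by group
          _ = x⁻¹ := by rw [h2] }
  have hF : Nat.card F = 3 := hf
  have hFN : F ≤ N := fun x hx => hx.1
  have : Nontrivial F := Finite.one_lt_card_iff_nontrivial.mp (by rw [hF]; norm_num)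
  obtain ⟨⟨a, haN, haz⟩, ha1⟩ := exists_ne (1 : F)
  have ha1' : a ≠ 1 := fun h => ha1 (Subtype.ext h)
  have ha3 : a ^ 3 = 1 := by
    have h := pow_card_eq_one' (x := (⟨a, haN, haz⟩ : F))
    rw [hF] at h
    exact congrArg Subtype.val h
  have hx : ∃ x ∈ N, z * x * z⁻¹ ≠ x := by
    by_contra hcon
    push Not at hcon
    have : F = N := le_antisymm hFN fun x hx => ⟨hx, hcon x hx⟩
    rw [this, hT.cardN] at hF
    exact absurd hF (by decide)
  obtain ⟨x, hxN, hxz⟩ := hx
  have hzz : z⁻¹ = z := inv_eq_of_mul_eq_one_left hT.sq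
  have hbN : x⁻¹ * (z * x * z⁻¹) ∈ N := mul_mem (inv_mem hxN) (hnor.conj_mem x hxN z)
  have hb1 : x⁻¹ * (z * x * z⁻¹) ≠ 1 := by
    intro h
    apply hxz
    exact (inv_mul_eq_one.mp h).symm
  have hbz : z * (x⁻¹ * (z * x * z⁻¹)) * z⁻¹ = (x⁻¹ * (z * x * z⁻¹))⁻¹ := by
    calc z * (x⁻¹ * (z * x * z⁻¹)) * z⁻¹
        = (z * x * z⁻¹)⁻¹ * ((z * z) * x * (z * z)⁻¹) := by group
      _ = (x⁻¹ * (z * x * z⁻¹))⁻¹ := by
          rw [hT.sq]
          group
  generalize x⁻¹ * (z * x * z⁻¹) = b at hbN hb1 hbz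
  have hbz' : ∀ k : ℤ, z * b ^ k * z⁻¹ = (b ^ k)⁻¹ := by
    intro k
    rw [← conj_zpow, hbz, inv_zpow]
  have haz' : ∀ k : ℤ, z * a ^ k * z⁻¹ = a ^ k := by
    intro k
    rw [← conj_zpow, haz]
  have hb3 : (⟨b, hbN⟩ : N) ^ 3 = 1 := by
    by_contra hne
    have h9 : (⟨b, hbN⟩ : N) ^ 9 = 1 := by
      have h := pow_card_eq_one' (x := (⟨b, hbN⟩ : N))
      rwa [hT.cardN] at h
    have : Fact (Nat.Prime 3) := ⟨Nat.prime_three⟩
    have hord : orderOf (⟨b, hbN⟩ : N) = 3 ^ (1 + 1) :=
      orderOf_eq_prime_pow (by rwa [pow_one]) h9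
    have htop : Subgroup.zpowers (⟨b, hbN⟩ : N) = ⊤ := by
      apply Subgroup.eq_top_of_card_eq
      rw [Nat.card_zpowers, hord, hT.cardN]
      norm_num
    have hmem : (⟨a, haN⟩ : N) ∈ Subgroup.zpowers (⟨b, hbN⟩ : N) := by
      rw [htop]
      trivial
    obtain ⟨k, hk⟩ := hmem
    have hk' : b ^ k = a := by
      have := congrArg Subtype.val hk
      simpa using this
    have h1 := hbz' k
    rw [hk', haz] at h1
    have h2 : a * a = 1 := by
      nth_rewrite 1 [h1]
      exact inv_mul_cancel a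
    apply ha1'
    rw [pow_succ, sq, h2, one_mul] at ha3
    exact ha3
  have hb3' : b ^ 3 = 1 := congrArg Subtype.val hb3
  have hnot : (⟨b, hbN⟩ : N) ∉ Subgroup.zpowers (⟨a, haN⟩ : N) := by
    rintro ⟨k, hk⟩
    have hk' : a ^ k = b := by
      have := congrArg Subtype.val hk
      simpa using this
    have h1 := haz' k
    rw [hk', hbz] at h1
    have h2 : b * b = 1 := by
      nth_rewrite 1 [← h1]
      exact inv_mul_cancel b
    apply hb1
    rw [pow_succ, sq, h2, one_mul] at hb3'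
    exact hb3'
  obtain ⟨e, he⟩ := exists_v9 hT.cardN (a := (⟨a, haN⟩ : N)) (b := ⟨b, hbN⟩)
    (Subtype.ext ha3) hb3 (Subtype.ext (comm_nine hT.cardN a haN b hbN))
    (inj_of_notMem (Subtype.ext ha3) (fun h => ha1' (congrArg Subtype.val h)) hb3 hnot)
  refine ⟨e, fun i j => ?_⟩
  rw [he, he, pow_neg_val hb3]
  show z * (a ^ i.val * b ^ j.val) * z⁻¹ = a ^ i.val * (b ^ j.val)⁻¹
  have h1 := haz' i.val
  have h2 := hbz' j.val
  rw [zpow_natCast] at h1 h2
  calc z * (a ^ i.val * b ^ j.val) * z⁻¹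
      = (z * a ^ i.val * z⁻¹) * (z * b ^ j.val * z⁻¹) := by group
    _ = a ^ i.val * (b ^ j.val)⁻¹ := by rw [h1, h2]

theorem iso_three (hT : Typ 9 2 N S z) (hT' : Typ 9 2 N' S' z')
    (hf : Fix3 N z) (hf' : Fix3 N' z') : Nonempty (G ≃* X) := by
  obtain ⟨e, he⟩ := v9_fix hT hf
  obtain ⟨e', he'⟩ := v9_fix hT' hf'
  apply iso_two hT hT' (e.symm.trans e')
  intro n n₁ hn
  obtain ⟨v, rfl⟩ := e.surjective n
  have h1 := he (Multiplicative.toAdd v).1 (Multiplicative.toAdd v).2
  have h2 : n₁ = e (Multiplicative.ofAdd ((Multiplicative.toAdd v).1, -(Multiplicative.toAdd v).2)) :=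
    Subtype.ext (hn.trans h1)
  rw [h2]
  show ((e' (e.symm (e _)) : N') : X) = z' * (e' (e.symm (e v)) : N') * z'⁻¹
  rw [e.symm_apply_apply, e.symm_apply_apply]
  exact (he' _ _).symm

theorem sq_of_gen {S : Type*} [Group S] (hS : Nat.card S = 4) {g z : S}
    (hgen : ∀ s : S, ∃ k : ℕ, s = g ^ k) (hz : z ≠ 1) (hz2 : z * z = 1) : z = g ^ 2 := by
  have hord : orderOf g = 4 := by
    rw [← hS]
    apply orderOf_eq_card_of_forall_mem_zpowers
    intro s
    obtain ⟨k, hk⟩ := hgen s
    exact ⟨k, by rw [hk]; exact zpow_natCast g k⟩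
  have hg4 : g ^ 4 = 1 := by
    rw [← hord]
    exact pow_orderOf_eq_one g
  obtain ⟨k, hk⟩ := hgen z
  rw [hk, ← pow_add] at hz2
  have h1 := orderOf_dvd_of_pow_eq_one hz2
  rw [hord] at h1
  have h2 : k % 4 = 0 ∨ k % 4 = 2 := by omega
  rw [pow_eq_pow_mod k hg4] at hk
  rcases h2 with h2 | h2
  · rw [h2, pow_zero] at hk
    exact absurd hk hz
  · rw [h2] at hk
    exact hk

theorem v9_quarter (hT : Typ 9 4 N S z) (hi : Inverts N z) {g : G} (hg : z = g ^ 2) :
    ∃ e : V9 ≃* N, ∀ i j : ZMod 3,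
      g * (e (Multiplicative.ofAdd (i, j)) : G) * g⁻¹ = e (Multiplicative.ofAdd (-j, i)) := by
  have hfin := hT.finite
  have hnor := hT.normal
  have : Fact (Nat.Prime 3) := ⟨Nat.prime_three⟩
  obtain ⟨⟨a, haN⟩, ha⟩ := exists_prime_orderOf_dvd_card' (G := N) 3 (by rw [hT.cardN]; decide)
  have ha3 : (⟨a, haN⟩ : N) ^ 3 = 1 := by
    rw [← ha]
    exact pow_orderOf_eq_one _
  have ha1 : (⟨a, haN⟩ : N) ≠ 1 := by
    intro h
    rw [h, orderOf_one] at ha
    exact absurd ha (by decide)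
  have ha3' : a ^ 3 = 1 := congrArg Subtype.val ha3
  have hbN : g * a * g⁻¹ ∈ N := hnor.conj_mem a haN g
  have hb3 : (g * a * g⁻¹) ^ 3 = 1 := by
    rw [conj_pow, ha3', mul_one, mul_inv_cancel]
  have hbg : g * (g * a * g⁻¹) * g⁻¹ = a⁻¹ := by
    rw [← hi a haN, hg, sq, mul_inv_rev]
    simp only [mul_assoc]
  have hnot : (⟨g * a * g⁻¹, hbN⟩ : N) ∉ Subgroup.zpowers (⟨a, haN⟩ : N) := by
    rintro ⟨k, hk⟩
    have hk' : a ^ k = g * a * g⁻¹ := by
      have := congrArg Subtype.val hk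
      simpa using this
    have h1 : g * a ^ k * g⁻¹ = a ^ (k * k) := by
      rw [← conj_zpow, ← hk', ← zpow_mul]
    rw [hk', hbg] at h1
    have h2 : a ^ (k * k + 1) = 1 := by
      rw [zpow_add_one, ← h1, inv_mul_cancel]
    have h3 : (⟨a, haN⟩ : N) ^ (k * k + 1) = 1 := by
      apply Subtype.ext
      simpa using h2
    rw [← orderOf_dvd_iff_zpow_eq_one, ha] at h3
    have h4 : k % 3 = 0 ∨ k % 3 = 1 ∨ k % 3 = 2 := by omega
    have h5 : (k * k + 1) % 3 = 0 := Int.emod_eq_zero_of_dvd (by exact_mod_cast h3)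
    rw [Int.add_emod, Int.mul_emod] at h5
    rcases h4 with h4 | h4 | h4 <;> rw [h4] at h5 <;> norm_num at h5
  obtain ⟨e, he⟩ := exists_v9 hT.cardN (a := (⟨a, haN⟩ : N)) (b := ⟨g * a * g⁻¹, hbN⟩)
    ha3 (Subtype.ext hb3) (Subtype.ext (comm_nine hT.cardN a haN _ hbN))
    (inj_of_notMem ha3 ha1 (Subtype.ext hb3) hnot)
  refine ⟨e, fun i j => ?_⟩
  rw [he, he, pow_neg_val ha3]
  show g * (a ^ i.val * (g * a * g⁻¹) ^ j.val) * g⁻¹ = (a ^ j.val)⁻¹ * (g * a * g⁻¹) ^ i.val
  have h1 : g * a ^ i.val * g⁻¹ = (g * a * g⁻¹) ^ i.val := (conj_pow).symm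
  have h2 : g * (g * a * g⁻¹) ^ j.val * g⁻¹ = (a ^ j.val)⁻¹ := by
    rw [← conj_pow, hbg, inv_pow]
  have h3 := comm_nine hT.cardN ((a ^ j.val)⁻¹) (inv_mem (pow_mem haN _))
    ((g * a * g⁻¹) ^ i.val) (pow_mem hbN _)
  rw [h3, ← h1, ← h2]
  group

theorem iso_four (hT : Typ 9 4 N S z) (hT' : Typ 9 4 N' S' z')
    (hi : Inverts N z) (hi' : Inverts N' z') : Nonempty (G ≃* X) := by
  have hfin := hT.finite
  have hfin' := hT'.finite
  have := hT.normal
  have := hT'.normal
  have := hT.cyc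
  have := hT'.cyc
  let eS : S ≃* S' := mulEquivOfCyclicCardEq (hT.cardS.trans hT'.cardS.symm)
  obtain ⟨g, hg⟩ := IsCyclic.exists_monoid_generator (α := S)
  have hgen : ∀ s : S, ∃ k : ℕ, s = g ^ k := fun s => by
    obtain ⟨k, hk⟩ := hg s
    exact ⟨k, hk.symm⟩
  have hgen' : ∀ s : S', ∃ k : ℕ, s = (eS g) ^ k := fun s => by
    obtain ⟨k, hk⟩ := hgen (eS.symm s)
    refine ⟨k, ?_⟩
    rw [← map_pow, ← hk, eS.apply_symm_apply]
  have hz := sq_of_gen (z := (⟨z, hT.mem⟩ : S)) hT.cardS hgen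
    (fun h => hT.ne (congrArg Subtype.val h)) (Subtype.ext hT.sq)
  have hz' := sq_of_gen (z := (⟨z', hT'.mem⟩ : S')) hT'.cardS hgen'
    (fun h => hT'.ne (congrArg Subtype.val h)) (Subtype.ext hT'.sq)
  obtain ⟨e, he⟩ := v9_quarter hT hi (g := (g : G)) (congrArg Subtype.val hz)
  obtain ⟨e', he'⟩ := v9_quarter hT' hi' (g := ((eS g : S') : X)) (congrArg Subtype.val hz')
  apply iso_of_gen N S hT.compl N' S' hT'.compl (e.symm.trans e') eS g hgen
  intro n n₁ hn
  obtain ⟨v, rfl⟩ := e.surjective n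
  have h1 := he (Multiplicative.toAdd v).1 (Multiplicative.toAdd v).2
  have h2 : n₁ = e (Multiplicative.ofAdd (-(Multiplicative.toAdd v).2, (Multiplicative.toAdd v).1)) :=
    Subtype.ext (hn.trans h1)
  rw [h2]
  show ((e' (e.symm (e _)) : N') : X) = (eS g : X) * (e' (e.symm (e v)) : N') * (eS g : X)⁻¹
  rw [e.symm_apply_apply, e.symm_apply_apply]
  exact (he' _ _).symm

end more


theorem neg9_inv (v : V9) : neg9 v = v⁻¹ := rfl

theorem quarter9_sq (v : V9) : quarter9 (quarter9 v) = v⁻¹ := rfl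

theorem orderOf_neg9 : orderOf neg9 = 2 := by
  apply orderOf_eq_prime
  · refine MulEquiv.ext fun v => ?_
    show neg9 (neg9 v) = v
    rw [neg9_inv, neg9_inv, inv_inv]
  · intro h
    have h1 : neg9 (Multiplicative.ofAdd ((1, 0) : ZMod 3 × ZMod 3)) =
      Multiplicative.ofAdd ((1, 0) : ZMod 3 × ZMod 3) := by rw [h]; rfl
    exact absurd h1 (by decide)

theorem orderOf_quarter9 : orderOf quarter9 = 4 := by
  have : Fact (Nat.Prime 2) := ⟨Nat.prime_two⟩
  apply orderOf_eq_prime_pow (p := 2) (n := 1)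
  · intro h
    have h1 : quarter9 (quarter9 (Multiplicative.ofAdd ((1, 0) : ZMod 3 × ZMod 3))) =
      Multiplicative.ofAdd ((1, 0) : ZMod 3 × ZMod 3) := by
      have h2 : (quarter9 ^ (2 ^ 1)) (Multiplicative.ofAdd ((1, 0) : ZMod 3 × ZMod 3)) =
        Multiplicative.ofAdd ((1, 0) : ZMod 3 × ZMod 3) := by rw [h]; rfl
      exact h2
    rw [quarter9_sq] at h1
    exact absurd h1 (by decide)
  · refine MulEquiv.ext fun v => ?_
    show quarter9 (quarter9 (quarter9 (quarter9 v))) = v
    rw [quarter9_sq, quarter9_sq, inv_inv]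

theorem std_neg9 :
    Typ 9 2 (SemidirectProduct.inl : V9 →* V9 ⋊[(Subgroup.zpowers neg9).subtype] _).range
      (SemidirectProduct.inr : _ →* V9 ⋊[(Subgroup.zpowers neg9).subtype] _).range
      (SemidirectProduct.inr ⟨neg9, Subgroup.mem_zpowers _⟩) ∧
    Inverts (SemidirectProduct.inl : V9 →* V9 ⋊[(Subgroup.zpowers neg9).subtype] _).range
      (SemidirectProduct.inr ⟨neg9, Subgroup.mem_zpowers _⟩) := by
  apply std_semi neg9 2 orderOf_neg9 (by decide) (by norm_num)
  · intro h
    have h1 : neg9 = 1 := congrArg Subtype.val h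
    have h2 := orderOf_neg9
    rw [h1, orderOf_one] at h2
    exact absurd h2 (by decide)
  · apply Subtype.ext
    have := pow_orderOf_eq_one neg9
    rw [orderOf_neg9, sq] at this
    exact this
  · exact neg9_inv

theorem std_neg9_exp :
    ∀ x ∈ (SemidirectProduct.inl : V9 →* V9 ⋊[(Subgroup.zpowers neg9).subtype] _).range,
      x ^ 3 = 1 := by
  rintro _ ⟨v, rfl⟩
  have h : v ^ 3 = 1 := by
    revert v
    decide
  rw [← map_pow, h, map_one]

theorem std_quarter9 :
    Typ 9 4 (SemidirectProduct.inl : V9 →* V9 ⋊[(Subgroup.zpowers quarter9).subtype] _).range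
      (SemidirectProduct.inr : _ →* V9 ⋊[(Subgroup.zpowers quarter9).subtype] _).range
      (SemidirectProduct.inr ⟨quarter9 ^ 2, Subgroup.npow_mem_zpowers _ _⟩) ∧
    Inverts (SemidirectProduct.inl : V9 →* V9 ⋊[(Subgroup.zpowers quarter9).subtype] _).range
      (SemidirectProduct.inr ⟨quarter9 ^ 2, Subgroup.npow_mem_zpowers _ _⟩) := by
  apply std_semi quarter9 4 orderOf_quarter9 (by decide) (by norm_num)
  · intro h
    have h1 : quarter9 ^ 2 = 1 := congrArg Subtype.val h
    have h2 := orderOf_dvd_of_pow_eq_one h1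
    rw [orderOf_quarter9] at h2
    exact absurd h2 (by decide)
  · apply Subtype.ext
    have := pow_orderOf_eq_one quarter9
    rw [orderOf_quarter9] at this
    show quarter9 ^ 2 * quarter9 ^ 2 = 1
    rw [← pow_add]
    exact this
  · exact quarter9_sq

end RZ

theorem exceptional_of_excR {G : Type u} [Group G] [Finite G] (N S : Subgroup G) [N.Normal]
    (hc : Subgroup.IsComplement' N S) (hN : Odd (Nat.card N)) (z : S)
    (hz : TwoCyc z) (hf : ∀ s ∈ S, (∀ n ∈ N, s * n * s⁻¹ = n) → s = 1)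
    (h : letI := conjAct S N; ExcR N z) : Exceptional G := by
  have mk : ∀ m : ℕ, Nat.card S = m → Nat.Coprime (Nat.card N) m →
      RZ.Typ (Nat.card N) m N S (z : G) := by
    intro m hm hcop
    exact
      { normal := inferInstance
        cardG := by rw [← hm]; exact hc.card_mul_card.symm
        cardN := rfl
        cardS := hm
        cyc := hz.cyclic
        mem := z.2
        ne := fun h => hz.ne_one (Subtype.ext h)
        sq := congrArg Subtype.val hz.sq
        cop := hcop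
        pos := by
          rw [← hm]
          exact Nat.mul_pos Nat.card_pos Nat.card_pos }
  have hfx := RZ.fix_card (N := N) z
  have hsm : ∀ x : N, ((letI := conjAct S N; (z • x : N)) : G) = z * x * (z : G)⁻¹ := fun _ => rfl
  let _ := conjAct S N
  rcases h with ⟨hS, hi, hN5 | hN7⟩ | ⟨hS, hi, hN9, he⟩ | ⟨hS, hN9, hf3⟩ | ⟨hS, hi, hN9⟩
  · have hT := mk 2 hS (by rw [hN5]; decide)
    rw [hN5] at hT
    obtain ⟨hX, hXi⟩ := RZ.std_dihedral 5 (by decide)
    exact Or.inl (RZ.iso_one (by norm_num) hT hX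
      (fun x hx => congrArg Subtype.val (hi ⟨x, hx⟩)) hXi)
  · have hT := mk 2 hS (by rw [hN7]; decide)
    rw [hN7] at hT
    obtain ⟨hX, hXi⟩ := RZ.std_dihedral 7 (by decide)
    exact Or.inr (Or.inl (RZ.iso_one (by norm_num) hT hX
      (fun x hx => congrArg Subtype.val (hi ⟨x, hx⟩)) hXi))
  · have hT := mk 2 hS (by rw [hN9]; decide)
    rw [hN9] at hT
    obtain ⟨hX, hXi⟩ := RZ.std_neg9
    exact Or.inr (Or.inr (Or.inr (Or.inl (RZ.iso_exp hT hX
      (fun x hx => congrArg Subtype.val (hi ⟨x, hx⟩)) hXi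
      (fun x hx => congrArg Subtype.val (he ⟨x, hx⟩)) RZ.std_neg9_exp))))
  · have hT := mk 2 hS (by rw [hN9]; decide)
    rw [hN9] at hT
    obtain ⟨hX, hXf⟩ := RZ.std_prod
    exact Or.inr (Or.inr (Or.inl (RZ.iso_three hT hX (hfx.symm.trans hf3) hXf)))
  · have hT := mk 4 hS (by rw [hN9]; decide)
    rw [hN9] at hT
    obtain ⟨hX, hXi⟩ := RZ.std_quarter9
    exact Or.inr (Or.inr (Or.inr (Or.inr (RZ.iso_four hT hX
      (fun x hx => congrArg Subtype.val (hi ⟨x, hx⟩)) hXi))))

theorem no_rep_of_exceptional {G : Type u} [Group G] [Finite G] (h : Exceptional G) :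
    ¬ HasTransitiveRep G := by
  rcases h with ⟨⟨e⟩⟩ | ⟨⟨e⟩⟩ | ⟨⟨e⟩⟩ | ⟨⟨e⟩⟩ | ⟨⟨e⟩⟩
  · obtain ⟨hX, hXi⟩ := RZ.std_dihedral 5 (by decide)
    exact RZ.neg_one (Or.inl rfl) (hX.map e.symm) (hXi.map e.symm)
  · obtain ⟨hX, hXi⟩ := RZ.std_dihedral 7 (by decide)
    exact RZ.neg_one (Or.inr rfl) (hX.map e.symm) (hXi.map e.symm)
  · obtain ⟨hX, hXf⟩ := RZ.std_prod
    exact RZ.neg_three (hX.map e.symm) (hXf.map e.symm)
  · obtain ⟨hX, hXi⟩ := RZ.std_neg9
    exact RZ.neg_two (hX.map e.symm) (hXi.map e.symm) (RZ.exp_map RZ.std_neg9_exp e.symm)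
  · obtain ⟨hX, hXi⟩ := RZ.std_quarter9
    exact RZ.neg_four (hX.map e.symm) (hXi.map e.symm)

end Pool.Agent.Lib_MP_8306f4_co.CaseB
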