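import Pool.Agent.Lib_MP_8306f4_co.CaseB.RepMain
import Pool.Agent.Lib_MP_8306f4_co.CaseB.RZ
import Pool.Agent.Lib_MP_8306f4_co.Main

/-!
# The classification
-/

universe u v w

namespace Pool.Agent.Lib_MP_8306f4_co.CaseB

open Pool.Agent.Lib_MP_8306f4_co

/-- The positive direction for solvable groups with nontrivial cyclic Sylow 2-subgroups. -/
theorem rep_of_solvable {G : Type u} [Group G] [Finite G] [Group.IsSolvable G] (S : Sylow 2 G)
    (hS : IsCyclic S) (hS1 : Nat.card S ≠ 1) (hZ : Odd (Nat.card (Subgroup.center G)))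
    (hE : ¬ Exceptional G) : HasTransitiveRep G := by
  have h2dvd : 2 ∣ Nat.card S := by
    obtain ⟨a, ha⟩ := IsPGroup.iff_card.mp S.isPGroup'
    rcases Nat.eq_zero_or_pos a with h | h
    · exact absurd (by rw [ha, h, pow_zero]) hS1
    · rw [ha]
      exact dvd_pow_self 2 (by omega)
  have h2G : 2 ∣ Nat.card G := h2dvd.trans (Subgroup.card_subgroup_dvd_card _)
  have hmin : (Nat.card G).minFac = 2 := (Nat.minFac_eq_two_iff _).2 h2G
  have : Fact (Nat.Prime 2) := ⟨Nat.prime_two⟩
  have hcyc : IsCyclic (S : Subgroup G) := hS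
  let N : Subgroup G := (MonoidHom.transferSylow S (hS.normalizer_le_centralizer hmin)).ker
  have hNn : N.Normal := MonoidHom.normal_ker _
  have hc : Subgroup.IsComplement' N (S : Subgroup G) :=
    MonoidHom.ker_transferSylow_isComplement' S (hS.normalizer_le_centralizer hmin)
  have hNo : Odd (Nat.card N) := by
    have h1 : ¬ 2 ∣ (S : Subgroup G).index := S.not_dvd_index
    rw [hc.index_eq_card] at h1
    rw [← Nat.not_even_iff_odd, even_iff_two_dvd]
    exact h1
  obtain ⟨z, hz⟩ := exists_prime_orderOf_dvd_card' 2 h2dvd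
  have hTC : TwoCyc (z : (S : Subgroup G)) := by
    refine ⟨inferInstance, S.isPGroup', hS, ?_, ?_⟩
    · intro h
      rw [h, orderOf_one] at hz
      omega
    · have h := pow_orderOf_eq_one z
      rw [hz, sq] at h
      exact h
  have hf : ∀ s ∈ (S : Subgroup G), (∀ n ∈ N, s * n * s⁻¹ = n) → s = 1 := by
    intro s hs hn
    have hsc : s ∈ Subgroup.center G := by
      rw [Subgroup.mem_center_iff]
      intro g
      obtain ⟨⟨n, t⟩, hnt⟩ := hc.2 g
      simp only at hnt
      rw [← hnt]
      have h1 : s * (n : G) = n * s := by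
        have := hn n n.2
        rw [mul_inv_eq_iff_eq_mul] at this
        exact this
      have h2 : (t : G) * s = s * t := by
        have := hTC.comm t ⟨s, hs⟩
        exact congrArg Subtype.val this
      rw [mul_assoc, h2, ← mul_assoc, ← h1, mul_assoc]
    have h3 : orderOf s ∣ Nat.card (Subgroup.center G) := Subgroup.orderOf_dvd_natCard _ hsc
    obtain ⟨k, hk⟩ := S.isPGroup' ⟨s, hs⟩
    have h4 : orderOf s ∣ 2 ^ k := by
      apply orderOf_dvd_of_pow_eq_one
      exact congrArg Subtype.val hk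
    have h5 : Nat.Coprime (2 ^ k) (Nat.card (Subgroup.center G)) :=
      Nat.Coprime.pow_left k (Nat.coprime_two_left.2 hZ)
    have h6 : orderOf s ∣ 1 := by
      rw [← h5]
      exact Nat.dvd_gcd h4 h3
    exact orderOf_eq_one_iff.1 (Nat.dvd_one.1 h6)
  let _ := conjAct (S : Subgroup G) N
  have hact : ∀ (s : (S : Subgroup G)) (n : N), ((s • n : N) : G) = s * n * (s : G)⁻¹ :=
    fun s n => rfl
  have hx : ∃ x : N, (z : (S : Subgroup G)) • x ≠ x := by
    by_contra hcon
    push Not at hcon
    apply hTC.ne_one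
    apply Subtype.ext
    refine hf z z.2 ?_
    intro n hn
    have := congrArg Subtype.val (hcon ⟨n, hn⟩)
    rwa [hact] at this
  rcases rep_main hTC hNo hx with h | h
  · exact rep_of_good N S hc hf h
  · exact absurd (exceptional_of_excR N S hc hNo z hTC hf h) hE

/-- `(Q, op)` is a quasigroup: the equations `a · x = b` and `y · a = b` are uniquely solvable. -/
def IsQuasigroup' {Q : Type u} (op : Q → Q → Q) : Prop :=
  Nonempty Q ∧ (∀ a b : Q, ∃! x : Q, op a x = b) ∧ (∀ a b : Q, ∃! y : Q, op y a = b)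

/-- `(Q, op)` is a transitive representation of `G`: it is a quasigroup, its automorphism group is
isomorphic to `G`, and acts transitively on `Q`. -/
def IsTransitiveRep (G : Type u) [Group G] {Q : Type u} (op : Q → Q → Q) : Prop :=
  IsQuasigroup' op ∧ Nonempty (autGroup op ≃* G) ∧ ∀ x y : Q, ∃ σ ∈ autGroup op, σ x = y

lemma hasTransitiveRep_iff (G : Type u) [Group G] :
    HasTransitiveRep G ↔ ∃ (Q : Type u) (op : Q → Q → Q), IsTransitiveRep G op := by
  constructor
  · rintro ⟨Q, op, h1, h2, h3, h4⟩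
    refine ⟨Q, op, ⟨h1, ?_, ?_⟩, h3, h4⟩
    · intro a b
      exact (Function.bijective_iff_existsUnique _).1 (h2.1 a) b
    · intro a b
      exact (Function.bijective_iff_existsUnique _).1 (h2.2 a) b
  · rintro ⟨Q, op, ⟨h1, h2, h2'⟩, h3, h4⟩
    refine ⟨Q, op, h1, ⟨?_, ?_⟩, h3, h4⟩
    · intro a
      exact (Function.bijective_iff_existsUnique _).2 (h2 a)
    · intro a
      exact (Function.bijective_iff_existsUnique _).2 (h2' a)

/-- The center has odd order. -/
theorem odd_center {G : Type u} [Group G] [Finite G] (h : HasTransitiveRep G) (S : Sylow 2 G)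
    (hS : IsCyclic S) : Odd (Nat.card (Subgroup.center G)) := by
  by_contra hodd
  rw [Nat.not_odd_iff_even] at hodd
  have : Fact (Nat.Prime 2) := ⟨Nat.prime_two⟩
  obtain ⟨⟨z, hz⟩, hz2⟩ := exists_prime_orderOf_dvd_card' 2 hodd.two_dvd
  rw [← Subgroup.orderOf_coe] at hz2
  refine MP8306f4.not_admitsTransitive_of_central S hS z hz hz2 ?_
  obtain ⟨Q, op, ⟨h1, h2, h2'⟩, h3, h4⟩ := (hasTransitiveRep_iff G).1 h
  exact ⟨Q, op, ⟨h1, h2, h2'⟩, h3, h4⟩

theorem hasTransitiveRep_of_regular {G : Type u} [Group G] (h : HasRegularRep G) :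
    HasTransitiveRep G := by
  obtain ⟨Q, op, h1, h2, h3, h4, _⟩ := h
  exact ⟨Q, op, h1, h2, h3, h4⟩

theorem hasTransitiveRep_of_admitsRegular {G : Type u} [Group G] (h : MP8306f4.AdmitsRegular G) :
    HasTransitiveRep G := by
  obtain ⟨Q, op, ⟨h1, h2, h2'⟩, h3, h4, _⟩ := h
  exact (hasTransitiveRep_iff G).2 ⟨Q, op, ⟨h1, h2, h2'⟩, h3, h4⟩

/-- The necessary condition, for all finite groups. -/
theorem condition_of_rep {G : Type u} [Group G] [Finite G] (h : HasTransitiveRep G) :
    (∀ S : Sylow 2 G, ¬ IsCyclic S) ∨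
      (Odd (Nat.card (Subgroup.center G)) ∧ ¬ Exceptional G) := by
  obtain ⟨S⟩ : Nonempty (Sylow 2 G) := inferInstance
  by_cases hS : IsCyclic S
  · exact Or.inr ⟨odd_center h S hS, fun hE => no_rep_of_exceptional hE h⟩
  · left
    intro S' hS'
    apply hS
    exact isCyclic_of_surjective (Sylow.equiv S' S) (Sylow.equiv S' S).surjective

/-- The classification. -/
theorem classification {G : Type u} [Group G] [Finite G]
    (hG : Group.IsSolvable G ∨
      ∃ θ : G → G, Function.Bijective θ ∧ Function.Bijective (fun x => x * θ x)) :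
    HasTransitiveRep G ↔ (∀ S : Sylow 2 G, ¬ IsCyclic S) ∨
      (Odd (Nat.card (Subgroup.center G)) ∧ ¬ Exceptional G) := by
  obtain ⟨S⟩ : Nonempty (Sylow 2 G) := inferInstance
  constructor
  · exact condition_of_rep
  · intro h
    rcases hG with hs | hθ
    · by_cases hS : IsCyclic S ∧ Nat.card S ≠ 1
      · rcases h with h | ⟨h1, h2⟩
        · exact absurd hS.1 (h S)
        · exact rep_of_solvable S hS.1 hS.2 h1 h2
      · obtain ⟨K, hK, hKS⟩ := MP8306f4.exists_odd_complement S
        refine hasTransitiveRep_of_admitsRegular (MP8306f4.admitsRegular_of_rigid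
          (MP8306f4.rigid_of_complement S K hK hKS ?_))
        intro hc
        by_contra h1
        exact hS ⟨hc, h1⟩
    · exact hasTransitiveRep_of_regular
        (hasRegularRep_iff.2 (exists_orth_iff_complete.2 hθ))

end Pool.Agent.Lib_MP_8306f4_co.CaseB
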