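import Pool.Agent.Lib_MP_8306f4_co.CaseB.Defs

/-!
# MP_8306f4_co, case B, piece GFit

Notation. x·y = qop f x y = x f(x⁻¹y) on N; lambda_m: y -> m y is always an automorphism of it
(f commutes with nothing needed). 1·y = f(y). If Equi P f, then y -> p•y is an automorphism.
core(A): a∘b = 2b-a. For every x: y -> x·y is bijective (f bijective), for every y: x -> x·y is
bijective (x⁻¹f(x) bijective). '2 is invertible': all groups N have odd order.

## G4 (GFit.lean): exists_fitting: L = product of the O_s(N) (or a maximal nilpotent normal P-invariant subgroup).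
C=C_N(L); if C not ≤ L take D/Z(L) = last nontrivial derived subgroup of C/Z(L): L D is nilpotent normal P-invariant.
normal_inf_center, central_of_prime (Sylow subgroup of a nilpotent group is normal).
-/

universe u v w

namespace Pool.Agent.Lib_MP_8306f4_co.CaseB

open Pool.Agent.Lib_MP_8306f4_co

namespace GFit

/-- The intersection of the Sylow `s`-subgroups. -/
def O (s : ℕ) (N : Type u) [Group N] : Subgroup N := ⨅ Q : Sylow s N, (Q : Subgroup N)

theorem O_pgroup (s : ℕ) (N : Type u) [Group N] : IsPGroup s (O s N) := by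
  obtain ⟨Q⟩ : Nonempty (Sylow s N) := inferInstance
  exact Q.isPGroup'.to_le (iInf_le _ Q)

theorem O_smul {s : ℕ} {N : Type u} [Group N] {α : Type v} [Group α] [MulDistribMulAction α N]
    (a : α) {x : N} (hx : x ∈ O s N) : a • x ∈ O s N := by
  rw [O, Subgroup.mem_iInf] at hx ⊢
  intro Q
  have h1 := hx (a⁻¹ • Q)
  rw [Sylow.pointwise_smul_def, Subgroup.mem_inv_pointwise_smul_iff] at h1
  exact h1

instance O_normal (s : ℕ) (N : Type u) [Group N] : (O s N).Normal := by
  constructor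
  intro x hx g
  have h1 := O_smul (MulAut.conj g) hx
  rw [MulAut.smul_def, MulAut.conj_apply] at h1
  exact h1

theorem le_O {s : ℕ} [Fact s.Prime] {N : Type u} [Group N] [Finite N] {H : Subgroup N}
    (hn : H.Normal) (hH : IsPGroup s H) : H ≤ O s N := by
  obtain ⟨Q0, hQ0⟩ := hH.exists_le_sylow
  rw [O, le_iInf_iff]
  intro Q
  obtain ⟨g, rfl⟩ := MulAction.exists_smul_eq N Q0 Q
  intro x hx
  have h1 : g⁻¹ * x * g ∈ H := by
    have := hn.conj_mem x hx g⁻¹
    rwa [inv_inv] at this
  have h2 := hQ0 h1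
  rw [Sylow.smul_def, Sylow.pointwise_smul_def, Subgroup.mem_pointwise_smul_iff_inv_smul_mem]
  rw [← map_inv, MulAut.smul_def, MulAut.conj_apply, inv_inv]
  exact h2

/-- The Fitting subgroup. -/
def Fit (N : Type u) [Group N] : Subgroup N := ⨆ s : (Nat.card N).primeFactors, O (s : ℕ) N

theorem fit_nilpotent (N : Type u) [Group N] [Finite N] : Group.IsNilpotent (Fit N) := by
  classical
  have hcomm : Pairwise fun i j : (Nat.card N).primeFactors =>
      ∀ x y : N, x ∈ O (i : ℕ) N → y ∈ O (j : ℕ) N → Commute x y := by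
    intro i j hij x y hx hy
    have hi : Fact (i : ℕ).Prime := ⟨Nat.prime_of_mem_primeFactors i.2⟩
    have hj : Fact (j : ℕ).Prime := ⟨Nat.prime_of_mem_primeFactors j.2⟩
    exact Subgroup.commute_of_normal_of_disjoint _ _ (O_normal _ _) (O_normal _ _)
      (IsPGroup.disjoint_of_ne _ _ (fun h => hij (Subtype.ext h)) _ _ (O_pgroup _ _)
        (O_pgroup _ _)) x y hx hy
  have hnil : ∀ i : (Nat.card N).primeFactors, Group.IsNilpotent (O (i : ℕ) N) := by
    intro i
    have hi : Fact (i : ℕ).Prime := ⟨Nat.prime_of_mem_primeFactors i.2⟩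
    exact (O_pgroup _ _).isNilpotent
  have h1 : (Subgroup.noncommPiCoprod hcomm).range = Fit N := Subgroup.noncommPiCoprod_range
  rw [← h1]
  exact Group.nilpotent_of_surjective _ (Subgroup.noncommPiCoprod hcomm).rangeRestrict_surjective

theorem fit_smul {N : Type u} [Group N] {α : Type v} [Group α] [MulDistribMulAction α N]
    (a : α) {x : N} (hx : x ∈ Fit N) : a • x ∈ Fit N := by
  have h1 : Fit N ≤ (Fit N).comap (MulDistribMulAction.toMonoidHom N a) := by
    rw [Fit, iSup_le_iff]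
    intro s y hy
    rw [Subgroup.mem_comap]
    exact Subgroup.mem_iSup_of_mem s (O_smul a hy)
  exact h1 hx

theorem fit_normal (N : Type u) [Group N] : (Fit N).Normal := by
  constructor
  intro x hx g
  have h1 := fit_smul (MulAut.conj g) hx
  rw [MulAut.smul_def, MulAut.conj_apply] at h1
  exact h1

theorem le_fit {s : ℕ} (hs : s.Prime) {N : Type u} [Group N] [Finite N] {H : Subgroup N}
    (hn : H.Normal) (hH : IsPGroup s H) : H ≤ Fit N := by
  have : Fact s.Prime := ⟨hs⟩
  by_cases hd : s ∣ Nat.card N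
  · have h1 : s ∈ (Nat.card N).primeFactors := by
      rw [Nat.mem_primeFactors]
      exact ⟨hs, hd, Nat.card_pos.ne'⟩
    exact (le_O hn hH).trans (le_iSup (fun s : (Nat.card N).primeFactors => O (s : ℕ) N) ⟨s, h1⟩)
  · have h1 : H = ⊥ := by
      rw [← Subgroup.card_eq_one]
      obtain ⟨k, hk⟩ := IsPGroup.iff_card.1 hH
      rcases Nat.eq_zero_or_pos k with rfl | hk0
      · rw [hk, pow_zero]
      · exfalso
        apply hd
        have h2 := Subgroup.card_subgroup_dvd_card H
        rw [hk] at h2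
        exact (dvd_pow_self s hk0.ne').trans h2
    rw [h1]
    exact bot_le

/-- A subgroup which contains a Sylow subgroup for all primes is everything. -/
theorem eq_top_of_sylow {D : Type u} [Group D] [Finite D] (K : Subgroup D)
    (h : ∀ s : ℕ, s.Prime → ∃ Q : Sylow s D, (Q : Subgroup D) ≤ K) : K = ⊤ := by
  apply Subgroup.eq_top_of_card_eq
  apply Nat.dvd_antisymm (Subgroup.card_subgroup_dvd_card K)
  rw [Nat.dvd_iff_prime_pow_dvd_dvd]
  intro s k hs hk
  have : Fact s.Prime := ⟨hs⟩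
  obtain ⟨Q, hQ⟩ := h s hs
  have h1 : s ^ k ∣ Nat.card Q := by
    rw [Q.card_eq_multiplicity]
    apply pow_dvd_pow
    exact (hs.pow_dvd_iff_le_factorization Nat.card_pos.ne').1 hk
  exact h1.trans (Subgroup.card_dvd_of_le hQ)

theorem le_fit_of_nilpotent {N : Type u} [Group N] [Finite N] (D : Subgroup N) [D.Normal]
    (hD : Group.IsNilpotent D) : D ≤ Fit N := by
  have h1 : (Fit N).subgroupOf D = ⊤ := by
    apply eq_top_of_sylow
    intro s hs
    have : Fact s.Prime := ⟨hs⟩
    obtain ⟨Q⟩ : Nonempty (Sylow s D) := inferInstance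
    refine ⟨Q, ?_⟩
    have hQn : (Q : Subgroup D).Normal := inferInstance
    have hQc : (Q : Subgroup D).Characteristic := Q.characteristic_of_normal hQn
    have h2 : ((Q : Subgroup D).map D.subtype).Normal := inferInstance
    have h3 := le_fit hs h2 (Q.isPGroup'.map D.subtype)
    intro x hx
    rw [Subgroup.mem_subgroupOf]
    exact h3 (Subgroup.mem_map_of_mem D.subtype hx)
  exact Subgroup.subgroupOf_eq_top.1 h1

/-- A subgroup `D` with `[[D, D], D] = 1` is nilpotent. -/
theorem nilpotent_of_comm {N : Type u} [Group N] (D : Subgroup N)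
    (h : ∀ x ∈ D, ∀ y ∈ D, ∀ z ∈ D, x * y * x⁻¹ * y⁻¹ * z = z * (x * y * x⁻¹ * y⁻¹)) :
    Group.IsNilpotent D := by
  apply Group.of_quotient_center_nilpotent
  have h1 : ∀ a b : D ⧸ Subgroup.center D, a * b = b * a := by
    intro a b
    obtain ⟨x, rfl⟩ := QuotientGroup.mk_surjective a
    obtain ⟨y, rfl⟩ := QuotientGroup.mk_surjective b
    rw [← QuotientGroup.mk_mul, ← QuotientGroup.mk_mul, QuotientGroup.eq,
      Subgroup.mem_center_iff]
    intro z
    have h2 := h (y : N)⁻¹ (D.inv_mem y.2) (x : N)⁻¹ (D.inv_mem x.2) z z.2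
    rw [inv_inv, inv_inv] at h2
    apply Subtype.ext
    show (z : N) * ((x * y : N)⁻¹ * (y * x)) = (x * y : N)⁻¹ * (y * x) * z
    rw [mul_inv_rev, ← mul_assoc ((y : N)⁻¹ * (x : N)⁻¹)]
    exact h2.symm
  let _ : CommGroup (D ⧸ Subgroup.center D) := { mul_comm := h1 }
  exact CommGroup.isNilpotent

/-- the derived series of a subgroup -/
def ds {N : Type u} [Group N] (C : Subgroup N) : ℕ → Subgroup N
  | 0 => C
  | n + 1 => ⁅ds C n, ds C n⁆

theorem ds_normal {N : Type u} [Group N] (C : Subgroup N) [C.Normal] (n : ℕ) :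
    (ds C n).Normal := by
  induction n with
  | zero => exact (inferInstance : C.Normal)
  | succ n ih =>
    show (⁅ds C n, ds C n⁆).Normal
    infer_instance

theorem ds_le {N : Type u} [Group N] (C : Subgroup N) (n : ℕ) :
    ds C n ≤ derivedSeries N n := by
  induction n with
  | zero => exact le_top
  | succ n ih => exact Subgroup.commutator_mono ih ih

theorem ds_anti {N : Type u} [Group N] (C : Subgroup N) (n : ℕ) : ds C n ≤ C := by
  induction n with
  | zero => exact le_rfl
  | succ n ih =>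
    show ⁅ds C n, ds C n⁆ ≤ C
    exact (Subgroup.commutator_mono ih ih).trans (Subgroup.commutator_le_self C)

theorem centralizer_le {N : Type u} [Group N] [Finite N] [Group.IsSolvable N] :
    Subgroup.centralizer (Fit N : Set N) ≤ Fit N := by
  have hn := fit_normal N
  set C := Subgroup.centralizer (Fit N : Set N) with hC
  by_contra hcon
  obtain ⟨m, hm⟩ := (Group.IsSolvable.solvable : ∃ n : ℕ, derivedSeries N n = ⊥)
  have hex : ∃ n, ds C n ≤ Fit N := ⟨m, (ds_le C m).trans (by rw [hm]; exact bot_le)⟩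
  classical
  obtain ⟨n, hn1, hn2⟩ : ∃ n, ¬ ds C n ≤ Fit N ∧ ds C (n + 1) ≤ Fit N := by
    have h1 := Nat.find_spec hex
    have h2 : Nat.find hex ≠ 0 := by
      intro h0
      rw [h0] at h1
      exact hcon h1
    obtain ⟨n, hn⟩ := Nat.exists_eq_succ_of_ne_zero h2
    refine ⟨n, Nat.find_min hex (by omega), ?_⟩
    rw [hn] at h1
    exact h1
  apply hn1
  have hnormC : C.Normal := by
    rw [hC]
    infer_instance
  have hnorm := ds_normal C n
  apply le_fit_of_nilpotent
  apply nilpotent_of_comm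
  intro x hx y hy z hz
  have h1 : x * y * x⁻¹ * y⁻¹ ∈ ds C (n + 1) := Subgroup.commutator_mem_commutator hx hy
  have h2 := ds_anti C n hz
  rw [hC, Subgroup.mem_centralizer_iff] at h2
  exact h2 _ (hn2 h1)

end GFit

section
variable {P : Type v} [Group P] {N : Type u} [Group N] [Finite N] [MulDistribMulAction P N]

/-- A maximal nilpotent normal `P`-invariant subgroup. -/
theorem exists_fitting [Group.IsSolvable N] :
    ∃ L : Subgroup N, L.Normal ∧ PInv P L ∧ Group.IsNilpotent L ∧
      (∀ n : N, (∀ l ∈ L, n * l = l * n) → n ∈ L) ∧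
      (∀ (s : ℕ), s.Prime → ∀ H : Subgroup N, H.Normal → PInv P H → IsPGroup s H → H ≤ L) := by
  refine ⟨GFit.Fit N, GFit.fit_normal N, fun p x hx => GFit.fit_smul p hx, GFit.fit_nilpotent N,
    fun n hn => GFit.centralizer_le ?_, fun s hs H hH _ hp => GFit.le_fit hs hH hp⟩
  rw [Subgroup.mem_centralizer_iff]
  intro l hl
  exact (hn l hl).symm

end

/-- A nontrivial normal subgroup of a nilpotent group meets the center. -/
theorem normal_inf_center {G : Type u} [Group G] [Group.IsNilpotent G] (H : Subgroup G)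
    [H.Normal] (hH : H ≠ ⊥) : H ⊓ Subgroup.center G ≠ ⊥ := by
  classical
  obtain ⟨m, hm⟩ := Group.IsNilpotent.nilpotent G
  have hex : ∃ n, H ⊓ Subgroup.upperCentralSeries G n ≠ ⊥ := ⟨m, by rw [hm, inf_top_eq]; exact hH⟩
  have h1 := Nat.find_spec hex
  have h2 : Nat.find hex ≠ 0 := by
    intro h0
    rw [h0, Subgroup.upperCentralSeries_zero, inf_bot_eq] at h1
    exact h1 rfl
  obtain ⟨n, hn⟩ := Nat.exists_eq_succ_of_ne_zero h2
  have h3 : H ⊓ Subgroup.upperCentralSeries G n = ⊥ := by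
    have := Nat.find_min hex (m := n) (by omega)
    exact not_not.1 this
  rw [hn] at h1
  intro hbot
  apply h1
  rw [eq_bot_iff]
  intro x hx
  rw [← hbot]
  obtain ⟨hx1, hx2⟩ := Subgroup.mem_inf.1 hx
  refine Subgroup.mem_inf.2 ⟨hx1, ?_⟩
  rw [Subgroup.mem_center_iff]
  intro g
  have h4 : x * g * x⁻¹ * g⁻¹ ∈ Subgroup.upperCentralSeries G n :=
    (Subgroup.mem_upperCentralSeries_succ_iff).1 hx2 g
  have h5 : x * g * x⁻¹ * g⁻¹ ∈ H := by
    have := (inferInstance : H.Normal).conj_mem x⁻¹ (H.inv_mem hx1) g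
    have h6 := H.mul_mem hx1 this
    rwa [← mul_assoc, ← mul_assoc] at h6
  have h6 : x * g * x⁻¹ * g⁻¹ = 1 := by
    have : x * g * x⁻¹ * g⁻¹ ∈ H ⊓ Subgroup.upperCentralSeries G n := ⟨h5, h4⟩
    rw [h3] at this
    exact this
  have h7 : x * g * x⁻¹ = g := mul_inv_eq_one.1 h6
  exact (mul_inv_eq_iff_eq_mul.1 h7).symm

theorem central_of_prime {G : Type u} [Group G] [Finite G] [Group.IsNilpotent G] {s : ℕ}
    (hs : s.Prime) (hd : s ∣ Nat.card G) : ∃ x ∈ Subgroup.center G, x ^ s = 1 ∧ x ≠ 1 := by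
  have : Fact s.Prime := ⟨hs⟩
  obtain ⟨Q⟩ : Nonempty (Sylow s G) := inferInstance
  have hQn : (Q : Subgroup G).Normal := inferInstance
  have hQ : (Q : Subgroup G) ≠ ⊥ := Q.ne_bot_of_dvd_card hd
  have h1 := normal_inf_center (Q : Subgroup G) hQ
  obtain ⟨x, hx⟩ := Subgroup.ne_bot_iff_exists_ne_one.1 h1
  obtain ⟨hxQ, hxc⟩ := Subgroup.mem_inf.1 x.2
  have hx1 : (x : G) ≠ 1 := fun h => hx (Subtype.ext h)
  obtain ⟨k, hk⟩ := Q.isPGroup' ⟨x, hxQ⟩
  have hk' : (x : G) ^ s ^ k = 1 := congrArg Subtype.val hk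
  classical
  have hex : ∃ k, (x : G) ^ s ^ k = 1 := ⟨k, hk'⟩
  have h2 := Nat.find_spec hex
  have h3 : Nat.find hex ≠ 0 := by
    intro h0
    rw [h0, pow_zero, pow_one] at h2
    exact hx1 h2
  obtain ⟨n, hn⟩ := Nat.exists_eq_succ_of_ne_zero h3
  refine ⟨(x : G) ^ s ^ n, Subgroup.pow_mem _ hxc _, ?_, Nat.find_min hex (by omega)⟩
  rw [← pow_mul, ← pow_succ]
  rw [hn] at h2
  exact h2

end Pool.Agent.Lib_MP_8306f4_co.CaseB
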