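import Pool.Agent.Lib_MP_8306f4_co.CaseB.Defs

/-!
# MP_8306f4_co, case B, piece GPmin

Notation. x·y = qop f x y = x f(x⁻¹y) on N; lambda_m: y -> m y is always an automorphism of it
(f commutes with nothing needed). 1·y = f(y). If Equi P f, then y -> p•y is an automorphism.
core(A): a∘b = 2b-a. For every x: y -> x·y is bijective (f bijective), for every y: x -> x·y is
bijective (x⁻¹f(x) bijective). '2 is invertible': all groups N have odd order.

## G5 (GPmin.lean).
-/

universe u v w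

namespace Pool.Agent.Lib_MP_8306f4_co.CaseB

open Pool.Agent.Lib_MP_8306f4_co

section
variable {P : Type v} [Group P] {N : Type u} [Group N] [Finite N] [MulDistribMulAction P N]

/-- A minimal `P`-invariant subgroup of the center. -/
theorem exists_pmin_le (H : Subgroup N) (hH : H ≠ ⊥) (hHi : PInv P H) :
    ∃ K : Subgroup N, K ≤ H ∧ PMin P K := by
  classical
  have hex : ∃ n : ℕ, ∃ K : Subgroup N, K ≤ H ∧ K ≠ ⊥ ∧ PInv P K ∧ Nat.card K = n :=
    ⟨Nat.card H, H, le_rfl, hH, hHi, rfl⟩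
  obtain ⟨K, hKH, hK0, hKi, hKc⟩ := Nat.find_spec hex
  refine ⟨K, hKH, hK0, hKi, fun H' hH'i hH'K => ?_⟩
  by_cases h0 : H' = ⊥
  · exact Or.inl h0
  · right
    have h1 : Nat.find hex ≤ Nat.card H' :=
      Nat.find_min' hex ⟨H', hH'K.trans hKH, h0, hH'i, rfl⟩
    exact Subgroup.eq_of_le_of_card_ge hH'K (by rw [hKc]; exact h1)

/-- A minimal `P`-invariant subgroup which is abelian has prime exponent. -/
theorem pmin_exponent (K : Subgroup N) (hK : PMin P K) (hc : ∀ x ∈ K, ∀ y ∈ K, x * y = y * x) :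
    ∃ r : ℕ, r.Prime ∧ (∀ x ∈ K, x ^ r = 1) ∧ ∃ d, Nat.card K = r ^ d := by
  obtain ⟨h0, hi, hmin⟩ := hK
  have hcard : Nat.card K ≠ 1 := by
    intro h
    exact h0 (Subgroup.eq_bot_of_card_eq K h)
  obtain ⟨r, hr, hrd⟩ := Nat.exists_prime_and_dvd hcard
  have : Fact r.Prime := ⟨hr⟩
  obtain ⟨x, hx⟩ := exists_prime_orderOf_dvd_card' (G := K) r hrd
  let H : Subgroup N :=
    { carrier := {y | y ∈ K ∧ y ^ r = 1}
      one_mem' := ⟨K.one_mem, one_pow r⟩
      mul_mem' := by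
        rintro a b ⟨ha, ha1⟩ ⟨hb, hb1⟩
        refine ⟨K.mul_mem ha hb, ?_⟩
        have h1 : Commute a b := hc a ha b hb
        rw [h1.mul_pow, ha1, hb1, one_mul]
      inv_mem' := by
        rintro a ⟨ha, ha1⟩
        exact ⟨K.inv_mem ha, by rw [inv_pow, ha1, inv_one]⟩ }
  have hHi : PInv P H := by
    rintro p y ⟨hy, hy1⟩
    exact ⟨hi p y hy, by rw [← smul_pow', hy1, smul_one]⟩
  have hHK : H ≤ K := fun y hy => hy.1
  have hH0 : H ≠ ⊥ := by
    intro h
    have h1 : (x : N) ∈ H := ⟨x.2, by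
      have h2 := pow_orderOf_eq_one x
      rw [hx] at h2
      exact congrArg Subtype.val h2⟩
    rw [h, Subgroup.mem_bot] at h1
    have h3 : x = 1 := Subtype.ext h1
    rw [h3, orderOf_one] at hx
    exact hr.one_lt.ne hx
  have hHeq : H = K := (hmin H hHi hHK).resolve_left hH0
  have hexp : ∀ y ∈ K, y ^ r = 1 := by
    intro y hy
    rw [← hHeq] at hy
    exact hy.2
  refine ⟨r, hr, hexp, ?_⟩
  have hp : IsPGroup r K := fun y => ⟨1, Subtype.ext (by
    rw [pow_one]
    exact hexp y.1 y.2)⟩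
  exact IsPGroup.iff_card.mp hp

end

end Pool.Agent.Lib_MP_8306f4_co.CaseB
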