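import Pool.Agent.Lib_MP_8306f4_co.CaseB.Defs
import Pool.Agent.Lib_MP_8306f4_co.CaseB.GBasics
import Pool.Agent.Lib_MP_8306f4_co.CaseB.GInv

/-!
# MP_8306f4_co, case B, piece GThree

Notation. x·y = qop f x y = x f(x⁻¹y) on N; lambda_m: y -> m y is always an automorphism of it
(f commutes with nothing needed). 1·y = f(y). If Equi P f, then y -> p•y is an automorphism.
core(A): a∘b = 2b-a. For every x: y -> x·y is bijective (f bijective), for every y: x -> x·y is
bijective (x⁻¹f(x) bijective). '2 is invertible': all groups N have odd order.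

## G3 (GThree.lean): struct_three: C=fixS z has index 3, normal (smallest prime); J={x : z•x=x⁻¹} order 3, J=<n⁻¹(z•n)>, central.
threeGroup_of_elements: H=closure {n⁻¹(z•n)} (normal, z-invariant). Induction on |N|: V minimal normal z-invariant (elementary
abelian s-group). HV/V is a 3-group. s=3: done. s≠3: z centralises V, H centralises V; H/(H∩V) is a 3-group, H∩V central s-group:
the 3-elements of H form a subgroup, containing the generators.
-/

universe u v w

namespace Pool.Agent.Lib_MP_8306f4_co.CaseB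

open Pool.Agent.Lib_MP_8306f4_co
open scoped commutatorElement

namespace GThree

/-- in a group of odd order an element equal to its inverse is trivial -/
lemma eq_one_of_inv {N : Type u} [Group N] [Finite N] (hN : Odd (Nat.card N)) {x : N}
    (h : x = x⁻¹) : x = 1 := by
  have h2 : x ^ 2 = 1 := by
    rw [pow_two]
    nth_rewrite 2 [h]
    simp
  have h3 : orderOf x ∣ 2 := orderOf_dvd_of_pow_eq_one h2
  have h4 : orderOf x ∣ Nat.card N := orderOf_dvd_natCard x
  have h5 : Nat.Coprime 2 (Nat.card N) := (Nat.coprime_two_left).mpr hN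
  have h6 : orderOf x ∣ 1 := by
    have := Nat.dvd_gcd h3 h4
    rwa [h5.gcd_eq_one] at this
  exact orderOf_eq_one_iff.mp (Nat.dvd_one.mp h6)

section
variable {P : Type v} [Group P] {z : P} {N : Type u} [Group N]
  [MulDistribMulAction P N]

lemma z_comm (hz2 : z * z = 1) (x : N) : z • (x⁻¹ * (z • x)) = (x⁻¹ * (z • x))⁻¹ := by
  rw [smul_mul', smul_inv', smul_smul, hz2, one_smul, mul_inv_rev, inv_inv]

end

/-- central extensions of a 3-group: the 3-elements form a subgroup -/
lemma three_elements {H : Type u} [Group H] [Finite H] {Q : Type w} [Group Q] [Finite Q]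
    (f : H →* Q) (hk : f.ker ≤ Subgroup.center H) (hQ : IsPGroup 3 Q) :
    ∃ S : Subgroup H, ∀ x, x ∈ S ↔ ∃ k : ℕ, x ^ (3 ^ k) = 1 := by
  have : Fact (Nat.Prime 3) := ⟨Nat.prime_three⟩
  have hQn : Group.IsNilpotent Q := hQ.isNilpotent
  have hHn : Group.IsNilpotent H := Subgroup.isNilpotent_of_ker_le_center f hk
  obtain ⟨S⟩ : Nonempty (Sylow 3 H) := inferInstance
  have hS : (S : Subgroup H).Normal := inferInstance
  let := Sylow.unique_of_normal S hS
  refine ⟨(S : Subgroup H), fun x => ⟨fun hx => ?_, fun hx => ?_⟩⟩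
  · obtain ⟨k, hk⟩ := S.isPGroup' ⟨x, hx⟩
    exact ⟨k, by simpa using congrArg Subtype.val hk⟩
  · obtain ⟨k, hk⟩ := hx
    have hp : IsPGroup 3 (Subgroup.zpowers x) := by
      intro y
      obtain ⟨y, i, rfl⟩ := y
      refine ⟨k, ?_⟩
      apply Subtype.ext
      change (x ^ i) ^ (3 ^ k) = 1
      rw [← zpow_natCast, ← zpow_mul, mul_comm, zpow_mul, zpow_natCast, hk, one_zpow]
    obtain ⟨T, hT⟩ := hp.exists_le_sylow
    have hTS : T = S := Subsingleton.elim _ _
    rw [hTS] at hT
    exact hT (Subgroup.mem_zpowers x)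

/-- A nontrivial solvable group has a nontrivial characteristic elementary abelian subgroup. -/
lemma exists_char (P : Type v) [Group P] (N : Type u) [Group N] [Finite N]
    [MulDistribMulAction P N] [Group.IsSolvable N] (h1 : Nontrivial N) :
    ∃ (V : Subgroup N) (s : ℕ), s.Prime ∧ V ≠ ⊥ ∧ V.Normal ∧ PInv P V ∧ (∀ x ∈ V, x ^ s = 1) ∧
      ∀ x ∈ V, ∀ y ∈ V, x * y = y * x := by
  classical
  have hsol := Group.IsSolvable.solvable (G := N)
  set n := Nat.find hsol with hn
  have hn0 : n ≠ 0 := by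
    intro h0
    have := Nat.find_spec hsol
    rw [← hn, h0, derivedSeries_zero] at this
    exact top_ne_bot this
  obtain ⟨m, hm⟩ := Nat.exists_eq_succ_of_ne_zero hn0
  set A := derivedSeries N m with hA
  have hAne : A ≠ ⊥ := Nat.find_min hsol (by omega)
  have hAA : ⁅A, A⁆ = ⊥ := by
    have := Nat.find_spec hsol
    rwa [← hn, hm, Nat.succ_eq_add_one, derivedSeries_succ] at this
  have hcomm : ∀ x ∈ A, ∀ y ∈ A, x * y = y * x := by
    intro x hx y hy
    have h2 : ⁅x, y⁆ ∈ ⁅A, A⁆ := Subgroup.commutator_mem_commutator hx hy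
    rw [hAA, Subgroup.mem_bot, commutatorElement_eq_one_iff_mul_comm] at h2
    exact h2
  have hAn : A.Normal := derivedSeries_normal N m
  have hAinv : PInv P A := by
    intro p x hx
    have h2 := map_derivedSeries_le_derivedSeries (MulDistribMulAction.toMonoidHom N p) m
    exact h2 (Subgroup.mem_map_of_mem (MulDistribMulAction.toMonoidHom N p) hx)
  have : Nontrivial A := (Subgroup.nontrivial_iff_ne_bot A).mpr hAne
  obtain ⟨s, hs, hsd⟩ := Nat.exists_prime_and_dvd (n := Nat.card A) (by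
    intro hc
    rw [Subgroup.card_eq_one] at hc
    exact hAne hc)
  have := Fact.mk hs
  obtain ⟨a, ha⟩ := exists_prime_orderOf_dvd_card' s hsd
  refine ⟨{ carrier := {x | x ∈ A ∧ x ^ s = 1}
            one_mem' := ⟨A.one_mem, one_pow _⟩
            mul_mem' := ?_
            inv_mem' := ?_ }, s, hs, ?_, ⟨?_⟩, ?_, ?_, ?_⟩
  · rintro x y ⟨hx, hxs⟩ ⟨hy, hys⟩
    refine ⟨A.mul_mem hx hy, ?_⟩
    rw [Commute.mul_pow (hcomm x hx y hy), hxs, hys, one_mul]
  · rintro x ⟨hx, hxs⟩
    exact ⟨A.inv_mem hx, by rw [inv_pow, hxs, inv_one]⟩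
  · intro hbot
    have h2 : (a : N) ∈ (⊥ : Subgroup N) := by
      rw [← hbot]
      refine ⟨a.2, ?_⟩
      have := pow_orderOf_eq_one a
      rw [ha] at this
      simpa using congrArg Subtype.val this
    rw [Subgroup.mem_bot] at h2
    have h3 : a = 1 := Subtype.ext h2
    rw [h3, orderOf_one] at ha
    exact hs.one_lt.ne ha
  · rintro x ⟨hx, hxs⟩ g
    exact ⟨hAn.conj_mem x hx g, by rw [conj_pow, hxs, mul_one, mul_inv_cancel]⟩
  · rintro p x ⟨hx, hxs⟩
    exact ⟨hAinv p x hx, by rw [← smul_pow', hxs, smul_one]⟩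
  · rintro x ⟨_, hxs⟩
    exact hxs
  · rintro x ⟨hx, _⟩ y ⟨hy, _⟩
    exact hcomm x hx y hy

lemma main {P : Type v} [Group P] {z : P} (n : ℕ) :
    ∀ (N : Type u) [Group N] [Finite N] [MulDistribMulAction P N] [Group.IsSolvable N],
      Nat.card N = n →
      (∀ x : N, ∃ k : ℕ, (x⁻¹ * (z • x)) ^ (3 ^ k) = 1) →
      ∃ H : Subgroup N, H.Normal ∧ IsPGroup 3 H ∧ (∀ n : N, n⁻¹ * (z • n) ∈ H) ∧
        (∀ x ∈ H, z • x ∈ H) := by
  induction n using Nat.strong_induction_on with
  | _ n ih =>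
    intro N _ _ _ _ hcard h
    classical
    rcases subsingleton_or_nontrivial N with hsub | hnt
    · refine ⟨⊥, inferInstance, IsPGroup.of_bot, fun n => ?_, fun x _ => ?_⟩ <;>
        exact Subsingleton.elim _ _
    obtain ⟨V, s, hs, hVne, hVn, hVinv, hVs, hVc⟩ := exists_char P N hnt
    obtain ⟨M, hMg, hMa, π, hπs, hπe, hπk⟩ := exists_quot V hVinv
    have : Finite M := Finite.of_surjective π hπs
    have : Group.IsSolvable M := Group.isSolvable_of_surjective hπs
    have hMcard : Nat.card M < n := by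
      have h1 : Nat.card N = Nat.card M * Nat.card V := by
        have h2 := π.ker.index_mul_card
        rw [Subgroup.index_ker, MonoidHom.range_eq_top.mpr hπs, Subgroup.card_top, hπk] at h2
        exact h2.symm
      have h3 : 1 < Nat.card V := (Subgroup.one_lt_card_iff_ne_bot V).mpr hVne
      have h4 : 0 < Nat.card M := Nat.card_pos
      rw [← hcard, h1]
      nlinarith
    have hM : ∀ x : M, ∃ k : ℕ, (x⁻¹ * (z • x)) ^ (3 ^ k) = 1 := by
      intro x
      obtain ⟨y, rfl⟩ := hπs x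
      obtain ⟨k, hk⟩ := h y
      refine ⟨k, ?_⟩
      rw [← hπe, ← map_inv, ← map_mul, ← map_pow, hk, map_one]
    obtain ⟨H', hH'n, hH'p, hH'e, hH'z⟩ := ih (Nat.card M) hMcard M rfl hM
    -- the preimage
    set H1 : Subgroup N := H'.comap π with hH1
    have hH1n : H1.Normal := hH'n.comap π
    have hH1e : ∀ x : N, x⁻¹ * (z • x) ∈ H1 := by
      intro x
      rw [hH1, Subgroup.mem_comap, map_mul, map_inv, hπe]
      exact hH'e _
    have hH1z : ∀ x ∈ H1, z • x ∈ H1 := by
      intro x hx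
      rw [hH1, Subgroup.mem_comap, hπe]
      exact hH'z _ hx
    have hH1p : ∀ x ∈ H1, ∃ k : ℕ, x ^ (3 ^ k) ∈ V := by
      intro x hx
      obtain ⟨k, hk⟩ := hH'p ⟨π x, hx⟩
      refine ⟨k, ?_⟩
      rw [← hπk, MonoidHom.mem_ker, map_pow]
      simpa using congrArg Subtype.val hk
    rcases eq_or_ne s 3 with hs3 | hs3
    · refine ⟨H1, hH1n, ?_, hH1e, hH1z⟩
      rintro ⟨x, hx⟩
      obtain ⟨k, hk⟩ := hH1p x hx
      refine ⟨k + 1, ?_⟩
      apply Subtype.ext
      change x ^ (3 ^ (k + 1)) = 1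
      rw [pow_succ, pow_mul, ← hs3]
      rw [← hs3] at hk
      exact hVs _ hk
    -- `z` centralises `V`
    have hzV : ∀ v ∈ V, z • v = v := by
      intro v hv
      have h1 : v⁻¹ * (z • v) ∈ V := V.mul_mem (V.inv_mem hv) (hVinv z v hv)
      have h2 := hVs _ h1
      obtain ⟨k, hk⟩ := h v
      have h3 : orderOf (v⁻¹ * (z • v)) ∣ s := orderOf_dvd_of_pow_eq_one h2
      have h4 : orderOf (v⁻¹ * (z • v)) ∣ 3 ^ k := orderOf_dvd_of_pow_eq_one hk
      have h5 : Nat.Coprime s (3 ^ k) :=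
        Nat.Coprime.pow_right k ((Nat.coprime_primes hs Nat.prime_three).mpr hs3)
      have h6 : orderOf (v⁻¹ * (z • v)) ∣ 1 := by
        have := Nat.dvd_gcd h3 h4
        rwa [h5.gcd_eq_one] at this
      have h7 : v⁻¹ * (z • v) = 1 := orderOf_eq_one_iff.mp (Nat.dvd_one.mp h6)
      exact (inv_mul_eq_one.mp h7).symm
    set Z : Subgroup N := Subgroup.centralizer (V : Set N) with hZ
    have hZmem : ∀ x, x ∈ Z ↔ ∀ v ∈ V, v * x = x * v := by
      intro x
      rw [hZ, Subgroup.mem_centralizer_iff]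
      rfl
    have hZn : Z.Normal := by
      refine ⟨fun x hx g => ?_⟩
      rw [hZmem] at hx ⊢
      intro v hv
      have h1 := hx (g⁻¹ * v * g) (by simpa using hVn.conj_mem v hv g⁻¹)
      calc v * (g * x * g⁻¹) = g * ((g⁻¹ * v * g) * x) * g⁻¹ := by group
        _ = g * (x * (g⁻¹ * v * g)) * g⁻¹ := by rw [h1]
        _ = g * x * g⁻¹ * v := by group
    have hZz : ∀ x ∈ Z, z • x ∈ Z := by
      intro x hx
      rw [hZmem] at hx ⊢
      intro v hv
      have h1 := congrArg (z • ·) (hx v hv)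
      simp only [smul_mul'] at h1
      rwa [hzV v hv] at h1
    have hZe : ∀ x : N, x⁻¹ * (z • x) ∈ Z := by
      intro x
      rw [hZmem]
      intro v hv
      have h1 : x * v * x⁻¹ ∈ V := hVn.conj_mem v hv x
      have h2 := hzV _ h1
      rw [smul_mul', smul_mul', smul_inv', hzV v hv] at h2
      calc v * (x⁻¹ * (z • x)) = x⁻¹ * (x * v * x⁻¹) * (z • x) := by group
        _ = x⁻¹ * ((z • x) * v * (z • x)⁻¹) * (z • x) := by rw [h2]
        _ = x⁻¹ * (z • x) * v := by group
    -- the group `H1 ⊓ Z`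
    set H2 : Subgroup N := H1 ⊓ Z with hH2
    let f : H2 →* H' := (π.comp H2.subtype).codRestrict H' (fun x => x.2.1)
    have hf : f.ker ≤ Subgroup.center H2 := by
      intro x hx
      rw [Subgroup.mem_center_iff]
      intro y
      have h1 : (x : N) ∈ V := by
        rw [← hπk, MonoidHom.mem_ker]
        exact congrArg Subtype.val hx
      apply Subtype.ext
      exact ((hZmem y).mp y.2.2 x h1).symm
    obtain ⟨S, hS⟩ := three_elements f hf hH'p
    have hmem : ∀ x, x ∈ S.map H2.subtype ↔ x ∈ H2 ∧ ∃ k : ℕ, x ^ (3 ^ k) = 1 := by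
      intro x
      constructor
      · rintro ⟨y, hy, rfl⟩
        refine ⟨y.2, ?_⟩
        obtain ⟨k, hk⟩ := (hS y).mp hy
        exact ⟨k, by simpa using congrArg Subtype.val hk⟩
      · rintro ⟨hx, k, hk⟩
        exact ⟨⟨x, hx⟩, (hS _).mpr ⟨k, Subtype.ext hk⟩, rfl⟩
    refine ⟨S.map H2.subtype, ⟨fun x hx g => ?_⟩, ?_, fun x => ?_, fun x hx => ?_⟩
    · rw [hmem] at hx ⊢
      obtain ⟨hx, k, hk⟩ := hx
      exact ⟨⟨hH1n.conj_mem x hx.1 g, hZn.conj_mem x hx.2 g⟩, k, by
        rw [conj_pow, hk, mul_one, mul_inv_cancel]⟩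
    · rintro ⟨x, hx⟩
      obtain ⟨_, k, hk⟩ := (hmem x).mp hx
      exact ⟨k, Subtype.ext hk⟩
    · rw [hmem]
      exact ⟨⟨hH1e x, hZe x⟩, h x⟩
    · rw [hmem] at hx ⊢
      obtain ⟨hx, k, hk⟩ := hx
      exact ⟨⟨hH1z x hx.1, hZz x hx.2⟩, k, by rw [← smul_pow', hk, smul_one]⟩

end GThree

section
variable {P : Type v} [Group P] {z : P} {N M : Type u} [Group N] [Finite N] [Group M]
  [MulDistribMulAction P N] [MulDistribMulAction P M]

/-- If `C_N(z)` has index 3, then `N = Z₃ × C_N(z)`. -/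
theorem struct_three (hz2 : z * z = 1) (hN : Odd (Nat.card N))
    (h : Nat.card N = 3 * Nat.card (fixS z : Subgroup N)) :
    ∃ e : N ≃* Multiplicative (ZMod 3) × (fixS z : Subgroup N),
      ∀ x, e (z • x) = ((e x).1⁻¹, (e x).2) := by
  classical
  set C : Subgroup N := fixS z with hC
  have hCpos : 0 < Nat.card C := Nat.card_pos
  have hidx : C.index = 3 := by
    have h1 := C.index_mul_card
    rw [h] at h1
    exact Nat.eq_of_mul_eq_mul_right hCpos h1
  have hmin : (Nat.card N).minFac = 3 := by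
    have h3 : 3 ∣ Nat.card N := by rw [h]; exact dvd_mul_right _ _
    have hle := Nat.minFac_le_of_dvd (by norm_num) h3
    have hne1 : Nat.card N ≠ 1 := by
      intro h1
      rw [h1] at h3
      omega
    have hp := Nat.minFac_prime hne1
    have hne2 : (Nat.card N).minFac ≠ 2 := by
      intro h2
      rw [Nat.minFac_eq_two_iff] at h2
      exact (Nat.not_even_iff_odd.mpr hN) (even_iff_two_dvd.mpr h2)
    have := hp.two_le
    omega
  have hnorm : C.Normal := Subgroup.normal_of_index_eq_minFac_card (by rw [hidx, hmin])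
  -- an inverted nontrivial element
  have hCne : C ≠ ⊤ := by
    intro h1
    rw [Subgroup.index_eq_one.mpr h1] at hidx
    omega
  obtain ⟨x, hx⟩ : ∃ x, x ∉ C := by
    by_contra hcon
    push Not at hcon
    exact hCne (eq_top_iff.mpr fun x _ => hcon x)
  set j : N := x⁻¹ * (z • x) with hj
  have hjinv : z • j = j⁻¹ := GThree.z_comm hz2 x
  have hj1 : j ≠ 1 := by
    intro h1
    apply hx
    rw [hC, mem_fixS]
    have := congrArg (x * ·) h1
    simpa [hj] using this
  have hcap : ∀ y, z • y = y⁻¹ → y ∈ C → y = 1 := by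
    intro y hy hyC
    rw [hC, mem_fixS] at hyC
    exact GThree.eq_one_of_inv hN (by rw [← hy, hyC])
  have hjC : j ∉ C := fun h1 => hj1 (hcap j hjinv h1)
  -- `j ^ 3 = 1`
  have hj3C : j ^ 3 ∈ C := by
    have := Subgroup.pow_index_mem C j
    rwa [hidx] at this
  have hj3 : j ^ 3 = 1 := by
    apply hcap _ _ hj3C
    rw [smul_pow', hjinv, inv_pow]
  -- `C` centralises `j`
  have hcomm : ∀ c ∈ C, Commute j c := by
    intro c hc
    -- `j c j⁻¹ ∈ C`
    have h1 : j * c * j⁻¹ ∈ C := hnorm.conj_mem c hc j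
    have hc' : z • c = c := hc
    have h2 : z • (j * c * j⁻¹) = j * c * j⁻¹ := h1
    have h3 : z • (j * c * j⁻¹) = j⁻¹ * c * j := by
      rw [smul_mul', smul_mul', smul_inv', hjinv, hc', inv_inv]
    have h4 : j⁻¹ * c * j = j * c * j⁻¹ := by rw [← h3, h2]
    -- so `j ^ 2` commutes with `c`
    have h5 : Commute (j ^ 2) c := by
      rw [commute_iff_eq, pow_two]
      have h6 := congrArg (fun t => j * t * j) h4
      simp only [mul_assoc, mul_inv_cancel_left, inv_mul_cancel, mul_one] at h6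
      simp only [mul_assoc]
      exact h6.symm
    have h6 : Commute ((j ^ 2) ^ 2) c := h5.pow_left 2
    have h7 : (j ^ 2) ^ 2 = j := by
      rw [← pow_mul]
      calc j ^ (2 * 2) = j ^ 3 * j := by rw [← pow_succ]
        _ = j := by rw [hj3, one_mul]
    rwa [h7] at h6
  -- the homomorphism
  let g0 : ℤ →+ Additive N := zmultiplesHom (Additive N) (Additive.ofMul j)
  have hg0 : g0 (3 : ℕ) = 0 := by
    change ((3 : ℕ) : ℤ) • Additive.ofMul j = 0
    rw [natCast_zsmul, ← ofMul_pow, hj3, ofMul_one]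
  let g1 : ZMod 3 →+ Additive N := ZMod.lift 3 ⟨g0, hg0⟩
  let g : Multiplicative (ZMod 3) →* N := AddMonoidHom.toMultiplicativeLeft g1
  have hg : ∀ k : ℤ, g (Multiplicative.ofAdd (k : ZMod 3)) = j ^ k := by
    intro k
    change Additive.toMul (g1 (k : ZMod 3)) = j ^ k
    rw [ZMod.lift_coe]
    rfl
  have hgz : ∀ a, z • g a = g a⁻¹ := by
    intro a
    obtain ⟨k, hk⟩ := ZMod.intCast_surjective (Multiplicative.toAdd a)
    have ha : a = Multiplicative.ofAdd (k : ZMod 3) := by rw [hk]; rfl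
    have ha' : a⁻¹ = Multiplicative.ofAdd ((-k : ℤ) : ZMod 3) := by
      rw [ha]; push_cast; rfl
    rw [ha', hg, ha, hg]
    rw [show z • j ^ k = (z • j) ^ k from map_zpow (MulDistribMulAction.toMonoidHom N z) j k]
    rw [hjinv, inv_zpow, zpow_neg]
  have hgc : ∀ a (c : C), Commute (g a) (C.subtype c) := by
    intro a c
    obtain ⟨k, hk⟩ := ZMod.intCast_surjective (Multiplicative.toAdd a)
    have ha : a = Multiplicative.ofAdd (k : ZMod 3) := by rw [hk]; rfl
    rw [ha, hg]
    exact (hcomm c c.2).zpow_left k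
  let F : Multiplicative (ZMod 3) × C →* N := MonoidHom.noncommCoprod g C.subtype hgc
  have hF : ∀ a c, F (a, c) = g a * c := fun a c => rfl
  have hFinj : Function.Injective F := by
    rw [injective_iff_map_eq_one]
    rintro ⟨a, c⟩ hac
    rw [hF] at hac
    have h1 : g a ∈ C := by
      have : g a = (c : N)⁻¹ := eq_inv_of_mul_eq_one_left hac
      rw [this]
      exact C.inv_mem c.2
    have h2 : g a = 1 := hcap _ (by rw [hgz, map_inv]) h1
    have h3 : (c : N) = 1 := by rwa [h2, one_mul] at hac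
    have h4 : a = 1 := by
      obtain ⟨k, hk⟩ := ZMod.intCast_surjective (Multiplicative.toAdd a)
      have ha : a = Multiplicative.ofAdd (k : ZMod 3) := by rw [hk]; rfl
      rw [ha, hg] at h2
      have h5 : (orderOf j : ℤ) ∣ k := orderOf_dvd_iff_zpow_eq_one.mpr h2
      have h6 : orderOf j = 3 := orderOf_eq_prime hj3 hj1
      rw [h6] at h5
      rw [ha, (ZMod.intCast_zmod_eq_zero_iff_dvd k 3).mpr h5]
      rfl
    rw [h4, show c = 1 from Subtype.ext h3]
    rfl
  have hcard : Nat.card (Multiplicative (ZMod 3) × C) = Nat.card N := by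
    rw [Nat.card_prod, h]
    congr 1
    simp [Nat.card_eq_fintype_card]
  have hFbij : Function.Bijective F := by
    have : Finite (Multiplicative (ZMod 3) × C) := inferInstance
    exact (Nat.bijective_iff_injective_and_card F).mpr ⟨hFinj, hcard⟩
  let E := MulEquiv.ofBijective F hFbij
  refine ⟨E.symm, fun y => ?_⟩
  obtain ⟨⟨a, c⟩, rfl⟩ := E.surjective y
  rw [MulEquiv.symm_apply_apply, MulEquiv.symm_apply_eq]
  change z • (g a * (c : N)) = g a⁻¹ * (c : N)
  rw [smul_mul', hgz]
  congr 1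
  exact c.2

/-- If every `[z, n]` is a 3-element then `C_N(z)` has index 3, provided this holds in a normal
subgroup `L` containing all normal 3-subgroups. -/
theorem threeGroup_of_elements [Group.IsSolvable N] (hz2 : z * z = 1) (hN : Odd (Nat.card N))
    (h : ∀ n : N, ∃ k : ℕ, (n⁻¹ * (z • n)) ^ (3 ^ k) = 1) :
    ∃ H : Subgroup N, H.Normal ∧ IsPGroup 3 H ∧ (∀ n : N, n⁻¹ * (z • n) ∈ H) ∧
      (∀ x ∈ H, z • x ∈ H) :=
  GThree.main _ N rfl h

end

end Pool.Agent.Lib_MP_8306f4_co.CaseB
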