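import Pool.Agent.Lib_MP_8306f4_co.CaseB.Defs
import Pool.Agent.Lib_MP_8306f4_co.CaseB.Section

/-!
# MP_8306f4_co, case B, piece GluedA

Notation. x·y = qop f x y = x f(x⁻¹y) on N; lambda_m: y -> m y is always an automorphism of it
(f commutes with nothing needed). 1·y = f(y). If Equi P f, then y -> p•y is an automorphism.
core(A): a∘b = 2b-a. For every x: y -> x·y is bijective (f bijective), for every y: x -> x·y is
bijective (x⁻¹f(x) bijective). '2 is invertible': all groups N have odd order.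

## F1 (GluedA.lean): faith_conj, exists_glued, glued_homFree [exists_section]
faith_conj: A = action of p on L = conjugation by n. A^(order of n)=1, A^(order of p)=1, coprime, A=1.
exists_glued: r from exists_section, f as in Glued.
glued_homFree: h on a coset n L: l -> h(n ι l) is a hom for φ₁ (n ιl·n ιl' = n ι(l φ₁(l⁻¹l'))), constant; so h
factors through T, hom for g.

-/

universe u v w

namespace Pool.Agent.Lib_MP_8306f4_co.CaseB

open Pool.Agent.Lib_MP_8306f4_co

namespace GluedA

/-- the operation on a coset of `L` -/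
private lemma coset_qop {L N : Type u} [Group L] [Group N] {ι : L →* N} {φ₁ : L → L} {f : N → N}
    (hL : ∀ l, f (ι l) = ι (φ₁ l)) (n : N) (l l' : L) :
    n * ι (qop φ₁ l l') = qop f (n * ι l) (n * ι l') := by
  unfold qop
  have h1 : (n * ι l)⁻¹ * (n * ι l') = ι (l⁻¹ * l') := by
    rw [map_mul, map_inv]
    group
  rw [h1, hL, map_mul]
  group

end GluedA

section
variable {P : Type v} [Group P] [Finite P] {L N T : Type u} [Group L] [Group N] [Finite N]
  [Group T] [MulDistribMulAction P L] [MulDistribMulAction P N] [MulDistribMulAction P T]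

/-- An element of `P` acting on `L` as a conjugation by an element of `N` is trivial. -/
theorem faith_conj (hP : IsPGroup 2 P) (hN : Odd (Nat.card N)) {ι : L →* N} {π : N →* T}
    (hE : Ext P ι π) {p : P} {n : N} (h : ∀ l, ι (p • l) = n * ι l * n⁻¹) : p = 1 := by
  have h1 : ∀ (k : ℕ) (l : L), ι (p ^ k • l) = n ^ k * ι l * (n ^ k)⁻¹ := by
    intro k
    induction k with
    | zero =>
      intro l
      simp
    | succ k ih =>
      intro l
      rw [pow_succ, mul_smul, ih, h, pow_succ]
      group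
  have h2 : p ^ orderOf n = 1 := by
    apply hE.faith
    intro l
    apply hE.inj
    rw [h1, pow_orderOf_eq_one]
    simp
  have h3 : Odd (orderOf n) := Odd.of_dvd_nat hN (orderOf_dvd_natCard n)
  obtain ⟨j, hj⟩ := (IsPGroup.iff_orderOf.1 hP) p
  have h4 : 2 ^ j ∣ orderOf n := hj ▸ orderOf_dvd_of_pow_eq_one h2
  have h5 : j = 0 := by
    by_contra hj0
    have h6 : 2 ∣ orderOf n := (dvd_pow_self 2 hj0).trans h4
    exact (Nat.not_even_iff_odd.2 h3) (even_iff_two_dvd.2 h6)
  rw [h5, pow_zero] at hj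
  exact orderOf_eq_one_iff.1 hj

theorem exists_glued (hP : IsPGroup 2 P) (hN : Odd (Nat.card N)) {ι : L →* N} {π : N →* T}
    (hE : Ext P ι π) {g : T → T} (hg : IsOrth g) (hge : Equi P g) (hg1 : g 1 = 1)
    {φ₁ φ₂ : L → L} (h1 : IsOrth φ₁) (h1e : Equi P φ₁) (h11 : φ₁ 1 = 1)
    (h2 : IsOrth φ₂) (h2e : Equi P φ₂) :
    ∃ (r : T → N) (f : N → N), Glued P ι π g φ₁ φ₂ r f := by
  classical
  obtain ⟨r, hr1, hr2, hr3⟩ := exists_section hP hN π hE.surj hE.equi'
  have h0 : ∀ x : N, ∃ l, ι l = (r (π x))⁻¹ * x := by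
    intro x
    rw [← hE.exact, map_mul, map_inv, hr1, inv_mul_cancel]
  choose lam hlam using h0
  have hιπ : ∀ l, π (ι l) = 1 := fun l => (hE.exact (ι l)).2 ⟨l, rfl⟩
  have hx : ∀ x, r (π x) * ι (lam x) = x := by
    intro x
    rw [hlam, mul_inv_cancel_left]
  have hπ : ∀ t l, π (r t * ι l) = t := by
    intro t l
    rw [map_mul, hr1, hιπ, mul_one]
  have hlam2 : ∀ t l, lam (r t * ι l) = l := by
    intro t l
    apply hE.inj
    rw [hlam, hπ, inv_mul_cancel_left]
  have hlam1 : ∀ l, lam (ι l) = l := by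
    intro l
    have := hlam2 1 l
    rwa [hr3, one_mul] at this
  let f : N → N := fun x => if π x = 1 then ι (φ₁ (lam x)) else
    r (π x) * ι (φ₂ (lam x)) * r ((π x)⁻¹ * g (π x))
  have hf1 : ∀ x, π x = 1 → f x = ι (φ₁ (lam x)) := fun x hx => if_pos hx
  have hf2 : ∀ x, π x ≠ 1 → f x = r (π x) * ι (φ₂ (lam x)) * r ((π x)⁻¹ * g (π x)) :=
    fun x hx => if_neg hx
  have honL : ∀ l, f (ι l) = ι (φ₁ l) := by
    intro l
    rw [hf1 _ (hιπ l), hlam1]
  have hproj : ∀ x, π (f x) = g (π x) := by
    intro x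
    by_cases h : π x = 1
    · rw [hf1 x h, hιπ, h, hg1]
    · rw [hf2 x h, map_mul, map_mul, hr1, hιπ, hr1, mul_one, mul_inv_cancel_left]
  have hxy : ∀ x y, π x = π y → lam x = lam y → x = y := by
    intro x y h1 h2
    rw [← hx x, ← hx y, h1, h2]
  have hlamp : ∀ (p : P) x, lam (p • x) = p • lam x := by
    intro p x
    apply hE.inj
    rw [hlam, hE.equi, hlam, hE.equi', hr2, smul_mul', smul_inv']
  refine ⟨r, f, hr1, hr2, hr3, honL, ?_, ⟨?_, ?_⟩, ?_, ?_, hproj, hg, hg1, h1, h2⟩
  · intro t ht l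
    rw [hf2 _ (by rwa [hπ]), hπ, hlam2]
  · refine Finite.injective_iff_bijective.1 ?_
    intro x y hxy'
    have h3 : π x = π y := by
      apply hg.1.1
      rw [← hproj, ← hproj]
      exact congrArg π hxy'
    apply hxy x y h3
    by_cases h : π x = 1
    · have h4 : f x = f y := hxy'
      rw [hf1 x h, hf1 y (h3 ▸ h)] at h4
      exact h1.1.1 (hE.inj h4)
    · have h4 : f x = f y := hxy'
      rw [hf2 x h, hf2 y (h3 ▸ h), ← h3] at h4
      exact h2.1.1 (hE.inj (mul_left_cancel (mul_right_cancel h4)))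
  · refine Finite.injective_iff_bijective.1 ?_
    intro x y hxy'
    have hxy'' : x⁻¹ * f x = y⁻¹ * f y := hxy'
    have h3 : π x = π y := by
      apply hg.2.1
      change (π x)⁻¹ * g (π x) = (π y)⁻¹ * g (π y)
      rw [← hproj, ← hproj, ← map_inv, ← map_mul, ← map_inv, ← map_mul, hxy'']
    apply hxy x y h3
    by_cases h : π x = 1
    · apply h1.2.1
      apply hE.inj
      change ι ((lam x)⁻¹ * φ₁ (lam x)) = ι ((lam y)⁻¹ * φ₁ (lam y))
      have hx1 : ι (lam x) = x := by
        have := hx x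
        rwa [h, hr3, one_mul] at this
      have hy1 : ι (lam y) = y := by
        have := hx y
        rwa [← h3, h, hr3, one_mul] at this
      rw [map_mul, map_mul, map_inv, map_inv, ← hf1 x h, ← hf1 y (h3 ▸ h), hx1, hy1, hxy'']
    · apply h2.2.1
      apply hE.inj
      change ι ((lam x)⁻¹ * φ₂ (lam x)) = ι ((lam y)⁻¹ * φ₂ (lam y))
      have key : ∀ z, π z = π x → z⁻¹ * f z =
          ι ((lam z)⁻¹ * φ₂ (lam z)) * r ((π x)⁻¹ * g (π x)) := by
        intro z hz
        rw [hf2 z (by rwa [hz]), map_mul, map_inv]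
        nth_rw 1 [← hx z]
        rw [hz]
        group
      have h4 := key x rfl
      have h5 := key y h3.symm
      rw [← hxy'', h4] at h5
      exact mul_right_cancel h5
  · intro p x
    by_cases h : π x = 1
    · rw [hf1 x h, hf1 (p • x) (by rw [hE.equi', h, smul_one]), hlamp, h1e, hE.equi]
    · have h' : π (p • x) ≠ 1 := by
        rw [hE.equi']
        intro h3
        apply h
        have h4 := congrArg (fun t => p⁻¹ • t) h3
        simpa using h4
      have h5 : (p • π x)⁻¹ * p • g (π x) = p • ((π x)⁻¹ * g (π x)) := by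
        rw [smul_mul', smul_inv']
      rw [hf2 x h, hf2 (p • x) h', hlamp, hE.equi', h2e, hge, h5, hE.equi, hr2, hr2, smul_mul',
        smul_mul']
  · have := honL 1
    rwa [map_one, h11, map_one] at this

theorem glued_homFree {ι : L →* N} {π : N →* T}
    (hE : Ext P ι π) {g : T → T} {φ₁ φ₂ : L → L} {r : T → N} {f : N → N}
    (hf : Glued P ι π g φ₁ φ₂ r f) (h1 : HomFree φ₁) (h2 : HomFree g) : HomFree f := by
  intro s hs h hh
  have h3 : ∀ n l, h (n * ι l) = h n := by
    intro n l
    have := h1 s hs (fun l => h (n * ι l)) (by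
      intro x y
      change h (n * ι (qop φ₁ x y)) = _
      rw [GluedA.coset_qop hf.on_L, hh]) l
    simpa using this
  have h4 : ∀ x, h x = h (r (π x)) := by
    intro x
    obtain ⟨l₀, hl₀⟩ := (hE.exact ((r (π x))⁻¹ * x)).1 (by
      rw [map_mul, map_inv, hf.sec, inv_mul_cancel])
    rw [← h3 (r (π x)) l₀, hl₀, mul_inv_cancel_left]
  have h5 := h2 s hs (fun t => h (r t)) (by
    intro x y
    change h (r (qop g x y)) = 2 • h (r y) - h (r x)
    rw [← hh]
    have h6 : π (qop f (r x) (r y)) = qop g x y := by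
      unfold qop
      rw [map_mul, hf.proj, map_mul, map_inv, hf.sec, hf.sec]
    rw [h4 (qop f (r x) (r y)), h6])
  intro x
  rw [h4 x, h4 1, map_one]
  exact h5 (π x)

end

end Pool.Agent.Lib_MP_8306f4_co.CaseB
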