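import Pool.Agent.Lib_MP_8306f4_co.CaseB.Defs

/-!
# MP_8306f4_co, case B, piece GluedSetup

Notation. x·y = qop f x y = x f(x⁻¹y) on N; lambda_m: y -> m y is always an automorphism of it
(f commutes with nothing needed). 1·y = f(y). If Equi P f, then y -> p•y is an automorphism.
core(A): a∘b = 2b-a. For every x: y -> x·y is bijective (f bijective), for every y: x -> x·y is
bijective (x⁻¹f(x) bijective). '2 is invertible': all groups N have odd order.

## F2 (GluedSetup.lean): glued_setup
For n in N: l -> π(α(n ι l)) is a hom from (L,φ₁) to (T,g), constant (hcon). So α permutes the cosets of L and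
l -> ι⁻¹(α(n)⁻¹α(n ι l)) is in A_1(φ₁): equal to some p_n. p₀:=p_1, β:=p₀⁻¹∘α, pt(t):= the element for n=r(t).

-/

universe u v w

namespace Pool.Agent.Lib_MP_8306f4_co.CaseB

open Pool.Agent.Lib_MP_8306f4_co

namespace GluedSetup

/-- the operation on a coset of `L` -/
private lemma coset_qop {L N : Type u} [Group L] [Group N] {ι : L →* N} {φ₁ : L → L} {f : N → N}
    (hL : ∀ l, f (ι l) = ι (φ₁ l)) (n : N) (l l' : L) :
    n * ι (qop φ₁ l l') = qop f (n * ι l) (n * ι l') := by
  unfold qop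
  have h1 : (n * ι l)⁻¹ * (n * ι l') = ι (l⁻¹ * l') := by
    rw [map_mul, map_inv]
    group
  rw [h1, hL, map_mul]
  group

private lemma left_qop {N : Type u} [Group N] (f : N → N) (m a b : N) :
    m * qop f a b = qop f (m * a) (m * b) := by
  unfold qop
  have h1 : (m * a)⁻¹ * (m * b) = a⁻¹ * b := by group
  rw [h1]
  group

private lemma smul_mem {P : Type v} {N : Type u} [Group P] [Group N] [MulDistribMulAction P N]
    {f : N → N} (hf : Equi P f) (p : P) (a b : N) :
    p • qop f a b = qop f (p • a) (p • b) := by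
  unfold qop
  rw [smul_mul', ← hf, smul_mul', smul_inv']

end GluedSetup

section
variable {P : Type v} [Group P] [Finite P] {L N T : Type u} [Group L] [Group N] [Finite N]
  [Group T] [MulDistribMulAction P L] [MulDistribMulAction P N] [MulDistribMulAction P T]

theorem glued_setup (hP : IsPGroup 2 P) (hN : Odd (Nat.card N)) {ι : L →* N} {π : N →* T}
    (hE : Ext P ι π) {g : T → T} {φ₁ φ₂ : L → L} {r : T → N} {f : N → N}
    (hf : Glued P ι π g φ₁ φ₂ r f) (h1r : Rig P φ₁)
    (hcon : ∀ h : L → T, (∀ x y, h (qop φ₁ x y) = qop g (h x) (h y)) → ∀ x, h x = h 1)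
    {α : Equiv.Perm N} (hα : α ∈ autGroup (qop f)) (hα1 : α 1 = 1) :
    ∃ (p₀ : P) (β : Equiv.Perm N), β ∈ autGroup (qop f) ∧ (∀ x, α x = p₀ • β x) ∧
      (∀ l, β (ι l) = ι l) ∧ ∃ pt : T → P, ∀ x l, β (x * ι l) = β x * ι (pt (π x) • l) := by
  have hα' : ∀ x y, α (qop f x y) = qop f (α x) (α y) := hα
  have : Finite L := Finite.of_injective ι hE.inj
  -- step 1
  have h1 : ∀ n l, π (α (n * ι l)) = π (α n) := by
    intro n l
    have := hcon (fun l => π (α (n * ι l))) (by
      intro x y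
      change π (α (n * ι (qop φ₁ x y))) = _
      rw [GluedSetup.coset_qop hf.on_L, hα']
      change π (α (n * ι x) * f ((α (n * ι x))⁻¹ * α (n * ι y))) = _
      rw [map_mul π, hf.proj, map_mul π, map_inv π]
      rfl) l
    simpa using this
  -- step 2
  have h2 : ∀ n l, ∃ m, ι m = (α n)⁻¹ * α (n * ι l) := by
    intro n l
    rw [← hE.exact, map_mul, map_inv, h1, inv_mul_cancel]
  choose ψ hψ using h2
  have h3 : ∀ n, ∃ p : P, ∀ l, ψ n l = p • l := by
    intro n
    have hinj : Function.Injective (ψ n) := by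
      intro a b hab
      have h4 : (α n)⁻¹ * α (n * ι a) = (α n)⁻¹ * α (n * ι b) := by
        rw [← hψ, ← hψ, hab]
      have h5 := mul_left_cancel h4
      have h6 := mul_left_cancel (α.injective h5)
      exact hE.inj h6
    let σ : Equiv.Perm L := Equiv.ofBijective (ψ n) (Finite.injective_iff_bijective.1 hinj)
    have hσ : ∀ l, σ l = ψ n l := fun l => rfl
    obtain ⟨p, hp⟩ := h1r σ (by
      intro x y
      apply hE.inj
      rw [hσ, hσ, hσ, hψ, GluedSetup.coset_qop hf.on_L, hα', GluedSetup.left_qop, ← hψ, ← hψ]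
      have h7 := GluedSetup.coset_qop hf.on_L 1 (ψ n x) (ψ n y)
      rw [one_mul, one_mul, one_mul] at h7
      exact h7.symm) (by
      apply hE.inj
      rw [hσ, hψ, map_one, mul_one, inv_mul_cancel])
    exact ⟨p, fun l => hp l⟩
  choose q hq using h3
  have h4 : ∀ n l, α (n * ι l) = α n * ι (q n • l) := by
    intro n l
    rw [← hq, hψ]
    group
  -- step 3
  have h5 : ∀ l, α (ι l) = ι (q 1 • l) := by
    intro l
    have := h4 1 l
    rwa [one_mul, hα1, one_mul] at this
  let β : Equiv.Perm N := α.trans (MulAction.toPerm (q 1)⁻¹)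
  have hβ : ∀ x, β x = (q 1)⁻¹ • α x := fun x => rfl
  have h6 : ∀ n l, β (n * ι l) = β n * ι (((q 1)⁻¹ * q n) • l) := by
    intro n l
    rw [hβ, hβ, h4, smul_mul', ← hE.equi, smul_smul]
  refine ⟨q 1, β, ?_, ?_, ?_, fun t => (q 1)⁻¹ * q (r t), ?_⟩
  · intro x y
    rw [hβ, hβ, hβ, hα', GluedSetup.smul_mem hf.equi]
  · intro x
    rw [hβ, smul_inv_smul]
  · intro l
    rw [hβ, h5, ← hE.equi, inv_smul_smul]
  · intro x l
    obtain ⟨l₀, hl₀⟩ := (hE.exact ((r (π x))⁻¹ * x)).1 (by
      rw [map_mul, map_inv, hf.sec, inv_mul_cancel])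
    have hx : x = r (π x) * ι l₀ := by
      rw [hl₀]
      group
    have h7 : β x = β (r (π x)) * ι (((q 1)⁻¹ * q (r (π x))) • l₀) := by
      rw [← h6, ← hx]
    have h8 : β (x * ι l) = β (r (π x)) * ι (((q 1)⁻¹ * q (r (π x))) • (l₀ * l)) := by
      rw [← h6, map_mul ι, ← mul_assoc, ← hx]
    rw [h8, h7, smul_mul', map_mul, mul_assoc]

end

end Pool.Agent.Lib_MP_8306f4_co.CaseB
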