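import Pool.Agent.Lib_MP_8306f4_co.CaseB.Defs
import Pool.Agent.Lib_MP_8306f4_co.CaseB.GluedA

/-!
# MP_8306f4_co, case B, piece GluedTn

Notation. x·y = qop f x y = x f(x⁻¹y) on N; lambda_m: y -> m y is always an automorphism of it
(f commutes with nothing needed). 1·y = f(y). If Equi P f, then y -> p•y is an automorphism.
core(A): a∘b = 2b-a. For every x: y -> x·y is bijective (f bijective), for every y: x -> x·y is
bijective (x⁻¹f(x) bijective). '2 is invertible': all groups N have odd order.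

## F3 (GluedTn.lean): glued_tn [F1]
t≠1, r=r(t), v=r(t⁻¹g(t)), β(r)=r' ι c with r'=r(t'), t'=π(β r)≠1, v'=r(t'⁻¹g(t')), p=pt t, p'=pt(g t).
For κ,u in L apply β to ικ·(r ι(κ^r u)) [κ^r := r⁻¹κ r in L]: get
 φ₂(E_κ (p•u)) = W_κ Ψ(φ₂ u), E_κ=(κ⁻¹)^{r'} c (p•κ^r), Ψ(w)=v'(p'•w^v)v'⁻¹, W_κ=(ικ r')⁻¹β(ικ r v)v'⁻¹.
So E_κE_1⁻¹=(κ^{r'})⁻¹·c(p•κ^r)c⁻¹ is in KL:={E : ∃W ∀y φ₂(Ey)=Wφ₂(y)} (a subgroup) for all κ. These
elements are of the form A1(κ)⁻¹A2(κ), A1,A2 automorphisms; they generate a normal subgroup of L inside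
KL, so TN gives A1=A2: p•(κ^r)=κ^{β(r)}: faith_conj gives p=1, then β(r)⁻¹r centralises L so t'=t, c in Z(L).
Same for g(t): p'=1. Now φ₂(c u)=W φ₂(u); zpowers c is central, so normal, in KL: c=1. So β=1.

-/

universe u v w

namespace Pool.Agent.Lib_MP_8306f4_co.CaseB

open Pool.Agent.Lib_MP_8306f4_co

namespace GluedTn

section
variable {P : Type v} [Group P] {L N T : Type u} [Group L] [Group N]
  [Group T] [MulDistribMulAction P L] [MulDistribMulAction P N] [MulDistribMulAction P T]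

/-- `ι L` is normal in `N`. -/
theorem exists_cj {ι : L →* N} {π : N →* T} (hE : Ext P ι π) (x : N) (l : L) :
    ∃ l', ι l' = x⁻¹ * ι l * x := by
  rw [← hE.exact, map_mul, map_mul, (hE.exact (ι l)).2 ⟨l, rfl⟩, map_inv]
  simp

/-- The main identity. -/
theorem main_id {ι : L →* N} {π : N →* T}
    (hE : Ext P ι π) {g : T → T} {φ₁ φ₂ : L → L} {r : T → N} {f : N → N}
    (hf : Glued P ι π g φ₁ φ₂ r f)
    {β : Equiv.Perm N} (hβ : β ∈ autGroup (qop f)) (hβL : ∀ l, β (ι l) = ι l) (pt : T → P)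
    (hpt : ∀ x l, β (x * ι l) = β x * ι (pt (π x) • l))
    {t t' : T} (ht : t ≠ 1) (ht' : t' ≠ 1) {c : L} (hc : β (r t) = r t' * ι c)
    {κ a b : L} (ha : ι a = (r t')⁻¹ * ι κ * r t') (hb : ι b = (r t)⁻¹ * ι κ * r t)
    {u w : L} (hw : ι w = (r (t⁻¹ * g t))⁻¹ * ι (φ₂ u) * r (t⁻¹ * g t)) :
    ι κ * (r t' * ι (φ₂ (a⁻¹ * c * (pt t • b) * (pt t • u))) * r (t'⁻¹ * g t')) =
      β (ι κ * r t * r (t⁻¹ * g t)) * ι (pt (g t) • w) := by
  have h1 := hβ (ι κ) (r t * ι (b * u))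
  have e1 : qop f (ι κ) (r t * ι (b * u)) = ι κ * r t * r (t⁻¹ * g t) * ι w := by
    unfold qop
    have e : (ι κ)⁻¹ * (r t * ι (b * u)) = r t * ι u := by
      rw [map_mul, hb]; group
    rw [e, hf.off_L t ht, hw]; group
  have e2 : qop f (β (ι κ)) (β (r t * ι (b * u))) =
      ι κ * (r t' * ι (φ₂ (a⁻¹ * c * (pt t • b) * (pt t • u))) * r (t'⁻¹ * g t')) := by
    rw [hβL, hpt, hf.sec, hc]
    unfold qop
    have e : (ι κ)⁻¹ * (r t' * ι c * ι (pt t • (b * u))) =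
        r t' * ι (a⁻¹ * c * (pt t • b) * (pt t • u)) := by
      rw [smul_mul', map_mul, map_mul, map_mul, map_mul, map_inv, ha]; group
    rw [e, hf.off_L t' ht']
  have e3 : π (ι κ * r t * r (t⁻¹ * g t)) = g t := by
    rw [map_mul, map_mul, (hE.exact (ι κ)).2 ⟨κ, rfl⟩, hf.sec, hf.sec]
    group
  rw [e1, e2, hpt, e3] at h1
  exact h1.symm

/-- The elements `(κ^{r'})⁻¹ c (p • κ^r) c⁻¹`. -/
theorem mem_KL {ι : L →* N} {π : N →* T}
    (hE : Ext P ι π) {g : T → T} {φ₁ φ₂ : L → L} {r : T → N} {f : N → N}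
    (hf : Glued P ι π g φ₁ φ₂ r f)
    {β : Equiv.Perm N} (hβ : β ∈ autGroup (qop f)) (hβL : ∀ l, β (ι l) = ι l) (pt : T → P)
    (hpt : ∀ x l, β (x * ι l) = β x * ι (pt (π x) • l))
    {t t' : T} (ht : t ≠ 1) (ht' : t' ≠ 1) {c : L} (hc : β (r t) = r t' * ι c)
    {κ a b : L} (ha : ι a = (r t')⁻¹ * ι κ * r t') (hb : ι b = (r t)⁻¹ * ι κ * r t) :
    ∃ W, ∀ y, φ₂ (a⁻¹ * (c * (pt t • b) * c⁻¹) * y) = W * φ₂ y := by
  have key : ∀ y, ι (φ₂ (a⁻¹ * (c * (pt t • b) * c⁻¹) * y)) =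
      ((r t')⁻¹ * (ι κ)⁻¹ * β (ι κ * r t * r (t⁻¹ * g t)) *
        (β (r t * r (t⁻¹ * g t)))⁻¹ * r t') * ι (φ₂ y) := by
    intro y
    set u : L := (pt t)⁻¹ • (c⁻¹ * y) with hu
    have hu1 : pt t • u = c⁻¹ * y := by rw [hu, smul_inv_smul]
    obtain ⟨w, hw⟩ := exists_cj hE (r (t⁻¹ * g t)) (φ₂ u)
    have h1 := main_id hE hf hβ hβL pt hpt ht ht' hc ha hb hw
    have h2 := main_id hE hf hβ hβL pt hpt ht ht' hc (κ := 1) (a := 1) (b := 1)
      (by simp) (by simp) hw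
    rw [hu1] at h1 h2
    have e1 : a⁻¹ * (c * (pt t • b) * c⁻¹) * y = a⁻¹ * c * (pt t • b) * (c⁻¹ * y) := by group
    have e2 : (1 : L)⁻¹ * c * (pt t • (1 : L)) * (c⁻¹ * y) = y := by
      rw [smul_one]; group
    rw [e2, map_one, one_mul, one_mul] at h2
    rw [e1]
    have h3 : ι (pt (g t) • w) = (β (r t * r (t⁻¹ * g t)))⁻¹ *
        (r t' * ι (φ₂ y) * r (t'⁻¹ * g t')) := by
      rw [h2]; group
    rw [h3] at h1
    have h4 : ι (φ₂ (a⁻¹ * c * (pt t • b) * (c⁻¹ * y))) = (r t')⁻¹ * (ι κ)⁻¹ *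
        (ι κ * (r t' * ι (φ₂ (a⁻¹ * c * (pt t • b) * (c⁻¹ * y))) * r (t'⁻¹ * g t'))) *
        (r (t'⁻¹ * g t'))⁻¹ := by group
    rw [h4, h1]
    group
  refine ⟨φ₂ (a⁻¹ * (c * (pt t • b) * c⁻¹) * 1) * (φ₂ 1)⁻¹, fun y => ?_⟩
  apply hE.inj
  rw [key y, map_mul ι, map_mul ι, key 1, map_inv]
  group

end

section
variable {L : Type u} [Group L]

/-- The elements `E` such that `φ (E y) = W φ(y)` for some `W`. -/
def KLs (φ : L → L) : Subgroup L where
  carrier := {E | ∃ W, ∀ y, φ (E * y) = W * φ y}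
  one_mem' := ⟨1, fun y => by rw [one_mul, one_mul]⟩
  mul_mem' := by
    rintro a b ⟨W, hW⟩ ⟨V, hV⟩
    exact ⟨W * V, fun y => by rw [mul_assoc, hW, hV, mul_assoc]⟩
  inv_mem' := by
    rintro a ⟨W, hW⟩
    refine ⟨W⁻¹, fun y => ?_⟩
    have := hW (a⁻¹ * y)
    rw [mul_inv_cancel_left] at this
    rw [this, inv_mul_cancel_left]

theorem closure_normal (A1 A2 : L → L) (h1 : ∀ x y, A1 (x * y) = A1 x * A1 y)
    (h2 : ∀ x y, A2 (x * y) = A2 x * A2 y) (hs : Function.Surjective A1) :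
    (Subgroup.closure (Set.range fun κ => (A1 κ)⁻¹ * A2 κ)).Normal := by
  constructor
  intro n hn x
  induction hn using Subgroup.closure_induction with
  | mem y hy =>
    obtain ⟨κ, rfl⟩ := hy
    obtain ⟨l, hl⟩ := hs x⁻¹
    have e : x * ((A1 κ)⁻¹ * A2 κ) * x⁻¹ =
        ((A1 (κ * l))⁻¹ * A2 (κ * l)) * ((A1 l)⁻¹ * A2 l)⁻¹ := by
      rw [h1, h2, hl]; group
    simp only
    rw [e]
    exact Subgroup.mul_mem _ (Subgroup.subset_closure ⟨_, rfl⟩)
      (Subgroup.inv_mem _ (Subgroup.subset_closure ⟨_, rfl⟩))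
  | one => simp
  | mul a b _ _ ha hb =>
    have e : x * (a * b) * x⁻¹ = (x * a * x⁻¹) * (x * b * x⁻¹) := by group
    rw [e]
    exact Subgroup.mul_mem _ ha hb
  | inv a _ ha =>
    have e : x * a⁻¹ * x⁻¹ = (x * a * x⁻¹)⁻¹ := by group
    rw [e]
    exact Subgroup.inv_mem _ ha

end

section
variable {P : Type v} [Group P] {L N T : Type u} [Group L] [Group N]
  [Group T] [MulDistribMulAction P L] [MulDistribMulAction P N] [MulDistribMulAction P T]

/-- `β(r t) = r t' ι c` with `t' ≠ 1`. -/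
theorem exists_c {ι : L →* N} {π : N →* T}
    (hE : Ext P ι π) {g : T → T} {φ₁ φ₂ : L → L} {r : T → N} {f : N → N}
    (hf : Glued P ι π g φ₁ φ₂ r f)
    {β : Equiv.Perm N} (hβL : ∀ l, β (ι l) = ι l)
    {t : T} (ht : t ≠ 1) : ∃ t' : T, t' ≠ 1 ∧ ∃ c : L, β (r t) = r t' * ι c := by
  refine ⟨π (β (r t)), ?_, ?_⟩
  · intro h
    obtain ⟨l, hl⟩ := (hE.exact _).1 h
    rw [← hβL] at hl
    have := β.injective hl
    apply ht
    rw [← hf.sec t, ← this]
    exact (hE.exact _).2 ⟨l, rfl⟩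
  · have h : π ((r (π (β (r t))))⁻¹ * β (r t)) = 1 := by
      rw [map_mul, map_inv, hf.sec]; group
    obtain ⟨c, hc⟩ := (hE.exact _).1 h
    exact ⟨c, by rw [hc]; group⟩

end

end GluedTn

open GluedTn

section
variable {P : Type v} [Group P] [Finite P] {L N T : Type u} [Group L] [Group N] [Finite N]
  [Group T] [MulDistribMulAction P L] [MulDistribMulAction P N] [MulDistribMulAction P T]

theorem glued_tn (hP : IsPGroup 2 P) (hN : Odd (Nat.card N)) {ι : L →* N} {π : N →* T}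
    (hE : Ext P ι π) {g : T → T} {φ₁ φ₂ : L → L} {r : T → N} {f : N → N}
    (hf : Glued P ι π g φ₁ φ₂ r f) (hTN : TN φ₂)
    {β : Equiv.Perm N} (hβ : β ∈ autGroup (qop f)) (hβL : ∀ l, β (ι l) = ι l) (pt : T → P)
    (hpt : ∀ x l, β (x * ι l) = β x * ι (pt (π x) • l)) : β = 1 := by
  have step : ∀ t : T, t ≠ 1 → pt t = 1 ∧ ∃ c ∈ Subgroup.center L, β (r t) = r t * ι c := by
    intro t ht
    obtain ⟨t', ht', c, hc⟩ := exists_c hE hf hβL ht
    choose A1 hA1 using exists_cj hE (r t')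
    choose B hB using exists_cj hE (r t)
    have m1 : ∀ x y, A1 (x * y) = A1 x * A1 y := by
      intro x y
      apply hE.inj
      rw [hA1, map_mul, map_mul, hA1, hA1]; group
    have mB : ∀ x y, B (x * y) = B x * B y := by
      intro x y
      apply hE.inj
      rw [hB, map_mul, map_mul, hB, hB]; group
    have m2 : ∀ x y, c * (pt t • B (x * y)) * c⁻¹ =
        (c * (pt t • B x) * c⁻¹) * (c * (pt t • B y) * c⁻¹) := by
      intro x y
      rw [mB, smul_mul']; group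
    have s1 : Function.Surjective A1 := by
      intro x
      obtain ⟨y, hy⟩ := exists_cj hE (r t')⁻¹ x
      refine ⟨y, hE.inj ?_⟩
      rw [hA1, hy]; group
    have hn := closure_normal A1 (fun κ => c * (pt t • B κ) * c⁻¹) m1 m2 s1
    have hle : Subgroup.closure (Set.range fun κ => (A1 κ)⁻¹ * (c * (pt t • B κ) * c⁻¹)) ≤
        KLs φ₂ := by
      rw [Subgroup.closure_le]
      rintro _ ⟨κ, rfl⟩
      exact mem_KL hE hf hβ hβL pt hpt ht ht' hc (hA1 κ) (hB κ)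
    have hbot := hTN _ hn (fun E hE' => hle hE')
    have hF : ∀ κ, (A1 κ)⁻¹ * (c * (pt t • B κ) * c⁻¹) = 1 := by
      intro κ
      have : (A1 κ)⁻¹ * (c * (pt t • B κ) * c⁻¹) ∈
          Subgroup.closure (Set.range fun κ => (A1 κ)⁻¹ * (c * (pt t • B κ) * c⁻¹)) :=
        Subgroup.subset_closure ⟨κ, rfl⟩
      rw [hbot] at this
      exact Subgroup.mem_bot.1 this
    have hconj : ∀ l, ι (pt t • l) = ((β (r t))⁻¹ * r t) * ι l * ((β (r t))⁻¹ * r t)⁻¹ := by
      intro l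
      obtain ⟨κ, hκ⟩ := exists_cj hE (r t)⁻¹ l
      have e1 : B κ = l := by
        apply hE.inj
        rw [hB, hκ]; group
      have e2 := hF κ
      rw [e1] at e2
      have e3 : pt t • l = c⁻¹ * A1 κ * c := by
        have : c * (pt t • l) * c⁻¹ = A1 κ := by
          exact (inv_mul_eq_one.1 e2).symm
        rw [← this]; group
      rw [e3, map_mul, map_mul, hA1, hκ, hc, map_inv]; group
    have hp := faith_conj hP hN hE hconj
    refine ⟨hp, ?_⟩
    have hcomm : ∀ l, ((β (r t))⁻¹ * r t) * ι l = ι l * ((β (r t))⁻¹ * r t) := by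
      intro l
      have := hconj l
      rw [hp, one_smul] at this
      rw [eq_mul_inv_iff_mul_eq] at this
      exact this.symm
    have hπ := hE.cent _ hcomm
    have htt : t' = t := by
      rw [map_mul, map_inv, hc, map_mul, hf.sec, hf.sec, (hE.exact (ι c)).2 ⟨c, rfl⟩, mul_one]
        at hπ
      exact inv_mul_eq_one.1 hπ
    rw [htt] at hc
    refine ⟨c, ?_, hc⟩
    rw [Subgroup.mem_center_iff]
    intro l
    apply hE.inj
    have := hcomm l
    rw [hc] at this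
    have e : (r t * ι c)⁻¹ * r t = (ι c)⁻¹ := by group
    rw [e] at this
    rw [map_mul, map_mul]
    have h2 : ι l * ι c = ι c * ((ι c)⁻¹ * ι l) * ι c := by group
    rw [h2, this]; group
  have hc1 : ∀ t : T, t ≠ 1 → β (r t) = r t := by
    intro t ht
    obtain ⟨hp, c, hcen, hc⟩ := step t ht
    have hgt : g t ≠ 1 := by
      intro h
      apply ht
      apply hf.gorth.1.1
      rw [h, hf.gone]
    have hp' := (step (g t) hgt).1
    have hKL : c ∈ KLs φ₂ := by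
      have key : ∀ u, ι (φ₂ (c * u)) = ((r t)⁻¹ * β (r t * r (t⁻¹ * g t)) *
          (r (t⁻¹ * g t))⁻¹) * ι (φ₂ u) := by
        intro u
        obtain ⟨w, hw⟩ := exists_cj hE (r (t⁻¹ * g t)) (φ₂ u)
        have h2 := main_id hE hf hβ hβL pt hpt ht ht hc (κ := 1) (a := 1) (b := 1)
          (by simp) (by simp) hw
        rw [hp, hp', one_smul, one_smul, one_smul, map_one, one_mul, one_mul, hw] at h2
        have e : (1 : L)⁻¹ * c * 1 * u = c * u := by group
        rw [e] at h2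
        have h3 : ι (φ₂ (c * u)) = (r t)⁻¹ * (r t * ι (φ₂ (c * u)) * r (t⁻¹ * g t)) *
            (r (t⁻¹ * g t))⁻¹ := by group
        rw [h3, h2]; group
      refine ⟨φ₂ (c * 1) * (φ₂ 1)⁻¹, fun y => ?_⟩
      apply hE.inj
      rw [key y, map_mul ι, map_mul ι, key 1, map_inv]; group
    have hz : Subgroup.zpowers c ≤ Subgroup.center L := by
      rw [Subgroup.zpowers_le]; exact hcen
    have hnorm : (Subgroup.zpowers c).Normal := by
      constructor
      intro n hn x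
      have h1 := Subgroup.mem_center_iff.1 (hz hn) x
      rw [h1, mul_inv_cancel_right]
      exact hn
    have hbot := hTN _ hnorm (fun E hE' => by
      have : Subgroup.zpowers c ≤ KLs φ₂ := by
        rw [Subgroup.zpowers_le]; exact hKL
      exact this hE')
    have hc0 : c = 1 := by
      have : c ∈ Subgroup.zpowers c := Subgroup.mem_zpowers c
      rw [hbot] at this
      exact Subgroup.mem_bot.1 this
    rw [hc, hc0, map_one, mul_one]
  ext x
  rw [Equiv.Perm.one_apply]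
  by_cases hx : π x = 1
  · obtain ⟨l, rfl⟩ := (hE.exact x).1 hx
    exact hβL l
  · have h : π ((r (π x))⁻¹ * x) = 1 := by
      rw [map_mul, map_inv, hf.sec]; group
    obtain ⟨l, hl⟩ := (hE.exact _).1 h
    have e : x = r (π x) * ι l := by rw [hl]; group
    conv_lhs => rw [e]
    rw [hpt, hf.sec, (step _ hx).1, one_smul, hc1 _ hx, ← e]

end

end Pool.Agent.Lib_MP_8306f4_co.CaseB
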