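import Pool.Agent.Lib_MP_8306f4_co.CaseB.Defs
import Pool.Agent.Lib_MP_8306f4_co.CaseB.GluedA
import Pool.Agent.Lib_MP_8306f4_co.CaseB.GluedTn

/-!
# MP_8306f4_co, case B, piece GluedSquare

Notation. x·y = qop f x y = x f(x⁻¹y) on N; lambda_m: y -> m y is always an automorphism of it
(f commutes with nothing needed). 1·y = f(y). If Equi P f, then y -> p•y is an automorphism.
core(A): a∘b = 2b-a. For every x: y -> x·y is bijective (f bijective), for every y: x -> x·y is
bijective (x⁻¹f(x) bijective). '2 is invertible': all groups N have odd order.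

## F4 (GluedSquare.lean): glued_square [F1]
f(r ι l)=r ι(l²) v. Write β(kx)=b_x(k)β(x), k in L (identify L with ι L): b_x(k)=β(x)(pt•(x⁻¹kx))β(x)⁻¹,
depends only on the coset of x; b_x=id for x in L.
(1) as in F3 with φ₂=square, KL=Z(L): κ⁻¹b_x(κ) in Z(L) for all κ in L, x not in L.
(2) k in Z(L): f(ky)=k²f(y), k·y=k⁻¹(1·y) for y not in L. β(f(ky))=f(β(ky)): b_{f y}(k)²=b_y(k)²; β(k·y)=k·β(y):
b_{f y}(k)=k. So b_x(k)=k for k in Z(L).
(3) So b_x has order dividing exponent(Z(L)) (odd); b_x=conj_{n0}∘p with n0=β(x)(p•x⁻¹), p=pt; e odd with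
b_x^e=1: p^e acts as a conjugation, so p^e=1 (faith_conj), p=1.
(4) p=1: b_x=conj by β(x)x⁻¹, trivial on Z(L) and L/Z(L): hD: β(x)x⁻¹ =: δ(x) in L, δ(kx)=δ(x).
(5) δ(x) in Z(L): y=r l, d=δ(y), d'=δ(f y) (same for all l), β(f y)=f(β y): with b=d^r: (b l)²=d'^r l² for all l,
l=1: d'^r=b², so l b l⁻¹=b.
(6) for x̄≠ȳ: δ(x·y)=δ(x)⁻¹δ(y)² ; trivial if x̄=ȳ. hcen: δ=1.

-/

universe u v w

namespace Pool.Agent.Lib_MP_8306f4_co.CaseB

open Pool.Agent.Lib_MP_8306f4_co

namespace GluedSquare

open GluedTn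

section
variable {L : Type u} [Group L]

theorem odd_sq_inj [Finite L] (hL : Odd (Nat.card L)) {x : L} (h : x ^ 2 = 1) : x = 1 := by
  have h1 : x ^ Nat.card L = 1 := pow_card_eq_one'
  obtain ⟨k, hk⟩ := hL
  rw [hk, pow_add, pow_mul, h, one_pow, one_mul, pow_one] at h1
  exact h1

theorem mem_center_of_KL {E : L} (h : ∃ W, ∀ y : L, (E * y) ^ 2 = W * y ^ 2) :
    E ∈ Subgroup.center L := by
  obtain ⟨W, hW⟩ := h
  have h1 := hW 1
  rw [mul_one, one_pow, mul_one] at h1
  rw [Subgroup.mem_center_iff]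
  intro y
  have h2 := hW y
  rw [← h1, pow_two, pow_two, pow_two] at h2
  have h3 : E * (y * E) * y = E * (E * y) * y := by
    calc E * (y * E) * y = E * y * (E * y) := by group
      _ = E * E * (y * y) := h2
      _ = E * (E * y) * y := by group
  exact mul_left_cancel (mul_right_cancel h3)

end

section
variable {P : Type v} [Group P] {L N T : Type u} [Group L] [Group N]
  [Group T] [MulDistribMulAction P L] [MulDistribMulAction P N] [MulDistribMulAction P T]

/-- the centre of `L` is invariant under the conjugations by elements of `N` -/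
theorem cj_center {ι : L →* N} {π : N →* T} (hE : Ext P ι π) {x : N} {l l' : L}
    (h : ι l' = x⁻¹ * ι l * x) (hl : l ∈ Subgroup.center L) : l' ∈ Subgroup.center L := by
  rw [Subgroup.mem_center_iff] at hl ⊢
  intro y
  obtain ⟨y', hy'⟩ := exists_cj hE x⁻¹ y
  rw [inv_inv] at hy'
  apply hE.inj
  have h1 := congrArg ι (hl y')
  rw [map_mul, map_mul, hy'] at h1
  rw [map_mul, map_mul, h]
  calc ι y * (x⁻¹ * ι l * x) = x⁻¹ * (x * ι y * x⁻¹ * ι l) * x := by group
    _ = x⁻¹ * (ι l * (x * ι y * x⁻¹)) * x := by rw [h1]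
    _ = x⁻¹ * ι l * x * ι y := by group

theorem smul_center {p : P} {l : L} (hl : l ∈ Subgroup.center L) :
    p • l ∈ Subgroup.center L := by
  rw [Subgroup.mem_center_iff] at hl ⊢
  intro y
  have h := congrArg (fun z => p • z) (hl (p⁻¹ • y))
  simp only [smul_mul', smul_inv_smul] at h
  exact h

end

end GluedSquare

open GluedSquare GluedTn

section
variable {P : Type v} [Group P] [Finite P] {L N T : Type u} [Group L] [Group N] [Finite N]
  [Group T] [MulDistribMulAction P L] [MulDistribMulAction P N] [MulDistribMulAction P T]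

theorem glued_square (hP : IsPGroup 2 P) (hN : Odd (Nat.card N)) {ι : L →* N} {π : N →* T}
    (hE : Ext P ι π) {g : T → T} {φ₁ : L → L} {r : T → N} {f : N → N}
    (hf : Glued P ι π g φ₁ (fun l => l ^ 2) r f)
    (hD : ∀ n : N, (∀ l ∈ Subgroup.center L, n * ι l = ι l * n) →
      (∀ l : L, ∃ c ∈ Subgroup.center L, n * ι l * n⁻¹ = ι (l * c)) → π n = 1)
    (hcen : ∀ δ : T → L, (∀ t, δ t ∈ Subgroup.center L) →
      (∀ x y, δ (qop g x y) = (δ x)⁻¹ * δ y ^ 2) → ∀ x, δ x = δ 1)
    {β : Equiv.Perm N} (hβ : β ∈ autGroup (qop f)) (hβL : ∀ l, β (ι l) = ι l) (pt : T → P)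
    (hpt : ∀ x l, β (x * ι l) = β x * ι (pt (π x) • l)) : β = 1 := by
  have πι : ∀ l, π (ι l) = 1 := fun l => (hE.exact (ι l)).2 ⟨l, rfl⟩
  have exk : ∀ x y : N, π x = π y → ∃ k, x = ι k * y := by
    intro x y h
    have h1 : π (x * y⁻¹) = 1 := by rw [map_mul, map_inv, h]; group
    obtain ⟨k, hk⟩ := (hE.exact _).1 h1
    exact ⟨k, by rw [hk]; group⟩
  choose C hC using exists_cj hE
  have exb : ∀ (x : N) (k : L), ∃ b, ι b = β x * ι (pt (π x) • C x k) * (β x)⁻¹ := by
    intro x k
    obtain ⟨b, hb⟩ := exists_cj hE (β x)⁻¹ (pt (π x) • C x k)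
    exact ⟨b, by rw [hb, inv_inv]⟩
  choose b hbdef using exb
  have hb : ∀ x k, β (ι k * x) = ι (b x k) * β x := by
    intro x k
    have e : ι k * x = x * ι (C x k) := by rw [hC]; group
    rw [e, hpt, hbdef]; group
  have C_mul : ∀ x k k', C x (k * k') = C x k * C x k' := by
    intro x k k'
    apply hE.inj
    rw [hC, map_mul, map_mul, hC, hC]; group
  have b_mul : ∀ x k k', b x (k * k') = b x k * b x k' := by
    intro x k k'
    apply hE.inj
    rw [hbdef, map_mul ι, hbdef, hbdef, C_mul, smul_mul', map_mul ι]; group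
  have hbπ : ∀ x y k, π x = π y → b x k = b y k := by
    intro x y k h
    obtain ⟨k', rfl⟩ := exk x y h
    apply hE.inj
    have h1 := hb (ι k' * y) k
    have h2 := hb y (k * k')
    rw [map_mul ι, mul_assoc, h1, b_mul, map_mul ι, mul_assoc, ← hb y k'] at h2
    exact mul_right_cancel h2
  have hβ1 : β 1 = 1 := by
    have := hβL 1
    rwa [map_one] at this
  have hβf : ∀ y, β (f y) = f (β y) := by
    intro y
    have h := hβ 1 y
    unfold qop at h
    rw [hβ1] at h
    simpa using h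
  have hπβ : ∀ y, π y ≠ 1 → π (β y) ≠ 1 := by
    intro y hy h
    obtain ⟨l, hl⟩ := (hE.exact _).1 h
    rw [← hβL] at hl
    have := β.injective hl
    apply hy
    rw [← this]; exact πι l
  have decomp : ∀ y, ∃ l, y = r (π y) * ι l := by
    intro y
    have h : π ((r (π y))⁻¹ * y) = 1 := by
      rw [map_mul, map_inv, hf.sec]; group
    obtain ⟨l, hl⟩ := (hE.exact _).1 h
    exact ⟨l, by rw [hl]; group⟩
  -- `f (k y) = k ^ 2 f(y)` for `k` in the centre
  have fcen : ∀ k ∈ Subgroup.center L, ∀ y, π y ≠ 1 → f (ι k * y) = ι k ^ 2 * f y := by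
    intro k hk y hy
    obtain ⟨l, hl⟩ := decomp y
    have e : ι k * y = r (π y) * ι (C (r (π y)) k * l) := by
      rw [map_mul ι, hC]
      conv_lhs => rw [hl]
      group
    have hcen' := cj_center hE (hC (r (π y)) k) hk
    rw [Subgroup.mem_center_iff] at hcen'
    have e2 : (C (r (π y)) k * l) ^ 2 = C (r (π y)) k ^ 2 * l ^ 2 := by
      rw [pow_two, pow_two, pow_two]
      calc C (r (π y)) k * l * (C (r (π y)) k * l) =
          C (r (π y)) k * (l * C (r (π y)) k) * l := by group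
        _ = C (r (π y)) k * (C (r (π y)) k * l) * l := by rw [hcen' l]
        _ = C (r (π y)) k * C (r (π y)) k * (l * l) := by group
    have e3 : f y = r (π y) * ι (l ^ 2) * r ((π y)⁻¹ * g (π y)) := by
      conv_lhs => rw [hl]
      exact hf.off_L (π y) hy l
    rw [e, hf.off_L (π y) hy]
    rw [e2, e3, map_mul ι, map_pow ι, hC]
    simp only [pow_two]
    group
  have b_cen : ∀ x, ∀ k ∈ Subgroup.center L, b x k ∈ Subgroup.center L := by
    intro x k hk
    have h1 := cj_center hE (hC x k) hk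
    have h2 := smul_center (p := pt (π x)) h1
    refine cj_center hE (x := (β x)⁻¹) (l := pt (π x) • C x k) ?_ h2
    rw [hbdef, inv_inv]
  have hgs : ∀ x, π x ≠ 1 → ∃ t : T, t ≠ 1 ∧ g t = π x := by
    intro x hx
    obtain ⟨t, ht⟩ := hf.gorth.1.2 (π x)
    refine ⟨t, ?_, ht⟩
    rintro rfl
    rw [hf.gone] at ht
    exact hx ht.symm
  have bfix0 : ∀ y, π y ≠ 1 → ∀ k ∈ Subgroup.center L, b (f y) k⁻¹ = k⁻¹ := by
    intro y hy k hk
    have h := hβ (ι k) y
    have e : ∀ z, π z ≠ 1 → qop f (ι k) z = ι k⁻¹ * f z := by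
      intro z hz
      unfold qop
      have h1 := fcen k⁻¹ (Subgroup.inv_mem _ hk) z hz
      rw [map_inv] at h1
      rw [h1, map_inv]; simp only [pow_two]; group
    rw [hβL, e y hy, e (β y) (hπβ y hy), hb, ← hβf] at h
    exact hE.inj (mul_right_cancel h)
  have bfix : ∀ x, π x ≠ 1 → ∀ k ∈ Subgroup.center L, b x k = k := by
    intro x hx k hk
    obtain ⟨t, ht, hgt⟩ := hgs x hx
    have h1 := bfix0 (r t) (by rw [hf.sec]; exact ht) k⁻¹ (Subgroup.inv_mem _ hk)
    rw [inv_inv] at h1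
    rw [← h1]
    rw [hbπ x (f (r t)) (b (f (r t)) k) (by rw [hf.proj, hf.sec, hgt]), h1, h1]
  -- (1)
  have bmod : ∀ x, π x ≠ 1 → ∀ κ, κ⁻¹ * b x κ ∈ Subgroup.center L := by
    intro x hx κ
    rw [hbπ x (r (π x)) κ (hf.sec _).symm]
    generalize π x = t at hx
    obtain ⟨t', ht', c, hc⟩ := exists_c hE hf hβL hx
    have h1 := mem_center_of_KL
      (mem_KL hE hf hβ hβL pt hpt hx ht' hc (hC (r t') κ) (hC (r t) κ))
    refine cj_center hE (x := (r t')⁻¹) ?_ h1
    rw [map_mul ι, map_mul ι, map_mul ι, map_mul ι, map_inv, map_inv, map_inv, hbdef, hC, hc, hf.sec]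
    group
  -- (3)
  have hp : ∀ x, π x ≠ 1 → pt (π x) = 1 := by
    intro x hx
    have it1 : ∀ κ n, (b x)^[n] κ = κ * (κ⁻¹ * b x κ) ^ n := by
      intro κ n
      induction n with
      | zero => simp
      | succ n ih =>
        rw [Function.iterate_succ_apply', ih, b_mul,
          bfix x hx _ (Subgroup.pow_mem _ (bmod x hx κ) n)]
        rw [pow_succ', ← mul_assoc κ, mul_inv_cancel_left]
    have it2 : ∀ n, ∃ m : N, ∀ κ, ι ((b x)^[n] κ) = m * ι ((pt (π x)) ^ n • κ) * m⁻¹ := by
      intro n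
      induction n with
      | zero => exact ⟨1, fun κ => by simp⟩
      | succ n ih =>
        obtain ⟨m, hm⟩ := ih
        refine ⟨β x * (pt (π x) • x)⁻¹ * (pt (π x) • m), fun κ => ?_⟩
        rw [Function.iterate_succ_apply', hbdef, hE.equi, hC, smul_mul', smul_mul', smul_inv', hm,
          smul_mul', smul_mul', smul_inv', ← hE.equi, pow_succ', mul_smul]
        group
    obtain ⟨m, hm⟩ := it2 (Nat.card N)
    have h1 : ∀ κ, ι ((pt (π x)) ^ Nat.card N • κ) = m⁻¹ * ι κ * m⁻¹⁻¹ := by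
      intro κ
      have h2 := hm κ
      rw [it1] at h2
      have h3 : (κ⁻¹ * b x κ) ^ Nat.card N = 1 := by
        apply hE.inj
        rw [map_pow, map_one, pow_card_eq_one']
      rw [h3, mul_one] at h2
      rw [h2]; group
    have h2 := faith_conj hP hN hE h1
    obtain ⟨j, hj⟩ := hP (pt (π x))
    have h3 := orderOf_dvd_of_pow_eq_one h2
    have h4 := orderOf_dvd_of_pow_eq_one hj
    have h5 : Nat.Coprime (2 ^ j) (Nat.card N) := Nat.Coprime.pow_left j (by
      rw [Nat.coprime_two_left]; exact hN)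
    rw [← orderOf_eq_one_iff]
    exact Nat.eq_one_of_dvd_coprimes h5 h4 h3
  have hbn : ∀ x, π x ≠ 1 → ∀ κ, ι (b x κ) = (β x * x⁻¹) * ι κ * (β x * x⁻¹)⁻¹ := by
    intro x hx κ
    rw [hbdef, hp x hx, one_smul, hC]; group
  -- (4)
  have exδ : ∀ x, ∃ d, β x = ι d * x := by
    intro x
    by_cases hx : π x = 1
    · obtain ⟨l, rfl⟩ := (hE.exact x).1 hx
      exact ⟨1, by rw [hβL]; simp⟩
    · have h := hD (β x * x⁻¹) (by
        intro l hl
        have h1 := hbn x hx l
        rw [bfix x hx l hl] at h1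
        rw [eq_mul_inv_iff_mul_eq] at h1
        exact h1.symm) (by
        intro l
        refine ⟨l⁻¹ * b x l, bmod x hx l, ?_⟩
        rw [← hbn x hx l, mul_inv_cancel_left])
      obtain ⟨d, hd⟩ := (hE.exact _).1 h
      exact ⟨d, by rw [hd]; group⟩
  choose δ hδ using exδ
  have δL : ∀ l, δ (ι l) = 1 := by
    intro l
    apply hE.inj
    have h := hδ (ι l)
    rw [hβL] at h
    rw [map_one]
    exact (mul_eq_right.1 h.symm)
  have δk : ∀ k x, δ (ι k * x) = δ x := by
    intro k x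
    by_cases hx : π x = 1
    · obtain ⟨l, rfl⟩ := (hE.exact x).1 hx
      rw [← map_mul, δL, δL]
    · apply hE.inj
      have h := hδ (ι k * x)
      rw [hb, hbn x hx, hδ x] at h
      have h2 : ι (δ x) * x * x⁻¹ * ι k * (ι (δ x) * x * x⁻¹)⁻¹ * (ι (δ x) * x) =
          ι (δ x) * (ι k * x) := by group
      rw [h2] at h
      exact (mul_right_cancel h).symm
  have δπ : ∀ x y, π x = π y → δ x = δ y := by
    intro x y h
    obtain ⟨k, rfl⟩ := exk x y h
    exact δk k y
  -- (5)
  have δcen : ∀ t, δ (r t) ∈ Subgroup.center L := by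
    intro t
    by_cases ht : t = 1
    · rw [ht, hf.sec_one]
      have := δL 1
      rw [map_one] at this
      rw [this]
      exact Subgroup.one_mem _
    · have key : ∀ l, (C (r t) (δ (r t)) * l) ^ 2 = C (r t) (δ (f (r t))) * l ^ 2 := by
        intro l
        have h := hβf (r t * ι l)
        have e1 : β (r t * ι l) = r t * ι (C (r t) (δ (r t)) * l) := by
          rw [hδ, δπ (r t * ι l) (r t) (by rw [map_mul, πι, mul_one]), map_mul ι, hC]; group
        have e2 : δ (f (r t * ι l)) = δ (f (r t)) := by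
          apply δπ
          rw [hf.proj, hf.proj, map_mul, πι, mul_one]
        rw [e1, hδ (f (r t * ι l)), e2, hf.off_L t ht, hf.off_L t ht] at h
        apply hE.inj
        rw [map_mul ι, hC]
        have h3 : ι ((C (r t) (δ (r t)) * l) ^ 2) = (r t)⁻¹ *
          (r t * ι ((C (r t) (δ (r t)) * l) ^ 2) * r (t⁻¹ * g t)) * (r (t⁻¹ * g t))⁻¹ := by group
        rw [h3, ← h]; group
      have h1 : C (r t) (δ (r t)) ∈ Subgroup.center L := by
        apply mem_center_of_KL
        exact ⟨_, key⟩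
      refine cj_center hE (x := (r t)⁻¹) ?_ h1
      rw [hC]; group
  -- (6)
  have hid : ∀ x y, δ (r (qop g x y)) = (δ (r x))⁻¹ * δ (r y) ^ 2 := by
    intro x y
    by_cases hxy : x = y
    · subst hxy
      have : qop g x x = x := by
        unfold qop
        rw [inv_mul_cancel, hf.gone, mul_one]
      rw [this]; group
    · have e0 : δ (r (qop g x y)) = δ (qop f (r x) (r y)) := by
        apply δπ
        unfold qop
        rw [hf.sec, map_mul, hf.proj, map_mul, map_inv, hf.sec, hf.sec]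
      rw [e0]
      apply hE.inj
      have h := hβ (r x) (r y)
      rw [hδ (qop f (r x) (r y))] at h
      have e1 : qop f (β (r x)) (β (r y)) =
          ι ((δ (r x))⁻¹ * δ (r y) ^ 2) * qop f (r x) (r y) := by
        rw [hδ (r x), hδ (r y)]
        unfold qop
        have e2 : (ι (δ (r x)) * r x)⁻¹ * (ι (δ (r y)) * r y) =
            ι (C (r x) ((δ (r x))⁻¹ * δ (r y))) * ((r x)⁻¹ * r y) := by
          rw [hC, map_mul ι, map_inv]; group
        have hz : (δ (r x))⁻¹ * δ (r y) ∈ Subgroup.center L :=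
          Subgroup.mul_mem _ (Subgroup.inv_mem _ (δcen x)) (δcen y)
        rw [e2, fcen _ (cj_center hE (hC (r x) _) hz) ((r x)⁻¹ * r y) (by
          rw [map_mul, map_inv, hf.sec, hf.sec]
          intro h
          exact hxy (inv_mul_eq_one.1 h)), hC]
        have e3 : δ (r x) * ((δ (r x))⁻¹ * δ (r y)) ^ 2 = (δ (r x))⁻¹ * δ (r y) ^ 2 := by
          have h3 := Subgroup.mem_center_iff.1 (Subgroup.inv_mem _ (δcen x)) (δ (r y))
          rw [pow_two, pow_two]
          calc δ (r x) * ((δ (r x))⁻¹ * δ (r y) * ((δ (r x))⁻¹ * δ (r y))) =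
              (δ (r y) * (δ (r x))⁻¹) * δ (r y) := by group
            _ = (δ (r x))⁻¹ * δ (r y) * δ (r y) := by rw [h3]
            _ = (δ (r x))⁻¹ * (δ (r y) * δ (r y)) := by group
        rw [← e3, map_mul ι (δ (r x)), map_pow ι]
        simp only [pow_two]
        group
      rw [e1] at h
      exact mul_right_cancel h
  have hfin := hcen (fun t => δ (r t)) δcen hid
  ext x
  rw [Equiv.Perm.one_apply, hδ x, δπ x (r (π x)) (hf.sec _).symm]
  have h1 : δ (r (π x)) = δ (r 1) := hfin (π x)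
  rw [h1, hf.sec_one]
  have := δL 1
  rw [map_one] at this
  rw [this, map_one, one_mul]

end

end Pool.Agent.Lib_MP_8306f4_co.CaseB
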