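import Pool.Agent.Lib_MP_8306f4_co.CaseB.Cert

/-!
# MP_8306f4_co, case B, piece Models2

Notation. x·y = qop f x y = x f(x⁻¹y) on N; lambda_m: y -> m y is always an automorphism of it
(f commutes with nothing needed). 1·y = f(y). If Equi P f, then y -> p•y is an automorphism.
core(A): a∘b = 2b-a. For every x: y -> x·y is bijective (f bijective), for every y: x -> x·y is
bijective (x⁻¹f(x) bijective). '2 is invertible': all groups N have odd order.

## B7,B8: the models (done by helper57 with a generic certificate checker)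

-/

universe u v w

namespace Pool.Agent.Lib_MP_8306f4_co.CaseB

open Pool.Agent.Lib_MP_8306f4_co
open Cert

namespace M9

/-- code -/
def cd (x : ZMod 9) : ℕ := x.val

/-- decode -/
def dc (c : ℕ) : ZMod 9 := (c : ZMod 9)

/-- table -/
def F (x : ZMod 9) : ZMod 9 := dc (tb 0x60205080104070300 (cd x))

/-- table -/
def G (x : ZMod 9) : ZMod 9 := dc (tb 0x50208060301070400 (cd x))

/-- table -/
def H (x : ZMod 9) : ZMod 9 := dc (tb 0x60804020705010300 (cd x))

/-- table -/
def p (x : ZMod 9) : ZMod 9 := dc (tb 0x70004070207000000 (cd x))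

/-- table -/
def q (x : ZMod 9) : ZMod 9 := dc (tb 0x20202000004000400 (cd x))

/-- table -/
def r (x : ZMod 9) : ℕ := tb 0x20102020102000200 (cd x)

/-- table -/
def p1 (x : ZMod 9) : ZMod 9 := dc (tb 0x10101030000000000 (cd x))

/-- table -/
def q1 (x : ZMod 9) : ZMod 9 := dc (tb 0x30007010301070000 (cd x))

/-- table -/
def r1 (x : ZMod 9) : ℕ := tb 0x20102020201020000 (cd x)

end M9
open M9 in
theorem model_9 : ∃ F : ZMod 9 → ZMod 9, AModel (fun x => -x) F := by
  refine ⟨F, amodel_of_cert' (a := 2) (G := G) (H := H) (p := p) (q := q)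
    (ρ := r) (wd := [true, true]) ?_ ?_ ?_ ?_ ?_ ?_ ?_ 2 ?_ ?_ ?_ ?_⟩
  · intro x y
    exact neg_add x y
  · decide +kernel
  · decide +kernel
  · decide +kernel
  · decide +kernel
  · decide +kernel
  · decide +kernel
  · decide +kernel
  · decide +kernel
  · intro s hs hs2 h hh
    have : Fact s.Prime := ⟨hs⟩
    by_cases h7 : s = 7
    · subst h7
      apply hom_of_gen (b := 2) (p := p) (q := q) (ρ := r) (by decide +kernel) hh
      have h1 := hom_of_F (b := 2) (k := 2) (F := F) (by decide +kernel) 7 h hh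
      rcases mul_eq_zero.1 h1 with h3 | h3
      · exfalso
        have h4 : ((3 : ℕ) : ZMod 7) = 0 := by
          push_cast
          linear_combination h3
        rw [ZMod.natCast_eq_zero_iff] at h4
        omega
      · exact sub_eq_zero.1 h3
    · apply hom_of_gen (b := 1) (p := p1) (q := q1) (ρ := r1) (by decide +kernel) hh
      have h1 := hom_of_F (b := 1) (k := 3) (F := F) (by decide +kernel) s h hh
      rcases mul_eq_zero.1 h1 with h3 | h3
      · exfalso
        have h4 : ((7 : ℕ) : ZMod s) = 0 := by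
          push_cast
          linear_combination h3
        rw [ZMod.natCast_eq_zero_iff] at h4
        exact h7 ((Nat.prime_dvd_prime_iff_eq hs (by norm_num)).1 h4)
      · exact sub_eq_zero.1 h3
  · decide +kernel

namespace M15

/-- code -/
def cd (x : ZMod 15) : ℕ := x.val

/-- decode -/
def dc (c : ℕ) : ZMod 15 := (c : ZMod 15)

/-- table -/
def F (x : ZMod 15) : ZMod 15 := dc (tb 0x608030e0b0d0a050204010c070900 (cd x))

/-- table -/
def G (x : ZMod 15) : ZMod 15 := dc (tb 0xb09030a08010d020e07050c060400 (cd x))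

/-- table -/
def H (x : ZMod 15) : ZMod 15 := dc (tb 0x50704060d03010e0c02090b080a00 (cd x))

/-- table -/
def p (x : ZMod 15) : ZMod 15 := dc (tb 0xc0000000c0c060003030600000300 (cd x))

/-- table -/
def q (x : ZMod 15) : ZMod 15 := dc (tb 0x309030a06000c0200090000060c00 (cd x))

/-- table -/
def r (x : ZMod 15) : ℕ := tb 0x20301030202020301030200020200 (cd x)

end M15

open M15 in
theorem model_15 : ∃ F : ZMod 15 → ZMod 15,
    AModel (fun x => -x) F := by
  refine ⟨F, amodel_of_cert (a := 3) (b := 3) (G := G) (H := H) (p := p) (q := q)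
    (ρ := r) (p' := p) (q' := q) (ρ' := r) (k := 1) (wd := [true, true]) ?_ ?_ ?_ ?_ ?_ ?_ ?_ 2 ?_ ?_
    ?_ ?_ ?_⟩
  · intro x y
    exact neg_add x y
  · decide +kernel
  · decide +kernel
  · decide +kernel
  · decide +kernel
  · decide +kernel
  · decide +kernel
  · decide +kernel
  · decide +kernel
  · decide +kernel
  · decide +kernel
  · decide +kernel

namespace M21

/-- code -/
def cd (x : ZMod 21) : ℕ := x.val

/-- decode -/
def dc (c : ℕ) : ZMod 21 := (c : ZMod 21)

/-- table -/
def F (x : ZMod 21) : ZMod 21 := dc (tb 0x40c05121406080b020e07130a0d0f010310091100 (cd x))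

/-- table -/
def G (x : ZMod 21) : ZMod 21 := dc (tb 0x1009110103060b07130d08020e0a0f1214040c0500 (cd x))

/-- table -/
def H (x : ZMod 21) : ZMod 21 := dc (tb 0x40d0a05010e13030f0c090612020714100b081100 (cd x))

/-- table -/
def p (x : ZMod 21) : ZMod 21 := dc (tb 0xf000c0f0f000600060c0c0f060c00000600000600 (cd x))

/-- table -/
def q (x : ZMod 21) : ZMod 21 := dc (tb 0xc0906061406140700070000120f00120f040c0900 (cd x))

/-- table -/
def r (x : ZMod 21) : ℕ := tb 0x20302020301030301030202030200030203020300 (cd x)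

/-- table -/
def p1 (x : ZMod 21) : ZMod 21 := dc (tb 0x110100000111050011111100110500010100050000 (cd x))

/-- table -/
def q1 (x : ZMod 21) : ZMod 21 := dc (tb 0x12110107050707140207020f110f000504010000 (cd x))

/-- table -/
def r1 (x : ZMod 21) : ℕ := tb 0x20302010302030303030303030203010203020000 (cd x)

end M21

open M21 in
theorem model_21 : ∃ F : ZMod 21 → ZMod 21,
    AModel (fun x => -x) F := by
  refine ⟨F, amodel_of_cert (a := 6) (b := 1) (G := G) (H := H) (p := p) (q := q)
    (ρ := r) (p' := p1) (q' := q1) (ρ' := r1) (k := 1) (wd := [true, true]) ?_ ?_ ?_ ?_ ?_ ?_ ?_ 2 ?_ ?_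
    ?_ ?_ ?_⟩
  · intro x y
    exact neg_add x y
  · decide +kernel
  · decide +kernel
  · decide +kernel
  · decide +kernel
  · decide +kernel
  · decide +kernel
  · decide +kernel
  · decide +kernel
  · decide +kernel
  · decide +kernel
  · decide +kernel

namespace M25

/-- code -/
def cd (x : ZMod 25) : ℕ := x.val

/-- decode -/
def dc (c : ℕ) : ZMod 25 := (c : ZMod 25)

/-- table -/
def F (x : ZMod 25) : ZMod 25 := dc (tb 0x80b170f101807130d1604051415030c061201090a020e1100 (cd x))

/-- table -/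
def G (x : ZMod 25) : ZMod 25 := dc (tb 0x13160f0b0c11070114150210091704051812080d0e0a030600 (cd x))

/-- table -/
def H (x : ZMod 25) : ZMod 25 := dc (tb 0x308101406150a0d010e121702070b180c0f04130509111600 (cd x))

/-- table -/
def p (x : ZMod 25) : ZMod 25 := dc (tb 0xe00120e121200070b00070e12120e07120000070007000700 (cd x))

/-- table -/
def q (x : ZMod 25) : ZMod 25 := dc (tb 0x121607071518070b181500080a00000a0e0008040e12031800 (cd x))

/-- table -/
def r (x : ZMod 25) : ℕ := tb 0x2030202030301030303010303020203020003030202030300 (cd x)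

/-- table -/
def p1 (x : ZMod 25) : ZMod 25 := dc (tb 0x202020e0e020d0204000205000e000d0d00000000000e00 (cd x))

/-- table -/
def q1 (x : ZMod 25) : ZMod 25 := dc (tb 0x130d0e131602160204020200171700050005080d0e0a001700 (cd x))

/-- table -/
def r1 (x : ZMod 25) : ℕ := tb 0x3020203030203020303010103030203020303020203000300 (cd x)

end M25

open M25 in
theorem model_25 : ∃ F : ZMod 25 → ZMod 25,
    AModel (fun x => -x) F := by
  refine ⟨F, amodel_of_cert (a := 7) (b := 2) (G := G) (H := H) (p := p) (q := q)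
    (ρ := r) (p' := p1) (q' := q1) (ρ' := r1) (k := 1) (wd := [true, true]) ?_ ?_ ?_ ?_ ?_ ?_ ?_ 2 ?_ ?_
    ?_ ?_ ?_⟩
  · intro x y
    exact neg_add x y
  · decide +kernel
  · decide +kernel
  · decide +kernel
  · decide +kernel
  · decide +kernel
  · decide +kernel
  · decide +kernel
  · decide +kernel
  · decide +kernel
  · decide +kernel
  · decide +kernel

namespace M35

/-- code -/
def cd (x : ZMod 35) : ℕ := x.val

/-- decode -/
def dc (c : ℕ) : ZMod 35 := (c : ZMod 35)

/-- table -/
def F (x : ZMod 35) : ZMod 35 := dc (tb 0x1e071b150a060b1a0d211104142022100c171301030f1f12021609181d190e081c0500 (cd x))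

/-- table -/
def G (x : ZMod 35) : ZMod 35 := dc (tb 0x1419150c220602201b050711091f16100b18130d041a121c1e0803211d01170e0a0f00 (cd x))

/-- table -/
def H (x : ZMod 35) : ZMod 35 := dc (tb 0x1b1613222012180a021f0e061a0f050c1c07171e14091d150421190b110301100d0800 (cd x))

/-- table -/
def p (x : ZMod 35) : ZMod 35 := dc (tb 0x1100070007001811110700001200180707000c111207000700070c0012000000071800 (cd x))

/-- table -/
def q (x : ZMod 35) : ZMod 35 := dc (tb 0x6190c0c18060c0c19120711061f0119001800071e01121e1e1118000001170e060700 (cd x))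

/-- table -/
def r (x : ZMod 35) : ℕ := tb 0x303030302030303030201030304030301020303030302030303030002030404030200 (cd x)

/-- table -/
def p1 (x : ZMod 35) : ZMod 35 := dc (tb 0x900160b000902090200000f0902001c0b0202001c001c020f16021c0202000000 (cd x))

/-- table -/
def q1 (x : ZMod 35) : ZMod 35 := dc (tb 0x14191a0c19160214091c0b110909021a0b000c1c141a091c11001109190b0c11000f00 (cd x))

/-- table -/
def r1 (x : ZMod 35) : ℕ := tb 0x303030303030103020203030203020303020302030302020301030303030303000300 (cd x)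

end M35

open M35 in
theorem model_35 : ∃ F : ZMod 35 → ZMod 35,
    AModel (fun x => -x) F := by
  refine ⟨F, amodel_of_cert (a := 7) (b := 2) (G := G) (H := H) (p := p) (q := q)
    (ρ := r) (p' := p1) (q' := q1) (ρ' := r1) (k := 1) (wd := [true, false]) ?_ ?_ ?_ ?_ ?_ ?_ ?_ 2 ?_ ?_
    ?_ ?_ ?_⟩
  · intro x y
    exact neg_add x y
  · decide +kernel
  · decide +kernel
  · decide +kernel
  · decide +kernel
  · decide +kernel
  · decide +kernel
  · decide +kernel
  · decide +kernel
  · decide +kernel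
  · decide +kernel
  · decide +kernel

namespace M49

/-- code -/
def cd (x : ZMod 49) : ℕ := x.val

/-- decode -/
def dc (c : ℕ) : ZMod 49 := (c : ZMod 49)

/-- table -/
def F (x : ZMod 49) : ZMod 49 := dc (tb 0x82123171d2415270f262013032b25042a2c12192f16093001281b02181f05072d0c062e1e110b220a1c0d141a0e102900 (cd x))

/-- table -/
def G (x : ZMod 49) : ZMod 49 := dc (tb 0x191c0d101f232001172927222b2e092f26130c2c0716041d142d1b2a05251e0b022803060f0a081a30110e122124151800 (cd x))

/-- table -/
def H (x : ZMod 49) : ZMod 49 := dc (tb 0x27290f1d1b262b0e01112e1e122f2c0d1a2515102a2d180928190407211c0c172405021f1303203023060b161422080a00 (cd x))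

/-- table -/
def p (x : ZMod 49) : ZMod 49 := dc (tb 0x1d05162a1616161d071b1b2c11051b2c2c072a0000001d00051d000000002a2c1b2c221d0000162a251b1b1b1d16161600 (cd x))

/-- table -/
def q (x : ZMod 49) : ZMod 49 := dc (tb 0x11252a1d000f1b2c052a251b05112c221d1b1b2c07162a1d2a0f002a0525161611001d1b0f0a072c2a1622000022111d00 (cd x))

/-- table -/
def r (x : ZMod 49) : ℕ := tb 0x3030303010302030303030203030203030303020301030303030003030303020302030303040303030203020303030300 (cd x)

/-- table -/
def p1 (x : ZMod 49) : ZMod 49 := dc (tb 0x23102300000010230200021400022d000623082d0202000200002d2b102d02060002140002001023020202102310000000 (cd x))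

/-- table -/
def q1 (x : ZMod 49) : ZMod 49 := dc (tb 0x29232d101f23140029292d1f2b00232f0a02232b061f042f142d001000290410020806060a0a021f10142306100a001800 (cd x))

/-- table -/
def r1 (x : ZMod 49) : ℕ := tb 0x3020302030203020303030303010303030203030303030303030303020303030103030303030203020302030203000400 (cd x)

end M49

open M49 in
theorem model_49 : ∃ F : ZMod 49 → ZMod 49,
    AModel (fun x => -x) F := by
  refine ⟨F, amodel_of_cert (a := 22) (b := 2) (G := G) (H := H) (p := p) (q := q)
    (ρ := r) (p' := p1) (q' := q1) (ρ' := r1) (k := 1) (wd := [true, true]) ?_ ?_ ?_ ?_ ?_ ?_ ?_ 2 ?_ ?_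
    ?_ ?_ ?_⟩
  · intro x y
    exact neg_add x y
  · decide +kernel
  · decide +kernel
  · decide +kernel
  · decide +kernel
  · decide +kernel
  · decide +kernel
  · decide +kernel
  · decide +kernel
  · decide +kernel
  · decide +kernel
  · decide +kernel

namespace M5_5

/-- code -/
def cd (x : ZMod 5 × ZMod 5) : ℕ := (x.1.val) * 5 + x.2.val

/-- decode -/
def dc (c : ℕ) : ZMod 5 × ZMod 5 := (((c / 5 : ℕ) : ZMod 5), (c : ZMod 5))

/-- table -/
def F (x : ZMod 5 × ZMod 5) : ZMod 5 × ZMod 5 := dc (tb 0x1180e0811170913020a030b15070f161006040d05120c1400 (cd x))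

/-- table -/
def G (x : ZMod 5 × ZMod 5) : ZMod 5 × ZMod 5 := dc (tb 0x1713090c01110314080a1605020d0f12150b0704060e101800 (cd x))

/-- table -/
def H (x : ZMod 5 × ZMod 5) : ZMod 5 × ZMod 5 := dc (tb 0x106140b0f0e091612030c08151002130518040a070d111700 (cd x))

/-- table -/
def p (x : ZMod 5 × ZMod 5) : ZMod 5 × ZMod 5 := dc (tb 0xa0a000a000000000014001414000a140f000f0f0f0a0f00 (cd x))

/-- table -/
def q (x : ZMod 5 × ZMod 5) : ZMod 5 × ZMod 5 := dc (tb 0x170f0c0c00110314080a0c050f030008000a07000c14050300 (cd x))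

/-- table -/
def r (x : ZMod 5 × ZMod 5) : ℕ := tb 0x3020303010303020301030302030003020203020302030300 (cd x)

/-- table -/
def p1 (x : ZMod 5 × ZMod 5) : ZMod 5 × ZMod 5 := dc (tb 0x14060601000014000011011400040114140601000000010000 (cd x))

/-- table -/
def q1 (x : ZMod 5 × ZMod 5) : ZMod 5 × ZMod 5 := dc (tb 0x1010e0201110e14080106170201171100000004060e140000 (cd x))

/-- table -/
def r1 (x : ZMod 5 × ZMod 5) : ℕ := tb 0x2020303010303020303020303030303020201030203020000 (cd x)

end M5_5

open M5_5 in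
theorem model_5_5 : ∃ F : (ZMod 5 × ZMod 5) → (ZMod 5 × ZMod 5),
    AModel (fun x => -x) F := by
  refine ⟨F, amodel_of_cert (a := (2, 0)) (b := (0, 1)) (G := G) (H := H) (p := p) (q := q)
    (ρ := r) (p' := p1) (q' := q1) (ρ' := r1) (k := 1) (wd := [true, true]) ?_ ?_ ?_ ?_ ?_ ?_ ?_ 2 ?_ ?_
    ?_ ?_ ?_⟩
  · intro x y
    exact neg_add x y
  · decide +kernel
  · decide +kernel
  · decide +kernel
  · decide +kernel
  · decide +kernel
  · decide +kernel
  · decide +kernel
  · decide +kernel
  · decide +kernel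
  · decide +kernel
  · decide +kernel

namespace M7_7

/-- code -/
def cd (x : ZMod 7 × ZMod 7) : ℕ := (x.1.val) * 7 + x.2.val

/-- decode -/
def dc (c : ℕ) : ZMod 7 × ZMod 7 := (((c / 7 : ℕ) : ZMod 7), (c : ZMod 7))

/-- table -/
def F (x : ZMod 7 × ZMod 7) : ZMod 7 × ZMod 7 := dc (tb 0x27252a1b2b0a0f141522042d1906080912211a23020e1e17262f30051f0b03161c24012e0d1d07131129100c18202c2800 (cd x))

/-- table -/
def G (x : ZMod 7 × ZMod 7) : ZMod 7 × ZMod 7 := dc (tb 0x16170d25022c2e070130182f0f1d271f03141a0b102d1e240419112829092008062a1b0c05132b21220a231526121c0e00 (cd x))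

/-- table -/
def H (x : ZMod 7 × ZMod 7) : ZMod 7 × ZMod 7 := dc (tb 0x13302f1e271b02120d0124280e200715212d22032904160b171c2a0f231014062b26181d111a090825052c190a2e1f0c00 (cd x))

/-- table -/
def p (x : ZMod 7 × ZMod 7) : ZMod 7 × ZMod 7 := dc (tb 0x1b0b1a1a1e1e000b001a1109001a1b001e2d00000f00002d1e00000f1b00011e002d001b1a1e1a2d011a1a0b1a1a2d1e00 (cd x))

/-- table -/
def q (x : ZMod 7 × ZMod 7) : ZMod 7 × ZMod 7 := dc (tb 0xb1a0f00010f2e1e010b01190f191e1f09191a0b002d00001919111b1109092d061a1b0006001b1e0b111e060901011a00 (cd x))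

/-- table -/
def r (x : ZMod 7 × ZMod 7) : ℕ := tb 0x3030301030304030303030303030304030301030302000203030303030303020302030303020302030302030303030200 (cd x)

/-- table -/
def p1 (x : ZMod 7 × ZMod 7) : ZMod 7 × ZMod 7 := dc (tb 0x13002811002815001311281600281c281d1601011c15111611000028282a011600162811000d01110101000001000000 (cd x))

/-- table -/
def q1 (x : ZMod 7 × ZMod 7) : ZMod 7 × ZMod 7 := dc (tb 0x161c0d26002c110d010801162a1d1c000d08001128012a2c011611282c001d00112a2c0113132c1c280d1615261d1c0000 (cd x))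

/-- table -/
def r1 (x : ZMod 7 × ZMod 7) : ℕ := tb 0x3030303020302030103020303030303030303020203030303030202030203010303030203030303020303030303030000 (cd x)

end M7_7

open M7_7 in
theorem model_7_7 : ∃ F : (ZMod 7 × ZMod 7) → (ZMod 7 × ZMod 7),
    AModel (fun x => -x) F := by
  refine ⟨F, amodel_of_cert (a := (3, 5)) (b := (0, 1)) (G := G) (H := H) (p := p) (q := q)
    (ρ := r) (p' := p1) (q' := q1) (ρ' := r1) (k := 1) (wd := [true, true]) ?_ ?_ ?_ ?_ ?_ ?_ ?_ 2 ?_ ?_
    ?_ ?_ ?_⟩
  · intro x y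
    exact neg_add x y
  · decide +kernel
  · decide +kernel
  · decide +kernel
  · decide +kernel
  · decide +kernel
  · decide +kernel
  · decide +kernel
  · decide +kernel
  · decide +kernel
  · decide +kernel
  · decide +kernel

namespace M3_3_3

/-- code -/
def cd (x : ZMod 3 × ZMod 3 × ZMod 3) : ℕ := ((x.1.val) * 3 + x.2.1.val) * 3 + x.2.2.val

/-- decode -/
def dc (c : ℕ) : ZMod 3 × ZMod 3 × ZMod 3 := (((c / 9 : ℕ) : ZMod 3), ((c / 3 : ℕ) : ZMod 3), (c : ZMod 3))

/-- table -/
def F (x : ZMod 3 × ZMod 3 × ZMod 3) : ZMod 3 × ZMod 3 × ZMod 3 := dc (tb 0x150903040c140b0e1118080a120f061913161701070210050d1a00 (cd x))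

/-- table -/
def G (x : ZMod 3 × ZMod 3 × ZMod 3) : ZMod 3 × ZMod 3 × ZMod 3 := dc (tb 0x10b1108091a150a0e12040d130216140f1910060c031718050700 (cd x))

/-- table -/
def H (x : ZMod 3 × ZMod 3 × ZMod 3) : ZMod 3 × ZMod 3 × ZMod 3 := dc (tb 0x12010819130c1610140b0e1802090417110a151a050d0f07030600 (cd x))

/-- table -/
def p (x : ZMod 3 × ZMod 3 × ZMod 3) : ZMod 3 × ZMod 3 × ZMod 3 := dc (tb 0x500050500030500010303010003010100000305000300000300 (cd x))

/-- table -/
def q (x : ZMod 3 × ZMod 3 × ZMod 3) : ZMod 3 × ZMod 3 × ZMod 3 := dc (tb 0x10111101a1a04030e050519000213101a19101a19030100050000 (cd x))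

/-- table -/
def r (x : ZMod 3 × ZMod 3 × ZMod 3) : ℕ := tb 0x20203030303030203020203020303030303030303010200020100 (cd x)

/-- table -/
def p1 (x : ZMod 3 × ZMod 3 × ZMod 3) : ZMod 3 × ZMod 3 × ZMod 3 := dc (tb 0x4181818000004040004040004101010001810100000180400 (cd x))

/-- table -/
def q1 (x : ZMod 3 × ZMod 3 × ZMod 3) : ZMod 3 × ZMod 3 × ZMod 3 := dc (tb 0x10b00041500150a050304170a021500040a100301180018101000 (cd x))

/-- table -/
def r1 (x : ZMod 3 × ZMod 3 × ZMod 3) : ℕ := tb 0x30301020302030303030103030303020203020303020002020200 (cd x)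

end M3_3_3

open M3_3_3 in
theorem model_3_3_3 : ∃ F : (ZMod 3 × ZMod 3 × ZMod 3) → (ZMod 3 × ZMod 3 × ZMod 3),
    AModel (fun x => -x) F := by
  refine ⟨F, amodel_of_cert (a := (0, 1, 0)) (b := (0, 1, 1)) (G := G) (H := H) (p := p) (q := q)
    (ρ := r) (p' := p1) (q' := q1) (ρ' := r1) (k := 1) (wd := [true, false]) ?_ ?_ ?_ ?_ ?_ ?_ ?_ 2 ?_ ?_
    ?_ ?_ ?_⟩
  · intro x y
    exact neg_add x y
  · decide +kernel
  · decide +kernel
  · decide +kernel
  · decide +kernel
  · decide +kernel
  · decide +kernel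
  · decide +kernel
  · decide +kernel
  · decide +kernel
  · decide +kernel
  · decide +kernel

end Pool.Agent.Lib_MP_8306f4_co.CaseB
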