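import Pool.Agent.Lib_MP_8306f4_co.CaseB.Defs

/-!
# MP_8306f4_co, case B, piece Odd11

Notation. x·y = qop f x y = x f(x⁻¹y) on N; lambda_m: y -> m y is always an automorphism of it
(f commutes with nothing needed). 1·y = f(y). If Equi P f, then y -> p•y is an automorphism.
core(A): a∘b = 2b-a. For every x: y -> x·y is bijective (f bijective), for every y: x -> x·y is
bijective (x⁻¹f(x) bijective). '2 is invertible': all groups N have odd order.

## B5 (Odd11.lean): n=24t+11; F odd, given on 1..12t+5 by: a->c, c->b, b->-a for the triples (a,b,c)=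
(2i,6t+3-i,6t+3+i) 1≤i≤2t, (2j+1,10t+4-j,10t+5+j) 0≤j≤2t, j≠t; and 4t+2->6t+3, 6t+3->2t+1, 2t+1->-(11t+5),
9t+4->-(9t+4), 11t+5->-(4t+2). v=9t+4. (a+b=c in each triple; differences F(x)-x: c-a=b, b-c=-a, -a-b=-c.)
-/

universe u v w

namespace Pool.Agent.Lib_MP_8306f4_co.CaseB

open Pool.Agent.Lib_MP_8306f4_co

namespace Odd11

/-- The odd extension of a function on the positive integers. -/
def oddExt (g : ℤ → ℤ) (z : ℤ) : ℤ := if z < 0 then -g (-z) else if z = 0 then 0 else g z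

theorem oddExt_neg (g : ℤ → ℤ) (z : ℤ) : oddExt g (-z) = -oddExt g z := by
  unfold oddExt
  rcases lt_trichotomy z 0 with h | h | h
  · have h1 : ¬(-z < 0) := by omega
    have h2 : ¬(-z = 0) := by omega
    rw [if_neg h1, if_neg h2, if_pos h, neg_neg]
  · subst h
    simp
  · have h1 : -z < 0 := by omega
    have h2 : ¬(z < 0) := by omega
    have h3 : ¬(z = 0) := by omega
    rw [if_pos h1, if_neg h2, if_neg h3, neg_neg]

theorem oddExt_pos (g : ℤ → ℤ) {z : ℤ} (h : 0 < z) : oddExt g z = g z := by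
  unfold oddExt
  rw [if_neg (by omega), if_neg (by omega)]

theorem oddExt_zero (g : ℤ → ℤ) : oddExt g 0 = 0 := by
  unfold oddExt
  simp

/-- The core of the construction of odd orthomorphisms of `Z/n`, `n = 2M+1`. -/
theorem core {n : ℕ} (M : ℤ) (hn : (n : ℤ) = 2 * M + 1) (hM : 0 < M) (g : ℤ → ℤ)
    (h1 : ∀ z, 0 < z → z ≤ M → ∃ w, 0 < w ∧ w ≤ M ∧ (g w = z ∨ g w = -z))
    (h2 : ∀ z, 0 < z → z ≤ M → ∃ w, 0 < w ∧ w ≤ M ∧
      (g w - w = z ∨ g w - w = -z ∨ g w - w = z - n ∨ g w - w = n - z))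
    (v : ℤ) (hv : 0 < v ∧ v ≤ M)
    (h3 : ∀ w, 0 < w → w ≤ M → g w ≤ M ∧ -M ≤ g w ∧ (g w + w = 0 ↔ w = v)) :
    ∃ F : ZMod n → ZMod n, Function.Bijective F ∧
      Function.Bijective (fun x => F x - x) ∧
      (∀ x, F (-x) = -F x) ∧ ∃ v : ZMod n, v ≠ 0 ∧
        ∀ x, x ≠ 0 → (F x = -x ↔ (x = v ∨ x = -v)) := by
  haveI : NeZero n := ⟨by omega⟩
  have hneg : ∀ x : ZMod n, (-x).valMinAbs = -x.valMinAbs := fun x => by
    apply ZMod.valMinAbs_neg_of_ne_half
    omega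
  have hval : ∀ w : ℤ, -M ≤ w → w ≤ M → ((w : ZMod n)).valMinAbs = w := by
    intro w hw1 hw2
    rw [ZMod.valMinAbs_spec]
    refine ⟨rfl, ?_⟩
    constructor <;> omega
  have hbd : ∀ x : ZMod n, -M ≤ x.valMinAbs ∧ x.valMinAbs ≤ M := by
    intro x
    have := x.valMinAbs_mem_Ioc
    have h4 := this.1
    have h5 := this.2
    constructor <;> omega
  set G : ℤ → ℤ := oddExt g with hG
  set F : ZMod n → ZMod n := fun x => ((G x.valMinAbs : ℤ) : ZMod n) with hF
  have hFodd : ∀ x, F (-x) = -F x := by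
    intro x
    simp only [hF]
    rw [hneg, hG, oddExt_neg, Int.cast_neg]
  have hFw : ∀ w : ℤ, 0 < w → w ≤ M → F (w : ZMod n) = (g w : ZMod n) := by
    intro w hw1 hw2
    simp only [hF]
    rw [hval w (by omega) hw2, hG, oddExt_pos g hw1]
  have hF0 : F 0 = 0 := by
    simp only [hF]
    rw [ZMod.valMinAbs_zero, hG, oddExt_zero, Int.cast_zero]
  -- reduction to positive representatives
  have hred : ∀ (T : ZMod n → ZMod n), (∀ x, T (-x) = -T x) → T 0 = 0 →
      (∀ z : ℤ, 0 < z → z ≤ M → ∃ x, T x = (z : ZMod n)) → Function.Bijective T := by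
    intro T hT hT0 hT1
    rw [Finite.injective_iff_bijective.symm.trans Finite.injective_iff_surjective]
    intro y
    obtain ⟨hy1, hy2⟩ := hbd y
    rcases lt_trichotomy y.valMinAbs 0 with h | h | h
    · obtain ⟨x, hx⟩ := hT1 (-y.valMinAbs) (by omega) (by omega)
      refine ⟨-x, ?_⟩
      rw [hT, hx, Int.cast_neg, ZMod.coe_valMinAbs, neg_neg]
    · refine ⟨0, ?_⟩
      rw [ZMod.valMinAbs_eq_zero] at h
      rw [hT0, h]
    · obtain ⟨x, hx⟩ := hT1 y.valMinAbs h (by omega)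
      exact ⟨x, by rw [hx, ZMod.coe_valMinAbs]⟩
  refine ⟨F, ?_, ?_, hFodd, (v : ZMod n), ?_, ?_⟩
  · apply hred F hFodd hF0
    intro z hz1 hz2
    obtain ⟨w, hw1, hw2, h | h⟩ := h1 z hz1 hz2
    · exact ⟨w, by rw [hFw w hw1 hw2, h]⟩
    · exact ⟨-w, by rw [hFodd, hFw w hw1 hw2, h, Int.cast_neg, neg_neg]⟩
  · apply hred (fun x => F x - x)
    · intro x
      simp only [hFodd]
      ring
    · simp only [hF0, sub_zero]
    intro z hz1 hz2
    have hnn : ((n : ℤ) : ZMod n) = 0 := by simp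
    obtain ⟨w, hw1, hw2, h | h | h | h⟩ := h2 z hz1 hz2
    · refine ⟨w, ?_⟩
      simp only [hFw w hw1 hw2]
      rw [← Int.cast_sub, h]
    · refine ⟨-w, ?_⟩
      simp only [hFodd, hFw w hw1 hw2]
      rw [show -(g w : ZMod n) - -(w : ZMod n) = -((g w : ZMod n) - w) by ring, ← Int.cast_sub, h,
        Int.cast_neg, neg_neg]
    · refine ⟨w, ?_⟩
      simp only [hFw w hw1 hw2]
      rw [← Int.cast_sub, h, Int.cast_sub, hnn, sub_zero]
    · refine ⟨-w, ?_⟩
      simp only [hFodd, hFw w hw1 hw2]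
      rw [show -(g w : ZMod n) - -(w : ZMod n) = -((g w : ZMod n) - w) by ring, ← Int.cast_sub, h,
        Int.cast_sub, hnn, zero_sub, neg_neg]
  · intro h
    have := hval v (by omega) hv.2
    rw [h, ZMod.valMinAbs_zero] at this
    omega
  · have key : ∀ w : ℤ, 0 < w → w ≤ M → (F (w : ZMod n) = -(w : ZMod n) ↔ w = v) := by
      intro w hw1 hw2
      obtain ⟨h4, h5, h6⟩ := h3 w hw1 hw2
      rw [hFw w hw1 hw2, ← h6, eq_neg_iff_add_eq_zero, ← Int.cast_add,
        ZMod.intCast_zmod_eq_zero_iff_dvd]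
      constructor
      · rintro ⟨k, hk⟩
        have h7 : g w + w ≤ 2 * M := by omega
        have h8 : -M < g w + w := by omega
        rcases lt_trichotomy k 0 with hk0 | hk0 | hk0
        · have : (n : ℤ) * k ≤ (n : ℤ) * (-1) := by
            apply mul_le_mul_of_nonneg_left <;> omega
          omega
        · rw [hk, hk0, mul_zero]
        · have : (n : ℤ) * 1 ≤ (n : ℤ) * k := by
            apply mul_le_mul_of_nonneg_left <;> omega
          omega
      · intro h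
        rw [h]
        exact dvd_zero _
    intro x hx
    obtain ⟨hx1, hx2⟩ := hbd x
    have hx0 : x.valMinAbs ≠ 0 := by
      rwa [Ne, ZMod.valMinAbs_eq_zero]
    have hvv := hval v (by omega) hv.2
    rcases lt_or_gt_of_ne hx0 with h | h
    · have h4 := key (-x.valMinAbs) (by omega) (by omega)
      rw [Int.cast_neg, ZMod.coe_valMinAbs, hFodd, neg_neg, neg_eq_iff_eq_neg] at h4
      rw [h4]
      constructor
      · intro h5
        right
        rw [← h5, Int.cast_neg, ZMod.coe_valMinAbs, neg_neg]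
      · rintro (h5 | h5)
        · rw [h5, hvv] at h
          omega
        · rw [h5, hneg, hvv, neg_neg]
    · have h4 := key x.valMinAbs h (by omega)
      rw [ZMod.coe_valMinAbs] at h4
      rw [h4]
      constructor
      · intro h5
        left
        rw [← h5, ZMod.coe_valMinAbs]
      · rintro (h5 | h5)
        · rw [h5, hvv]
        · rw [h5, hneg, hvv] at h
          omega

/-- The orthomorphism on `1..12t+5`. -/
def g (t z : ℤ) : ℤ :=
  if z ≤ 4 * t + 1 then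
    (if z % 2 = 0 then 6 * t + 3 + z / 2
      else if z = 2 * t + 1 then -(11 * t + 5) else 10 * t + 5 + z / 2)
  else if z ≤ 4 * t + 2 then 6 * t + 3
  else if z ≤ 6 * t + 2 then 2 * z - 12 * t - 6
  else if z ≤ 6 * t + 3 then 2 * t + 1
  else if z ≤ 8 * t + 3 then 12 * t + 6 - z
  else if z ≤ 10 * t + 4 then (if z = 9 * t + 4 then -(9 * t + 4) else 2 * z - 20 * t - 9)
  else if z = 11 * t + 5 then -(4 * t + 2) else 20 * t + 9 - z

theorem g_spec (t z : ℤ) :
    (z ≤ 4 * t + 1 ∧ z % 2 = 0 ∧ g t z = 6 * t + 3 + z / 2) ∨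
    (z ≤ 4 * t + 1 ∧ z % 2 ≠ 0 ∧ z = 2 * t + 1 ∧ g t z = -(11 * t + 5)) ∨
    (z ≤ 4 * t + 1 ∧ z % 2 ≠ 0 ∧ z ≠ 2 * t + 1 ∧ g t z = 10 * t + 5 + z / 2) ∨
    (4 * t + 1 < z ∧ z ≤ 4 * t + 2 ∧ g t z = 6 * t + 3) ∨
    (4 * t + 2 < z ∧ z ≤ 6 * t + 2 ∧ g t z = 2 * z - 12 * t - 6) ∨
    (4 * t + 2 < z ∧ 6 * t + 2 < z ∧ z ≤ 6 * t + 3 ∧ g t z = 2 * t + 1) ∨
    (4 * t + 2 < z ∧ 6 * t + 3 < z ∧ z ≤ 8 * t + 3 ∧ g t z = 12 * t + 6 - z) ∨
    (4 * t + 2 < z ∧ 6 * t + 3 < z ∧ 8 * t + 3 < z ∧ z ≤ 10 * t + 4 ∧ z = 9 * t + 4 ∧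
      g t z = -(9 * t + 4)) ∨
    (4 * t + 2 < z ∧ 6 * t + 3 < z ∧ 8 * t + 3 < z ∧ z ≤ 10 * t + 4 ∧ z ≠ 9 * t + 4 ∧
      g t z = 2 * z - 20 * t - 9) ∨
    (4 * t + 2 < z ∧ 6 * t + 3 < z ∧ 8 * t + 3 < z ∧ 10 * t + 4 < z ∧ z = 11 * t + 5 ∧
      g t z = -(4 * t + 2)) ∨
    (4 * t + 2 < z ∧ 6 * t + 3 < z ∧ 8 * t + 3 < z ∧ 10 * t + 4 < z ∧ z ≠ 11 * t + 5 ∧
      g t z = 20 * t + 9 - z) := by
  unfold g
  by_cases c1 : z ≤ 4 * t + 1
  · rw [if_pos c1]
    by_cases c2 : z % 2 = 0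
    · rw [if_pos c2]
      exact Or.inl ⟨c1, c2, rfl⟩
    rw [if_neg c2]
    by_cases c3 : z = 2 * t + 1
    · rw [if_pos c3]
      exact Or.inr (Or.inl ⟨c1, c2, c3, rfl⟩)
    rw [if_neg c3]
    exact Or.inr (Or.inr (Or.inl ⟨c1, c2, c3, rfl⟩))
  rw [if_neg c1]
  refine Or.inr (Or.inr (Or.inr ?_))
  by_cases c4 : z ≤ 4 * t + 2
  · rw [if_pos c4]
    exact Or.inl ⟨not_le.1 c1, c4, rfl⟩
  rw [if_neg c4]
  have d4 := not_le.1 c4
  refine Or.inr ?_
  by_cases c5 : z ≤ 6 * t + 2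
  · rw [if_pos c5]
    exact Or.inl ⟨d4, c5, rfl⟩
  rw [if_neg c5]
  refine Or.inr ?_
  by_cases c6 : z ≤ 6 * t + 3
  · rw [if_pos c6]
    exact Or.inl ⟨d4, not_le.1 c5, c6, rfl⟩
  rw [if_neg c6]
  have d6 := not_le.1 c6
  refine Or.inr ?_
  by_cases c7 : z ≤ 8 * t + 3
  · rw [if_pos c7]
    exact Or.inl ⟨d4, d6, c7, rfl⟩
  rw [if_neg c7]
  have d7 := not_le.1 c7
  refine Or.inr ?_
  by_cases c8 : z ≤ 10 * t + 4
  · rw [if_pos c8]
    by_cases c9 : z = 9 * t + 4
    · rw [if_pos c9]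
      exact Or.inl ⟨d4, d6, d7, c8, c9, rfl⟩
    rw [if_neg c9]
    exact Or.inr (Or.inl ⟨d4, d6, d7, c8, c9, rfl⟩)
  rw [if_neg c8]
  have d8 := not_le.1 c8
  refine Or.inr (Or.inr ?_)
  by_cases c10 : z = 11 * t + 5
  · rw [if_pos c10]
    exact Or.inl ⟨d4, d6, d7, d8, c10, rfl⟩
  rw [if_neg c10]
  exact Or.inr ⟨d4, d6, d7, d8, c10, rfl⟩

end Odd11

theorem odd_24t11 (t : ℕ) :
    ∃ F : ZMod (24 * t + 11) → ZMod (24 * t + 11), Function.Bijective F ∧
      Function.Bijective (fun x => F x - x) ∧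
      (∀ x, F (-x) = -F x) ∧ ∃ v : ZMod (24 * t + 11), v ≠ 0 ∧
        ∀ x, x ≠ 0 → (F x = -x ↔ (x = v ∨ x = -v)) := by
  have hn : ((24 * t + 11 : ℕ) : ℤ) = 2 * (12 * (t : ℤ) + 5) + 1 := by push_cast; ring
  have ht : (0 : ℤ) ≤ t := Int.natCast_nonneg t
  generalize hs : (t : ℤ) = s at hn ht
  refine Odd11.core (12 * s + 5) hn (by omega) (Odd11.g s) ?_ ?_ (9 * s + 4) (by omega) ?_
  · clear hs
    intro z hz1 hz2
    by_cases c1 : z ≤ 4 * s + 1
    · by_cases c2 : z % 2 = 0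
      · refine ⟨6 * s + 3 - z / 2, by omega, by omega, Or.inr ?_⟩
        have hg := Odd11.g_spec s (6 * s + 3 - z / 2)
        omega
      by_cases c3 : z = 2 * s + 1
      · refine ⟨6 * s + 3, by omega, by omega, Or.inl ?_⟩
        have hg := Odd11.g_spec s (6 * s + 3)
        omega
      · refine ⟨10 * s + 4 - z / 2, by omega, by omega, Or.inr ?_⟩
        have hg := Odd11.g_spec s (10 * s + 4 - z / 2)
        omega
    by_cases c4 : z ≤ 4 * s + 2
    · refine ⟨11 * s + 5, by omega, by omega, Or.inr ?_⟩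
      have hg := Odd11.g_spec s (11 * s + 5)
      omega
    by_cases c5 : z ≤ 6 * s + 2
    · refine ⟨12 * s + 6 - z, by omega, by omega, Or.inl ?_⟩
      have hg := Odd11.g_spec s (12 * s + 6 - z)
      omega
    by_cases c6 : z ≤ 6 * s + 3
    · refine ⟨4 * s + 2, by omega, by omega, Or.inl ?_⟩
      have hg := Odd11.g_spec s (4 * s + 2)
      omega
    by_cases c7 : z ≤ 8 * s + 3
    · refine ⟨2 * z - 12 * s - 6, by omega, by omega, Or.inl ?_⟩
      have hg := Odd11.g_spec s (2 * z - 12 * s - 6)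
      omega
    by_cases c8 : z ≤ 10 * s + 4
    · by_cases c9 : z = 9 * s + 4
      · refine ⟨9 * s + 4, by omega, by omega, Or.inr ?_⟩
        have hg := Odd11.g_spec s (9 * s + 4)
        omega
      · refine ⟨20 * s + 9 - z, by omega, by omega, Or.inl ?_⟩
        have hg := Odd11.g_spec s (20 * s + 9 - z)
        omega
    by_cases c10 : z = 11 * s + 5
    · refine ⟨2 * s + 1, by omega, by omega, Or.inr ?_⟩
      have hg := Odd11.g_spec s (2 * s + 1)
      omega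
    · refine ⟨2 * z - 20 * s - 9, by omega, by omega, Or.inl ?_⟩
      have hg := Odd11.g_spec s (2 * z - 20 * s - 9)
      omega
  · rw [hn]
    clear hn hs
    intro z hz1 hz2
    by_cases c1 : z ≤ 4 * s + 1
    · by_cases c2 : z % 2 = 0
      · refine ⟨6 * s + 3 + z / 2, by omega, by omega, Or.inr (Or.inl ?_)⟩
        have hg := Odd11.g_spec s (6 * s + 3 + z / 2)
        omega
      by_cases c3 : z = 2 * s + 1
      · refine ⟨4 * s + 2, by omega, by omega, Or.inl ?_⟩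
        have hg := Odd11.g_spec s (4 * s + 2)
        omega
      · refine ⟨10 * s + 5 + z / 2, by omega, by omega, Or.inr (Or.inl ?_)⟩
        have hg := Odd11.g_spec s (10 * s + 5 + z / 2)
        omega
    by_cases c4 : z ≤ 4 * s + 2
    · refine ⟨6 * s + 3, by omega, by omega, Or.inr (Or.inl ?_)⟩
      have hg := Odd11.g_spec s (6 * s + 3)
      omega
    by_cases c5 : z ≤ 6 * s + 2
    · refine ⟨12 * s + 6 - 2 * z, by omega, by omega, Or.inl ?_⟩
      have hg := Odd11.g_spec s (12 * s + 6 - 2 * z)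
      omega
    by_cases c6 : z ≤ 6 * s + 3
    · refine ⟨9 * s + 4, by omega, by omega, Or.inr (Or.inr (Or.inl ?_))⟩
      have hg := Odd11.g_spec s (9 * s + 4)
      omega
    by_cases c7 : z ≤ 8 * s + 3
    · refine ⟨12 * s + 6 - z, by omega, by omega, Or.inr (Or.inl ?_)⟩
      have hg := Odd11.g_spec s (12 * s + 6 - z)
      omega
    by_cases c8 : z ≤ 10 * s + 4
    · by_cases c9 : z = 9 * s + 4
      · refine ⟨11 * s + 5, by omega, by omega, Or.inr (Or.inr (Or.inl ?_))⟩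
        have hg := Odd11.g_spec s (11 * s + 5)
        omega
      · refine ⟨20 * s + 9 - 2 * z, by omega, by omega, Or.inl ?_⟩
        have hg := Odd11.g_spec s (20 * s + 9 - 2 * z)
        omega
    by_cases c10 : z = 11 * s + 5
    · refine ⟨2 * s + 1, by omega, by omega, Or.inr (Or.inr (Or.inl ?_))⟩
      have hg := Odd11.g_spec s (2 * s + 1)
      omega
    · refine ⟨20 * s + 9 - z, by omega, by omega, Or.inr (Or.inl ?_)⟩
      have hg := Odd11.g_spec s (20 * s + 9 - z)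
      omega
  · clear hn hs
    intro w hw1 hw2
    have hg := Odd11.g_spec s w
    refine ⟨by omega, by omega, ?_⟩
    constructor <;> intro h <;> omega

end Pool.Agent.Lib_MP_8306f4_co.CaseB
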