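import Pool.Agent.Lib_MP_8306f4_co.CaseB.Odd11

/-!
# MP_8306f4_co, case B, piece Odd23

Notation. x·y = qop f x y = x f(x⁻¹y) on N; lambda_m: y -> m y is always an automorphism of it
(f commutes with nothing needed). 1·y = f(y). If Equi P f, then y -> p•y is an automorphism.
core(A): a∘b = 2b-a. For every x: y -> x·y is bijective (f bijective), for every y: x -> x·y is
bijective (x⁻¹f(x) bijective). '2 is invertible': all groups N have odd order.

## B6 (Odd23.lean): with T=t+1≥2, n=24T-1: triples (2i,6T-i,6T+i) 1≤i≤2T-1, (2j+1,10T-1-j,10T+j) 0≤j≤2T-1, j≠T,2T-1,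
and 2T+1->-(4T-1), 4T-1->12T-1, 4T->-(9T-1), 6T->-6T, 8T->4T, 9T-1->11T, 11T->2T+1, 12T-1->8T. v=6T. t=0 (n=23):
values on 0..22: [0,22,16,14,21,20,10,6,18,12,15,4,19,8,11,5,17,13,3,2,9,7,1], v=1.

-/

universe u v w

namespace Pool.Agent.Lib_MP_8306f4_co.CaseB

open Pool.Agent.Lib_MP_8306f4_co

namespace Odd23

/-- The orthomorphism of `Z/23`. -/
def tab : Fin 23 → Fin 23 :=
  ![0, 22, 16, 14, 21, 20, 10, 6, 18, 12, 15, 4, 19, 8, 11, 5, 17, 13, 3, 2, 9, 7, 1]

theorem small : ∃ F : ZMod 23 → ZMod 23, Function.Bijective F ∧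
      Function.Bijective (fun x => F x - x) ∧
      (∀ x, F (-x) = -F x) ∧ ∃ v : ZMod 23, v ≠ 0 ∧
        ∀ x, x ≠ 0 → (F x = -x ↔ (x = v ∨ x = -v)) := by
  refine ⟨tab, ?_, ?_, ?_, (1 : Fin 23), ?_, ?_⟩
  · change Function.Bijective tab
    rw [← Finite.injective_iff_bijective]
    decide
  · change Function.Bijective (fun x => tab x - x)
    rw [← Finite.injective_iff_bijective]
    decide
  · change ∀ x, tab (-x) = -tab x
    decide
  · change (1 : Fin 23) ≠ 0
    decide
  · change ∀ x : Fin 23, x ≠ 0 → (tab x = -x ↔ (x = 1 ∨ x = -1))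
    decide

/-- The orthomorphism on `1..12T-1`. -/
def g (t z : ℤ) : ℤ :=
  if z ≤ 4 * t - 1 then
    (if z % 2 = 0 then 6 * t + z / 2
      else if z = 2 * t + 1 then -(4 * t - 1)
      else if z = 4 * t - 1 then 12 * t - 1 else 10 * t + z / 2)
  else if z ≤ 4 * t then -(9 * t - 1)
  else if z ≤ 6 * t - 1 then 2 * z - 12 * t
  else if z ≤ 6 * t then -(6 * t)
  else if z ≤ 8 * t - 1 then 12 * t - z
  else if z ≤ 8 * t then 4 * t
  else if z ≤ 10 * t - 1 then (if z = 9 * t - 1 then 11 * t else 2 * z - 20 * t + 1)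
  else if z = 11 * t then 2 * t + 1
  else if z = 12 * t - 1 then 8 * t else 20 * t - 1 - z

theorem g1 {t z : ℤ} (h1 : z ≤ 4 * t - 1) (h2 : z % 2 = 0) : g t z = 6 * t + z / 2 := by
  unfold g; rw [if_pos h1, if_pos h2]

theorem g2 {t z : ℤ} (ht : 2 ≤ t) (h1 : z = 2 * t + 1) : g t z = -(4 * t - 1) := by
  unfold g; rw [if_pos (by omega), if_neg (by omega), if_pos h1]

theorem g3 {t z : ℤ} (ht : 2 ≤ t) (h1 : z = 4 * t - 1) : g t z = 12 * t - 1 := by
  unfold g; rw [if_pos (by omega), if_neg (by omega), if_neg (by omega), if_pos h1]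

theorem g4 {t z : ℤ} (h1 : z ≤ 4 * t - 1) (h2 : ¬ z % 2 = 0) (h3 : ¬ z = 2 * t + 1)
    (h4 : ¬ z = 4 * t - 1) : g t z = 10 * t + z / 2 := by
  unfold g; rw [if_pos h1, if_neg h2, if_neg h3, if_neg h4]

theorem g5 {t z : ℤ} (h1 : z = 4 * t) : g t z = -(9 * t - 1) := by
  unfold g; rw [if_neg (by omega), if_pos (by omega)]

theorem g6 {t z : ℤ} (h1 : 4 * t < z) (h2 : z ≤ 6 * t - 1) : g t z = 2 * z - 12 * t := by
  unfold g; rw [if_neg (by omega), if_neg (by omega), if_pos h2]

theorem g7 {t z : ℤ} (ht : 2 ≤ t) (h1 : z = 6 * t) : g t z = -(6 * t) := by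
  unfold g
  rw [if_neg (by omega), if_neg (by omega), if_neg (by omega), if_pos (by omega)]

theorem g8 {t z : ℤ} (ht : 2 ≤ t) (h1 : 6 * t < z) (h2 : z ≤ 8 * t - 1) :
    g t z = 12 * t - z := by
  unfold g
  rw [if_neg (by omega), if_neg (by omega), if_neg (by omega), if_neg (by omega), if_pos h2]

theorem g9 {t z : ℤ} (ht : 2 ≤ t) (h1 : z = 8 * t) : g t z = 4 * t := by
  unfold g
  rw [if_neg (by omega), if_neg (by omega), if_neg (by omega), if_neg (by omega),
    if_neg (by omega), if_pos (by omega)]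

theorem g10 {t z : ℤ} (ht : 2 ≤ t) (h1 : z = 9 * t - 1) : g t z = 11 * t := by
  unfold g
  rw [if_neg (by omega), if_neg (by omega), if_neg (by omega), if_neg (by omega),
    if_neg (by omega), if_neg (by omega), if_pos (by omega), if_pos h1]

theorem g11 {t z : ℤ} (ht : 2 ≤ t) (h1 : 8 * t < z) (h2 : z ≤ 10 * t - 1)
    (h3 : ¬ z = 9 * t - 1) : g t z = 2 * z - 20 * t + 1 := by
  unfold g
  rw [if_neg (by omega), if_neg (by omega), if_neg (by omega), if_neg (by omega),
    if_neg (by omega), if_neg (by omega), if_pos h2, if_neg h3]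

theorem g12 {t z : ℤ} (ht : 2 ≤ t) (h1 : z = 11 * t) : g t z = 2 * t + 1 := by
  unfold g
  rw [if_neg (by omega), if_neg (by omega), if_neg (by omega), if_neg (by omega),
    if_neg (by omega), if_neg (by omega), if_neg (by omega), if_pos h1]

theorem g13 {t z : ℤ} (ht : 2 ≤ t) (h1 : z = 12 * t - 1) : g t z = 8 * t := by
  unfold g
  rw [if_neg (by omega), if_neg (by omega), if_neg (by omega), if_neg (by omega),
    if_neg (by omega), if_neg (by omega), if_neg (by omega), if_neg (by omega), if_pos h1]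

theorem g14 {t z : ℤ} (ht : 2 ≤ t) (h1 : 10 * t ≤ z) (h2 : ¬ z = 11 * t)
    (h3 : ¬ z = 12 * t - 1) : g t z = 20 * t - 1 - z := by
  unfold g
  rw [if_neg (by omega), if_neg (by omega), if_neg (by omega), if_neg (by omega),
    if_neg (by omega), if_neg (by omega), if_neg (by omega), if_neg h2, if_neg h3]

end Odd23

theorem odd_24t23 (t : ℕ) :
    ∃ F : ZMod (24 * t + 23) → ZMod (24 * t + 23), Function.Bijective F ∧
      Function.Bijective (fun x => F x - x) ∧
      (∀ x, F (-x) = -F x) ∧ ∃ v : ZMod (24 * t + 23), v ≠ 0 ∧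
        ∀ x, x ≠ 0 → (F x = -x ↔ (x = v ∨ x = -v)) := by
  rcases t with _ | t
  · exact Odd23.small
  have hn : ((24 * (t + 1) + 23 : ℕ) : ℤ) = 2 * (12 * ((t : ℤ) + 2) - 1) + 1 := by push_cast; ring
  have ht : (2 : ℤ) ≤ (t : ℤ) + 2 := by omega
  generalize hs : (t : ℤ) + 2 = s at hn ht
  refine Odd11.core (12 * s - 1) hn (by omega) (Odd23.g s) ?_ ?_ (6 * s) (by omega) ?_
  · clear hs hn
    intro z hz1 hz2
    by_cases c1 : z ≤ 4 * s - 1
    · by_cases c2 : z % 2 = 0
      · refine ⟨6 * s - z / 2, by omega, by omega, Or.inr ?_⟩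
        rw [Odd23.g6 (by omega) (by omega)]; omega
      by_cases c3 : z = 2 * s + 1
      · refine ⟨11 * s, by omega, by omega, Or.inl ?_⟩
        rw [Odd23.g12 (by omega) (by omega)]; omega
      by_cases c4 : z = 4 * s - 1
      · refine ⟨2 * s + 1, by omega, by omega, Or.inr ?_⟩
        rw [Odd23.g2 (by omega) (by omega)]; omega
      · refine ⟨10 * s - 1 - z / 2, by omega, by omega, Or.inr ?_⟩
        rw [Odd23.g11 (by omega) (by omega) (by omega) (by omega)]; omega
    by_cases c4 : z ≤ 4 * s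
    · refine ⟨8 * s, by omega, by omega, Or.inl ?_⟩
      rw [Odd23.g9 (by omega) (by omega)]; omega
    by_cases c5 : z ≤ 6 * s - 1
    · refine ⟨12 * s - z, by omega, by omega, Or.inl ?_⟩
      rw [Odd23.g8 (by omega) (by omega) (by omega)]; omega
    by_cases c6 : z ≤ 6 * s
    · refine ⟨6 * s, by omega, by omega, Or.inr ?_⟩
      rw [Odd23.g7 (by omega) (by omega)]; omega
    by_cases c7 : z ≤ 8 * s - 1
    · refine ⟨2 * z - 12 * s, by omega, by omega, Or.inl ?_⟩
      rw [Odd23.g1 (by omega) (by omega)]; omega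
    by_cases c8 : z ≤ 8 * s
    · refine ⟨12 * s - 1, by omega, by omega, Or.inl ?_⟩
      rw [Odd23.g13 (by omega) (by omega)]; omega
    by_cases c9 : z ≤ 10 * s - 1
    · by_cases c10 : z = 9 * s - 1
      · refine ⟨4 * s, by omega, by omega, Or.inr ?_⟩
        rw [Odd23.g5 (by omega)]; omega
      · refine ⟨20 * s - 1 - z, by omega, by omega, Or.inl ?_⟩
        rw [Odd23.g14 (by omega) (by omega) (by omega) (by omega)]; omega
    by_cases c11 : z = 11 * s
    · refine ⟨9 * s - 1, by omega, by omega, Or.inl ?_⟩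
      rw [Odd23.g10 (by omega) (by omega)]; omega
    by_cases c12 : z = 12 * s - 1
    · refine ⟨4 * s - 1, by omega, by omega, Or.inl ?_⟩
      rw [Odd23.g3 (by omega) (by omega)]; omega
    · refine ⟨2 * z - 20 * s + 1, by omega, by omega, Or.inl ?_⟩
      rw [Odd23.g4 (by omega) (by omega) (by omega) (by omega)]; omega
  · rw [hn]
    clear hn hs
    intro z hz1 hz2
    by_cases c1 : z ≤ 4 * s - 1
    · by_cases c2 : z % 2 = 0
      · refine ⟨6 * s + z / 2, by omega, by omega, Or.inr (Or.inl ?_)⟩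
        rw [Odd23.g8 (by omega) (by omega) (by omega)]; omega
      by_cases c3 : z = 2 * s + 1
      · refine ⟨9 * s - 1, by omega, by omega, Or.inl ?_⟩
        rw [Odd23.g10 (by omega) (by omega)]; omega
      by_cases c4 : z = 4 * s - 1
      · refine ⟨12 * s - 1, by omega, by omega, Or.inr (Or.inl ?_)⟩
        rw [Odd23.g13 (by omega) (by omega)]; omega
      · refine ⟨10 * s + z / 2, by omega, by omega, Or.inr (Or.inl ?_)⟩
        rw [Odd23.g14 (by omega) (by omega) (by omega) (by omega)]; omega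
    by_cases c4 : z ≤ 4 * s
    · refine ⟨8 * s, by omega, by omega, Or.inr (Or.inl ?_)⟩
      rw [Odd23.g9 (by omega) (by omega)]; omega
    by_cases c5 : z ≤ 6 * s - 1
    · refine ⟨12 * s - 2 * z, by omega, by omega, Or.inl ?_⟩
      rw [Odd23.g1 (by omega) (by omega)]; omega
    by_cases c6 : z ≤ 6 * s
    · refine ⟨2 * s + 1, by omega, by omega, Or.inr (Or.inl ?_)⟩
      rw [Odd23.g2 (by omega) (by omega)]; omega
    by_cases c7 : z ≤ 8 * s - 1
    · refine ⟨12 * s - z, by omega, by omega, Or.inr (Or.inl ?_)⟩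
      rw [Odd23.g6 (by omega) (by omega)]; omega
    by_cases c8 : z ≤ 8 * s
    · refine ⟨4 * s - 1, by omega, by omega, Or.inl ?_⟩
      rw [Odd23.g3 (by omega) (by omega)]; omega
    by_cases c9 : z ≤ 10 * s - 1
    · by_cases c10 : z = 9 * s - 1
      · refine ⟨11 * s, by omega, by omega, Or.inr (Or.inl ?_)⟩
        rw [Odd23.g12 (by omega) (by omega)]; omega
      · refine ⟨20 * s - 1 - 2 * z, by omega, by omega, Or.inl ?_⟩
        rw [Odd23.g4 (by omega) (by omega) (by omega) (by omega)]; omega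
    by_cases c11 : z = 11 * s
    · refine ⟨4 * s, by omega, by omega, Or.inr (Or.inr (Or.inl ?_))⟩
      rw [Odd23.g5 (by omega)]; omega
    by_cases c12 : z = 12 * s - 1
    · refine ⟨6 * s, by omega, by omega, Or.inr (Or.inr (Or.inl ?_))⟩
      rw [Odd23.g7 (by omega) (by omega)]; omega
    · refine ⟨20 * s - 1 - z, by omega, by omega, Or.inr (Or.inl ?_)⟩
      rw [Odd23.g11 (by omega) (by omega) (by omega) (by omega)]; omega
  · clear hn hs
    intro w hw1 hw2
    unfold Odd23.g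
    split_ifs <;> refine ⟨by omega, by omega, ?_⟩ <;> constructor <;> intro h <;> omega

end Pool.Agent.Lib_MP_8306f4_co.CaseB
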