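import Pool.Agent.Lib_MP_8306f4_co.CaseB.Defs
import Pool.Agent.Lib_MP_8306f4_co.CaseB.HomSolv

/-!
# MP_8306f4_co, case B, piece PrimeCrit

Notation. x·y = qop f x y = x f(x⁻¹y) on N; lambda_m: y -> m y is always an automorphism of it
(f commutes with nothing needed). 1·y = f(y). If Equi P f, then y -> p•y is an automorphism.
core(A): a∘b = 2b-a. For every x: y -> x·y is bijective (f bijective), for every y: x -> x·y is
bijective (x⁻¹f(x) bijective). '2 is invertible': all groups N have odd order.

## B2 (PrimeCrit.lean): prime_criterion [isHom_coprime]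
c=2: F v=2v: x·(x+v)=x+2v. α in A_1, d(x)=α(x+v)-α(x)≠0: α(x+2v)=α(x)+F(d(x)), so d(x+v)=F(d x)-d x =: g(d x), g
a permutation of the p-1 nonzero elements; d(x+pv)=d(x) so g^p fixes d(x), so g fixes it (cycle lengths <p):
d constant: α linear, α(x)=γx, F(γx)=γF(x), so γv=±v. c=-1: F v=-v: α(x-v)=α(x)+F(d(x)), d(x-v)=-F(d x): the same with
the permutation -F. homs: r≠p: isHom_coprime. r=p: c=2: h(x+2v)-2h(x+v)+h(x)=0, h affine, so F=2x unless const.
c=-1: e_k=h(kv)-h((k-1)v): e_{k+1}=-e_k/2, (-1/2)^p=-1/2: e=0. ker: F(m)=2m, F(km+y)=2km+F(y): F=2x if m≠0.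

-/

universe u v w

namespace Pool.Agent.Lib_MP_8306f4_co.CaseB

open Pool.Agent.Lib_MP_8306f4_co

namespace PrimeCrit

theorem iter_eq {p : ℕ} {d g : ZMod p → ZMod p} {v : ZMod p}
    (hdg : ∀ x, d (x + v) = g (d x)) (n : ℕ) (x : ZMod p) : d (x + n * v) = g^[n] (d x) := by
  induction n with
  | zero => simp
  | succ n ih =>
    rw [Function.iterate_succ_apply', ← ih, ← hdg]
    congr 1
    push_cast
    ring

theorem cyc {p : ℕ} [Fact p.Prime] {d g : ZMod p → ZMod p} (hg : Function.Injective g)
    {v : ZMod p} (hdg : ∀ x, d (x + v) = g (d x)) (hd : ∀ x, d x ≠ 0) (x : ZMod p) :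
    g (d x) = d x := by
  have hni : ¬ Function.Injective (fun k : ZMod p => d (x + k * v)) := by
    intro hinj
    obtain ⟨k, hk⟩ := (Finite.injective_iff_surjective.1 hinj) 0
    exact hd _ hk
  have key : ∀ a b : ℕ, a < b → b < p → g^[a] (d x) = g^[b] (d x) → g (d x) = d x := by
    intro a b hab hb h
    have h1 : g^[b - a] (d x) = d x := by
      have h2 : g^[a] (g^[b - a] (d x)) = g^[a] (d x) := by
        rw [← Function.iterate_add_apply, Nat.add_sub_cancel' hab.le, h]
      exact (hg.iterate a) h2
    have h3 : g^[p] (d x) = d x := by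
      rw [← iter_eq hdg]
      simp
    have h4 : Function.IsPeriodicPt g ((b - a).gcd p) (d x) :=
      Function.IsPeriodicPt.gcd h1 h3
    have h5 : (b - a).gcd p = 1 := by
      rw [Nat.gcd_comm]
      exact (Nat.Prime.coprime_iff_not_dvd Fact.out).2 (fun h6 => by
        have := Nat.le_of_dvd (by omega) h6
        omega)
    rw [h5] at h4
    exact h4
  rw [Function.Injective] at hni
  push Not at hni
  obtain ⟨a, b, hab, hne⟩ := hni
  have ha : d (x + a * v) = g^[a.val] (d x) := by
    rw [← iter_eq hdg, ZMod.natCast_zmod_val]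
  have hb : d (x + b * v) = g^[b.val] (d x) := by
    rw [← iter_eq hdg, ZMod.natCast_zmod_val]
  have hab' : g^[a.val] (d x) = g^[b.val] (d x) := by
    rw [← ha, ← hb]
    exact hab
  have hne' : a.val ≠ b.val := fun h => hne (ZMod.val_injective p h)
  rcases lt_or_gt_of_ne hne' with h | h
  · exact key _ _ h (ZMod.val_lt b) hab'
  · exact key _ _ h (ZMod.val_lt a) hab'.symm

theorem affine {p : ℕ} [Fact p.Prime] {A : Type w} [AddCommGroup A] [Module (ZMod p) A]
    {α : ZMod p → A} {v : ZMod p} (hv : v ≠ 0) {c : A} (h : ∀ x, α (x + v) - α x = c)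
    (x : ZMod p) : α x = α 0 + (x / v) • c := by
  have h1 : ∀ n : ℕ, α (n * v) = α 0 + (n : ZMod p) • c := by
    intro n
    induction n with
    | zero => simp
    | succ n ih =>
      have h2 := h (n * v)
      rw [sub_eq_iff_eq_add] at h2
      have h3 : ((n + 1 : ℕ) : ZMod p) * v = n * v + v := by push_cast; ring
      rw [h3, h2, ih, Nat.cast_succ, add_smul, one_smul]
      abel
  have h2 := h1 (x / v).val
  rw [ZMod.natCast_zmod_val, div_mul_cancel₀ _ hv] at h2
  exact h2

theorem two_ne {p : ℕ} [Fact p.Prime] (hp : 5 ≤ p) : (2 : ZMod p) ≠ 0 := by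
  intro h0
  have h1 : ((2 : ℕ) : ZMod p) = 0 := by exact_mod_cast h0
  rw [ZMod.natCast_eq_zero_iff] at h1
  have := Nat.le_of_dvd (by norm_num) h1
  omega

theorem three_ne {p : ℕ} [Fact p.Prime] (hp : 5 ≤ p) : (3 : ZMod p) ≠ 0 := by
  intro h0
  have h1 : ((3 : ℕ) : ZMod p) = 0 := by exact_mod_cast h0
  rw [ZMod.natCast_eq_zero_iff] at h1
  have := Nat.le_of_dvd (by norm_num) h1
  omega

theorem not_double {p : ℕ} [Fact p.Prime] (hp : 5 ≤ p) (F : ZMod p → ZMod p) (c : ZMod p)
    (hc : c = 2 ∨ c = -1) (v : ZMod p) (hv : v ≠ 0)
    (hx : ∀ x, x ≠ 0 → (F x = c * x ↔ (x = v ∨ x = -v))) (hF : ∀ x, F x = 2 * x) : False := by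
  have h2 := two_ne hp
  have h3 := three_ne hp
  rcases hc with rfl | rfl
  · rcases (hx (2 * v) (mul_ne_zero h2 hv)).1 (hF _) with h | h
    · apply hv
      linear_combination h
    · apply mul_ne_zero h3 hv
      linear_combination h
  · have h := (hx v hv).2 (Or.inl rfl)
    rw [hF] at h
    apply mul_ne_zero h3 hv
    linear_combination h

end PrimeCrit

/-- The criterion: an odd orthomorphism `F` of `ZMod p` with `F x = c x` exactly for `x = ±v`,
where `c = 2` or `c = -1`. -/
theorem prime_criterion {p : ℕ} [Fact p.Prime] (hp : 5 ≤ p) (F : ZMod p → ZMod p)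
    (h1 : Function.Bijective F) (h2 : Function.Bijective (fun x => F x - x))
    (hodd : ∀ x, F (-x) = -F x) (c : ZMod p) (hc : c = 2 ∨ c = -1) (v : ZMod p) (hv : v ≠ 0)
    (hx : ∀ x, x ≠ 0 → (F x = c * x ↔ (x = v ∨ x = -v))) : AModel (fun x => -x) F := by
  have two := PrimeCrit.two_ne (p := p) hp
  have three := PrimeCrit.three_ne (p := p) hp
  have hF0 : F 0 = 0 := by
    have := hodd 0
    rw [neg_zero] at this
    have h3 : 2 * F 0 = 0 := by linear_combination this
    exact (mul_eq_zero.1 h3).resolve_left two
  have hFv : F v = c * v := (hx v hv).2 (Or.inl rfl)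
  refine ⟨h1, h2, hodd, hF0, ?_, ?_, ?_⟩
  · intro α hα hα0
    set d : ZMod p → ZMod p := fun x => α (x + v) - α x with hd
    have hd0 : ∀ x, d x ≠ 0 := by
      intro x h
      apply hv
      have h3 : x + v = x := α.injective (sub_eq_zero.1 h)
      linear_combination h3
    have hcst : ∀ x, (d (x + v) = d x) ∧ (d x = v ∨ d x = -v) := by
      rcases hc with rfl | rfl
      · have hdg : ∀ x, d (x + v) = F (d x) - d x := by
          intro x
          have h3 := hα x (x + v)
          rw [add_sub_cancel_left, hFv] at h3
          have h4 : x + 2 * v = x + v + v := by ring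
          rw [h4] at h3
          show α (x + v + v) - α (x + v) = F (α (x + v) - α x) - (α (x + v) - α x)
          rw [h3]
          ring
        have h3 := PrimeCrit.cyc (g := fun x => F x - x) h2.1 hdg hd0
        intro x
        have h4 : F (d x) - d x = d x := h3 x
        refine ⟨(hdg x).trans h4, ?_⟩
        apply (hx _ (hd0 x)).1
        linear_combination h4
      · have hdg : ∀ x, d (x + -v) = -F (d x) := by
          intro x
          have h3 := hα x (x + v)
          rw [add_sub_cancel_left, hFv] at h3
          have h4 : x + -1 * v = x + -v := by ring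
          rw [h4] at h3
          show α (x + -v + v) - α (x + -v) = -F (α (x + v) - α x)
          rw [h3, neg_add_cancel_right]
          ring
        have h3 := PrimeCrit.cyc (g := fun x => -F x)
          (fun a b hab => h1.1 (neg_injective hab)) hdg hd0
        intro x
        have h4 : ∀ x, -F (d x) = d x := h3
        constructor
        · have h5 := hdg (x + v)
          rw [add_neg_cancel_right, h4] at h5
          exact h5.symm
        · apply (hx _ (hd0 x)).1
          linear_combination -h4 x
    have hdc : ∀ x, d x = d 0 := by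
      intro x
      have h3 := PrimeCrit.affine (α := d) hv (c := 0) (fun x => by rw [(hcst x).1, sub_self]) x
      rw [h3, smul_zero, add_zero]
    have h3 : ∀ x, α x = (x / v) * d 0 := by
      intro x
      have h4 := PrimeCrit.affine (α := α) hv (c := d 0) (fun x => hdc x) x
      rw [h4, hα0, zero_add, smul_eq_mul]
    rcases (hcst 0).2 with h4 | h4
    · refine ⟨0, fun x => ?_⟩
      rw [h3, h4, div_mul_cancel₀ _ hv]
      rfl
    · refine ⟨1, fun x => ?_⟩
      rw [h3, h4, mul_neg, div_mul_cancel₀ _ hv]
      rfl
  · intro r hr h hh x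
    by_cases hrp : r = p
    · subst hrp
      rcases hc with rfl | rfl
      · have h3 : ∀ x, h (x + v + v) - h (x + v) = h (x + v) - h x := by
          intro x
          have h4 := hh x (x + v)
          rw [add_sub_cancel_left, hFv] at h4
          have h5 : x + 2 * v = x + v + v := by ring
          rw [h5] at h4
          rw [h4]
          ring
        have h4 : ∀ x, h (x + v) - h x = h (0 + v) - h 0 := by
          intro x
          have h5 := PrimeCrit.affine (α := fun x => h (x + v) - h x) hv (c := 0)
            (fun x => by show h (x + v + v) - h (x + v) - (h (x + v) - h x) = 0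
                         rw [h3, sub_self]) x
          rw [smul_zero, add_zero] at h5
          exact h5
        have h5 := PrimeCrit.affine (α := h) hv h4
        set m := h (0 + v) - h 0 with hm
        by_cases hm0 : m = 0
        · rw [h5 x, hm0, smul_zero, add_zero]
        · exfalso
          refine PrimeCrit.not_double hp F 2 (Or.inl rfl) v hv hx (fun y => ?_)
          have h6 := hh 0 y
          rw [zero_add, sub_zero, h5 (F y), h5 y, smul_eq_mul, smul_eq_mul] at h6
          have h7 : F y / v * m = 2 * y / v * m := by
            rw [mul_div_assoc]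
            linear_combination h6
          exact (div_left_inj' hv).1 (mul_right_cancel₀ hm0 h7)
      · have h3 : ∀ x, h (x - v + v) - h (x - v) = -2 * (h (x + v) - h x) := by
          intro x
          have h4 := hh x (x + v)
          rw [add_sub_cancel_left, hFv] at h4
          have h5 : x + -1 * v = x - v := by ring
          rw [h5] at h4
          rw [h4, sub_add_cancel]
          ring
        set e : ZMod r → ZMod r := fun x => h (x + v) - h x with he
        have h4 : ∀ x, e (x - v) = -2 * e x := h3
        have h5 : ∀ (n : ℕ) (x : ZMod r), e (x - n * v) = (-2) ^ n * e x := by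
          intro n
          induction n with
          | zero => intro x; simp
          | succ n ih =>
            intro x
            have h6 : x - ((n + 1 : ℕ) : ZMod r) * v = x - n * v - v := by push_cast; ring
            rw [h6, h4, ih, pow_succ]
            ring
        have h6 : ∀ x, e x = 0 := by
          intro x
          have h7 := h5 r x
          rw [ZMod.pow_card, CharP.cast_eq_zero, zero_mul, sub_zero] at h7
          have h8 : 3 * e x = 0 := by linear_combination h7
          exact (mul_eq_zero.1 h8).resolve_left three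
        have h7 := PrimeCrit.affine (α := h) hv (c := 0) h6 x
        rw [h7, smul_zero, add_zero]
    · let f : Multiplicative (ZMod p) → Multiplicative (ZMod p) :=
        fun x => Multiplicative.ofAdd (F (Multiplicative.toAdd x))
      have hf : IsOrth f := by
        refine ⟨h1, ?_⟩
        have h3 : (fun x : Multiplicative (ZMod p) => x⁻¹ * f x) =
            fun x => Multiplicative.ofAdd (F (Multiplicative.toAdd x) - Multiplicative.toAdd x) := by
          funext x
          show Multiplicative.ofAdd (-Multiplicative.toAdd x + F (Multiplicative.toAdd x)) = _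
          rw [neg_add_eq_sub]
        rw [h3]
        exact h2
      have h3 : ¬ r ∣ Nat.card (Multiplicative (ZMod p)) := by
        have h4 : Nat.card (Multiplicative (ZMod p)) = p := Nat.card_zmod p
        rw [h4]
        intro h5
        exact hrp ((Nat.prime_dvd_prime_iff_eq hr Fact.out).1 h5)
      have h4 : IsHom f (fun x => h (Multiplicative.toAdd x)) := by
        intro x y
        show h (Multiplicative.toAdd x + F (-Multiplicative.toAdd x + Multiplicative.toAdd y)) = _
        rw [neg_add_eq_sub, hh, two_nsmul, two_mul]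
      exact isHom_coprime hf hr h3 _ h4 (Multiplicative.ofAdd x)
  · intro m hm
    by_contra hm0
    refine PrimeCrit.not_double hp F c hc v hv hx (fun y => ?_)
    have h3 := PrimeCrit.affine (α := F) hm0 (c := 2 • m) (fun x => by
      rw [add_comm x m, hm]; ring) y
    rw [h3, hF0, zero_add, smul_eq_mul, two_nsmul, mul_add, div_mul_cancel₀ _ hm0]
    ring

end Pool.Agent.Lib_MP_8306f4_co.CaseB
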