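import Pool.Agent.Lib_MP_8306f4_co.CaseB.Defs

/-!
# MP_8306f4_co, case B, piece PrimeMod3

Notation. x·y = qop f x y = x f(x⁻¹y) on N; lambda_m: y -> m y is always an automorphism of it
(f commutes with nothing needed). 1·y = f(y). If Equi P f, then y -> p•y is an automorphism.
core(A): a∘b = 2b-a. For every x: y -> x·y is bijective (f bijective), for every y: x -> x·y is
bijective (x⁻¹f(x) bijective). '2 is invertible': all groups N have odd order.

## B3 (PrimeMod3.lean): ω²+ω+1=0. F=-ωx except F(±1)=∓1, F(±ω²)=±2ω², F(±2ω)=±ω. c=-1, v=1.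
-/

universe u v w

namespace Pool.Agent.Lib_MP_8306f4_co.CaseB

open Pool.Agent.Lib_MP_8306f4_co

namespace PrimeMod3

/-- Changing the odd linear map `a x` on the points `±u i` to the values `±w i`. -/
theorem core {K : Type} [Field K] [Finite K] {ι : Type} (a : K) (ha : a ≠ 0) (ha1 : a ≠ 1)
    (u w : ι → K) (hu : ∀ i j, u i = u j → i = j) (hu' : ∀ i j, u i ≠ -u j)
    (h1 : ∀ i, ∃ j, a * u i = w j ∨ a * u i = -w j)
    (h2 : ∀ i, ∃ j, (a - 1) * u i = w j - u j ∨ (a - 1) * u i = -(w j - u j))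
    (h20 : (2 : K) ≠ 0) :
    ∃ F : K → K, Function.Bijective F ∧ Function.Bijective (fun x => F x - x) ∧
      (∀ x, F (-x) = -F x) ∧ (∀ i, F (u i) = w i) ∧
      ∀ x, (∀ i, x ≠ u i ∧ x ≠ -u i) → F x = a * x := by
  classical
  set F : K → K := fun x => if h : ∃ i, x = u i then w h.choose
    else if h' : ∃ i, x = -u i then -w h'.choose else a * x with hF
  have f1 : ∀ i, F (u i) = w i := by
    intro i
    have h : ∃ j, u i = u j := ⟨i, rfl⟩
    simp only [hF]
    rw [dif_pos h]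
    rw [← hu i _ h.choose_spec]
  have f2 : ∀ i, F (-u i) = -w i := by
    intro i
    have h : ¬∃ j, -u i = u j := by
      rintro ⟨j, hj⟩
      exact hu' j i hj.symm
    have h' : ∃ j, -u i = -u j := ⟨i, rfl⟩
    simp only [hF]
    rw [dif_neg h, dif_pos h']
    rw [← hu i _ (neg_injective h'.choose_spec)]
  have f3 : ∀ x, (∀ i, x ≠ u i ∧ x ≠ -u i) → F x = a * x := by
    intro x hx
    simp only [hF]
    rw [dif_neg (by rintro ⟨i, hi⟩; exact (hx i).1 hi),
      dif_neg (by rintro ⟨i, hi⟩; exact (hx i).2 hi)]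
  have hodd : ∀ x, F (-x) = -F x := by
    intro x
    by_cases c1 : ∃ i, x = u i
    · obtain ⟨i, rfl⟩ := c1
      rw [f1, f2]
    by_cases c2 : ∃ i, x = -u i
    · obtain ⟨i, rfl⟩ := c2
      rw [neg_neg, f1, f2, neg_neg]
    push Not at c1 c2
    rw [f3 x (fun i => ⟨c1 i, c2 i⟩), f3 (-x) (fun i => ⟨?_, ?_⟩)]
    · ring
    · intro h
      exact c2 i (by rw [← h, neg_neg])
    · intro h
      exact c1 i (neg_injective h)
  refine ⟨F, ?_, ?_, hodd, f1, f3⟩
  · rw [← Finite.surjective_iff_bijective]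
    intro y
    by_cases c1 : ∃ i, a⁻¹ * y = u i
    · obtain ⟨i, hi⟩ := c1
      obtain ⟨j, hj | hj⟩ := h1 i
      · refine ⟨u j, ?_⟩
        rw [f1, ← hj, ← hi, mul_inv_cancel_left₀ ha]
      · refine ⟨-u j, ?_⟩
        rw [f2, ← hj, ← hi, mul_inv_cancel_left₀ ha]
    by_cases c2 : ∃ i, a⁻¹ * y = -u i
    · obtain ⟨i, hi⟩ := c2
      have hy : y = -(a * u i) := by
        rw [← mul_neg, ← hi, mul_inv_cancel_left₀ ha]
      obtain ⟨j, hj | hj⟩ := h1 i
      · refine ⟨-u j, ?_⟩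
        rw [f2, hy, hj]
      · refine ⟨u j, ?_⟩
        rw [f1, hy, hj, neg_neg]
    push Not at c1 c2
    exact ⟨a⁻¹ * y, by rw [f3 _ (fun i => ⟨c1 i, c2 i⟩), mul_inv_cancel_left₀ ha]⟩
  · have hb : a - 1 ≠ 0 := sub_ne_zero.mpr ha1
    rw [← Finite.surjective_iff_bijective]
    intro y
    by_cases c1 : ∃ i, (a - 1)⁻¹ * y = u i
    · obtain ⟨i, hi⟩ := c1
      have hy : y = (a - 1) * u i := by
        rw [← hi, mul_inv_cancel_left₀ hb]
      obtain ⟨j, hj | hj⟩ := h2 i
      · refine ⟨u j, ?_⟩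
        simp only
        rw [f1, hy, hj]
      · refine ⟨-u j, ?_⟩
        simp only
        rw [f2, hy, hj]
        ring
    by_cases c2 : ∃ i, (a - 1)⁻¹ * y = -u i
    · obtain ⟨i, hi⟩ := c2
      have hy : y = -((a - 1) * u i) := by
        rw [← mul_neg, ← hi, mul_inv_cancel_left₀ hb]
      obtain ⟨j, hj | hj⟩ := h2 i
      · refine ⟨-u j, ?_⟩
        simp only
        rw [f2, hy, hj]
        ring
      · refine ⟨u j, ?_⟩
        simp only
        rw [f1, hy, hj, neg_neg]
    push Not at c1 c2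
    refine ⟨(a - 1)⁻¹ * y, ?_⟩
    simp only
    rw [f3 _ (fun i => ⟨c1 i, c2 i⟩), ← sub_one_mul, mul_inv_cancel_left₀ hb]

/-- The conclusion of the two theorems, from the core. -/
theorem fin {K : Type} [Field K] {ι : Type} (a : K) (u w : ι → K) (F : K → K)
    (hodd : ∀ x, F (-x) = -F x) (f1 : ∀ i, F (u i) = w i)
    (f3 : ∀ x, (∀ i, x ≠ u i ∧ x ≠ -u i) → F x = a * x) (c : K) (hc : a ≠ c) (i₀ : ι)
    (h₀ : w i₀ = c * u i₀) (h : ∀ i, i ≠ i₀ → w i ≠ c * u i) :
    ∀ x, x ≠ 0 → (F x = c * x ↔ (x = u i₀ ∨ x = -u i₀)) := by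
  intro x hx
  constructor
  · intro hFx
    by_cases c1 : ∃ i, x = u i
    · obtain ⟨i, rfl⟩ := c1
      rw [f1] at hFx
      by_cases hi : i = i₀
      · left
        rw [hi]
      · exact absurd hFx (h i hi)
    by_cases c2 : ∃ i, x = -u i
    · obtain ⟨i, rfl⟩ := c2
      rw [hodd, f1, mul_neg, neg_inj] at hFx
      by_cases hi : i = i₀
      · right
        rw [hi]
      · exact absurd hFx (h i hi)
    push Not at c1 c2
    rw [f3 x (fun i => ⟨c1 i, c2 i⟩)] at hFx
    exact absurd (mul_right_cancel₀ hx hFx) hc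
  · rintro (h | h)
    · rw [h, f1, h₀]
    · rw [h, hodd, f1, h₀, mul_neg]

theorem nat_ne {p : ℕ} [Fact p.Prime] {m : ℕ} (hm : 0 < m) (hp : m < p) : ((m : ℕ) : ZMod p) ≠ 0 := by
  intro h
  rw [ZMod.natCast_eq_zero_iff] at h
  exact absurd (Nat.le_of_dvd hm h) (not_le.mpr hp)

theorem exists_omega {p : ℕ} [Fact p.Prime] (h3 : p % 3 = 1) :
    ∃ ω : ZMod p, ω ^ 2 + ω + 1 = 0 := by
  have hcard : Nat.card (ZMod p)ˣ = p - 1 := by
    rw [Nat.card_eq_fintype_card, ZMod.card_units]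
  have hp := (Fact.out : p.Prime).one_lt
  have hd : 3 ∣ Nat.card (ZMod p)ˣ := by
    rw [hcard]
    omega
  haveI : Fact (Nat.Prime 3) := ⟨Nat.prime_three⟩
  obtain ⟨x, hx⟩ := exists_prime_orderOf_dvd_card' 3 hd
  refine ⟨(x : ZMod p), ?_⟩
  have h1 : (x : ZMod p) ^ 3 = 1 := by
    have := pow_orderOf_eq_one x
    rw [hx] at this
    rw [← Units.val_pow_eq_pow_val, this, Units.val_one]
  have h2 : (x : ZMod p) ≠ 1 := by
    intro h
    have h4 : x = 1 := Units.ext h
    rw [h4, orderOf_one] at hx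
    omega
  have h3 : ((x : ZMod p) - 1) * ((x : ZMod p) ^ 2 + x + 1) = 0 := by
    linear_combination h1
  exact (mul_eq_zero.mp h3).resolve_left (sub_ne_zero.mpr h2)

end PrimeMod3

theorem prime_mod3 {p : ℕ} [Fact p.Prime] (hp : 13 ≤ p) (h3 : p % 3 = 1) :
    ∃ F : ZMod p → ZMod p, Function.Bijective F ∧ Function.Bijective (fun x => F x - x) ∧
      (∀ x, F (-x) = -F x) ∧ ∃ c v : ZMod p, (c = 2 ∨ c = -1) ∧ v ≠ 0 ∧
        ∀ x, x ≠ 0 → (F x = c * x ↔ (x = v ∨ x = -v)) := by
  obtain ⟨ω, hω⟩ := PrimeMod3.exists_omega h3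
  have n2 : (2 : ZMod p) ≠ 0 := by
    exact_mod_cast PrimeMod3.nat_ne (p := p) (m := 2) (by norm_num) (by omega)
  have n3 : (3 : ZMod p) ≠ 0 := by
    exact_mod_cast PrimeMod3.nat_ne (p := p) (m := 3) (by norm_num) (by omega)
  have n7 : (7 : ZMod p) ≠ 0 := by
    exact_mod_cast PrimeMod3.nat_ne (p := p) (m := 7) (by norm_num) (by omega)
  have w0 : ω ≠ 0 := by
    rintro rfl
    simp at hω
  have w1 : ω ≠ 1 := by
    rintro rfl
    apply n3
    linear_combination hω
  have e01 : (1 : ZMod p) ≠ ω ^ 2 := by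
    intro h
    have hl : ω + 2 = 0 := by linear_combination h + hω
    apply n3
    linear_combination hω - (ω - 1) * hl
  have f01 : (1 : ZMod p) ≠ -ω ^ 2 := by
    intro h
    apply w0
    linear_combination hω - h
  have e02 : (1 : ZMod p) ≠ 2 * ω := by
    intro h
    apply n7
    linear_combination 4 * hω + (2 * ω + 3) * h
  have f02 : (1 : ZMod p) ≠ -(2 * ω) := by
    intro h
    apply n3
    linear_combination 4 * hω - (2 * ω + 1) * h
  have e12 : ω ^ 2 ≠ 2 * ω := by
    intro h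
    have hl : 3 * ω + 1 = 0 := by linear_combination hω - h
    apply n7
    linear_combination 9 * hω - (3 * ω + 2) * hl
  have f12 : ω ^ 2 ≠ -(2 * ω) := by
    intro h
    have hl : ω - 1 = 0 := by linear_combination h - hω
    exact w1 (sub_eq_zero.mp hl)
  have g0 : (1 : ZMod p) ≠ -1 := by
    intro h
    apply n2
    linear_combination h
  have g1 : ω ^ 2 ≠ -ω ^ 2 := by
    intro h
    have : 2 * ω ^ 2 = 0 := by linear_combination h
    exact mul_ne_zero n2 (pow_ne_zero 2 w0) this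
  have g2 : 2 * ω ≠ -(2 * ω) := by
    intro h
    have : 2 * (2 * ω) = 0 := by linear_combination h
    exact mul_ne_zero n2 (mul_ne_zero n2 w0) this
  set u : Fin 3 → ZMod p := ![1, ω ^ 2, 2 * ω] with hu
  set w : Fin 3 → ZMod p := ![-1, 2 * ω ^ 2, ω] with hw
  have u_0 : u 0 = 1 := rfl
  have u_1 : u 1 = ω ^ 2 := rfl
  have u_2 : u 2 = 2 * ω := rfl
  have w_0 : w 0 = -1 := rfl
  have w_1 : w 1 = 2 * ω ^ 2 := rfl
  have w_2 : w 2 = ω := rfl
  have hfin : ∀ P : Fin 3 → Prop, P 0 → P 1 → P 2 → ∀ i, P i := by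
    intro P h0 h1 h2 i
    fin_cases i
    · exact h0
    · exact h1
    · exact h2
  obtain ⟨F, F1, F2, F3, F4, F5⟩ := PrimeMod3.core (-ω) (neg_ne_zero.mpr w0)
    (by
      intro h
      have hl : ω + 1 = 0 := by linear_combination -h
      apply pow_ne_zero 2 w0
      linear_combination hω - hl) u w
    (by
      refine hfin _ (hfin _ ?_ ?_ ?_) (hfin _ ?_ ?_ ?_) (hfin _ ?_ ?_ ?_)
      · exact fun _ => rfl
      · exact fun h => absurd h e01
      · exact fun h => absurd h e02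
      · exact fun h => absurd h.symm e01
      · exact fun _ => rfl
      · exact fun h => absurd h e12
      · exact fun h => absurd h.symm e02
      · exact fun h => absurd h.symm e12
      · exact fun _ => rfl)
    (by
      refine hfin _ (hfin _ ?_ ?_ ?_) (hfin _ ?_ ?_ ?_) (hfin _ ?_ ?_ ?_)
      · exact g0
      · exact f01
      · exact f02
      · intro h
        rw [u_0, u_1] at h
        exact f01 (by rw [h, neg_neg])
      · exact g1
      · exact f12
      · intro h
        rw [u_0, u_2] at h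
        exact f02 (by rw [h, neg_neg])
      · intro h
        rw [u_1, u_2] at h
        exact f12 (by rw [h, neg_neg])
      · exact g2)
    (by
      refine hfin _ ⟨2, Or.inr ?_⟩ ⟨0, Or.inl ?_⟩ ⟨1, Or.inr ?_⟩
      · rw [u_0, w_2]
        ring
      · rw [u_1, w_0]
        linear_combination (1 - ω) * hω
      · rw [u_2, w_1]
        ring)
    (by
      refine hfin _ ⟨1, Or.inl ?_⟩ ⟨2, Or.inr ?_⟩ ⟨0, Or.inr ?_⟩
      · rw [u_0, u_1, w_1]
        linear_combination -hω
      · rw [u_1, u_2, w_2]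
        linear_combination -ω * hω
      · rw [u_2, u_0, w_0]
        linear_combination -2 * hω)
    n2
  refine ⟨F, F1, F2, F3, -1, u 0, Or.inr rfl, ?_, ?_⟩
  · rw [u_0]
    exact one_ne_zero
  · refine PrimeMod3.fin (-ω) u w F F3 F4 F5 (-1) ?_ 0 ?_ ?_
    · intro h
      exact w1 (neg_injective h)
    · rw [u_0, w_0]
      ring
    · refine hfin _ ?_ ?_ ?_
      · exact fun h => absurd rfl h
      · intro _ h
        rw [u_1, w_1] at h
        have : 3 * ω ^ 2 = 0 := by linear_combination h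
        exact mul_ne_zero n3 (pow_ne_zero 2 w0) this
      · intro _ h
        rw [u_2, w_2] at h
        have : 3 * ω = 0 := by linear_combination h
        exact mul_ne_zero n3 w0 this

end Pool.Agent.Lib_MP_8306f4_co.CaseB
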