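import Pool.Agent.Lib_MP_8306f4_co.CaseB.PrimeMod3

/-!
# MP_8306f4_co, case B, piece PrimeMod4

Notation. x·y = qop f x y = x f(x⁻¹y) on N; lambda_m: y -> m y is always an automorphism of it
(f commutes with nothing needed). 1·y = f(y). If Equi P f, then y -> p•y is an automorphism.
core(A): a∘b = 2b-a. For every x: y -> x·y is bijective (f bijective), for every y: x -> x·y is
bijective (x⁻¹f(x) bijective). '2 is invertible': all groups N have odd order.

## B4 (PrimeMod4.lean): i²=-1, x0=(2+i)/(i-2). F=ix except F(±(x0+w))=±(i x0-i w) for w in {1,-1,i,-i}. c=2, v=x0+1.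
Needs the 8 points ±(x0+w) distinct and nonzero, true if i≠5, 3≠-5i, 7≠-3i (and p≥17): automatic for p≠17,29; for p=17
take i=4, for p=29 take i=12 (checked by computer for all p<400).
-/

universe u v w

namespace Pool.Agent.Lib_MP_8306f4_co.CaseB

open Pool.Agent.Lib_MP_8306f4_co

namespace PrimeMod4

theorem norm {K : Type} [Field K] {i : K} (hi : i ^ 2 = -1) {a b : K} (hab : a ^ 2 + b ^ 2 ≠ 0) :
    a + b * i ≠ 0 := by
  intro h
  apply hab
  linear_combination (a - b * i) * h + b ^ 2 * hi

theorem e17 : ∃ i : ZMod 17, i ^ 2 = -1 ∧ 3 + 5 * i ≠ 0 ∧ 7 + 3 * i ≠ 0 := by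
  refine ⟨4, ?_, ?_, ?_⟩ <;> decide

theorem e29 : ∃ i : ZMod 29, i ^ 2 = -1 ∧ 3 + 5 * i ≠ 0 ∧ 7 + 3 * i ≠ 0 := by
  refine ⟨12, ?_, ?_, ?_⟩ <;> decide

theorem exists_i {p : ℕ} [Fact p.Prime] (hp : 17 ≤ p) (h4 : p % 4 = 1) :
    ∃ i : ZMod p, i ^ 2 = -1 ∧ 3 + 5 * i ≠ 0 ∧ 7 + 3 * i ≠ 0 := by
  by_cases c1 : p = 17
  · subst c1
    exact e17
  by_cases c2 : p = 29
  · subst c2
    exact e29
  obtain ⟨y, hy⟩ := ZMod.exists_sq_eq_neg_one_iff (p := p).mpr (by omega)
  have hi : y ^ 2 = -1 := by rw [pow_two, ← hy]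
  have key : ∀ q : ℕ, q.Prime → p ≠ q → p ≠ 2 → ((2 * q : ℕ) : ZMod p) ≠ 0 := by
    intro q hq hpq hp2 h
    rw [ZMod.natCast_eq_zero_iff] at h
    rcases ((Fact.out : p.Prime).dvd_mul).mp h with h | h
    · exact hp2 ((Nat.prime_dvd_prime_iff_eq Fact.out Nat.prime_two).mp h)
    · exact hpq ((Nat.prime_dvd_prime_iff_eq Fact.out hq).mp h)
  refine ⟨y, hi, norm hi ?_, norm hi ?_⟩
  · have := key 17 (by norm_num) c1 (by omega)
    intro h
    apply this
    push_cast
    linear_combination h
  · have := key 29 (by norm_num) c2 (by omega)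
    intro h
    apply this
    push_cast
    linear_combination h

end PrimeMod4

theorem prime_mod4 {p : ℕ} [Fact p.Prime] (hp : 17 ≤ p) (h4 : p % 4 = 1) :
    ∃ F : ZMod p → ZMod p, Function.Bijective F ∧ Function.Bijective (fun x => F x - x) ∧
      (∀ x, F (-x) = -F x) ∧ ∃ c v : ZMod p, (c = 2 ∨ c = -1) ∧ v ≠ 0 ∧
        ∀ x, x ≠ 0 → (F x = c * x ↔ (x = v ∨ x = -v)) := by
  obtain ⟨i, hi, hi1, hi2⟩ := PrimeMod4.exists_i hp h4
  have n2 : (2 : ZMod p) ≠ 0 := by
    exact_mod_cast PrimeMod3.nat_ne (p := p) (m := 2) (by norm_num) (by omega)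
  have n3 : (3 : ZMod p) ≠ 0 := by
    exact_mod_cast PrimeMod3.nat_ne (p := p) (m := 3) (by norm_num) (by omega)
  have n5 : (5 : ZMod p) ≠ 0 := by
    exact_mod_cast PrimeMod3.nat_ne (p := p) (m := 5) (by norm_num) (by omega)
  have n13 : (13 : ZMod p) ≠ 0 := by
    exact_mod_cast PrimeMod3.nat_ne (p := p) (m := 13) (by norm_num) (by omega)
  have i0 : i ≠ 0 := by
    rintro rfl
    simp at hi
  have i1 : i ≠ 1 := by
    rintro rfl
    apply n2
    linear_combination hi
  have hm1 : i ≠ -1 := by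
    rintro rfl
    apply n2
    linear_combination hi
  have i2 : i ≠ 2 := by
    rintro rfl
    apply n5
    linear_combination hi
  have i5 : i ≠ 5 := by
    rintro rfl
    have : (2 : ZMod p) * 13 = 0 := by linear_combination hi
    exact mul_ne_zero n2 n13 this
  have hp2 : (2 : ZMod p) + i ≠ 0 := by
    intro h
    apply n5
    linear_combination (2 - i) * h + hi
  have hq : i - 2 ≠ 0 := sub_ne_zero.mpr i2
  obtain ⟨x, hx⟩ : ∃ x : ZMod p, (i - 2) * x = 2 + i :=
    ⟨(i - 2)⁻¹ * (2 + i), by rw [mul_inv_cancel_left₀ hq]⟩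
  set u : Fin 4 → ZMod p := ![x + 1, x - 1, x + i, x - i] with hu
  set w : Fin 4 → ZMod p := ![i * (x - 1), i * (x + 1), i * (x - i), i * (x + i)] with hw
  have u_0 : u 0 = x + 1 := rfl
  have u_1 : u 1 = x - 1 := rfl
  have u_2 : u 2 = x + i := rfl
  have u_3 : u 3 = x - i := rfl
  have w_0 : w 0 = i * (x - 1) := rfl
  have w_1 : w 1 = i * (x + 1) := rfl
  have w_2 : w 2 = i * (x - i) := rfl
  have w_3 : w 3 = i * (x + i) := rfl
  have hfin : ∀ P : Fin 4 → Prop, P 0 → P 1 → P 2 → P 3 → ∀ i, P i := by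
    intro P h0 h1 h2 h3 i
    fin_cases i
    · exact h0
    · exact h1
    · exact h2
    · exact h3
  have e01 : x + 1 ≠ x - 1 := by
    intro h
    apply n2
    linear_combination h
  have e02 : x + 1 ≠ x + i := by
    intro h
    apply i1
    linear_combination -h
  have e03 : x + 1 ≠ x - i := by
    intro h
    apply hm1
    linear_combination h
  have e12 : x - 1 ≠ x + i := by
    intro h
    apply hm1
    linear_combination -h
  have e13 : x - 1 ≠ x - i := by
    intro h
    apply i1
    linear_combination h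
  have e23 : x + i ≠ x - i := by
    intro h
    have : 2 * i = 0 := by linear_combination h
    exact mul_ne_zero n2 i0 this
  have g00 : x + 1 ≠ -(x + 1) := by
    intro h
    have : 2 * (2 * i) = 0 := by linear_combination (i - 2) * h - 2 * hx
    exact mul_ne_zero n2 (mul_ne_zero n2 i0) this
  have g01 : x + 1 ≠ -(x - 1) := by
    intro h
    have : 2 * (2 + i) = 0 := by linear_combination (i - 2) * h - 2 * hx
    exact mul_ne_zero n2 hp2 this
  have g02 : x + 1 ≠ -(x + i) := by
    intro h
    apply hm1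
    linear_combination (i - 2) * h - 2 * hx - hi
  have g03 : x + 1 ≠ -(x - i) := by
    intro h
    apply hi1
    linear_combination (i - 2) * h - 2 * hx + hi
  have g11 : x - 1 ≠ -(x - 1) := by
    intro h
    have : 2 * (2 * 2) = (0 : ZMod p) := by linear_combination (i - 2) * h - 2 * hx
    exact mul_ne_zero n2 (mul_ne_zero n2 n2) this
  have g12 : x - 1 ≠ -(x + i) := by
    intro h
    apply i5
    linear_combination -(i - 2) * h + 2 * hx + hi
  have g13 : x - 1 ≠ -(x - i) := by
    intro h
    apply hi2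
    linear_combination (i - 2) * h - 2 * hx + hi
  have g22 : x + i ≠ -(x + i) := by
    intro h
    have : 2 * (i - 1) = 0 := by linear_combination -(i - 2) * h + 2 * hx + 2 * hi
    exact mul_ne_zero n2 (sub_ne_zero.mpr i1) this
  have g23 : x + i ≠ -(x - i) := by
    intro h
    have : 2 * (2 + i) = 0 := by linear_combination (i - 2) * h - 2 * hx
    exact mul_ne_zero n2 hp2 this
  have g33 : x - i ≠ -(x - i) := by
    intro h
    have : 2 * (3 * (i + 1)) = 0 := by linear_combination (i - 2) * h - 2 * hx + 2 * hi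
    refine mul_ne_zero n2 (mul_ne_zero n3 ?_) this
    intro h
    exact hm1 (by linear_combination h)
  obtain ⟨F, F1, F2, F3, F4, F5⟩ := PrimeMod3.core i i0 i1 u w
    (by
      refine hfin _ (hfin _ ?_ ?_ ?_ ?_) (hfin _ ?_ ?_ ?_ ?_) (hfin _ ?_ ?_ ?_ ?_)
        (hfin _ ?_ ?_ ?_ ?_)
      · exact fun _ => rfl
      · exact fun h => absurd h e01
      · exact fun h => absurd h e02
      · exact fun h => absurd h e03
      · exact fun h => absurd h.symm e01
      · exact fun _ => rfl
      · exact fun h => absurd h e12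
      · exact fun h => absurd h e13
      · exact fun h => absurd h.symm e02
      · exact fun h => absurd h.symm e12
      · exact fun _ => rfl
      · exact fun h => absurd h e23
      · exact fun h => absurd h.symm e03
      · exact fun h => absurd h.symm e13
      · exact fun h => absurd h.symm e23
      · exact fun _ => rfl)
    (by
      have sy : ∀ a b : ZMod p, a ≠ -b → b ≠ -a := fun a b h h' => h (by rw [h', neg_neg])
      refine hfin _ (hfin _ ?_ ?_ ?_ ?_) (hfin _ ?_ ?_ ?_ ?_) (hfin _ ?_ ?_ ?_ ?_)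
        (hfin _ ?_ ?_ ?_ ?_)
      · exact g00
      · exact g01
      · exact g02
      · exact g03
      · exact sy _ _ g01
      · exact g11
      · exact g12
      · exact g13
      · exact sy _ _ g02
      · exact sy _ _ g12
      · exact g22
      · exact g23
      · exact sy _ _ g03
      · exact sy _ _ g13
      · exact sy _ _ g23
      · exact g33)
    (hfin _ ⟨1, Or.inl rfl⟩ ⟨0, Or.inl rfl⟩ ⟨3, Or.inl rfl⟩ ⟨2, Or.inl rfl⟩)
    (by
      refine hfin _ ⟨3, Or.inl ?_⟩ ⟨2, Or.inl ?_⟩ ⟨0, Or.inl ?_⟩ ⟨1, Or.inl ?_⟩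
      · rw [u_0, w_3, u_3]
        linear_combination -hi
      · rw [u_1, w_2, u_2]
        linear_combination hi
      · rw [u_2, w_0, u_0]
        linear_combination hi
      · rw [u_3, w_1, u_1]
        linear_combination -hi)
    n2
  refine ⟨F, F1, F2, F3, 2, u 0, Or.inl rfl, ?_, ?_⟩
  · rw [u_0]
    intro h
    exact g00 (by rw [h, neg_zero])
  · refine PrimeMod3.fin i u w F F3 F4 F5 2 i2 0 ?_ ?_
    · rw [u_0, w_0]
      linear_combination hx
    · refine hfin _ ?_ ?_ ?_ ?_
      · exact fun h => absurd rfl h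
      · intro _ h
        rw [u_1, w_1] at h
        have : 2 * (2 + i) = 0 := by linear_combination h - hx
        exact mul_ne_zero n2 hp2 this
      · intro _ h
        rw [u_2, w_2] at h
        have : (2 + i) * (1 - i) = 0 := by linear_combination h - hx
        exact mul_ne_zero hp2 (sub_ne_zero.mpr i1.symm) this
      · intro _ h
        rw [u_3, w_3] at h
        have : (2 + i) * (1 + i) = 0 := by linear_combination h - hx
        refine mul_ne_zero hp2 ?_ this
        intro h
        exact hm1 (by linear_combination h)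

end Pool.Agent.Lib_MP_8306f4_co.CaseB
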