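import Pool.Agent.Lib_MP_8306f4_co.CaseB.Defs
import Pool.Agent.Lib_MP_8306f4_co.CaseB.Transfer
import Pool.Agent.Lib_MP_8306f4_co.CaseB.Models2
import Pool.Agent.Lib_MP_8306f4_co.CaseB.PrimeCrit
import Pool.Agent.Lib_MP_8306f4_co.CaseB.PrimeMod3
import Pool.Agent.Lib_MP_8306f4_co.CaseB.PrimeMod4
import Pool.Agent.Lib_MP_8306f4_co.CaseB.Odd11
import Pool.Agent.Lib_MP_8306f4_co.CaseB.Odd23
import Pool.Agent.Lib_MP_8306f4_co.CaseB.GBasics
import Pool.Agent.Lib_MP_8306f4_co.CaseB.GInv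

/-!
# MP_8306f4_co, case B, piece Inv2Small

Notation. x·y = qop f x y = x f(x⁻¹y) on N; lambda_m: y -> m y is always an automorphism of it
(f commutes with nothing needed). 1·y = f(y). If Equi P f, then y -> p•y is an automorphism.
core(A): a∘b = 2b-a. For every x: y -> x·y is bijective (f bijective), for every y: x -> x·y is
bijective (x⁻¹f(x) bijective). '2 is invertible': all groups N have odd order.

## B9 (Inv2Small.lean): inv2_small, prime2 [B1-B8]: recognise N (comm_of_inv), apply wgood_of_amodel with ρ=z.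
p≥11 prime: p%3=1, or p%4=1, or p%24 in {11,23}.
-/

universe u v w

namespace Pool.Agent.Lib_MP_8306f4_co.CaseB

open Pool.Agent.Lib_MP_8306f4_co

namespace Inv2Small

theorem cyc_equiv {N : Type u} [Group N] {n : ℕ} (hn : Nat.card N = n) (hc : IsCyclic N) :
    ∃ e : N ≃ ZMod n, ∀ x y, e (x * y) = e x + e y := by
  subst hn
  refine ⟨(zmodCyclicMulEquiv hc).symm.toEquiv.trans Multiplicative.toAdd, fun x y => ?_⟩
  change Multiplicative.toAdd ((zmodCyclicMulEquiv hc).symm (x * y)) = _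
  rw [map_mul]
  rfl

theorem add_equiv {p : ℕ} [Fact p.Prime] (V : Type v) (W : Type w) [AddCommGroup V]
    [AddCommGroup W] [Module (ZMod p) V] [Module (ZMod p) W] [Finite V] [Finite W]
    (hcard : Nat.card V = Nat.card W) : Nonempty (V ≃+ W) := by
  have i1 : Module.Finite (ZMod p) V := Module.Finite.of_finite
  have i2 : Module.Finite (ZMod p) W := Module.Finite.of_finite
  have h1 : Nat.card V = Nat.card (ZMod p) ^ Module.finrank (ZMod p) V :=
    Module.natCard_eq_pow_finrank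
  have h2 : Nat.card W = Nat.card (ZMod p) ^ Module.finrank (ZMod p) W :=
    Module.natCard_eq_pow_finrank
  have h4 : Module.finrank (ZMod p) V = Module.finrank (ZMod p) W := by
    apply Nat.pow_right_injective (Nat.Prime.two_le (Fact.out : p.Prime))
    simp only
    rw [Nat.card_zmod] at h1 h2
    rw [← h1, ← h2, hcard]
  exact ⟨(LinearEquiv.ofFinrankEq V W h4).toAddEquiv⟩

theorem elem_equiv {N : Type u} [Group N] [Finite N] (hcomm : ∀ x y : N, x * y = y * x)
    {p : ℕ} [Fact p.Prime] (hp : ∀ x : N, x ^ p = 1) (V : Type w) [AddCommGroup V]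
    [Module (ZMod p) V] [Finite V] (hcard : Nat.card N = Nat.card V) :
    ∃ e : N ≃ V, ∀ x y, e (x * y) = e x + e y := by
  let i1 : CommGroup N := { (inferInstance : Group N) with mul_comm := hcomm }
  let i2 : AddCommGroup (Additive N) := @Additive.addCommGroup N i1
  have h0 : ∀ x : Additive N, p • x = 0 := fun x => hp x.toMul
  let i3 : Module (ZMod p) (Additive N) := AddCommGroup.zmodModule h0
  obtain ⟨e⟩ := @add_equiv p _ (Additive N) V i2 _ i3 _ _ _ hcard
  refine ⟨Additive.ofMul.trans e.toEquiv, fun x y => ?_⟩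
  exact map_add e (Additive.ofMul x) (Additive.ofMul y)

theorem cyclic_of_order {N : Type u} [Group N] [Finite N] {n : ℕ} (hn : Nat.card N = n) (x : N)
    (hx : orderOf x = n) : IsCyclic N := isCyclic_of_orderOf_eq_card x (hx.trans hn.symm)

theorem cyclic_mul {N : Type u} [Group N] [Finite N] (hcomm : ∀ x y : N, x * y = y * x)
    {p q : ℕ} (hp : p.Prime) (hq : q.Prime) (hpq : p ≠ q) (hn : Nat.card N = p * q) :
    IsCyclic N := by
  have := Fact.mk hp
  have := Fact.mk hq
  obtain ⟨a, ha⟩ := exists_prime_orderOf_dvd_card' (G := N) p (hn ▸ dvd_mul_right p q)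
  obtain ⟨b, hb⟩ := exists_prime_orderOf_dvd_card' (G := N) q (hn ▸ dvd_mul_left q p)
  refine cyclic_of_order hn (a * b) ?_
  have hc : Commute a b := hcomm a b
  rw [hc.orderOf_mul_eq_mul_orderOf_of_coprime, ha, hb]
  rw [ha, hb]
  exact (Nat.coprime_primes hp hq).mpr hpq

theorem cyclic_sq {N : Type u} [Group N] [Finite N] {p : ℕ} (hp : p.Prime)
    (hn : Nat.card N = p ^ 2) {x : N} (hx : x ^ p ≠ 1) : IsCyclic N := by
  refine cyclic_of_order hn x ?_
  have h1 : orderOf x ∣ p ^ 2 := hn ▸ orderOf_dvd_natCard x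
  obtain ⟨k, hk, hk'⟩ := (Nat.dvd_prime_pow hp).mp h1
  interval_cases k
  · exfalso
    rw [pow_zero, orderOf_eq_one_iff] at hk'
    rw [hk', one_pow] at hx
    exact hx rfl
  · exfalso
    rw [pow_one] at hk'
    exact hx (hk' ▸ pow_orderOf_eq_one x)
  · exact hk'

section
variable {P : Type v} [Group P] {z : P} {N : Type u} [Group N]
  [MulDistribMulAction P N]

omit [Group N] [MulDistribMulAction P N] in
theorem gen (hz : TwoCyc z) (h2 : Nat.card P = 2) (p : P) : ∃ k : ℕ, p = z ^ k := by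
  obtain ⟨y, hy, hy'⟩ := (Nat.card_eq_two_iff' (1 : P)).mp h2
  by_cases hp : p = 1
  · exact ⟨0, by rw [hp, pow_zero]⟩
  · exact ⟨1, by rw [pow_one, hy' p hp, hy' z hz.ne_one]⟩

theorem fin {V : Type w} [AddCommGroup V] (hz : TwoCyc z) (h2 : Nat.card P = 2)
    (hinv : ∀ x : N, z • x = x⁻¹) {F : V → V} (h : AModel (fun x => -x) F)
    (he : ∃ e : N ≃ V, ∀ x y, e (x * y) = e x + e y) : WGood P N := by
  obtain ⟨e, he⟩ := he
  refine wgood_of_amodel z (gen hz h2) e he (R := fun x => -x) (fun x => ?_) h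
  have h1 : e 1 = 0 := by
    have := he 1 1
    rw [mul_one] at this
    exact left_eq_add.mp this
  have h3 : e (x⁻¹) + e x = 0 := by rw [← he, inv_mul_cancel, h1]
  rw [hinv]
  exact eq_neg_of_add_eq_zero_left h3

end

end Inv2Small

section
variable {P : Type v} [Group P] {z : P} {N : Type u} [Group N] [Finite N]
  [MulDistribMulAction P N]

/-- groups of order `9, 15, 21, 25, 35, 49` or elementary abelian of order 27, inverted by `z` -/
theorem inv2_small (hz : TwoCyc z) (h2 : Nat.card P = 2) (hinv : ∀ x : N, z • x = x⁻¹)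
    (h : (Nat.card N = 9 ∧ ∃ x : N, x ^ 3 ≠ 1) ∨ Nat.card N = 15 ∨ Nat.card N = 21 ∨
      Nat.card N = 25 ∨ Nat.card N = 35 ∨ Nat.card N = 49 ∨
      (Nat.card N = 27 ∧ ∀ x : N, x ^ 3 = 1)) : WGood P N := by
  have hcomm : ∀ x y : N, x * y = y * x := comm_of_inv hinv
  have : Fact (Nat.Prime 3) := ⟨by norm_num⟩
  have : Fact (Nat.Prime 5) := ⟨by norm_num⟩
  have : Fact (Nat.Prime 7) := ⟨by norm_num⟩
  rcases h with ⟨h, x, hx⟩ | h | h | h | h | h | ⟨h, hx⟩
  · obtain ⟨F, hF⟩ := model_9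
    exact Inv2Small.fin hz h2 hinv hF (Inv2Small.cyc_equiv h
      (Inv2Small.cyclic_sq (p := 3) (by norm_num) (by rw [h]; norm_num) hx))
  · obtain ⟨F, hF⟩ := model_15
    exact Inv2Small.fin hz h2 hinv hF (Inv2Small.cyc_equiv h
      (Inv2Small.cyclic_mul hcomm (p := 3) (q := 5) (by norm_num) (by norm_num) (by norm_num) h))
  · obtain ⟨F, hF⟩ := model_21
    exact Inv2Small.fin hz h2 hinv hF (Inv2Small.cyc_equiv h
      (Inv2Small.cyclic_mul hcomm (p := 3) (q := 7) (by norm_num) (by norm_num) (by norm_num) h))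
  · by_cases hc : ∃ x : N, x ^ 5 ≠ 1
    · obtain ⟨x, hx⟩ := hc
      obtain ⟨F, hF⟩ := model_25
      exact Inv2Small.fin hz h2 hinv hF (Inv2Small.cyc_equiv h
        (Inv2Small.cyclic_sq (p := 5) (by norm_num) (by rw [h]; norm_num) hx))
    · push Not at hc
      obtain ⟨F, hF⟩ := model_5_5
      exact Inv2Small.fin hz h2 hinv hF (Inv2Small.elem_equiv hcomm hc (ZMod 5 × ZMod 5) (by
        rw [h, Nat.card_prod, Nat.card_zmod]))
  · obtain ⟨F, hF⟩ := model_35
    exact Inv2Small.fin hz h2 hinv hF (Inv2Small.cyc_equiv h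
      (Inv2Small.cyclic_mul hcomm (p := 5) (q := 7) (by norm_num) (by norm_num) (by norm_num) h))
  · by_cases hc : ∃ x : N, x ^ 7 ≠ 1
    · obtain ⟨x, hx⟩ := hc
      obtain ⟨F, hF⟩ := model_49
      exact Inv2Small.fin hz h2 hinv hF (Inv2Small.cyc_equiv h
        (Inv2Small.cyclic_sq (p := 7) (by norm_num) (by rw [h]; norm_num) hx))
    · push Not at hc
      obtain ⟨F, hF⟩ := model_7_7
      exact Inv2Small.fin hz h2 hinv hF (Inv2Small.elem_equiv hcomm hc (ZMod 7 × ZMod 7) (by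
        rw [h, Nat.card_prod, Nat.card_zmod]))
  · obtain ⟨F, hF⟩ := model_3_3_3
    exact Inv2Small.fin hz h2 hinv hF (Inv2Small.elem_equiv hcomm hx
      (ZMod 3 × ZMod 3 × ZMod 3) (by
        rw [h, Nat.card_prod, Nat.card_prod, Nat.card_zmod]))

theorem prime2 (hz : TwoCyc z) (h2 : Nat.card P = 2) (hinv : ∀ x : N, z • x = x⁻¹)
    (hp : (Nat.card N).Prime) (h11 : 11 ≤ Nat.card N) : WGood P N := by
  have : Fact (Nat.card N).Prime := ⟨hp⟩
  have hc : IsCyclic N := isCyclic_of_prime_card (p := Nat.card N) rfl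
  have he := Inv2Small.cyc_equiv (N := N) rfl hc
  suffices hM : ∃ F : ZMod (Nat.card N) → ZMod (Nat.card N), AModel (fun x => -x) F by
    obtain ⟨F, hF⟩ := hM
    exact Inv2Small.fin hz h2 hinv hF he
  generalize Nat.card N = p at *
  have hodd : p % 2 = 1 := by
    rcases hp.eq_two_or_odd with h | h
    · omega
    · exact h
  have h3 : p % 3 ≠ 0 := fun h => by
    have := (Nat.prime_dvd_prime_iff_eq (by norm_num) hp).mp (Nat.dvd_of_mod_eq_zero h)
    omega
  by_cases h31 : p % 3 = 1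
  · obtain ⟨F, a1, a2, a3, c, v, a4, a5, a6⟩ := prime_mod3 (p := p) (by omega) h31
    exact ⟨F, prime_criterion (by omega) F a1 a2 a3 c a4 v a5 a6⟩
  · by_cases h41 : p % 4 = 1
    · obtain ⟨F, a1, a2, a3, c, v, a4, a5, a6⟩ := prime_mod4 (p := p) (by omega) h41
      exact ⟨F, prime_criterion (by omega) F a1 a2 a3 c a4 v a5 a6⟩
    · have h24 : p % 24 = 11 ∨ p % 24 = 23 := by omega
      rcases h24 with h24 | h24
      · obtain ⟨t, rfl⟩ : ∃ t, p = 24 * t + 11 := ⟨p / 24, by omega⟩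
        obtain ⟨F, a1, a2, a3, v, a5, a6⟩ := odd_24t11 t
        exact ⟨F, prime_criterion (by omega) F a1 a2 a3 (-1) (Or.inr rfl) v a5 (fun x hx => by
          rw [neg_one_mul]
          exact a6 x hx)⟩
      · obtain ⟨t, rfl⟩ : ∃ t, p = 24 * t + 23 := ⟨p / 24, by omega⟩
        obtain ⟨F, a1, a2, a3, v, a5, a6⟩ := odd_24t23 t
        exact ⟨F, prime_criterion (by omega) F a1 a2 a3 (-1) (Or.inr rfl) v a5 (fun x hx => by
          rw [neg_one_mul]
          exact a6 x hx)⟩

end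

end Pool.Agent.Lib_MP_8306f4_co.CaseB
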