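import Pool.Agent.Lib_MP_8306f4_co.CaseB.Cert

/-!
# MP_8306f4_co, case B, piece Models4

Notation. x·y = qop f x y = x f(x⁻¹y) on N; lambda_m: y -> m y is always an automorphism of it
(f commutes with nothing needed). 1·y = f(y). If Equi P f, then y -> p•y is an automorphism.
core(A): a∘b = 2b-a. For every x: y -> x·y is bijective (f bijective), for every y: x -> x·y is
bijective (x⁻¹f(x) bijective). '2 is invertible': all groups N have odd order.

## B7,B8: the models (done by helper57 with a generic certificate checker)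

-/

universe u v w

namespace Pool.Agent.Lib_MP_8306f4_co.CaseB

open Pool.Agent.Lib_MP_8306f4_co
open Cert

namespace M_5_5_c4

/-- code -/
def cd (x : ZMod 5 × ZMod 5) : ℕ := (x.1.val) * 5 + x.2.val

/-- decode -/
def dc (c : ℕ) : ZMod 5 × ZMod 5 := (((c / 5 : ℕ) : ZMod 5), (c : ZMod 5))

/-- table -/
def F (x : ZMod 5 × ZMod 5) : ZMod 5 × ZMod 5 := dc (tb 0x40b0609170c030d1610081102120e15181301070a14050f00 (cd x))

/-- table -/
def G (x : ZMod 5 × ZMod 5) : ZMod 5 × ZMod 5 := dc (tb 0x814100903070b0d0f010a11131704150e05160218120c0600 (cd x))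

/-- table -/
def H (x : ZMod 5 × ZMod 5) : ZMod 5 × ZMod 5 := dc (tb 0xe13031106011709080c16150704120d020b10180a14050f00 (cd x))

/-- table -/
def p (x : ZMod 5 × ZMod 5) : ZMod 5 × ZMod 5 := dc (tb 0x700070007130012070000070007120012071300001300 (cd x))

/-- table -/
def q (x : ZMod 5 × ZMod 5) : ZMod 5 × ZMod 5 := dc (tb 0x8140809120700070f000c11130304131300041412120c0800 (cd x))

/-- table -/
def r (x : ZMod 5 × ZMod 5) : ℕ := tb 0x3030303020101020302030302030302020003030202030300 (cd x)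

/-- table -/
def p1 (x : ZMod 5 × ZMod 5) : ZMod 5 × ZMod 5 := dc (tb 0xf0b00011200000000000001010101010f0b12000f000b0000 (cd x))

/-- table -/
def q1 (x : ZMod 5 × ZMod 5) : ZMod 5 × ZMod 5 := dc (tb 0xb00100417070b0d0f010a0f18000b0a010f04020012010000 (cd x))

/-- table -/
def r1 (x : ZMod 5 × ZMod 5) : ℕ := tb 0x2020303030302030201030203010203020203030203020000 (cd x)

end M_5_5_c4

open M_5_5_c4 in
/-- `F₅²`, scalars of order 4 -/
theorem model_5_5_c4 : ∃ F : (ZMod 5 × ZMod 5) → (ZMod 5 × ZMod 5),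
    AModel (fun x => (2 * x.1, 2 * x.2)) F := by
  refine ⟨F, amodel_of_cert (a := (1, 2)) (b := (0, 1)) (G := G) (H := H) (p := p) (q := q)
    (ρ := r) (p' := p1) (q' := q1) (ρ' := r1) (k := 2) (wd := [true, false]) ?_ ?_ ?_ ?_ ?_ ?_ ?_ 4 ?_ ?_
    ?_ ?_ ?_⟩
  · intro x y
    simp only [Prod.fst_add, Prod.snd_add, Prod.mk_add_mk, Prod.mk.injEq]
    refine ⟨?_, ?_⟩ <;> first | trivial | ring
  · decide +kernel
  · decide +kernel
  · decide +kernel
  · decide +kernel
  · decide +kernel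
  · decide +kernel
  · decide +kernel
  · decide +kernel
  · decide +kernel
  · decide +kernel
  · decide +kernel

namespace M_25_c8

/-- code -/
def cd (x : ZMod 5 × ZMod 5) : ℕ := (x.1.val) * 5 + x.2.val

/-- decode -/
def dc (c : ℕ) : ZMod 5 × ZMod 5 := (((c / 5 : ℕ) : ZMod 5), (c : ZMod 5))

/-- table -/
def F (x : ZMod 5 × ZMod 5) : ZMod 5 × ZMod 5 := dc (tb 0x905170412100d030a060f02110e18010714150c080b131600 (cd x))

/-- table -/
def G (x : ZMod 5 × ZMod 5) : ZMod 5 × ZMod 5 := dc (tb 0xa1601060702140c130e0b120503101804080f1715110d0900 (cd x))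

/-- table -/
def H (x : ZMod 5 × ZMod 5) : ZMod 5 × ZMod 5 := dc (tb 0x10140901120d07020f060a031711180415050e0c080b131600 (cd x))

/-- table -/
def p (x : ZMod 5 × ZMod 5) : ZMod 5 × ZMod 5 := dc (tb 0x714120c0007000000070c00071412070c0000001400070700 (cd x))

/-- table -/
def q (x : ZMod 5 × ZMod 5) : ZMod 5 × ZMod 5 := dc (tb 0x130c0c17070c140c13141412000e130f12000f1713110e1100 (cd x))

/-- table -/
def r (x : ZMod 5 × ZMod 5) : ℕ := tb 0x3020303010202020302020301030303030003030303030300 (cd x)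

/-- table -/
def p1 (x : ZMod 5 × ZMod 5) : ZMod 5 × ZMod 5 := dc (tb 0x1000001160017090900160801011601010016001600090000 (cd x))

/-- table -/
def q1 (x : ZMod 5 × ZMod 5) : ZMod 5 × ZMod 5 := dc (tb 0x171601080e0200160e0e090104111100090808170011010000 (cd x))

/-- table -/
def r1 (x : ZMod 5 × ZMod 5) : ℕ := tb 0x3020103030303020303020303030301020303030203020000 (cd x)

end M_25_c8

open M_25_c8 in
/-- `F₂₅`, `ρ² = 2` -/
theorem model_25_c8 : ∃ F : (ZMod 5 × ZMod 5) → (ZMod 5 × ZMod 5),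
    AModel (fun x => (2 * x.2, x.1)) F := by
  refine ⟨F, amodel_of_cert (a := (1, 2)) (b := (0, 1)) (G := G) (H := H) (p := p) (q := q)
    (ρ := r) (p' := p1) (q' := q1) (ρ' := r1) (k := 1) (wd := [true, false]) ?_ ?_ ?_ ?_ ?_ ?_ ?_ 8 ?_ ?_
    ?_ ?_ ?_⟩
  · intro x y
    simp only [Prod.fst_add, Prod.snd_add, Prod.mk_add_mk, Prod.mk.injEq]
    refine ⟨?_, ?_⟩ <;> first | trivial | ring
  · decide +kernel
  · decide +kernel
  · decide +kernel
  · decide +kernel
  · decide +kernel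
  · decide +kernel
  · decide +kernel
  · decide +kernel
  · decide +kernel
  · decide +kernel
  · decide +kernel

namespace M_9_9_c4

/-- code -/
def cd (x : ZMod 9 × ZMod 9) : ℕ := (x.1.val) * 9 + x.2.val

/-- decode -/
def dc (c : ℕ) : ZMod 9 × ZMod 9 := (((c / 9 : ℕ) : ZMod 9), (c : ZMod 9))

/-- table -/
def F (x : ZMod 9 × ZMod 9) : ZMod 9 × ZMod 9 := dc (tb 0x3102141c092f42284f3d243c15345005122e4411304e4a1f3919060117470e3537220f334b3823254c1343082741213b100c2a4916033f040a26451e2d1d2c32182b483e4607290b1a4d1b203a360d4000 (cd x))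

/-- table -/
def G (x : ZMod 9 × ZMod 9) : ZMod 9 × ZMod 9 := dc (tb 0x42483b07282c3a1d0e330c163e264a23011a0d47452104382b300331432d11503c4b3f14120f1e0a49241729462a2f22053915134d06083710341c444e27403d202e32021f09184c250b3641191b4f3500 (cd x))

/-- table -/
def H (x : ZMod 9 × ZMod 9) : ZMod 9 × ZMod 9 := dc (tb 0x47073c0b181c2a4a451f27192f0e43203f014b3403500c1b4639041d25372e0d49161a324044114d2c23353d282114364e0a06260f05123a174c2b41333b0810303e424f1e02131522482d293124093800 (cd x))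

/-- table -/
def p (x : ZMod 9 × ZMod 9) : ZMod 9 × ZMod 9 := dc (tb 0x29000d003e4d0b0b3e290727004d07000b3e0000074d000d0b0b070b274d4d4d00000000070b1807000b0d00000d180b3e0d3c27000027270b07003c2700000d3c074d0b3c00004d29004d072907270b00 (cd x))

/-- table -/
def q (x : ZMod 9 × ZMod 9) : ZMod 9 × ZMod 9 := dc (tb 0x4d48270718071c3e0b3e183c3e3e3c23184d0d470b0d043e1f3c2929292c50003c4b3f142710070d49073c2946292727294d27184d060b4d0d3e1c180027401d0b3b3c00000018180b0b0b09003f074d00 (cd x))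

/-- table -/
def r (x : ZMod 9 × ZMod 9) : ℕ := tb 0x30403020303040303030303030303040303020402030403040303030304040303040404030403020402030304030303030303030304030302030403030304040304030103000303030103040304030300 (cd x)

/-- table -/
def p1 (x : ZMod 9 × ZMod 9) : ZMod 9 × ZMod 9 := dc (tb 0xa4e0025293629004e3b25004e4c163b290f36003b0a000a251d0a0f0016004e0004000036000a00290a2500472925184e0a3629043b3b253b360a4e00250a0f4c3b250a290a0000003b00362904040a00 (cd x))

/-- table -/
def q1 (x : ZMod 9 × ZMod 9) : ZMod 9 × ZMod 9 := dc (tb 0x16293b1d3b29471d180047163600471825470a47160004044c473b1d4329113b3c473f14180f0f0a4e1d00291d4c0f0a0f4e1d0a1d361d3b294729164e364704360a29251636004c254e363b00290f1800 (cd x))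

/-- table -/
def r1 (x : ZMod 9 × ZMod 9) : ℕ := tb 0x30302030203030303020303030303030303030303010303030302030403040304030404030303010303030203030303030303020303030302030203030303030302030303030003030303030203030300 (cd x)

end M_9_9_c4

open M_9_9_c4 in
/-- `Z₉²`, `ρ² = -1` -/
theorem model_9_9_c4 : ∃ F : (ZMod 9 × ZMod 9) → (ZMod 9 × ZMod 9),
    AModel (fun x => (-x.2, x.1)) F := by
  refine ⟨F, amodel_of_cert (a := (1, 2)) (b := (1, 1)) (G := G) (H := H) (p := p) (q := q)
    (ρ := r) (p' := p1) (q' := q1) (ρ' := r1) (k := 1) (wd := [true, false]) ?_ ?_ ?_ ?_ ?_ ?_ ?_ 4 ?_ ?_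
    ?_ ?_ ?_⟩
  · intro x y
    simp only [Prod.fst_add, Prod.snd_add, Prod.mk_add_mk, Prod.mk.injEq]
    refine ⟨?_, ?_⟩ <;> first | trivial | ring
  · decide +kernel
  · decide +kernel
  · decide +kernel
  · decide +kernel
  · decide +kernel
  · decide +kernel
  · decide +kernel
  · decide +kernel
  · decide +kernel
  · decide +kernel
  · decide +kernel

namespace M_3_3_3_3_c4

/-- code -/
def cd (x : ZMod 3 × ZMod 3 × ZMod 3 × ZMod 3) : ℕ := (((x.1.val) * 3 + x.2.1.val) * 3 + x.2.2.1.val) * 3 + x.2.2.2.val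

/-- decode -/
def dc (c : ℕ) : ZMod 3 × ZMod 3 × ZMod 3 × ZMod 3 := (((c / 27 : ℕ) : ZMod 3), ((c / 9 : ℕ) : ZMod 3), ((c / 3 : ℕ) : ZMod 3), (c : ZMod 3))

/-- table -/
def F (x : ZMod 3 × ZMod 3 × ZMod 3 × ZMod 3) : ZMod 3 × ZMod 3 × ZMod 3 × ZMod 3 := dc (tb 0x3132f15480e2a174a38022e3f393e234e45070c2c46110d4f0949212d1f011c41273a30240f190b0640104b2516321a18054c122926373b36085035443d33280443221d1b203442472b3c4d311e140a00 (cd x))

/-- table -/
def G (x : ZMod 3 × ZMod 3 × ZMod 3 × ZMod 3) : ZMod 3 × ZMod 3 × ZMod 3 × ZMod 3 := dc (tb 0x163840051e2548364c083b3f140f09302744421306192e43471a18150a1222042d4e45343c074a1c112f1b242c410e350b33030d310c212a2049234d024f1d3a262b4b393d290137173e281f1050463200 (cd x))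

/-- table -/
def H (x : ZMod 3 × ZMod 3 × ZMod 3 × ZMod 3) : ZMod 3 × ZMod 3 × ZMod 3 × ZMod 3 := dc (tb 0x234a41282014211d053219131a45183c2a08260f294e16092b1f06300d0c0e460b4b1e043d500a253a2e37390711271215494f3e4d03382210422f474336024033313b1c171b35014c443f342c2d482400 (cd x))

/-- table -/
def p (x : ZMod 3 × ZMod 3 × ZMod 3 × ZMod 3) : ZMod 3 × ZMod 3 × ZMod 3 × ZMod 3 := dc (tb 0x4621000c3200000c0e220e460e0c3200020000480046470000020000472200320e0e48020e3200000c0e0021222200220e0c0e02020000220e47460e002221464747000e0e0e48022121220c3200000000 (cd x))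

/-- table -/
def q (x : ZMod 3 × ZMod 3 × ZMod 3 × ZMod 3) : ZMod 3 × ZMod 3 × ZMod 3 × ZMod 3 := dc (tb 0x470c40212125484746460032020202303244420206160e434746181502212200323a4747110c4a1c22211b0013480e0e1b484a0e0c0c21144722210c0247460248000048223321000e320c0e4750463200 (cd x))

/-- table -/
def r (x : ZMod 3 × ZMod 3 × ZMod 3 × ZMod 3) : ℕ := tb 0x30304030304030302020103030303040304040304040304030304040303020303040303040304040303040304030102040304030303030403030303030303030303000302040303030303030304020300 (cd x)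

/-- table -/
def p1 (x : ZMod 3 × ZMod 3 × ZMod 3 × ZMod 3) : ZMod 3 × ZMod 3 × ZMod 3 × ZMod 3 := dc (tb 0xc0013003e0a4242420026083e420c42421000003e1b0c3a2b263e0000101b1b1b2b0c130c0c262b262b0042262b0c101b1b081b2b003a261b42000a001b130042001013000c1b101b000c4200080a0800 (cd x))

/-- table -/
def q1 (x : ZMod 3 × ZMod 3 × ZMod 3 × ZMod 3) : ZMod 3 × ZMod 3 × ZMod 3 × ZMod 3 := dc (tb 0x5383a0505002b17130813260c08003e2605421313264226260842150a2b133e170a0a05171b100c421b1b3a3a05103a3a2b0a10000c3e2b0a0c233a02003e3a002b4242000842260c3e3e1b103a3e1b00 (cd x))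

/-- table -/
def r1 (x : ZMod 3 × ZMod 3 × ZMod 3 × ZMod 3) : ℕ := tb 0x30403030303030303030303030301030303020303030203030303040303030303030303030203030303020303030303030303030301030303020403040203030203030300030203020303020303030300 (cd x)

end M_3_3_3_3_c4

open M_3_3_3_3_c4 in
/-- `F₉²`, `ρ² = -1` -/
theorem model_3_3_3_3_c4 : ∃ F : (ZMod 3 × ZMod 3 × ZMod 3 × ZMod 3) → (ZMod 3 × ZMod 3 × ZMod 3 × ZMod 3),
    AModel (fun x => (-x.2.1, x.1, -x.2.2.2, x.2.2.1)) F := by
  refine ⟨F, amodel_of_cert (a := (0, 1, 1, 2)) (b := (0, 1, 1, 0)) (G := G) (H := H) (p := p) (q := q)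
    (ρ := r) (p' := p1) (q' := q1) (ρ' := r1) (k := 1) (wd := [true, false]) ?_ ?_ ?_ ?_ ?_ ?_ ?_ 4 ?_ ?_
    ?_ ?_ ?_⟩
  · intro x y
    simp only [Prod.fst_add, Prod.snd_add, Prod.mk_add_mk, Prod.mk.injEq]
    refine ⟨?_, ?_, ?_, ?_⟩ <;> first | trivial | ring
  · decide +kernel
  · decide +kernel
  · decide +kernel
  · decide +kernel
  · decide +kernel
  · decide +kernel
  · decide +kernel
  · decide +kernel
  · decide +kernel
  · decide +kernel
  · decide +kernel

namespace M_3_3_3_3_c8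

/-- code -/
def cd (x : ZMod 3 × ZMod 3 × ZMod 3 × ZMod 3) : ℕ := (((x.1.val) * 3 + x.2.1.val) * 3 + x.2.2.1.val) * 3 + x.2.2.2.val

/-- decode -/
def dc (c : ℕ) : ZMod 3 × ZMod 3 × ZMod 3 × ZMod 3 := (((c / 27 : ℕ) : ZMod 3), ((c / 9 : ℕ) : ZMod 3), ((c / 3 : ℕ) : ZMod 3), (c : ZMod 3))

/-- table -/
def F (x : ZMod 3 × ZMod 3 × ZMod 3 × ZMod 3) : ZMod 3 × ZMod 3 × ZMod 3 × ZMod 3 := dc (tb 0x430173b481a20463e0f05183f1e374e4f19331403492e3611252a3c2d1d07150c29270e24220d450810323d1f41261b0a42064a164b2b38433a315001122f4723281c4d350902404c4439342c21130b00 (cd x))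

/-- table -/
def G (x : ZMod 3 × ZMod 3 × ZMod 3 × ZMod 3) : ZMod 3 × ZMod 3 × ZMod 3 × ZMod 3 := dc (tb 0x1540410d081b1d3b4c11492907181f2309444825354d17061942390c053e26164f123a34041a362f0f2e22372c102b034a2443330e214b3f454e1c313d02133827472d2a3001200b28321e46503c0a1400 (cd x))

/-- table -/
def H (x : ZMod 3 × ZMod 3 × ZMod 3 × ZMod 3) : ZMod 3 × ZMod 3 × ZMod 3 × ZMod 3 := dc (tb 0x8183a2d281c433e3020073632194a170d374f2a0615271e3109110e4625053d1b1a101d503f380c04231f35454e0f3c4b29031247163b42492e242f020a2b48414033222614014d4c4439342c21130b00 (cd x))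

/-- table -/
def p (x : ZMod 3 × ZMod 3 × ZMod 3 × ZMod 3) : ZMod 3 × ZMod 3 × ZMod 3 × ZMod 3 := dc (tb 0x1201023f011c0a02000a1c0a02000a0100020a0200003f1c1312001c3f09130b1300000b0a3f1c000a0b1200130b000a00003f090b0a1c000a3f000a02000a00020a003f000a00000a001c000002000a00 (cd x))

/-- table -/
def q (x : ZMod 3 × ZMod 3 × ZMod 3 × ZMod 3) : ZMod 3 × ZMod 3 × ZMod 3 × ZMod 3 := dc (tb 0x3f3f3f001c3f131c4c2f01371e18390a090b4a4a354d0a120100390a1c3f1c1c3f123a3f3513002f4d2f09370a462b164a24090002010b3f3f021c1c12020b3837322d123000000b49321346504f0a0200 (cd x))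

/-- table -/
def r (x : ZMod 3 × ZMod 3 × ZMod 3 × ZMod 3) : ℕ := tb 0x30303030303030304040304040404030302040404040303030304030303030303030403040303040404030403040404040403030203030303030303030202040404040304010002040403040404010200 (cd x)

/-- table -/
def p1 (x : ZMod 3 × ZMod 3 × ZMod 3 × ZMod 3) : ZMod 3 × ZMod 3 × ZMod 3 × ZMod 3 := dc (tb 0xb000101000025000b010b0200482500000200000b480125130b1401482500020b000201000000140000481401254800011401090b142500000148000101000001254801010001002509134809130b0000 (cd x))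

/-- table -/
def q1 (x : ZMod 3 × ZMod 3 × ZMod 3 × ZMod 3) : ZMod 3 × ZMod 3 × ZMod 3 × ZMod 3 := dc (tb 0x31401606081b0b3b144a384807130023090b48254809074801250203010926251a121413041a36450f2e140b23132503252548000248023f451d003100141338450102312e01090b1448480b2525000000 (cd x))

/-- table -/
def r1 (x : ZMod 3 × ZMod 3 × ZMod 3 × ZMod 3) : ℕ := tb 0x40404040404030402040403040303040303030303030403030303040303040304040303040404040404030204030304030303030303030404040304010203040403030404010302030303030303020000 (cd x)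

end M_3_3_3_3_c8

open M_3_3_3_3_c8 in
/-- `F₉²`, `ρ² = ρ + 1`, order 8 -/
theorem model_3_3_3_3_c8 : ∃ F : (ZMod 3 × ZMod 3 × ZMod 3 × ZMod 3) → (ZMod 3 × ZMod 3 × ZMod 3 × ZMod 3),
    AModel (fun x => (x.2.1, x.1 + x.2.1, x.2.2.2, x.2.2.1 + x.2.2.2)) F := by
  refine ⟨F, amodel_of_cert (a := (0, 1, 0, 1)) (b := (0, 0, 0, 1)) (G := G) (H := H) (p := p) (q := q)
    (ρ := r) (p' := p1) (q' := q1) (ρ' := r1) (k := 1) (wd := [true, false]) ?_ ?_ ?_ ?_ ?_ ?_ ?_ 8 ?_ ?_
    ?_ ?_ ?_⟩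
  · intro x y
    simp only [Prod.fst_add, Prod.snd_add, Prod.mk_add_mk, Prod.mk.injEq]
    refine ⟨?_, ?_, ?_, ?_⟩ <;> first | trivial | ring
  · decide +kernel
  · decide +kernel
  · decide +kernel
  · decide +kernel
  · decide +kernel
  · decide +kernel
  · decide +kernel
  · decide +kernel
  · decide +kernel
  · decide +kernel
  · decide +kernel

namespace M_49_c8

/-- code -/
def cd (x : ZMod 7 × ZMod 7) : ℕ := (x.1.val) * 7 + x.2.val

/-- decode -/
def dc (c : ℕ) : ZMod 7 × ZMod 7 := (((c / 7 : ℕ) : ZMod 7), (c : ZMod 7))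

/-- table -/
def F (x : ZMod 7 × ZMod 7) : ZMod 7 × ZMod 7 := dc (tb 0x2b1c0c0f01070e122d111f131b03141718280a2f22092e10202124161d2519270b26042a06292c150d23021e08301a0500 (cd x))

/-- table -/
def G (x : ZMod 7 × ZMod 7) : ZMod 7 × ZMod 7 := dc (tb 0x31d1a280a300d0b1f110f1316071c17182605142f2402122021150922252927192d2a082e101e1b042b0c010e23062c00 (cd x))

/-- table -/
def H (x : ZMod 7 × ZMod 7) : ZMod 7 × ZMod 7 := dc (tb 0x20192103100c260a240e1b2f0d22272905250b1e071a2d13020f112a2b091d23142e162c2804171f18121c080106301500 (cd x))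

/-- table -/
def p (x : ZMod 7 × ZMod 7) : ZMod 7 × ZMod 7 := dc (tb 0x1627002211271427002711001611220428110022222c11220027110027140011032216160314110004042211270e0000 (cd x))

/-- table -/
def q (x : ZMod 7 × ZMod 7) : ZMod 7 × ZMod 7 := dc (tb 0x32821281128141622112c04160000272c142c141628210e0421002122030e0016280004270027140422030e2711212c00 (cd x))

/-- table -/
def r (x : ZMod 7 × ZMod 7) : ℕ := tb 0x3030303020303030201030303030102030303030303030303030203020303000303020303030303030303030202030300 (cd x)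

/-- table -/
def p1 (x : ZMod 7 × ZMod 7) : ZMod 7 × ZMod 7 := dc (tb 0x18000002021a2e021a200200002b022e0213181a1a27001800202022001a1a001d02020002022e2e2000002e2202001a00 (cd x))

/-- table -/
def q1 (x : ZMod 7 × ZMod 7) : ZMod 7 × ZMod 7 := dc (tb 0x1d1a2b08022013131a1813162e1a13000020002e020213200c021a22201627021d270820161822002b0c2b1d2e000800 (cd x))

/-- table -/
def r1 (x : ZMod 7 × ZMod 7) : ℕ := tb 0x3030203030203030302030303030203010303020303010302030203030203030303030302030303020303030303000300 (cd x)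

end M_49_c8

open M_49_c8 in
/-- `F₄₉`, `ρ² = 3 ρ - 1`, order 8 -/
theorem model_49_c8 : ∃ F : (ZMod 7 × ZMod 7) → (ZMod 7 × ZMod 7),
    AModel (fun x => (-x.2, x.1 + 3 * x.2)) F := by
  refine ⟨F, amodel_of_cert (a := (2, 3)) (b := (0, 2)) (G := G) (H := H) (p := p) (q := q)
    (ρ := r) (p' := p1) (q' := q1) (ρ' := r1) (k := 1) (wd := [true, true]) ?_ ?_ ?_ ?_ ?_ ?_ ?_ 8 ?_ ?_
    ?_ ?_ ?_⟩
  · intro x y
    simp only [Prod.fst_add, Prod.snd_add, Prod.mk_add_mk, Prod.mk.injEq]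
    refine ⟨?_, ?_⟩ <;> first | trivial | ring
  · decide +kernel
  · decide +kernel
  · decide +kernel
  · decide +kernel
  · decide +kernel
  · decide +kernel
  · decide +kernel
  · decide +kernel
  · decide +kernel
  · decide +kernel
  · decide +kernel

namespace M_49_c16

/-- code -/
def cd (x : ZMod 7 × ZMod 7) : ℕ := (x.1.val) * 7 + x.2.val

/-- decode -/
def dc (c : ℕ) : ZMod 7 × ZMod 7 := (((c / 7 : ℕ) : ZMod 7), (c : ZMod 7))

/-- table -/
def F (x : ZMod 7 × ZMod 7) : ZMod 7 × ZMod 7 := dc (tb 0x318282a0e0a1f051e1b1408292f0d0117262c1322250c1221062b160f30241d1a02092e23071020041915272d0b111c00 (cd x))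

/-- table -/
def G (x : ZMod 7 × ZMod 7) : ZMod 7 × ZMod 7 := dc (tb 0x13230d041e162d242e051f1b120c1c18092a2811012710072f201506261d19020a142c221a032b0e250b172908300f2100 (cd x))

/-- table -/
def H (x : ZMod 7 × ZMod 7) : ZMod 7 × ZMod 7 := dc (tb 0x42028080e2e19050d1d2a270f1a012f17260c1322252c12210906162911071b2b021e0a23301018031f1c242d0b141500 (cd x))

/-- table -/
def p (x : ZMod 7 × ZMod 7) : ZMod 7 × ZMod 7 := dc (tb 0x1220701001c222b011c012600002201261c07001613002b01012200160007170013002b170001160100002200010000 (cd x))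

/-- table -/
def q (x : ZMod 7 × ZMod 7) : ZMod 7 × ZMod 7 := dc (tb 0x130707261716172600201613170c1c012b222b1c0107170722160000261c190113142222132b2b26221c17292b30220000 (cd x))

/-- table -/
def r (x : ZMod 7 × ZMod 7) : ℕ := tb 0x3030303030203030304020303040203030303030103030303020103030204030304030303030303030203040304030000 (cd x)

end M_49_c16

open M_49_c16 in
/-- `F₄₉`, `ρ² = ρ + 1`, order 16 -/
theorem model_49_c16 : ∃ F : (ZMod 7 × ZMod 7) → (ZMod 7 × ZMod 7),
    AModel (fun x => (x.2, x.1 + x.2)) F := by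
  refine ⟨F, amodel_of_cert (a := (0, 1)) (b := (0, 1)) (G := G) (H := H) (p := p) (q := q)
    (ρ := r) (p' := p) (q' := q) (ρ' := r) (k := 1) (wd := [true, false]) ?_ ?_ ?_ ?_ ?_ ?_ ?_ 16 ?_ ?_
    ?_ ?_ ?_⟩
  · intro x y
    simp only [Prod.fst_add, Prod.snd_add, Prod.mk_add_mk, Prod.mk.injEq]
    refine ⟨?_, ?_⟩ <;> first | trivial | ring
  · decide +kernel
  · decide +kernel
  · decide +kernel
  · decide +kernel
  · decide +kernel
  · decide +kernel
  · decide +kernel
  · decide +kernel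
  · decide +kernel
  · decide +kernel
  · decide +kernel

namespace M_81_c16

/-- code -/
def cd (x : ZMod 3 × ZMod 3 × ZMod 3 × ZMod 3) : ℕ := (((x.1.val) * 3 + x.2.1.val) * 3 + x.2.2.1.val) * 3 + x.2.2.2.val

/-- decode -/
def dc (c : ℕ) : ZMod 3 × ZMod 3 × ZMod 3 × ZMod 3 := (((c / 27 : ℕ) : ZMod 3), ((c / 9 : ℕ) : ZMod 3), ((c / 3 : ℕ) : ZMod 3), (c : ZMod 3))

/-- table -/
def F (x : ZMod 3 × ZMod 3 × ZMod 3 × ZMod 3) : ZMod 3 × ZMod 3 × ZMod 3 × ZMod 3 := dc (tb 0x1d112945171e014847032b0b414c4e231c0c19502d3312052239462c2e274d0613383a1810303c16374f240231094207280e3f213b32400a4a361a040f3d350d1b08142f252015434b1f443e2a34492600 (cd x))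

/-- table -/
def G (x : ZMod 3 × ZMod 3 × ZMod 3 × ZMod 3) : ZMod 3 × ZMod 3 × ZMod 3 × ZMod 3 := dc (tb 0x3d274232430818024948364d060922441a1e05132a1c2e372f281712033b1b242b0d343c3546044e2033010c2641381d0b074b504010163e2d4c290a0e303a4f2c141f113f4519230f2131391547254a00 (cd x))

/-- table -/
def H (x : ZMod 3 × ZMod 3 × ZMod 3 × ZMod 3) : ZMod 3 × ZMod 3 × ZMod 3 × ZMod 3 := dc (tb 0x4e08411a3b3c022540061713312350291f4b38302d1809052c21463a472810030b3e4f2a220d1e04272e4a012f120c07451c3f394c324814331b4d190f3d352b360e0a2442201543111d44371634492600 (cd x))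

/-- table -/
def p (x : ZMod 3 × ZMod 3 × ZMod 3 × ZMod 3) : ZMod 3 × ZMod 3 × ZMod 3 × ZMod 3 := dc (tb 0x1404450e0f0008000f0f45150e00040e0e0e0e4523140a0023450f230a15040e0f0e08004523000823450e04141423080000000a0e0014141400000e000000001500000e23000e000e140e0e000e450000 (cd x))

/-- table -/
def q (x : ZMod 3 × ZMod 3 × ZMod 3 × ZMod 3) : ZMod 3 × ZMod 3 × ZMod 3 × ZMod 3 := dc (tb 0x23000e2c45080402282323140709452f10030a000f330f3714140e000e452f0c0a0f233c080e0400151528082a1545450b074b2305102708354c29000e303a4f23140030084514231545344515230f4a00 (cd x))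

/-- table -/
def r (x : ZMod 3 × ZMod 3 × ZMod 3 × ZMod 3) : ℕ := tb 0x30303040303030404030302040403040404030303040304030303030303040403030304030303030303040304020303040404030404040304040401010404040302000403030203020304030203030400 (cd x)

/-- table -/
def p1 (x : ZMod 3 × ZMod 3 × ZMod 3 × ZMod 3) : ZMod 3 × ZMod 3 × ZMod 3 × ZMod 3 := dc (tb 0x101224a22390101000002013939000000490001390000264a3949220122000002012400262239003900000100014a0100220026242224262600010002002601000049264a024a01012400000124260000 (cd x))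

/-- table -/
def q1 (x : ZMod 3 × ZMod 3 × ZMod 3 × ZMod 3) : ZMod 3 × ZMod 3 × ZMod 3 × ZMod 3 := dc (tb 0x284326220022004a49484a49244922441a39052b261c2e4a1900224939241b242635223c3939014e4a3301242636263f0b4a4b0c390100020b4c0b0a3930222a2c14013f02223946224b3139452c000000 (cd x))

/-- table -/
def r1 (x : ZMod 3 × ZMod 3 × ZMod 3 × ZMod 3) : ℕ := tb 0x40403030303010203040303030303040403040403040402040303030303040303040304030303040304010302040204040304040303030304040404030403040404030403030304030404030404020000 (cd x)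

end M_81_c16

open M_81_c16 in
/-- `F₈₁`, `ρ⁴ = ρ² + 1`, order 16 -/
theorem model_81_c16 : ∃ F : (ZMod 3 × ZMod 3 × ZMod 3 × ZMod 3) → (ZMod 3 × ZMod 3 × ZMod 3 × ZMod 3),
    AModel (fun x => (x.2.2.2, x.1, x.2.1 + x.2.2.2, x.2.2.1)) F := by
  refine ⟨F, amodel_of_cert (a := (0, 1, 1, 2)) (b := (0, 0, 0, 1)) (G := G) (H := H) (p := p) (q := q)
    (ρ := r) (p' := p1) (q' := q1) (ρ' := r1) (k := 1) (wd := [true, false]) ?_ ?_ ?_ ?_ ?_ ?_ ?_ 16 ?_ ?_
    ?_ ?_ ?_⟩
  · intro x y
    simp only [Prod.fst_add, Prod.snd_add, Prod.mk_add_mk, Prod.mk.injEq]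
    refine ⟨?_, ?_, ?_, ?_⟩ <;> first | trivial | ring
  · decide +kernel
  · decide +kernel
  · decide +kernel
  · decide +kernel
  · decide +kernel
  · decide +kernel
  · decide +kernel
  · decide +kernel
  · decide +kernel
  · decide +kernel
  · decide +kernel

end Pool.Agent.Lib_MP_8306f4_co.CaseB
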