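import Pool.Agent.Lib_MP_8306f4_co.CaseB.Defs
import Pool.Agent.Lib_MP_8306f4_co.CaseB.Transfer
import Pool.Agent.Lib_MP_8306f4_co.CaseB.Models4
import Pool.Agent.Lib_MP_8306f4_co.CaseB.GBasics
import Pool.Agent.Lib_MP_8306f4_co.CaseB.GInv

/-!
# MP_8306f4_co, case B, piece Inv4_81

Notation. x·y = qop f x y = x f(x⁻¹y) on N; lambda_m: y -> m y is always an automorphism of it
(f commutes with nothing needed). 1·y = f(y). If Equi P f, then y -> p•y is an automorphism.
core(A): a∘b = 2b-a. For every x: y -> x·y is bijective (f bijective), for every y: x -> x·y is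
bijective (x⁻¹f(x) bijective). '2 is invertible': all groups N have odd order.

## B10 (Inv4_81.lean): inv4_81. ρ generator, ρ²=z. exponent 9: a of order 9: N=<a,ρa>≅Z9². else exponent 3: N=<a,ρa>×<b,ρb>.
(if m a+nρa=0 then (m²+n²)a=0.)  For Z9² elements of order 27, 81 are impossible by the same computation.
-/

universe u v w

namespace Pool.Agent.Lib_MP_8306f4_co.CaseB

open Pool.Agent.Lib_MP_8306f4_co

namespace Inv4_81

lemma three_dvd {i j : ℤ} (h : (3 : ℤ) ∣ i ^ 2 + j ^ 2) : (3 : ℤ) ∣ i ∧ (3 : ℤ) ∣ j := by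
  have key : ∀ a b : ZMod 3, a ^ 2 + b ^ 2 = 0 → a = 0 ∧ b = 0 := by decide
  have h1 : ((i ^ 2 + j ^ 2 : ℤ) : ZMod 3) = 0 := (ZMod.intCast_zmod_eq_zero_iff_dvd _ 3).mpr h
  push_cast at h1
  obtain ⟨h2, h3⟩ := key _ _ h1
  exact ⟨(ZMod.intCast_zmod_eq_zero_iff_dvd i 3).mp h2, (ZMod.intCast_zmod_eq_zero_iff_dvd j 3).mp h3⟩

/-- The homomorphism `ZMod n → A` with value `a` at `1`. -/
def zl (n : ℕ) {A : Type u} [AddCommGroup A] (a : A) (h : (n : ℤ) • a = 0) : ZMod n →+ A :=
  ZMod.lift n ⟨zmultiplesHom A a, by simpa using h⟩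

lemma zl_cast (n : ℕ) {A : Type u} [AddCommGroup A] (a : A) (h : (n : ℤ) • a = 0) (i : ℤ) :
    zl n a h (i : ZMod n) = i • a := by
  simp [zl]

lemma key {A : Type u} [AddCommGroup A] (T : A →+ A) (hT : ∀ x, T (T x) = -x) (a : A) (i j : ℤ)
    (h : i • a + j • T a = 0) : (i ^ 2 + j ^ 2) • a = 0 := by
  have h2 : i • T a - j • a = 0 := by
    have := congrArg T h
    rw [map_add, map_zsmul, map_zsmul, hT, map_zero] at this
    rw [← this]; module
  have h3 : i • (i • a + j • T a) - j • (i • T a - j • a) = (i ^ 2 + j ^ 2) • a := by module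
  rw [← h3, h, h2]; simp

lemma wgood_of_hom {P : Type v} [Group P] (ρ : P) (hρ : ∀ p : P, ∃ k : ℕ, p = ρ ^ k)
    {N : Type u} [Group N] [Finite N] [MulDistribMulAction P N] {V : Type w} [AddCommGroup V]
    (Φ : V → N) (hΦ : ∀ v w, Φ (v + w) = Φ v * Φ w) (hinj : ∀ v, Φ v = 1 → v = 0)
    (hcard : Nat.card N ≤ Nat.card V) (R F : V → V) (hR : ∀ v, ρ • Φ v = Φ (R v))
    (h : AModel R F) : WGood P N := by
  have h0 : Φ 0 = 1 := by
    have := hΦ 0 0
    rw [add_zero] at this
    exact (mul_eq_left.mp this.symm)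
  have hneg : ∀ v, Φ (-v) = (Φ v)⁻¹ := by
    intro v
    rw [eq_inv_iff_mul_eq_one, ← hΦ]
    simpa using h0
  have hi : Function.Injective Φ := by
    intro v w hvw
    have := hinj (v + -w) (by rw [hΦ, hneg, hvw, mul_inv_cancel])
    rw [← sub_eq_add_neg, sub_eq_zero] at this
    exact this
  have hb : Function.Bijective Φ := hi.bijective_of_nat_card_le hcard
  let e : V ≃ N := Equiv.ofBijective Φ hb
  have he : ∀ v, e v = Φ v := fun v => rfl
  refine wgood_of_amodel ρ hρ e.symm ?_ (R := R) (F := F) ?_ h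
  · intro x y
    apply e.injective
    rw [Equiv.apply_symm_apply, he, hΦ, ← he, ← he, Equiv.apply_symm_apply,
      Equiv.apply_symm_apply]
  · intro x
    apply e.injective
    rw [Equiv.apply_symm_apply, he, ← hR, ← he, Equiv.apply_symm_apply]

end Inv4_81

section
variable {P : Type v} [Group P] {z : P} {N : Type u} [Group N] [Finite N]
  [MulDistribMulAction P N]

theorem inv4_81 (hz : TwoCyc z) (h4 : Nat.card P = 4) (hinv : ∀ x : N, z • x = x⁻¹)
    (h : Nat.card N = 81) : WGood P N := by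
  have hcomm : ∀ x y : N, x * y = y * x := comm_of_inv hinv
  have hfin : Finite P := hz.fin
  obtain ⟨ρ, hρ⟩ := hz.cyclic.exists_generator
  have hρ' : ∀ p : P, ∃ k : ℕ, p = ρ ^ k := by
    intro p
    obtain ⟨k, hk⟩ := (mem_powers_iff_mem_zpowers.mpr (hρ p))
    exact ⟨k, hk.symm⟩
  have hord : orderOf ρ = 4 := by
    rw [← h4]; exact orderOf_eq_card_of_forall_mem_zpowers hρ
  have hρ4 : ρ ^ 4 = 1 := by rw [← hord]; exact pow_orderOf_eq_one ρ
  have hρ2 : ρ ^ 2 ≠ 1 := by
    intro h2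
    have := orderOf_dvd_of_pow_eq_one h2
    rw [hord] at this
    omega
  have hz2 : z = ρ ^ 2 := by
    obtain ⟨k, hk⟩ := hρ' z
    have h5 : ρ ^ (k + k) = 1 := by rw [pow_add, ← hk, hz.sq]
    have h6 := orderOf_dvd_of_pow_eq_one h5
    rw [hord] at h6
    have h7 : ¬ 4 ∣ k := by
      rintro ⟨c, rfl⟩
      apply hz.ne_one
      rw [hk, pow_mul, hρ4, one_pow]
    obtain ⟨c, hc⟩ : ∃ c, k = 2 + 4 * c := ⟨k / 4, by omega⟩
    rw [hk, hc, pow_add, pow_mul, hρ4, one_pow, mul_one]
  let _ : CommGroup N := { (inferInstance : Group N) with mul_comm := hcomm }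
  let T : Additive N →+ Additive N := (MulDistribMulAction.toMonoidHom N ρ).toAdditive
  have hTdef : ∀ x : N, T (Additive.ofMul x) = Additive.ofMul (ρ • x) := fun x => rfl
  have hT : ∀ x, T (T x) = -x := by
    intro x
    have : ρ • ρ • (Additive.toMul x) = (Additive.toMul x)⁻¹ := by
      rw [smul_smul, ← pow_two, ← hz2]; exact hinv _
    exact congrArg Additive.ofMul this
  by_cases hexp : ∀ x : N, x ^ 3 = 1
  · -- exponent 3
    have h3 : ∀ x : Additive N, ((3 : ℕ) : ℤ) • x = 0 := by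
      intro x
      have := hexp (Additive.toMul x)
      have h8 := congrArg Additive.ofMul this
      rw [natCast_zsmul]
      simpa using h8
    have hone : ∀ (x : Additive N) (i : ℤ), i • x = 0 → x ≠ 0 → (3 : ℤ) ∣ i := by
      intro x i hi hx
      by_contra hni
      have hcop : IsCoprime (3 : ℤ) i := (Int.prime_three.coprime_iff_not_dvd).mpr hni
      obtain ⟨u, v, huv⟩ := hcop
      apply hx
      calc x = (1 : ℤ) • x := (one_zsmul x).symm
        _ = (u * 3 + v * i) • x := by rw [huv]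
        _ = u • ((3 : ℤ) • x) + v • (i • x) := by module
        _ = 0 := by rw [show (3 : ℤ) = ((3 : ℕ) : ℤ) by norm_num, h3, hi]; simp
    obtain ⟨a, ha⟩ : ∃ a : Additive N, a ≠ 0 := by
      have : Nontrivial (Additive N) := by
        have : Nontrivial N := by
          rw [← Finite.one_lt_card_iff_nontrivial, h]; norm_num
        infer_instance
      exact exists_ne 0
    -- the span of `a`
    let Φ1 : ZMod 3 × ZMod 3 →+ Additive N :=
      ((Inv4_81.zl 3 a (h3 a)).comp (AddMonoidHom.fst _ _)) +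
        ((Inv4_81.zl 3 (T a) (h3 _)).comp (AddMonoidHom.snd _ _))
    have hb : ∃ b : Additive N, b ∉ Set.range Φ1 := by
      by_contra hcon
      push Not at hcon
      have hs : Function.Surjective Φ1 := fun b => hcon b
      have h9 := Nat.card_le_card_of_surjective Φ1 hs
      have h10 : Nat.card (ZMod 3 × ZMod 3) = 9 := by simp
      have h11 : Nat.card (Additive N) = 81 := h
      omega
    obtain ⟨b, hb⟩ := hb
    obtain ⟨F, hF⟩ := model_3_3_3_3_c4
    let Φ : ZMod 3 × ZMod 3 × ZMod 3 × ZMod 3 →+ Additive N :=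
      ((Inv4_81.zl 3 a (h3 a)).comp (AddMonoidHom.fst _ _)) +
        (((Inv4_81.zl 3 (T a) (h3 _)).comp (AddMonoidHom.fst _ _)) +
          (((Inv4_81.zl 3 b (h3 _)).comp (AddMonoidHom.fst _ _)) +
            ((Inv4_81.zl 3 (T b) (h3 _)).comp (AddMonoidHom.snd _ _))).comp
            (AddMonoidHom.snd _ _)).comp (AddMonoidHom.snd _ _)
    have hΦ1 : ∀ i j : ℤ, Φ1 (i, j) = i • a + j • T a := by
      intro i j
      simp only [Φ1, AddMonoidHom.add_apply, AddMonoidHom.comp_apply, AddMonoidHom.coe_fst,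
        AddMonoidHom.coe_snd, Inv4_81.zl_cast]
    have hΦ : ∀ i j k l : ℤ, Φ (i, j, k, l) = i • a + (j • T a + (k • b + l • T b)) := by
      intro i j k l
      simp only [Φ, AddMonoidHom.add_apply, AddMonoidHom.comp_apply, AddMonoidHom.coe_fst,
        AddMonoidHom.coe_snd, Inv4_81.zl_cast]
    have hlift : ∀ v : ZMod 3 × ZMod 3 × ZMod 3 × ZMod 3, ∃ i j k l : ℤ,
        v = ((i : ZMod 3), (j : ZMod 3), (k : ZMod 3), (l : ZMod 3)) := by
      rintro ⟨v1, v2, v3, v4⟩
      obtain ⟨i, rfl⟩ := ZMod.intCast_surjective v1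
      obtain ⟨j, rfl⟩ := ZMod.intCast_surjective v2
      obtain ⟨k, rfl⟩ := ZMod.intCast_surjective v3
      obtain ⟨l, rfl⟩ := ZMod.intCast_surjective v4
      exact ⟨i, j, k, l, rfl⟩
    refine Inv4_81.wgood_of_hom ρ hρ' (fun v => Additive.toMul (Φ v)) ?_ ?_ ?_ _ F ?_ hF
    · intro v w
      rw [map_add]; rfl
    · intro v hv
      have hv' : Φ v = 0 := hv
      obtain ⟨i, j, k, l, rfl⟩ := hlift v
      rw [hΦ] at hv'
      have hkl : (3 : ℤ) ∣ k ^ 2 + l ^ 2 := by
        by_contra hni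
        have hcop : IsCoprime (3 : ℤ) (k ^ 2 + l ^ 2) :=
          (Int.prime_three.coprime_iff_not_dvd).mpr hni
        obtain ⟨u, v, huv⟩ := hcop
        apply hb
        -- b = v (k²+l²) b
        have e1 : k • T b - l • b = -(i • T a - j • a) := by
          have := congrArg T hv'
          simp only [map_add, map_zsmul, hT, map_zero] at this
          rw [eq_neg_iff_add_eq_zero, ← this]
          module
        have e2 : k • b + l • T b = -(i • a + j • T a) := by
          rw [eq_neg_iff_add_eq_zero, ← hv']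
          module
        have e3 : (k ^ 2 + l ^ 2) • b = k • (k • b + l • T b) - l • (k • T b - l • b) := by
          module
        have e4 : (k ^ 2 + l ^ 2) • b = (-(k * i) - l * j) • a + (-(k * j) + l * i) • T a := by
          rw [e3, e1, e2]; module
        refine ⟨(((v * (-(k * i) - l * j) : ℤ) : ZMod 3), ((v * (-(k * j) + l * i) : ℤ) : ZMod 3)), ?_⟩
        rw [hΦ1]
        have e5 : b = v • ((k ^ 2 + l ^ 2) • b) := by
          calc b = (1 : ℤ) • b := (one_zsmul b).symm
            _ = (u * 3 + v * (k ^ 2 + l ^ 2)) • b := by rw [huv]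
            _ = u • ((3 : ℤ) • b) + v • ((k ^ 2 + l ^ 2) • b) := by module
            _ = v • ((k ^ 2 + l ^ 2) • b) := by
              rw [show (3 : ℤ) = ((3 : ℕ) : ℤ) by norm_num, h3]; simp
        rw [e5, e4]
        module
      obtain ⟨⟨k', hk'⟩, ⟨l', hl'⟩⟩ := Inv4_81.three_dvd hkl
      have hkb : ∀ x : Additive N, k • x = 0 := by
        intro x
        rw [hk', show (3 : ℤ) * k' = k' * ((3 : ℕ) : ℤ) by push_cast; ring, mul_smul, h3, smul_zero]
      have hlb : ∀ x : Additive N, l • x = 0 := by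
        intro x
        rw [hl', show (3 : ℤ) * l' = l' * ((3 : ℕ) : ℤ) by push_cast; ring, mul_smul, h3, smul_zero]
      rw [hkb, hlb, add_zero, add_zero] at hv'
      have h12 := Inv4_81.key T hT a i j hv'
      obtain ⟨h13, h14⟩ := Inv4_81.three_dvd (hone _ _ h12 ha)
      have hz0 : ∀ n : ℤ, (3 : ℤ) ∣ n → ((n : ℤ) : ZMod 3) = 0 := fun n hn =>
        (ZMod.intCast_zmod_eq_zero_iff_dvd n 3).mpr hn
      rw [hz0 i h13, hz0 j h14, hz0 k ⟨k', hk'⟩, hz0 l ⟨l', hl'⟩]
      rfl
    · rw [h]; simp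
    · intro v
      obtain ⟨i, j, k, l, rfl⟩ := hlift v
      have h15 := hΦ (-j) i (-l) k
      push_cast at h15
      apply Additive.ofMul.injective
      rw [← hTdef]
      simp only [ofMul_toMul]
      rw [h15, hΦ]
      simp only [map_add, map_zsmul, hT]
      module
  · -- an element of order 9
    push Not at hexp
    obtain ⟨x, hx⟩ := hexp
    have hox : orderOf x ∣ 3 ^ 4 := by
      have := orderOf_dvd_natCard x
      rw [h] at this
      exact this
    obtain ⟨m, hm4, hm⟩ := (Nat.dvd_prime_pow Nat.prime_three).mp hox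
    have hm2 : 2 ≤ m := by
      by_contra hlt
      apply hx
      have : orderOf x ∣ 3 := by
        rw [hm]
        have : m ≤ 1 := by omega
        calc 3 ^ m ∣ 3 ^ 1 := pow_dvd_pow 3 this
          _ = 3 := by norm_num
      exact orderOf_dvd_iff_pow_eq_one.mp this
    obtain ⟨m', rfl⟩ : ∃ m', m = m' + 2 := ⟨m - 2, by omega⟩
    let a' : N := x ^ (3 ^ m')
    have hoa : orderOf a' = 9 := by
      have : orderOf (x ^ (3 ^ m')) = orderOf x / Nat.gcd (orderOf x) (3 ^ m') := orderOf_pow x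
      change orderOf (x ^ (3 ^ m')) = 9
      rw [this, hm, pow_add, Nat.gcd_comm, Nat.gcd_mul_right_right,
        Nat.mul_div_cancel_left _ (by positivity)]
      norm_num
    let a : Additive N := Additive.ofMul a'
    have hoa' : ∀ i : ℤ, i • a = 0 → (9 : ℤ) ∣ i := by
      intro i hi
      have hi2 : a' ^ i = 1 := congrArg Additive.toMul hi
      have := orderOf_dvd_iff_zpow_eq_one.mpr hi2
      rw [hoa] at this
      exact_mod_cast this
    have h9a : ((9 : ℕ) : ℤ) • a = 0 := by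
      have : a' ^ 9 = 1 := by rw [← hoa]; exact pow_orderOf_eq_one a'
      have h8 := congrArg Additive.ofMul this
      rw [natCast_zsmul]
      exact h8
    have h9Ta : ((9 : ℕ) : ℤ) • T a = 0 := by
      rw [← map_zsmul, h9a, map_zero]
    let Φ : ZMod 9 × ZMod 9 →+ Additive N :=
      ((Inv4_81.zl 9 a h9a).comp (AddMonoidHom.fst _ _)) +
        ((Inv4_81.zl 9 (T a) h9Ta).comp (AddMonoidHom.snd _ _))
    have hΦ : ∀ i j : ℤ, Φ (i, j) = i • a + j • T a := by
      intro i j
      simp only [Φ, AddMonoidHom.add_apply, AddMonoidHom.comp_apply, AddMonoidHom.coe_fst,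
        AddMonoidHom.coe_snd, Inv4_81.zl_cast]
    have hlift : ∀ v : ZMod 9 × ZMod 9, ∃ i j : ℤ, v = ((i : ZMod 9), (j : ZMod 9)) := by
      rintro ⟨v1, v2⟩
      obtain ⟨i, rfl⟩ := ZMod.intCast_surjective v1
      obtain ⟨j, rfl⟩ := ZMod.intCast_surjective v2
      exact ⟨i, j, rfl⟩
    obtain ⟨F, hF⟩ := model_9_9_c4
    refine Inv4_81.wgood_of_hom ρ hρ' (fun v => Additive.toMul (Φ v)) ?_ ?_ ?_ _ F ?_ hF
    · intro v w
      rw [map_add]; rfl
    · intro v hv
      have hv' : Φ v = 0 := hv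
      obtain ⟨i, j, rfl⟩ := hlift v
      rw [hΦ] at hv'
      have h12 := hoa' _ (Inv4_81.key T hT a i j hv')
      obtain ⟨⟨i', hi'⟩, ⟨j', hj'⟩⟩ := Inv4_81.three_dvd (Dvd.dvd.trans (by norm_num) h12)
      have h13 : i' • ((3 : ℤ) • a) + j' • T ((3 : ℤ) • a) = 0 := by
        rw [map_zsmul, ← hv', hi', hj']; module
      have h14 := Inv4_81.key T hT _ i' j' h13
      rw [smul_smul] at h14
      have h15 := hoa' _ h14
      have h16 : (3 : ℤ) ∣ i' ^ 2 + j' ^ 2 := by omega
      obtain ⟨h17, h18⟩ := Inv4_81.three_dvd h16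
      have h19 : (9 : ℤ) ∣ i := by omega
      have h20 : (9 : ℤ) ∣ j := by omega
      have hz0 : ∀ n : ℤ, (9 : ℤ) ∣ n → ((n : ℤ) : ZMod 9) = 0 := fun n hn =>
        (ZMod.intCast_zmod_eq_zero_iff_dvd n 9).mpr hn
      rw [hz0 i h19, hz0 j h20]
      rfl
    · rw [h]; simp
    · intro v
      obtain ⟨i, j, rfl⟩ := hlift v
      have h15 := hΦ (-j) i
      push_cast at h15
      apply Additive.ofMul.injective
      rw [← hTdef]
      simp only [ofMul_toMul]
      rw [h15, hΦ]
      simp only [map_add, map_zsmul, hT]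
      module

end

end Pool.Agent.Lib_MP_8306f4_co.CaseB
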