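import Pool.Agent.Lib_MP_8306f4_co.CaseB.Defs
import Pool.Agent.Lib_MP_8306f4_co.CaseB.HomSolv

/-!
# MP_8306f4_co, case B, piece InvFacts

Notation. x·y = qop f x y = x f(x⁻¹y) on N; lambda_m: y -> m y is always an automorphism of it
(f commutes with nothing needed). 1·y = f(y). If Equi P f, then y -> p•y is an automorphism.
core(A): a∘b = 2b-a. For every x: y -> x·y is bijective (f bijective), for every y: x -> x·y is
bijective (x⁻¹f(x) bijective). '2 is invertible': all groups N have odd order.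

## F6 (InvFacts.lean): inv_orth, inv_homFree, inv_cen, inv_con
x·y=x²y⁻¹. h'=h-h(1): h'(y⁻¹)=2h'(y), h'(x²)=-h'(x) => 3h'=0 => (r=3) h'(x²y⁻¹)=h'(x²)+h'(y⁻¹): additive,
exponent s≠3: 0. inv_cen: the same multiplicatively. inv_con: image S of h (normalise h(1)=1 by translation)
is closed under x²y⁻¹, so a subgroup (squaring bijective on S), fibres have equal size (as in isHom_coprime), so
|S| divides 3^k and is a power of s (order of a subgroup of T), |S|=1.

-/

universe u v w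

namespace Pool.Agent.Lib_MP_8306f4_co.CaseB

open Pool.Agent.Lib_MP_8306f4_co

section
variable {T : Type u} [Group T] [Finite T]

namespace InvFacts

omit [Finite T] in
theorem qop_inv (hc : ∀ x y : T, x * y = y * x) (x y : T) :
    qop (fun x : T => x⁻¹) x y = x * x * y⁻¹ := by
  have h1 : qop (fun x : T => x⁻¹) x y = x * (x⁻¹ * y)⁻¹ := rfl
  rw [h1, mul_inv_rev, inv_inv, hc y⁻¹ x, mul_assoc]

omit [Finite T] in
theorem sq_inj {s : ℕ} (hs : s.Prime) (hs5 : 5 ≤ s)
    (hexp : ∀ x : T, x ^ s = 1) : Function.Injective (fun x : T => x * x) := by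
  intro x y hxy
  have hxy' : x * x = y * y := hxy
  have hodd : s % 2 = 1 := by
    rcases hs.eq_two_or_odd with h | h
    · omega
    · exact h
  obtain ⟨k, hk⟩ : ∃ k, s = 2 * k + 1 := ⟨s / 2, by omega⟩
  have e : ∀ z : T, z = ((z * z) ^ k)⁻¹ := by
    intro z
    have h2 := hexp z
    rw [hk, pow_succ, pow_mul, pow_two] at h2
    exact (eq_inv_of_mul_eq_one_right h2)
  rw [e x, e y, hxy']

theorem sq_surj {s : ℕ} (hs : s.Prime) (hs5 : 5 ≤ s)
    (hexp : ∀ x : T, x ^ s = 1) (a : T) : ∃ x : T, x * x = a :=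
  (Finite.injective_iff_surjective.1 (sq_inj hs hs5 hexp)) a

theorem core_const {s : ℕ} (hs : s.Prime) (hs5 : 5 ≤ s) (hc : ∀ x y : T, x * y = y * x)
    (hexp : ∀ x : T, x ^ s = 1) {A : Type w} [AddCommGroup A] (h : T → A)
    (hh : ∀ x y, h (qop (fun x : T => x⁻¹) x y) = 2 • h y - h x) (x : T) : h x = h 1 := by
  let g : T → A := fun x => h x - h 1
  have g1 : g 1 = 0 := sub_self _
  have hg : ∀ x y, g (x * x * y⁻¹) = 2 • g y - g x := by
    intro x y
    have := hh x y
    rw [qop_inv hc] at this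
    change h (x * x * y⁻¹) - h 1 = 2 • (h y - h 1) - (h x - h 1)
    rw [this]
    abel
  have a1 : ∀ y, g y⁻¹ = 2 • g y := by
    intro y
    have := hg 1 y
    rwa [mul_one, one_mul, g1, sub_zero] at this
  have a2 : ∀ x, g (x * x) = - g x := by
    intro x
    have := hg x 1
    rwa [inv_one, mul_one, g1, smul_zero, zero_sub] at this
  have a3 : ∀ y, 3 • g y = 0 := by
    intro y
    have h1 := a1 y⁻¹
    rw [inv_inv, a1 y] at h1
    have h2 : 3 • g y = 2 • (2 • g y) - g y := by abel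
    rw [h2, ← h1, sub_self]
  have add : ∀ a b, g (a * b) = g a + g b := by
    intro a b
    obtain ⟨x, rfl⟩ := sq_surj hs hs5 hexp a
    have h1 := hg x b⁻¹
    rw [inv_inv] at h1
    rw [h1, a2 x, ← a1 b⁻¹, inv_inv]
    abel
  have hpow : ∀ (y : T) (n : ℕ), g (y ^ n) = n • g y := by
    intro y n
    induction n with
    | zero => rw [pow_zero, zero_smul, g1]
    | succ n ih => rw [pow_succ, add, ih, succ_nsmul]
  have hs0 : s • g x = 0 := by rw [← hpow, hexp, g1]
  have hcop : Nat.Coprime 3 s := by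
    rw [Nat.Prime.coprime_iff_not_dvd Nat.prime_three]
    intro hd
    have := (Nat.prime_dvd_prime_iff_eq Nat.prime_three hs).1 hd
    omega
  have hord : addOrderOf (g x) = 1 := by
    have d1 : addOrderOf (g x) ∣ 3 := addOrderOf_dvd_of_nsmul_eq_zero (a3 x)
    have d2 : addOrderOf (g x) ∣ s := addOrderOf_dvd_of_nsmul_eq_zero hs0
    exact Nat.dvd_one.1 (hcop ▸ Nat.dvd_gcd d1 d2)
  have hz : g x = 0 := AddMonoid.addOrderOf_eq_one_iff.1 hord
  exact sub_eq_zero.1 hz

end InvFacts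

open InvFacts

theorem inv_orth {s : ℕ} (hs : s.Prime) (hs5 : 5 ≤ s) (hc : ∀ x y : T, x * y = y * x)
    (hexp : ∀ x : T, x ^ s = 1) : IsOrth (fun x : T => x⁻¹) := by
  refine ⟨inv_involutive.bijective, ?_⟩
  have hinj : Function.Injective (fun x : T => x⁻¹ * x⁻¹) := by
    intro x y hxy
    have := sq_inj hs hs5 hexp hxy
    exact inv_injective this
  exact ⟨hinj, Finite.injective_iff_surjective.1 hinj⟩

theorem inv_homFree {s : ℕ} (hs : s.Prime) (hs5 : 5 ≤ s) (hc : ∀ x y : T, x * y = y * x)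
    (hexp : ∀ x : T, x ^ s = 1) : HomFree (fun x : T => x⁻¹) := by
  intro r _ h hh x
  exact core_const hs hs5 hc hexp h hh x

theorem inv_cen {s : ℕ} (hs : s.Prime) (hs5 : 5 ≤ s) (hc : ∀ x y : T, x * y = y * x)
    (hexp : ∀ x : T, x ^ s = 1) {L : Type u} [Group L] [Finite L] (hL : ∃ k, Nat.card L = 3 ^ k)
    (δ : T → L) (hδ : ∀ t, δ t ∈ Subgroup.center L)
    (h : ∀ x y, δ (qop (fun x : T => x⁻¹) x y) = (δ x)⁻¹ * δ y ^ 2) (x : T) : δ x = δ 1 := by
  let : CommGroup (Subgroup.center L) :=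
    { (inferInstance : Group (Subgroup.center L)) with
      mul_comm := fun a b => Subtype.ext ((Subgroup.mem_center_iff.1 b.2) a.1) }
  let g : T → Additive (Subgroup.center L) := fun t => Additive.ofMul ⟨δ t, hδ t⟩
  have hg : ∀ x y, g (qop (fun x : T => x⁻¹) x y) = 2 • g y - g x := by
    intro x y
    apply Additive.toMul.injective
    apply Subtype.ext
    have e : ((Additive.toMul (2 • g y - g x) : Subgroup.center L) : L) = δ y ^ 2 * (δ x)⁻¹ := by
      simp [g, toMul_sub, toMul_nsmul, div_eq_mul_inv]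
    rw [e]
    change δ (qop (fun x : T => x⁻¹) x y) = _
    rw [h]
    exact ((Subgroup.mem_center_iff.1 (inv_mem (hδ x))) _).symm
  have := core_const hs hs5 hc hexp g hg x
  exact congrArg (fun a : Additive (Subgroup.center L) => ((Additive.toMul a : Subgroup.center L) : L))
    this

theorem inv_con {s : ℕ} (hs : s.Prime) (hs5 : 5 ≤ s) (hc : ∀ x y : T, x * y = y * x)
    (hexp : ∀ x : T, x ^ s = 1) {L : Type u} [Group L] [Finite L] (hL : ∃ k, Nat.card L = 3 ^ k)
    (φ : L → L) (hφ : IsOrth φ) (h : L → T)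
    (hh : ∀ x y, h (qop φ x y) = qop (fun x : T => x⁻¹) (h x) (h y)) (x : L) : h x = h 1 := by
  classical
  obtain ⟨k, hk⟩ := hL
  let g : L → T := fun y => h y * (h 1)⁻¹
  have g1 : g 1 = 1 := mul_inv_cancel _
  have hg : ∀ x y, g (qop φ x y) = g x * g x * (g y)⁻¹ := by
    intro x y
    change h (qop φ x y) * (h 1)⁻¹ = (h x * (h 1)⁻¹) * (h x * (h 1)⁻¹) * (h y * (h 1)⁻¹)⁻¹
    rw [hh, qop_inv hc, mul_inv_rev, inv_inv, hc (h x) (h 1)⁻¹, hc (h 1) (h y)⁻¹]
    have e1 : (h 1)⁻¹ * h x * ((h 1)⁻¹ * h x) * ((h y)⁻¹ * h 1) =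
        (h 1)⁻¹ * (h x * (h 1)⁻¹) * h x * (h y)⁻¹ * h 1 := by group
    rw [e1, hc (h x) (h 1)⁻¹, hc _ (h 1)]
    have e2 : h 1 * ((h 1)⁻¹ * ((h 1)⁻¹ * h x) * h x * (h y)⁻¹) =
      (h 1)⁻¹ * (h x * h x * (h y)⁻¹) := by group
    rw [e2, hc (h 1)⁻¹ _]
  -- the image
  have cl_inv : ∀ a ∈ Set.range g, a⁻¹ ∈ Set.range g := by
    rintro _ ⟨y, rfl⟩
    exact ⟨qop φ 1 y, by rw [hg, g1, mul_one, one_mul]⟩
  have cl_sq : ∀ a ∈ Set.range g, a * a ∈ Set.range g := by
    rintro _ ⟨y, rfl⟩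
    exact ⟨qop φ y 1, by rw [hg, g1, inv_one, mul_one]⟩
  have sq_on : ∀ a ∈ Set.range g, ∃ b ∈ Set.range g, b * b = a := by
    let q : Set.range g → Set.range g := fun a => ⟨a.1 * a.1, cl_sq a.1 a.2⟩
    have hq : Function.Injective q := by
      intro a b hab
      apply Subtype.ext
      exact sq_inj hs hs5 hexp (congrArg Subtype.val hab)
    have hq' := Finite.injective_iff_surjective.1 hq
    intro a ha
    obtain ⟨b, hb⟩ := hq' ⟨a, ha⟩
    exact ⟨b.1, b.2, congrArg Subtype.val hb⟩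
  have cl_mul : ∀ a ∈ Set.range g, ∀ b ∈ Set.range g, a * b ∈ Set.range g := by
    intro a ha b hb
    obtain ⟨c, ⟨u, rfl⟩, rfl⟩ := sq_on a ha
    obtain ⟨v, hv⟩ := cl_inv b hb
    refine ⟨qop φ u v, ?_⟩
    rw [hg, hv, inv_inv]
  let S : Subgroup T :=
    { carrier := Set.range g
      one_mem' := ⟨1, g1⟩
      mul_mem' := fun {a b} ha hb => cl_mul a ha b hb
      inv_mem' := fun {a} ha => cl_inv a ha }
  let G : L → S := fun y => ⟨g y, y, rfl⟩
  have hle : ∀ b c : S, Nat.card {y // G y = b} ≤ Nat.card {y // G y = c} := by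
    intro b c
    obtain ⟨a, ⟨u, hu⟩, ha⟩ := sq_on (c.1 * b.1) (cl_mul _ c.2 _ b.2)
    let m : {y // G y = b} → {y // G y = c} := fun y => ⟨qop φ u y.1, by
      apply Subtype.ext
      change g (qop φ u y.1) = c.1
      have hy : g y.1 = b.1 := congrArg Subtype.val y.2
      rw [hg, hu, ha, hy, mul_assoc, mul_inv_cancel, mul_one]⟩
    apply Nat.card_le_card_of_injective m
    intro y z hyz
    have h1 : qop φ u y.1 = qop φ u z.1 := congrArg Subtype.val hyz
    apply Subtype.ext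
    exact ((qop_isQuasigroup hφ).1 u).1 h1
  have hcard : Nat.card L = Nat.card S * Nat.card {y // G y = 1} := by
    have : Fintype S := Fintype.ofFinite _
    rw [Nat.card_congr (Equiv.sigmaFiberEquiv G).symm, Nat.card_sigma]
    have : ∀ b : S, Nat.card {y // G y = b} = Nat.card {y // G y = 1} := fun b =>
      le_antisymm (hle b 1) (hle 1 b)
    rw [Finset.sum_congr rfl (fun b _ => this b), Finset.sum_const, smul_eq_mul,
      Finset.card_univ, ← Nat.card_eq_fintype_card]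
  have : Fact s.Prime := ⟨hs⟩
  have hpS : IsPGroup s S := by
    intro a
    refine ⟨1, ?_⟩
    apply Subtype.ext
    rw [pow_one]
    exact hexp a.1
  obtain ⟨m, hm⟩ := IsPGroup.iff_card.1 hpS
  have hm0 : m = 0 := by
    by_contra hne
    have d1 : s ∣ Nat.card L := by
      rw [hcard, hm]
      exact (dvd_pow_self s hne).mul_right _
    rw [hk] at d1
    have d2 := hs.dvd_of_dvd_pow d1
    have := (Nat.prime_dvd_prime_iff_eq hs Nat.prime_three).1 d2
    omega
  rw [hm0, pow_zero] at hm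
  have hsub : Subsingleton S := (Nat.card_eq_one_iff_unique.1 hm).1
  have h2 : (G x : T) = (1 : S) := congrArg Subtype.val (Subsingleton.elim (G x) 1)
  have h3 : h x * (h 1)⁻¹ = 1 := h2
  exact mul_inv_eq_one.1 h3

end

end Pool.Agent.Lib_MP_8306f4_co.CaseB
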