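import Pool.Agent.Lib_MP_8306f4_co.CaseB.Defs
import Pool.Agent.Lib_MP_8306f4_co.CaseB.GBasics
import Pool.Agent.Lib_MP_8306f4_co.CaseB.GInv
import Pool.Agent.Lib_MP_8306f4_co.CaseB.GFit
import Pool.Agent.Lib_MP_8306f4_co.CaseB.GThree

/-!
# MP_8306f4_co, case B, piece NB1

Notation. x·y = qop f x y = x f(x⁻¹y) on N; lambda_m: y -> m y is always an automorphism of it
(f commutes with nothing needed). 1·y = f(y). If Equi P f, then y -> p•y is an automorphism.
core(A): a∘b = 2b-a. For every x: y -> x·y is bijective (f bijective), for every y: x -> x·y is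
bijective (x⁻¹f(x) bijective). '2 is invertible': all groups N have odd order.

## N4 (NB1.lean): b1_contra: N=ker·fixS; Z(fixS) is central in N. red27: K=ker of prime order r (|P|=2), inverted. J=preimage of
J(M)={m : z•m=m⁻¹} (order 3, normal in M); J={x∈N : z•x=x⁻¹} has order 3r, normal, abelian, C=fixS complement; D=C_C(J) is
normal in N so trivial (normal_inf_center, hcen); C acts trivially on K and J/K, embeds into Hom(J/K,K): r=3, |C|=3, |J|=9.
-/

universe u v w

namespace Pool.Agent.Lib_MP_8306f4_co.CaseB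

open Pool.Agent.Lib_MP_8306f4_co

section
variable {P : Type v} [Group P] {z : P} {N M : Type u} [Group N] [Finite N] [Group M]
  [MulDistribMulAction P N] [MulDistribMulAction P M]

/-- If `z` inverts the center of the nilpotent group `N` and acts trivially modulo a central
subgroup then it has no fixed points. -/
theorem b1_contra [Group.IsNilpotent N] (hz : TwoCyc z) (hN : Odd (Nat.card N)) (π : N →* M)
    (hs : Function.Surjective π) (he : ∀ (p : P) x, π (p • x) = p • π x)
    (hc : π.ker ≤ Subgroup.center N) (hcen : ∀ x ∈ Subgroup.center N, z • x = x → x = 1)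
    (htr : ∀ m : M, z • m = m) (x : N) (hx : z • x = x) : x = 1 := by
  by_contra hx1
  have hnt : Nontrivial (fixS z : Subgroup N) :=
    ⟨⟨x, hx⟩, 1, fun h => hx1 (congrArg Subtype.val h)⟩
  have h1 : Subgroup.center (fixS z : Subgroup N) ≠ ⊥ := Group.IsNilpotent.center_ne_bot _
  obtain ⟨⟨c, hcc⟩, hc1⟩ := Subgroup.ne_bot_iff_exists_ne_one.1 h1
  apply hc1
  have h2 : (c : N) = 1 := by
    apply hcen _ _ c.2
    rw [Subgroup.mem_center_iff]
    intro g
    obtain ⟨y, hy, hyz⟩ := fix_lift hz.sq hN π hs (fun x => he z x) (htr (π g))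
    have hk : y⁻¹ * g ∈ Subgroup.center N := by
      apply hc
      rw [MonoidHom.mem_ker, map_mul, map_inv, hy, inv_mul_cancel]
    have h3 : y * (c : N) = (c : N) * y := by
      have := Subgroup.mem_center_iff.1 hcc ⟨y, hyz⟩
      exact congrArg Subtype.val this
    have h4 := Subgroup.mem_center_iff.1 hk (c : N)
    calc g * (c : N) = y * ((y⁻¹ * g) * c) := by group
      _ = y * (c * (y⁻¹ * g)) := by rw [h4]
      _ = (y * c) * (y⁻¹ * g) := by group
      _ = (c * y) * (y⁻¹ * g) := by rw [h3]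
      _ = c * g := by group
  apply Subtype.ext
  apply Subtype.ext
  exact h2

/-- the reduction to order 27 -/
theorem red27 [Group.IsNilpotent N] (hz : TwoCyc z) (h2 : Nat.card P = 2)
    (hN : Odd (Nat.card N)) (π : N →* M)
    (hs : Function.Surjective π) (he : ∀ (p : P) x, π (p • x) = p • π x)
    (hc : π.ker ≤ Subgroup.center N) (hmin : PMin P π.ker)
    (hcen : ∀ x ∈ Subgroup.center N, z • x = x → x = 1)
    (h3 : Nat.card M = 3 * Nat.card (fixS z : Subgroup M)) (x : N) (hx : z • x = x)
    (hx1 : x ≠ 1) : Nat.card N = 27 ∧ Nat.card (fixS z : Subgroup N) = 3 := by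
  have hMf : Finite M := Finite.of_surjective π hs
  have hzz : ∀ y : N, z • z • y = y := fun y => by rw [smul_smul, hz.sq, one_smul]
  have hPz : ∀ p : P, p = 1 ∨ p = z := by
    intro p
    by_cases hp : p = 1
    · exact Or.inl hp
    right
    obtain ⟨y, _, hy⟩ := (Nat.card_eq_two_iff' (1 : P)).1 h2
    rw [hy p hp, hy z hz.ne_one]
  have hKc : ∀ k ∈ π.ker, ∀ g : N, g * k = k * g := fun k hk g =>
    Subgroup.mem_center_iff.1 (hc hk) g
  have hKfix : ∀ k ∈ π.ker, z • k = k → k = 1 := fun k hk h => hcen k (hc hk) h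
  have hKz : ∀ k ∈ π.ker, z • k ∈ π.ker := fun k hk => hmin.2.1 z k hk
  have hKinv : ∀ k ∈ π.ker, z • k = k⁻¹ := by
    intro k hk
    have h4 : k * z • k = 1 := by
      apply hKfix _ (mul_mem hk (hKz k hk))
      rw [smul_mul', hzz]
      exact hKc k hk (z • k)
    exact eq_inv_of_mul_eq_one_right h4
  have hcardNM : Nat.card π.ker * Nat.card M = Nat.card N := by
    have h6 := Subgroup.card_mul_index π.ker
    rw [Subgroup.index_ker, MonoidHom.range_eq_top.mpr hs,
      Nat.card_congr Subgroup.topEquiv.toEquiv] at h6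
    exact h6
  have hoddM : Odd (Nat.card M) := by
    rw [← hcardNM] at hN
    exact (Nat.odd_mul.1 hN).2
  -- the kernel has prime order
  have hKprime : (Nat.card π.ker).Prime := by
    have h4 : Nat.card π.ker ≠ 1 := fun h => hmin.1 (Subgroup.eq_bot_of_card_eq _ h)
    obtain ⟨r, hr, hrd⟩ := Nat.exists_prime_and_dvd h4
    have hrf : Fact r.Prime := ⟨hr⟩
    obtain ⟨y, hy⟩ := exists_prime_orderOf_dvd_card' (G := π.ker) r hrd
    have hy1 : (y : N) ≠ 1 := by
      intro h
      have h5 : y = 1 := Subtype.ext h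
      rw [h5, orderOf_one] at hy
      exact hr.one_lt.ne hy
    have h5 : Subgroup.zpowers (y : N) = π.ker := by
      have hle : Subgroup.zpowers (y : N) ≤ π.ker := by
        rw [Subgroup.zpowers_le]
        exact y.2
      rcases hmin.2.2 (Subgroup.zpowers (y : N)) (by
        intro p w hw
        rcases hPz p with rfl | rfl
        · rwa [one_smul]
        · rw [hKinv w (hle hw)]
          exact inv_mem hw) hle with h | h
      · exact absurd (Subgroup.zpowers_eq_bot.1 h) hy1
      · exact h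
    rw [← h5, Nat.card_zpowers, Subgroup.orderOf_coe, hy]
    exact hr
  -- the element j
  obtain ⟨e, hez⟩ := struct_three hz.sq hoddM h3
  obtain ⟨j, hj3, hjz, hjc, hjm⟩ : ∃ j : M, j ^ 3 = 1 ∧ z • j = j⁻¹ ∧ (∀ m, m * j = j * m) ∧
      ∀ m : M, ∃ (i : ℕ) (c : M), z • c = c ∧ m = j ^ i * c := by
    refine ⟨e.symm (Multiplicative.ofAdd 1, 1), ?_, ?_, ?_, ?_⟩
    · apply e.injective
      rw [map_pow, e.apply_symm_apply, map_one e]
      apply Prod.ext
      · change Multiplicative.ofAdd (1 : ZMod 3) ^ 3 = 1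
        decide
      · exact one_pow 3
    · apply e.injective
      rw [hez, map_inv, e.apply_symm_apply]
      apply Prod.ext
      · rfl
      · exact inv_one.symm
    · intro m
      apply e.injective
      rw [map_mul, map_mul, e.apply_symm_apply]
      apply Prod.ext
      · exact mul_comm _ _
      · change (e m).2 * 1 = 1 * (e m).2
        rw [mul_one, one_mul]
    · intro m
      refine ⟨(Multiplicative.toAdd (e m).1).val, e.symm (1, (e m).2), ?_, ?_⟩
      · apply e.injective
        rw [hez, e.apply_symm_apply]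
        apply Prod.ext
        · exact inv_one
        · rfl
      · apply e.injective
        rw [map_mul, map_pow, e.apply_symm_apply, e.apply_symm_apply]
        apply Prod.ext
        · change (e m).1 = Multiplicative.ofAdd (1 : ZMod 3) ^ (Multiplicative.toAdd (e m).1).val * 1
          rw [mul_one, ← ofAdd_nsmul, nsmul_eq_mul, mul_one, ZMod.natCast_zmod_val]
          rfl
        · change (e m).2 = 1 ^ _ * (e m).2
          rw [one_pow, one_mul]
  obtain ⟨x₀, hx₀⟩ := hs j
  -- D = 1
  have hconj : ∀ g : N, g * x₀ * g⁻¹ * x₀⁻¹ ∈ π.ker := by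
    intro g
    rw [MonoidHom.mem_ker]
    simp only [map_mul, map_inv]
    rw [hx₀, hjc (π g)]
    group
  have hD : ∀ d : N, z • d = d → x₀ * d = d * x₀ → d = 1 := by
    let D : Subgroup N := fixS z ⊓ Subgroup.centralizer {x₀}
    have hDm : ∀ d, d ∈ D ↔ z • d = d ∧ x₀ * d = d * x₀ := by
      intro d
      rw [Subgroup.mem_inf, mem_fixS, Subgroup.mem_centralizer_singleton_iff]
      constructor
      · rintro ⟨h4, h5⟩
        exact ⟨h4, by rw [h5]⟩
      · rintro ⟨h4, h5⟩
        exact ⟨h4, by rw [h5]⟩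
    have hDn : D.Normal := by
      refine ⟨fun d hd g => ?_⟩
      obtain ⟨hd1, hd2⟩ := (hDm d).1 hd
      obtain ⟨i, c, hcz, hgc⟩ := hjm (π g)
      obtain ⟨c', hc', hcz'⟩ := fix_lift hz.sq hN π hs (fun x => he z x) hcz
      have hk : (x₀ ^ i * c')⁻¹ * g ∈ π.ker := by
        rw [MonoidHom.mem_ker, map_mul, map_inv, map_mul, map_pow, hx₀, hc', hgc]
        exact inv_mul_cancel _
      set k := (x₀ ^ i * c')⁻¹ * g with hkdef
      have hg : g = x₀ ^ i * c' * k := by
        rw [hkdef]
        group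
      have hcd : c' * d * c'⁻¹ ∈ D := by
        rw [hDm]
        refine ⟨by rw [smul_mul', smul_mul', smul_inv', hcz', hd1], ?_⟩
        -- c'⁻¹ x₀ c' = κ x₀
        have h4 := hconj c'⁻¹
        set κ := c'⁻¹ * x₀ * (c'⁻¹)⁻¹ * x₀⁻¹ with hκ
        have h5 : x₀ * c' = c' * (κ * x₀) := by
          rw [hκ]
          group
        have h6 := hKc κ h4
        have h7 : d * (κ * x₀) = (κ * x₀) * d := by
          calc d * (κ * x₀) = (d * κ) * x₀ := by group
            _ = κ * (d * x₀) := by rw [h6 d]; group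
            _ = κ * (x₀ * d) := by rw [hd2]
            _ = (κ * x₀) * d := by group
        calc x₀ * (c' * d * c'⁻¹) = (x₀ * c') * d * c'⁻¹ := by group
          _ = c' * ((κ * x₀) * d) * c'⁻¹ := by rw [h5]; group
          _ = c' * (d * (κ * x₀)) * c'⁻¹ := by rw [h7]
          _ = c' * d * c'⁻¹ * (c' * (κ * x₀)) * c'⁻¹ := by group
          _ = c' * d * c'⁻¹ * (x₀ * c') * c'⁻¹ := by rw [h5]
          _ = c' * d * c'⁻¹ * x₀ := by group
      have h8 : g * d * g⁻¹ = c' * d * c'⁻¹ := by
        have h9 : x₀ ^ i * (c' * d * c'⁻¹) = (c' * d * c'⁻¹) * x₀ ^ i := by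
          have h10 : Commute x₀ (c' * d * c'⁻¹) := ((hDm _).1 hcd).2
          exact h10.pow_left i
        have h11 : d * k = k * d := hKc k hk d
        calc g * d * g⁻¹ = x₀ ^ i * c' * (k * d) * k⁻¹ * c'⁻¹ * (x₀ ^ i)⁻¹ := by
              rw [hg]
              group
          _ = (x₀ ^ i * (c' * d * c'⁻¹)) * (x₀ ^ i)⁻¹ := by
              rw [← h11]
              group
          _ = c' * d * c'⁻¹ := by
              rw [h9]
              group
      rw [h8]
      exact hcd
    have hDb : D = ⊥ := by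
      by_contra hDb
      have h4 := normal_inf_center D hDb
      apply h4
      rw [eq_bot_iff]
      rintro d ⟨hd1, hd2⟩
      exact Subgroup.mem_bot.2 (hcen d hd2 ((hDm d).1 hd1).1)
    intro d h4 h5
    have h6 : d ∈ D := (hDm d).2 ⟨h4, h5⟩
    rw [hDb] at h6
    exact Subgroup.mem_bot.1 h6
  -- the homomorphism
  let θ : (fixS z : Subgroup N) →* N :=
    { toFun := fun c => (c : N) * x₀ * (c : N)⁻¹ * x₀⁻¹
      map_one' := by simp
      map_mul' := by
        intro c d
        have h4 := hKc _ (hconj (d : N))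
        set δ := (d : N) * x₀ * (d : N)⁻¹ * x₀⁻¹ with hδ
        have h5 : (d : N) * x₀ * (d : N)⁻¹ = δ * x₀ := by
          rw [hδ]
          group
        change (c : N) * (d : N) * x₀ * ((c : N) * (d : N))⁻¹ * x₀⁻¹ = _
        calc (c : N) * (d : N) * x₀ * ((c : N) * (d : N))⁻¹ * x₀⁻¹
            = (c : N) * ((d : N) * x₀ * (d : N)⁻¹) * (c : N)⁻¹ * x₀⁻¹ := by group
          _ = ((c : N) * δ) * x₀ * (c : N)⁻¹ * x₀⁻¹ := by rw [h5]; group
          _ = δ * ((c : N) * x₀ * (c : N)⁻¹ * x₀⁻¹) := by rw [h4]; group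
          _ = ((c : N) * x₀ * (c : N)⁻¹ * x₀⁻¹) * δ := (h4 _).symm }
  have hθ : ∀ c : (fixS z : Subgroup N), θ c = (c : N) * x₀ * (c : N)⁻¹ * x₀⁻¹ := fun _ => rfl
  have hθinj : Function.Injective θ := by
    rw [injective_iff_map_eq_one]
    intro c hc0
    rw [hθ] at hc0
    apply Subtype.ext
    apply hD _ c.2
    rw [mul_inv_eq_one, mul_inv_eq_iff_eq_mul] at hc0
    exact hc0.symm
  have hrange : θ.range ≤ π.ker := by
    rintro _ ⟨c, rfl⟩
    exact hconj _
  have hcardC : Nat.card (fixS z : Subgroup N) = Nat.card θ.range :=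
    Nat.card_congr (MonoidHom.ofInjective hθinj).toEquiv
  have hC1 : Nat.card (fixS z : Subgroup N) ≠ 1 := by
    intro h
    have h4 := Subgroup.eq_bot_of_card_eq _ h
    have h5 : x ∈ (fixS z : Subgroup N) := hx
    rw [h4] at h5
    exact hx1 (Subgroup.mem_bot.1 h5)
  have hCr : Nat.card (fixS z : Subgroup N) = Nat.card π.ker := by
    have h4 := Subgroup.card_dvd_of_le hrange
    rw [← hcardC] at h4
    rcases (Nat.dvd_prime hKprime).1 h4 with h | h
    · exact absurd h hC1
    · exact h
  have hr3 : Nat.card π.ker = 3 := by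
    set t : N := θ ⟨x, hx⟩ with ht
    have ht1 : t ≠ 1 := by
      intro h
      rw [ht, ← map_one θ] at h
      exact hx1 (congrArg Subtype.val (hθinj h))
    have htk : t ∈ π.ker := hrange ⟨_, rfl⟩
    have h4 : x * x₀ * x⁻¹ = t * x₀ := by
      rw [ht, hθ]
      group
    have h5 : x₀ ^ 3 ∈ π.ker := by
      rw [MonoidHom.mem_ker, map_pow, hx₀, hj3]
    have h6 : (x * x₀ * x⁻¹) ^ 3 = x₀ ^ 3 := by
      rw [conj_pow, hKc _ h5 x, mul_inv_cancel_right]
    have h7 : t ^ 3 = 1 := by
      rw [h4] at h6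
      have h8 : Commute t x₀ := (hKc t htk x₀).symm
      rw [h8.mul_pow] at h6
      exact mul_eq_right.1 h6
    have h8 : orderOf t = 3 := by
      have : Fact (Nat.Prime 3) := ⟨Nat.prime_three⟩
      exact orderOf_eq_prime h7 ht1
    have h9 : orderOf t ∣ Nat.card π.ker := by
      have := orderOf_dvd_natCard (⟨t, htk⟩ : π.ker)
      rwa [Subgroup.orderOf_mk] at this
    rw [h8] at h9
    exact ((Nat.prime_dvd_prime_iff_eq Nat.prime_three hKprime).1 h9).symm
  have hfix := card_fix_of_inv hz.sq hN π hs (fun x => he z x) hKfix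
  refine ⟨?_, by rw [hCr, hr3]⟩
  rw [← hcardNM, hr3, h3, ← hfix, hCr, hr3]

end

end Pool.Agent.Lib_MP_8306f4_co.CaseB
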