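import Pool.Agent.Lib_MP_8306f4_co.CaseB.Defs
import Pool.Agent.Lib_MP_8306f4_co.CaseB.Section
import Pool.Agent.Lib_MP_8306f4_co.CaseB.GBasics
import Pool.Agent.Lib_MP_8306f4_co.CaseB.GInv

/-!
# MP_8306f4_co, case B, piece NDelta

Notation. x·y = qop f x y = x f(x⁻¹y) on N; lambda_m: y -> m y is always an automorphism of it
(f commutes with nothing needed). 1·y = f(y). If Equi P f, then y -> p•y is an automorphism.
core(A): a∘b = 2b-a. For every x: y -> x·y is bijective (f bijective), for every y: x -> x·y is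
bijective (x⁻¹f(x) bijective). '2 is invertible': all groups N have odd order.

## N1 (NDelta.lean): delta_dichotomy [L2]: s=δ at a with value k≠1. If s is a hom then its kernel M\P•a has odd order and
|M|=|ker s|·index, |P|=|M|-|ker s|: |ker s| divides 2^k so 1. exists_A: orders 5,7: A=inversion; 9 with |P|=2: A²=-1 on a basis;
|P|=4: A=ρ generator.
-/

universe u v w

namespace Pool.Agent.Lib_MP_8306f4_co.CaseB

open Pool.Agent.Lib_MP_8306f4_co

namespace NDelta

lemma eq_one_of_pow {M : Type u} [Group M] (m : M) (k : ℕ) (hk : Nat.Coprime k (Nat.card M))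
    (h : m ^ k = 1) : m = 1 := by
  have h1 : orderOf m ∣ k := orderOf_dvd_of_pow_eq_one h
  have h2 : orderOf m ∣ Nat.card M := orderOf_dvd_natCard m
  have h3 : orderOf m ∣ 1 := by
    rw [← hk]
    exact Nat.dvd_gcd h1 h2
  exact orderOf_eq_one_iff.1 (Nat.dvd_one.1 h3)

lemma exists_ne_one {M : Type u} [Group M] (h : 1 < Nat.card M) : ∃ a : M, a ≠ 1 := by
  have hf : Finite M := Nat.finite_of_card_ne_zero (by omega)
  have hnt : Nontrivial M := Finite.one_lt_card_iff_nontrivial.1 h
  exact exists_ne 1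

lemma aux9 {M : Type u} [Group M] (hcard : Nat.card M = 9) (A : M →* M)
    (hA : ∀ m, A (A m) = m⁻¹) :
    (∀ m, A m = 1 → m = 1) ∧ (∀ m, A m = m → m = 1) ∧ (∀ m, A m = m ^ 2 → m = 1) ∧
      ∃ a : M, a ≠ 1 ∧ ∀ H : Subgroup M, a ∈ H → (∀ x ∈ H, A x ∈ H) → H = ⊤ := by
  have hf : Finite M := Nat.finite_of_card_ne_zero (by omega)
  have h1 : ∀ m, A m = 1 → m = 1 := by
    intro m hm
    have := hA m
    rw [hm, map_one] at this
    exact inv_eq_one.1 this.symm
  have h2 : ∀ m, A m = m → m = 1 := by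
    intro m hm
    have := hA m
    rw [hm, hm] at this
    refine eq_one_of_pow m 2 (by rw [hcard]; norm_num) ?_
    rw [sq]
    nth_rewrite 1 [this]
    exact inv_mul_cancel m
  refine ⟨h1, h2, ?_, ?_⟩
  · intro m hm
    have := hA m
    rw [hm, map_pow, hm] at this
    refine eq_one_of_pow m 5 (by rw [hcard]; norm_num) ?_
    have h5 : m ^ 5 = (m ^ 2) ^ 2 * m := by
      rw [← pow_mul, ← pow_succ]
    rw [h5, this]
    exact inv_mul_cancel m
  · obtain ⟨a, ha⟩ := exists_ne_one (M := M) (by omega)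
    refine ⟨a, ha, ?_⟩
    intro H haH hH
    have hd : Nat.card H ∣ 3 ^ 2 := by
      have := Subgroup.card_subgroup_dvd_card H
      rw [hcard] at this
      exact this
    obtain ⟨j, hj, hj'⟩ := (Nat.dvd_prime_pow Nat.prime_three).1 hd
    have hj0 : j ≠ 0 := by
      rintro rfl
      have := Subgroup.eq_bot_of_card_eq H (by simpa using hj')
      rw [this] at haH
      exact ha (Subgroup.mem_bot.1 haH)
    have hj1 : j ≠ 1 := by
      rintro rfl
      have hH3 : Nat.card H = 3 := by simpa using hj'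
      have ho : orderOf a = 3 := by
        have h4 : orderOf a ∣ Nat.card H := by
          have := orderOf_dvd_natCard (⟨a, haH⟩ : H)
          rwa [Subgroup.orderOf_mk] at this
        rw [hH3] at h4
        rcases (Nat.dvd_prime Nat.prime_three).1 h4 with h | h
        · exact absurd (orderOf_eq_one_iff.1 h) ha
        · exact h
      have hz : Subgroup.zpowers a = H := by
        refine Subgroup.eq_of_le_of_card_ge ?_ ?_
        · rw [Subgroup.zpowers_le]
          exact haH
        · rw [Nat.card_zpowers, ho, hH3]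
      have hAa : A a ∈ Subgroup.zpowers a := by
        rw [hz]
        exact hH a haH
      obtain ⟨i, hi⟩ := Subgroup.mem_zpowers_iff.1 hAa
      have h5 := hA a
      rw [← hi, map_zpow, ← hi, ← zpow_mul] at h5
      have h6 : a ^ (i * i + 1) = 1 := by
        rw [zpow_add, h5, zpow_one, inv_mul_cancel]
      have h7 : (3 : ℤ) ∣ i * i + 1 := by
        have := orderOf_dvd_iff_zpow_eq_one.2 h6
        rw [ho] at this
        exact_mod_cast this
      have h8 : i % 3 = 0 ∨ i % 3 = 1 ∨ i % 3 = 2 := by omega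
      have h9 : (i * i + 1) % 3 = 0 := Int.emod_eq_zero_of_dvd h7
      rcases h8 with h | h | h <;> simp [Int.add_emod, Int.mul_emod, h] at h9
    have hj2 : j = 2 := by omega
    rw [hj2] at hj'
    exact Subgroup.eq_top_of_card_eq H (by rw [hj', hcard]; norm_num)

lemma exists_sq_inv {M : Type u} [Group M] (hc : ∀ x y : M, x * y = y * x)
    (hcard : Nat.card M = 9) (h3 : ∀ m : M, m ^ 3 = 1) : ∃ A : M →* M, ∀ m, A (A m) = m⁻¹ := by
  have hf : Finite M := Nat.finite_of_card_ne_zero (by omega)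
  let _ : CommGroup M := { ‹Group M› with mul_comm := hc }
  let _ : Module (ZMod 3) (Additive M) := AddCommGroup.zmodModule (fun x => h3 x.toMul)
  have : Fact (Nat.Prime 3) := ⟨Nat.prime_three⟩
  have hr : Module.finrank (ZMod 3) (Additive M) = 2 := by
    have h1 := Module.natCard_eq_pow_finrank (K := ZMod 3) (V := Additive M)
    have h2 : Nat.card (Additive M) = 9 := by
      rw [← hcard]
      exact Nat.card_congr Additive.toMul
    rw [h2, Nat.card_zmod] at h1
    have h4 : (3 : ℕ) ^ 2 = 3 ^ Module.finrank (ZMod 3) (Additive M) := by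
      rw [← h1]
      norm_num
    exact (Nat.pow_right_injective (le_refl 2 |>.trans (by norm_num)) h4).symm
  let b := Module.finBasisOfFinrankEq (ZMod 3) (Additive M) hr
  let L : Additive M →ₗ[ZMod 3] Additive M := b.constr (ZMod 3) ![b 1, - b 0]
  have hL0 : L (b 0) = b 1 := by
    simp [L]
  have hL1 : L (b 1) = - b 0 := by
    simp [L]
  have hL : L ∘ₗ L = -LinearMap.id := by
    refine b.ext (fun i => ?_)
    fin_cases i
    · change L (L (b 0)) = - b 0
      rw [hL0, hL1]
    · change L (L (b 1)) = - b 1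
      rw [hL1, map_neg, hL0]
  refine ⟨MonoidHom.toAdditive.symm L.toAddMonoidHom, ?_⟩
  intro m
  have := LinearMap.congr_fun hL (Additive.ofMul m)
  exact this

end NDelta

open NDelta

section
variable {P : Type v} [Group P] {z : P} {N M : Type u} [Group N] [Finite N] [Group M]
  [MulDistribMulAction P N] [MulDistribMulAction P M]

/-- If an equivariant function supported on a regular orbit is a homomorphism then `M ≅ ker π` and
`P` is transitive on the nontrivial elements of `M`. -/
theorem delta_dichotomy (hz : TwoCyc z) (hN : Odd (Nat.card N)) (π : N →* M)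
    (hs : Function.Surjective π) (he : ∀ (p : P) x, π (p • x) = p • π x)
    (hc : π.ker ≤ Subgroup.center N) (hmin : PMin P π.ker) (a : M) (ha : z • a ≠ a) :
    (∃ s : M → N, (∀ m, s m ∈ π.ker) ∧ (∀ (p : P) m, s (p • m) = p • s m) ∧ s 1 = 1 ∧
        ∃ m n, s (m * n) ≠ s m * s n) ∨
      (Nat.card M = Nat.card P + 1 ∧ ∃ s : M →* N, (∀ (p : P) m, s (p • m) = p • s m) ∧
        Function.Injective s ∧ (∀ m, s m ∈ π.ker) ∧ ∀ k ∈ π.ker, ∃ m, s m = k) := by
  have hfin : Finite P := hz.fin
  have hMf : Finite M := Finite.of_surjective π hs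
  have ha1 : a ≠ 1 := by
    rintro rfl
    exact ha (smul_one z)
  have hreg : ∀ p : P, p • a = a → p = 1 := fun p hp => hz.regular ha hp
  obtain ⟨hne, hinv, hm⟩ := hmin
  obtain ⟨⟨k, hk⟩, hk1⟩ := Subgroup.ne_bot_iff_exists_ne_one.1 hne
  have hk1' : k ≠ 1 := fun h => hk1 (Subtype.ext h)
  obtain ⟨s, h1, h2, h3, h4, h5⟩ := exists_delta π a ha1 hreg (fun p x hx => hinv p x hx) k hk
  by_cases hh : ∃ m n, s (m * n) ≠ s m * s n
  · exact Or.inl ⟨s, h1, h2, h3, hh⟩
  right
  push Not at hh
  let S : M →* N := { toFun := s, map_one' := h3, map_mul' := hh }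
  have hS : ∀ m, S m = s m := fun m => rfl
  -- the kernel
  have hinj : Function.Injective (fun p : P => p • a) := by
    intro p q hpq
    have h6 : (q⁻¹ * p) • a = a := by
      rw [mul_smul, show p • a = q • a from hpq, inv_smul_smul]
    have h7 := hreg _ h6
    rw [inv_mul_eq_one] at h7
    exact h7.symm
  have hker : (S.ker : Set M)ᶜ = Set.range (fun p : P => p • a) := by
    ext m
    rw [Set.mem_compl_iff, SetLike.mem_coe, MonoidHom.mem_ker, hS, Set.mem_range]
    constructor
    · intro h6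
      by_contra h7
      push Not at h7
      exact h6 (h5 m (fun p hp => h7 p hp.symm))
    · rintro ⟨p, rfl⟩ h6
      rw [h2, h4] at h6
      have h7 : p⁻¹ • (p • k) = p⁻¹ • (1 : N) := by rw [h6]
      rw [inv_smul_smul, smul_one] at h7
      exact hk1' h7
  have hcardP : Nat.card P + Nat.card S.ker = Nat.card M := by
    have h6 := Set.ncard_add_ncard_compl (S.ker : Set M)
    rw [hker, ← Nat.card_coe_set_eq, ← Nat.card_coe_set_eq,
      Nat.card_range_of_injective hinj] at h6
    rw [add_comm]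
    exact h6
  have hcardM : Nat.card S.ker * Nat.card S.range = Nat.card M := by
    rw [← Subgroup.index_ker]
    exact Subgroup.card_mul_index S.ker
  have hcardNM : Nat.card π.ker * Nat.card M = Nat.card N := by
    have h6 := Subgroup.card_mul_index π.ker
    rw [Subgroup.index_ker, MonoidHom.range_eq_top.mpr hs,
      Nat.card_congr Subgroup.topEquiv.toEquiv] at h6
    exact h6
  have hoddM : Odd (Nat.card M) := by
    rw [← hcardNM] at hN
    exact (Nat.odd_mul.1 hN).2
  have hoddK : Odd (Nat.card S.ker) := by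
    rw [← hcardM] at hoddM
    exact (Nat.odd_mul.1 hoddM).1
  have hdvd : Nat.card S.ker ∣ Nat.card P := by
    have h6 : Nat.card S.ker ∣ Nat.card P + Nat.card S.ker := by
      rw [hcardP]
      exact Dvd.intro _ hcardM
    exact (Nat.dvd_add_left (dvd_refl _)).1 h6
  have hone : Nat.card S.ker = 1 := by
    obtain ⟨n, _, hn⟩ := hz.card
    rw [hn] at hdvd
    obtain ⟨j, _, hj⟩ := (Nat.dvd_prime_pow Nat.prime_two).1 hdvd
    rw [hj] at hoddK ⊢
    rcases Nat.eq_zero_or_pos j with h | h
    · rw [h, pow_zero]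
    · exfalso
      have h7 : Even (2 ^ j) := (Nat.even_pow' (by omega)).2 even_two
      exact (Nat.not_even_iff_odd.2 hoddK) h7
  have hbot : S.ker = ⊥ := Subgroup.eq_bot_of_card_eq _ hone
  refine ⟨by omega, S, h2, (MonoidHom.ker_eq_bot_iff S).1 hbot, h1, ?_⟩
  have hrange : S.range = π.ker := by
    have hle : S.range ≤ π.ker := by
      rintro _ ⟨m, rfl⟩
      exact h1 m
    rcases hm S.range (by
      rintro p _ ⟨m, rfl⟩
      exact ⟨p • m, h2 p m⟩) hle with h | h
    · exfalso
      apply hk1'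
      have h6 : S a ∈ S.range := ⟨a, rfl⟩
      rw [h] at h6
      rw [← h4]
      exact Subgroup.mem_bot.1 h6
    · exact h
  intro k' hk'
  rw [← hrange] at hk'
  exact hk'

/-- the automorphisms `A` needed in `bsgen` -/
theorem exists_A (hz : TwoCyc z) (hM : Finite M) (hinv : ∀ m : M, z • m = m⁻¹)
    (h : (Nat.card P = 2 ∧ (Nat.card M = 5 ∨ Nat.card M = 7)) ∨
      (Nat.card P = 2 ∧ Nat.card M = 9 ∧ ∀ m : M, m ^ 3 = 1) ∨
      (Nat.card P = 4 ∧ Nat.card M = 9)) :
    ∃ (A : M →* M) (a : M), (∀ (p : P) m, A (p • m) = p • A m) ∧ (∀ m, A m = 1 → m = 1) ∧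
      (∀ m, A m = m → m = 1) ∧ (∀ m, A m = m ^ 2 → m = 1) ∧ a ≠ 1 ∧
      ∀ H : Subgroup M, a ∈ H → (∀ x ∈ H, A x ∈ H) → H = ⊤ := by
  have hcomm : ∀ x y : M, x * y = y * x := comm_of_inv hinv
  rcases h with ⟨hP, hM57⟩ | ⟨hP, hM9, h3⟩ | ⟨hP, hM9⟩
  · have hprime : (Nat.card M).Prime := by
      rcases hM57 with h | h <;> rw [h] <;> norm_num
    have hco2 : Nat.Coprime 2 (Nat.card M) := by
      rcases hM57 with h | h <;> rw [h] <;> norm_num
    have hco3 : Nat.Coprime 3 (Nat.card M) := by
      rcases hM57 with h | h <;> rw [h] <;> norm_num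
    obtain ⟨a, ha⟩ := exists_ne_one (M := M) hprime.one_lt
    refine ⟨{ toFun := fun m => m⁻¹, map_one' := inv_one,
              map_mul' := fun x y => by rw [mul_inv_rev, hcomm] }, a, ?_, ?_, ?_, ?_, ha, ?_⟩
    · intro p m
      exact (smul_inv' p m).symm
    · intro m hm
      exact inv_eq_one.1 hm
    · intro m hm
      refine eq_one_of_pow m 2 hco2 ?_
      have hm' : m⁻¹ = m := hm
      rw [sq]
      nth_rewrite 1 [← hm']
      exact inv_mul_cancel m
    · intro m hm
      refine eq_one_of_pow m 3 hco3 ?_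
      have hm' : m⁻¹ = m ^ 2 := hm
      rw [pow_succ, ← hm', inv_mul_cancel]
    · intro H haH _
      have : Fact (Nat.card M).Prime := ⟨hprime⟩
      rcases H.eq_bot_or_eq_top_of_prime_card with h | h
      · rw [h] at haH
        exact absurd (Subgroup.mem_bot.1 haH) ha
      · exact h
  · obtain ⟨A, hA⟩ := exists_sq_inv hcomm hM9 h3
    obtain ⟨h1, h2, h4, a, ha, h5⟩ := aux9 hM9 A hA
    refine ⟨A, a, ?_, h1, h2, h4, ha, h5⟩
    have hPz : ∀ p : P, p = 1 ∨ p = z := by
      intro p
      by_cases hp : p = 1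
      · exact Or.inl hp
      right
      obtain ⟨y, _, hy⟩ := (Nat.card_eq_two_iff' (1 : P)).1 hP
      rw [hy p hp, hy z hz.ne_one]
    intro p m
    rcases hPz p with rfl | rfl
    · rw [one_smul, one_smul]
    · rw [hinv, map_inv, hinv]
  · obtain ⟨ρ, hρ⟩ := hz.cyclic
    have ho : orderOf ρ = 4 := by
      rw [orderOf_eq_card_of_forall_mem_zpowers hρ, hP]
    have hne : ρ ^ 2 ≠ 1 := by
      intro h6
      have := orderOf_dvd_of_pow_eq_one h6
      rw [ho] at this
      omega
    have h4 : (ρ ^ 2) ^ 2 = 1 := by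
      rw [← pow_mul, show 2 * 2 = orderOf ρ by rw [ho]]
      exact pow_orderOf_eq_one ρ
    have hρ2 : ρ * ρ = z := by
      obtain ⟨i, hi⟩ := Subgroup.mem_zpowers_iff.1 (hz.mem_zpowers hne)
      rw [← sq]
      rcases Int.even_or_odd' i with ⟨j, rfl | rfl⟩
      · exfalso
        apply hz.ne_one
        rw [← hi, zpow_mul]
        have h7 : (ρ ^ 2) ^ (2 : ℤ) = 1 := by exact_mod_cast h4
        rw [h7, one_zpow]
      · rw [← hi, zpow_add, zpow_mul]
        have h7 : (ρ ^ 2) ^ (2 : ℤ) = 1 := by exact_mod_cast h4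
        rw [h7, one_zpow, one_mul, zpow_one]
    obtain ⟨h1, h2, h4, a, ha, h5⟩ := aux9 hM9 (MulDistribMulAction.toMonoidHom M ρ) (by
      intro m
      change ρ • ρ • m = m⁻¹
      rw [smul_smul, hρ2, hinv])
    refine ⟨MulDistribMulAction.toMonoidHom M ρ, a, ?_, h1, h2, h4, ha, h5⟩
    intro p m
    change ρ • p • m = p • ρ • m
    rw [smul_smul, smul_smul, hz.comm]

end

end Pool.Agent.Lib_MP_8306f4_co.CaseB
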