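import Pool.Agent.Lib_MP_8306f4_co.CaseB.Defs
import Pool.Agent.Lib_MP_8306f4_co.CaseB.Bsc
import Pool.Agent.Lib_MP_8306f4_co.CaseB.NDelta
import Pool.Agent.Lib_MP_8306f4_co.CaseB.Inv2Small
import Pool.Agent.Lib_MP_8306f4_co.CaseB.GPmin

/-!
# MP_8306f4_co, case B, piece NInv2

Notation. x·y = qop f x y = x f(x⁻¹y) on N; lambda_m: y -> m y is always an automorphism of it
(f commutes with nothing needed). 1·y = f(y). If Equi P f, then y -> p•y is an automorphism.
core(A): a∘b = 2b-a. For every x: y -> x·y is bijective (f bijective), for every y: x -> x·y is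
bijective (x⁻¹f(x) bijective). '2 is invertible': all groups N have odd order.

## N2 (NInv2.lean): inv2_main [bsc, delta_dichotomy, inv2_small, prime2]. Strong induction. N abelian, every subgroup P-invariant.
|N| prime: 3 (Exc e1, fixS trivial), 5,7, ≥11. |N|=r1r2: quotient of the larger prime order ≥11: bsc (dichotomy: |M|=3 excluded);
both ≤7: inv2_small or (9, exponent 3) Exc. ≥3 prime factors: choose K of prime order with N/K not elementary of order 9:
if |N|=9r, r≠3, take |K|=3; if |N|=27 and not exponent 3 (exists x³≠1): K=<y> with x³∉K.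
-/

universe u v w

namespace Pool.Agent.Lib_MP_8306f4_co.CaseB

open Pool.Agent.Lib_MP_8306f4_co

namespace NInv2

lemma eq_one_of_sq {M : Type u} [Group M] (hM : Odd (Nat.card M)) (m : M) (h : m ^ 2 = 1) :
    m = 1 := by
  refine NDelta.eq_one_of_pow m 2 ?_ h
  exact Nat.coprime_two_left.2 hM

lemma inv_ne_self {M : Type u} [Group M] (hM : Odd (Nat.card M)) {m : M} (hm : m ≠ 1) :
    m⁻¹ ≠ m := by
  intro h
  apply hm
  apply eq_one_of_sq hM
  rw [sq]
  nth_rewrite 1 [← h]
  exact inv_mul_cancel m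

section
variable {P : Type v} [Group P] {z : P} {N : Type u} [Group N] [Finite N]
  [MulDistribMulAction P N]

lemma fixS_card {M : Type u} [Group M] [MulDistribMulAction P M]
    (hM : Odd (Nat.card M)) (hinv : ∀ m : M, z • m = m⁻¹) :
    Nat.card (fixS z : Subgroup M) = 1 := by
  have : (fixS z : Subgroup M) = ⊥ := by
    rw [eq_bot_iff]
    intro m hm
    rw [mem_fixS, hinv] at hm
    by_contra h
    exact inv_ne_self hM (fun h' => h (Subgroup.mem_bot.2 h')) hm
  rw [this]
  exact Subgroup.card_bot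

lemma exists_step (hz : TwoCyc z) (h2 : Nat.card P = 2) (hN : Odd (Nat.card N))
    (hinv : ∀ x : N, z • x = x⁻¹) (y : N) (hy : (orderOf y).Prime) :
    ∃ (M : Type u) (_ : Group M) (_ : MulDistribMulAction P M) (_ : Finite M) (π : N →* M),
      Function.Surjective π ∧ π.ker = Subgroup.zpowers y ∧
      (∀ m : M, z • m = m⁻¹) ∧ orderOf y * Nat.card M = Nat.card N ∧ Odd (Nat.card M) ∧
      (WGood P M → Nat.card M ≠ 3 → Nat.card M ≠ 1 → WGood P N) := by
  have hfin : Finite P := hz.fin
  have hcomm := comm_of_inv hinv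
  have hPz : ∀ p : P, p = 1 ∨ p = z := by
    intro p
    by_cases hp : p = 1
    · exact Or.inl hp
    right
    obtain ⟨y, _, hy⟩ := (Nat.card_eq_two_iff' (1 : P)).1 h2
    rw [hy p hp, hy z hz.ne_one]
  have hPinv : ∀ H : Subgroup N, PInv P H := by
    intro H p x hx
    rcases hPz p with rfl | rfl
    · rwa [one_smul]
    · rw [hinv]
      exact H.inv_mem hx
  have hnorm : (Subgroup.zpowers y).Normal := ⟨fun x hx g => by
    rw [hcomm g x, mul_inv_cancel_right]
    exact hx⟩
  have hmin : PMin P (Subgroup.zpowers y) := by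
    refine ⟨?_, hPinv _, ?_⟩
    · intro h
      rw [Subgroup.zpowers_eq_bot] at h
      rw [h, orderOf_one] at hy
      exact Nat.not_prime_one hy
    · intro H _ hH
      have h1 : Nat.card H ∣ Nat.card (Subgroup.zpowers y) := Subgroup.card_dvd_of_le hH
      rw [Nat.card_zpowers] at h1
      rcases (Nat.dvd_prime hy).1 h1 with h | h
      · left
        exact Subgroup.eq_bot_of_card_eq H h
      · right
        refine Subgroup.eq_of_le_of_card_ge hH ?_
        rw [Nat.card_zpowers, h]
  obtain ⟨M, iM, aM, π, hs, he, hker⟩ := exists_quot (P := P) (Subgroup.zpowers y) (hPinv _)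
  have hMf : Finite M := Finite.of_surjective π hs
  have hinvM : ∀ m : M, z • m = m⁻¹ := by
    intro m
    obtain ⟨x, rfl⟩ := hs m
    rw [← he, hinv, map_inv]
  have hcard : orderOf y * Nat.card M = Nat.card N := by
    have h6 := Subgroup.card_mul_index π.ker
    rw [Subgroup.index_ker, MonoidHom.range_eq_top.mpr hs,
      Nat.card_congr Subgroup.topEquiv.toEquiv, hker, Nat.card_zpowers] at h6
    exact h6
  have hodd : Odd (Nat.card M) := by
    rw [← hcard] at hN
    exact (Nat.odd_mul.1 hN).2
  refine ⟨M, iM, aM, hMf, π, hs, hker, hinvM, hcard, hodd, ?_⟩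
  intro hW h3 h1
  obtain ⟨a, ha⟩ := NDelta.exists_ne_one (M := M) (by
    have : 0 < Nat.card M := Nat.card_pos
    omega)
  have hc : π.ker ≤ Subgroup.center N := fun x _ => Subgroup.mem_center_iff.2 (fun g => hcomm g x)
  rw [← hker] at hmin
  have hza : z • a ≠ a := by
    rw [hinvM]
    exact inv_ne_self hodd ha
  refine bsc hz.pgroup hN π hs he hc hmin hW a ha (fun p hp => hz.regular hza hp) ?_
  rcases delta_dichotomy hz hN π hs he hc hmin a hza with h | ⟨h, _⟩
  · exact Or.inr h
  · exact absurd (by rw [h, h2]) h3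

end

/-- the choice of a subgroup of order 3 in an abelian group of order 27 -/
lemma exists_27 {N : Type u} [Group N] (hcomm : ∀ x y : N, x * y = y * x)
    (hcard : Nat.card N = 27) (hx : ∃ x : N, x ^ 3 ≠ 1) :
    ∃ y : N, orderOf y = 3 ∧ ∃ x : N, x ^ 3 ∉ Subgroup.zpowers y := by
  have hf : Finite N := Nat.finite_of_card_ne_zero (by omega)
  have hp3 : Fact (Nat.Prime 3) := ⟨Nat.prime_three⟩
  by_cases h9 : ∃ u : N, u ^ 9 ≠ 1
  · obtain ⟨u, hu⟩ := h9
    obtain ⟨y, hy⟩ := exists_prime_orderOf_dvd_card' (G := N) 3 (by rw [hcard]; norm_num)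
    refine ⟨y, hy, u, ?_⟩
    intro h
    obtain ⟨i, hi⟩ := Subgroup.mem_zpowers_iff.1 h
    apply hu
    have h1 : u ^ 9 = (u ^ 3) ^ 3 := by rw [← pow_mul]
    have h2 : y ^ 3 = 1 := by rw [← hy]; exact pow_orderOf_eq_one y
    rw [h1, ← hi, ← zpow_natCast, ← zpow_mul, mul_comm, zpow_mul, zpow_natCast, h2, one_zpow]
  push Not at h9
  obtain ⟨x, hx⟩ := hx
  let φ : N →* N := { toFun := fun y => y ^ 3, map_one' := one_pow 3,
                      map_mul' := fun a b => Commute.mul_pow (hcomm a b) 3 }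
  have hle : φ.range ≤ φ.ker := by
    rintro _ ⟨y, rfl⟩
    rw [MonoidHom.mem_ker]
    change (y ^ 3) ^ 3 = 1
    rw [← pow_mul]
    exact h9 y
  have hc1 : Nat.card φ.ker * Nat.card φ.range = 27 := by
    rw [← hcard, ← Subgroup.index_ker]
    exact Subgroup.card_mul_index φ.ker
  have hc2 : Nat.card φ.range ≤ Nat.card φ.ker := Subgroup.card_le_of_le hle
  have hc3 : 3 < Nat.card φ.ker := by
    by_contra h
    push Not at h
    have : Nat.card φ.ker * Nat.card φ.range ≤ 3 * 3 := Nat.mul_le_mul h (hc2.trans h)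
    omega
  have hox : orderOf (x ^ 3) = 3 := by
    have h1 : (x ^ 3) ^ 3 = 1 := by
      rw [← pow_mul]
      exact h9 x
    exact orderOf_eq_prime h1 hx
  have hex : ∃ y ∈ φ.ker, y ∉ Subgroup.zpowers (x ^ 3) := by
    by_contra h
    push Not at h
    have h1 : φ.ker ≤ Subgroup.zpowers (x ^ 3) := h
    have h2 := Subgroup.card_le_of_le h1
    rw [Nat.card_zpowers, hox] at h2
    omega
  obtain ⟨y, hy, hy'⟩ := hex
  have hy3 : y ^ 3 = 1 := hy
  have hy1 : y ≠ 1 := by
    rintro rfl
    exact hy' (one_mem _)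
  have hoy : orderOf y = 3 := orderOf_eq_prime hy3 hy1
  refine ⟨y, hoy, x, ?_⟩
  intro h
  apply hy'
  have h1 : Subgroup.zpowers (x ^ 3) ≤ Subgroup.zpowers y := by
    rw [Subgroup.zpowers_le]
    exact h
  have h2 : Subgroup.zpowers (x ^ 3) = Subgroup.zpowers y := by
    refine Subgroup.eq_of_le_of_card_ge h1 ?_
    rw [Nat.card_zpowers, Nat.card_zpowers, hox, hoy]
  rw [h2]
  exact Subgroup.mem_zpowers y

theorem main {P : Type v} [Group P] {z : P} (hz : TwoCyc z) (h2 : Nat.card P = 2) (n : ℕ) :
    ∀ (N : Type u) [Group N] [Finite N] [MulDistribMulAction P N], Nat.card N = n →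
      Odd (Nat.card N) → (∀ x : N, z • x = x⁻¹) → (∃ x : N, x ≠ 1) → WGood P N ∨ Exc N z := by
  induction n using Nat.strong_induction_on with
  | _ n ih =>
  intro N _ _ _ hn hN hinv hne
  have hcomm := comm_of_inv hinv
  have hfix := fixS_card hN hinv
  have hn1 : 1 < n := by
    obtain ⟨x, hx⟩ := hne
    rw [← hn]
    have : Nontrivial N := ⟨x, 1, hx⟩
    exact Finite.one_lt_card
  -- primes
  by_cases hp : n.Prime
  · rw [hn] at hN
    rcases Nat.lt_or_ge n 11 with h11 | h11
    · right
      have h357 : n = 3 ∨ n = 5 ∨ n = 7 := by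
        interval_cases n
        all_goals first
          | omega
          | (exfalso; revert hN; decide)
          | (exfalso; revert hp; norm_num)
      rcases h357 with rfl | h | h
      · exact Or.inl ⟨h2, by rw [hfix, hn]⟩
      · exact Or.inr (Or.inl ⟨h2, hinv, Or.inl (by rw [hn, h])⟩)
      · exact Or.inr (Or.inl ⟨h2, hinv, Or.inr (by rw [hn, h])⟩)
    · left
      exact prime2 hz h2 hinv (by rw [hn]; exact hp) (by rw [hn]; exact h11)
  -- products of two primes
  by_cases hp2 : ∃ r s : ℕ, r.Prime ∧ s.Prime ∧ n = r * s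
  · have hbig : ∀ r s : ℕ, r.Prime → s.Prime → n = r * s → 11 ≤ s → WGood P N := by
      intro r s hr hs hrs h11
      have hrf : Fact r.Prime := ⟨hr⟩
      obtain ⟨y, hy⟩ := exists_prime_orderOf_dvd_card' (G := N) r (by
        rw [hn, hrs]
        exact Dvd.intro _ rfl)
      obtain ⟨M, iM, aM, fM, π, hsurj, hker, hinvM, hcM, hoM, hW⟩ :=
        exists_step hz h2 hN hinv y (by rw [hy]; exact hr)
      have hMs : Nat.card M = s := by
        rw [hy, hn, hrs] at hcM
        exact Nat.eq_of_mul_eq_mul_left hr.pos hcM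
      refine hW ?_ (by omega) (by omega)
      exact prime2 hz h2 hinvM (by rw [hMs]; exact hs) (by rw [hMs]; exact h11)
    obtain ⟨r, s, hr, hs, hrs⟩ := hp2
    rcases Nat.lt_or_ge s 11 with hs11 | hs11
    · rcases Nat.lt_or_ge r 11 with hr11 | hr11
      · have hodd : Odd r ∧ Odd s := by
          rw [hn, hrs] at hN
          exact Nat.odd_mul.1 hN
        have hr357 : r = 3 ∨ r = 5 ∨ r = 7 := by
          have := hodd.1
          interval_cases r
          all_goals first
            | omega
            | (exfalso; revert this; decide)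
            | (exfalso; revert hr; norm_num)
        have hs357 : s = 3 ∨ s = 5 ∨ s = 7 := by
          have := hodd.2
          interval_cases s
          all_goals first
            | omega
            | (exfalso; revert this; decide)
            | (exfalso; revert hs; norm_num)
        by_cases h9 : n = 9 ∧ ∀ x : N, x ^ 3 = 1
        · right
          exact Or.inr (Or.inr (Or.inl ⟨h2, hinv, by rw [hn, h9.1], h9.2⟩))
        · left
          apply inv2_small hz h2 hinv
          rw [hn]
          by_cases h9' : n = 9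
          · left
            refine ⟨h9', ?_⟩
            by_contra hc
            push Not at hc
            exact h9 ⟨h9', hc⟩
          · rcases hr357 with rfl | rfl | rfl <;> rcases hs357 with rfl | rfl | rfl <;> omega
      · left
        exact hbig s r hs hr (by rw [hrs, mul_comm]) hr11
    · left
      exact hbig r s hr hs hrs hs11
  -- the general case
  by_cases h27 : n = 27 ∧ ∀ x : N, x ^ 3 = 1
  · left
    apply inv2_small hz h2 hinv
    rw [hn]
    have := h27.1
    have := h27.2
    tauto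
  left
  have key : ∃ y : N, (orderOf y).Prime ∧ (3 ∣ n → orderOf y = 3) ∧
      (n = 27 → ∃ x : N, x ^ 3 ∉ Subgroup.zpowers y) := by
    by_cases h3 : 3 ∣ n
    · by_cases h27' : n = 27
      · obtain ⟨y, hy, hx⟩ := exists_27 hcomm (by rw [hn, h27']) (by
          by_contra hc
          push Not at hc
          exact h27 ⟨h27', hc⟩)
        exact ⟨y, by rw [hy]; exact Nat.prime_three, fun _ => hy, fun _ => hx⟩
      · have hp3 : Fact (Nat.Prime 3) := ⟨Nat.prime_three⟩
        obtain ⟨y, hy⟩ := exists_prime_orderOf_dvd_card' (G := N) 3 (by rw [hn]; exact h3)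
        exact ⟨y, by rw [hy]; exact Nat.prime_three, fun _ => hy, fun h => absurd h h27'⟩
    · obtain ⟨r, hr, hrn⟩ := Nat.exists_prime_and_dvd (show n ≠ 1 by omega)
      have hpr : Fact (Nat.Prime r) := ⟨hr⟩
      obtain ⟨y, hy⟩ := exists_prime_orderOf_dvd_card' (G := N) r (by rw [hn]; exact hrn)
      exact ⟨y, by rw [hy]; exact hr, fun h => absurd h h3, fun h => absurd (by
        rw [h]; norm_num) h3⟩
  obtain ⟨y, hy, hy3, hy27⟩ := key
  obtain ⟨M, iM, aM, fM, π, hsurj, hker, hinvM, hcM, hoM, hW⟩ := exists_step hz h2 hN hinv y hy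
  have hM1 : Nat.card M ≠ 1 := by
    intro h
    rw [h, mul_one, hn] at hcM
    rw [hcM] at hy
    exact hp hy
  have hMp : ¬ (Nat.card M).Prime := by
    intro h
    exact hp2 ⟨orderOf y, Nat.card M, hy, h, by rw [hcM, hn]⟩
  have hM3 : Nat.card M ≠ 3 := by
    intro h
    rw [h] at hMp
    exact hMp Nat.prime_three
  refine hW ?_ hM3 hM1
  have hlt : Nat.card M < n := by
    rw [← hn, ← hcM]
    exact lt_mul_of_one_lt_left Nat.card_pos hy.one_lt
  obtain ⟨a, ha⟩ := NDelta.exists_ne_one (M := M) (by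
    have : 0 < Nat.card M := Nat.card_pos
    omega)
  rcases ih (Nat.card M) hlt M rfl hoM hinvM ⟨a, ha⟩ with h | h
  · exact h
  exfalso
  rcases h with ⟨_, h⟩ | ⟨_, _, h⟩ | ⟨_, _, h9, h3⟩ | ⟨h4, _⟩
  · rw [fixS_card hoM hinvM, mul_one] at h
    exact hM3 h
  · rcases h with h | h
    · rw [h] at hMp
      exact hMp (by norm_num)
    · rw [h] at hMp
      exact hMp (by norm_num)
  · have hd : 3 ∣ n := by
      rw [← hn, ← hcM, h9]
      exact Dvd.dvd.mul_left (by norm_num) _
    have ho := hy3 hd
    have h27' : n = 27 := by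
      rw [← hn, ← hcM, h9, ho]
    obtain ⟨x, hx⟩ := hy27 h27'
    apply hx
    rw [← hker, MonoidHom.mem_ker, map_pow]
    exact h3 (π x)
  · rw [h2] at h4
    norm_num at h4

end NInv2

section
variable {P : Type v} [Group P] {z : P} {N M : Type u} [Group N] [Finite N] [Group M]
  [MulDistribMulAction P N] [MulDistribMulAction P M]

/-- groups inverted by `z`, `|P| = 2` -/
theorem inv2_main (hz : TwoCyc z) (h2 : Nat.card P = 2) (hN : Odd (Nat.card N))
    (hinv : ∀ x : N, z • x = x⁻¹) (hne : ∃ x : N, x ≠ 1) : WGood P N ∨ Exc N z :=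
  NInv2.main hz h2 _ N rfl hN hinv hne

end

end Pool.Agent.Lib_MP_8306f4_co.CaseB
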