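import Pool.Agent.Lib_MP_8306f4_co.CaseB.Defs
import Pool.Agent.Lib_MP_8306f4_co.CaseB.Transfer
import Pool.Agent.Lib_MP_8306f4_co.CaseB.GBasics
import Pool.Agent.Lib_MP_8306f4_co.CaseB.GInv

/-!
# MP_8306f4_co, case B, piece Pm2Prime

Notation. x·y = qop f x y = x f(x⁻¹y) on N; lambda_m: y -> m y is always an automorphism of it
(f commutes with nothing needed). 1·y = f(y). If Equi P f, then y -> p•y is an automorphism.
core(A): a∘b = 2b-a. For every x: y -> x·y is bijective (f bijective), for every y: x -> x·y is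
bijective (x⁻¹f(x) bijective). '2 is invertible': all groups N have odd order.

## B16 (Pm2Prime.lean): pm2_prime. F=F_p, N=F², P=F^*. f(x)=λ(ℓ)x for x on the line ℓ (through 0), λ: lines -> F\{0,1,2},
three lines with distinct values c1,c2,c3 and c4 on all others. Each affine line is a subquasigroup generated by two
points; α maps lines to lines, α(x+tv)=α(x)+t w: midpoints: α additive; α preserves λ: three lines, so scalar.
homs: constant on each line (λ≠2). KS f: f(m)=2m impossible.
-/

universe u v w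

namespace Pool.Agent.Lib_MP_8306f4_co.CaseB

open Pool.Agent.Lib_MP_8306f4_co

namespace Pm2Prime

variable {p : ℕ} [Fact p.Prime]

/-- the multiplier on the line of `v` -/
noncomputable def lam (v : ZMod p × ZMod p) : ZMod p :=
  open Classical in
  if v.2 = 0 then 3 else if v.1 = 0 then 4 else if v.1 = v.2 then 5 else 6

/-- small integers are nonzero -/
theorem nz (hp : 7 ≤ p) {k : ℕ} (h0 : 0 < k) (h6 : k ≤ 6) : (k : ZMod p) ≠ 0 := by
  intro h
  rw [ZMod.natCast_eq_zero_iff] at h
  have := Nat.le_of_dvd h0 h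
  omega

theorem lam_cases (v : ZMod p × ZMod p) : lam v = 3 ∨ lam v = 4 ∨ lam v = 5 ∨ lam v = 6 := by
  unfold lam
  split_ifs
  · exact Or.inl rfl
  · exact Or.inr (Or.inl rfl)
  · exact Or.inr (Or.inr (Or.inl rfl))
  · exact Or.inr (Or.inr (Or.inr rfl))

theorem n1 (hp : 7 ≤ p) : (1 : ZMod p) ≠ 0 := by exact_mod_cast nz hp (k := 1) (by norm_num) (by norm_num)
theorem n2 (hp : 7 ≤ p) : (2 : ZMod p) ≠ 0 := by simpa using nz hp (k := 2) (by norm_num) (by norm_num)
theorem n3 (hp : 7 ≤ p) : (3 : ZMod p) ≠ 0 := by simpa using nz hp (k := 3) (by norm_num) (by norm_num)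
theorem n4 (hp : 7 ≤ p) : (4 : ZMod p) ≠ 0 := by simpa using nz hp (k := 4) (by norm_num) (by norm_num)
theorem n5 (hp : 7 ≤ p) : (5 : ZMod p) ≠ 0 := by simpa using nz hp (k := 5) (by norm_num) (by norm_num)
theorem n6 (hp : 7 ≤ p) : (6 : ZMod p) ≠ 0 := by simpa using nz hp (k := 6) (by norm_num) (by norm_num)

theorem lam_ne (hp : 7 ≤ p) (v : ZMod p × ZMod p) : lam v ≠ 0 ∧ lam v ≠ 1 ∧ lam v ≠ 2 := by
  have h1 := n1 hp
  have h2 := n2 hp
  have h3 := n3 hp
  have h4 := n4 hp
  have h5 := n5 hp
  have h6 := n6 hp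
  rcases lam_cases v with h | h | h | h <;> rw [h]
  · refine ⟨h3, fun e => h2 ?_, fun e => h1 ?_⟩ <;> linear_combination e
  · refine ⟨h4, fun e => h3 ?_, fun e => h2 ?_⟩ <;> linear_combination e
  · refine ⟨h5, fun e => h4 ?_, fun e => h3 ?_⟩ <;> linear_combination e
  · refine ⟨h6, fun e => h5 ?_, fun e => h4 ?_⟩ <;> linear_combination e

theorem lam_smul {s : ZMod p} (hs : s ≠ 0) (v : ZMod p × ZMod p) : lam (s • v) = lam v := by
  unfold lam
  have h1 : (s • v).2 = 0 ↔ v.2 = 0 := by simp [hs]
  have h2 : (s • v).1 = 0 ↔ v.1 = 0 := by simp [hs]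
  have h3 : (s • v).1 = (s • v).2 ↔ v.1 = v.2 := by
    simp [hs]
  simp only [h1, h2, h3]

/-- the orthomorphism -/
noncomputable def F (v : ZMod p × ZMod p) : ZMod p × ZMod p := lam v • v

theorem F_smul (s : ZMod p) (v : ZMod p × ZMod p) : F (s • v) = s • F v := by
  by_cases hs : s = 0
  · subst hs
    simp [F]
  · rw [F, F, lam_smul hs, smul_comm]

theorem F_smul' (s : ZMod p) (v : ZMod p × ZMod p) : F (s • v) = (s * lam v) • v := by
  rw [F_smul, F, smul_smul]

theorem inj_mul (hp : 7 ≤ p) (d : ZMod p) (hd : ∀ v : ZMod p × ZMod p, lam v - d ≠ 0) :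
    Function.Injective (fun v : ZMod p × ZMod p => (lam v - d) • v) := by
  intro v w h
  simp only at h
  have hv := hd v
  have hw := hd w
  have h1 : lam v = lam w := by
    rw [← lam_smul hv v, h, lam_smul hw]
  rw [h1] at h
  exact smul_right_injective _ hw h

/-- A subset of `F_p` closed under `(1-c) s + c t`, containing `0` and `1`, is everything. -/
theorem closed_all {c : ZMod p} (hc0 : c ≠ 0) (hc1 : c ≠ 1) (T : Set (ZMod p)) (h0 : 0 ∈ T)
    (h1 : 1 ∈ T) (h : ∀ s ∈ T, ∀ t ∈ T, s + c * (t - s) ∈ T) (t : ZMod p) : t ∈ T := by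
  have hc1' : 1 - c ≠ 0 := sub_ne_zero.mpr (Ne.symm hc1)
  have hmul : ∀ d : ZMod p, d ≠ 0 → (∀ s ∈ T, d * s ∈ T) → ∀ s ∈ T, ∃ s' ∈ T, d * s' = s := by
    intro d hd hT s hs
    have hfin : T.Finite := Set.toFinite T
    have hsurj := (Set.Finite.injOn_iff_bijOn_of_mapsTo hfin (f := fun x => d * x) hT).mp
      (fun a _ b _ hab => mul_left_cancel₀ hd hab)
    obtain ⟨s', hs', he⟩ := hsurj.surjOn hs
    exact ⟨s', hs', he⟩
  have hA := hmul c hc0 (fun s hs => by simpa using h 0 h0 s hs)
  have hB := hmul (1 - c) hc1' (fun s hs => by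
    have := h s hs 0 h0
    have e : s + c * (0 - s) = (1 - c) * s := by ring
    rwa [e] at this)
  have hadd : ∀ a ∈ T, ∀ b ∈ T, a + b ∈ T := by
    intro a ha b hb
    obtain ⟨s, hs, rfl⟩ := hB a ha
    obtain ⟨t, ht, rfl⟩ := hA b hb
    have e : (1 - c) * s + c * t = s + c * (t - s) := by ring
    rw [e]
    exact h s hs t ht
  have hnat : ∀ n : ℕ, (n : ZMod p) ∈ T := by
    intro n
    induction n with
    | zero => simpa using h0
    | succ n ih =>
      push_cast
      exact hadd _ ih _ h1
  have := hnat t.val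
  rwa [ZMod.natCast_zmod_val] at this

/-- additive maps on `F_p` -/
theorem add_lin {A : Type*} [AddCommGroup A] [Module (ZMod p) A] (g : ZMod p → A)
    (hg : ∀ a b, g (a + b) = g a + g b) (t : ZMod p) : g t = t • g 1 := by
  have h0 : g 0 = 0 := by
    have := hg 0 0
    rw [add_zero] at this
    exact left_eq_add.mp this
  have hnat : ∀ n : ℕ, g (n : ZMod p) = (n : ZMod p) • g 1 := by
    intro n
    induction n with
    | zero => simp [h0]
    | succ n ih =>
      push_cast
      rw [hg, ih, add_smul, one_smul]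
  have := hnat t.val
  rwa [ZMod.natCast_zmod_val] at this

/-- an automorphism is affine on lines -/
theorem line (hp : 7 ≤ p) (α : Equiv.Perm (ZMod p × ZMod p))
    (hα : ∀ x y, α (x + F (y - x)) = α x + F (α y - α x)) (x v : ZMod p × ZMod p) (hv : v ≠ 0)
    (t : ZMod p) : α (x + t • v) = α x + t • (α (x + v) - α x) ∧
      lam (α (x + v) - α x) = lam v := by
  obtain ⟨w, hw⟩ : ∃ w, w = α (x + v) - α x := ⟨_, rfl⟩
  have hw0 : w ≠ 0 := by
    rw [hw, sub_ne_zero]
    intro h
    apply hv
    have := α.injective h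
    simpa using this
  rw [← hw]
  obtain ⟨hc0, hc1, -⟩ := lam_ne hp v
  have hstep : ∀ s t : ZMod p, α (x + (s + lam v * (t - s)) • v) - α x =
      (α (x + s • v) - α x) + F ((α (x + t • v) - α x) - (α (x + s • v) - α x)) := by
    intro s t
    have e1 : x + (s + lam v * (t - s)) • v = (x + s • v) + F ((x + t • v) - (x + s • v)) := by
      have e2 : (x + t • v) - (x + s • v) = (t - s) • v := by
        rw [sub_smul]
        abel
      rw [e2, F_smul', add_smul, mul_comm, add_assoc]
    rw [e1, hα]
    have e3 : (α (x + t • v) - α x) - (α (x + s • v) - α x) = α (x + t • v) - α (x + s • v) := by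
      abel
    rw [e3]
    abel
  have hall := closed_all hc0 hc1 {t | ∃ φ : ZMod p, α (x + t • v) - α x = φ • w}
    ⟨0, by simp⟩ ⟨1, by rw [one_smul, one_smul, hw]⟩ (by
      rintro s ⟨φ, h1⟩ t ⟨ψ, h2⟩
      refine ⟨φ + (ψ - φ) * lam w, ?_⟩
      rw [hstep, h1, h2, ← sub_smul, F_smul', add_smul])
  choose φ hφ using hall
  have hinj : ∀ a b : ZMod p, a • w = b • w → a = b := by
    intro a b h
    by_contra hab
    have h1 : (a - b) • w = 0 := by rw [sub_smul, h, sub_self]
    rcases smul_eq_zero.mp h1 with h2 | h2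
    · exact hab (sub_eq_zero.mp h2)
    · exact hw0 h2
  have hrec : ∀ s t : ZMod p, φ (s + lam v * (t - s)) = φ s + (φ t - φ s) * lam w := by
    intro s t
    apply hinj
    rw [← hφ, hstep, hφ, hφ, ← sub_smul, F_smul', add_smul]
  have h0 : φ 0 = 0 := by
    apply hinj
    rw [← hφ]
    simp
  have h1 : φ 1 = 1 := by
    apply hinj
    rw [← hφ, one_smul, one_smul, hw]
  have hA : ∀ t, φ (lam v * t) = lam w * φ t := by
    intro t
    have := hrec 0 t
    rw [h0] at this
    simp only [zero_add, sub_zero] at this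
    rw [this, mul_comm]
  have hB : ∀ s, φ ((1 - lam v) * s) = (1 - lam w) * φ s := by
    intro s
    have := hrec s 0
    rw [h0] at this
    have e : s + lam v * (0 - s) = (1 - lam v) * s := by ring
    rw [e] at this
    rw [this]
    ring
  have hc1' : 1 - lam v ≠ 0 := sub_ne_zero.mpr (Ne.symm hc1)
  have hadd : ∀ a b, φ (a + b) = φ a + φ b := by
    intro a b
    have ea : (1 - lam v) * ((1 - lam v)⁻¹ * a) = a := by field_simp
    have eb : lam v * ((lam v)⁻¹ * b) = b := by field_simp
    have e := hrec ((1 - lam v)⁻¹ * a) ((lam v)⁻¹ * b)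
    have e1 := hB ((1 - lam v)⁻¹ * a)
    have e2 := hA ((lam v)⁻¹ * b)
    rw [ea] at e1
    rw [eb] at e2
    have e3 : (1 - lam v)⁻¹ * a + lam v * ((lam v)⁻¹ * b - (1 - lam v)⁻¹ * a) = a + b := by
      calc _ = (1 - lam v) * ((1 - lam v)⁻¹ * a) + lam v * ((lam v)⁻¹ * b) := by ring
        _ = a + b := by rw [ea, eb]
    rw [e3] at e
    rw [e, e1, e2]
    ring
  have hid : ∀ t, φ t = t := by
    intro t
    rw [add_lin φ hadd t, h1, smul_eq_mul, mul_one]
  constructor
  · have := hφ t
    rw [hid] at this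
    rw [← this]
    abel
  · have := hA 1
    rw [hid, h1, mul_one, mul_one] at this
    exact this.symm

theorem amodel (hp : 7 ≤ p) {c : ZMod p} (hc : ∀ a : ZMod p, a ≠ 0 → ∃ k : ℕ, a = c ^ k) :
    AModel (V := ZMod p × ZMod p) (fun v => c • v) F := by
  have h1 := n1 hp
  have h2 := n2 hp
  have h3 := n3 hp
  refine ⟨?_, ?_, ?_, ?_, ?_, ?_, ?_⟩
  · apply Function.Injective.bijective_of_finite
    have := inj_mul hp 0 (fun v => by rw [sub_zero]; exact (lam_ne hp v).1)
    simp only [sub_zero] at this
    exact this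
  · apply Function.Injective.bijective_of_finite
    have := inj_mul hp 1 (fun v => sub_ne_zero.mpr (lam_ne hp v).2.1)
    simp only [sub_smul, one_smul] at this
    exact this
  · intro x
    exact F_smul c x
  · rw [F, smul_zero]
  · intro α hα h0
    have hsm : ∀ (t : ZMod p) (v : ZMod p × ZMod p), α (t • v) = t • α v := by
      intro t v
      by_cases hv : v = 0
      · rw [hv, smul_zero, h0, smul_zero]
      · have := (line hp α hα 0 v hv t).1
        rwa [h0, zero_add, zero_add, zero_add, sub_zero] at this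
    have hlam : ∀ v : ZMod p × ZMod p, v ≠ 0 → lam (α v) = lam v := by
      intro v hv
      have := (line hp α hα 0 v hv 1).2
      rwa [h0, zero_add, sub_zero] at this
    have hadd : ∀ x y : ZMod p × ZMod p, α (x + y) = α x + α y := by
      intro x y
      by_cases hxy : y = x
      · have := hsm 2 x
        rw [two_smul, two_smul] at this
        rw [hxy]
        exact this
      · have hv : (2 : ZMod p) • (y - x) ≠ 0 := smul_ne_zero h2 (sub_ne_zero.mpr hxy)
        have h5 := (line hp α hα ((2 : ZMod p) • x) ((2 : ZMod p) • (y - x)) hv (2 : ZMod p)⁻¹).1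
        have e1 : (2 : ZMod p) • x + (2 : ZMod p)⁻¹ • (2 : ZMod p) • (y - x) = x + y := by
          rw [smul_smul, inv_mul_cancel₀ h2, one_smul, two_smul]
          abel
        have e2 : (2 : ZMod p) • x + (2 : ZMod p) • (y - x) = (2 : ZMod p) • y := by
          rw [← smul_add]
          congr 1
          abel
        rw [e1, e2, hsm, hsm, ← smul_sub, smul_smul, inv_mul_cancel₀ h2, one_smul, two_smul] at h5
        rw [h5]
        abel
    have hlin : ∀ x : ZMod p × ZMod p, α x = x.1 • α (1, 0) + x.2 • α (0, 1) := by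
      intro x
      rw [← hsm, ← hsm, ← hadd]
      congr 1
      ext <;> simp
    have l10 : lam (α (1, 0)) = 3 := by
      rw [hlam _ (by simp [h1])]
      simp [lam]
    have l01 : lam (α (0, 1)) = 4 := by
      rw [hlam _ (by simp [h1])]
      simp [lam, h1]
    have l11 : lam (α (1, 1)) = 5 := by
      rw [hlam _ (by simp [h1])]
      simp [lam, h1]
    have d34 : (3 : ZMod p) ≠ 4 := fun e => h1 (by linear_combination -e)
    have d35 : (3 : ZMod p) ≠ 5 := fun e => h2 (by linear_combination -e)
    have d36 : (3 : ZMod p) ≠ 6 := fun e => h3 (by linear_combination -e)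
    have d45 : (4 : ZMod p) ≠ 5 := fun e => h1 (by linear_combination -e)
    have d46 : (4 : ZMod p) ≠ 6 := fun e => h2 (by linear_combination -e)
    have d56 : (5 : ZMod p) ≠ 6 := fun e => h1 (by linear_combination -e)
    have k10 : (α (1, 0)).2 = 0 := by
      unfold lam at l10
      split_ifs at l10 with g1 g2 g3
      · exact g1
      · exact absurd l10.symm d34
      · exact absurd l10.symm d35
      · exact absurd l10.symm d36
    have k01 : (α (0, 1)).1 = 0 := by
      unfold lam at l01
      split_ifs at l01 with g1 g2 g3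
      · exact absurd l01 d34
      · exact g2
      · exact absurd l01.symm d45
      · exact absurd l01.symm d46
    have k11 : (α (1, 1)).1 = (α (1, 1)).2 := by
      unfold lam at l11
      split_ifs at l11 with g1 g2 g3
      · exact absurd l11 d35
      · exact absurd l11 d45
      · exact g3
      · exact absurd l11.symm d56
    have hpt : ((1, 1) : ZMod p × ZMod p) = (1, 0) + (0, 1) := by simp
    rw [hpt, hadd] at k11
    simp only [Prod.fst_add, Prod.snd_add, k01, k10, add_zero, zero_add] at k11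
    have hne : (α (1, 0)).1 ≠ 0 := by
      intro h
      have h5 : α (1, 0) = 0 := Prod.ext h k10
      have h6 : ((1, 0) : ZMod p × ZMod p) = 0 := α.injective (by rw [h5, h0])
      have h7 := congrArg Prod.fst h6
      exact h1 h7
    obtain ⟨k, hk⟩ := hc _ hne
    refine ⟨k, fun x => ?_⟩
    have hR : ∀ (k : ℕ) (x : ZMod p × ZMod p), (fun v => c • v)^[k] x = c ^ k • x := by
      intro k
      induction k with
      | zero => intro x; simp
      | succ k ih =>
        intro x
        rw [Function.iterate_succ_apply, ih, smul_smul, pow_succ]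
    rw [hR, hlin x, ← hk]
    ext
    · simp [k01, mul_comm]
    · simp [k10, ← k11, mul_comm]
  · intro r hr h hh x
    haveI : Fact r.Prime := ⟨hr⟩
    by_cases hx : x = 0
    · rw [hx]
    obtain ⟨hc0, hc1, hc2⟩ := lam_ne hp x
    obtain ⟨g, hg⟩ : ∃ g : ZMod p → ZMod r, g = fun t => h (t • x) - h 0 := ⟨_, rfl⟩
    have hgt : ∀ t, g t = h (t • x) - h 0 := fun t => by rw [hg]
    have hrec : ∀ s t : ZMod p, g (s + lam x * (t - s)) = 2 * g t - g s := by
      intro s t
      have e := hh (s • x) (t • x)
      rw [← sub_smul, F_smul', ← add_smul, mul_comm] at e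
      rw [hgt, hgt, hgt, e]
      ring
    have h00 : g 0 = 0 := by rw [hgt, zero_smul, sub_self]
    have hA : ∀ t, g (lam x * t) = 2 * g t := by
      intro t
      have := hrec 0 t
      rw [h00] at this
      simpa using this
    have hB : ∀ s, g ((1 - lam x) * s) = -g s := by
      intro s
      have := hrec s 0
      rw [h00] at this
      have e : s + lam x * (0 - s) = (1 - lam x) * s := by ring
      rw [e] at this
      rw [this]
      ring
    have hc1' : 1 - lam x ≠ 0 := sub_ne_zero.mpr (Ne.symm hc1)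
    have hadd : ∀ a b, g (a + b) = g a + g b := by
      intro a b
      have ea : (1 - lam x) * ((1 - lam x)⁻¹ * a) = a := by field_simp
      have eb : lam x * ((lam x)⁻¹ * b) = b := by field_simp
      have e := hrec ((1 - lam x)⁻¹ * a) ((lam x)⁻¹ * b)
      have e1 := hB ((1 - lam x)⁻¹ * a)
      have e2 := hA ((lam x)⁻¹ * b)
      rw [ea] at e1
      rw [eb] at e2
      have e3 : (1 - lam x)⁻¹ * a + lam x * ((lam x)⁻¹ * b - (1 - lam x)⁻¹ * a) = a + b := by
        calc _ = (1 - lam x) * ((1 - lam x)⁻¹ * a) + lam x * ((lam x)⁻¹ * b) := by ring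
          _ = a + b := by rw [ea, eb]
      rw [e3] at e
      rw [e, e1, e2]
      ring
    have hz : g 1 = 0 := by
      by_cases hrp : r = p
      · subst hrp
        have e1 := add_lin g hadd (lam x)
        have e2 := hA 1
        rw [mul_one, e1, smul_eq_mul] at e2
        have e3 : (lam x - 2) * g 1 = 0 := by linear_combination e2
        rcases mul_eq_zero.mp e3 with e4 | e4
        · exact absurd (sub_eq_zero.mp e4) hc2
        · exact e4
      · have hnat : ∀ n : ℕ, g (n : ZMod p) = (n : ZMod r) * g 1 := by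
          intro n
          induction n with
          | zero => simp [h00]
          | succ n ih =>
            push_cast
            rw [hadd, ih]
            ring
        have e1 := hnat p
        rw [ZMod.natCast_self, h00] at e1
        rcases mul_eq_zero.mp e1.symm with e4 | e4
        · exfalso
          rw [ZMod.natCast_eq_zero_iff] at e4
          exact hrp ((Nat.prime_dvd_prime_iff_eq hr (Fact.out : p.Prime)).mp e4)
        · exact e4
    rw [hgt, one_smul] at hz
    exact sub_eq_zero.mp hz
  · intro m hm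
    have e := hm 0
    rw [add_zero, F, F, smul_zero, add_zero] at e
    have e2 : (lam m - 2) • m = 0 := by
      rw [sub_smul, e, two_smul, two_smul, sub_self]
    rcases smul_eq_zero.mp e2 with e3 | e3
    · exact absurd (sub_eq_zero.mp e3) (lam_ne hp m).2.2
    · exact e3

end Pm2Prime

section
variable {P : Type v} [Group P] {z : P} {K : Type u} [Group K] [Finite K]
  [MulDistribMulAction P K]

theorem pm2_prime (hz : TwoCyc z) (hinv : ∀ x : K, z • x = x⁻¹)
    (hp : (Nat.card K).Prime) (h7 : 7 ≤ Nat.card K) (hcard : Nat.card K = Nat.card P + 1)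
    (hf : ∀ p : P, (∀ x : K, p • x = x) → p = 1) : WGood P (K × K) := by
  haveI : Fact (Nat.card K).Prime := ⟨hp⟩
  haveI := hz.fin
  haveI := hz.cyclic
  haveI : IsCyclic K := isCyclic_of_prime_card rfl
  obtain ⟨ρ, hρ⟩ := IsCyclic.exists_generator (α := P)
  have hρ' : ∀ q : P, ∃ k : ℕ, q = ρ ^ k := by
    intro q
    obtain ⟨k, hk⟩ := mem_powers_iff_mem_zpowers.mpr (hρ q)
    exact ⟨k, hk.symm⟩
  obtain ⟨e0, he0⟩ : ∃ e0 : K ≃ ZMod (Nat.card K), ∀ x y, e0 (x * y) = e0 x + e0 y := by
    refine ⟨((zmodCyclicMulEquiv (G := K) inferInstance).symm.toEquiv).trans Multiplicative.toAdd,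
      fun x y => ?_⟩
    simp
  -- the character
  obtain ⟨u, hu⟩ : ∃ u : P → ZMod (Nat.card K), ∀ q, u q = e0 (q • e0.symm 1) := ⟨_, fun q => rfl⟩
  have hsm : ∀ (q : P) (x : K), e0 (q • x) = u q * e0 x := by
    intro q x
    have h1 := Pm2Prime.add_lin (fun t => e0 (q • e0.symm t)) (by
      intro a b
      have h2 : e0.symm (a + b) = e0.symm a * e0.symm b := by
        apply e0.injective
        rw [he0]
        simp
      simp only [h2, smul_mul', he0]) (e0 x)
    simp only [Equiv.symm_apply_apply] at h1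
    rw [h1, ← hu, smul_eq_mul, mul_comm]
  have hs1 : e0 (e0.symm 1) = 1 := e0.apply_symm_apply 1
  have u1 : u 1 = 1 := by rw [hu, one_smul, hs1]
  have umul : ∀ q q', u (q * q') = u q * u q' := by
    intro q q'
    rw [hu (q * q'), mul_smul, hsm, ← hu]
  let U : P →* (ZMod (Nat.card K))ˣ := MonoidHom.toHomUnits
    { toFun := u, map_one' := u1, map_mul' := umul }
  have hU : ∀ q, ((U q : (ZMod (Nat.card K))ˣ) : ZMod (Nat.card K)) = u q := fun q => rfl
  have hUinj : Function.Injective U := by
    rw [injective_iff_map_eq_one]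
    intro q hq
    apply hf
    intro x
    apply e0.injective
    rw [hsm, ← hU, hq, Units.val_one, one_mul]
  have hcardU : Nat.card (ZMod (Nat.card K))ˣ ≤ Nat.card P := by
    rw [Nat.card_eq_fintype_card, ZMod.card_units_eq_totient, Nat.totient_prime hp]
    omega
  have hUsurj := (hUinj.bijective_of_nat_card_le hcardU).2
  have hc : ∀ a : ZMod (Nat.card K), a ≠ 0 → ∃ k : ℕ, a = (u ρ) ^ k := by
    intro a ha
    obtain ⟨q, hq⟩ := hUsurj (Units.mk0 a ha)
    obtain ⟨k, rfl⟩ := hρ' q
    refine ⟨k, ?_⟩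
    rw [← hU, ← Units.val_pow_eq_pow_val, ← map_pow, hq, Units.val_mk0]
  have hmod := Pm2Prime.amodel h7 hc
  refine wgood_of_amodel ρ hρ' (N := K × K) (e0.prodCongr e0) ?_ (R := fun v => u ρ • v) ?_ hmod
  · intro x y
    ext <;> simp [he0]
  · intro x
    ext <;> simp [hsm]

end

end Pool.Agent.Lib_MP_8306f4_co.CaseB
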