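import Pool.Agent.Lib_MP_8306f4_co.CaseB.Defs
import Pool.Agent.Lib_MP_8306f4_co.CaseB.GBasics
import Pool.Agent.Lib_MP_8306f4_co.CaseB.GInv

/-!
# MP_8306f4_co, case B: common facts for the pieces PmTrans, PmBig, PmPrime

`P` acts on a finite abelian group `V` (written additively) without proper invariant subgroups.
-/

universe u v w

namespace Pool.Agent.Lib_MP_8306f4_co.CaseB.PmAux

open Pool.Agent.Lib_MP_8306f4_co Pool.Agent.Lib_MP_8306f4_co.CaseB

/-- `AModel` without the last condition. -/
structure BModel {V : Type u} [AddCommGroup V] (R F : V → V) : Prop where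
  bij : Function.Bijective F
  bij' : Function.Bijective (fun x => F x - x)
  comm : ∀ x, F (R x) = R (F x)
  zero : F 0 = 0
  rig : ∀ α : Equiv.Perm V, (∀ x y, α (x + F (y - x)) = α x + F (α y - α x)) → α 0 = 0 →
    ∃ k : ℕ, ∀ x, α x = R^[k] x
  hom : ∀ r : ℕ, r.Prime → ∀ h : V → ZMod r, (∀ x y, h (x + F (y - x)) = 2 * h y - h x) →
    ∀ x, h x = h 0

theorem wgood_of_bmodel {P : Type v} [Group P] (ρ : P) (hρ : ∀ p : P, ∃ k : ℕ, p = ρ ^ k)
    {N : Type u} [Group N] [MulDistribMulAction P N] (hmin : PMin P (⊤ : Subgroup N))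
    {V : Type w} [AddCommGroup V] (e : N ≃ V)
    (hmul : ∀ x y, e (x * y) = e x + e y)
    {R F : V → V} (he : ∀ x, e (ρ • x) = R (e x)) (h : BModel R F) : WGood P N := by
  have hcomm : ∀ x y : N, x * y = y * x := by
    intro x y
    apply e.injective
    rw [hmul, hmul, add_comm]
  have he1 : e 1 = 0 := by
    have := hmul 1 1
    rw [mul_one] at this
    exact (left_eq_add.mp this)
  have hinv : ∀ x, e x⁻¹ = - e x := by
    intro x
    have := hmul x⁻¹ x
    rw [inv_mul_cancel, he1] at this
    exact eq_neg_of_add_eq_zero_left this.symm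
  have hpow : ∀ (k : ℕ) x, e (ρ ^ k • x) = R^[k] (e x) := by
    intro k
    induction k with
    | zero => intro x; simp
    | succ k ih =>
      intro x
      rw [pow_succ, mul_smul, ih, he, Function.iterate_succ_apply]
  have hF : ∀ (k : ℕ) x, F (R^[k] x) = R^[k] (F x) := by
    intro k
    induction k with
    | zero => intro x; rfl
    | succ k ih =>
      intro x
      rw [Function.iterate_succ_apply, ih, h.comm, Function.iterate_succ_apply]
  let f : N → N := fun x => e.symm (F (e x))
  have hf : ∀ x, e (f x) = F (e x) := fun x => e.apply_symm_apply _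
  have hq : ∀ x y, e (qop f x y) = e x + F (e y - e x) := by
    intro x y
    unfold qop
    rw [hmul, hf, hmul, hinv, neg_add_eq_sub]
  refine ⟨f, ⟨⟨?_, ?_⟩, ?_, ?_, ?_, ?_, ?_⟩⟩
  · exact e.symm.bijective.comp (h.bij.comp e.bijective)
  · have : (fun x => x⁻¹ * f x) = e.symm ∘ (fun x => F x - x) ∘ e := by
      funext x
      apply e.injective
      simp only [Function.comp_apply, Equiv.apply_symm_apply]
      rw [hmul, hf, hinv, neg_add_eq_sub]
    rw [this]
    exact e.symm.bijective.comp (h.bij'.comp e.bijective)
  · intro p x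
    obtain ⟨k, rfl⟩ := hρ p
    apply e.injective
    rw [hf, hpow, hpow, hf, hF]
  · apply e.injective
    rw [hf, he1, h.zero]
  · intro α hα hα1
    obtain ⟨k, hk⟩ := h.rig (e.symm.trans (α.trans e)) (by
      intro x y
      simp only [Equiv.trans_apply]
      have := hα (e.symm x) (e.symm y)
      have h2 : qop f (e.symm x) (e.symm y) = e.symm (x + F (y - x)) := by
        apply e.injective
        rw [hq, Equiv.apply_symm_apply, Equiv.apply_symm_apply, Equiv.apply_symm_apply]
      rw [← h2, this, hq]) (by
      simp only [Equiv.trans_apply]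
      rw [← he1, Equiv.symm_apply_apply, hα1])
    refine ⟨ρ ^ k, fun x => ?_⟩
    apply e.injective
    rw [hpow, ← hk]
    simp
  · intro r hr g hg x
    have := h.hom r hr (fun v => g (e.symm v)) (by
      intro x y
      have h1 := hg (e.symm x) (e.symm y)
      have h2 : qop f (e.symm x) (e.symm y) = e.symm (x + F (y - x)) := by
        apply e.injective
        rw [hq, Equiv.apply_symm_apply, Equiv.apply_symm_apply, Equiv.apply_symm_apply]
      rw [← h2, h1, two_nsmul, two_mul]) (e x)
    simp only [Equiv.symm_apply_apply] at this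
    rw [this, ← he1, Equiv.symm_apply_apply]
  · refine ⟨⊤, ?_, fun _ _ => trivial, ?_⟩
    · intro x _
      rw [Subgroup.mem_center_iff]
      intro y
      exact hcomm y x
    · intro k _ hk1 H hH hkH
      rcases hmin.2.2 H hH le_top with h0 | h0
      · rw [h0, Subgroup.mem_bot] at hkH
        exact absurd hkH hk1
      · rw [h0]

/-- Reduction to a finite abelian group written additively. -/
theorem reduce {P : Type v} [Group P] {z : P} (hz : TwoCyc z) {N : Type u} [Group N] [Finite N]
    [MulDistribMulAction P N] (hN : Odd (Nat.card N)) (hinv : ∀ x : N, z • x = x⁻¹)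
    (hmin : PMin P (⊤ : Subgroup N))
    (key : ∀ (V : Type u) [AddCommGroup V] [Finite V] [DistribMulAction P V] [Nontrivial V],
      Nat.card V = Nat.card N → (∀ x : V, z • x = -x) →
      (∀ H : AddSubgroup V, (∀ (p : P) x, x ∈ H → p • x ∈ H) → H = ⊥ ∨ H = ⊤) →
      (∀ (x : V) (p : P), x ≠ 0 → p • x = x → p = 1) → (∀ x : V, x + x = 0 → x = 0) →
      ∀ ρ : P, (∀ p : P, ∃ k : ℕ, p = ρ ^ k) → ∃ F : V → V, BModel (fun x => ρ • x) F) :
    WGood P N := by
  have hcomm := comm_of_inv (P := P) (z := z) hinv
  let _ : CommGroup N := { (inferInstance : Group N) with mul_comm := hcomm }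
  let act : DistribMulAction P (Additive N) :=
    { smul := fun p x => Additive.ofMul (p • x.toMul)
      one_smul := fun x => by
        change Additive.ofMul ((1 : P) • x.toMul) = x
        rw [one_smul]; rfl
      mul_smul := fun p q x => by
        change Additive.ofMul ((p * q) • x.toMul) = Additive.ofMul (p • (q • x.toMul))
        rw [mul_smul]
      smul_zero := fun p => by
        change Additive.ofMul (p • (1 : N)) = 0
        rw [smul_one]; rfl
      smul_add := fun p x y => by
        change Additive.ofMul (p • (x.toMul * y.toMul)) =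
          Additive.ofMul (p • x.toMul * p • y.toMul)
        rw [smul_mul'] }
  have hodd : ∀ x : N, x * x = 1 → x = 1 := by
    intro x hx
    have h1 : orderOf x ∣ 2 := orderOf_dvd_of_pow_eq_one (by rw [pow_two, hx])
    have h2 : orderOf x ∣ Nat.card N := orderOf_dvd_natCard x
    have h3 : orderOf x ∣ 1 := by
      have hc : Nat.Coprime 2 (Nat.card N) := (Nat.coprime_two_left).mpr hN
      have := Nat.dvd_gcd h1 h2
      rwa [hc.gcd_eq_one] at this
    rw [← orderOf_eq_one_iff]
    exact Nat.dvd_one.mp h3
  have hzne : ∀ x : N, x ≠ 1 → z • x ≠ x := by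
    intro x hx h
    rw [hinv] at h
    apply hx
    apply hodd
    have := congrArg (fun y => x * y) h
    simp only [mul_inv_cancel] at this
    exact this.symm
  have hnt : Nontrivial N := by
    by_contra hc
    rw [not_nontrivial_iff_subsingleton] at hc
    exact hmin.1 (Subsingleton.elim _ _)
  have : Finite (Additive N) := ‹Finite N›
  obtain ⟨ρ, hρ'⟩ := hz.cyclic.exists_generator
  have hfin := hz.fin
  have hρ : ∀ p : P, ∃ k : ℕ, p = ρ ^ k := by
    intro p
    have := hρ' p
    rw [← mem_powers_iff_mem_zpowers, Submonoid.mem_powers_iff] at this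
    obtain ⟨k, hk⟩ := this
    exact ⟨k, hk.symm⟩
  obtain ⟨F, hF⟩ := key (Additive N) rfl hinv (by
    intro H hH
    have := hmin.2.2 (AddSubgroup.toSubgroup' H) (fun p x hx => hH p x hx) le_top
    rcases this with h | h
    · left
      rw [eq_bot_iff]
      intro x hx
      have : x.toMul ∈ AddSubgroup.toSubgroup' H := hx
      rw [h, Subgroup.mem_bot] at this
      exact this
    · right
      rw [eq_top_iff]
      intro x _
      have : x.toMul ∈ AddSubgroup.toSubgroup' H := by rw [h]; trivial
      exact this)
    (fun x p hx hp => hz.regular (a := x.toMul) (hzne _ hx) hp)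
    (fun x hx => hodd x.toMul hx) ρ hρ
  exact wgood_of_bmodel ρ hρ hmin (Additive.ofMul) (fun _ _ => rfl) (fun _ => rfl) hF

section affine

variable {V : Type u} [AddCommGroup V]

/-- A permutation preserving an affine operation is additive. -/
theorem add_of_affine (A : V →+ V) (hA : Function.Surjective A)
    (hA1 : Function.Surjective (fun x => x - A x)) (α : V → V) (h0 : α 0 = 0)
    (h : ∀ x y, α (x + A (y - x)) = α x + A (α y - α x)) :
    (∀ x y, α (x + y) = α x + α y) ∧ ∀ x, α (A x) = A (α x) := by
  have h1 : ∀ y, α (A y) = A (α y) := by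
    intro y
    have := h 0 y
    rwa [zero_add, sub_zero, h0, zero_add, sub_zero] at this
  have h2 : ∀ x, α (x - A x) = α x - A (α x) := by
    intro x
    have := h x 0
    rw [zero_sub, map_neg, h0, zero_sub, map_neg] at this
    rw [sub_eq_add_neg, this, sub_eq_add_neg]
  refine ⟨fun x y => ?_, h1⟩
  obtain ⟨u, rfl⟩ := hA1 x
  obtain ⟨w, rfl⟩ := hA y
  have := h u w
  rw [map_sub, map_sub] at this
  have e1 : u + (A w - A u) = (u - A u) + A w := by abel
  have e2 : α u + (A (α w) - A (α u)) = (α u - A (α u)) + A (α w) := by abel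
  rw [e1, e2] at this
  simp only
  rw [this, h2, h1]

end affine

section act

variable {P : Type v} [Group P] {V : Type u} [AddCommGroup V] [DistribMulAction P V]

theorem iter_smul (ρ : P) (k : ℕ) (x : V) : (fun x : V => ρ • x)^[k] x = ρ ^ k • x := by
  induction k generalizing x with
  | zero => simp
  | succ k ih => rw [Function.iterate_succ_apply, ih, pow_succ, mul_smul]

/-- An additive map commuting with `P` which agrees with `p` at a nonzero element. -/
theorem eq_smul_of_add (hPc : ∀ p q : P, p * q = q * p)
    (hmin : ∀ H : AddSubgroup V, (∀ (p : P) x, x ∈ H → p • x ∈ H) → H = ⊥ ∨ H = ⊤)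
    (α : V → V) (hadd : ∀ x y, α (x + y) = α x + α y) (hc : ∀ (p : P) x, α (p • x) = p • α x)
    {a : V} (ha : a ≠ 0) {p : P} (hp : α a = p • a) : ∀ x, α x = p • x := by
  have h0 : α 0 = 0 := by
    have := hadd 0 0
    rw [add_zero] at this
    exact left_eq_add.mp this
  have hneg : ∀ x, α (-x) = - α x := by
    intro x
    have := hadd (-x) x
    rw [neg_add_cancel, h0] at this
    exact eq_neg_of_add_eq_zero_left this.symm
  let H : AddSubgroup V :=
    { carrier := {x | α x = p • x}
      zero_mem' := by
        change α 0 = p • (0 : V)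
        rw [h0, smul_zero]
      add_mem' := by
        intro x y hx hy
        change α (x + y) = p • (x + y)
        rw [hadd, hx, hy, smul_add]
      neg_mem' := by
        intro x hx
        change α (-x) = p • (-x)
        rw [hneg, hx, smul_neg] }
  rcases hmin H (by
    intro q x hx
    change α (q • x) = p • (q • x)
    rw [hc, show α x = p • x from hx, ← mul_smul, ← mul_smul, hPc]) with h | h
  · exfalso
    have : a ∈ H := hp
    rw [h, AddSubgroup.mem_bot] at this
    exact ha this
  · intro x
    have : x ∈ H := by rw [h]; trivial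
    exact this

theorem comm_gen {ρ : P} (hρ : ∀ p : P, ∃ k : ℕ, p = ρ ^ k) (α : V → V)
    (h : ∀ x, α (ρ • x) = ρ • α x) (p : P) (x : V) : α (p • x) = p • α x := by
  obtain ⟨k, rfl⟩ := hρ p
  induction k generalizing x with
  | zero => simp
  | succ k ih => rw [pow_succ, mul_smul, ih, h, mul_smul]

/-- `ρ - 1` is bijective -/
theorem bij_sub [Finite V] (hreg : ∀ (x : V) (p : P), x ≠ 0 → p • x = x → p = 1) {p q : P}
    (hpq : p ≠ q) : Function.Bijective (fun x : V => p • x - q • x) := by
  apply Finite.injective_iff_bijective.mp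
  intro x y hxy
  simp only at hxy
  by_contra hne
  have h1 : x - y ≠ 0 := sub_ne_zero.mpr hne
  have h2 : (q⁻¹ * p) • (x - y) = x - y := by
    rw [mul_smul]
    apply smul_left_cancel q
    rw [smul_inv_smul, smul_sub, smul_sub]
    have : p • x - q • x - (p • y - q • y) = 0 := sub_eq_zero.mpr hxy
    have e : p • x - p • y - (q • x - q • y) = p • x - q • x - (p • y - q • y) := by abel
    rw [this] at e
    exact sub_eq_zero.mp e
  exact hpq (inv_mul_eq_one.mp (hreg _ _ h1 h2)).symm

end act

end Pool.Agent.Lib_MP_8306f4_co.CaseB.PmAux
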