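import Pool.Agent.Lib_MP_8306f4_co.CaseB.Defs
import Pool.Agent.Lib_MP_8306f4_co.CaseB.GBasics
import Pool.Agent.Lib_MP_8306f4_co.CaseB.GInv
import Pool.Agent.Lib_MP_8306f4_co.CaseB.PmAux

/-!
# MP_8306f4_co, case B, piece PmTrans

Notation. x·y = qop f x y = x f(x⁻¹y) on N; lambda_m: y -> m y is always an automorphism of it
(f commutes with nothing needed). 1·y = f(y). If Equi P f, then y -> p•y is an automorphism.
core(A): a∘b = 2b-a. For every x: y -> x·y is bijective (f bijective), for every y: x -> x·y is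
bijective (x⁻¹f(x) bijective). '2 is invertible': all groups N have odd order.

## B12 (PmTrans.lean): pm_trans. f=A, A=ρ or ρ⁻¹ (ρ generator of P), with A-2 injective (A=2 on N for both would give
ρ²=1). Affine quasigroup: α additive commuting with A, α(a)=p•a, so α=p on <A^j a>=N. h additive, h∘(A-2)=0. KS: Am=2m.
-/

universe u v w

namespace Pool.Agent.Lib_MP_8306f4_co.CaseB

open Pool.Agent.Lib_MP_8306f4_co

namespace PmTrans

open PmAux

section

variable {P : Type v} [Group P]

theorem card_le {ρ : P} (hρ : ∀ p : P, ∃ k : ℕ, p = ρ ^ k) {n : ℕ} (hn : 0 < n)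
    (h : ρ ^ n = 1) : Nat.card P ≤ n := by
  have h1 : Nat.card P ≤ Nat.card (Fin n) := by
    apply Nat.card_le_card_of_surjective (fun i : Fin n => ρ ^ (i : ℕ))
    intro p
    obtain ⟨k, rfl⟩ := hρ p
    refine ⟨⟨k % n, Nat.mod_lt _ hn⟩, ?_⟩
    change ρ ^ (k % n) = ρ ^ k
    conv_rhs => rw [← Nat.mod_add_div k n, pow_add, pow_mul, h, one_pow, mul_one]
  simpa using h1

theorem gen_inv {ρ : P} (hρ : ∀ p : P, ∃ k : ℕ, p = ρ ^ k) (p : P) : ∃ k : ℕ, p = ρ⁻¹ ^ k := by
  obtain ⟨k, hk⟩ := hρ p⁻¹
  refine ⟨k, ?_⟩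
  rw [inv_pow, ← hk, inv_inv]

theorem gen_comm {ρ : P} (hρ : ∀ p : P, ∃ k : ℕ, p = ρ ^ k) (p q : P) : p * q = q * p := by
  obtain ⟨k, rfl⟩ := hρ p
  obtain ⟨l, rfl⟩ := hρ q
  rw [← pow_add, ← pow_add, add_comm]

variable {V : Type u} [AddCommGroup V] [DistribMulAction P V]

/-- a nonzero orbit -/
theorem transitive [Finite V] (hcard : Nat.card V = Nat.card P + 1)
    (hreg : ∀ (x : V) (p : P), x ≠ 0 → p • x = x → p = 1) {a x : V} (ha : a ≠ 0) (hx : x ≠ 0) :
    ∃ p : P, x = p • a := by
  classical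
  have hinj : Function.Injective (fun p : P => (⟨p • a, by
      intro h
      rw [smul_eq_zero_iff_eq] at h
      exact ha h⟩ : {x : V // x ≠ 0})) := by
    intro p q hpq
    have h1 : p • a = q • a := congrArg Subtype.val hpq
    have h2 : (q⁻¹ * p) • a = a := by rw [mul_smul, h1, inv_smul_smul]
    exact (inv_mul_eq_one.mp (hreg a _ ha h2)).symm
  have hfV : Fintype V := Fintype.ofFinite V
  have hP : Finite P := Finite.of_injective _ hinj
  have hc : Nat.card {x : V // x ≠ 0} = Nat.card P := by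
    rw [Nat.card_eq_fintype_card, Fintype.card_subtype_compl, Fintype.card_subtype_eq,
      ← Nat.card_eq_fintype_card, hcard]
    omega
  have hb := (Nat.bijective_iff_injective_and_card _).mpr ⟨hinj, hc.symm⟩
  obtain ⟨p, hp⟩ := hb.2 ⟨x, hx⟩
  exact ⟨p, (congrArg Subtype.val hp).symm⟩

/-- multiplication by two as an eigenvalue -/
theorem two_dichotomy {ρ : P} (hρ : ∀ p : P, ∃ k : ℕ, p = ρ ^ k)
    (hmin : ∀ H : AddSubgroup V, (∀ (p : P) x, x ∈ H → p • x ∈ H) → H = ⊥ ∨ H = ⊤) (q : P) :
    (∀ x : V, q • x = x + x → x = 0) ∨ ∀ x : V, q • x = x + x := by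
  let H : AddSubgroup V :=
    { carrier := {x | q • x = x + x}
      zero_mem' := by
        change q • (0 : V) = 0 + 0
        rw [smul_zero, add_zero]
      add_mem' := by
        intro x y hx hy
        change q • (x + y) = x + y + (x + y)
        rw [smul_add, show q • x = x + x from hx, show q • y = y + y from hy]
        abel
      neg_mem' := by
        intro x hx
        change q • (-x) = -x + -x
        rw [smul_neg, show q • x = x + x from hx, neg_add] }
  rcases hmin H (by
    intro p x hx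
    change q • (p • x) = p • x + p • x
    rw [← mul_smul, gen_comm hρ, mul_smul, show q • x = x + x from hx, smul_add]) with h | h
  · left
    intro x hx
    have : x ∈ H := hx
    rwa [h, AddSubgroup.mem_bot] at this
  · right
    intro x
    have : x ∈ H := by rw [h]; trivial
    exact this

/-- the powers of the generator -/
theorem facts {z ρ : P} (h4 : 4 ≤ Nat.card P) (hρ : ∀ p : P, ∃ k : ℕ, p = ρ ^ k)
    (hz : z * z = 1) : ρ ≠ 1 ∧ ρ * ρ ≠ 1 ∧ ρ ≠ z := by
  refine ⟨?_, ?_, ?_⟩
  · intro h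
    have := card_le hρ (n := 1) one_pos (by rw [h, one_pow])
    omega
  · intro h
    have := card_le hρ (n := 2) two_pos (by rw [pow_two, h])
    omega
  · intro h
    have := card_le hρ (n := 2) two_pos (by rw [pow_two, h, hz])
    omega

theorem exists_A [Nontrivial V] {z ρ : P} (h4 : 4 ≤ Nat.card P)
    (hρ : ∀ p : P, ∃ k : ℕ, p = ρ ^ k) (hz : z * z = 1) (hinv : ∀ x : V, z • x = -x)
    (hmin : ∀ H : AddSubgroup V, (∀ (p : P) x, x ∈ H → p • x ∈ H) → H = ⊥ ∨ H = ⊤)
    (hreg : ∀ (x : V) (p : P), x ≠ 0 → p • x = x → p = 1) :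
    ∃ A : P, A ≠ 1 ∧ (∀ p : P, ∃ k : ℕ, p = A ^ k) ∧ ∀ x : V, A • x = x + x → x = 0 := by
  obtain ⟨h1, h2, h3⟩ := facts h4 hρ hz
  rcases two_dichotomy hρ hmin ρ with h | h
  · exact ⟨ρ, h1, hρ, h⟩
  · rcases two_dichotomy hρ hmin ρ⁻¹ with h' | h'
    · exact ⟨ρ⁻¹, fun e => h1 (inv_eq_one.mp e), gen_inv hρ, h'⟩
    · exfalso
      obtain ⟨x, hx⟩ := exists_ne (0 : V)
      have e1 : x = x + x + (x + x) := by
        conv_lhs => rw [← smul_inv_smul ρ x, h', smul_add, h]
      have e2 : x + x + x = 0 := by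
        have : x + 0 = x + (x + x + x) := by
          rw [add_zero]
          conv_lhs => rw [e1]
          abel
        exact (add_left_cancel this).symm
      have e3 : ρ • x = -x := by
        rw [h]
        exact eq_neg_of_add_eq_zero_left e2
      have e4 : (z⁻¹ * ρ) • x = x := by
        rw [mul_smul, e3, ← hinv, inv_smul_smul]
      exact h3 (inv_mul_eq_one.mp (hreg x _ hx e4)).symm

end

end PmTrans

section
variable {P : Type v} [Group P] {z : P} {N : Type u} [Group N] [Finite N]
  [MulDistribMulAction P N]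

open PmAux PmTrans in
theorem pm_trans (hz : TwoCyc z) (h4 : 4 ≤ Nat.card P) (hN : Odd (Nat.card N))
    (hinv : ∀ x : N, z • x = x⁻¹)
    (hmin : PMin P (⊤ : Subgroup N)) (hcard : Nat.card N = Nat.card P + 1) : WGood P N := by
  apply reduce hz hN hinv hmin
  intro V _ _ _ _ hVN hinv hmin hreg h2 ρ hρ
  have hPV : Nat.card V = Nat.card P + 1 := hVN.trans hcard
  obtain ⟨A, hA1, hAρ, hA2⟩ := exists_A h4 hρ hz.sq hinv hmin hreg
  have hsub := bij_sub hreg (Ne.symm hA1)
  have hsub' := bij_sub hreg hA1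
  simp only [one_smul] at hsub hsub'
  refine ⟨fun x => A • x, ⟨MulAction.bijective A, hsub', ?_, smul_zero A, ?_, ?_⟩⟩
  · intro x
    rw [← mul_smul, ← mul_smul, gen_comm hρ]
  · intro α hα h0
    obtain ⟨hadd, hc⟩ := add_of_affine (DistribSMul.toAddMonoidHom V A)
      (MulAction.bijective A).2 hsub.2 α h0 hα
    obtain ⟨a, ha⟩ := exists_ne (0 : V)
    have hαa : α a ≠ 0 := by
      intro h
      rw [← h0] at h
      exact ha (α.injective h)
    obtain ⟨p, hp⟩ := transitive hPV hreg ha hαa
    have := eq_smul_of_add (gen_comm hρ) hmin α hadd (comm_gen hAρ α hc) ha hp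
    obtain ⟨k, rfl⟩ := hρ p
    refine ⟨k, fun x => ?_⟩
    rw [iter_smul, this]
  · intro r hr h hh x
    have g1 : ∀ y, h (A • y) - h 0 = 2 * (h y - h 0) := by
      intro y
      have := hh 0 y
      simp only [zero_add, sub_zero] at this
      rw [this]; ring
    have g2 : ∀ x, h (x - A • x) - h 0 = -(h x - h 0) := by
      intro x
      have := hh x 0
      simp only [zero_sub, smul_neg] at this
      rw [← sub_eq_add_neg] at this
      rw [this]; ring
    have gadd : ∀ x y, h (x + y) - h 0 = (h x - h 0) + (h y - h 0) := by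
      intro x y
      obtain ⟨u, rfl⟩ := hsub.2 x
      obtain ⟨w, rfl⟩ := (MulAction.bijective A).2 y
      have := hh u w
      have e1 : u + A • (w - u) = u - A • u + A • w := by rw [smul_sub]; abel
      rw [e1] at this
      simp only
      rw [this, g1, g2]; ring
    have hsurj : Function.Surjective (fun x : V => A • x - (x + x)) := by
      apply (Finite.injective_iff_surjective).mp
      intro x y hxy
      simp only at hxy
      have : A • (x - y) = (x - y) + (x - y) := by
        rw [smul_sub]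
        have e : A • x - A • y = (A • x - (x + x)) - (A • y - (y + y)) + ((x + x) - (y + y)) := by
          abel
        rw [e, hxy]; abel
      exact sub_eq_zero.mp (hA2 _ this)
    obtain ⟨u, rfl⟩ := hsurj x
    have e1 := gadd (A • u - (u + u)) (u + u)
    rw [sub_add_cancel, g1, gadd u u] at e1
    simp only
    linear_combination -e1

end

end Pool.Agent.Lib_MP_8306f4_co.CaseB
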