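import Pool.Agent.Lib_MP_8306f4_co.CaseB.Defs
import Pool.Agent.Lib_MP_8306f4_co.CaseB.GBasics
import Pool.Agent.Lib_MP_8306f4_co.CaseB.GInv
import Pool.Agent.Lib_MP_8306f4_co.CaseB.HomSolv
import Pool.Agent.Lib_MP_8306f4_co.CaseB.PmTrans

/-!
# MP_8306f4_co, case B, piece PmBig

Notation. x·y = qop f x y = x f(x⁻¹y) on N; lambda_m: y -> m y is always an automorphism of it
(f commutes with nothing needed). 1·y = f(y). If Equi P f, then y -> p•y is an automorphism.
core(A): a∘b = 2b-a. For every x: y -> x·y is bijective (f bijective), for every y: x -> x·y is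
bijective (x⁻¹f(x) bijective). '2 is invertible': all groups N have odd order.

## B13 (PmBig.lean): pm_big. T=P•a. f=ρx off T, ρ⁻¹x on T. For y≠0: #{z : 0·(y·z)≠(0·y)·(0·z)} ≤ 3|T| if y∉T and ≥|N|-4|T|>3|T|
if y∈T (difference = (1-ρ)ρ⁻¹(ρ²-1)y≠0 outside the exceptional z: z-y∈T, y+ρ(z-y)∈T, z∈T, ρz-ρ⁻¹y∈T). So α(T)=T and
α preserves y-x∈T. x∘y:=x+ρ(y-x) is x·y if y-x∉T and the solution of x·w=y if y-x∈T: α preserves ∘: additive, commutes
with ρ, α(a)∈T: α=ρ^j (PMin). homs: D_u h(x)=h(x+u)-h(x): D_{ρu}h=2D_u h (u∉T), D_{ρ⁻¹u}h=2D_u h (u∈T). For u,v,u+v∉T: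
2D_u(x+v)=2D_u(x+ρv): D_u h is invariant under (ρ-1)v for more than |N|/2 elements v, so constant: h additive,
h(ρu)=2h(u) on N\T (generates N) so everywhere; on T h(u)=2h(ρu)=4h(u): 3h=0 on T (generates): r=3 then h∘ρ=-h, ker h is
P-invariant: trivial, N=Z3, impossible. KS f ⊆ {m : f m=2m}, a P-invariant subgroup, =1 or N; N impossible.
-/

universe u v w

namespace Pool.Agent.Lib_MP_8306f4_co.CaseB

open Pool.Agent.Lib_MP_8306f4_co

namespace PmBig

open PmAux PmTrans

section

variable {P : Type v} [Group P] {V : Type u} [AddCommGroup V] [DistribMulAction P V]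

/-- the orbit of `a` -/
def TT (P : Type v) [Group P] {V : Type u} [AddCommGroup V] [DistribMulAction P V] (a : V) :
    Set V := {x | ∃ p : P, x = p • a}

theorem smul_mem {a : V} (p : P) (x : V) : p • x ∈ TT P a ↔ x ∈ TT P a := by
  constructor
  · rintro ⟨q, hq⟩
    exact ⟨p⁻¹ * q, by rw [mul_smul, ← hq, inv_smul_smul]⟩
  · rintro ⟨q, hq⟩
    exact ⟨p * q, by rw [mul_smul, hq]⟩

theorem neg_mem {z : P} (hinv : ∀ x : V, z • x = -x) {a : V} (x : V) :
    -x ∈ TT P a ↔ x ∈ TT P a := by
  rw [← hinv, smul_mem]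

theorem zero_notMem {a : V} (ha : a ≠ 0) : (0 : V) ∉ TT P a := by
  rintro ⟨p, hp⟩
  have : p • a = 0 := hp.symm
  rw [smul_eq_zero_iff_eq] at this
  exact ha this

theorem card_TT [Finite P] (a : V) : (TT P a).ncard ≤ Nat.card P := by
  have : TT P a = Set.range (fun p : P => p • a) := by
    ext x
    constructor
    · rintro ⟨p, hp⟩; exact ⟨p, hp.symm⟩
    · rintro ⟨p, hp⟩; exact ⟨p, hp.symm⟩
  rw [this, ← Set.image_univ]
  refine (Set.ncard_image_le (Set.toFinite _)).trans ?_
  rw [Set.ncard_univ]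

theorem card_pre [Finite P] [Finite V] (a : V) (g : V → V) (hg : Function.Injective g) :
    {x | g x ∈ TT P a}.ncard ≤ Nat.card P :=
  (Set.ncard_le_ncard_of_injOn g (fun x hx => hx) hg.injOn (Set.toFinite _)).trans (card_TT a)

theorem big_sub [Finite V] (H : AddSubgroup V) (S : Set V) (hS : ∀ x ∈ S, x ∈ H)
    (hc : Nat.card V < 2 * S.ncard) : H = ⊤ := by
  by_contra hne
  have h1 : H.index ≠ 1 := fun h => hne (AddSubgroup.index_eq_one.mp h)
  have h2 : Nat.card H * H.index = Nat.card V := H.card_mul_index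
  have h3 : S.ncard ≤ Nat.card H := by
    have : S.ncard ≤ (H : Set V).ncard := Set.ncard_le_ncard hS (Set.toFinite _)
    exact this
  have h4 : H.index ≠ 0 := by
    intro h0
    rw [h0, mul_zero] at h2
    have : 0 < Nat.card V := Nat.card_pos
    omega
  have h5 : 2 ≤ H.index := by omega
  have h6 : Nat.card H * 2 ≤ Nat.card H * H.index := Nat.mul_le_mul_left _ h5
  omega

open scoped Classical in
/-- the orthomorphism -/
noncomputable def FF (ρ : P) (a : V) (x : V) : V := if x ∈ TT P a then ρ⁻¹ • x else ρ • x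

theorem FF_of_mem {ρ : P} {a x : V} (h : x ∈ TT P a) : FF ρ a x = ρ⁻¹ • x := if_pos h

theorem FF_of_not {ρ : P} {a x : V} (h : x ∉ TT P a) : FF ρ a x = ρ • x := if_neg h

theorem FF_mem (ρ : P) (a x : V) : FF ρ a x ∈ TT P a ↔ x ∈ TT P a := by
  by_cases h : x ∈ TT P a
  · rw [FF_of_mem h, smul_mem]
  · rw [FF_of_not h, smul_mem]

theorem FF_inj (ρ : P) (a : V) : Function.Injective (FF ρ a) := by
  intro x y hxy
  have h := FF_mem ρ a x
  rw [hxy, FF_mem] at h
  by_cases hx : x ∈ TT P a
  · rw [FF_of_mem hx, FF_of_mem (h.mpr hx)] at hxy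
    exact smul_left_cancel _ hxy
  · have hy : y ∉ TT P a := fun h' => hx (h.mp h')
    rw [FF_of_not hx, FF_of_not hy] at hxy
    exact smul_left_cancel _ hxy

theorem FF_zero (ρ : P) {a : V} (ha : a ≠ 0) : FF ρ a 0 = 0 := by
  rw [FF_of_not (zero_notMem ha), smul_zero]

theorem FF_smul {ρ : P} (hρ : ∀ p : P, ∃ k : ℕ, p = ρ ^ k) (a : V) (p : P) (x : V) :
    FF ρ a (p • x) = p • FF ρ a x := by
  by_cases hx : x ∈ TT P a
  · rw [FF_of_mem hx, FF_of_mem ((smul_mem p x).mpr hx), ← mul_smul, ← mul_smul, gen_comm hρ]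
  · rw [FF_of_not hx, FF_of_not (fun h => hx ((smul_mem p x).mp h)), ← mul_smul, ← mul_smul,
      gen_comm hρ]

theorem FF_inj' {z ρ : P} (hρ : ∀ p : P, ∃ k : ℕ, p = ρ ^ k) (hinv : ∀ x : V, z • x = -x)
    [Finite V] (hreg : ∀ (x : V) (p : P), x ≠ 0 → p • x = x → p = 1) (hρ1 : ρ ≠ 1) (a : V) :
    Function.Injective (fun x => FF ρ a x - x) := by
  have hD := (bij_sub hreg hρ1).1
  simp only [one_smul] at hD
  classical
  have key : ∀ x, FF ρ a x - x =
      ρ • (if x ∈ TT P a then (z * ρ⁻¹) • x else x) - (if x ∈ TT P a then (z * ρ⁻¹) • x else x) := by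
    intro x
    by_cases hx : x ∈ TT P a
    · rw [FF_of_mem hx, if_pos hx, ← mul_smul, gen_comm hρ ρ, mul_assoc, inv_mul_cancel, mul_one,
        mul_smul, hinv, hinv]
      abel
    · rw [FF_of_not hx, if_neg hx]
  have hmem : ∀ x, (if x ∈ TT P a then (z * ρ⁻¹) • x else x) ∈ TT P a ↔ x ∈ TT P a := by
    intro x
    by_cases hx : x ∈ TT P a
    · rw [if_pos hx, smul_mem]
    · rw [if_neg hx]
  intro x y hxy
  simp only [key] at hxy
  have h1 := hD hxy
  have h2 := hmem x
  rw [h1, hmem] at h2
  by_cases hx : x ∈ TT P a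
  · rw [if_pos hx, if_pos (h2.mpr hx)] at h1
    exact smul_left_cancel _ h1
  · rw [if_neg hx, if_neg (fun h => hx (h2.mp h))] at h1
    exact h1

/-- the defect set -/
def BB (F : V → V) (y : V) : Set V := {w | F (y + F (w - y)) ≠ F y + F (F w - F y)}

theorem BB_iff (F : V → V) (α : Equiv.Perm V) (h0 : α 0 = 0)
    (hα : ∀ x y, α (x + F (y - x)) = α x + F (α y - α x)) (y u : V) :
    α u ∈ BB F (α y) ↔ u ∈ BB F y := by
  have h1 : ∀ w, α (F w) = F (α w) := by
    intro w
    have := hα 0 w
    rwa [zero_add, sub_zero, h0, zero_add, sub_zero] at this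
  have e1 : α (F (y + F (u - y))) = F (α y + F (α u - α y)) := by rw [h1, hα]
  have e2 : α (F y + F (F u - F y)) = F (α y) + F (F (α u) - F (α y)) := by
    rw [hα, h1, h1]
  change (F (α y + F (α u - α y)) ≠ F (α y) + F (F (α u) - F (α y))) ↔
    (F (y + F (u - y)) ≠ F y + F (F u - F y))
  rw [← e1, ← e2, ne_eq, ne_eq, α.injective.eq_iff]

theorem BB_card (F : V → V) (α : Equiv.Perm V) (h0 : α 0 = 0)
    (hα : ∀ x y, α (x + F (y - x)) = α x + F (α y - α x)) (y : V) :
    (BB F (α y)).ncard = (BB F y).ncard := by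
  have h2 : BB F (α y) = α '' BB F y := by
    ext w
    constructor
    · intro hw
      refine ⟨α.symm w, ?_, α.apply_symm_apply w⟩
      rw [← BB_iff F α h0 hα, α.apply_symm_apply]
      exact hw
    · rintro ⟨u, hu, rfl⟩
      exact (BB_iff F α h0 hα y u).mpr hu
  rw [h2, Set.ncard_image_of_injective _ α.injective]

/-- few defects off the orbit -/
theorem BB_not [Finite P] [Finite V] {ρ : P} (a : V) {y : V} (hy : y ∉ TT P a) :
    (BB (FF ρ a) y).ncard ≤ 3 * Nat.card P := by
  have hsub : BB (FF ρ a) y ⊆ {w | w - y ∈ TT P a} ∪ {w | y + ρ • (w - y) ∈ TT P a} ∪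
      {w | w ∈ TT P a} := by
    intro w hw
    by_contra hcon
    simp only [Set.mem_union, Set.mem_ofPred_eq, not_or] at hcon
    obtain ⟨⟨c1, c2⟩, c3⟩ := hcon
    apply hw
    rw [FF_of_not c1, FF_of_not c2, FF_of_not hy, FF_of_not c3]
    have c4 : ρ • w - ρ • y ∉ TT P a := by
      rw [← smul_sub, smul_mem]; exact c1
    rw [FF_of_not c4, smul_add, smul_sub ρ w y]
  have h1 : {w | w - y ∈ TT P a}.ncard ≤ Nat.card P :=
    card_pre a (fun w => w - y) (sub_left_injective)
  have h2 : {w | y + ρ • (w - y) ∈ TT P a}.ncard ≤ Nat.card P :=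
    card_pre a (fun w => y + ρ • (w - y)) (fun u w h =>
      sub_left_injective (smul_left_cancel ρ (add_left_cancel h)))
  have h3 : {w | w ∈ TT P a}.ncard ≤ Nat.card P := card_TT a
  have h4 := Set.ncard_le_ncard hsub (Set.toFinite _)
  have h5 := Set.ncard_union_le ({w | w - y ∈ TT P a} ∪ {w | y + ρ • (w - y) ∈ TT P a})
    {w | w ∈ TT P a}
  have h6 := Set.ncard_union_le {w | w - y ∈ TT P a} {w | y + ρ • (w - y) ∈ TT P a}
  omega

/-- many defects on the orbit -/
theorem BB_mem [Finite P] [Finite V] {ρ : P} (hρ1 : ρ ≠ 1) (hρ2 : ρ * ρ ≠ 1)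
    (hreg : ∀ (x : V) (p : P), x ≠ 0 → p • x = x → p = 1)
    (hcard : 7 * Nat.card P < Nat.card V) {a : V} (ha : a ≠ 0) {y : V} (hy : y ∈ TT P a) :
    3 * Nat.card P < (BB (FF ρ a) y).ncard := by
  have hy0 : y ≠ 0 := by
    rintro rfl
    exact zero_notMem ha hy
  have hsub : (BB (FF ρ a) y)ᶜ ⊆ {w | w - y ∈ TT P a} ∪ {w | y + ρ • (w - y) ∈ TT P a} ∪
      {w | w ∈ TT P a} ∪ {w | ρ • w - ρ⁻¹ • y ∈ TT P a} := by
    intro w hw
    by_contra hcon
    simp only [Set.mem_union, Set.mem_ofPred_eq, not_or] at hcon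
    obtain ⟨⟨⟨c1, c2⟩, c3⟩, c4⟩ := hcon
    apply hw
    intro he
    rw [FF_of_not c1, FF_of_not c2, FF_of_mem hy, FF_of_not c3, FF_of_not c4] at he
    have e1 : (ρ * ρ) • (ρ⁻¹ • y - y) = ρ⁻¹ • y - y := by
      have e2 : ρ • (y + ρ • (w - y)) - (ρ⁻¹ • y + ρ • (ρ • w - ρ⁻¹ • y)) = 0 := sub_eq_zero.mpr he
      have e3 : ρ • (ρ⁻¹ • y) = y := smul_inv_smul ρ y
      rw [smul_add, smul_sub, smul_sub, smul_sub, e3] at e2
      rw [mul_smul, smul_sub, smul_sub, e3]
      have e4 : ρ • y - ρ • ρ • y - (ρ⁻¹ • y - y) =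
        ρ • y + (ρ • ρ • w - ρ • ρ • y) - (ρ⁻¹ • y + (ρ • ρ • w - y)) := by abel
      rw [e2] at e4
      exact sub_eq_zero.mp e4
    have e5 : ρ⁻¹ • y - y ≠ 0 := by
      intro h
      have := hreg y ρ⁻¹ hy0 (sub_eq_zero.mp h)
      exact hρ1 (inv_eq_one.mp this)
    exact hρ2 (hreg _ _ e5 e1)
  have h1 : {w | w - y ∈ TT P a}.ncard ≤ Nat.card P :=
    card_pre a (fun w => w - y) (sub_left_injective)
  have h2 : {w | y + ρ • (w - y) ∈ TT P a}.ncard ≤ Nat.card P :=
    card_pre a (fun w => y + ρ • (w - y)) (fun u w h =>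
      sub_left_injective (smul_left_cancel ρ (add_left_cancel h)))
  have h3 : {w | w ∈ TT P a}.ncard ≤ Nat.card P := card_TT a
  have h3' : {w | ρ • w - ρ⁻¹ • y ∈ TT P a}.ncard ≤ Nat.card P :=
    card_pre a (fun w => ρ • w - ρ⁻¹ • y) (fun u w h =>
      smul_left_cancel ρ (sub_left_injective h))
  have h4 := Set.ncard_le_ncard hsub (Set.toFinite _)
  have h5 := Set.ncard_union_le ({w | w - y ∈ TT P a} ∪ {w | y + ρ • (w - y) ∈ TT P a})
    {w | w ∈ TT P a}
  have h6 := Set.ncard_union_le {w | w - y ∈ TT P a} {w | y + ρ • (w - y) ∈ TT P a}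
  have h7 := Set.ncard_union_le ({w | w - y ∈ TT P a} ∪ {w | y + ρ • (w - y) ∈ TT P a} ∪
    {w | w ∈ TT P a}) {w | ρ • w - ρ⁻¹ • y ∈ TT P a}
  have h8 := Set.ncard_add_ncard_compl (BB (FF ρ a) y)
  omega

theorem mem_iff [Finite P] [Finite V] {ρ : P} (hρ1 : ρ ≠ 1) (hρ2 : ρ * ρ ≠ 1)
    (hreg : ∀ (x : V) (p : P), x ≠ 0 → p • x = x → p = 1)
    (hcard : 7 * Nat.card P < Nat.card V) {a : V} (ha : a ≠ 0) (α : Equiv.Perm V) (h0 : α 0 = 0)
    (hα : ∀ x y, α (x + FF ρ a (y - x)) = α x + FF ρ a (α y - α x)) (y : V) :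
    α y ∈ TT P a ↔ y ∈ TT P a := by
  have hc := BB_card (FF ρ a) α h0 hα y
  constructor
  · intro h
    by_contra hn
    have h1 := BB_mem hρ1 hρ2 hreg hcard ha h
    have h2 := BB_not (ρ := ρ) a hn
    omega
  · intro h
    by_contra hn
    have h1 := BB_mem hρ1 hρ2 hreg hcard ha h
    have h2 := BB_not (ρ := ρ) a hn
    omega

theorem mem_iff' [Finite P] [Finite V] {ρ : P} (hρ1 : ρ ≠ 1) (hρ2 : ρ * ρ ≠ 1)
    (hreg : ∀ (x : V) (p : P), x ≠ 0 → p • x = x → p = 1)
    (hcard : 7 * Nat.card P < Nat.card V) {a : V} (ha : a ≠ 0) (α : Equiv.Perm V)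
    (hα : ∀ x y, α (x + FF ρ a (y - x)) = α x + FF ρ a (α y - α x)) (x y : V) :
    α y - α x ∈ TT P a ↔ y - x ∈ TT P a := by
  let β : Equiv.Perm V := (Equiv.addLeft x).trans (α.trans (Equiv.addRight (-α x)))
  have hβ : ∀ u, β u = α (x + u) - α x := fun u => by
    change α (x + u) + -α x = _
    rw [sub_eq_add_neg]
  have h1 := mem_iff hρ1 hρ2 hreg hcard ha β (by rw [hβ, add_zero, sub_self]) (by
    intro u w
    rw [hβ, hβ, hβ]
    have := hα (x + u) (x + w)
    rw [add_sub_add_left_eq_sub] at this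
    rw [← add_assoc, this]
    rw [sub_sub_sub_cancel_right]
    abel) (y - x)
  rw [hβ, add_sub_cancel] at h1
  exact h1

end

end PmBig

section
variable {P : Type v} [Group P] {z : P} {N : Type u} [Group N] [Finite N]
  [MulDistribMulAction P N]

open PmAux PmTrans PmBig in
theorem pm_big (hz : TwoCyc z) (h4 : 4 ≤ Nat.card P) (hN : Odd (Nat.card N))
    (hinv : ∀ x : N, z • x = x⁻¹)
    (hmin : PMin P (⊤ : Subgroup N)) (hcard : 7 * Nat.card P < Nat.card N) : WGood P N := by
  apply reduce hz hN hinv hmin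
  intro V _ _ _ _ hVN hinv hmin hreg h2 ρ hρ
  have hP : Finite P := hz.fin
  have hPV : 7 * Nat.card P < Nat.card V := by rw [hVN]; exact hcard
  obtain ⟨hρ1, hρ2, hρz⟩ := facts h4 hρ hz.sq
  obtain ⟨a, ha⟩ := exists_ne (0 : V)
  have hsub := bij_sub hreg (Ne.symm hρ1)
  have hsub' := bij_sub hreg hρ1
  simp only [one_smul] at hsub hsub'
  have hFb : Function.Bijective (FF ρ a) := (Finite.injective_iff_bijective).mp (FF_inj ρ a)
  refine ⟨FF ρ a, ⟨hFb, ?_, ?_, FF_zero ρ ha, ?_, ?_⟩⟩
  · exact (Finite.injective_iff_bijective).mp (FF_inj' hρ hinv hreg hρ1 a)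
  · intro x
    exact FF_smul hρ a ρ x
  · intro α hα h0
    have hm := mem_iff' hρ1 hρ2 hreg hPV ha α hα
    have hα' : ∀ x y, α (x + ρ • (y - x)) = α x + ρ • (α y - α x) := by
      intro x y
      by_cases h : y - x ∈ TT P a
      · have e1 := hα x (x + ρ • (y - x))
        have e2 : ρ • (y - x) ∈ TT P a := (smul_mem ρ _).mpr h
        rw [add_sub_cancel_left, FF_of_mem e2, inv_smul_smul, add_sub_cancel] at e1
        have e3 : α (x + ρ • (y - x)) - α x ∈ TT P a := by
          rw [hm, add_sub_cancel_left]; exact e2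
        rw [FF_of_mem e3] at e1
        rw [e1, add_sub_cancel_left, smul_inv_smul, add_sub_cancel]
      · have e1 := hα x y
        rwa [FF_of_not h, FF_of_not (fun h' => h ((hm x y).mp h'))] at e1
    obtain ⟨hadd, hc⟩ := add_of_affine (DistribSMul.toAddMonoidHom V ρ)
      (MulAction.bijective ρ).2 hsub.2 α h0 hα'
    have hαa : α a ∈ TT P a := by
      have := (hm 0 a).mpr (by rw [sub_zero]; exact ⟨1, (one_smul P a).symm⟩)
      rwa [h0, sub_zero] at this
    obtain ⟨p, hp⟩ := hαa
    have := eq_smul_of_add (gen_comm hρ) hmin α hadd (comm_gen hρ α hc) ha hp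
    obtain ⟨k, rfl⟩ := hρ p
    refine ⟨k, fun x => ?_⟩
    rw [iter_smul, this]
  · intro r hr h hh
    have : Fact r.Prime := ⟨hr⟩
    have E : ∀ x u, h (x + FF ρ a u) - h x = 2 * (h (x + u) - h x) := by
      intro x u
      have := hh x (x + u)
      rw [add_sub_cancel_left] at this
      rw [this]; ring
    by_cases hr2 : (2 : ZMod r) = 0
    · intro x
      obtain ⟨u, hu⟩ := hFb.2 x
      have := E 0 u
      rw [hu, zero_add, hr2, zero_mul] at this
      exact sub_eq_zero.mp this
    have E1 : ∀ x u, u ∉ TT P a → h (x + ρ • u) - h x = 2 * (h (x + u) - h x) := by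
      intro x u hu
      have := E x u
      rwa [FF_of_not hu] at this
    have hb : ∀ u v, u ∉ TT P a → v ∉ TT P a → u + v ∉ TT P a → ∀ x,
        h (x + v + u) - h (x + v) = h (x + ρ • v + u) - h (x + ρ • v) := by
      intro u v hu hv huv x
      have e1 := E1 x (u + v) huv
      have e2 := E1 (x + ρ • v) u hu
      have e3 := E1 x v hv
      rw [smul_add, ← add_assoc] at e1
      have c1 : x + ρ • u + ρ • v = x + ρ • v + ρ • u := by abel
      have c2 : x + (u + v) = x + v + u := by abel
      rw [c1, c2] at e1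
      have : (2 : ZMod r) * (h (x + v + u) - h (x + v)) =
          2 * (h (x + ρ • v + u) - h (x + ρ • v)) := by
        linear_combination e2 + e3 - e1
      exact mul_left_cancel₀ hr2 this
    have hPpos : 0 < Nat.card P := Nat.card_pos
    have hD : ∀ u, u ∉ TT P a → ∀ x, h (x + u) - h x = h u - h 0 := by
      intro u hu
      let H : AddSubgroup V :=
        { carrier := {w | ∀ x, h (x + w + u) - h (x + w) = h (x + u) - h x}
          zero_mem' := by intro x; rw [add_zero]
          add_mem' := by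
            intro w w' hw hw' x
            have := hw' (x + w)
            rw [← add_assoc, this, hw x]
          neg_mem' := by
            intro w hw x
            have := hw (x + -w)
            rw [neg_add_cancel_right] at this
            exact this.symm }
      have hH : H = ⊤ := by
        apply big_sub H ((fun x => ρ • x - x) '' {v | v ∉ TT P a ∧ u + v ∉ TT P a})
        · rintro _ ⟨v, ⟨hv, huv⟩, rfl⟩ x
          have := hb u v hu hv huv (x - v)
          rw [sub_add_cancel] at this
          have c1 : x - v + ρ • v = x + (ρ • v - v) := by abel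
          rw [c1] at this
          exact this.symm
        · rw [Set.ncard_image_of_injective _ hsub'.1]
          have c1 : {v | v ∉ TT P a ∧ u + v ∉ TT P a}ᶜ ⊆ TT P a ∪ {v | u + v ∈ TT P a} := by
            intro v hv
            rw [Set.mem_compl_iff, Set.mem_ofPred_eq, not_and_or, not_not, not_not] at hv
            exact hv
          have c2 := Set.ncard_le_ncard c1 (Set.toFinite _)
          have c3 := Set.ncard_union_le (TT P a) {v | u + v ∈ TT P a}
          have c4 := card_TT (P := P) a
          have c5 : {v | u + v ∈ TT P a}.ncard ≤ Nat.card P :=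
            card_pre a (fun v => u + v) (add_right_injective u)
          have c6 := Set.ncard_add_ncard_compl {v | v ∉ TT P a ∧ u + v ∉ TT P a}
          omega
      intro x
      have : x ∈ H := by rw [hH]; trivial
      have := this 0
      rwa [zero_add, zero_add] at this
    have hcompl : Nat.card V < 2 * (TT P a)ᶜ.ncard := by
      have c4 := card_TT (P := P) a
      have c6 := Set.ncard_add_ncard_compl (TT P a)
      omega
    have hadd : ∀ u x, h (x + u) - h x = h u - h 0 := by
      let H : AddSubgroup V :=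
        { carrier := {u | ∀ x, h (x + u) - h x = h u - h 0}
          zero_mem' := by intro x; rw [add_zero, sub_self, sub_self]
          add_mem' := by
            intro u w hu hw x
            have e1 := hw (x + u)
            have e2 := hu x
            have e3 := hw u
            rw [← add_assoc]
            linear_combination e1 + e2 - e3
          neg_mem' := by
            intro u hu x
            have e1 := hu (x + -u)
            have e2 := hu (-u)
            rw [neg_add_cancel_right] at e1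
            rw [neg_add_cancel] at e2
            linear_combination e2 - e1 }
      have hH : H = ⊤ := big_sub H (TT P a)ᶜ (fun u hu => hD u hu) hcompl
      intro u
      have : u ∈ H := by rw [hH]; trivial
      exact this
    let g : V →+ ZMod r :=
      { toFun := fun x => h x - h 0
        map_zero' := sub_self _
        map_add' := by
          intro x y
          have := hadd y x
          linear_combination this }
    have hg : ∀ x, g x = h x - h 0 := fun _ => rfl
    have hg1 : ∀ x, g (ρ • x) = 2 * g x := by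
      let H : AddSubgroup V :=
        { carrier := {x | g (ρ • x) = 2 * g x}
          zero_mem' := by
            change g (ρ • (0 : V)) = 2 * g 0
            rw [smul_zero, map_zero, mul_zero]
          add_mem' := by
            intro x y hx hy
            change g (ρ • (x + y)) = 2 * g (x + y)
            rw [smul_add, map_add, map_add, show g (ρ • x) = 2 * g x from hx,
              show g (ρ • y) = 2 * g y from hy, mul_add]
          neg_mem' := by
            intro x hx
            change g (ρ • (-x)) = 2 * g (-x)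
            rw [smul_neg, map_neg, map_neg, show g (ρ • x) = 2 * g x from hx, mul_neg] }
      have hH : H = ⊤ := big_sub H (TT P a)ᶜ (fun u hu => by
        have := E1 0 u hu
        rw [zero_add, zero_add] at this
        exact this) hcompl
      intro u
      have : u ∈ H := by rw [hH]; trivial
      exact this
    have hg3 : ∀ x, 3 * g x = 0 := by
      let H : AddSubgroup V :=
        { carrier := {x | 3 * g x = 0}
          zero_mem' := by
            change 3 * g 0 = 0
            rw [map_zero, mul_zero]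
          add_mem' := by
            intro x y hx hy
            change 3 * g (x + y) = 0
            rw [map_add, mul_add, show 3 * g x = 0 from hx, show 3 * g y = 0 from hy, add_zero]
          neg_mem' := by
            intro x hx
            change 3 * g (-x) = 0
            rw [map_neg, mul_neg, show 3 * g x = 0 from hx, neg_zero] }
      have hHinv : ∀ x ∈ H, ρ • x ∈ H := by
        intro x hx
        change 3 * g (ρ • x) = 0
        rw [hg1, mul_left_comm, show 3 * g x = 0 from hx, mul_zero]
      have hHinv' : ∀ (p : P) x, x ∈ H → p • x ∈ H := by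
        intro p x hx
        obtain ⟨k, rfl⟩ := hρ p
        induction k generalizing x with
        | zero => rwa [pow_zero, one_smul]
        | succ k ih => rw [pow_succ, mul_smul]; exact ih _ (hHinv x hx)
      have haH : a ∈ H := by
        have haT : a ∈ TT P a := ⟨1, (one_smul P a).symm⟩
        have e1 := E 0 a
        rw [FF_of_mem haT, zero_add, zero_add] at e1
        have e2 : g (ρ⁻¹ • a) = 2 * g a := e1
        have e3 := hg1 (ρ⁻¹ • a)
        rw [smul_inv_smul, e2] at e3
        change 3 * g a = 0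
        linear_combination -e3
      rcases hmin H hHinv' with hb | ht
      · rw [hb, AddSubgroup.mem_bot] at haH
        exact absurd haH ha
      · intro x
        have : x ∈ H := by rw [ht]; trivial
        exact this
    have hker : ∀ (p : P) x, x ∈ g.ker → p • x ∈ g.ker := by
      intro p x hx
      obtain ⟨k, rfl⟩ := hρ p
      induction k generalizing x with
      | zero => rwa [pow_zero, one_smul]
      | succ k ih =>
        rw [pow_succ, mul_smul]
        apply ih
        rw [AddMonoidHom.mem_ker] at hx ⊢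
        rw [hg1, hx, mul_zero]
    rcases hmin g.ker hker with hb | ht
    · exfalso
      have hinj : Function.Injective g := (AddMonoidHom.ker_eq_bot_iff g).mp hb
      have hga : g a ≠ 0 := fun h => ha (hinj (h.trans (map_zero g).symm))
      have h3 : (3 : ZMod r) = 0 := by
        rcases mul_eq_zero.mp (hg3 a) with h | h
        · exact h
        · exact absurd h hga
      have h3' : ((3 : ℕ) : ZMod r) = 0 := by exact_mod_cast h3
      rw [ZMod.natCast_eq_zero_iff] at h3'
      have hr3 : r ≤ 3 := Nat.le_of_dvd (by norm_num) h3'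
      have : NeZero r := ⟨hr.ne_zero⟩
      have hc := Nat.card_le_card_of_injective g hinj
      rw [Nat.card_zmod] at hc
      omega
    · intro x
      have : x ∈ g.ker := by rw [ht]; trivial
      rw [AddMonoidHom.mem_ker, hg] at this
      exact sub_eq_zero.mp this

end

end Pool.Agent.Lib_MP_8306f4_co.CaseB
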