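import Pool.Agent.Lib_MP_8306f4_co.CaseB.Defs
import Pool.Agent.Lib_MP_8306f4_co.CaseB.Transfer
import Pool.Agent.Lib_MP_8306f4_co.CaseB.Models4
import Pool.Agent.Lib_MP_8306f4_co.CaseB.GBasics
import Pool.Agent.Lib_MP_8306f4_co.CaseB.GInv

/-!
# MP_8306f4_co, case B, piece PmFin

Notation. x·y = qop f x y = x f(x⁻¹y) on N; lambda_m: y -> m y is always an automorphism of it
(f commutes with nothing needed). 1·y = f(y). If Equi P f, then y -> p•y is an automorphism.
core(A): a∘b = 2b-a. For every x: y -> x·y is bijective (f bijective), for every y: x -> x·y is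
bijective (x⁻¹f(x) bijective). '2 is invertible': all groups N have odd order.

## B15 (PmFin.lean): pm_number, pm_fin [B1,B8]. 25: |P|=8 (|P|=4 contradicts PMin: (ρ-2)(ρ+2)=0). ρ²∈{2,3}; if 3 use ρ³.
49,|P|=8: ρ²=±3ρ-1; if - use -ρ=ρ⁵. 49,|P|=16: ρ²=aρ+1, a∈{±1,±3}: a=-1: -ρ; a=3: ρ³; a=-3: (-ρ)³. 81: ρ⁴=±ρ²+1; if - use ρ⁵.
-/

universe u v w

namespace Pool.Agent.Lib_MP_8306f4_co.CaseB

open Pool.Agent.Lib_MP_8306f4_co

namespace PmFin

private lemma dvd_of_odd_dvd {o k c : ℕ} (ho : Odd o) (h : o ∣ 2 ^ k * c) : o ∣ c := by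
  have hc : Nat.Coprime o (2 ^ k) := by
    apply Nat.Coprime.pow_right
    exact (Nat.coprime_two_right).2 ho
  exact hc.dvd_of_dvd_mul_left h

private lemma sq_case {s k c : ℕ} (hs : 2 ≤ s) (hso : Odd s) (hc0 : 0 < c) (hc : c ≤ 7)
    (hk : 2 ≤ k) (h : s * s = 2 ^ k * c + 1) (hle : s * s ≤ 7 * 2 ^ k) :
    s = 3 ∨ s = 5 ∨ s = 7 ∨ s = 9 := by
  obtain ⟨u, rfl⟩ := hso
  obtain ⟨j, rfl⟩ := Nat.exists_eq_add_of_le hk
  have h1 : u * (u + 1) = 2 ^ j * c := by
    have : 4 * (u * (u + 1)) = 4 * (2 ^ j * c) := by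
      have e : 2 ^ (2 + j) = 4 * 2 ^ j := by rw [pow_add]; norm_num
      rw [e] at h
      nlinarith
    omega
  have hc6 : c ≤ 6 := by
    by_contra hcc
    have : c = 7 := by omega
    subst this
    omega
  have h2 : u ≤ 6 := by
    rcases Nat.even_or_odd u with hu | hu
    · have hu1 : Odd (u + 1) := hu.add_one
      have : u + 1 ∣ c := dvd_of_odd_dvd hu1 (by rw [← h1]; exact Dvd.intro_left u rfl)
      have := Nat.le_of_dvd hc0 this
      omega
    · have : u ∣ c := dvd_of_odd_dvd hu (by rw [← h1]; exact Dvd.intro (u + 1) rfl)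
      have := Nat.le_of_dvd hc0 this
      omega
  interval_cases u
  · omega
  · simp
  · simp
  · simp
  · simp
  · exfalso
    have h15 : 15 ∣ c := dvd_of_odd_dvd (o := 15) (k := j) (by decide) (by rw [← h1]; decide)
    have := Nat.le_of_dvd hc0 h15
    omega
  · exfalso
    have h15 : 21 ∣ c := dvd_of_odd_dvd (o := 21) (k := j) (by decide) (by rw [← h1]; decide)
    have := Nat.le_of_dvd hc0 h15
    omega

private lemma odd_case {r d k c : ℕ} (hr : 3 ≤ r) (hro : Odd r) (hd : 3 ≤ d) (hdo : Odd d)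
    (hc0 : 0 < c) (hc : c ≤ 7) (h : r ^ d = 2 ^ k * c + 1) : False := by
  obtain ⟨x, rfl⟩ : ∃ x, r = x + 1 := ⟨r - 1, by omega⟩
  have h1 := geom_sum_mul_add x d
  obtain ⟨S, hS⟩ : ∃ S, S = ∑ i ∈ Finset.range d, (x + 1) ^ i := ⟨_, rfl⟩
  rw [← hS, h] at h1
  have h2 : S * x = 2 ^ k * c := by omega
  have hSo : Odd S := by
    rw [hS, Finset.odd_sum_iff_odd_card_odd]
    rw [Finset.filter_true_of_mem]
    · simpa using hdo
    · intro i _
      exact hro.pow
  have h3 : S ∣ c := dvd_of_odd_dvd hSo (by rw [← h2]; exact Dvd.intro x rfl)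
  have h4 := Nat.le_of_dvd hc0 h3
  have h5 : 13 ≤ S := by
    rw [hS]
    have h6 : ∑ i ∈ Finset.range 3, (x + 1) ^ i ≤ ∑ i ∈ Finset.range d, (x + 1) ^ i :=
      Finset.sum_le_sum_of_subset (Finset.range_mono hd)
    have h7 : 13 ≤ ∑ i ∈ Finset.range 3, (x + 1) ^ i := by
      simp only [Finset.sum_range_succ, Finset.range_zero, Finset.sum_empty]
      nlinarith
    omega
  omega

private lemma fac25_4 {V : Type w} [AddCommGroup V] (h5 : ∀ v : V, 5 • v = 0) (R : V →+ V)
    (h : ∀ v, R (R v) = -v) {v : V} (hv : v ≠ 0) : ∃ a : V, a ≠ 0 ∧ ∃ s : ℤ, R a = s • a := by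
  by_cases h0 : R v - (2 : ℤ) • v = 0
  · exact ⟨v, hv, 2, sub_eq_zero.1 h0⟩
  · refine ⟨_, h0, -2, ?_⟩
    have h1 := h5 v
    simp only [map_sub, map_zsmul, h]
    linear_combination (norm := module) -h1

private lemma fac25_8 {V : Type w} [AddCommGroup V] (h5 : ∀ v : V, 5 • v = 0) (R : V →+ V)
    (h : ∀ v, R (R (R (R v))) = -v) {v : V} (hv : v ≠ 0) :
    ∃ a : V, a ≠ 0 ∧ (R (R a) = (2 : ℤ) • a ∨ R (R a) = (3 : ℤ) • a) := by
  by_cases h0 : R (R v) - (2 : ℤ) • v = 0
  · exact ⟨v, hv, Or.inl (sub_eq_zero.1 h0)⟩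
  · refine ⟨_, h0, Or.inr ?_⟩
    have h1 := h5 v
    have h2 := h5 (R (R v))
    simp only [map_sub, map_zsmul, h]
    linear_combination (norm := module) h1 - h2

private lemma fac49_8 {V : Type w} [AddCommGroup V] (h7 : ∀ v : V, 7 • v = 0) (R : V →+ V)
    (h : ∀ v, R (R (R (R v))) = -v) {v : V} (hv : v ≠ 0) :
    ∃ a : V, a ≠ 0 ∧ (R (R a) = (-1 : ℤ) • a + (3 : ℤ) • R a ∨
      R (R a) = (-1 : ℤ) • a + (-3 : ℤ) • R a) := by
  by_cases h0 : R (R v) - ((-1 : ℤ) • v + (3 : ℤ) • R v) = 0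
  · exact ⟨v, hv, Or.inl (sub_eq_zero.1 h0)⟩
  · refine ⟨_, h0, Or.inr ?_⟩
    have h2 := h7 (R (R v))
    simp only [map_sub, map_add, map_zsmul, h]
    linear_combination (norm := module) -h2

private lemma fac49_16 {V : Type w} [AddCommGroup V] (h7 : ∀ v : V, 7 • v = 0) (R : V →+ V)
    (h : ∀ v, R (R (R (R (R (R (R (R v))))))) = -v) {v : V} (hv : v ≠ 0) :
    ∃ a : V, a ≠ 0 ∧ ∃ s : ℤ, (s = 1 ∨ s = -1 ∨ s = 3 ∨ s = -3) ∧
      R (R a) = (1 : ℤ) • a + s • R a := by
  obtain ⟨Q, hQ⟩ : ∃ Q : ℤ → V → V, ∀ s v, Q s v = R (R v) - ((1 : ℤ) • v + s • R v) :=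
    ⟨_, fun _ _ => rfl⟩
  have key : ∀ s v, Q s v = 0 → R (R v) = (1 : ℤ) • v + s • R v := by
    intro s v hs
    rw [hQ] at hs
    exact sub_eq_zero.1 hs
  by_cases h1 : Q 1 v = 0
  · exact ⟨v, hv, 1, by simp, key _ _ h1⟩
  by_cases h2 : Q (-1) (Q 1 v) = 0
  · exact ⟨_, h1, -1, by simp, key _ _ h2⟩
  by_cases h3 : Q 3 (Q (-1) (Q 1 v)) = 0
  · exact ⟨_, h2, 3, by simp, key _ _ h3⟩
  refine ⟨_, h3, -3, by simp, key _ _ ?_⟩
  have e1 := h7 (R (R v))
  have e2 := h7 (R (R (R (R v))))
  have e3 := h7 (R (R (R (R (R (R v))))))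
  simp only [hQ, map_sub, map_add, map_zsmul, h]
  linear_combination (norm := module) (-2 : ℤ) • e3 + (5 : ℤ) • e2 - (2 : ℤ) • e1

private lemma fac81_16 {V : Type w} [AddCommGroup V] (h3 : ∀ v : V, 3 • v = 0) (R : V →+ V)
    (h : ∀ v, R (R (R (R (R (R (R (R v))))))) = -v) {v : V} (hv : v ≠ 0) :
    ∃ a : V, a ≠ 0 ∧ (R (R (R (R a))) = a + R (R a) ∨ R (R (R (R a))) = a - R (R a)) := by
  by_cases h0 : R (R (R (R v))) - (v + R (R v)) = 0
  · exact ⟨v, hv, Or.inl (sub_eq_zero.1 h0)⟩
  · refine ⟨_, h0, Or.inr ?_⟩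
    have h2 := h3 (R (R (R (R v))))
    simp only [map_sub, map_add, h]
    linear_combination (norm := module) -h2

section
variable {P : Type v} [Group P] {z : P} {N : Type u} [Group N] [Finite N]
  [MulDistribMulAction P N]

omit [Finite N] in
private lemma gens (hz : TwoCyc z) : ∃ ρ : P, (∀ p : P, ∃ k : ℕ, p = ρ ^ k) ∧
    ρ ^ (Nat.card P / 2) = z ∧ ρ ^ Nat.card P = 1 := by
  have := hz.fin
  obtain ⟨g, hg⟩ := hz.cyclic.exists_generator
  obtain ⟨k, hk1, hk⟩ := hz.card
  have hord : orderOf g = Nat.card P := orderOf_eq_card_of_forall_mem_zpowers hg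
  obtain ⟨j, rfl⟩ : ∃ j, k = j + 1 := ⟨k - 1, by omega⟩
  have hhalf : Nat.card P / 2 = 2 ^ j := by
    rw [hk, pow_succ]; simp
  refine ⟨g, ?_, ?_, ?_⟩
  · intro p
    have := hg p
    rw [← mem_powers_iff_mem_zpowers, Submonoid.mem_powers_iff] at this
    obtain ⟨n, hn⟩ := this
    exact ⟨n, hn.symm⟩
  · rw [hhalf]
    have hne : g ^ 2 ^ j ≠ 1 := by
      intro h
      have h1 := orderOf_dvd_of_pow_eq_one h
      rw [hord, hk] at h1
      have h2 := Nat.le_of_dvd (by positivity) h1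
      have h3 : 2 ^ j < 2 ^ (j + 1) := Nat.pow_lt_pow_right (by norm_num) (by omega)
      omega
    have hsq : (g ^ 2 ^ j) ^ 2 = 1 := by
      rw [← pow_mul, ← pow_succ, ← hk, ← hord, pow_orderOf_eq_one]
    have hmem := hz.mem_zpowers hne
    obtain ⟨n, hn⟩ := Subgroup.mem_zpowers_iff.1 hmem
    rcases Int.even_or_odd' n with ⟨m, rfl | rfl⟩
    · exfalso
      apply hz.ne_one
      rw [← hn, zpow_mul]
      have : (g ^ 2 ^ j) ^ (2 : ℤ) = 1 := by exact_mod_cast hsq
      rw [this, one_zpow]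
    · rw [← hn, zpow_add, zpow_mul]
      have : (g ^ 2 ^ j) ^ (2 : ℤ) = 1 := by exact_mod_cast hsq
      rw [this, one_zpow, one_mul, zpow_one]
  · rw [← hord, pow_orderOf_eq_one]

omit [Finite N] in
private lemma ne_of_ne (hodd : Odd (Nat.card N)) (hinv : ∀ x : N, z • x = x⁻¹) {a : N}
    (ha : a ≠ 1) : z • a ≠ a := by
  intro h
  rw [hinv] at h
  have h1 : a ^ 2 = 1 := by
    rw [pow_two]
    nth_rewrite 1 [← h]
    exact inv_mul_cancel a
  have h2 : orderOf a ∣ 2 := orderOf_dvd_of_pow_eq_one h1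
  have h3 : orderOf a ∣ Nat.card N := orderOf_dvd_natCard a
  have h4 : orderOf a ∣ 1 := by
    have : Nat.Coprime 2 (Nat.card N) := (Nat.coprime_two_left).2 hodd
    have h5 := Nat.dvd_gcd h2 h3
    rwa [this.gcd_eq_one] at h5
  have h5 : orderOf a = 1 := Nat.dvd_one.1 h4
  exact ha (orderOf_eq_one_iff.1 h5)

private lemma card_dvd (hz : TwoCyc z) (hodd : Odd (Nat.card N))
    (hinv : ∀ x : N, z • x = x⁻¹) : Nat.card P ∣ Nat.card N - 1 := by
  classical
  have := hz.fin
  have : Fintype P := Fintype.ofFinite P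
  have : Fintype N := Fintype.ofFinite N
  have : Fintype (Quotient (MulAction.orbitRel P N)) := Fintype.ofFinite _
  have hb := MulAction.sum_card_fixedBy_eq_card_orbits_mul_card_group P N
  have h1 : ∀ p : P, p ≠ 1 → Fintype.card (MulAction.fixedBy N p) = 1 := by
    intro p hp
    rw [Fintype.card_eq_one_iff]
    refine ⟨⟨1, smul_one p⟩, ?_⟩
    rintro ⟨y, hy⟩
    have hy' : p • y = y := hy
    apply Subtype.ext
    by_contra hne
    exact hp (hz.regular (ne_of_ne hodd hinv hne) hy')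
  have h2 : Fintype.card (MulAction.fixedBy N (1 : P)) = Fintype.card N := by
    apply Fintype.card_congr
    exact ⟨fun x => x.1, fun x => ⟨x, one_smul P x⟩, fun x => rfl, fun x => rfl⟩
  rw [← Finset.add_sum_erase _ _ (Finset.mem_univ (1 : P)), h2,
    Finset.sum_congr rfl (fun p hp => h1 p (Finset.ne_of_mem_erase hp))] at hb
  simp only [Finset.sum_const, smul_eq_mul, mul_one,
    Finset.card_erase_of_mem (Finset.mem_univ (1 : P)), Finset.card_univ] at hb
  rw [Nat.card_eq_fintype_card, Nat.card_eq_fintype_card]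
  have hP : 0 < Fintype.card P := Fintype.card_pos
  have hN : 0 < Fintype.card N := Fintype.card_pos
  obtain ⟨o, ho⟩ : ∃ o, o = Fintype.card (Quotient (MulAction.orbitRel P N)) := ⟨_, rfl⟩
  rw [← ho] at hb
  have h3 : Fintype.card N - 1 + Fintype.card P = o * Fintype.card P := by omega
  have h4 : Fintype.card P ∣ Fintype.card N - 1 + Fintype.card P := by
    rw [h3]; exact Dvd.intro_left o rfl
  exact (Nat.dvd_add_left (dvd_refl _)).1 h4

private lemma expo (hcomm : ∀ x y : N, x * y = y * x) (hmin : PMin P (⊤ : Subgroup N)) {r : ℕ}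
    (hr : r.Prime) (hd : r ∣ Nat.card N) (x : N) : x ^ r = 1 := by
  let H : Subgroup N :=
    { carrier := {x | x ^ r = 1}
      one_mem' := one_pow r
      mul_mem' := by
        intro a b ha hb
        change (a * b) ^ r = 1
        have hc : Commute a b := hcomm a b
        rw [hc.mul_pow, ha, hb, one_mul]
      inv_mem' := by
        intro a ha
        change a⁻¹ ^ r = 1
        rw [inv_pow, ha, inv_one] }
  have hH : PInv P H := by
    intro p a ha
    change (p • a) ^ r = 1
    rw [← smul_pow', ha, smul_one]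
  rcases hmin.2.2 H hH le_top with h1 | h1
  · exfalso
    have := Fact.mk hr
    obtain ⟨a, ha⟩ := exists_prime_orderOf_dvd_card' (G := N) r hd
    have h2 : a ∈ H := by
      change a ^ r = 1
      rw [← ha, pow_orderOf_eq_one]
    rw [h1, Subgroup.mem_bot] at h2
    rw [h2, orderOf_one] at ha
    exact hr.one_lt.ne ha
  · have : x ∈ H := by rw [h1]; exact Subgroup.mem_top x
    exact this

end

section
variable {P : Type v} [Group P] {z : P} {N : Type u} [Group N] [Finite N]
  [MulDistribMulAction P N]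

omit [Finite N] in
private lemma surj (ρ : P) (hρ : ∀ p : P, ∃ k : ℕ, p = ρ ^ k) (hmin : PMin P (⊤ : Subgroup N))
    {W : Type w} [AddCommGroup W] (φ : W → N) (hadd : ∀ x y, φ (x + y) = φ x * φ y)
    {T : W → W} (hT : ∀ x, φ (T x) = ρ • φ x) {w0 : W} (hw0 : φ w0 ≠ 1) :
    Function.Surjective φ := by
  have h0 : φ 0 = 1 := by
    have := hadd 0 0
    rw [add_zero] at this
    exact (mul_eq_left.1 this.symm)
  have hneg : ∀ x, φ (-x) = (φ x)⁻¹ := by
    intro x
    have := hadd (-x) x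
    rw [neg_add_cancel, h0] at this
    exact eq_inv_of_mul_eq_one_left this.symm
  have hpow : ∀ (k : ℕ) x, ∃ y, φ y = ρ ^ k • φ x := by
    intro k
    induction k with
    | zero => intro x; exact ⟨x, by simp⟩
    | succ k ih =>
      intro x
      obtain ⟨y, hy⟩ := ih x
      refine ⟨T y, ?_⟩
      rw [hT, hy, pow_succ', mul_smul]
  let H : Subgroup N :=
    { carrier := Set.range φ
      one_mem' := ⟨0, h0⟩
      mul_mem' := by
        rintro _ _ ⟨x, rfl⟩ ⟨y, rfl⟩
        exact ⟨x + y, hadd x y⟩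
      inv_mem' := by
        rintro _ ⟨x, rfl⟩
        exact ⟨-x, hneg x⟩ }
  have hH : PInv P H := by
    rintro p _ ⟨x, rfl⟩
    obtain ⟨k, rfl⟩ := hρ p
    exact hpow k x
  rcases hmin.2.2 H hH le_top with h1 | h1
  · exfalso
    have : φ w0 ∈ H := ⟨w0, rfl⟩
    rw [h1, Subgroup.mem_bot] at this
    exact hw0 this
  · intro x
    have : x ∈ H := by rw [h1]; exact Subgroup.mem_top x
    exact this

omit [Finite N] in
private lemma core (ρ : P) (hρ : ∀ p : P, ∃ k : ℕ, p = ρ ^ k) (hmin : PMin P (⊤ : Subgroup N))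
    {W : Type w} [AddCommGroup W] [Finite W] (φ : W → N) (hadd : ∀ x y, φ (x + y) = φ x * φ y)
    {T F : W → W} (hT : ∀ x, φ (T x) = ρ • φ x) {w0 : W} (hw0 : φ w0 ≠ 1)
    (hcard : Nat.card W = Nat.card N) (h : AModel T F) : WGood P N := by
  have hsurj := surj ρ hρ hmin φ hadd hT hw0
  have hbij : Function.Bijective φ :=
    hsurj.bijective_of_nat_card_le hcard.le
  let e := (Equiv.ofBijective φ hbij).symm
  have he1 : ∀ x, φ (e x) = x := fun x => (Equiv.ofBijective φ hbij).apply_symm_apply x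
  refine wgood_of_amodel ρ hρ e ?_ (R := T) (F := F) ?_ h
  · intro x y
    apply hbij.1
    rw [hadd, he1, he1, he1]
  · intro x
    apply hbij.1
    rw [hT, he1, he1]

omit [Finite N] in
private lemma exists_add (hcomm : ∀ x y : N, x * y = y * x) :
    ∃ (V : Type u) (_ : AddCommGroup V) (θ : V ≃ N), ∀ x y, θ (x + y) = θ x * θ y := by
  let : CommGroup N := { (inferInstance : Group N) with mul_comm := hcomm }
  exact ⟨Additive N, inferInstance, Additive.toMul, fun x y => rfl⟩

omit [Finite N] in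
private lemma exists_R {V : Type w} [AddCommGroup V] (θ : V ≃ N)
    (hθ : ∀ x y, θ (x + y) = θ x * θ y) (ρ : P) : ∃ R : V →+ V, ∀ v, θ (R v) = ρ • θ v := by
  have h1 : ∀ x y, θ.symm (x * y) = θ.symm x + θ.symm y := by
    intro x y
    apply θ.injective
    rw [hθ, θ.apply_symm_apply, θ.apply_symm_apply, θ.apply_symm_apply]
  refine ⟨AddMonoidHom.mk' (fun v => θ.symm (ρ • θ v)) ?_, ?_⟩
  · intro a b
    rw [hθ, smul_mul', h1]
  · intro v
    exact θ.apply_symm_apply _

omit [Finite N] [MulDistribMulAction P N] in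
private lemma odd_gen {ρ : P} (hρ : ∀ p : P, ∃ k : ℕ, p = ρ ^ k) {m : ℕ} (hm : ρ ^ m = 1)
    (k l q : ℕ) (h : k * l = m * q + 1) : ∀ p : P, ∃ n : ℕ, p = (ρ ^ k) ^ n := by
  intro p
  obtain ⟨n, rfl⟩ := hρ p
  refine ⟨l * n, ?_⟩
  rw [← pow_mul, ← mul_assoc, h, add_mul, one_mul, pow_add, mul_assoc, pow_mul, hm, one_pow,
    one_mul]

omit [Finite N] in
private lemma two_dim (ρ : P) (hρ : ∀ p : P, ∃ k : ℕ, p = ρ ^ k) (hmin : PMin P (⊤ : Subgroup N))
    {V : Type w} [AddCommGroup V] (θ : V ≃ N) (hθ : ∀ x y, θ (x + y) = θ x * θ y)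
    (R : V →+ V) (hR : ∀ v, θ (R v) = ρ • θ v) (r : ℕ) [NeZero r] (hr : ∀ v : V, r • v = 0)
    (hcard : Nat.card N = r * r) (s t : ℤ) {a : V} (ha : a ≠ 0)
    (hrel : R (R a) = s • a + t • R a) {F : ZMod r × ZMod r → ZMod r × ZMod r}
    (h : AModel (fun x : ZMod r × ZMod r => ((s : ZMod r) * x.2, x.1 + (t : ZMod r) * x.2)) F) :
    WGood P N := by
  let : Module (ZMod r) V := AddCommGroup.zmodModule hr
  have hZ : ∀ (c : ℤ) (v : V), c • v = (c : ZMod r) • v := fun c v => (Int.cast_smul_eq_zsmul _ _ _).symm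
  have hsm : ∀ (c : ZMod r) (v : V), R (c • v) = c • R v := fun c v => ZMod.map_smul R c v
  have h1 : θ 0 = 1 := by
    have := hθ 0 0
    rw [add_zero] at this
    exact (mul_eq_left.1 this.symm)
  refine core ρ hρ hmin (W := ZMod r × ZMod r) (fun x => θ (x.1 • a + x.2 • R a)) ?_ ?_
    (w0 := (1, 0)) ?_ ?_ h
  · intro x y
    rw [← hθ]
    congr 1
    simp only [Prod.fst_add, Prod.snd_add, add_smul]
    abel
  · intro x
    rw [← hR]
    congr 1
    simp only [map_add, hsm, hrel, hZ]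
    module
  · simp only [one_smul, zero_smul, add_zero]
    intro h2
    rw [← h1] at h2
    exact ha (θ.injective h2)
  · rw [hcard, Nat.card_prod, Nat.card_zmod]

omit [Finite N] in
private lemma four_dim (ρ : P) (hρ : ∀ p : P, ∃ k : ℕ, p = ρ ^ k)
    (hmin : PMin P (⊤ : Subgroup N))
    {V : Type w} [AddCommGroup V] (θ : V ≃ N) (hθ : ∀ x y, θ (x + y) = θ x * θ y)
    (R : V →+ V) (hR : ∀ v, θ (R v) = ρ • θ v) (hr : ∀ v : V, 3 • v = 0)
    (hcard : Nat.card N = 81) {a : V} (ha : a ≠ 0)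
    (hrel : R (R (R (R a))) = a + R (R a)) : WGood P N := by
  let : Module (ZMod 3) V := AddCommGroup.zmodModule hr
  have hsm : ∀ (c : ZMod 3) (v : V), R (c • v) = c • R v := fun c v => ZMod.map_smul R c v
  have h1 : θ 0 = 1 := by
    have := hθ 0 0
    rw [add_zero] at this
    exact (mul_eq_left.1 this.symm)
  obtain ⟨F, h⟩ := model_81_c16
  refine core ρ hρ hmin (W := ZMod 3 × ZMod 3 × ZMod 3 × ZMod 3)
    (fun x => θ (x.1 • a + x.2.1 • R a + x.2.2.1 • R (R a) + x.2.2.2 • R (R (R a)))) ?_ ?_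
    (w0 := (1, 0, 0, 0)) ?_ ?_ h
  · intro x y
    rw [← hθ]
    congr 1
    simp only [Prod.fst_add, Prod.snd_add, add_smul]
    abel
  · intro x
    rw [← hR]
    congr 1
    simp only [map_add, hsm, hrel]
    module
  · simp only [one_smul, zero_smul, add_zero]
    intro h2
    rw [← h1] at h2
    exact ha (θ.injective h2)
  · rw [hcard, Nat.card_prod, Nat.card_prod, Nat.card_prod, Nat.card_zmod]

end

end PmFin

section
variable {P : Type v} [Group P] {z : P} {N : Type u} [Group N] [Finite N]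
  [MulDistribMulAction P N]

theorem pm_number {q m : ℕ} (hq : ∃ r d : ℕ, r.Prime ∧ Odd r ∧ q = r ^ d) (hm : ∃ k, m = 2 ^ k)
    (hm4 : 4 ≤ m) (hdvd : m ∣ q - 1) (hq1 : 1 < q) (hle : q ≤ 7 * m) :
    q.Prime ∨ q = 9 ∨ q = 25 ∨ q = 49 ∨ q = 81 := by
  obtain ⟨r, d, hr, hro, rfl⟩ := hq
  obtain ⟨k, rfl⟩ := hm
  obtain ⟨c, hc⟩ := hdvd
  have hk : 2 ≤ k := by
    by_contra hk
    have : k ≤ 1 := by omega
    interval_cases k <;> omega
  have hr3 : 3 ≤ r := by
    have := hr.two_le
    rcases hro with ⟨t, ht⟩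
    omega
  have h1 : r ^ d = 2 ^ k * c + 1 := by omega
  have hc0 : 0 < c := by
    rcases Nat.eq_zero_or_pos c with rfl | h
    · omega
    · exact h
  have hc7 : c ≤ 7 := by
    by_contra hcc
    have : 2 ^ k * 8 ≤ 2 ^ k * c := Nat.mul_le_mul_left _ (by omega)
    omega
  rcases Nat.lt_or_ge d 2 with hd | hd
  · interval_cases d
    · simp at hq1
    · left
      simpa using hr
  · rcases Nat.even_or_odd d with he | ho
    · obtain ⟨e, rfl⟩ := he
      have he1 : 1 ≤ e := by omega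
      have hs : 2 ≤ r ^ e := by
        calc 2 ≤ r := by omega
          _ = r ^ 1 := (pow_one r).symm
          _ ≤ r ^ e := Nat.pow_le_pow_right (by omega) he1
      rw [pow_add] at h1 hle ⊢
      have := PmFin.sq_case hs hro.pow hc0 hc7 hk h1 hle
      right
      rcases this with h | h | h | h <;> rw [h] <;> simp
    · exfalso
      have hd3 : 3 ≤ d := by
        rcases ho with ⟨t, ht⟩
        omega
      exact PmFin.odd_case hr3 hro hd3 ho hc0 hc7 h1

theorem pm_fin (hz : TwoCyc z) (h4 : 4 ≤ Nat.card P)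
    (hinv : ∀ x : N, z • x = x⁻¹) (hmin : PMin P (⊤ : Subgroup N))
    (hcard : Nat.card N = 25 ∨ Nat.card N = 49 ∨ Nat.card N = 81)
    (h7 : Nat.card N ≤ 7 * Nat.card P) : WGood P N := by
  have hodd : Odd (Nat.card N) := by
    rcases hcard with h | h | h <;> rw [h] <;> decide
  have hcomm : ∀ x y : N, x * y = y * x := comm_of_inv hinv
  have hdvd := PmFin.card_dvd hz hodd hinv
  obtain ⟨k, hk1, hk⟩ := hz.card
  obtain ⟨ρ, hρ, hρz, hρ1⟩ := PmFin.gens hz
  obtain ⟨V, hV, θ, hθ⟩ := PmFin.exists_add hcomm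
  obtain ⟨R, hR⟩ := PmFin.exists_R θ hθ ρ
  have h1 : θ 0 = 1 := by
    have := hθ 0 0
    rw [add_zero] at this
    exact (mul_eq_left.1 this.symm)
  have hneg : ∀ x, θ (-x) = (θ x)⁻¹ := by
    intro x
    have := hθ (-x) x
    rw [neg_add_cancel, h1] at this
    exact eq_inv_of_mul_eq_one_left this.symm
  have hnsm : ∀ (n : ℕ) x, θ (n • x) = (θ x) ^ n := by
    intro n x
    induction n with
    | zero => rw [zero_smul, h1, pow_zero]
    | succ n ih => rw [add_smul, one_smul, hθ, ih, pow_succ]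
  have hiter : ∀ (n : ℕ) v, θ (R^[n] v) = ρ ^ n • θ v := by
    intro n
    induction n with
    | zero => intro v; simp
    | succ n ih =>
      intro v
      rw [Function.iterate_succ_apply', hR, ih, pow_succ', mul_smul]
  have hhalf : ∀ v, R^[Nat.card P / 2] v = -v := by
    intro v
    apply θ.injective
    rw [hiter, hρz, hinv, hneg]
  -- the power maps
  have hpow : ∀ n : ℕ, ∃ R' : V →+ V, (∀ v, θ (R' v) = ρ ^ n • θ v) ∧ ∀ v, R' v = R^[n] v := by
    intro n
    obtain ⟨R', hR'⟩ := PmFin.exists_R θ hθ (ρ ^ n)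
    refine ⟨R', hR', fun v => ?_⟩
    apply θ.injective
    rw [hiter, hR']
  have hv : ∃ v : V, v ≠ 0 := by
    by_contra hcon
    push Not at hcon
    have h2 : ∀ x : N, x = 1 := by
      intro x
      have := hcon (θ.symm x)
      have h3 := θ.apply_symm_apply x
      rw [this, h1] at h3
      exact h3.symm
    have : Subsingleton N := ⟨fun a b => by rw [h2 a, h2 b]⟩
    have h3 : Nat.card N = 1 := Nat.card_unique
    omega
  obtain ⟨v, hv⟩ := hv
  have hsmul : ∀ r : ℕ, r.Prime → r ∣ Nat.card N → ∀ v : V, r • v = 0 := by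
    intro r hr hd v
    apply θ.injective
    rw [hnsm, h1]
    exact PmFin.expo hcomm hmin hr hd (θ v)
  rcases hcard with hN | hN | hN
  · -- 25
    have h5 := hsmul 5 (by norm_num) (by rw [hN]; decide)
    rw [hN, hk] at hdvd
    have hk4 : k ≤ 4 := by
      by_contra hcon
      have h2 := Nat.le_of_dvd (by norm_num) hdvd
      have h3 : 2 ^ 5 ≤ 2 ^ k := Nat.pow_le_pow_right (by norm_num) (by omega)
      omega
    rw [hk] at h4
    interval_cases k
    · omega
    · -- order 4
      exfalso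
      rw [hk] at hhalf
      have hh : ∀ v, R (R v) = -v := fun v => by simpa using hhalf v
      obtain ⟨a, ha, s, hs⟩ := PmFin.fac25_4 h5 R hh hv
      let : Module (ZMod 5) V := AddCommGroup.zmodModule h5
      have hsurj := PmFin.surj ρ hρ hmin (W := ZMod 5) (fun x => θ (x • a)) (fun x y => by
        rw [← hθ]; congr 1; exact add_smul x y a) (T := fun x => (s : ZMod 5) * x) (fun x => by
        rw [← hR, ZMod.map_smul R x a, hs, ← Int.cast_smul_eq_zsmul (ZMod 5) s a, smul_smul,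
          mul_comm])
        (w0 := 1) (by
          rw [one_smul]
          intro h2
          rw [← h1] at h2
          exact ha (θ.injective h2))
      have := Nat.card_le_card_of_surjective _ hsurj
      rw [hN, Nat.card_zmod] at this
      omega
    · -- order 8
      rw [hk] at hhalf hρ1
      have hh : ∀ v, R (R (R (R v))) = -v := fun v => by simpa using hhalf v
      obtain ⟨a, ha, hs | hs⟩ := PmFin.fac25_8 h5 R hh hv
      · obtain ⟨F, hF⟩ := model_25_c8
        exact PmFin.two_dim ρ hρ hmin θ hθ R hR 5 h5 (by rw [hN]) 2 0 ha (by rw [hs]; module)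
          (F := F) (by simpa using hF)
      · obtain ⟨F, hF⟩ := model_25_c8
        obtain ⟨R', hR', hRR⟩ := hpow 3
        refine PmFin.two_dim (ρ ^ 3) (PmFin.odd_gen hρ hρ1 3 3 1 (by norm_num)) hmin θ hθ R' hR' 5
          h5 (by rw [hN]) 2 0 ha ?_ (F := F) (by simpa using hF)
        simp only [hRR, Function.iterate_succ, Function.iterate_zero, Function.comp, id, hs,
          map_zsmul]
        have := h5 a
        linear_combination (norm := module) (5 : ℤ) • this
    · exfalso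
      revert hdvd
      decide
  · -- 49
    have h5 := hsmul 7 (by norm_num) (by rw [hN]; decide)
    rw [hN, hk] at h7
    rw [hN, hk] at hdvd
    have hk4 : k ≤ 5 := by
      by_contra hcon
      have h2 := Nat.le_of_dvd (by norm_num) hdvd
      have h3 : 2 ^ 6 ≤ 2 ^ k := Nat.pow_le_pow_right (by norm_num) (by omega)
      omega
    interval_cases k
    · omega
    · omega
    · -- order 8
      rw [hk] at hhalf hρ1
      have hh : ∀ v, R (R (R (R v))) = -v := fun v => by simpa using hhalf v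
      obtain ⟨a, ha, hs | hs⟩ := PmFin.fac49_8 h5 R hh hv
      · obtain ⟨F, hF⟩ := model_49_c8
        exact PmFin.two_dim ρ hρ hmin θ hθ R hR 7 h5 (by rw [hN]) (-1) 3 ha hs
          (F := F) (by simpa using hF)
      · obtain ⟨F, hF⟩ := model_49_c8
        obtain ⟨R', hR', hRR⟩ := hpow 5
        refine PmFin.two_dim (ρ ^ 5) (PmFin.odd_gen hρ hρ1 5 5 3 (by norm_num)) hmin θ hθ R' hR' 7
          h5 (by rw [hN]) (-1) 3 ha ?_ (F := F) (by simpa using hF)
        have h9 : ∀ v, R' v = -R v := by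
          intro v
          rw [hRR]
          simp only [Function.iterate_succ, Function.iterate_zero, Function.comp, id]
          rw [hh]
        simp only [h9, map_neg, hs]
        module
    · -- order 16
      rw [hk] at hhalf hρ1
      have hh : ∀ v, R (R (R (R (R (R (R (R v))))))) = -v := fun v => by simpa using hhalf v
      obtain ⟨a, ha, s, hs, hs'⟩ := PmFin.fac49_16 h5 R hh hv
      obtain ⟨F, hF⟩ := model_49_c16
      have g1 := h5 a
      have g2 := h5 (R a)
      rcases hs with rfl | rfl | rfl | rfl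
      · exact PmFin.two_dim ρ hρ hmin θ hθ R hR 7 h5 (by rw [hN]) 1 1 ha hs'
          (F := F) (by simpa using hF)
      · obtain ⟨R', hR', hRR⟩ := hpow 9
        refine PmFin.two_dim (ρ ^ 9) (PmFin.odd_gen hρ hρ1 9 9 5 (by norm_num)) hmin θ hθ R' hR' 7
          h5 (by rw [hN]) 1 1 ha ?_ (F := F) (by simpa using hF)
        have h9 : ∀ v, R' v = -R v := by
          intro v
          rw [hRR]
          simp only [Function.iterate_succ, Function.iterate_zero, Function.comp, id]
          rw [hh]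
        simp only [h9, map_neg, hs']
        module
      · obtain ⟨R', hR', hRR⟩ := hpow 3
        refine PmFin.two_dim (ρ ^ 3) (PmFin.odd_gen hρ hρ1 3 11 2 (by norm_num)) hmin θ hθ R' hR'
          7 h5 (by rw [hN]) 1 1 ha ?_ (F := F) (by simpa using hF)
        have h9 : ∀ v, R' v = R (R (R v)) := by
          intro v
          rw [hRR]
          simp only [Function.iterate_succ, Function.iterate_zero, Function.comp, id]
        simp only [h9, hs', map_zsmul, map_add]
        linear_combination (norm := module) (15 : ℤ) • g1 + (50 : ℤ) • g2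
      · obtain ⟨R', hR', hRR⟩ := hpow 11
        refine PmFin.two_dim (ρ ^ 11) (PmFin.odd_gen hρ hρ1 11 3 2 (by norm_num)) hmin θ hθ R' hR'
          7 h5 (by rw [hN]) 1 1 ha ?_ (F := F) (by simpa using hF)
        have h9 : ∀ v, R' v = -R (R (R v)) := by
          intro v
          rw [hRR]
          simp only [Function.iterate_succ, Function.iterate_zero, Function.comp, id]
          rw [hh]
        simp only [h9, hs', map_zsmul, map_add, map_neg]
        linear_combination (norm := module) (15 : ℤ) • g1 - (50 : ℤ) • g2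
    · exfalso
      revert hdvd
      decide
  · -- 81
    have h5 := hsmul 3 (by norm_num) (by rw [hN]; decide)
    rw [hN, hk] at h7
    rw [hN, hk] at hdvd
    have hk4 : k ≤ 6 := by
      by_contra hcon
      have h2 := Nat.le_of_dvd (by norm_num) hdvd
      have h3 : 2 ^ 7 ≤ 2 ^ k := Nat.pow_le_pow_right (by norm_num) (by omega)
      omega
    interval_cases k
    · omega
    · omega
    · omega
    · -- order 16
      rw [hk] at hhalf hρ1
      have hh : ∀ v, R (R (R (R (R (R (R (R v))))))) = -v := fun v => by simpa using hhalf v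
      obtain ⟨a, ha, hs | hs⟩ := PmFin.fac81_16 h5 R hh hv
      · exact PmFin.four_dim ρ hρ hmin θ hθ R hR h5 hN ha hs
      · obtain ⟨R', hR', hRR⟩ := hpow 5
        refine PmFin.four_dim (ρ ^ 5) (PmFin.odd_gen hρ hρ1 5 13 4 (by norm_num)) hmin θ hθ R' hR'
          h5 hN ha ?_
        have h9 : ∀ v, R' (R' v) = -R (R v) := by
          intro v
          rw [hRR, hRR]
          simp only [Function.iterate_succ, Function.iterate_zero, Function.comp, id]
          rw [hh]
        simp only [h9, map_neg, neg_neg, hs]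
        module
    · exfalso
      revert hdvd
      decide
    · exfalso
      revert hdvd
      decide

end

end Pool.Agent.Lib_MP_8306f4_co.CaseB
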