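import Pool.Agent.Lib_MP_8306f4_co.CaseB.Defs
import Pool.Agent.Lib_MP_8306f4_co.CaseB.Transfer
import Pool.Agent.Lib_MP_8306f4_co.CaseB.GBasics
import Pool.Agent.Lib_MP_8306f4_co.CaseB.GInv
import Pool.Agent.Lib_MP_8306f4_co.CaseB.HomSolv
import Pool.Agent.Lib_MP_8306f4_co.CaseB.PmBig

/-!
# MP_8306f4_co, case B, piece PmPrime

Notation. x·y = qop f x y = x f(x⁻¹y) on N; lambda_m: y -> m y is always an automorphism of it
(f commutes with nothing needed). 1·y = f(y). If Equi P f, then y -> p•y is an automorphism.
core(A): a∘b = 2b-a. For every x: y -> x·y is bijective (f bijective), for every y: x -> x·y is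
bijective (x⁻¹f(x) bijective). '2 is invertible': all groups N have odd order.

## B14 (PmPrime.lean): pm_prime. N≅Z_p, P subgroup of F_p^* of order≥4, -1,i∈P. (I) 2∈P: f=2x off P, -x on P.
f(f u)=u iff u∈P (u≠0); R(u)=u·0=u-f(u)=2u on P. x∘y:=x·y if y-x∉P, y·x if y-x∈P equals 2y-x: α additive, α=γx, γP=P.
(II) 2∉P: f=(1-i)x off P, (1+i)x on P. 0·(u·0)=(0·u)·0 fails exactly for u∈P∪(1-i)⁻¹P =: D; f(D)=(1+i)P∪P; D∩f(D)=P (2∉P): P is
A_1-invariant; (1-i)u=f(u) off P, =f(R(u)) on P: ∘ with multiplier 1-i is preserved, α additive.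
homs: isHom_coprime for r≠p; for r=p differences.
-/

universe u v w

namespace Pool.Agent.Lib_MP_8306f4_co.CaseB

open Pool.Agent.Lib_MP_8306f4_co

namespace PmPrime

open PmAux PmTrans PmBig

/-- transport of a model along an isomorphism -/
theorem bmodel_congr {V : Type u} {W : Type w} [AddCommGroup V] [AddCommGroup W] (e : V ≃+ W)
    {R F : W → W} {R' : V → V} (hR : ∀ x, e (R' x) = R (e x)) (h : BModel R F) :
    BModel R' (fun x => e.symm (F (e x))) := by
  have hpow : ∀ (k : ℕ) x, e (R'^[k] x) = R^[k] (e x) := by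
    intro k
    induction k with
    | zero => intro x; rfl
    | succ k ih => intro x; rw [Function.iterate_succ_apply, ih, hR, Function.iterate_succ_apply]
  refine ⟨?_, ?_, ?_, ?_, ?_, ?_⟩
  · exact e.symm.bijective.comp (h.bij.comp e.bijective)
  · have : (fun x => e.symm (F (e x)) - x) = e.symm ∘ (fun x => F x - x) ∘ e := by
      funext x
      apply e.injective
      simp
    rw [this]
    exact e.symm.bijective.comp (h.bij'.comp e.bijective)
  · intro x
    apply e.injective
    rw [e.apply_symm_apply, hR, h.comm, hR, e.apply_symm_apply]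
  · rw [map_zero, h.zero, map_zero]
  · intro α hα h0
    obtain ⟨k, hk⟩ := h.rig (e.symm.toEquiv.trans (α.trans e.toEquiv)) (by
      intro x y
      change e (α (e.symm (x + F (y - x)))) =
        e (α (e.symm x)) + F (e (α (e.symm y)) - e (α (e.symm x)))
      have := hα (e.symm x) (e.symm y)
      rw [← map_sub, e.apply_symm_apply, ← map_add] at this
      rw [this, map_add, e.apply_symm_apply, map_sub]) (by
      change e (α (e.symm 0)) = 0
      rw [map_zero, h0, map_zero])
    refine ⟨k, fun x => ?_⟩
    apply e.injective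
    rw [hpow, ← hk]
    change e (α x) = e (α (e.symm (e x)))
    rw [e.symm_apply_apply]
  · intro r hr g hg x
    have := h.hom r hr (fun v => g (e.symm v)) (by
      intro x y
      have h1 := hg (e.symm x) (e.symm y)
      rw [← map_sub, e.apply_symm_apply, ← map_add] at h1
      exact h1) (e x)
    rw [e.symm_apply_apply, map_zero] at this
    exact this

section field

variable {p : ℕ} [hp : Fact p.Prime]

/-- the `p`-th difference vanishes -/
theorem diff_zero (hp2 : p ≠ 2) (h : ZMod p → ZMod p) (y : ZMod p) :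
    (fwdDiff (1 : ZMod p))^[p] h y = 0 := by
  have hodd : Odd p := hp.out.odd_of_ne_two hp2
  rw [fwdDiff_iter_eq_sum_shift, Finset.sum_range_succ]
  have hpr := hp.out
  have hch : ∀ k, 0 < k → k < p → ((p.choose k : ℕ) : ZMod p) = 0 := by
    intro k hk hkp
    rw [ZMod.natCast_eq_zero_iff]
    exact hpr.dvd_choose_self (by omega) hkp
  have hsum : ∑ k ∈ Finset.range p, ((-1 : ℤ) ^ (p - k) * (p.choose k : ℤ)) •
      h (y + k • (1 : ZMod p)) = - h y := by
    rw [Finset.sum_eq_single 0]
    · simp [hodd.neg_one_pow]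
    · intro k hk hk0
      rw [Finset.mem_range] at hk
      rw [zsmul_eq_mul]
      push_cast
      rw [hch k (Nat.pos_of_ne_zero hk0) hk, mul_zero, zero_mul]
    · intro h0
      exact absurd (Finset.mem_range.mpr hpr.pos) h0
  rw [hsum]
  simp

/-- homomorphisms to the core of `ZMod p` -/
theorem hom_p (F : ZMod p → ZMod p) (hF : ∃ u, F u ≠ 2 * u) (hp2 : p ≠ 2)
    (h : ZMod p → ZMod p) (hh : ∀ x u, h (x + F u) - h x = 2 * (h (x + u) - h x)) :
    ∀ x, h x = h 0 := by
  have key : ∀ (n : ℕ) (h : ZMod p → ZMod p),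
      (∀ x u, h (x + F u) - h x = 2 * (h (x + u) - h x)) →
      (∀ y, (fwdDiff (1 : ZMod p))^[n] h y = 0) → ∀ x, h x = h 0 := by
    intro n
    induction n with
    | zero =>
      intro h _ h0 x
      have e1 : h x = 0 := h0 x
      have e2 : h 0 = 0 := h0 0
      rw [e1, e2]
    | succ n ih =>
      intro h hh h0
      have h1 := ih (fwdDiff (1 : ZMod p) h) (by
        intro x u
        have e1 := hh (x + 1) u
        have e2 := hh x u
        simp only [fwdDiff]
        have c1 : x + F u + 1 = x + 1 + F u := by ring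
        have c2 : x + u + 1 = x + 1 + u := by ring
        rw [c1, c2]
        linear_combination e1 - e2) (by
        intro y
        exact h0 y)
      simp only [fwdDiff, zero_add] at h1
      set c := h 1 - h 0 with hc
      have h2 : ∀ n : ℕ, h (n : ZMod p) = h 0 + n * c := by
        intro n
        induction n with
        | zero => simp
        | succ n ihn =>
          have := h1 n
          push_cast
          linear_combination this + ihn
      have h3 : ∀ x : ZMod p, h x = h 0 + x * c := by
        intro x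
        have := h2 x.val
        rwa [ZMod.natCast_zmod_val] at this
      obtain ⟨u, hu⟩ := hF
      have h4 := hh 0 u
      rw [zero_add, zero_add, h3 (F u), h3 u] at h4
      have h5 : (F u - 2 * u) * c = 0 := by linear_combination h4
      have hc0 : c = 0 := by
        rcases mul_eq_zero.mp h5 with h | h
        · exact absurd (sub_eq_zero.mp h) hu
        · exact h
      intro x
      rw [h3 x, hc0, mul_zero, add_zero]
  exact key p h hh (diff_zero hp2 h)

/-- The data: a subgroup `G` of the multiplicative group, generated by `g`. -/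
structure Dat (g : ZMod p) (G : Set (ZMod p)) : Prop where
  mem : ∀ x, x ∈ G ↔ ∃ k : ℕ, x = g ^ k
  ne : g ≠ 0
  neg : (-1 : ZMod p) ∈ G
  two : (2 : ZMod p) ≠ 0
  three : (3 : ZMod p) ≠ 0

variable {g : ZMod p} {G : Set (ZMod p)}

theorem Dat.ne_zero (D : Dat g G) {x : ZMod p} (hx : x ∈ G) : x ≠ 0 := by
  obtain ⟨k, rfl⟩ := (D.mem x).mp hx
  exact pow_ne_zero _ D.ne

theorem Dat.zero (D : Dat g G) : (0 : ZMod p) ∉ G := fun h => D.ne_zero h rfl

theorem Dat.one (D : Dat g G) : (1 : ZMod p) ∈ G := (D.mem 1).mpr ⟨0, (pow_zero g).symm⟩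

theorem Dat.mul (D : Dat g G) {x y : ZMod p} (hx : x ∈ G) (hy : y ∈ G) : x * y ∈ G := by
  obtain ⟨k, rfl⟩ := (D.mem x).mp hx
  obtain ⟨l, rfl⟩ := (D.mem y).mp hy
  exact (D.mem _).mpr ⟨k + l, (pow_add g k l).symm⟩

theorem Dat.inv (D : Dat g G) {x : ZMod p} (hx : x ∈ G) : x⁻¹ ∈ G := by
  obtain ⟨k, rfl⟩ := (D.mem x).mp hx
  refine (D.mem _).mpr ⟨k * (p - 2), ?_⟩
  have h1 : (g ^ k) ^ (p - 1) = 1 := ZMod.pow_card_sub_one_eq_one (pow_ne_zero _ D.ne)
  have hp2 := hp.out.two_le
  have h2 : p - 1 = (p - 2) + 1 := by omega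
  rw [h2, pow_succ] at h1
  rw [pow_mul]
  exact (eq_inv_of_mul_eq_one_left h1).symm

theorem Dat.mul_iff (D : Dat g G) {c : ZMod p} (hc : c ∈ G) (x : ZMod p) :
    c * x ∈ G ↔ x ∈ G := by
  constructor
  · intro h
    have := D.mul (D.inv hc) h
    rwa [inv_mul_cancel_left₀ (D.ne_zero hc)] at this
  · exact D.mul hc

theorem Dat.neg_iff (D : Dat g G) (x : ZMod p) : -x ∈ G ↔ x ∈ G := by
  rw [← neg_one_mul]
  exact D.mul_iff D.neg x

theorem Dat.g_mem (D : Dat g G) : g ∈ G := (D.mem g).mpr ⟨1, (pow_one g).symm⟩

open scoped Classical in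
/-- the two valued map -/
noncomputable def F2 (G : Set (ZMod p)) (a b : ZMod p) (x : ZMod p) : ZMod p :=
  if x ∈ G then a * x else b * x

theorem F2_mem {a b x : ZMod p} (h : x ∈ G) : F2 G a b x = a * x := if_pos h

theorem F2_not {a b x : ZMod p} (h : x ∉ G) : F2 G a b x = b * x := if_neg h

theorem F2_inj (D : Dat g G) {a b c : ZMod p} (hb : b ≠ 0) (hc : c ∈ G) (ha : a = c * b) :
    Function.Injective (F2 G a b) := by
  have hc0 := D.ne_zero hc
  have ha0 : a ≠ 0 := by rw [ha]; exact mul_ne_zero hc0 hb
  have key : ∀ x y, x ∈ G → y ∉ G → F2 G a b x ≠ F2 G a b y := by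
    intro x y hx hy h
    rw [F2_mem hx, F2_not hy, ha] at h
    have : y = c * x := by
      apply mul_left_cancel₀ hb
      rw [← h]; ring
    rw [this] at hy
    exact hy (D.mul hc hx)
  intro x y hxy
  by_cases hx : x ∈ G
  · by_cases hy : y ∈ G
    · rw [F2_mem hx, F2_mem hy] at hxy
      exact mul_left_cancel₀ ha0 hxy
    · exact absurd hxy (key x y hx hy)
  · by_cases hy : y ∈ G
    · exact absurd hxy.symm (key y x hy hx)
    · rw [F2_not hx, F2_not hy] at hxy
      exact mul_left_cancel₀ hb hxy

theorem F2_sub {a b : ZMod p} (x : ZMod p) : F2 G a b x - x = F2 G (a - 1) (b - 1) x := by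
  by_cases hx : x ∈ G
  · rw [F2_mem hx, F2_mem hx]; ring
  · rw [F2_not hx, F2_not hx]; ring

theorem F2_comm (D : Dat g G) {a b : ZMod p} (x : ZMod p) :
    F2 G a b (g * x) = g * F2 G a b x := by
  by_cases hx : x ∈ G
  · rw [F2_mem hx, F2_mem (D.mul D.g_mem hx)]; ring
  · rw [F2_not hx, F2_not (fun h => hx ((D.mul_iff D.g_mem x).mp h))]; ring

theorem F2_zero (D : Dat g G) {a b : ZMod p} : F2 G a b 0 = 0 := by
  rw [F2_not D.zero, mul_zero]

/-- The main construction of models. -/
theorem model (D : Dat g G) (hp2 : p ≠ 2) {a b c d m : ZMod p} (hb : b ≠ 0) (hb1 : b - 1 ≠ 0)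
    (hc : c ∈ G) (ha : a = c * b) (hd : d ∈ G) (ha1 : a - 1 = d * (b - 1)) (ha2 : a ≠ 2)
    (hm0 : m ≠ 0) (hm1 : 1 - m ≠ 0)
    (hG : ∀ α : Equiv.Perm (ZMod p),
      (∀ x y, α (x + F2 G a b (y - x)) = α x + F2 G a b (α y - α x)) → α 0 = 0 →
      ∀ x, α x ∈ G ↔ x ∈ G)
    (hm : ∀ α : Equiv.Perm (ZMod p),
      (∀ x y, α (x + F2 G a b (y - x)) = α x + F2 G a b (α y - α x)) → α 0 = 0 →
      (∀ x y, α y - α x ∈ G ↔ y - x ∈ G) → ∀ x y, α (x + m * (y - x)) = α x + m * (α y - α x)) :
    BModel (fun x => g * x) (F2 G a b) := by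
  have hbij : Function.Bijective (F2 G a b) :=
    (Finite.injective_iff_bijective).mp (F2_inj D hb hc ha)
  have hbij' : Function.Bijective (fun x => F2 G a b x - x) := by
    simp only [F2_sub]
    exact (Finite.injective_iff_bijective).mp (F2_inj D hb1 hd ha1)
  refine ⟨hbij, hbij', F2_comm D, F2_zero D, ?_, ?_⟩
  · intro α hα h0
    have hiff : ∀ x y, α y - α x ∈ G ↔ y - x ∈ G := by
      intro x y
      let β : Equiv.Perm (ZMod p) := (Equiv.addLeft x).trans (α.trans (Equiv.addRight (-α x)))
      have hβ : ∀ u, β u = α (x + u) - α x := fun u => by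
        change α (x + u) + -α x = _
        rw [sub_eq_add_neg]
      have h1 := hG β (by
        intro u w
        rw [hβ, hβ, hβ]
        have := hα (x + u) (x + w)
        rw [add_sub_add_left_eq_sub] at this
        rw [← add_assoc, this, sub_sub_sub_cancel_right]
        ring) (by rw [hβ, add_zero, sub_self]) (y - x)
      rw [hβ, add_sub_cancel] at h1
      exact h1
    have h2 := hm α hα h0 hiff
    obtain ⟨hadd, _⟩ := add_of_affine (AddMonoidHom.mulLeft m)
      (fun y => ⟨m⁻¹ * y, by
        change m * (m⁻¹ * y) = y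
        rw [mul_inv_cancel_left₀ hm0]⟩)
      (fun y => ⟨(1 - m)⁻¹ * y, by
        change (1 - m)⁻¹ * y - m * ((1 - m)⁻¹ * y) = y
        have : (1 - m)⁻¹ * y - m * ((1 - m)⁻¹ * y) = (1 - m) * ((1 - m)⁻¹ * y) := by ring
        rw [this, mul_inv_cancel_left₀ hm1]⟩) α h0 h2
    have h3 : ∀ n : ℕ, α (n : ZMod p) = α 1 * n := by
      intro n
      induction n with
      | zero => simp [h0]
      | succ n ih =>
        push_cast
        rw [hadd, ih]; ring
    have h4 : ∀ x : ZMod p, α x = α 1 * x := by
      intro x
      have := h3 x.val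
      rwa [ZMod.natCast_zmod_val] at this
    have h5 : α 1 ∈ G := (hG α hα h0 1).mpr D.one
    obtain ⟨k, hk⟩ := (D.mem _).mp h5
    refine ⟨k, fun x => ?_⟩
    rw [h4 x, hk]
    clear hk h5
    induction k generalizing x with
    | zero => simp
    | succ k ih => rw [Function.iterate_succ_apply, ← ih, pow_succ]; ring
  · intro r hr h hh
    have E : ∀ x u, h (x + F2 G a b u) - h x = 2 * (h (x + u) - h x) := by
      intro x u
      have := hh x (x + u)
      rw [add_sub_cancel_left] at this
      rw [this]; ring
    by_cases hrp : r = p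
    · subst hrp
      exact hom_p (F2 G a b) ⟨1, by
        rw [F2_mem D.one]
        intro h
        exact ha2 (mul_right_cancel₀ one_ne_zero h)⟩ hp2 h E
    · have hnd : ¬ r ∣ Nat.card (Multiplicative (ZMod p)) := by
        have : Nat.card (Multiplicative (ZMod p)) = p := by
          rw [Nat.card_congr (Multiplicative.toAdd), Nat.card_zmod]
        rw [this, (Nat.prime_dvd_prime_iff_eq hr hp.out)]
        exact hrp
      have hO : IsOrth (G := Multiplicative (ZMod p)) (fun x => Multiplicative.ofAdd
          (F2 G a b x.toAdd)) := by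
        refine ⟨hbij, ?_⟩
        have : (fun x : Multiplicative (ZMod p) => x⁻¹ * Multiplicative.ofAdd
            (F2 G a b x.toAdd)) = fun x => Multiplicative.ofAdd (F2 G a b x.toAdd - x.toAdd) := by
          funext x
          change Multiplicative.ofAdd (-x.toAdd + F2 G a b x.toAdd) = _
          rw [neg_add_eq_sub]
        rw [this]
        exact hbij'
      intro x
      exact isHom_coprime hO hr hnd (fun x => h x.toAdd) (by
        intro x y
        change h (x.toAdd + F2 G a b (-x.toAdd + y.toAdd)) = 2 • h y.toAdd - h x.toAdd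
        rw [neg_add_eq_sub, hh, two_nsmul, two_mul]) (Multiplicative.ofAdd x)

/-- case I: `2 ∈ G` -/
theorem model1 (D : Dat g G) (hp2 : p ≠ 2) (h2 : (2 : ZMod p) ∈ G) :
    BModel (fun x => g * x) (F2 G (-1) 2) := by
  have h1 : (2 : ZMod p) - 1 ≠ 0 := by norm_num
  refine model D hp2 (c := -1 * 2⁻¹) (d := -1 * 2) (m := 2) D.two h1
    (D.mul D.neg (D.inv h2)) ?_ (D.mul D.neg h2) (by ring) ?_ D.two ?_ ?_ ?_
  · rw [mul_assoc, inv_mul_cancel₀ D.two]; ring
  · intro h
    apply D.three
    linear_combination -h
  · intro h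
    have : (1 : ZMod p) = 0 := by linear_combination -h
    exact one_ne_zero this
  · intro α hα h0 x
    have hF : ∀ u, α (F2 G (-1) 2 u) = F2 G (-1) 2 (α u) := by
      intro u
      have := hα 0 u
      rwa [zero_add, sub_zero, h0, zero_add, sub_zero] at this
    have key : ∀ u, u ∈ G ↔ u ≠ 0 ∧ F2 G (-1) 2 (F2 G (-1) 2 u) = u := by
      intro u
      constructor
      · intro hu
        refine ⟨D.ne_zero hu, ?_⟩
        have hu' : -1 * u ∈ G := D.mul D.neg hu
        rw [F2_mem hu, F2_mem hu']; ring
      · rintro ⟨hu0, hu⟩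
        by_contra hn
        have hn' : 2 * u ∉ G := fun h => hn ((D.mul_iff h2 u).mp h)
        rw [F2_not hn, F2_not hn'] at hu
        have : (3 : ZMod p) * u = 0 := by linear_combination hu
        rcases mul_eq_zero.mp this with h | h
        · exact D.three h
        · exact hu0 h
    rw [key, key]
    have e1 : α x = 0 ↔ x = 0 := by
      constructor
      · intro h; rw [← h0] at h; exact α.injective h
      · intro h; rw [h, h0]
    rw [← hF, ← hF, α.injective.eq_iff, ne_eq, ne_eq, e1]
  · intro α hα h0 hiff x y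
    by_cases h : y - x ∈ G
    · have e1 := hα y x
      have h' : x - y ∈ G := by
        rw [← neg_sub, D.neg_iff]; exact h
      have h'' : α x - α y ∈ G := by
        rw [hiff]; exact h'
      rw [F2_mem h', F2_mem h''] at e1
      have c1 : x + 2 * (y - x) = y + -1 * (x - y) := by ring
      rw [c1, e1]; ring
    · have e1 := hα x y
      rw [F2_not h, F2_not (fun h' => h ((hiff x y).mp h'))] at e1
      exact e1

/-- case II: `2 ∉ G` -/
theorem model2 (D : Dat g G) (hp2 : p ≠ 2) (h2 : (2 : ZMod p) ∉ G) {i : ZMod p} (hi : i ∈ G)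
    (hii : i * i = -1) : BModel (fun x => g * x) (F2 G (1 + i) (1 - i)) := by
  have hi0 := D.ne_zero hi
  have hprod : (1 + i) * (1 - i) = 2 := by linear_combination -hii
  have hb : (1 - i) ≠ 0 := by
    intro h
    rw [h, mul_zero] at hprod
    exact D.two hprod.symm
  have ha : (1 + i) ≠ 0 := by
    intro h
    rw [h, zero_mul] at hprod
    exact D.two hprod.symm
  have hani : (1 + i) ∉ G := by
    intro h
    have h1 := D.mul h h
    have h3 : (1 + i) * (1 + i) = i * 2 := by linear_combination hii
    rw [h3] at h1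
    exact h2 ((D.mul_iff hi 2).mp h1)
  have hbni : (1 - i) ∉ G := by
    intro h
    apply hani
    have : 1 + i = i * (1 - i) := by linear_combination hii
    rw [this]
    exact D.mul hi h
  have haG : ∀ u ∈ G, (1 + i) * u ∉ G := by
    intro u hu h
    apply hani
    rw [mul_comm] at h
    exact (D.mul_iff hu _).mp h
  have hbG : ∀ u ∈ G, (1 - i) * u ∉ G := by
    intro u hu h
    apply hbni
    rw [mul_comm] at h
    exact (D.mul_iff hu _).mp h
  refine model D hp2 (c := i) (d := -1) (m := 1 - i) hb ?_ hi ?_ D.neg (by ring) ?_ hb ?_ ?_ ?_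
  · intro h
    apply hi0
    linear_combination -h
  · linear_combination hii
  · intro h
    have h1 : i = 1 := by linear_combination h
    rw [h1] at hii
    apply D.two
    linear_combination hii
  · intro h
    apply hi0
    linear_combination h
  · intro α hα h0 x
    set F := F2 G (1 + i) (1 - i) with hFdef
    have hF0 : F 0 = 0 := F2_zero D
    have hF : ∀ u, α (F u) = F (α u) := by
      intro u
      have := hα 0 u
      rwa [zero_add, sub_zero, h0, zero_add, sub_zero] at this
    -- the defect set
    have hD : ∀ u, (0 : ZMod p) ∈ BB F u ↔ (u ∈ G ∨ (1 - i) * u ∈ G) := by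
      intro u
      change F (u + F (0 - u)) ≠ F u + F (F 0 - F u) ↔ _
      rw [hF0, zero_sub, zero_sub]
      by_cases hu : u ∈ G
      · have c1 : F (-u) = (1 + i) * (-u) := F2_mem ((D.neg_iff u).mpr hu)
        have c2 : u + F (-u) = (-1 * i) * u := by rw [c1]; ring
        have c3 : F (u + F (-u)) = (1 - i) * u := by
          rw [c2]
          have : (-1 * i) * u ∈ G := D.mul (D.mul D.neg hi) hu
          rw [hFdef, F2_mem this]
          linear_combination (-u) * hii
        have c4 : F u = (1 + i) * u := F2_mem hu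
        have c5 : F (-F u) = -2 * u := by
          have : -F u ∉ G := by
            rw [D.neg_iff, c4]
            exact haG u hu
          have e : F (-F u) = (1 - i) * (-F u) := F2_not this
          rw [e, c4]
          linear_combination (-u) * hprod
        rw [c3, c5, c4]
        constructor
        · intro _; exact Or.inl hu
        · intro _ h
          have : (2 : ZMod p) * ((1 - i) * u) = 0 := by linear_combination h
          rcases mul_eq_zero.mp this with h' | h'
          · exact D.two h'
          · rcases mul_eq_zero.mp h' with h'' | h''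
            · exact hb h''
            · exact D.ne_zero hu h''
      · have hnu : -u ∉ G := fun h => hu ((D.neg_iff u).mp h)
        have c1 : F (-u) = (1 - i) * (-u) := F2_not hnu
        have c2 : u + F (-u) = i * u := by rw [c1]; ring
        have c3 : F (u + F (-u)) = (1 + i) * u := by
          rw [c2]
          have : i * u ∉ G := fun h => hu ((D.mul_iff hi u).mp h)
          have e : F (i * u) = (1 - i) * (i * u) := F2_not this
          rw [e]
          linear_combination (-u) * hii
        have c4 : F u = (1 - i) * u := F2_not hu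
        rw [c3, c4]
        by_cases hu2 : (1 - i) * u ∈ G
        · have c5 : F (-((1 - i) * u)) = (1 + i) * (-((1 - i) * u)) :=
            F2_mem ((D.neg_iff _).mpr hu2)
          rw [c5]
          constructor
          · intro _; exact Or.inr hu2
          · intro _ h
            have : (2 : ZMod p) * ((1 + i) * u) = 0 := by
              linear_combination h - u * hprod
            have hu0 : u ≠ 0 := by
              rintro rfl
              rw [mul_zero] at hu2
              exact D.zero hu2
            rcases mul_eq_zero.mp this with h' | h'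
            · exact D.two h'
            · rcases mul_eq_zero.mp h' with h'' | h''
              · exact ha h''
              · exact hu0 h''
        · have c5 : F (-((1 - i) * u)) = (1 - i) * (-((1 - i) * u)) :=
            F2_not (fun h => hu2 ((D.neg_iff _).mp h))
          rw [c5]
          constructor
          · intro h
            exfalso
            apply h
            linear_combination u * hii
          · rintro (h | h)
            · exact absurd h hu
            · exact absurd h hu2
    have hDα : ∀ u, (0 : ZMod p) ∈ BB F (α u) ↔ (0 : ZMod p) ∈ BB F u := by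
      intro u
      have := BB_iff F α h0 hα u 0
      rwa [h0] at this
    have key : ∀ u, u ∈ G ↔ (0 : ZMod p) ∈ BB F u ∧ ∃ w, (0 : ZMod p) ∈ BB F w ∧ F w = u := by
      intro u
      constructor
      · intro hu
        refine ⟨(hD u).mpr (Or.inl hu), (1 - i)⁻¹ * u, ?_, ?_⟩
        · rw [hD]
          right
          rw [mul_inv_cancel_left₀ hb]
          exact hu
        · have : (1 - i)⁻¹ * u ∉ G := by
            intro h
            apply hbG _ h
            rw [mul_inv_cancel_left₀ hb]
            exact hu
          have e : F ((1 - i)⁻¹ * u) = (1 - i) * ((1 - i)⁻¹ * u) := F2_not this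
          rw [e, mul_inv_cancel_left₀ hb]
      · rintro ⟨hu, w, hw, hwu⟩
        by_contra hn
        have hu' := ((hD u).mp hu).resolve_left hn
        rw [hD] at hw
        by_cases hwG : w ∈ G
        · have e : F w = (1 + i) * w := F2_mem hwG
          rw [← hwu, e] at hu'
          have : (1 - i) * ((1 + i) * w) = w * 2 := by linear_combination w * hprod
          rw [this] at hu'
          exact h2 ((D.mul_iff hwG 2).mp hu')
        · have hw' := hw.resolve_left hwG
          have e : F w = (1 - i) * w := F2_not hwG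
          rw [← hwu, e] at hn
          exact hn hw'
    rw [key, key, hDα]
    constructor
    · rintro ⟨h, w, hw, hwu⟩
      refine ⟨h, α.symm w, ?_, ?_⟩
      · rw [← hDα, α.apply_symm_apply]; exact hw
      · apply α.injective
        rw [hF, α.apply_symm_apply]; exact hwu
    · rintro ⟨h, w, hw, hwu⟩
      refine ⟨h, α w, (hDα w).mpr hw, ?_⟩
      rw [← hF, hwu]
  · intro α hα h0 hiff x y
    by_cases h : y - x ∈ G
    · have comp : ∀ x y : ZMod p, y - x ∈ G → x + (1 - i) * (y - x) =
          x + F2 G (1 + i) (1 - i) (y + F2 G (1 + i) (1 - i) (x - y) - x) := by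
        intro x y h
        have h' : x - y ∈ G := by
          rw [← neg_sub, D.neg_iff]; exact h
        rw [F2_mem h']
        have c1 : y + (1 + i) * (x - y) - x = (-1 * i) * (y - x) := by ring
        rw [c1, F2_mem (D.mul (D.mul D.neg hi) h)]
        linear_combination (y - x) * hii
      rw [comp x y h, hα, hα, ← comp (α x) (α y) ((hiff x y).mpr h)]
    · have e1 := hα x y
      rw [F2_not h, F2_not (fun h' => h ((hiff x y).mp h'))] at e1
      exact e1

end field

end PmPrime

section
variable {P : Type v} [Group P] {z : P} {N : Type u} [Group N] [Finite N]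
  [MulDistribMulAction P N]

open PmAux PmTrans PmPrime in
theorem pm_prime (hz : TwoCyc z) (h4 : 4 ≤ Nat.card P) (hN : Odd (Nat.card N))
    (hinv : ∀ x : N, z • x = x⁻¹)
    (hp : (Nat.card N).Prime) (hcard : Nat.card N ≠ Nat.card P + 1) : WGood P N := by
  have hmin : PMin P (⊤ : Subgroup N) := by
    have : Fact (Nat.card N).Prime := ⟨hp⟩
    have hnt : Nontrivial N := Finite.one_lt_card_iff_nontrivial.mp hp.one_lt
    refine ⟨top_ne_bot, fun _ _ _ => trivial, fun H _ _ => ?_⟩
    exact Subgroup.eq_bot_or_eq_top_of_prime_card H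
  apply reduce hz hN hinv hmin
  intro V _ _ _ _ hVN hinv hmin hreg h2 ρ hρ
  have hP : Finite P := hz.fin
  obtain ⟨hρ1, hρ2, hρz⟩ := facts h4 hρ hz.sq
  set p := Nat.card V with hpdef
  have hpp : p.Prime := by rw [hVN]; exact hp
  have : Fact p.Prime := ⟨hpp⟩
  have hp2 : p ≠ 2 := by
    intro h
    rw [hVN] at h
    rw [h] at hN
    exact absurd hN (by decide)
  -- the isomorphism
  have e0 : Multiplicative V ≃* Multiplicative (ZMod p) := by
    apply mulEquivOfPrimeCardEq (p := p)
    · rw [Nat.card_congr Multiplicative.toAdd]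
    · rw [Nat.card_congr Multiplicative.toAdd, Nat.card_zmod]
  let e : V ≃+ ZMod p := AddEquiv.toMultiplicative.symm e0
  let φ : ZMod p →+ ZMod p :=
    (e.toAddMonoidHom.comp (DistribSMul.toAddMonoidHom V ρ)).comp e.symm.toAddMonoidHom
  have hφ : ∀ x, φ x = e (ρ • e.symm x) := fun _ => rfl
  set g := φ 1 with hg
  have hφg : ∀ x : ZMod p, φ x = g * x := by
    intro x
    have h := ZMod.map_smul φ x (1 : ZMod p)
    rw [smul_eq_mul, mul_one, smul_eq_mul] at h
    rw [h, mul_comm]
  have he : ∀ x, e (ρ • x) = g * e x := by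
    intro x
    rw [← hφg, hφ, e.symm_apply_apply]
  have hpow : ∀ (k : ℕ) x, e (ρ ^ k • x) = g ^ k * e x := by
    intro k
    induction k with
    | zero => intro x; simp
    | succ k ih => intro x; rw [pow_succ, mul_smul, ih, he, pow_succ, mul_assoc]
  obtain ⟨a, ha⟩ := exists_ne (0 : V)
  have hea : e a ≠ 0 := by
    intro h
    exact ha (e.injective (h.trans (map_zero e).symm))
  obtain ⟨m, hm⟩ := hρ z
  have hgm : g ^ m = -1 := by
    have h1 := hpow m a
    rw [← hm, hinv, map_neg] at h1
    apply mul_right_cancel₀ hea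
    rw [← h1]; ring
  have hcardP : Nat.card P + 1 ≤ p := by
    have hinj : Function.Injective (fun o : Option P => match o with
        | none => (0 : V)
        | some q => q • a) := by
      rintro (_ | q) (_ | q') h
      · rfl
      · exact absurd ((smul_eq_zero_iff_eq q').mp (show q' • a = 0 from h.symm)) ha
      · exact absurd ((smul_eq_zero_iff_eq q).mp (show q • a = 0 from h)) ha
      · have h1 : q • a = q' • a := h
        have h2 : (q'⁻¹ * q) • a = a := by rw [mul_smul, h1, inv_smul_smul]
        rw [(inv_mul_eq_one.mp (hreg a _ ha h2)).symm]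
    have := Nat.card_le_card_of_injective _ hinj
    rwa [Finite.card_option] at this
  have hord : orderOf ρ = Nat.card P := by
    apply le_antisymm
    · exact Nat.le_of_dvd Nat.card_pos (orderOf_dvd_natCard ρ)
    · exact card_le hρ (orderOf_pos ρ) (pow_orderOf_eq_one ρ)
  have h2m : 2 ∣ m := by
    obtain ⟨k, hk1, hk⟩ := hz.card
    have h4' : 4 ∣ Nat.card P := by
      rw [hk]
      have hk2 : 2 ≤ k := by
        by_contra hlt
        have : k = 1 := by omega
        rw [hk, this] at h4
        omega
      obtain ⟨j, rfl⟩ := Nat.exists_eq_add_of_le hk2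
      exact ⟨2 ^ j, by rw [pow_add]; norm_num⟩
    have h5 : ρ ^ (2 * m) = 1 := by
      rw [two_mul, pow_add, ← hm, hz.sq]
    have h6 := orderOf_dvd_of_pow_eq_one h5
    rw [hord] at h6
    have := h4'.trans h6
    omega
  obtain ⟨l, rfl⟩ := h2m
  have hg0 : g ≠ 0 := by
    intro h
    have := he a
    rw [h, zero_mul] at this
    have h1 : ρ • a = 0 := e.injective (this.trans (map_zero e).symm)
    exact ha ((smul_eq_zero_iff_eq ρ).mp h1)
  have hnat : ∀ n : ℕ, 0 < n → n < 4 → ((n : ℕ) : ZMod p) ≠ 0 := by
    intro n hn hn4 h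
    rw [ZMod.natCast_eq_zero_iff] at h
    have := Nat.le_of_dvd hn h
    omega
  have D : Dat g {x : ZMod p | ∃ k : ℕ, x = g ^ k} := by
    refine ⟨fun _ => Iff.rfl, hg0, ⟨2 * l, hgm.symm⟩, ?_, ?_⟩
    · have := hnat 2 (by norm_num) (by norm_num)
      exact_mod_cast this
    · have := hnat 3 (by norm_num) (by norm_num)
      exact_mod_cast this
  by_cases hc : (2 : ZMod p) ∈ {x : ZMod p | ∃ k : ℕ, x = g ^ k}
  · exact ⟨_, bmodel_congr e he (model1 D hp2 hc)⟩
  · exact ⟨_, bmodel_congr e he (model2 D hp2 hc (i := g ^ l) ⟨l, rfl⟩ (by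
      rw [← pow_add, ← two_mul, hgm]))⟩

end

end Pool.Agent.Lib_MP_8306f4_co.CaseB
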