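import Pool.Agent.Lib_MP_8306f4_co.CaseB.Defs
import Pool.Agent.Lib_MP_8306f4_co.CaseB.Bsc
import Pool.Agent.Lib_MP_8306f4_co.CaseB.NDelta
import Pool.Agent.Lib_MP_8306f4_co.CaseB.NInv2
import Pool.Agent.Lib_MP_8306f4_co.CaseB.Transfer
import Pool.Agent.Lib_MP_8306f4_co.CaseB.PmTrans
import Pool.Agent.Lib_MP_8306f4_co.CaseB.PmBig
import Pool.Agent.Lib_MP_8306f4_co.CaseB.PmPrime
import Pool.Agent.Lib_MP_8306f4_co.CaseB.PmFin
import Pool.Agent.Lib_MP_8306f4_co.CaseB.Pm2Prime
import Pool.Agent.Lib_MP_8306f4_co.CaseB.Pm2Small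
import Pool.Agent.Lib_MP_8306f4_co.CaseB.Inv4_81
import Pool.Agent.Lib_MP_8306f4_co.CaseB.GPmin

/-!
# MP_8306f4_co, case B, piece NInv4

Notation. x·y = qop f x y = x f(x⁻¹y) on N; lambda_m: y -> m y is always an automorphism of it
(f commutes with nothing needed). 1·y = f(y). If Equi P f, then y -> p•y is an automorphism.
core(A): a∘b = 2b-a. For every x: y -> x·y is bijective (f bijective), for every y: x -> x·y is
bijective (x⁻¹f(x) bijective). '2 is invertible': all groups N have odd order.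

## N3 (NInv4.lean): inv4_main [bsc, delta_dichotomy, pm_*, pm2_*, inv4_81]. Strong induction, K PMin ≤ ⊤. K=⊤: pm_*: (|N|=|P|+1:
pm_trans; 7|P|<|N|: pm_big; else pm_number; 9: |P|=4, Exc e4). Else M=N/K. M good: dichotomy: nonhom: bsc; else |M|=|P|+1, M≅K: no
retraction: bsc; retraction: N≅M×M: pm2_prime/small, wgood_congr. M Exc e4: |K|=9: inv4_81; |K|≠9: then 3∤|K|; K':=3-part of N,
order 9, PMin, N/K'≅K good by IH: bsc.
-/

universe u v w

namespace Pool.Agent.Lib_MP_8306f4_co.CaseB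

open Pool.Agent.Lib_MP_8306f4_co

namespace NInv4

/-- `r ^ d = 2 ^ k + 1` -/
lemma pow_number {r d k : ℕ} (hr : r.Prime) (hodd : Odd r) (h : r ^ d = 2 ^ k + 1) (hk : 2 ≤ k) :
    (r ^ d).Prime ∨ r ^ d = 9 := by
  have hd0 : d ≠ 0 := by
    rintro rfl
    have : 0 < 2 ^ k := by positivity
    rw [pow_zero] at h
    omega
  rcases Nat.even_or_odd' d with ⟨e, rfl | rfl⟩
  · -- even exponent
    right
    have he0 : e ≠ 0 := by omega
    set x := r ^ e with hx
    have hx1 : 1 < x := Nat.one_lt_pow he0 hr.one_lt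
    have hxx : r ^ (2 * e) = x * x := by rw [hx, two_mul, pow_add]
    rw [hxx] at h ⊢
    have h1 : (x - 1) * (x + 1) = 2 ^ k := by
      obtain ⟨y, hy⟩ : ∃ y, x = y + 1 := ⟨x - 1, by omega⟩
      have : (y + 1 - 1) * (y + 1 + 1) + 1 = (y + 1) * (y + 1) := by
        rw [Nat.add_sub_cancel]
        ring
      rw [hy] at h ⊢
      omega
    obtain ⟨a, _, ha⟩ := (Nat.dvd_prime_pow Nat.prime_two).1 (Dvd.intro _ h1)
    obtain ⟨b, _, hb⟩ := (Nat.dvd_prime_pow Nat.prime_two).1 (Dvd.intro_left _ h1)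
    have hab : 2 ^ b = 2 ^ a + 2 := by omega
    have hb2 : b = 2 ∧ a = 1 := by
      have hlt : a < b := by
        by_contra hc
        have := Nat.pow_le_pow_right (show 1 ≤ 2 by norm_num) (not_lt.1 hc)
        omega
      obtain ⟨c, rfl⟩ : ∃ c, b = a + c + 1 := ⟨b - a - 1, by omega⟩
      have h5 : 2 ^ (a + c + 1) = 2 ^ a * 2 ^ c * 2 := by rw [pow_succ, pow_add]
      rw [h5] at hab
      have h6 : 1 ≤ 2 ^ c := Nat.one_le_two_pow
      have h7 : 1 ≤ 2 ^ a := Nat.one_le_two_pow
      have hc0 : c = 0 := by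
        by_contra hc
        have h8 : 2 ≤ 2 ^ c := by
          calc 2 = 2 ^ 1 := by norm_num
            _ ≤ 2 ^ c := Nat.pow_le_pow_right (by norm_num) (by omega)
        have h9 : 2 ^ a * 2 ≤ 2 ^ a * 2 ^ c := Nat.mul_le_mul_left _ h8
        omega
      subst hc0
      rw [pow_zero, mul_one] at hab
      have ha2 : 2 ^ a = 2 ^ 1 := by omega
      have := Nat.pow_right_injective (le_refl 2) ha2
      omega
    have : x = 3 := by
      rw [hb2.1] at hb
      omega
    rw [this]
  · -- odd exponent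
    by_cases he : e = 0
    · left
      subst he
      simpa using hr
    exfalso
    -- (r - 1) * (1 + r + ... ) = 2 ^ k
    have h1 : (r - 1) * ∑ i ∈ Finset.range (2 * e + 1), r ^ i = 2 ^ k := by
      have := Nat.geomSum_eq (show 2 ≤ r from hr.two_le) (2 * e + 1)
      have h2 : (r - 1) ∣ r ^ (2 * e + 1) - 1 := by
        simpa using Nat.sub_dvd_pow_sub_pow r 1 (2 * e + 1)
      rw [this, Nat.mul_div_cancel' h2, h, Nat.add_sub_cancel]
    obtain ⟨b, _, hb⟩ := (Nat.dvd_prime_pow Nat.prime_two).1 (Dvd.intro_left _ h1)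
    have h3 : Odd (∑ i ∈ Finset.range (2 * e + 1), r ^ i) := by
      rw [Finset.odd_sum_iff_odd_card_odd]
      have h4 : (Finset.range (2 * e + 1)).filter (fun i => Odd (r ^ i)) =
          Finset.range (2 * e + 1) := by
        apply Finset.filter_true_of_mem
        intro i _
        exact hodd.pow
      rw [h4, Finset.card_range]
      exact ⟨e, rfl⟩
    have h5 : 1 < ∑ i ∈ Finset.range (2 * e + 1), r ^ i := by
      have h6 : ∑ i ∈ Finset.range 2, r ^ i ≤ ∑ i ∈ Finset.range (2 * e + 1), r ^ i := by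
        apply Finset.sum_le_sum_of_subset
        intro i hi
        rw [Finset.mem_range] at hi ⊢
        omega
      have h7 : ∑ i ∈ Finset.range 2, r ^ i = 1 + r := by
        simp [Finset.sum_range_succ]
      have := hr.two_le
      omega
    rw [hb] at h3 h5
    have hb0 : b ≠ 0 := by
      rintro rfl
      simp at h5
    exact (Nat.not_even_iff_odd.2 h3) ((Nat.even_pow' hb0).2 even_two)

section
variable {P : Type v} [Group P] {z : P} {N : Type u} [Group N] [Finite N]
  [MulDistribMulAction P N]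

lemma quot (hN : Odd (Nat.card N))
    (hinv : ∀ x : N, z • x = x⁻¹) (K : Subgroup N) (hK : PInv P K) :
    ∃ (M : Type u) (_ : Group M) (_ : MulDistribMulAction P M) (_ : Finite M) (π : N →* M),
      Function.Surjective π ∧ (∀ (p : P) x, π (p • x) = p • π x) ∧ π.ker = K ∧
      (∀ m : M, z • m = m⁻¹) ∧ Nat.card K * Nat.card M = Nat.card N ∧ Odd (Nat.card M) := by
  have hcomm := comm_of_inv hinv
  have hnorm : K.Normal := ⟨fun x hx g => by
    rw [hcomm g x, mul_inv_cancel_right]
    exact hx⟩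
  obtain ⟨M, iM, aM, π, hs, he, hker⟩ := exists_quot (P := P) K hK
  have hMf : Finite M := Finite.of_surjective π hs
  have hinvM : ∀ m : M, z • m = m⁻¹ := by
    intro m
    obtain ⟨x, rfl⟩ := hs m
    rw [← he, hinv, map_inv]
  have hcard : Nat.card K * Nat.card M = Nat.card N := by
    have h6 := Subgroup.card_mul_index π.ker
    rw [Subgroup.index_ker, MonoidHom.range_eq_top.mpr hs,
      Nat.card_congr Subgroup.topEquiv.toEquiv, hker] at h6
    exact h6
  have hodd : Odd (Nat.card M) := by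
    rw [← hcard] at hN
    exact (Nat.odd_mul.1 hN).2
  exact ⟨M, iM, aM, hMf, π, hs, he, hker, hinvM, hcard, hodd⟩

/-- regular orbits on an invariant subgroup -/
lemma card_dvd (hz : TwoCyc z) (hN : Odd (Nat.card N)) (hinv : ∀ x : N, z • x = x⁻¹)
    (H : Subgroup N) (hH : PInv P H) : Nat.card P ∣ Nat.card H - 1 := by
  let X := {x : H // x ≠ 1}
  let act : MulAction P X :=
    { smul := fun p x => ⟨⟨p • (x.1 : N), hH p _ x.1.2⟩, fun h => x.2 (by
        have h1 : p • (x.1 : N) = 1 := congrArg Subtype.val h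
        have h2 : p⁻¹ • (p • (x.1 : N)) = p⁻¹ • (1 : N) := by rw [h1]
        rw [inv_smul_smul, smul_one] at h2
        exact Subtype.ext h2)⟩
      one_smul := fun x => Subtype.ext (Subtype.ext (one_smul P (x.1 : N)))
      mul_smul := fun p q x => Subtype.ext (Subtype.ext (mul_smul p q (x.1 : N))) }
  have hstab : ∀ x : X, MulAction.stabilizer P x = ⊥ := by
    intro x
    rw [eq_bot_iff]
    intro p hp
    rw [MulAction.mem_stabilizer_iff] at hp
    have h1 : p • (x.1 : N) = x.1 := congrArg (fun y : X => ((y.1 : H) : N)) hp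
    have hx1 : (x.1 : N) ≠ 1 := fun h => x.2 (Subtype.ext h)
    have h2 : z • (x.1 : N) ≠ x.1 := by
      rw [hinv]
      exact NInv2.inv_ne_self hN hx1
    exact Subgroup.mem_bot.2 (hz.regular h2 h1)
  have e := MulAction.selfEquivOrbitsQuotientProd hstab
  have h1 := Nat.card_congr e
  rw [Nat.card_prod] at h1
  have h2 : Nat.card X = Nat.card H - 1 := by
    have h3 : Nat.card X = (({1} : Set H)ᶜ).ncard := by
      rw [← Nat.card_coe_set_eq]
      rfl
    rw [h3, Set.ncard_compl, Set.ncard_singleton]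
  rw [← h2, h1]
  exact Dvd.intro_left _ rfl

lemma rho (hz : TwoCyc z) (h4 : Nat.card P = 4) : ∃ ρ : P, ρ * ρ = z ∧ ∀ p : P, ∃ n : ℕ,
    p = ρ ^ n := by
  have hfin : Finite P := hz.fin
  obtain ⟨ρ, hρ⟩ := hz.cyclic
  have ho : orderOf ρ = 4 := by
    rw [orderOf_eq_card_of_forall_mem_zpowers hρ, h4]
  have hne : ρ ^ 2 ≠ 1 := by
    intro h6
    have := orderOf_dvd_of_pow_eq_one h6
    rw [ho] at this
    omega
  have h4 : (ρ ^ 2) ^ 2 = 1 := by
    rw [← pow_mul, show 2 * 2 = orderOf ρ by rw [ho]]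
    exact pow_orderOf_eq_one ρ
  refine ⟨ρ, ?_, ?_⟩
  · obtain ⟨i, hi⟩ := Subgroup.mem_zpowers_iff.1 (hz.mem_zpowers hne)
    rw [← sq]
    rcases Int.even_or_odd' i with ⟨j, rfl | rfl⟩
    · exfalso
      apply hz.ne_one
      rw [← hi, zpow_mul]
      have h7 : (ρ ^ 2) ^ (2 : ℤ) = 1 := by exact_mod_cast h4
      rw [h7, one_zpow]
    · rw [← hi, zpow_add, zpow_mul]
      have h7 : (ρ ^ 2) ^ (2 : ℤ) = 1 := by exact_mod_cast h4
      rw [h7, one_zpow, one_mul, zpow_one]
  · intro p
    have h8 : p ∈ Subgroup.zpowers ρ := hρ p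
    rw [← mem_powers_iff_mem_zpowers] at h8
    obtain ⟨n, hn⟩ := h8
    exact ⟨n, hn.symm⟩

/-- minimal invariant 3-subgroups for `|P| = 4` have order 9 -/
lemma card_nine (hz : TwoCyc z) (h4 : Nat.card P = 4) (hN : Odd (Nat.card N))
    (hinv : ∀ x : N, z • x = x⁻¹) (K : Subgroup N) (hK : PMin P K)
    (h3 : ∀ x ∈ K, x ^ 3 = 1) {d : ℕ} (hd : Nat.card K = 3 ^ d) : Nat.card K = 9 := by
  have hcomm := comm_of_inv hinv
  obtain ⟨ρ, hρ, hgen⟩ := rho hz h4
  obtain ⟨⟨k, hk⟩, hk1⟩ := Subgroup.ne_bot_iff_exists_ne_one.1 hK.1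
  have hk1' : k ≠ 1 := fun h => hk1 (Subtype.ext h)
  have hC : ∀ a b : N, Commute a b := fun a b => hcomm a b
  let H : Subgroup N :=
    { carrier := {x | ∃ i j : ℤ, x = k ^ i * (ρ • k) ^ j}
      one_mem' := ⟨0, 0, by simp⟩
      mul_mem' := by
        rintro _ _ ⟨i, j, rfl⟩ ⟨i', j', rfl⟩
        refine ⟨i + i', j + j', ?_⟩
        rw [zpow_add, zpow_add, mul_assoc, mul_assoc, ← mul_assoc ((ρ • k) ^ j),
          hcomm ((ρ • k) ^ j) (k ^ i'), mul_assoc]
      inv_mem' := by
        rintro _ ⟨i, j, rfl⟩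
        refine ⟨-i, -j, ?_⟩
        rw [mul_inv_rev, hcomm, zpow_neg, zpow_neg] }
  have hmem : ∀ x, x ∈ H ↔ ∃ i j : ℤ, x = k ^ i * (ρ • k) ^ j := fun x => Iff.rfl
  have hHK : H ≤ K := by
    rintro _ ⟨i, j, rfl⟩
    exact mul_mem (zpow_mem hk i) (zpow_mem (hK.2.1 ρ k hk) j)
  have hρH : ∀ x ∈ H, ρ • x ∈ H := by
    rintro _ ⟨i, j, rfl⟩
    refine ⟨-j, i, ?_⟩
    rw [smul_mul', smul_zpow', smul_zpow', smul_smul, hρ, hinv, inv_zpow, zpow_neg, hcomm]
  have hHinv : PInv P H := by
    intro p x hx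
    obtain ⟨n, rfl⟩ := hgen p
    induction n with
    | zero => rwa [pow_zero, one_smul]
    | succ n ih =>
      rw [pow_succ', mul_smul]
      exact hρH _ ih
  have hHeq : H = K := by
    rcases hK.2.2 H hHinv hHK with h | h
    · exfalso
      have h5 : k ∈ H := ⟨1, 0, by simp⟩
      rw [h] at h5
      exact hk1' (Subgroup.mem_bot.1 h5)
    · exact h
  have hle : Nat.card K ≤ 9 := by
    have hsurj : Function.Surjective (fun ij : Fin 3 × Fin 3 =>
        (⟨k ^ (ij.1 : ℕ) * (ρ • k) ^ (ij.2 : ℕ),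
          mul_mem (pow_mem hk _) (pow_mem (hK.2.1 ρ k hk) _)⟩ : K)) := by
      rintro ⟨x, hx⟩
      rw [← hHeq] at hx
      obtain ⟨i, j, rfl⟩ := hx
      have hi0 := Int.emod_nonneg i (show (3 : ℤ) ≠ 0 by norm_num)
      have hi3 := Int.emod_lt_of_pos i (show (0 : ℤ) < 3 by norm_num)
      have hj0 := Int.emod_nonneg j (show (3 : ℤ) ≠ 0 by norm_num)
      have hj3 := Int.emod_lt_of_pos j (show (0 : ℤ) < 3 by norm_num)
      refine ⟨⟨⟨(i % 3).toNat, by omega⟩, ⟨(j % 3).toNat, by omega⟩⟩, ?_⟩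
      apply Subtype.ext
      change k ^ ((i % 3).toNat) * (ρ • k) ^ ((j % 3).toNat) = k ^ i * (ρ • k) ^ j
      rw [← zpow_natCast, ← zpow_natCast, Int.toNat_of_nonneg hi0, Int.toNat_of_nonneg hj0,
        zpow_eq_zpow_emod' i (h3 k hk), zpow_eq_zpow_emod' j (h3 _ (hK.2.1 ρ k hk))]
      rfl
    have := Nat.card_le_card_of_surjective _ hsurj
    simpa using this
  have hdvd := card_dvd hz hN hinv K hK.2.1
  rw [h4] at hdvd
  have hd0 : d ≠ 0 := by
    rintro rfl
    exact hK.1 (Subgroup.eq_bot_of_card_eq K (by simpa using hd))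
  have hd3 : d < 3 := by
    by_contra hc
    have := Nat.pow_le_pow_right (show 1 ≤ 3 by norm_num) (not_lt.1 hc)
    omega
  have hd1 : d ≠ 1 := by
    rintro rfl
    rw [hd] at hdvd
    norm_num at hdvd
  have hd2 : d = 2 := by omega
  rw [hd, hd2]
  norm_num

end

theorem main {P : Type v} [Group P] {z : P} (hz : TwoCyc z) (h4 : 4 ≤ Nat.card P) (n : ℕ) :
    ∀ (N : Type u) [Group N] [Finite N] [MulDistribMulAction P N], Nat.card N = n →
      Odd (Nat.card N) → (∀ x : N, z • x = x⁻¹) → (∃ x : N, x ≠ 1) → WGood P N ∨ Exc N z := by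
  induction n using Nat.strong_induction_on with
  | _ n ih =>
  intro N _ _ _ hn hN hinv hne
  have hfin : Finite P := hz.fin
  have hcomm := comm_of_inv hinv
  have hcen : ∀ K : Subgroup N, K ≤ Subgroup.center N := fun K x _ =>
    Subgroup.mem_center_iff.2 (fun g => hcomm g x)
  have htop : (⊤ : Subgroup N) ≠ ⊥ := by
    obtain ⟨x, hx⟩ := hne
    intro h
    apply hx
    have h1 : x ∈ (⊤ : Subgroup N) := Subgroup.mem_top x
    rw [h] at h1
    exact Subgroup.mem_bot.1 h1
  obtain ⟨k2, hk21, hk2⟩ := hz.card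
  have hk22 : 2 ≤ k2 := by
    by_contra hc
    have : k2 = 1 := by omega
    rw [this] at hk2
    omega
  obtain ⟨K, _, hKm⟩ := exists_pmin_le (P := P) (⊤ : Subgroup N) htop
    (fun p x _ => Subgroup.mem_top _)
  obtain ⟨r, hr, hrK, d, hd⟩ := pmin_exponent K hKm (fun x _ y _ => hcomm x y)
  have hcardK1 : 1 < Nat.card K := by
    have h1 : Nat.card K ≠ 1 := fun h => hKm.1 (Subgroup.eq_bot_of_card_eq K h)
    have h2 : 0 < Nat.card K := Nat.card_pos
    omega
  have hoddr : Odd r := by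
    have h1 : Odd (Nat.card K) := hN.of_dvd_nat (Subgroup.card_subgroup_dvd_card K)
    rw [hd] at h1
    have hd0 : d ≠ 0 := by
      rintro rfl
      rw [hd, pow_zero] at hcardK1
      exact lt_irrefl _ hcardK1
    exact (Nat.odd_pow_iff hd0).1 h1
  by_cases hKt : K = ⊤
  · -- the irreducible case
    subst hKt
    have hNr : Nat.card N = r ^ d := by
      rw [← hd]
      exact (Nat.card_congr Subgroup.topEquiv.toEquiv).symm
    have hcN : 1 < Nat.card N := by
      rw [hNr, ← hd]
      exact hcardK1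
    have hdvd : Nat.card P ∣ Nat.card N - 1 := by
      have := card_dvd hz hN hinv ⊤ hKm.2.1
      rwa [Nat.card_congr Subgroup.topEquiv.toEquiv] at this
    by_cases h1 : Nat.card N = Nat.card P + 1
    · exact Or.inl (pm_trans hz h4 hN hinv hKm h1)
    by_cases h2 : 7 * Nat.card P < Nat.card N
    · exact Or.inl (pm_big hz h4 hN hinv hKm h2)
    push Not at h2
    rcases pm_number ⟨r, d, hr, hoddr, hNr⟩ ⟨k2, hk2⟩ h4 hdvd hcN h2 with h | h | h | h | h
    · exact Or.inl (pm_prime hz h4 hN hinv h h1)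
    · right
      refine Or.inr (Or.inr (Or.inr ⟨?_, hinv, h⟩))
      rw [h] at hdvd h1
      have h5 : Nat.card P ∣ 2 ^ 3 := hdvd
      obtain ⟨j, hj, hj'⟩ := (Nat.dvd_prime_pow Nat.prime_two).1 h5
      interval_cases j
      all_goals omega
    · exact Or.inl (pm_fin hz h4 hinv hKm (Or.inl h) h2)
    · exact Or.inl (pm_fin hz h4 hinv hKm (Or.inr (Or.inl h)) h2)
    · exact Or.inl (pm_fin hz h4 hinv hKm (Or.inr (Or.inr h)) h2)
  -- the general case
  obtain ⟨M, iM, aM, fM, π, hs, he, hker, hinvM, hcM, hoM⟩ := quot hN hinv K hKm.2.1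
  have hM1 : Nat.card M ≠ 1 := by
    intro h
    rw [h, mul_one] at hcM
    exact hKt (Subgroup.eq_top_of_card_eq K hcM)
  have hMpos : 0 < Nat.card M := Nat.card_pos
  have hlt : Nat.card M < n := by
    rw [← hn, ← hcM]
    exact lt_mul_of_one_lt_left hMpos hcardK1
  obtain ⟨a, ha⟩ := NDelta.exists_ne_one (M := M) (by omega)
  have hza : z • a ≠ a := by
    rw [hinvM]
    exact NInv2.inv_ne_self hoM ha
  subst hker
  rcases ih (Nat.card M) hlt M rfl hoM hinvM ⟨a, ha⟩ with hW | hE
  · left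
    rcases delta_dichotomy hz hN π hs he (hcen _) hKm a hza with hnh | ⟨hMP, s, hse, hsi, hsk, hsr⟩
    · exact bsc hz.pgroup hN π hs he (hcen _) hKm hW a ha (fun p hp => hz.regular hza hp)
        (Or.inr hnh)
    by_cases hret : ∃ τ : N →* N, (∀ (p : P) x, τ (p • x) = p • τ x) ∧ (∀ x, τ x ∈ π.ker) ∧
        ∀ k ∈ π.ker, τ k = k
    · -- N = M × M
      obtain ⟨τ, hτe, hτk, hτr⟩ := hret
      have hex : ∀ x : N, ∃ m : M, s m = τ x := fun x => hsr _ (hτk x)
      choose u hu using hex
      let U : N →* M :=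
        { toFun := u
          map_one' := hsi (by rw [hu, map_one, map_one])
          map_mul' := fun x y => hsi (by rw [hu, map_mul, map_mul, hu, hu]) }
      have hU : ∀ x, s (U x) = τ x := hu
      have hbij : Function.Bijective (π.prod U) := by
        constructor
        · rw [injective_iff_map_eq_one]
          intro x hx
          have h5 : π x = 1 := congrArg Prod.fst hx
          have h6 : U x = 1 := congrArg Prod.snd hx
          have h7 := hU x
          rw [h6, map_one, hτr x h5] at h7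
          exact h7.symm
        · rintro ⟨b, c⟩
          obtain ⟨x, hx⟩ := hs b
          have h5 : s c * (τ x)⁻¹ ∈ π.ker := mul_mem (hsk c) (inv_mem (hτk x))
          refine ⟨x * (s c * (τ x)⁻¹), ?_⟩
          apply Prod.ext
          · change π (x * (s c * (τ x)⁻¹)) = b
            rw [map_mul, (MonoidHom.mem_ker).1 h5, mul_one, hx]
          · change U (x * (s c * (τ x)⁻¹)) = c
            apply hsi
            rw [hU, map_mul, hτr _ h5, hcomm (s c), mul_inv_cancel_left]
      let e : N ≃* M × M := MulEquiv.ofBijective (π.prod U) hbij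
      have hee : ∀ (p : P) x, e (p • x) = p • e x := by
        intro p x
        apply Prod.ext
        · exact he p x
        · change U (p • x) = p • U x
          apply hsi
          rw [hU, hse, hU, hτe]
      have hfM : ∀ p : P, (∀ x : M, p • x = x) → p = 1 := fun p hp => hz.regular hza (hp a)
      have hMker : Nat.card M = Nat.card π.ker := by
        have h5 : Nat.card M ≤ Nat.card π.ker :=
          Nat.card_le_card_of_injective (fun m => (⟨s m, hsk m⟩ : π.ker))
            (fun m m' h => hsi (congrArg Subtype.val h))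
        have h6 : Nat.card π.ker ≤ Nat.card M :=
          Nat.card_le_card_of_surjective (fun m => (⟨s m, hsk m⟩ : π.ker)) (by
            rintro ⟨k, hk⟩
            obtain ⟨m, hm⟩ := hsr k hk
            exact ⟨m, Subtype.ext hm⟩)
        omega
      have hW2 : WGood P (M × M) := by
        have h5 : r ^ d = 2 ^ k2 + 1 := by
          rw [← hd, ← hMker, hMP, hk2]
        rcases pow_number hr hoddr h5 hk22 with h6 | h6
        · rw [← hd, ← hMker] at h6
          by_cases h7 : 7 ≤ Nat.card M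
          · exact pm2_prime hz hinvM h6 h7 hMP hfM
          · refine pm2_small hz hinvM (Or.inl ?_) hMP hfM
            have h8 : Nat.card M = 5 ∨ Nat.card M = 6 := by omega
            rcases h8 with h8 | h8
            · exact h8
            · rw [h8] at h6
              norm_num at h6
        · rw [← hd, ← hMker] at h6
          exact pm2_small hz hinvM (Or.inr h6) hMP hfM
      refine wgood_congr e.symm ?_ hW2
      intro p x
      apply e.injective
      rw [hee, e.apply_symm_apply, e.apply_symm_apply]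
    · exact bsc hz.pgroup hN π hs he (hcen _) hKm hW a ha (fun p hp => hz.regular hza hp)
        (Or.inl hret)
  -- M is exceptional: |P| = 4, |M| = 9
  obtain ⟨hP4, hM9⟩ : Nat.card P = 4 ∧ Nat.card M = 9 := by
    rcases hE with ⟨h2, _⟩ | ⟨h2, _⟩ | ⟨h2, _⟩ | ⟨h2, _, h3⟩
    · omega
    · omega
    · omega
    · exact ⟨h2, h3⟩
  by_cases hK9 : Nat.card π.ker = 9
  · left
    refine inv4_81 hz hP4 hinv ?_
    rw [← hcM, hK9, hM9]
  left
  have hr3 : r ≠ 3 := by
    rintro rfl
    exact hK9 (card_nine hz hP4 hN hinv _ hKm hrK hd)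
  have hco : Nat.Coprime (Nat.card π.ker) 9 := by
    rw [hd]
    apply Nat.Coprime.pow_left
    have : Nat.Coprime r 3 := (Nat.coprime_primes hr Nat.prime_three).2 hr3
    exact Nat.Coprime.pow_right 2 this
  -- the 3-part
  let K' : Subgroup N :=
    { carrier := {x | x ^ 9 = 1}
      one_mem' := one_pow 9
      mul_mem' := by
        intro a b ha hb
        change (a * b) ^ 9 = 1
        rw [Commute.mul_pow (hcomm a b), ha, hb, one_mul]
      inv_mem' := by
        intro a ha
        change a⁻¹ ^ 9 = 1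
        rw [inv_pow, ha, inv_one] }
  have hK'm : ∀ x, x ∈ K' ↔ x ^ 9 = 1 := fun _ => Iff.rfl
  have hK'inv : PInv P K' := by
    intro p x hx
    rw [hK'm] at hx ⊢
    rw [← smul_pow', hx, smul_one]
  have hK'inj : Function.Injective (fun x : K' => π (x : N)) := by
    intro x y hxy
    have h5 : (x : N) * (y : N)⁻¹ ∈ π.ker := by
      rw [MonoidHom.mem_ker, map_mul, map_inv, mul_inv_eq_one]
      exact hxy
    have h6 : ((x : N) * (y : N)⁻¹) ^ 9 = 1 := (mul_mem x.2 (inv_mem y.2) : _ ∈ K')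
    have h7 : (x : N) * (y : N)⁻¹ = 1 := by
      have h8 : orderOf ((x : N) * (y : N)⁻¹) ∣ 9 := orderOf_dvd_of_pow_eq_one h6
      have h9 : orderOf ((x : N) * (y : N)⁻¹) ∣ Nat.card π.ker := by
        have := orderOf_dvd_natCard (⟨(x : N) * (y : N)⁻¹, h5⟩ : π.ker)
        rwa [Subgroup.orderOf_mk] at this
      have h10 := Nat.dvd_gcd h9 h8
      rw [hco] at h10
      exact orderOf_eq_one_iff.1 (Nat.dvd_one.1 h10)
    exact Subtype.ext (mul_inv_eq_one.1 h7)
  have hK'surj : Function.Surjective (fun x : K' => π (x : N)) := by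
    intro m
    obtain ⟨x, hx⟩ := hs m
    -- x ^ (|K| * t) with |K| * t = 1 mod 9
    obtain ⟨t, ht⟩ : ∃ t : ℕ, Nat.card π.ker * t % 9 = 1 := by
      obtain ⟨t, ht⟩ := Nat.exists_mul_mod_eq_one_of_coprime hco (by norm_num)
      exact ⟨t, ht.2⟩
    have hx9 : x ^ 9 ∈ π.ker := by
      rw [MonoidHom.mem_ker, map_pow, hx, ← hM9]
      exact pow_card_eq_one'
    refine ⟨⟨x ^ (Nat.card π.ker * t), ?_⟩, ?_⟩
    · rw [hK'm, ← pow_mul, show Nat.card π.ker * t * 9 = 9 * Nat.card π.ker * t by ring, pow_mul,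
        pow_mul]
      have h5 : (x ^ 9) ^ Nat.card π.ker = 1 := by
        have := pow_card_eq_one' (x := (⟨x ^ 9, hx9⟩ : π.ker))
        exact congrArg Subtype.val this
      rw [h5, one_pow]
    · change π (x ^ (Nat.card π.ker * t)) = m
      rw [map_pow, hx]
      have h5 : m ^ 9 = 1 := by
        rw [← hM9]
        exact pow_card_eq_one'
      rw [← Nat.div_add_mod (Nat.card π.ker * t) 9, ht, pow_add, pow_mul, h5, one_pow, one_mul,
        pow_one]
  have hK'9 : Nat.card K' = 9 := by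
    rw [← hM9]
    exact Nat.card_congr (Equiv.ofBijective _ ⟨hK'inj, hK'surj⟩)
  have hK'min : PMin P K' := by
    refine ⟨?_, hK'inv, ?_⟩
    · intro h
      rw [h, Subgroup.card_bot] at hK'9
      omega
    · intro H hH hHK
      have h5 : Nat.card H ∣ 3 ^ 2 := by
        have := Subgroup.card_dvd_of_le hHK
        rw [hK'9] at this
        exact this
      obtain ⟨j, hj, hj'⟩ := (Nat.dvd_prime_pow Nat.prime_three).1 h5
      have h6 := card_dvd hz hN hinv H hH
      rw [hP4, hj'] at h6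
      have h7 : j = 0 ∨ j = 2 := by
        interval_cases j
        · exact Or.inl rfl
        · norm_num at h6
        · exact Or.inr rfl
      rcases h7 with rfl | rfl
      · exact Or.inl (Subgroup.eq_bot_of_card_eq H (by simpa using hj'))
      · right
        refine Subgroup.eq_of_le_of_card_ge hHK ?_
        rw [hK'9, hj']
        norm_num
  obtain ⟨M', iM', aM', fM', π', hs', he', hker', hinvM', hcM', hoM'⟩ :=
    quot hN hinv K' hK'inv
  have hM'K : Nat.card M' = Nat.card π.ker := by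
    rw [hK'9, ← hcM, hM9, mul_comm] at hcM'
    exact Nat.eq_of_mul_eq_mul_right (by norm_num) hcM'
  have hlt' : Nat.card M' < n := by
    rw [← hn, ← hcM', hK'9]
    have : 0 < Nat.card M' := Nat.card_pos
    omega
  obtain ⟨a', ha'⟩ := NDelta.exists_ne_one (M := M') (by omega)
  have hza' : z • a' ≠ a' := by
    rw [hinvM']
    exact NInv2.inv_ne_self hoM' ha'
  have hW' : WGood P M' := by
    rcases ih (Nat.card M') hlt' M' rfl hoM' hinvM' ⟨a', ha'⟩ with h | hE'
    · exact h
    exfalso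
    rcases hE' with ⟨h2, _⟩ | ⟨h2, _⟩ | ⟨h2, _⟩ | ⟨_, _, h3⟩
    · omega
    · omega
    · omega
    · exact hK9 (by rw [← hM'K, h3])
  rw [← hker'] at hK'min
  rcases delta_dichotomy hz hN π' hs' he' (hcen _) hK'min a' hza' with hnh | ⟨hMP, s, _, hsi, hsk, hsr⟩
  · exact bsc hz.pgroup hN π' hs' he' (hcen _) hK'min hW' a' ha'
      (fun p hp => hz.regular hza' hp) (Or.inr hnh)
  · exfalso
    have h6 : Nat.card π'.ker ≤ Nat.card M' :=
      Nat.card_le_card_of_surjective (fun m => (⟨s m, hsk m⟩ : π'.ker)) (by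
        rintro ⟨k, hk⟩
        obtain ⟨m, hm⟩ := hsr k hk
        exact ⟨m, Subtype.ext hm⟩)
    rw [hker', hK'9, hMP, hP4] at h6
    omega

end NInv4

section
variable {P : Type v} [Group P] {z : P} {N M : Type u} [Group N] [Finite N] [Group M]
  [MulDistribMulAction P N] [MulDistribMulAction P M]

/-- groups inverted by `z`, `|P| ≥ 4` -/
theorem inv4_main (hz : TwoCyc z) (h4 : 4 ≤ Nat.card P) (hN : Odd (Nat.card N))
    (hinv : ∀ x : N, z • x = x⁻¹) (hne : ∃ x : N, x ≠ 1) : WGood P N ∨ Exc N z :=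
  NInv4.main hz h4 _ N rfl hN hinv hne

end

end Pool.Agent.Lib_MP_8306f4_co.CaseB
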