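import Pool.Agent.Lib_MP_8306f4_co.CaseB.Bsgen
import Pool.Agent.Lib_MP_8306f4_co.CaseB.NInv2
import Pool.Agent.Lib_MP_8306f4_co.CaseB.NInv4
import Pool.Agent.Lib_MP_8306f4_co.CaseB.NB1
import Pool.Agent.Lib_MP_8306f4_co.CaseB.Base27

/-!
# Nilpotent groups: the main induction
-/

universe u v w

namespace Pool.Agent.Lib_MP_8306f4_co.CaseB

open Pool.Agent.Lib_MP_8306f4_co

lemma card_ker_mul {N M : Type u} [Group N] [Finite N] [Group M] (π : N →* M)
    (hs : Function.Surjective π) : Nat.card N = Nat.card π.ker * Nat.card M := by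
  have h1 := Subgroup.card_mul_index π.ker
  rw [Subgroup.index_ker, MonoidHom.range_eq_top.mpr hs] at h1
  rw [← h1, Nat.card_congr Subgroup.topEquiv.toEquiv]

section
variable {P : Type v} [Group P] {z : P}

lemma Exc.of_fix {N : Type u} [Group N] [MulDistribMulAction P N] (h2 : Nat.card P = 2)
    (h : Nat.card N = 3 * Nat.card (fixS z : Subgroup N)) : Exc N z := Or.inl ⟨h2, h⟩

theorem caseA (hz : TwoCyc z) {N M : Type u} [Group N] [Finite N] [Group M]
    [MulDistribMulAction P N] [MulDistribMulAction P M] (hN : Odd (Nat.card N)) (π : N →* M)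
    (hs : Function.Surjective π) (he : ∀ (p : P) x, π (p • x) = p • π x)
    (hc : π.ker ≤ Subgroup.center N) (hmin : PMin P π.ker) (hk : ∀ x ∈ π.ker, z • x = x)
    (a : M) (ha : z • a ≠ a) (h : WGood P M ∨ Exc M z) : WGood P N ∨ Exc N z := by
  have hfin : Finite P := hz.fin
  have hM : Finite M := Finite.of_surjective π hs
  have ha1 : a ≠ 1 := by
    rintro rfl
    exact ha (smul_one z)
  rcases h with h | h
  · left
    refine bsc hz.pgroup hN π hs he hc hmin h a ha1 (fun p hp => hz.regular ha hp) ?_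
    rcases delta_dichotomy hz hN π hs he hc hmin a ha with h1 | ⟨_, s, hse, hsi, hsk, _⟩
    · exact Or.inr h1
    · exfalso
      apply ha
      apply hsi
      rw [hse]
      exact hk _ (hsk a)
  · have hbs : ∀ (hinv : ∀ m : M, z • m = m⁻¹)
        (h' : (Nat.card P = 2 ∧ (Nat.card M = 5 ∨ Nat.card M = 7)) ∨
          (Nat.card P = 2 ∧ Nat.card M = 9 ∧ ∀ m : M, m ^ 3 = 1) ∨
          (Nat.card P = 4 ∧ Nat.card M = 9)), WGood P N := by
      intro hinv h'
      have hodd : Odd (Nat.card M) := by
        rw [card_ker_mul π hs] at hN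
        exact (Nat.odd_mul.1 hN).2
      obtain ⟨A, b, h1, h2, h3, h4, h5, h6⟩ := exists_A hz hM hinv h'
      refine bsgen hz hN π hs he hc hmin (fun x => ⟨fun hx => ?_, hk x⟩) A h1 h2 h3 h4 b h5 h6
      rw [MonoidHom.mem_ker]
      have h7 : (π x)⁻¹ = π x := by rw [← hinv, ← he, hx]
      have h8 : π x ^ 2 = 1 := by
        rw [sq]
        nth_rewrite 1 [← h7]
        exact inv_mul_cancel _
      have h9 : orderOf (π x) ∣ 2 := orderOf_dvd_of_pow_eq_one h8
      have h10 : orderOf (π x) ∣ Nat.card M := orderOf_dvd_natCard _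
      have h11 : Nat.Coprime 2 (Nat.card M) := Nat.coprime_two_left.2 hodd
      have h12 : orderOf (π x) ∣ 1 := by
        rw [← h11]
        exact Nat.dvd_gcd h9 h10
      exact orderOf_eq_one_iff.1 (Nat.dvd_one.1 h12)
    rcases h with ⟨h2, h3⟩ | ⟨h2, h3, h4⟩ | ⟨h2, h3, h4, h5⟩ | ⟨h2, h3, h4⟩
    · right
      refine Exc.of_fix h2 ?_
      rw [card_ker_mul π hs, card_fix_of_trivial hz.sq hN π hs (fun x => he z x) hk, h3]
      ring
    · exact Or.inl (hbs h3 (Or.inl ⟨h2, h4⟩))
    · exact Or.inl (hbs h3 (Or.inr (Or.inl ⟨h2, h4, h5⟩)))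
    · exact Or.inl (hbs h3 (Or.inr (Or.inr ⟨h2, h4⟩)))

/-- The main theorem for nilpotent groups. -/
theorem nil_main (hz : TwoCyc z) (n : ℕ) : ∀ (N : Type u) [Group N] [Finite N]
    [MulDistribMulAction P N] [Group.IsNilpotent N], Nat.card N = n → Odd (Nat.card N) →
    (∃ x : N, z • x ≠ x) → WGood P N ∨ Exc N z := by
  induction n using Nat.strong_induction_on with
  | _ n ih =>
  intro N _ _ _ _ hn hN hx
  have hfin : Finite P := hz.fin
  obtain ⟨x₀, hx₀⟩ := hx
  have hnt : Nontrivial N := ⟨x₀, 1, fun h => hx₀ (by rw [h, smul_one])⟩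
  by_cases hI : ∀ x : N, z • x = x → x = 1
  · -- inverted
    have hinv := inv_of_fix (N := N) hz.sq hI
    obtain ⟨k, hk1, hk⟩ := hz.card
    have hne : ∃ x : N, x ≠ 1 := exists_ne 1
    rcases Nat.lt_or_ge k 2 with h | h
    · have : k = 1 := by omega
      subst this
      exact inv2_main hz (by simpa using hk) hN hinv hne
    · refine inv4_main hz ?_ hN hinv hne
      rw [hk]
      calc 4 = 2 ^ 2 := by norm_num
        _ ≤ 2 ^ k := Nat.pow_le_pow_right (by norm_num) h
  push Not at hI
  obtain ⟨c, hc, hc1⟩ := hI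
  have quot : ∀ K : Subgroup N, K ≤ Subgroup.center N → PMin P K →
      ∃ (M : Type u) (_ : Group M) (_ : MulDistribMulAction P M) (_ : Finite M)
        (_ : Group.IsNilpotent M) (π : N →* M),
      Function.Surjective π ∧ (∀ (p : P) x, π (p • x) = p • π x) ∧ π.ker = K ∧
        Nat.card M < n ∧ Odd (Nat.card M) := by
    intro K hKc hKm
    have hKn : K.Normal := ⟨fun x hx g => by
      have h1 := Subgroup.mem_center_iff.1 (hKc hx) g
      rw [h1, mul_assoc, mul_inv_cancel, mul_one]
      exact hx⟩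
    obtain ⟨M, iM, aM, π, hs, he, hker⟩ := exists_quot (P := P) K hKm.2.1
    have hMf : Finite M := Finite.of_surjective π hs
    have h1 := card_ker_mul π hs
    rw [hker] at h1
    have hM0 : 0 < Nat.card M := Nat.card_pos
    have hK1 : 1 < Nat.card K := by
      have h2 : Nat.card K ≠ 1 := fun h => hKm.1 (Subgroup.eq_bot_of_card_eq K h)
      have h3 : 0 < Nat.card K := Nat.card_pos
      omega
    refine ⟨M, iM, aM, hMf, Group.nilpotent_of_surjective π hs, π, hs, he, hker, ?_, ?_⟩
    · rw [← hn, h1]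
      exact lt_mul_of_one_lt_left hM0 hK1
    · rw [h1] at hN
      exact (Nat.odd_mul.1 hN).2
  by_cases hcen : ∀ x ∈ Subgroup.center N, z • x = x → x = 1
  · -- case B
    have hcne : Subgroup.center N ≠ ⊥ := Group.IsNilpotent.center_ne_bot N
    have hcinv : PInv P (Subgroup.center N) := by
      intro p x hx
      rw [Subgroup.mem_center_iff] at hx ⊢
      intro g
      have := congrArg (fun y => p • y) (hx (p⁻¹ • g))
      simpa [smul_mul'] using this
    obtain ⟨K, hKc, hKm⟩ := exists_pmin_le (Subgroup.center N) hcne hcinv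
    obtain ⟨M, iM, aM, hMf, hMn, π, hs, he, hker, hlt, hodd⟩ := quot K hKc hKm
    subst hker
    by_cases htr : ∀ m : M, z • m = m
    · exact absurd (b1_contra hz hN π hs he hKc hcen htr c hc) hc1
    push Not at htr
    obtain ⟨a, ha⟩ := htr
    have ha1 : a ≠ 1 := by
      rintro rfl
      exact ha (smul_one z)
    have hfc := card_fix_of_inv hz.sq hN π hs (fun x => he z x)
      (fun x hx h => hcen x (hKc hx) h)
    have hfN : Nat.card (fixS z : Subgroup N) ≠ 1 := by
      intro h
      have := Subgroup.eq_bot_of_card_eq _ h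
      exact hc1 (Subgroup.mem_bot.1 (this ▸ (mem_fixS.2 hc : c ∈ (fixS z : Subgroup N))))
    have hMinv : ¬ ∀ m : M, z • m = m⁻¹ := by
      intro hinv
      apply hfN
      rw [hfc]
      have : (fixS z : Subgroup M) = ⊥ := by
        rw [eq_bot_iff]
        intro m hm
        rw [mem_fixS, hinv] at hm
        rw [Subgroup.mem_bot]
        have h8 : m ^ 2 = 1 := by
          rw [sq]
          nth_rewrite 1 [← hm]
          exact inv_mul_cancel _
        have h9 : orderOf m ∣ 2 := orderOf_dvd_of_pow_eq_one h8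
        have h10 : orderOf m ∣ Nat.card M := orderOf_dvd_natCard _
        have h12 : orderOf m ∣ 1 := by
          rw [← Nat.coprime_two_left.2 hodd]
          exact Nat.dvd_gcd h9 h10
        exact orderOf_eq_one_iff.1 (Nat.dvd_one.1 h12)
      rw [this]
      simp
    rcases ih _ hlt M rfl hodd ⟨a, ha⟩ with h | h
    · left
      refine bsc hz.pgroup hN π hs he hKc hKm h a ha1 (fun p hp => hz.regular ha hp) ?_
      rcases delta_dichotomy hz hN π hs he hKc hKm a ha with h1 | ⟨_, s, hse, hsi, hsk, _⟩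
      · exact Or.inr h1
      · exfalso
        apply hMinv
        apply inv_of_fix hz.sq
        intro m hm
        apply hsi
        rw [map_one]
        apply hcen _ (hKc (hsk m))
        rw [← hse, hm]
    · rcases h with ⟨h2, h3⟩ | ⟨_, h3, _⟩ | ⟨_, h3, _⟩ | ⟨_, h3, _⟩
      · obtain ⟨h27, hf3⟩ := red27 hz h2 hN π hs he hKc hKm hcen h3 c hc hc1
        exact Or.inl (base_27 hz h2 h27 hf3 hcen)
      · exact absurd h3 hMinv
      · exact absurd h3 hMinv
      · exact absurd h3 hMinv
  · -- case A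
    push Not at hcen
    obtain ⟨y, hy, hyz, hy1⟩ := hcen
    let H : Subgroup N := (fixS z : Subgroup N) ⊓ Subgroup.center N
    have hHne : H ≠ ⊥ := by
      intro h
      have : y ∈ H := ⟨hyz, hy⟩
      rw [h] at this
      exact hy1 (Subgroup.mem_bot.1 this)
    have hHinv : PInv P H := by
      intro p x hx
      refine ⟨?_, ?_⟩
      · change z • (p • x) = p • x
        rw [← mul_smul, hz.comm z p, mul_smul]
        congr 1
        exact hx.1
      · have hx2 : x ∈ Subgroup.center N := hx.2
        change p • x ∈ Subgroup.center N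
        rw [Subgroup.mem_center_iff] at hx2 ⊢
        intro g
        have := congrArg (fun y => p • y) (hx2 (p⁻¹ • g))
        simpa [smul_mul'] using this
    obtain ⟨K, hKH, hKm⟩ := exists_pmin_le H hHne hHinv
    obtain ⟨M, iM, aM, hMf, hMn, π, hs, he, hker, hlt, hodd⟩ :=
      quot K (hKH.trans inf_le_right) hKm
    subst hker
    have hk : ∀ x ∈ π.ker, z • x = x := fun x hx => (hKH hx).1
    have htr : ∃ m : M, z • m ≠ m := by
      by_contra hcon
      push Not at hcon
      have h1 := card_fix_of_trivial hz.sq hN π hs (fun x => he z x) hk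
      have h2 : (fixS z : Subgroup M) = ⊤ := by
        rw [eq_top_iff]
        intro m _
        exact hcon m
      rw [h2, Nat.card_congr Subgroup.topEquiv.toEquiv, ← card_ker_mul π hs] at h1
      have h3 := Subgroup.eq_top_of_card_eq _ h1
      have : x₀ ∈ (fixS z : Subgroup N) := h3 ▸ Subgroup.mem_top x₀
      exact hx₀ this
    obtain ⟨a, ha⟩ := htr
    exact caseA hz hN π hs he (hKH.trans inf_le_right) hKm hk a ha
      (ih _ hlt M rfl hodd ⟨a, ha⟩)

end

end Pool.Agent.Lib_MP_8306f4_co.CaseB
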