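import Pool.Agent.Lib_MP_8306f4_co.CaseB.Defs
import Pool.Agent.Lib_MP_8306f4_co.CaseB.Transfer
import Pool.Agent.Lib_MP_8306f4_co.CaseB.Models4
import Pool.Agent.Lib_MP_8306f4_co.CaseB.GBasics
import Pool.Agent.Lib_MP_8306f4_co.CaseB.GInv

/-!
# MP_8306f4_co, case B, piece Pm2Small

Notation. x·y = qop f x y = x f(x⁻¹y) on N; lambda_m: y -> m y is always an automorphism of it
(f commutes with nothing needed). 1·y = f(y). If Equi P f, then y -> p•y is an automorphism.
core(A): a∘b = 2b-a. For every x: y -> x·y is bijective (f bijective), for every y: x -> x·y is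
bijective (x⁻¹f(x) bijective). '2 is invertible': all groups N have odd order.

## B17 (Pm2Small.lean): pm2_small via model_5_5_c4 (generator acting as 2) and model_3_3_3_3_c8.
-/

universe u v w

namespace Pool.Agent.Lib_MP_8306f4_co.CaseB

open Pool.Agent.Lib_MP_8306f4_co

section
variable {P : Type v} [Group P] {z : P} {K : Type u} [Group K] [Finite K]
  [MulDistribMulAction P K]

namespace Pm2Small

/-- a generator, and its power which is `z` -/
lemma gen (hz : TwoCyc z) {m : ℕ} (hm : 1 ≤ m) (hc : Nat.card P = 2 * m) :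
    ∃ ρ : P, (∀ p : P, ∃ k : ℕ, p = ρ ^ k) ∧ ρ ^ m = z ∧ ρ ^ (2 * m) = 1 := by
  have := hz.fin
  have := hz.cyclic
  obtain ⟨ρ, hρ⟩ := IsCyclic.exists_generator (α := P)
  have ho : orderOf ρ = 2 * m := by
    rw [orderOf_eq_card_of_forall_mem_zpowers hρ, hc]
  have h1 : ρ ^ (2 * m) = 1 := by rw [← ho]; exact pow_orderOf_eq_one ρ
  have hne : ρ ^ m ≠ 1 := by
    intro h
    have := orderOf_dvd_of_pow_eq_one h
    rw [ho] at this
    have := Nat.le_of_dvd (by omega) this
    omega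
  refine ⟨ρ, ?_, ?_, h1⟩
  · intro p
    have hp := hρ p
    rw [← mem_powers_iff_mem_zpowers] at hp
    obtain ⟨k, hk⟩ := hp
    exact ⟨k, hk.symm⟩
  · have hzm := hz.mem_zpowers hne
    rw [← mem_powers_iff_mem_zpowers] at hzm
    obtain ⟨k, hk⟩ := hzm
    simp only at hk
    have hsq : (ρ ^ m) ^ 2 = 1 := by rw [← pow_mul, mul_comm m 2]; exact h1
    rcases Nat.even_or_odd k with ⟨j, hj⟩ | ⟨j, hj⟩
    · exfalso
      apply hz.ne_one
      rw [← hk, hj, ← two_mul, pow_mul, hsq, one_pow]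
    · rw [← hk, hj, pow_succ, pow_mul, hsq, one_pow, one_mul]

omit [Finite K] in
lemma smul_pow_pow {x : K} {ρ : P} {c : ℕ} (h : ρ • x = x ^ c) (j : ℕ) :
    (ρ ^ j) • x = x ^ (c ^ j) := by
  induction j with
  | zero => simp
  | succ j ih => rw [pow_succ', mul_smul, ih, smul_pow', h, ← pow_mul, pow_succ']


omit [Finite K] in
lemma pow_zmod_add {n : ℕ} [NeZero n] {x : K} (hx : x ^ n = 1) (a b : ZMod n) :
    x ^ (a + b).val = x ^ a.val * x ^ b.val := by
  rw [ZMod.val_add, ← pow_add]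
  conv_rhs => rw [← Nat.mod_add_div (a.val + b.val) n, pow_add, pow_mul, hx, one_pow, mul_one]

omit [Finite K] in
lemma pow_zmod_mul {n : ℕ} [NeZero n] {x : K} (hx : x ^ n = 1) (a b : ZMod n) :
    x ^ (a * b).val = (x ^ a.val) ^ b.val := by
  rw [ZMod.val_mul, ← pow_mul]
  conv_rhs => rw [← Nat.mod_add_div (a.val * b.val) n, pow_add, pow_mul, hx, one_pow, mul_one]

omit [Finite K] in
lemma pow_zmod_cast {n : ℕ} [NeZero n] {x : K} (hx : x ^ n = 1) (a : ℕ) :
    x ^ (a : ZMod n).val = x ^ a := by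
  rw [ZMod.val_natCast]
  conv_rhs => rw [← Nat.mod_add_div a n, pow_add, pow_mul, hx, one_pow, mul_one]

lemma five (hz : TwoCyc z) (hinv : ∀ x : K, z • x = x⁻¹)
    (h : Nat.card K = 5) (hcard : Nat.card K = Nat.card P + 1) : WGood P (K × K) := by
  obtain ⟨ρ, hgen, hρ2, hρ4⟩ := gen hz (m := 2) (by norm_num) (by omega)
  have hcomm := comm_of_inv hinv
  -- a nontrivial element
  have hnt : ∃ x0 : K, x0 ≠ 1 := by
    by_contra hcon
    push Not at hcon
    have : Nat.card K = 1 := by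
      rw [Nat.card_eq_one_iff_exists]
      exact ⟨1, hcon⟩
    omega
  obtain ⟨x0, hx0⟩ := hnt
  have ho : orderOf x0 = 5 := by
    have h1 := orderOf_dvd_natCard x0
    rw [h] at h1
    rcases (Nat.dvd_prime (by norm_num : Nat.Prime 5)).mp h1 with h2 | h2
    · exact absurd (orderOf_eq_one_iff.mp h2) hx0
    · exact h2
  have hx5 : x0 ^ 5 = 1 := by rw [← ho]; exact pow_orderOf_eq_one x0
  have hzp : ∀ x : K, ∃ c : ℕ, c < 5 ∧ x = x0 ^ c := by
    have htop : Subgroup.zpowers x0 = ⊤ := by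
      apply Subgroup.eq_top_of_card_eq
      rw [Nat.card_zpowers, ho, h]
    intro x
    have hx : x ∈ Subgroup.zpowers x0 := by rw [htop]; trivial
    rw [← mem_powers_iff_mem_zpowers] at hx
    obtain ⟨k, hk⟩ := hx
    refine ⟨k % 5, Nat.mod_lt _ (by norm_num), ?_⟩
    rw [← hk]
    simp only
    rw [← ho, pow_mod_orderOf]
  -- a good generator
  have key : ∃ ρ' : P, (∀ p : P, ∃ k : ℕ, p = ρ' ^ k) ∧ ρ' • x0 = x0 ^ 2 := by
    obtain ⟨c, hc5, hc⟩ := hzp (ρ • x0)
    have h2 : x0 ^ (c ^ 2 + 1) = 1 := by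
      rw [pow_succ, ← smul_pow_pow hc 2, hρ2, hinv]
      group
    have h3 := orderOf_dvd_of_pow_eq_one h2
    rw [ho] at h3
    have h4 : c = 2 ∨ c = 3 := by
      interval_cases c <;> revert h3 <;> decide
    rcases h4 with h4 | h4
    · exact ⟨ρ, hgen, by rw [hc, h4]⟩
    · refine ⟨ρ ^ 3, ?_, ?_⟩
      · intro p
        obtain ⟨k, hk⟩ := hgen p
        refine ⟨3 * k, ?_⟩
        rw [← pow_mul, hk, show 3 * (3 * k) = (2 * 2) * (2 * k) + k by ring, pow_add, pow_mul,
          hρ4, one_pow, one_mul]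
      · rw [smul_pow_pow hc 3, h4, ← pow_mod_orderOf, ho]
        norm_num
  obtain ⟨ρ', hgen', hact⟩ := key
  have hact' : ∀ x : K, ρ' • x = x ^ 2 := by
    intro x
    obtain ⟨c, -, rfl⟩ := hzp x
    rw [smul_pow', hact, ← pow_mul, ← pow_mul, mul_comm]
  -- the coordinate
  let g : ZMod 5 → K := fun a => x0 ^ a.val
  have hg : Function.Bijective g := by
    constructor
    · intro a b hab
      have := pow_injOn_Iio_orderOf (x := x0) (by rw [ho]; exact ZMod.val_lt a)
        (by rw [ho]; exact ZMod.val_lt b) hab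
      exact ZMod.val_injective 5 this
    · intro x
      obtain ⟨c, hc, rfl⟩ := hzp x
      refine ⟨(c : ZMod 5), ?_⟩
      change x0 ^ (c : ZMod 5).val = x0 ^ c
      exact pow_zmod_cast hx5 c
  let e0 : ZMod 5 ≃ K := Equiv.ofBijective g hg
  have he0 : ∀ a, e0 a = x0 ^ a.val := fun a => rfl
  have hadd : ∀ x y, e0.symm (x * y) = e0.symm x + e0.symm y := by
    intro x y
    apply e0.injective
    rw [e0.apply_symm_apply, he0, pow_zmod_add hx5, ← he0, ← he0, e0.apply_symm_apply,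
      e0.apply_symm_apply]
  obtain ⟨F, hF⟩ := model_5_5_c4
  refine wgood_of_amodel ρ' hgen' (N := K × K) (Equiv.prodCongr e0.symm e0.symm) ?_ ?_ hF
  · rintro ⟨x, y⟩ ⟨x', y'⟩
    simp [hadd]
  · rintro ⟨x, y⟩
    simp [hact', sq, hadd, two_mul]


/-- `x0 ^ a * y0 ^ b` -/
def comb (x0 y0 : K) (v : ZMod 3 × ZMod 3) : K := x0 ^ v.1.val * y0 ^ v.2.val

lemma nine (hz : TwoCyc z) (hinv : ∀ x : K, z • x = x⁻¹)
    (h : Nat.card K = 9) (hcard : Nat.card K = Nat.card P + 1) : WGood P (K × K) := by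
  obtain ⟨ρ, hgen, hρ4, hρ8⟩ := gen hz (m := 4) (by norm_num) (by omega)
  have hcomm := comm_of_inv hinv
  -- there is no element of order 9
  have h3 : ∀ x : K, x ^ 3 = 1 := by
    intro x
    by_contra hx
    have hd := orderOf_dvd_natCard x
    rw [h, show (9 : ℕ) = 3 ^ 2 by norm_num, Nat.dvd_prime_pow (by norm_num : Nat.Prime 3)] at hd
    obtain ⟨j, hj, hj'⟩ := hd
    have ho : orderOf x = 9 := by
      interval_cases j
      · exact absurd (pow_eq_one_iff_modEq.mpr (by rw [hj']; exact Nat.modEq_one)) hx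
      · exact absurd (by rw [← pow_one 3, ← hj']; exact pow_orderOf_eq_one x) hx
      · rw [hj']; norm_num
    have htop : Subgroup.zpowers x = ⊤ := by
      apply Subgroup.eq_top_of_card_eq
      rw [Nat.card_zpowers, ho, h]
    have hx' : ρ • x ∈ Subgroup.zpowers x := by rw [htop]; trivial
    rw [← mem_powers_iff_mem_zpowers] at hx'
    obtain ⟨k, hk⟩ := hx'
    simp only at hk
    have h5 : x ^ (k ^ 4 + 1) = 1 := by
      rw [pow_succ, ← smul_pow_pow hk.symm 4, hρ4, hinv]
      group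
    have h6 := orderOf_dvd_of_pow_eq_one h5
    rw [ho] at h6
    have h7 : ((k : ZMod 9)) ^ 4 + 1 = 0 := by
      have := (ZMod.natCast_eq_zero_iff (k ^ 4 + 1) 9).mpr h6
      push_cast at this
      exact this
    revert h7
    generalize (k : ZMod 9) = c
    revert c
    decide
  have hnt : ∃ x0 : K, x0 ≠ 1 := by
    by_contra hcon
    push Not at hcon
    have : Nat.card K = 1 := by
      rw [Nat.card_eq_one_iff_exists]
      exact ⟨1, hcon⟩
    omega
  obtain ⟨x0, hx0⟩ := hnt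
  -- a commutative group structure
  let _ : CommGroup K := { (inferInstance : Group K) with mul_comm := hcomm }
  have hval : ∀ a : ZMod 3, x0 ^ a.val = 1 → a = 0 := by
    intro a ha
    have hd := orderOf_dvd_of_pow_eq_one ha
    have ho : orderOf x0 = 3 := orderOf_eq_prime (h3 x0) hx0
    rw [ho] at hd
    have := ZMod.val_lt a
    have h0 : a.val = 0 := Nat.eq_zero_of_dvd_of_lt hd this
    exact (ZMod.val_eq_zero a).mp h0
  have hadd : ∀ (x y : K) (v w : ZMod 3 × ZMod 3), comb x y (v + w) = comb x y v * comb x y w := by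
    intro x y v w
    simp only [comb, Prod.fst_add, Prod.snd_add, pow_zmod_add (h3 x), pow_zmod_add (h3 y)]
    exact mul_mul_mul_comm _ _ _ _
  have hinj : Function.Injective (comb x0 (ρ • x0)) := by
    have hker : ∀ v, comb x0 (ρ • x0) v = 1 → v = 0 := by
      rintro ⟨a, b⟩ hv
      simp only [comb] at hv
      by_cases hb : b = 0
      · subst hb
        simp only [ZMod.val_zero, pow_zero, mul_one] at hv
        rw [hval a hv]; rfl
      · exfalso
        have hb2 : b * b = 1 := by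
          have : ∀ b : ZMod 3, b ≠ 0 → b * b = 1 := by decide
          exact this b hb
        have h5 : ρ • x0 = x0 ^ (-(a * b)).val := by
          have h6 : (x0 ^ a.val * (ρ • x0) ^ b.val) ^ b.val = 1 := by rw [hv, one_pow]
          rw [mul_pow, ← pow_zmod_mul (h3 _), ← pow_zmod_mul (h3 _), hb2] at h6
          have h7 : x0 ^ (-(a * b)).val * x0 ^ (a * b).val = 1 := by
            rw [← pow_zmod_add (h3 _)]; simp
          have h8 : (ρ • x0) ^ (1 : ZMod 3).val = ρ • x0 := by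
            rw [show (1 : ZMod 3).val = 1 from rfl, pow_one]
          rw [h8] at h6
          have h9 : x0 ^ (-(a * b)).val = (x0 ^ (a * b).val)⁻¹ := eq_inv_of_mul_eq_one_left h7
          rw [h9]
          exact eq_inv_of_mul_eq_one_right h6
        generalize -(a * b) = c at h5
        have h6 : x0 ^ (c.val ^ 4 + 1) = 1 := by
          rw [pow_succ, ← smul_pow_pow h5 4, hρ4, hinv]
          group
        rw [← pow_zmod_cast (h3 x0)] at h6
        have h7 := hval _ h6
        push_cast at h7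
        rw [ZMod.natCast_zmod_val] at h7
        have h8 : ∀ c : ZMod 3, c ^ 4 + 1 ≠ 0 := by decide
        exact h8 c h7
    intro v w hvw
    have h5 : comb x0 (ρ • x0) (v + -w) = 1 := by
      rw [hadd, hvw, ← hadd, add_neg_cancel]
      simp [comb]
    have := hker _ h5
    rwa [← sub_eq_add_neg, sub_eq_zero] at this
  have hbij : Function.Bijective (comb x0 (ρ • x0)) := by
    have := Fintype.ofFinite K
    refine (Fintype.bijective_iff_injective_and_card _).mpr ⟨hinj, ?_⟩
    rw [← Nat.card_eq_fintype_card (α := K), h]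
    simp [ZMod.card]
  -- the quadratic relation
  obtain ⟨⟨α, β⟩, hαβ⟩ := hbij.2 (ρ • ρ • x0)
  have hsm : ∀ v, ρ • comb x0 (ρ • x0) v
      = comb x0 (ρ • x0) (v.2 * α, v.1 + v.2 * β) := by
    rintro ⟨a, b⟩
    have h5 : ρ • comb x0 (ρ • x0) (a, b) = (ρ • x0) ^ a.val * (ρ • ρ • x0) ^ b.val := by
      simp only [comb, smul_mul', smul_pow']
    rw [h5, ← hαβ]
    simp only [comb]
    rw [mul_pow, ← pow_zmod_mul (h3 _), ← pow_zmod_mul (h3 _), pow_zmod_add (h3 _),
      mul_comm α b, mul_comm β b]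
    exact mul_left_comm _ _ _
  have hrel : (α, β) = ((1 : ZMod 3), (1 : ZMod 3)) ∨ (α, β) = ((1 : ZMod 3), (-1 : ZMod 3)) := by
    have h5 : ρ • ρ • ρ • ρ • comb x0 (ρ • x0) (1, 0) = (comb x0 (ρ • x0) (1, 0))⁻¹ := by
      rw [← hinv, ← hρ4]
      simp only [smul_smul]
      congr 1
      simp only [pow_succ, pow_zero, one_mul, mul_assoc]
    rw [hsm, hsm, hsm, hsm] at h5
    have h6 : (comb x0 (ρ • x0) (1, 0))⁻¹ = comb x0 (ρ • x0) (-1, 0) := by
      rw [eq_comm, ← mul_eq_one_iff_eq_inv, ← hadd]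
      simp [comb]
    rw [h6] at h5
    have h7 := hinj h5
    clear h5 h6 hαβ hsm
    revert h7
    revert α β
    decide
  -- the end of the proof
  have fin : ∀ ρ' : P, (∀ p : P, ∃ k : ℕ, p = ρ' ^ k) →
      Function.Bijective (comb x0 (ρ' • x0)) →
      (∀ v, ρ' • comb x0 (ρ' • x0) v = comb x0 (ρ' • x0) (v.2, v.1 + v.2)) →
      WGood P (K × K) := by
    intro ρ' hgen' hb hs
    let e0 : ZMod 3 × ZMod 3 ≃ K := Equiv.ofBijective _ hb
    have he0 : ∀ v, e0 v = comb x0 (ρ' • x0) v := fun v => rfl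
    have hadd' : ∀ x y, e0.symm (x * y) = e0.symm x + e0.symm y := by
      intro x y
      apply e0.injective
      rw [e0.apply_symm_apply, he0, hadd, ← he0, ← he0, e0.apply_symm_apply, e0.apply_symm_apply]
    have hs' : ∀ x, e0.symm (ρ' • x) = ((e0.symm x).2, (e0.symm x).1 + (e0.symm x).2) := by
      intro x
      apply e0.injective
      rw [e0.apply_symm_apply, he0, ← hs, ← he0, e0.apply_symm_apply]
    obtain ⟨F, hF⟩ := model_3_3_3_3_c8
    refine wgood_of_amodel ρ' hgen' (N := K × K)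
      ((Equiv.prodCongr e0.symm e0.symm).trans (Equiv.prodAssoc _ _ _)) ?_ ?_ hF
    · rintro ⟨x, y⟩ ⟨x', y'⟩
      simp [hadd']
    · rintro ⟨x, y⟩
      simp [hs']
  rcases hrel with hrel | hrel
  · obtain ⟨h5, h6⟩ := Prod.mk.inj hrel
    refine fin ρ hgen hbij fun v => ?_
    rw [hsm, h5, h6, mul_one]
  · obtain ⟨h5, h6⟩ := Prod.mk.inj hrel
    have hneg : ∀ x : K, ρ ^ 5 • x = (ρ • x)⁻¹ := by
      intro x
      rw [pow_succ, mul_smul, hρ4, hinv]
    have hcneg : ∀ v, comb x0 (ρ ^ 5 • x0) v = comb x0 (ρ • x0) (v.1, -v.2) := by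
      rintro ⟨a, b⟩
      rw [hneg]
      simp only [comb]
      congr 1
      rw [inv_pow, eq_comm, ← mul_eq_one_iff_eq_inv, ← pow_zmod_add (h3 _)]
      simp
    refine fin (ρ ^ 5) ?_ ?_ ?_
    · intro p
      obtain ⟨k, hk⟩ := hgen p
      refine ⟨5 * k, ?_⟩
      rw [← pow_mul, hk, show 5 * (5 * k) = (2 * 4) * (3 * k) + k by ring, pow_add, pow_mul,
        hρ8, one_pow, one_mul]
    · have : comb x0 (ρ ^ 5 • x0) = comb x0 (ρ • x0) ∘ fun v => (v.1, -v.2) := funext hcneg
      rw [this]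
      refine hbij.comp ⟨?_, ?_⟩
      · rintro ⟨a, b⟩ ⟨a', b'⟩ h7
        simpa using h7
      · rintro ⟨a, b⟩
        exact ⟨(a, -b), by simp⟩
    · intro v
      rw [hcneg, hneg, hsm, hcneg, h5, h6, eq_comm, ← mul_eq_one_iff_eq_inv, ← hadd]
      have h8 : ∀ v : ZMod 3 × ZMod 3, ((v.2, v.1 + v.2).1, -(v.2, v.1 + v.2).2) +
          ((v.1, -v.2).2 * (1 : ZMod 3), (v.1, -v.2).1 + (v.1, -v.2).2 * (-1 : ZMod 3)) =
          (0 : ZMod 3 × ZMod 3) := by decide
      rw [h8]
      simp [comb]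

end Pm2Small

theorem pm2_small (hz : TwoCyc z) (hinv : ∀ x : K, z • x = x⁻¹)
    (h : Nat.card K = 5 ∨ Nat.card K = 9) (hcard : Nat.card K = Nat.card P + 1)
    (hf : ∀ p : P, (∀ x : K, p • x = x) → p = 1) : WGood P (K × K) := by
  rcases h with h | h
  · exact Pm2Small.five hz hinv h hcard
  · exact Pm2Small.nine hz hinv h hcard

end

end Pool.Agent.Lib_MP_8306f4_co.CaseB
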