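import Pool.Agent.Lib_MP_8306f4_co.CaseB.Defs

/-!
# MP_8306f4_co, case B, piece TnGlue

Notation. x·y = qop f x y = x f(x⁻¹y) on N; lambda_m: y -> m y is always an automorphism of it
(f commutes with nothing needed). 1·y = f(y). If Equi P f, then y -> p•y is an automorphism.
core(A): a∘b = 2b-a. For every x: y -> x·y is bijective (f bijective), for every y: x -> x·y is
bijective (x⁻¹f(x) bijective). '2 is invertible': all groups N have odd order.

## F5 (TnGlue.lean): tn_glue, exists_tn, tn_of_pmin
tn_glue (=>): f=glue. E not in B: Y={y: y∉B, Ey∉B} ≠∅, union of left cosets of B, |Y|≥|L|-2|B|; for y in Y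
EyEy=Wyy so yEy⁻¹=E⁻¹W constant: y'⁻¹y commutes with E for y,y' in Y. So B ≤ C(E), E in C(E)\B so |C(E)|≥3|B|;
if C(E)≠⊤ then |L|≥3|C(E)|≥9|B| and |Y|≥(7/9)|L|>|L|/3≥|C(E)|, but |Y|≤|C(E)|. So E central, W=E², and for y in B:
E²y²=f(Ey)=E²ψ(y): contradiction to hψ'. E in B: same with Y=L\B (|Y|≥(2/3)|L|): E central, W=E², restrict to B.
exists_tn: ψ = inversion on B. E⁻¹=E² => E³=1 => E=1.
tn_of_pmin: KL is a P-invariant subgroup, ≠⊥, so ⊤: φ(Ey)=W_Eφ(y) so (φ1=1) φ is a hom. Let C = subgroup of
(L →* L) (comm group) generated by the p•. Every u in C commutes with P and with φ; if u≠1 then ker u is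
P-invariant so trivial, u is bijective, an automorphism of (L,qop φ), so u=p for some p in P (Rig). {u a : u in C}
is a P-invariant subgroup containing a: ⊤. So b=u a=p•a.

-/

universe u v w

namespace Pool.Agent.Lib_MP_8306f4_co.CaseB

open Pool.Agent.Lib_MP_8306f4_co

namespace TnGlue

lemma three_mul_card_le {L : Type u} [Group L] [Finite L] (hL : Odd (Nat.card L))
    {K : Subgroup L} (hK : K ≠ ⊤) : 3 * Nat.card K ≤ Nat.card L := by
  have h1 : Nat.card K * K.index = Nat.card L := K.card_mul_index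
  have hodd : Odd K.index := by
    rw [← h1] at hL
    exact (Nat.odd_mul.1 hL).2
  have h2 : K.index ≠ 1 := fun h => hK (Subgroup.index_eq_one.1 h)
  have h3 : 3 ≤ K.index := by
    obtain ⟨k, hk⟩ := hodd
    omega
  calc 3 * Nat.card K = Nat.card K * 3 := mul_comm _ _
    _ ≤ Nat.card K * K.index := Nat.mul_le_mul_left _ h3
    _ = Nat.card L := h1

lemma three_mul_card_le' {L : Type u} [Group L] [Finite L] (hL : Odd (Nat.card L))
    {K M : Subgroup L} (hK : K ≤ M) (hKM : K ≠ M) : 3 * Nat.card K ≤ Nat.card M := by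
  have hM : Odd (Nat.card M) := by
    have h1 : Nat.card M * M.index = Nat.card L := M.card_mul_index
    rw [← h1] at hL
    exact (Nat.odd_mul.1 hL).1
  have h2 : K.subgroupOf M ≠ ⊤ := by
    intro h
    exact hKM (le_antisymm hK (Subgroup.subgroupOf_eq_top.1 h))
  have h3 := three_mul_card_le hM h2
  have h4 : Nat.card (K.subgroupOf M) = Nat.card K :=
    Nat.card_congr (Subgroup.subgroupOfEquivOfLe hK).toEquiv
  rwa [h4] at h3

/-- the centralizer of one element -/
def cent {L : Type u} [Group L] (E : L) : Subgroup L := Subgroup.centralizer {E}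

lemma mem_cent {L : Type u} [Group L] {E x : L} : x ∈ cent E ↔ E * x = x * E := by
  unfold cent
  rw [Subgroup.mem_centralizer_iff]
  simp

lemma cover {L : Type u} [Group L] [Finite L] {E : L} {Y : Set L} {V : L}
    (hY : ∀ y ∈ Y, y * E = V * y) : Y.ncard ≤ Nat.card (cent E) := by
  rcases Y.eq_empty_or_nonempty with rfl | ⟨y0, hy0⟩
  · simp
  have hsub : Y ⊆ (fun c => y0 * c) '' (cent E : Set L) := by
    intro y hy
    refine ⟨y0⁻¹ * y, ?_, by simp⟩
    change y0⁻¹ * y ∈ cent E
    rw [mem_cent]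
    have h1 := hY y hy
    have h0 := hY y0 hy0
    have hV : V = y0 * E * y0⁻¹ := by rw [h0]; simp
    rw [hV] at h1
    calc E * (y0⁻¹ * y) = y0⁻¹ * (y0 * E * y0⁻¹ * y) := by group
      _ = y0⁻¹ * (y * E) := by rw [h1]
      _ = y0⁻¹ * y * E := by group
  calc Y.ncard ≤ ((fun c => y0 * c) '' (cent E : Set L)).ncard :=
        Set.ncard_le_ncard hsub (Set.toFinite _)
    _ ≤ (cent E : Set L).ncard := Set.ncard_image_le (Set.toFinite _)
    _ = Nat.card (cent E) := by
        rw [← Nat.card_coe_set_eq]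
        rfl

lemma rel {L : Type u} [Group L] {E W y : L} (h : (E * y) ^ 2 = W * y ^ 2) :
    y * E = E⁻¹ * W * y := by
  have h1 : E * y * (E * y) = W * (y * y) := by
    rw [← sq, h, sq]
  have h2 : (y * E) * y = (E⁻¹ * W * y) * y := by
    calc (y * E) * y = E⁻¹ * (E * y * (E * y)) := by group
      _ = E⁻¹ * (W * (y * y)) := by rw [h1]
      _ = (E⁻¹ * W * y) * y := by group
  exact mul_right_cancel h2

lemma card_set {L : Type u} [Group L] (B : Subgroup L) :
    (B : Set L).ncard = Nat.card B := by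
  rw [← Nat.card_coe_set_eq]
  rfl

end TnGlue

open TnGlue in
theorem tn_glue {L : Type u} [Group L] [Finite L] (hL : Odd (Nat.card L)) (B : Subgroup L)
    (hB : B ≠ ⊤) {ψ : B → B} (hψ : IsOrth ψ) (hψ' : ∃ b, ψ b ≠ b ^ 2) (E : L) :
    (∃ W, ∀ y, glue (fun x => x ^ 2) B ψ (E * y) = W * glue (fun x => x ^ 2) B ψ y) ↔
      ∃ h : E ∈ B, E ∈ Subgroup.center L ∧ ∀ b : B, ψ (⟨E, h⟩ * b) = ⟨E, h⟩ ^ 2 * ψ b := by
  constructor
  · rintro ⟨W, hW⟩
    have hBL := three_mul_card_le hL hB
    have hBpos : 0 < Nat.card B := Nat.card_pos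
    by_cases hE : E ∈ B
    · have hY : ∀ y ∈ ((B : Set L)ᶜ), y * E = E⁻¹ * W * y := by
        intro y hy
        have hy' : y ∉ B := hy
        have hEy : E * y ∉ B := fun h => hy' ((Subgroup.mul_mem_cancel_left B hE).1 h)
        have h := hW y
        rw [glue_not_mem hy', glue_not_mem hEy] at h
        exact rel h
      have h1 := cover hY
      have h2 : ((B : Set L)ᶜ).ncard = Nat.card L - Nat.card B := by
        rw [Set.ncard_compl (B : Set L) (Set.toFinite _), card_set]
      have hcen : cent E = ⊤ := by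
        by_contra hne
        have := three_mul_card_le hL hne
        omega
      have hc : ∀ x, E * x = x * E := fun x => mem_cent.1 (hcen ▸ Subgroup.mem_top x)
      obtain ⟨y, hy⟩ : ∃ y, y ∉ B := by
        by_contra h
        push Not at h
        exact hB (eq_top_iff.2 fun x _ => h x)
      have hWE : W = E ^ 2 := by
        have h3 := hY y hy
        rw [← hc y] at h3
        have h4 : E = E⁻¹ * W := mul_right_cancel h3
        calc W = E * (E⁻¹ * W) := by group
          _ = E * E := by rw [← h4]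
          _ = E ^ 2 := (sq E).symm
      refine ⟨hE, ?_, ?_⟩
      · rw [Subgroup.mem_center_iff]
        intro g
        exact (hc g).symm
      · intro b
        have h := hW b
        rw [glue_mem b.2, glue_mem (B.mul_mem hE b.2), hWE] at h
        exact Subtype.ext h
    · exfalso
      set Y : Set L := {y | y ∉ B ∧ E * y ∉ B} with hYdef
      have hY : ∀ y ∈ Y, y * E = E⁻¹ * W * y := by
        rintro y ⟨hy, hEy⟩
        have h := hW y
        rw [glue_not_mem hy, glue_not_mem hEy] at h
        exact rel h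
      have h1 := cover hY
      have hcompl : Yᶜ ⊆ (B : Set L) ∪ (fun c => E⁻¹ * c) '' (B : Set L) := by
        intro y hy
        by_cases hyB : y ∈ B
        · exact Or.inl hyB
        · right
          have : E * y ∈ B := by
            by_contra h
            exact hy ⟨hyB, h⟩
          exact ⟨E * y, this, by simp⟩
      have h2 : (Yᶜ).ncard ≤ Nat.card B + Nat.card B := by
        calc (Yᶜ).ncard ≤ ((B : Set L) ∪ (fun c => E⁻¹ * c) '' (B : Set L)).ncard :=
              Set.ncard_le_ncard hcompl (Set.toFinite _)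
          _ ≤ (B : Set L).ncard + ((fun c => E⁻¹ * c) '' (B : Set L)).ncard :=
              Set.ncard_union_le _ _
          _ ≤ (B : Set L).ncard + (B : Set L).ncard :=
              Nat.add_le_add_left (Set.ncard_image_le (Set.toFinite _)) _
          _ = Nat.card B + Nat.card B := by rw [card_set]
      have h3 : Y.ncard + (Yᶜ).ncard = Nat.card L := Set.ncard_add_ncard_compl Y
      have hYpos : 0 < Y.ncard := by omega
      obtain ⟨y0, hy0⟩ : Y.Nonempty := Set.nonempty_of_ncard_ne_zero hYpos.ne'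
      have hBc : B ≤ cent E := by
        intro b hb
        have hyb : y0 * b ∈ Y := by
          refine ⟨fun h => hy0.1 ((Subgroup.mul_mem_cancel_right B hb).1 h), fun h => hy0.2 ?_⟩
          rw [← mul_assoc] at h
          exact (Subgroup.mul_mem_cancel_right B hb).1 h
        have e0 := hY _ hy0
        have e1 := hY _ hyb
        rw [mem_cent]
        have : y0 * (b * E) = y0 * (E * b) := by
          calc y0 * (b * E) = y0 * b * E := by group
            _ = E⁻¹ * W * (y0 * b) := e1
            _ = E⁻¹ * W * y0 * b := by group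
            _ = y0 * E * b := by rw [e0]
            _ = y0 * (E * b) := by group
        exact (mul_left_cancel this).symm
      have hEc : E ∈ cent E := mem_cent.2 rfl
      have hBne : B ≠ cent E := fun h => hE (h ▸ hEc)
      have h4 := three_mul_card_le' hL hBc hBne
      have hcen : cent E = ⊤ := by
        by_contra hne
        have := three_mul_card_le hL hne
        omega
      have hc : ∀ x, E * x = x * E := fun x => mem_cent.1 (hcen ▸ Subgroup.mem_top x)
      have hWE : W = E ^ 2 := by
        have h3 := hY y0 hy0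
        rw [← hc y0] at h3
        have h4 : E = E⁻¹ * W := mul_right_cancel h3
        calc W = E * (E⁻¹ * W) := by group
          _ = E * E := by rw [← h4]
          _ = E ^ 2 := (sq E).symm
      obtain ⟨b, hb⟩ := hψ'
      apply hb
      have hEb : E * b ∉ B := fun h => hE ((Subgroup.mul_mem_cancel_right B b.2).1 h)
      have h := hW b
      rw [glue_mem b.2, glue_not_mem hEb, hWE] at h
      have h' : (E * (b : L)) ^ 2 = E ^ 2 * (b : L) ^ 2 := Commute.mul_pow (hc b) 2
      have h'' : E ^ 2 * (b : L) ^ 2 = E ^ 2 * (ψ ⟨b, b.2⟩ : L) := by rw [← h', ← h]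
      exact Subtype.ext (mul_left_cancel h'').symm
  · rintro ⟨h, hc, hE⟩
    rw [Subgroup.mem_center_iff] at hc
    refine ⟨E ^ 2, fun y => ?_⟩
    by_cases hy : y ∈ B
    · rw [glue_mem hy, glue_mem (B.mul_mem h hy)]
      have := congrArg Subtype.val (hE ⟨y, hy⟩)
      exact this
    · have hEy : E * y ∉ B := fun h' => hy ((Subgroup.mul_mem_cancel_left B h).1 h')
      rw [glue_not_mem hy, glue_not_mem hEy]
      exact Commute.mul_pow (hc y).symm 2

lemma TnGlue.sq_bij {L : Type u} [Group L] [Finite L] (hL : Odd (Nat.card L)) :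
    Function.Bijective (fun x : L => x ^ 2) := by
  exact (powCoprime (G := L) (n := 2) (Nat.Coprime.symm (Nat.coprime_two_left.2 hL))).bijective

theorem exists_tn {P : Type v} [Group P] {L : Type u} [Group L] [Finite L]
    [MulDistribMulAction P L] (hL : Odd (Nat.card L)) (B : Subgroup L) (hB : B ≠ ⊤)
    (hB1 : B ≠ ⊥) (hBi : PInv P B) (hBc : ∀ x ∈ B, ∀ y ∈ B, x * y = y * x)
    (hB3 : Nat.Coprime 3 (Nat.card B)) : ∃ φ : L → L, IsOrth φ ∧ Equi P φ ∧ TN φ := by
  have hBodd : Odd (Nat.card B) := by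
    have h1 : Nat.card B * B.index = Nat.card L := B.card_mul_index
    rw [← h1] at hL
    exact (Nat.odd_mul.1 hL).1
  have hψ : IsOrth (fun b : B => b⁻¹) := by
    refine ⟨(Equiv.inv B).bijective, ?_⟩
    have e : (fun b : B => b⁻¹ * b⁻¹) = (fun b : B => b ^ 2) ∘ (fun b => b⁻¹) := by
      funext b
      simp [sq]
    rw [e]
    exact (TnGlue.sq_bij hBodd).comp (Equiv.inv B).bijective
  have hsq : IsOrth (fun x : L => x ^ 2) := by
    refine ⟨TnGlue.sq_bij hL, ?_⟩
    have e : (fun x : L => x⁻¹ * x ^ 2) = id := by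
      funext x
      simp [sq]
    rw [e]
    exact Function.bijective_id
  have hψ' : ∃ b : B, b⁻¹ ≠ b ^ 2 := by
    haveI : Nontrivial B := (Subgroup.nontrivial_iff_ne_bot B).2 hB1
    obtain ⟨b, hb1⟩ := exists_ne (1 : B)
    refine ⟨b, fun h => hb1 ?_⟩
    have h3 : b ^ 3 = 1 := by
      calc b ^ 3 = b ^ 2 * b := by rw [pow_succ]
        _ = b⁻¹ * b := by rw [← h]
        _ = 1 := by simp
    have hco : Nat.Coprime 3 (Nat.card B) := hB3
    have h1 : orderOf b ∣ 3 := orderOf_dvd_of_pow_eq_one h3
    have h2 : orderOf b ∣ Nat.card B := orderOf_dvd_natCard b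
    have h4 : orderOf b = 1 := Nat.eq_one_of_dvd_coprimes hco h1 h2
    exact orderOf_eq_one_iff.1 h4
  refine ⟨glue (fun x => x ^ 2) B (fun b => b⁻¹), glue_isOrth hsq (fun x hx => B.pow_mem hx 2) hψ,
    ?_, ?_⟩
  · intro p x
    by_cases hx : x ∈ B
    · rw [glue_mem hx, glue_mem (hBi p x hx)]
      change (p • x)⁻¹ = p • x⁻¹
      rw [smul_inv']
    · have hpx : p • x ∉ B := by
        intro h
        apply hx
        have := hBi p⁻¹ _ h
        rwa [inv_smul_smul] at this
      rw [glue_not_mem hx, glue_not_mem hpx]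
      change (p • x) ^ 2 = p • x ^ 2
      rw [smul_pow']
  · intro H _ hH
    rw [eq_bot_iff]
    intro E hE
    obtain ⟨h, -, h2⟩ := (tn_glue hL B hB hψ hψ' E).1 (hH E hE)
    have h3 := h2 1
    rw [mul_one, inv_one, mul_one] at h3
    set e : B := ⟨E, h⟩ with he
    have h4 : e ^ 3 = 1 := by
      calc e ^ 3 = e ^ 2 * e := by rw [pow_succ]
        _ = e⁻¹ * e := by rw [← h3]
        _ = 1 := by simp
    have h1 : orderOf e ∣ 3 := orderOf_dvd_of_pow_eq_one h4
    have h2 : orderOf e ∣ Nat.card B := orderOf_dvd_natCard e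
    have h5 : orderOf e = 1 := Nat.eq_one_of_dvd_coprimes hB3 h1 h2
    have h6 : e = 1 := orderOf_eq_one_iff.1 h5
    have h7 : E = 1 := congrArg Subtype.val h6
    rw [Subgroup.mem_bot]
    exact h7

theorem tn_of_pmin {P : Type v} [Group P] [Finite P] (hPc : IsCyclic P) {L : Type u} [Group L]
    [Finite L] [MulDistribMulAction P L] (hL : ∀ x y : L, x * y = y * x)
    (hmin : PMin P (⊤ : Subgroup L)) {φ : L → L} (h : IsOrth φ) (he : Equi P φ) (h1 : φ 1 = 1)
    (hr : Rig P φ) (hTN : ¬ TN φ) (a b : L) (ha : a ≠ 1) (hb : b ≠ 1) : ∃ p : P, b = p • a := by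
  obtain ⟨-, -, hmin⟩ := hmin
  have hPcomm : ∀ p q : P, p * q = q * p := by
    intro p q
    let _ := hPc.commGroup
    exact mul_comm p q
  -- the subgroup of `E`
  let KL : Subgroup L :=
    { carrier := {E | ∃ W, ∀ y, φ (E * y) = W * φ y}
      one_mem' := ⟨1, fun y => by simp⟩
      mul_mem' := by
        rintro E F ⟨W, hW⟩ ⟨V, hV⟩
        refine ⟨W * V, fun y => ?_⟩
        rw [mul_assoc, hW, hV, mul_assoc]
      inv_mem' := by
        rintro E ⟨W, hW⟩
        refine ⟨W⁻¹, fun y => ?_⟩
        have := hW (E⁻¹ * y)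
        rw [mul_inv_cancel_left] at this
        rw [this, inv_mul_cancel_left] }
  have hKLi : PInv P KL := by
    rintro p E ⟨W, hW⟩
    refine ⟨p • W, fun y => ?_⟩
    have e1 : (p • E) * y = p • (E * (p⁻¹ • y)) := by
      rw [smul_mul', smul_inv_smul]
    rw [e1, he, hW, smul_mul', ← he, smul_inv_smul]
  have hKL : KL = ⊤ := by
    rcases hmin KL hKLi le_top with h0 | h0
    · exfalso
      apply hTN
      intro H _ hH
      rw [eq_bot_iff, ← h0]
      intro E hE
      exact hH E hE
    · exact h0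
  have hhom : ∀ x y, φ (x * y) = φ x * φ y := by
    intro x y
    obtain ⟨W, hW⟩ : x ∈ KL := hKL ▸ Subgroup.mem_top x
    have := hW 1
    rw [mul_one, h1, mul_one] at this
    rw [hW y, this]
  -- the orbit of `a`
  let S : Subgroup L :=
    { carrier := {c | ∃ u : L → L, (∀ x y, u (x * y) = u x * u y) ∧ (∀ (p : P) x, u (p • x) = p • u x)
          ∧ (∀ x, u (φ x) = φ (u x)) ∧ u a = c}
      one_mem' := by
        refine ⟨fun _ => 1, fun x y => by simp, fun p x => by simp, fun x => h1.symm, rfl⟩
      mul_mem' := by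
        rintro c d ⟨u, u1, u2, u3, rfl⟩ ⟨v, v1, v2, v3, rfl⟩
        refine ⟨fun x => u x * v x, fun x y => ?_, fun p x => ?_, fun x => ?_, rfl⟩
        · change u (x * y) * v (x * y) = u x * v x * (u y * v y)
          rw [u1, v1, mul_assoc, mul_assoc, ← mul_assoc (u y), hL (u y) (v x), mul_assoc]
        · change u (p • x) * v (p • x) = p • (u x * v x)
          rw [u2, v2, smul_mul']
        · change u (φ x) * v (φ x) = φ (u x * v x)
          rw [u3, v3, hhom]
      inv_mem' := by
        rintro c ⟨u, u1, u2, u3, rfl⟩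
        refine ⟨fun x => (u x)⁻¹, fun x y => ?_, fun p x => ?_, fun x => ?_, rfl⟩
        · change (u (x * y))⁻¹ = (u x)⁻¹ * (u y)⁻¹
          rw [u1, mul_inv_rev, hL]
        · change (u (p • x))⁻¹ = p • (u x)⁻¹
          rw [u2, smul_inv']
        · change (u (φ x))⁻¹ = φ ((u x)⁻¹)
          rw [u3]
          apply inv_eq_of_mul_eq_one_right
          rw [← hhom, mul_inv_cancel, h1] }
  have hSi : PInv P S := by
    rintro p c ⟨u, u1, u2, u3, rfl⟩
    refine ⟨fun x => p • u x, fun x y => ?_, fun q x => ?_, fun x => ?_, rfl⟩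
    · change p • u (x * y) = p • u x * p • u y
      rw [u1, smul_mul']
    · change p • u (q • x) = q • p • u x
      rw [u2, smul_smul, smul_smul, hPcomm]
    · change p • u (φ x) = φ (p • u x)
      rw [u3, he]
  have haS : a ∈ S := ⟨id, fun x y => rfl, fun p x => rfl, fun x => rfl, rfl⟩
  have hS : S = ⊤ := by
    rcases hmin S hSi le_top with h0 | h0
    · exfalso
      rw [h0, Subgroup.mem_bot] at haS
      exact ha haS
    · exact h0
  obtain ⟨u, u1, u2, u3, u4⟩ : b ∈ S := hS ▸ Subgroup.mem_top b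
  let U : L →* L := MonoidHom.mk' u u1
  have hker : U.ker = ⊥ := by
    have hi : PInv P U.ker := by
      intro p x hx
      rw [MonoidHom.mem_ker] at hx ⊢
      change u (p • x) = 1
      rw [u2]
      have : u x = 1 := hx
      rw [this, smul_one]
    rcases hmin U.ker hi le_top with h0 | h0
    · exact h0
    · exfalso
      have : a ∈ U.ker := h0 ▸ Subgroup.mem_top a
      rw [MonoidHom.mem_ker] at this
      exact hb (u4 ▸ this)
  have hinj : Function.Injective u := (MonoidHom.ker_eq_bot_iff U).1 hker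
  have hbij : Function.Bijective u := Finite.injective_iff_bijective.1 hinj
  have hu1 : u 1 = 1 := U.map_one
  have huinv : ∀ x, u x⁻¹ = (u x)⁻¹ := fun x => U.map_inv x
  obtain ⟨p, hp⟩ := hr (Equiv.ofBijective u hbij) (by
    intro x y
    change u (x * φ (x⁻¹ * y)) = u x * φ ((u x)⁻¹ * u y)
    rw [u1, u3, u1, huinv]) hu1
  exact ⟨p, by rw [← hp a]; exact u4.symm⟩

end Pool.Agent.Lib_MP_8306f4_co.CaseB
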