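import Pool.Agent.Lib_MP_8306f4_co.CaseB.Defs
import Pool.Agent.Lib_MP_8306f4_co.CaseB.TnGlue

/-!
# MP_8306f4_co, case B, piece Psi

Notation. x·y = qop f x y = x f(x⁻¹y) on N; lambda_m: y -> m y is always an automorphism of it
(f commutes with nothing needed). 1·y = f(y). If Equi P f, then y -> p•y is an automorphism.
core(A): a∘b = 2b-a. For every x: y -> x·y is bijective (f bijective), for every y: x -> x·y is
bijective (x⁻¹f(x) bijective). '2 is invertible': all groups N have odd order.

## S1 (Psi.lean): exists_psi [F5]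
(i) 3∤|C|: ψ=square; a=y=1: e=d², d=e². (ii) a prime s≥5 divides |C| and 3 | |C|: B=<x> of order s, ψ=glue of
square and inversion (tn_glue): d³=1. (iii) |C|=9: C≅Z9 or Z3²; Z3²: ψ=A linear, A²=-1, e=Ad, d=Ae=-d. Z9: ψ with
values [0,3,7,4,1,8,5,2,6] on 0..8. (iv) 3-group, |C|≥27: subgroup B of order 9, ψ_B as in (iii), tn_glue:
ψ_B(d b)=d²ψ_B(b) => d=1 (check by decide on the model).

-/

universe u v w

namespace Pool.Agent.Lib_MP_8306f4_co.CaseB

open Pool.Agent.Lib_MP_8306f4_co

namespace Psi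

/-- the properties of the maps on groups of order nine -/
structure Nine {B : Type u} [Group B] (ψ : B → B) : Prop where
  orth : IsOrth ψ
  q : ∀ d e : B, (∀ y, ψ (d * y) = e * ψ y) → (∀ y, ψ (e * y) = d * ψ y) → d = 1
  r : ∀ d : B, (∀ y, ψ (d * y) = d ^ 2 * ψ y) → d = 1
  ne : ∃ b, ψ b ≠ b ^ 2

lemma nine_of_add {B : Type u} [Group B] {V : Type*} [AddCommGroup V]
    (ε : B ≃* Multiplicative V) (F : V → V) (h1 : Function.Bijective F)
    (h2 : Function.Bijective (fun x => -x + F x))
    (hq : ∀ d e : V, (∀ y, F (d + y) = e + F y) → (∀ y, F (e + y) = d + F y) → d = 0)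
    (hr : ∀ d : V, (∀ y, F (d + y) = d + d + F y) → d = 0)
    (hne : ∃ b, F b ≠ b + b) :
    Nine (fun x : B => ε.symm (Multiplicative.ofAdd (F (ε x).toAdd))) := by
  have key : ∀ x : B, (ε (ε.symm (Multiplicative.ofAdd (F (ε x).toAdd)))).toAdd
      = F (ε x).toAdd := by
    intro x; simp
  have hinj : ∀ x y : B, (ε x).toAdd = (ε y).toAdd → x = y := by
    intro x y h
    exact ε.injective (Multiplicative.toAdd.injective h)
  refine ⟨⟨?_, ?_⟩, ?_, ?_, ?_⟩
  · exact ε.symm.bijective.comp (Multiplicative.ofAdd.bijective.comp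
      (h1.comp (Multiplicative.toAdd.bijective.comp ε.bijective)))
  · have : (fun x : B => x⁻¹ * ε.symm (Multiplicative.ofAdd (F (ε x).toAdd))) =
        ε.symm ∘ Multiplicative.ofAdd ∘ (fun x => -x + F x) ∘ Multiplicative.toAdd ∘ ε := by
      funext x
      apply ε.injective
      simp [map_mul, map_inv]
    rw [this]
    exact ε.symm.bijective.comp (Multiplicative.ofAdd.bijective.comp
      (h2.comp (Multiplicative.toAdd.bijective.comp ε.bijective)))
  · intro d e hd he
    apply hinj
    rw [map_one, toAdd_one]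
    refine hq _ (ε e).toAdd ?_ ?_
    · intro y
      have := congrArg (fun t => (ε t).toAdd) (hd (ε.symm (Multiplicative.ofAdd y)))
      simpa [map_mul] using this
    · intro y
      have := congrArg (fun t => (ε t).toAdd) (he (ε.symm (Multiplicative.ofAdd y)))
      simpa [map_mul] using this
  · intro d hd
    apply hinj
    rw [map_one, toAdd_one]
    refine hr _ ?_
    intro y
    have := congrArg (fun t => (ε t).toAdd) (hd (ε.symm (Multiplicative.ofAdd y)))
    simpa [map_mul, pow_two] using this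
  · obtain ⟨b, hb⟩ := hne
    refine ⟨ε.symm (Multiplicative.ofAdd b), fun h => hb ?_⟩
    have := congrArg (fun t => (ε t).toAdd) h
    simpa [map_mul, pow_two] using this

/-- values on `ZMod 9` -/
def F9 : ZMod 9 → ZMod 9 := ![0, 3, 7, 4, 1, 8, 5, 2, 6]

/-- rotation on `ZMod 3 × ZMod 3` -/
def F33 : ZMod 3 × ZMod 3 → ZMod 3 × ZMod 3 := fun x => (-x.2, x.1)

lemma F9_q : ∀ d e : ZMod 9, (∀ y, F9 (d + y) = e + F9 y) → (∀ y, F9 (e + y) = d + F9 y) →
    d = 0 := by decide +kernel
lemma F9_r : ∀ d : ZMod 9, (∀ y, F9 (d + y) = d + d + F9 y) → d = 0 := by decide +kernel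
lemma F9_inj : Function.Injective F9 := by decide +kernel
lemma F9_inj' : Function.Injective (fun x => -x + F9 x) := by decide +kernel
lemma F9_ne : ∃ b, F9 b ≠ b + b := by decide +kernel

lemma F33_q : ∀ d e : ZMod 3 × ZMod 3, (∀ y, F33 (d + y) = e + F33 y) →
    (∀ y, F33 (e + y) = d + F33 y) → d = 0 := by decide +kernel
lemma F33_r : ∀ d : ZMod 3 × ZMod 3, (∀ y, F33 (d + y) = d + d + F33 y) → d = 0 := by
  decide +kernel
lemma F33_inj : Function.Injective F33 := by decide +kernel
lemma F33_inj' : Function.Injective (fun x => -x + F33 x) := by decide +kernel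
lemma F33_ne : ∃ b, F33 b ≠ b + b := by decide +kernel

lemma exists_nine {B : Type u} [Group B] (hB : Nat.card B = 9) : ∃ ψ : B → B, Nine ψ := by
  haveI : Finite B := Nat.finite_of_card_ne_zero (by omega)
  haveI : Fact (Nat.Prime 3) := ⟨Nat.prime_three⟩
  by_cases hc : IsCyclic B
  · have e0 : Multiplicative (ZMod (Nat.card B)) ≃* B := zmodCyclicMulEquiv hc
    rw [hB] at e0
    exact ⟨_, nine_of_add e0.symm F9 (Finite.injective_iff_bijective.1 F9_inj)
      (Finite.injective_iff_bijective.1 F9_inj') F9_q F9_r F9_ne⟩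
  · have hcomm : ∀ x y : B, x * y = y * x := by
      have h9 : Nat.card B = 3 ^ 2 := by rw [hB]; norm_num
      exact fun x y => (IsPGroup.commutative_of_card_eq_prime_sq h9) x y
    letI : CommGroup B := { (inferInstance : Group B) with mul_comm := hcomm }
    have h3 : ∀ x : B, x ^ 3 = 1 := by
      intro x
      have hd : orderOf x ∣ 3 ^ 2 := by
        have := orderOf_dvd_natCard x
        rw [hB] at this
        exact this
      obtain ⟨k, hk, hk'⟩ := (Nat.dvd_prime_pow Nat.prime_three).1 hd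
      have hk2 : k ≠ 2 := by
        rintro rfl
        apply hc
        exact isCyclic_of_orderOf_eq_card x (by rw [hk', hB]; norm_num)
      have hk1 : k ≤ 1 := by omega
      rw [← orderOf_dvd_iff_pow_eq_one, hk']
      exact (pow_dvd_pow 3 hk1).trans (by norm_num)
    letI : Module (ZMod 3) (Additive B) := AddCommGroup.zmodModule (by
      intro x
      exact congrArg Additive.ofMul (h3 x.toMul))
    have hfr : Module.finrank (ZMod 3) (Additive B) = 2 := by
      have h := Module.natCard_eq_pow_finrank (K := ZMod 3) (V := Additive B)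
      have h9 : Nat.card (Additive B) = 9 := by
        rw [← hB]; exact Nat.card_congr Additive.toMul
      rw [h9, Nat.card_zmod] at h
      have : (3 : ℕ) ^ 2 = 3 ^ Module.finrank (ZMod 3) (Additive B) := by rw [← h]; norm_num
      exact (Nat.pow_right_injective (le_refl 2 |>.trans (by norm_num)) this).symm
    have hfr' : Module.finrank (ZMod 3) (ZMod 3 × ZMod 3) = 2 := by
      rw [Module.finrank_prod, Module.finrank_self]
    have e1 : Additive B ≃ₗ[ZMod 3] ZMod 3 × ZMod 3 :=
      LinearEquiv.ofFinrankEq _ _ (by rw [hfr, hfr'])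
    have e2 : B ≃* Multiplicative (ZMod 3 × ZMod 3) := AddEquiv.toMultiplicativeRight e1.toAddEquiv
    exact ⟨_, nine_of_add e2 F33 (Finite.injective_iff_bijective.1 F33_inj)
      (Finite.injective_iff_bijective.1 F33_inj') F33_q F33_r F33_ne⟩

lemma isOrth_sq {C : Type u} [Group C] [Finite C] (hC : Odd (Nat.card C)) :
    IsOrth (fun x : C => x ^ 2) := by
  refine ⟨?_, ?_⟩
  · have hcop : (Nat.card C).Coprime 2 := hC.coprime_two_right
    exact (powCoprime hcop).bijective
  · have : (fun x : C => x⁻¹ * x ^ 2) = id := by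
      funext x
      simp [pow_two]
    rw [this]
    exact Function.bijective_id

end Psi

open Psi in
theorem exists_psi {C : Type u} [Group C] [Finite C] (hC : Odd (Nat.card C))
    (h3 : Nat.card C ≠ 3) : ∃ ψ : C → C, IsOrth ψ ∧
      ∀ d e : C, (∀ a y, ψ (a⁻¹ * d * a * y) = a⁻¹ * e * a * ψ y) →
        (∀ a y, ψ (a⁻¹ * e * a * y) = a⁻¹ * d * a * ψ y) → d = 1 := by
  haveI : Fact (Nat.Prime 3) := ⟨Nat.prime_three⟩
  have hsqK : ∀ (K : Subgroup C), ∀ x ∈ K, (fun x : C => x ^ 2) x ∈ K :=
    fun K x hx => K.pow_mem hx 2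
  by_cases h3d : 3 ∣ Nat.card C
  swap
  · refine ⟨fun x => x ^ 2, isOrth_sq hC, ?_⟩
    intro d e hd he
    have h1 := hd 1 1
    have h2 := he 1 1
    simp only [inv_one, one_mul, mul_one, one_pow] at h1 h2
    have h4 : d ^ 3 = 1 := by
      have : d ^ 4 = d := by
        calc d ^ 4 = (d ^ 2) ^ 2 := by rw [← pow_mul]
          _ = e ^ 2 := by rw [h1]
          _ = d := h2
      have h5 : d * d ^ 3 = d * 1 := by rw [← pow_succ', mul_one]; exact this
      exact mul_left_cancel h5
    have h6 : orderOf d ∣ 3 := orderOf_dvd_of_pow_eq_one h4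
    rcases (Nat.dvd_prime Nat.prime_three).1 h6 with h | h
    · exact orderOf_eq_one_iff.1 h
    · exact absurd (h ▸ orderOf_dvd_natCard d) h3d
  by_cases hs : ∃ s, s.Prime ∧ 5 ≤ s ∧ s ∣ Nat.card C
  · obtain ⟨s, hsp, hs5, hsd⟩ := hs
    haveI : Fact s.Prime := ⟨hsp⟩
    obtain ⟨x, hx⟩ := exists_prime_orderOf_dvd_card' s hsd
    set B : Subgroup C := Subgroup.zpowers x with hBdef
    have hBcard : Nat.card B = s := by rw [hBdef, Nat.card_zpowers, hx]
    have hBtop : B ≠ ⊤ := by
      intro h
      have : Nat.card C = s := by rw [← hBcard, h, Subgroup.card_top]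
      rw [this] at h3d
      have := (Nat.prime_dvd_prime_iff_eq Nat.prime_three hsp).1 h3d
      omega
    have hBodd : Odd (Nat.card B) := by
      rw [hBcard]
      exact hsp.odd_of_ne_two (by omega)
    have hord : ∀ b : B, b ^ 3 = 1 → b = 1 := by
      intro b hb
      have h1 : orderOf b ∣ 3 := orderOf_dvd_of_pow_eq_one hb
      have h2 : orderOf b ∣ s := by rw [← hBcard]; exact orderOf_dvd_natCard b
      have h3 : orderOf b ∣ Nat.gcd 3 s := Nat.dvd_gcd h1 h2
      have h4 : Nat.gcd 3 s = 1 := (Nat.coprime_primes Nat.prime_three hsp).2 (by omega)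
      rw [h4] at h3
      exact orderOf_eq_one_iff.1 (Nat.dvd_one.1 h3)
    have hinv : IsOrth (fun b : B => b⁻¹) := by
      refine ⟨(Equiv.inv B).bijective, ?_⟩
      have : (fun b : B => b⁻¹ * b⁻¹) = (fun b : B => b⁻¹) ∘ (fun b : B => b ^ 2) := by
        funext b
        simp [pow_two, mul_inv_rev]
      rw [this]
      exact (Equiv.inv B).bijective.comp (isOrth_sq hBodd).1
    have hne : ∃ b : B, b⁻¹ ≠ b ^ 2 := by
      refine ⟨⟨x, Subgroup.mem_zpowers x⟩, fun h => ?_⟩
      have h' : (⟨x, Subgroup.mem_zpowers x⟩ : B) ^ 3 = 1 := by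
        rw [pow_succ, ← h]; simp
      have h'' := hord _ h'
      have hx1 : x = 1 := congrArg Subtype.val h''
      rw [hx1, orderOf_one] at hx
      omega
    refine ⟨glue (fun x => x ^ 2) B (fun b => b⁻¹), glue_isOrth (isOrth_sq hC) (hsqK B) hinv, ?_⟩
    intro d e hd _
    have h1 : ∃ W, ∀ y, glue (fun x => x ^ 2) B (fun b => b⁻¹) (d * y) =
        W * glue (fun x => x ^ 2) B (fun b => b⁻¹) y := by
      refine ⟨e, fun y => ?_⟩
      simpa using hd 1 y
    obtain ⟨hdB, -, hb⟩ := (tn_glue hC B hBtop hinv hne d).1 h1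
    have h2 := hb 1
    simp only [mul_one, inv_one] at h2
    have h3 : (⟨d, hdB⟩ : B) ^ 3 = 1 := by
      rw [pow_succ, ← h2]; simp
    exact congrArg Subtype.val (hord _ h3)
  -- a 3-group
  have hpow : ∃ k, Nat.card C = 3 ^ k := by
    refine ⟨_, Nat.eq_prime_pow_of_unique_prime_dvd Nat.card_pos.ne' ?_⟩
    intro r hr hrd
    by_contra hr3
    apply hs
    refine ⟨r, hr, ?_, hrd⟩
    have hr2 : r ≠ 2 := by
      rintro rfl
      exact (Nat.not_even_iff_odd.2 hC) (even_iff_two_dvd.2 hrd)
    have h1 := hr.two_le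
    by_contra h5
    have : r = 4 := by omega
    rw [this] at hr
    revert hr
    decide
  obtain ⟨k, hk⟩ := hpow
  have hk2 : 2 ≤ k := by
    rcases k with _ | _ | k
    · rw [hk] at h3d; norm_num at h3d
    · rw [hk] at h3; norm_num at h3
    · omega
  obtain ⟨B, hBc⟩ := Sylow.exists_subgroup_card_pow_prime (G := C) 3 (n := 2)
    (by rw [hk]; exact pow_dvd_pow 3 hk2)
  obtain ⟨ψ, hψ⟩ := exists_nine (B := B) (by rw [hBc]; norm_num)
  by_cases hBt : B = ⊤
  · have e0 : B ≃* C := (MulEquiv.subgroupCongr hBt).trans Subgroup.topEquiv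
    refine ⟨fun x => e0 (ψ (e0.symm x)), ⟨?_, ?_⟩, ?_⟩
    · exact e0.bijective.comp (hψ.orth.1.comp e0.symm.bijective)
    · have : (fun x : C => x⁻¹ * e0 (ψ (e0.symm x))) =
          e0 ∘ (fun b => b⁻¹ * ψ b) ∘ e0.symm := by
        funext x
        simp
      rw [this]
      exact e0.bijective.comp (hψ.orth.2.comp e0.symm.bijective)
    · intro d e hd he
      have h1 := hψ.q (e0.symm d) (e0.symm e) (by
        intro y
        have := congrArg e0.symm (hd 1 (e0 y))
        simpa using this) (by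
        intro y
        have := congrArg e0.symm (he 1 (e0 y))
        simpa using this)
      have := congrArg e0 h1
      simpa using this
  · refine ⟨glue (fun x => x ^ 2) B ψ, glue_isOrth (isOrth_sq hC) (hsqK B) hψ.orth, ?_⟩
    intro d e hd _
    have h1 : ∃ W, ∀ y, glue (fun x => x ^ 2) B ψ (d * y) =
        W * glue (fun x => x ^ 2) B ψ y := by
      refine ⟨e, fun y => ?_⟩
      simpa using hd 1 y
    obtain ⟨hdB, -, hb⟩ := (tn_glue hC B hBt hψ.orth hψ.ne d).1 h1
    exact congrArg Subtype.val (hψ.r _ hb)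

end Pool.Agent.Lib_MP_8306f4_co.CaseB
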