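import Pool.Agent.Lib_MP_8306f4_co.CaseB.Defs
import Pool.Agent.Lib_MP_8306f4_co.CaseB.GluedA
import Pool.Agent.Lib_MP_8306f4_co.CaseB.GluedSetup
import Pool.Agent.Lib_MP_8306f4_co.CaseB.GluedTn
import Pool.Agent.Lib_MP_8306f4_co.CaseB.GluedSquare
import Pool.Agent.Lib_MP_8306f4_co.CaseB.TnGlue
import Pool.Agent.Lib_MP_8306f4_co.CaseB.InvFacts
import Pool.Agent.Lib_MP_8306f4_co.CaseB.GBasics
import Pool.Agent.Lib_MP_8306f4_co.CaseB.GInv
import Pool.Agent.Lib_MP_8306f4_co.CaseB.GFit
import Pool.Agent.Lib_MP_8306f4_co.CaseB.GPmin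
import Pool.Agent.Lib_MP_8306f4_co.CaseB.HomSolv

/-!
# MP_8306f4_co, case B, piece RC

Notation. x·y = qop f x y = x f(x⁻¹y) on N; lambda_m: y -> m y is always an automorphism of it
(f commutes with nothing needed). 1·y = f(y). If Equi P f, then y -> p•y is an automorphism.
core(A): a∘b = 2b-a. For every x: y -> x·y is bijective (f bijective), for every y: x -> x·y is
bijective (x⁻¹f(x) bijective). '2 is invertible': all groups N have odd order.

## R3 (RC.lean): exists_min_normal: minimal nontrivial P-invariant normal subgroup (last term of the derived series is abelian,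
elements of prime order s in it). exists_pinv_compl: P acts on the Sylow s-subgroups of N, their number is odd (divides |N|).
caseC1: f from exists_glued with g=inversion, φ₂=square (L odd order), glued_setup with hcon = inv_con, glued_square with hcen =
inv_cen; hD: if n acts trivially on Z(L) and L/Z(L) then n^{3^k} centralises L (x -> x η(x), η(x)^{3^k}=1) so n^{3^k}∈L and π n has
order a power of 3 and of s: π n=1. HomFree by glued_homFree, inv_homFree.
caseC: S≤T minimal normal P-invariant (exists_min_normal), of exponent s; s≠3 by hmax (preimage would be a normal 3-subgroup), s≠2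
odd. N1=preimage (exists_sub), S (exists_sub): caseC1 gives f1 on N1 with Rig, HomFree. If S=T done (transfer along N1=N).
Otherwise T1=N/N1 (exists_quot), Ext P (N1→N) (N→T1) holds; φ₂ on N1 from exists_tn with B=R from exists_pinv_compl (order prime
to 3, proper, nontrivial); g=square on T1; glued_setup with hcon from homFree_solv (HomFree f1; qop square x y = y x⁻¹ y), glued_tn.
So every α in A_1 is p₀. (compare rep_of_ext_tn in RepMain.lean.)
-/

universe u v w

namespace Pool.Agent.Lib_MP_8306f4_co.CaseB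

open Pool.Agent.Lib_MP_8306f4_co

namespace RC

lemma card_ker_mul {N M : Type u} [Group N] [Finite N] [Group M] (π : N →* M)
    (hs : Function.Surjective π) : Nat.card N = Nat.card π.ker * Nat.card M := by
  have h1 := Subgroup.card_mul_index π.ker
  rw [Subgroup.index_ker, MonoidHom.range_eq_top.mpr hs] at h1
  rw [← h1, Nat.card_congr Subgroup.topEquiv.toEquiv]

lemma square_orth {T : Type u} [Group T] [Finite T] (hT : Odd (Nat.card T)) :
    IsOrth (fun x : T => x ^ 2) := by
  have h2 : Nat.Coprime (Nat.card T) 2 := (Nat.coprime_two_left.2 hT).symm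
  refine ⟨?_, ?_⟩
  · exact (powCoprime h2).bijective
  · have : (fun x : T => x⁻¹ * x ^ 2) = id := by
      ext x
      simp [sq]
    rw [this]
    exact Function.bijective_id

section
variable {P : Type v} [Group P] {z : P}

lemma square_equi {T : Type u} [Group T] [MulDistribMulAction P T] :
    Equi P (fun x : T => x ^ 2) := by
  intro p x
  exact (smul_pow' p x 2).symm

lemma qop_square {T : Type u} [Group T] (x y : T) :
    qop (fun x : T => x ^ 2) x y = y * x⁻¹ * y := by
  simp only [qop, sq]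
  group

lemma repGood_congr {N : Type u} {N' : Type w} [Group N] [Group N']
    [MulDistribMulAction P N] [MulDistribMulAction P N'] (e : N ≃* N')
    (he : ∀ (p : P) x, e (p • x) = p • e x) (h : RepGood P N) : RepGood P N' := by
  obtain ⟨f, h1, h2, h3⟩ := h
  have hq : ∀ x y, e (qop f x y) = qop (fun x => e (f (e.symm x))) (e x) (e y) := by
    intro x y
    simp [qop]
  refine ⟨fun x => e (f (e.symm x)), ⟨?_, ?_⟩, ?_, ?_⟩
  · exact e.bijective.comp (h1.1.comp e.symm.bijective)
  · have : (fun x => x⁻¹ * e (f (e.symm x))) = e ∘ (fun x => x⁻¹ * f x) ∘ e.symm := by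
      ext x
      simp
    rw [this]
    exact e.bijective.comp (h1.2.comp e.symm.bijective)
  · intro p x
    obtain ⟨y, rfl⟩ := e.surjective x
    change e (f (e.symm (p • e y))) = p • e (f (e.symm (e y)))
    rw [← he, e.symm_apply_apply, e.symm_apply_apply, h2, he]
  · intro α hα hα1
    obtain ⟨p, hp⟩ := h3 (e.toEquiv.trans (α.trans e.symm.toEquiv)) (by
      intro x y
      change e.symm (α (e (qop f x y))) = qop f (e.symm (α (e x))) (e.symm (α (e y)))
      apply e.injective
      rw [hq, hq, hα, e.apply_symm_apply, e.apply_symm_apply, e.apply_symm_apply])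
      (by change e.symm (α (e 1)) = 1; rw [map_one, hα1, map_one])
    refine ⟨p, fun x => ?_⟩
    have := hp (e.symm x)
    change e.symm (α (e (e.symm x))) = p • e.symm x at this
    rw [e.apply_symm_apply] at this
    apply e.symm.injective
    rw [this]
    apply e.injective
    rw [he, e.apply_symm_apply, e.apply_symm_apply]

/-- lifting along an injective homomorphism -/
lemma exists_lift {A B C : Type u} [Group A] [Group B] [Group C] (f : A →* C) (j : B →* C)
    (hj : Function.Injective j) (h : ∀ a, ∃ b, j b = f a) : ∃ g : A →* B, ∀ a, j (g a) = f a := by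
  choose g hg using h
  refine ⟨{ toFun := g, map_one' := ?_, map_mul' := ?_ }, hg⟩
  · apply hj
    rw [hg, map_one, map_one]
  · intro x y
    apply hj
    rw [hg, map_mul, map_mul, hg, hg]

/-- the commutator subgroup of an invariant subgroup is invariant -/
lemma pinv_commutator {T : Type u} [Group T] [MulDistribMulAction P T] (S : Subgroup T)
    (hS : PInv P S) : PInv P ⁅S, S⁆ := by
  intro p x hx
  have h1 : Subgroup.map (MulDistribMulAction.toMonoidHom T p) ⁅S, S⁆ ≤ ⁅S, S⁆ := by
    rw [Subgroup.map_commutator]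
    apply Subgroup.commutator_mono
    · rintro _ ⟨y, hy, rfl⟩
      exact hS p y hy
    · rintro _ ⟨y, hy, rfl⟩
      exact hS p y hy
  exact h1 ⟨x, hx, rfl⟩

end

end RC

section
variable {P : Type v} [Group P] {z : P}

/-- A minimal normal `P`-invariant subgroup of a solvable group. -/
theorem exists_min_normal {T : Type u} [Group T] [Finite T] [Group.IsSolvable T] [Nontrivial T]
    [MulDistribMulAction P T] :
    ∃ S : Subgroup T, S.Normal ∧ PInv P S ∧ S ≠ ⊥ ∧ (∀ x ∈ S, ∀ y ∈ S, x * y = y * x) ∧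
      ∃ s : ℕ, s.Prime ∧ ∀ x ∈ S, x ^ s = 1 := by
  classical
  obtain ⟨S, hS, hmin⟩ := WellFounded.has_min
    (wellFounded_lt : WellFounded ((· < ·) : Subgroup T → Subgroup T → Prop))
    {S | S.Normal ∧ PInv P S ∧ S ≠ ⊥}
    ⟨⊤, ⟨inferInstance, fun _ _ _ => Subgroup.mem_top _, top_ne_bot⟩⟩
  obtain ⟨hSn, hSi, hSb⟩ := hS
  have hcomm : ⁅S, S⁆ = ⊥ := by
    by_contra hne
    exact hmin ⁅S, S⁆ ⟨inferInstance, RC.pinv_commutator S hSi, hne⟩
      (Group.IsSolvable.commutator_lt_of_ne_bot hSb)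
  have hc : ∀ x ∈ S, ∀ y ∈ S, x * y = y * x := by
    intro x hx y hy
    have h1 := Subgroup.commutator_mem_commutator hx hy
    rw [hcomm, Subgroup.mem_bot] at h1
    exact commutatorElement_eq_one_iff_mul_comm.1 h1
  refine ⟨S, hSn, hSi, hSb, hc, ?_⟩
  have hcard : Nat.card S ≠ 1 := by
    intro h1
    exact hSb (Subgroup.eq_bot_of_card_eq S h1)
  obtain ⟨s, hs, hsd⟩ := Nat.exists_prime_and_dvd hcard
  refine ⟨s, hs, ?_⟩
  have : Fact s.Prime := ⟨hs⟩
  obtain ⟨x, hx⟩ := exists_prime_orderOf_dvd_card' (G := S) s hsd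
  -- the subgroup of elements killed by `s`
  let R : Subgroup T :=
    { carrier := {y | y ∈ S ∧ y ^ s = 1}
      one_mem' := ⟨S.one_mem, one_pow s⟩
      mul_mem' := by
        rintro a b ⟨ha, ha'⟩ ⟨hb, hb'⟩
        refine ⟨S.mul_mem ha hb, ?_⟩
        have : Commute a b := hc a ha b hb
        rw [this.mul_pow, ha', hb', one_mul]
      inv_mem' := by
        rintro a ⟨ha, ha'⟩
        refine ⟨S.inv_mem ha, ?_⟩
        rw [inv_pow, ha', inv_one] }
  have hRle : R ≤ S := fun y hy => hy.1
  have hRn : R.Normal := by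
    refine ⟨fun y hy g => ⟨hSn.conj_mem y hy.1 g, ?_⟩⟩
    rw [conj_pow, hy.2, mul_one, mul_inv_cancel]
  have hRi : PInv P R := by
    intro p y hy
    refine ⟨hSi p y hy.1, ?_⟩
    rw [← smul_pow', hy.2, smul_one]
  have hRb : R ≠ ⊥ := by
    intro h1
    have h2 : (x : T) ∈ R := by
      refine ⟨x.2, ?_⟩
      have := pow_orderOf_eq_one x
      rw [hx] at this
      have h3 := congrArg Subtype.val this
      simpa using h3
    rw [h1, Subgroup.mem_bot] at h2
    have h3 : x = 1 := Subtype.ext h2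
    rw [h3, orderOf_one] at hx
    exact hs.one_lt.ne hx
  have hRS : R = S := by
    by_contra hne
    exact hmin R ⟨hRn, hRi, hRb⟩ (lt_of_le_of_ne hRle hne)
  intro y hy
  rw [← hRS] at hy
  exact hy.2

/-- An invariant complement. -/
theorem exists_pinv_compl {L N T : Type u} [Group L] [Group N] [Finite N] [Group T]
    [MulDistribMulAction P L] [MulDistribMulAction P N] [MulDistribMulAction P T]
    (hz : TwoCyc z) (hN : Odd (Nat.card N)) {ι : L →* N} {π : N →* T} (hE : Ext P ι π)
    (hL3 : ∃ k, Nat.card L = 3 ^ k) (hc : ∀ x y : T, x * y = y * x) {s : ℕ} (hs : s.Prime)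
    (hs5 : 5 ≤ s) (hexp : ∀ x : T, x ^ s = 1) :
    ∃ R : Subgroup N, PInv P R ∧ Nat.card R = Nat.card T ∧ ∀ x ∈ R, ∀ y ∈ R, x * y = y * x := by
  classical
  have : Fact s.Prime := ⟨hs⟩
  have : Fact (Nat.Prime 2) := ⟨Nat.prime_two⟩
  have hfin : Finite P := hz.fin
  have hTf : Finite T := Finite.of_surjective π hE.surj
  have hLf : Finite L := Finite.of_injective ι hE.inj
  obtain ⟨k, hk⟩ := hL3
  have hker : Nat.card π.ker = 3 ^ k := by
    rw [← hk, Nat.card_congr (MonoidHom.ofInjective hE.inj).toEquiv]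
    have : π.ker = ι.range := by
      ext x
      rw [MonoidHom.mem_ker, hE.exact]
      rfl
    rw [this]
  have hcN : Nat.card N = 3 ^ k * Nat.card T := by
    rw [RC.card_ker_mul π hE.surj, hker]
  have hTp : IsPGroup s T := fun x => ⟨1, by rw [pow_one]; exact hexp x⟩
  obtain ⟨d, hd⟩ := IsPGroup.iff_card.1 hTp
  -- the fixed Sylow subgroup
  have hcount : ¬ 2 ∣ Nat.card (Sylow s N) := by
    intro h2
    obtain ⟨Q⟩ : Nonempty (Sylow s N) := inferInstance
    have h3 := h2.trans Q.card_dvd_index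
    have h4 := h3.trans Q.1.index_dvd_card
    rw [← even_iff_two_dvd] at h4
    exact (Nat.not_even_iff_odd.2 hN) h4
  obtain ⟨Q, hQ⟩ := hz.pgroup.nonempty_fixed_point_of_prime_not_dvd_card (Sylow s N) hcount
  refine ⟨Q.1, ?_, ?_, ?_⟩
  · intro p x hx
    have h1 : p • Q = Q := hQ p
    have h2 : (p • Q).1 = Q.1 := by rw [h1]
    rw [← h2]
    exact Subgroup.smul_mem_pointwise_smul x p Q.1 hx
  · have h1 := Q.card_eq_multiplicity
    have h2 : (Nat.card N).factorization s = d := by
      rw [hcN, hd, Nat.factorization_mul (by positivity) (pow_ne_zero _ hs.pos.ne')]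
      rw [Nat.Prime.factorization_pow Nat.prime_three, Nat.Prime.factorization_pow hs]
      have h3s : s ≠ 3 := by omega
      simp [h3s]
    rw [h2] at h1
    rw [hd]
    exact h1
  · intro x hx y hy
    -- the commutator is in the kernel and in `Q`
    have hQp := Q.isPGroup'
    have h1 : x * y * x⁻¹ * y⁻¹ ∈ Q.1 :=
      Q.1.mul_mem (Q.1.mul_mem (Q.1.mul_mem hx hy) (Q.1.inv_mem hx)) (Q.1.inv_mem hy)
    have h2 : x * y * x⁻¹ * y⁻¹ ∈ π.ker := by
      rw [MonoidHom.mem_ker]
      simp only [map_mul, map_inv]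
      rw [hc (π x) (π y)]
      group
    obtain ⟨m, hm⟩ := hQp ⟨_, h1⟩
    have h3 : (x * y * x⁻¹ * y⁻¹) ^ (s ^ m) = 1 := by
      have := congrArg Subtype.val hm
      simpa using this
    have h4 : (x * y * x⁻¹ * y⁻¹) ^ (3 ^ k) = 1 := by
      have h5 : (⟨_, h2⟩ : π.ker) ^ Nat.card π.ker = 1 := pow_card_eq_one'
      rw [hker] at h5
      have := congrArg Subtype.val h5
      simpa using this
    have h6 : x * y * x⁻¹ * y⁻¹ = 1 := by
      have hcop : Nat.Coprime (s ^ m) (3 ^ k) := by
        apply Nat.Coprime.pow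
        rw [Nat.coprime_primes hs Nat.prime_three]
        omega
      have h7 : orderOf (x * y * x⁻¹ * y⁻¹) ∣ s ^ m := orderOf_dvd_of_pow_eq_one h3
      have h8 : orderOf (x * y * x⁻¹ * y⁻¹) ∣ 3 ^ k := orderOf_dvd_of_pow_eq_one h4
      have h9 := Nat.eq_one_of_dvd_coprimes hcop h7 h8
      exact orderOf_eq_one_iff.1 h9
    rw [← commutatorElement_def] at h6
    exact commutatorElement_eq_one_iff_mul_comm.1 h6

/-- `stepF0` for a 3-group `L` and an elementary abelian `s`-group `T`. -/
theorem caseC1 {L N T : Type u} [Group L] [Group N] [Finite N] [Group T]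
    [MulDistribMulAction P L] [MulDistribMulAction P N] [MulDistribMulAction P T]
    (hz : TwoCyc z) (hN : Odd (Nat.card N)) {ι : L →* N} {π : N →* T} (hE : Ext P ι π)
    (hL3 : ∃ k, Nat.card L = 3 ^ k) (hL : WGood P L) (hc : ∀ x y : T, x * y = y * x) {s : ℕ}
    (hs : s.Prime) (hs5 : 5 ≤ s) (hexp : ∀ x : T, x ^ s = 1) :
    ∃ f : N → N, IsOrth f ∧ Equi P f ∧ f 1 = 1 ∧ Rig P f ∧ HomFree f := by
  classical
  have hfin : Finite P := hz.fin
  have hTf : Finite T := Finite.of_surjective π hE.surj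
  have hLf : Finite L := Finite.of_injective ι hE.inj
  obtain ⟨φ₁, hφ⟩ := hL
  have hLo : Odd (Nat.card L) := by
    obtain ⟨k, hk⟩ := hL3
    rw [hk]
    exact Odd.pow (by decide)
  have hg := inv_orth hs hs5 hc hexp
  have hge : Equi P (fun x : T => x⁻¹) := fun p x => (smul_inv' p x).symm
  obtain ⟨r, f, hf⟩ := exists_glued hz.pgroup hN hE hg hge inv_one hφ.orth hφ.equi hφ.one
    (RC.square_orth hLo) RC.square_equi
  refine ⟨f, hf.orth, hf.equi, hf.one, ?_,
    glued_homFree hE hf hφ.hom (inv_homFree hs hs5 hc hexp)⟩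
  have hD : ∀ n : N, (∀ l ∈ Subgroup.center L, n * ι l = ι l * n) →
      (∀ l : L, ∃ c ∈ Subgroup.center L, n * ι l * n⁻¹ = ι (l * c)) → π n = 1 := by
    intro n hn1 hn2
    obtain ⟨k, hk⟩ := hL3
    have h1 : π (n ^ (3 ^ k)) = 1 := by
      apply hE.cent
      intro l
      obtain ⟨c, hcc, hcl⟩ := hn2 l
      have h2 : ∀ j : ℕ, n ^ j * ι l * (n ^ j)⁻¹ = ι (l * c ^ j) := by
        intro j
        induction j with
        | zero => simp
        | succ j ih =>
          have h3 : n ^ (j + 1) * ι l * (n ^ (j + 1))⁻¹ = n * (n ^ j * ι l * (n ^ j)⁻¹) * n⁻¹ := by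
            rw [pow_succ', mul_inv_rev]
            simp only [mul_assoc]
          rw [h3, ih, map_mul]
          have h4 : n * ι (c ^ j) = ι (c ^ j) * n :=
            hn1 _ ((Subgroup.center L).pow_mem hcc j)
          calc n * (ι l * ι (c ^ j)) * n⁻¹ = n * ι l * n⁻¹ * (n * ι (c ^ j)) * n⁻¹ := by group
            _ = n * ι l * n⁻¹ * (ι (c ^ j) * n) * n⁻¹ := by rw [h4]
            _ = n * ι l * n⁻¹ * ι (c ^ j) := by group
            _ = ι (l * c ^ (j + 1)) := by
              rw [hcl, ← map_mul, pow_succ', mul_assoc]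
      have h5 := h2 (3 ^ k)
      have h6 : c ^ (3 ^ k) = 1 := by
        rw [← hk]
        exact pow_card_eq_one'
      rw [h6, mul_one] at h5
      rw [mul_inv_eq_iff_eq_mul] at h5
      exact h5
    have h2 : (π n) ^ (3 ^ k) = 1 := by rw [← map_pow, h1]
    have h3 : (π n) ^ s = 1 := hexp _
    have hcop : Nat.Coprime (3 ^ k) s := by
      apply Nat.Coprime.pow_left
      rw [Nat.coprime_primes Nat.prime_three hs]
      omega
    have h7 : orderOf (π n) ∣ 3 ^ k := orderOf_dvd_of_pow_eq_one h2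
    have h8 : orderOf (π n) ∣ s := orderOf_dvd_of_pow_eq_one h3
    exact orderOf_eq_one_iff.1 (Nat.eq_one_of_dvd_coprimes hcop h7 h8)
  intro α hα hα1
  obtain ⟨p₀, β, hβ, h3, h4, pt, h5⟩ := glued_setup hz.pgroup hN hE hf hφ.rig
    (fun h hh => inv_con hs hs5 hc hexp hL3 φ₁ hφ.orth h hh) hα hα1
  have h6 := glued_square hz.pgroup hN hE hf hD
    (fun δ h1 h2 x => inv_cen hs hs5 hc hexp hL3 δ h1 h2 x) hβ h4 pt h5
  refine ⟨p₀, fun x => ?_⟩
  rw [h3, h6]
  rfl

/-- The case of a 3-group `L`. -/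
theorem caseC {L N T : Type u} [Group L] [Group N] [Finite N] [Group T]
    [MulDistribMulAction P L] [MulDistribMulAction P N] [MulDistribMulAction P T]
    [Group.IsSolvable N] (hz : TwoCyc z) (hN : Odd (Nat.card N)) {ι : L →* N} {π : N →* T}
    (hE : Ext P ι π) (hL3 : ∃ k, Nat.card L = 3 ^ k) (hL : WGood P L)
    (hmax : ∀ H : Subgroup N, H.Normal → PInv P H → IsPGroup 3 H → ∀ x ∈ H, π x = 1)
    (hT : Nontrivial T) : RepGood P N := by
  classical
  have hfin : Finite P := hz.fin
  have hTf : Finite T := Finite.of_surjective π hE.surj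
  have hLf : Finite L := Finite.of_injective ι hE.inj
  have hTs : Group.IsSolvable T := Group.isSolvable_of_surjective hE.surj
  have hTo : Odd (Nat.card T) := by
    rw [RC.card_ker_mul π hE.surj] at hN
    exact (Nat.odd_mul.1 hN).2
  have hL1 : Nontrivial L := by
    by_contra h
    rw [not_nontrivial_iff_subsingleton] at h
    exact hz.ne_one (hE.faith z fun l => Subsingleton.elim _ _)
  obtain ⟨S, hSn, hSi, hSb, hSc, s, hs, hSe⟩ := exists_min_normal (P := P) (T := T)
  obtain ⟨⟨x₀, hx₀⟩, hx₁'⟩ := Subgroup.ne_bot_iff_exists_ne_one.1 hSb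
  have hx₁ : x₀ ≠ 1 := fun h => hx₁' (Subtype.ext h)
  have hs2 : s ≠ 2 := by
    rintro rfl
    have h1 : orderOf x₀ ∣ 2 := orderOf_dvd_of_pow_eq_one (hSe x₀ hx₀)
    have h2 : orderOf x₀ ∣ Nat.card T := orderOf_dvd_natCard x₀
    have h3 : Nat.Coprime 2 (Nat.card T) := Nat.coprime_two_left.2 hTo
    exact hx₁ (orderOf_eq_one_iff.1 (Nat.eq_one_of_dvd_coprimes h3 h1 h2))
  have hKi : PInv P (S.comap π) := by
    intro p x hx
    rw [Subgroup.mem_comap] at hx ⊢
    rw [hE.equi']
    exact hSi p _ hx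
  have hKn : (S.comap π).Normal := inferInstance
  have hs3 : s ≠ 3 := by
    rintro rfl
    obtain ⟨k, hk⟩ := hL3
    have hp : IsPGroup 3 (S.comap π) := by
      rintro ⟨x, hx⟩
      refine ⟨k + 1, ?_⟩
      apply Subtype.ext
      change x ^ (3 ^ (k + 1)) = 1
      have h1 : π (x ^ 3) = 1 := by
        rw [map_pow]
        exact hSe _ hx
      obtain ⟨l, hl⟩ := (hE.exact _).1 h1
      rw [pow_succ', pow_mul, ← hl, ← map_pow, ← hk, pow_card_eq_one', map_one]
    obtain ⟨y, hy⟩ := hE.surj x₀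
    have := hmax _ hKn hKi hp y (by rw [Subgroup.mem_comap, hy]; exact hx₀)
    rw [hy] at this
    exact hx₁ this
  have hs5 : 5 ≤ s := by
    have h2 := hs.two_le
    have h4 : s ≠ 4 := by
      rintro rfl
      exact absurd hs (by decide)
    omega
  -- the subgroups
  obtain ⟨N1, _, _, j, hj1, hj2, hj3⟩ := exists_sub (P := P) (S.comap π) hKi
  obtain ⟨T0, _, _, i, hi1, hi2, hi3⟩ := exists_sub (P := P) S hSi
  have hjm : ∀ x : N, (∃ y, j y = x) ↔ π x ∈ S := by
    intro x
    rw [← Subgroup.mem_comap, ← hj3]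
    rfl
  have him : ∀ x : T, (∃ y, i y = x) ↔ x ∈ S := by
    intro x
    rw [← hi3]
    rfl
  have hιπ : ∀ l, π (ι l) = 1 := fun l => (hE.exact _).2 ⟨l, rfl⟩
  obtain ⟨ι', hι'⟩ := RC.exists_lift ι j hj1 (by
    intro l
    rw [hjm, hιπ]
    exact S.one_mem)
  obtain ⟨π', hπ'⟩ := RC.exists_lift (π.comp j) i hi1 (by
    intro x
    rw [him]
    exact (hjm _).1 ⟨x, rfl⟩)
  have hπ'2 : ∀ x, i (π' x) = π (j x) := hπ'
  have hN1f : Finite N1 := Finite.of_injective j hj1
  have hN1o : Odd (Nat.card N1) := by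
    have h1 : Nat.card N1 ∣ Nat.card N := Subgroup.card_dvd_of_injective j hj1
    exact Odd.of_dvd_nat hN h1
  have hT0f : Finite T0 := Finite.of_injective i hi1
  have hE' : Ext P ι' π' := by
    refine ⟨?_, ?_, ?_, ?_, ?_, ?_, ?_⟩
    · intro a b hab
      apply hE.inj
      rw [← hι', ← hι', hab]
    · intro t
      obtain ⟨n, hn⟩ := hE.surj (i t)
      obtain ⟨x, hx⟩ := (hjm n).2 (by rw [hn]; exact (him _).1 ⟨t, rfl⟩)
      refine ⟨x, hi1 ?_⟩
      rw [hπ'2, hx, hn]
    · intro x
      constructor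
      · intro h
        have h1 : π (j x) = 1 := by rw [← hπ'2, h, map_one]
        obtain ⟨l, hl⟩ := (hE.exact _).1 h1
        refine ⟨l, hj1 ?_⟩
        rw [hι', hl]
      · rintro ⟨l, rfl⟩
        apply hi1
        rw [hπ'2, hι', hιπ, map_one]
    · intro p l
      apply hj1
      rw [hι', hE.equi, hj2, hι']
    · intro p x
      apply hi1
      rw [hπ'2, hj2, hE.equi', hi2, hπ'2]
    · intro n hn
      apply hi1
      rw [hπ'2, map_one]
      apply hE.cent
      intro l
      rw [← hι', ← map_mul, hn, map_mul]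
    · exact hE.faith
  have hT0c : ∀ x y : T0, x * y = y * x := by
    intro x y
    apply hi1
    rw [map_mul, map_mul]
    exact hSc _ ((him _).1 ⟨x, rfl⟩) _ ((him _).1 ⟨y, rfl⟩)
  have hT0e : ∀ x : T0, x ^ s = 1 := by
    intro x
    apply hi1
    rw [map_pow, map_one]
    exact hSe _ ((him _).1 ⟨x, rfl⟩)
  obtain ⟨f1, hf1o, hf1e, hf11, hf1r, hf1h⟩ := caseC1 hz hN1o hE' hL3 hL hT0c hs hs5 hT0e
  by_cases hST : S = ⊤
  · have hjs : Function.Surjective j := by
      intro x
      rw [hjm, hST]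
      exact Subgroup.mem_top _
    exact RC.repGood_congr (MulEquiv.ofBijective j ⟨hj1, hjs⟩) (fun p x => hj2 p x)
      ⟨f1, hf1o, hf1e, hf1r⟩
  · obtain ⟨T1, _, _, ρ, hρs, hρe, hρk⟩ := exists_quot (P := P) (S.comap π) hKi
    have hρ1 : ∀ x, ρ x = 1 ↔ π x ∈ S := by
      intro x
      rw [← MonoidHom.mem_ker, hρk, Subgroup.mem_comap]
    have hE2 : Ext P j ρ := by
      refine ⟨hj1, hρs, ?_, hj2, hρe, ?_, ?_⟩
      · intro x
        rw [hρ1, hjm]
      · intro n hn
        rw [hρ1]
        have : π n = 1 := by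
          apply hE.cent
          intro l
          rw [← hι']
          exact hn _
        rw [this]
        exact S.one_mem
      · intro p hp
        apply hE.faith
        intro l
        apply hE'.inj
        rw [hE'.equi]
        exact hp _
    -- the orthomorphism on the other cosets
    obtain ⟨R, hRi, hRc, hRcc⟩ := exists_pinv_compl hz hN1o hE' hL3 hT0c hs hs5 hT0e
    have hT0n : Nontrivial T0 := by
      obtain ⟨y, hy⟩ := (him x₀).2 hx₀
      refine ⟨⟨y, 1, ?_⟩⟩
      rintro rfl
      rw [map_one] at hy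
      exact hx₁ hy.symm
    have hR1 : R ≠ ⊥ := by
      rintro rfl
      rw [Subgroup.card_bot] at hRc
      exact (Finite.one_lt_card_iff_nontrivial.2 hT0n).ne hRc
    have hRt : R ≠ ⊤ := by
      rintro rfl
      rw [Subgroup.card_top] at hRc
      have h1 := RC.card_ker_mul π' hE'.surj
      rw [hRc] at h1
      have h2 : Nat.card π'.ker = Nat.card L := by
        rw [Nat.card_congr (MonoidHom.ofInjective hE'.inj).toEquiv]
        have : π'.ker = ι'.range := by
          ext x
          rw [MonoidHom.mem_ker, hE'.exact]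
          rfl
        rw [this]
      rw [h2] at h1
      have h3 : 1 < Nat.card L := Finite.one_lt_card_iff_nontrivial.2 hL1
      have h4 : 0 < Nat.card T0 := Nat.card_pos
      nlinarith
    have hR3 : Nat.Coprime 3 (Nat.card R) := by
      rw [hRc]
      have : Fact s.Prime := ⟨hs⟩
      have hTp : IsPGroup s T0 := fun x => ⟨1, by rw [pow_one]; exact hT0e x⟩
      obtain ⟨d, hd⟩ := IsPGroup.iff_card.1 hTp
      rw [hd]
      apply Nat.Coprime.pow_right
      rw [Nat.coprime_primes Nat.prime_three hs]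
      omega
    obtain ⟨φ₂, h2, h2e, hTN⟩ := exists_tn hN1o R hRt hR1 hRi hRcc hR3
    have hT1f : Finite T1 := Finite.of_surjective ρ hρs
    have hT1s : Group.IsSolvable T1 := Group.isSolvable_of_surjective hρs
    have hT1o : Odd (Nat.card T1) := by
      have hN' := hN
      rw [RC.card_ker_mul ρ hρs] at hN'
      exact (Nat.odd_mul.1 hN').2
    have hcon : ∀ h : N1 → T1,
        (∀ x y, h (qop f1 x y) = qop (fun x : T1 => x ^ 2) (h x) (h y)) → ∀ x, h x = h 1 := by
      intro h hh
      refine homFree_solv hf1h h ?_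
      intro x y
      rw [hh, RC.qop_square]
    obtain ⟨r, f, hf⟩ := exists_glued hz.pgroup hN hE2 (RC.square_orth hT1o) RC.square_equi
      (one_pow 2) hf1o hf1e hf11 h2 h2e
    refine ⟨f, hf.orth, hf.equi, ?_⟩
    intro α hα hα1
    obtain ⟨p₀, β, hβ, h3, h4, pt, h5⟩ := glued_setup hz.pgroup hN hE2 hf hf1r hcon hα hα1
    have h6 := glued_tn hz.pgroup hN hE2 hf hTN hβ h4 pt h5
    refine ⟨p₀, fun x => ?_⟩
    rw [h3, h6]
    rfl

end

end Pool.Agent.Lib_MP_8306f4_co.CaseB
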