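import Pool.Agent.Lib_MP_8306f4_co.CaseB.Defs
import Pool.Agent.Lib_MP_8306f4_co.CaseB.GBasics
import Pool.Agent.Lib_MP_8306f4_co.CaseB.GInv

/-!
# MP_8306f4_co, case B, piece RSmall

Notation. x·y = qop f x y = x f(x⁻¹y) on N; lambda_m: y -> m y is always an automorphism of it
(f commutes with nothing needed). 1·y = f(y). If Equi P f, then y -> p•y is an automorphism.
core(A): a∘b = 2b-a. For every x: y -> x·y is bijective (f bijective), for every y: x -> x·y is
bijective (x⁻¹f(x) bijective). '2 is invertible': all groups N have odd order.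

## R1 (RSmall.lean): faith_of_cent: (z•n)n⁻¹ centralises L. aut_small: N/L embeds in Aut(L), of odd order. trans_top: the N-orbits
on L\{1} are permuted transitively by P so have the same odd size dividing |P|: size 1.
-/

universe u v w

namespace Pool.Agent.Lib_MP_8306f4_co.CaseB

open Pool.Agent.Lib_MP_8306f4_co

namespace RSmall

/-- an element of odd order group with square one is one -/
theorem eq_one_of_sq {N : Type u} [Group N] [Finite N] (hN : Odd (Nat.card N)) {x : N}
    (h : x * x = 1) : x = 1 := by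
  have h1 : orderOf x ∣ 2 := orderOf_dvd_of_pow_eq_one (by rw [pow_two]; exact h)
  have h2 : orderOf x ∣ Nat.card N := orderOf_dvd_natCard x
  have h3 : Nat.Coprime 2 (Nat.card N) := Nat.coprime_two_left.2 hN
  have h4 : orderOf x ∣ 1 := by
    rw [← h3]
    exact Nat.dvd_gcd h1 h2
  exact orderOf_eq_one_iff.1 (Nat.dvd_one.1 h4)

/-- The kernel of the conjugation action. -/
theorem ker_conj {N : Type u} [Group N] (L : Subgroup N) [L.Normal] :
    (MulAut.conjNormal (H := L)).ker = {n : N | ∀ l ∈ L, n * l = l * n} := by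
  ext n
  show MulAut.conjNormal n = 1 ↔ _
  constructor
  · intro h l hl
    have h1 : MulAut.conjNormal n (⟨l, hl⟩ : L) = ⟨l, hl⟩ := by rw [h]; rfl
    have h2 := congrArg Subtype.val h1
    rw [MulAut.conjNormal_apply] at h2
    exact mul_inv_eq_iff_eq_mul.1 h2
  · intro h
    ext l
    rw [MulAut.conjNormal_apply, h l l.2, mul_inv_cancel_right]
    rfl

/-- The number of elements. -/
theorem card_eq {N : Type u} [Group N] [Finite N] (L : Subgroup N) [L.Normal]
    (hC : ∀ n, (∀ l ∈ L, n * l = l * n) → n ∈ L) (hc : ∀ a ∈ L, ∀ b ∈ L, a * b = b * a) :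
    Nat.card N = Nat.card L * Nat.card (MulAut.conjNormal (H := L)).range := by
  have h1 : (MulAut.conjNormal (H := L)).ker = L := by
    apply SetLike.coe_injective
    rw [ker_conj]
    ext n
    exact ⟨fun h => hC n h, fun h l hl => hc n h l hl⟩
  rw [← Subgroup.index_ker, h1, Subgroup.card_mul_index]

theorem card_range_odd {N : Type u} [Group N] [Finite N] (hN : Odd (Nat.card N))
    (L : Subgroup N) [L.Normal] : Odd (Nat.card (MulAut.conjNormal (H := L)).range) := by
  have h1 : Nat.card (MulAut.conjNormal (H := L)).range ∣ Nat.card N := by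
    rw [← Subgroup.index_ker]
    exact Subgroup.index_dvd_card _
  exact Odd.of_dvd_nat hN h1

theorem card_range_dvd {N : Type u} [Group N] [Finite N]
    (L : Subgroup N) [L.Normal] (p : ℕ) [Fact p.Prime] (hL : Nat.card L = p) :
    Nat.card (MulAut.conjNormal (H := L)).range ∣ p - 1 := by
  have hcyc : IsCyclic L := isCyclic_of_prime_card hL
  have h1 := IsCyclic.card_mulAut L
  rw [hL, Nat.totient_prime Fact.out] at h1
  rw [← h1]
  exact Subgroup.card_subgroup_dvd_card _

theorem comm_of_prime {N : Type u} [Group N] [Finite N]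
    (L : Subgroup N) (p : ℕ) [Fact p.Prime] (hL : Nat.card L = p) :
    ∀ a ∈ L, ∀ b ∈ L, a * b = b * a := by
  have hcyc : IsCyclic L := isCyclic_of_prime_card hL
  intro a ha b hb
  have h1 := IsCyclic.commGroup (α := L)
  have h2 : (⟨a, ha⟩ : L) * ⟨b, hb⟩ = ⟨b, hb⟩ * ⟨a, ha⟩ := by
    let _ := IsCyclic.commGroup (α := L)
    exact mul_comm _ _
  exact congrArg Subtype.val h2

end RSmall

open RSmall

section
variable {P : Type v} [Group P] {z : P}

theorem faith_of_cent {N : Type u} [Group N] [Finite N] [MulDistribMulAction P N]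
    (hz2 : z * z = 1) (hN : Odd (Nat.card N)) (L : Subgroup N) [L.Normal]
    (hC : ∀ n, (∀ l ∈ L, n * l = l * n) → n ∈ L) (h : ∀ l ∈ L, z • l = l) (x : N) :
    z • x = x := by
  have hzz : z • (z • x) = x := by rw [← mul_smul, hz2, one_smul]
  have h1 : x⁻¹ * (z • x) ∈ L := by
    apply hC
    intro l hl
    have h2 : z • (x * l * x⁻¹) = x * l * x⁻¹ :=
      h _ (Subgroup.Normal.conj_mem inferInstance l hl x)
    rw [smul_mul', smul_mul', h l hl, smul_inv'] at h2
    -- h2 : (z • x) * l * (z • x)⁻¹ = x * l * x⁻¹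
    have h3 : (z • x) * l = x * l * x⁻¹ * (z • x) := mul_inv_eq_iff_eq_mul.1 h2
    rw [mul_assoc, h3]
    group
  have h2 : z • (x⁻¹ * (z • x)) = x⁻¹ * (z • x) := h _ h1
  rw [smul_mul', smul_inv', hzz] at h2
  have h3 : (x⁻¹ * (z • x)) * (x⁻¹ * (z • x)) = 1 := by
    nth_rewrite 1 [← h2]
    group
  have h4 := eq_one_of_sq hN h3
  exact (inv_mul_eq_one.1 h4).symm

/-- `N/L` acts faithfully on `L` if `L` is abelian of order 5, 7, 9. -/
theorem aut_small {N : Type u} [Group N] [Finite N] (hN : Odd (Nat.card N)) (L : Subgroup N)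
    [L.Normal] (hC : ∀ n, (∀ l ∈ L, n * l = l * n) → n ∈ L) :
    (Nat.card L = 5 → Nat.card N = 5) ∧ (Nat.card L = 7 → Nat.card N = 7 ∨ Nat.card N = 21) ∧
      (Nat.card L = 9 → ∃ k, Nat.card N = 3 ^ k) := by
  refine ⟨?_, ?_, ?_⟩
  · intro h5
    have : Fact (Nat.Prime 5) := ⟨by norm_num⟩
    have h1 := card_eq L hC (comm_of_prime L 5 h5)
    have h2 := card_range_odd hN L
    have h3 := card_range_dvd L 5 h5
    have h4 : Nat.card (MulAut.conjNormal (H := L)).range ≤ 4 := Nat.le_of_dvd (by norm_num) h3
    rw [h5] at h1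
    generalize Nat.card (MulAut.conjNormal (H := L)).range = m at *
    interval_cases m
    · exact absurd h2 (by decide)
    · exact h1
    · exact absurd h2 (by decide)
    · exact absurd h3 (by decide)
    · exact absurd h2 (by decide)
  · intro h7
    have : Fact (Nat.Prime 7) := ⟨by norm_num⟩
    have h1 := card_eq L hC (comm_of_prime L 7 h7)
    have h2 := card_range_odd hN L
    have h3 := card_range_dvd L 7 h7
    have h4 : Nat.card (MulAut.conjNormal (H := L)).range ≤ 6 := Nat.le_of_dvd (by norm_num) h3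
    rw [h7] at h1
    generalize Nat.card (MulAut.conjNormal (H := L)).range = m at *
    interval_cases m
    · exact absurd h2 (by decide)
    · exact Or.inl h1
    · exact absurd h2 (by decide)
    · exact Or.inr h1
    · exact absurd h2 (by decide)
    · exact absurd h3 (by decide)
    · exact absurd h2 (by decide)
  · intro h9
    refine ⟨_, Nat.eq_prime_pow_of_unique_prime_dvd (p := 3) Nat.card_pos.ne' ?_⟩
    intro r hr hrN
    by_contra hr3
    have : Fact r.Prime := ⟨hr⟩
    have hrodd : Odd r := Odd.of_dvd_nat hN hrN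
    obtain ⟨n, hn⟩ := exists_prime_orderOf_dvd_card' r hrN
    -- the group generated by `n` acts on `L`
    let φ : Subgroup.zpowers n →* MulAut L := (MulAut.conjNormal (H := L)).comp
      (Subgroup.zpowers n).subtype
    let _ : MulAction (Subgroup.zpowers n) L := MulAction.compHom L φ
    have hp : IsPGroup r (Subgroup.zpowers n) := by
      apply IsPGroup.of_card (n := 1)
      rw [Nat.card_zpowers, hn, pow_one]
    have hmod := hp.card_modEq_card_fixedPoints (α := L)
    let F : Subgroup L :=
      { carrier := MulAction.fixedPoints (Subgroup.zpowers n) L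
        one_mem' := fun g => map_one (φ g)
        mul_mem' := fun {a b} ha hb g => by
          show φ g (a * b) = a * b
          rw [map_mul]
          exact congrArg₂ _ (ha g) (hb g)
        inv_mem' := fun {a} ha g => by
          show φ g a⁻¹ = a⁻¹
          rw [map_inv]
          exact congrArg _ (ha g) }
    have hF : Nat.card (MulAction.fixedPoints (Subgroup.zpowers n) L) = Nat.card F := rfl
    have hFdvd : Nat.card F ∣ 9 := by
      rw [← h9]
      exact Subgroup.card_subgroup_dvd_card F
    rw [hF, h9] at hmod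
    have hFle : Nat.card F ≤ 9 := Nat.le_of_dvd (by norm_num) hFdvd
    have hr2 : r ≠ 2 := by
      rintro rfl
      exact absurd hrodd (by decide)
    have hdvd : r ∣ 9 - Nat.card F := (Nat.modEq_iff_dvd' hFle).1 hmod.symm
    have hF9 : Nat.card F = 9 := by
      generalize Nat.card F = m at *
      interval_cases m
      · exact absurd hFdvd (by decide)
      · exfalso
        have h8 : r ∣ 2 ^ 3 := hdvd
        exact hr2 ((Nat.prime_dvd_prime_iff_eq hr Nat.prime_two).1 (hr.dvd_of_dvd_pow h8))
      · exact absurd hFdvd (by decide)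
      · exfalso
        have h8 : r ∣ 2 * 3 := hdvd
        rcases (Nat.Prime.dvd_mul hr).1 h8 with h | h
        · exact hr2 ((Nat.prime_dvd_prime_iff_eq hr Nat.prime_two).1 h)
        · exact hr3 ((Nat.prime_dvd_prime_iff_eq hr Nat.prime_three).1 h)
      · exact absurd hFdvd (by decide)
      · exact absurd hFdvd (by decide)
      · exact absurd hFdvd (by decide)
      · exact absurd hFdvd (by decide)
      · exact absurd hFdvd (by decide)
      · rfl
    have hFtop : F = ⊤ := Subgroup.eq_top_of_card_eq F (by rw [hF9, h9])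
    have hnL : n ∈ L := by
      apply hC
      intro l hl
      have h1 : (⟨l, hl⟩ : L) ∈ F := by rw [hFtop]; trivial
      have h2 : MulAut.conjNormal n (⟨l, hl⟩ : L) = ⟨l, hl⟩ := h1 ⟨n, Subgroup.mem_zpowers n⟩
      have h3 := congrArg Subtype.val h2
      rw [MulAut.conjNormal_apply] at h3
      exact mul_inv_eq_iff_eq_mul.1 h3
    have h1 : r ∣ 9 := by
      rw [← hn, ← h9, ← Subgroup.orderOf_mk n hnL]
      exact orderOf_dvd_natCard _
    have h2 : r ∣ 3 ^ 2 := h1
    exact hr3 ((Nat.prime_dvd_prime_iff_eq hr Nat.prime_three).1 (hr.dvd_of_dvd_pow h2))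

theorem trans_top {L N T : Type u} [Group L] [Group N] [Finite N] [Group T]
    [MulDistribMulAction P L] [MulDistribMulAction P N] [MulDistribMulAction P T]
    (hz : TwoCyc z) (hN : Odd (Nat.card N)) {ι : L →* N} {π : N →* T} (hE : Ext P ι π)
    (htr : ∀ a b : L, a ≠ 1 → b ≠ 1 → ∃ p : P, b = p • a) (hL : ∀ l : L, z • l = l⁻¹) (t : T) :
    t = 1 := by
  classical
  have := hz.fin
  let X : Type u := {x : N // π x = 1 ∧ x ≠ 1}
  let _ : MulAction N X :=
    { smul := fun n x => ⟨n * x.1 * n⁻¹, by
        refine ⟨?_, ?_⟩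
        · rw [map_mul, map_mul, x.2.1, mul_one, map_inv, mul_inv_cancel]
        · intro h
          apply x.2.2
          have h1 : n * x.1 = n := by
            have := mul_inv_eq_one.1 h
            exact this
          exact mul_eq_left.1 h1⟩
      one_smul := fun x => Subtype.ext (by
        show 1 * x.1 * 1⁻¹ = x.1
        simp)
      mul_smul := fun a b x => Subtype.ext (by
        show a * b * x.1 * (a * b)⁻¹ = a * (b * x.1 * b⁻¹) * a⁻¹
        group) }
  let _ : MulAction P X :=
    { smul := fun p x => ⟨p • x.1, by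
        refine ⟨?_, ?_⟩
        · rw [hE.equi', x.2.1, smul_one]
        · intro h
          apply x.2.2
          exact (smul_eq_iff_eq_inv_smul p).1 h |>.trans (smul_one _)⟩
      one_smul := fun x => Subtype.ext (one_smul P x.1)
      mul_smul := fun a b x => Subtype.ext (mul_smul a b x.1) }
  have hNX : ∀ (n : N) (x : X), ((n • x : X) : N) = n * x.1 * n⁻¹ := fun _ _ => rfl
  have hPX : ∀ (p : P) (x : X), ((p • x : X) : N) = p • x.1 := fun _ _ => rfl
  have hfinX : Finite X := inferInstanceAs (Finite {x : N // π x = 1 ∧ x ≠ 1})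
  have htrX : ∀ x y : X, ∃ p : P, p • x = y := by
    intro x y
    obtain ⟨a, ha⟩ := (hE.exact x.1).1 x.2.1
    obtain ⟨b, hb⟩ := (hE.exact y.1).1 y.2.1
    obtain ⟨p, hp⟩ := htr a b (by
      rintro rfl
      exact x.2.2 (by rw [← ha, map_one])) (by
      rintro rfl
      exact y.2.2 (by rw [← hb, map_one]))
    refine ⟨p, Subtype.ext ?_⟩
    rw [hPX, ← ha, ← hb, hp, hE.equi]
  -- the orbits have the same size
  have horb : ∀ (p : P) (x : X), (MulAction.orbit N (p • x)) = (fun y : X => p • y) ''
      (MulAction.orbit N x) := by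
    intro p x
    ext y
    constructor
    · rintro ⟨n, rfl⟩
      refine ⟨(p⁻¹ • n) • x, ⟨_, rfl⟩, ?_⟩
      apply Subtype.ext
      show p • ((p⁻¹ • n) * x.1 * (p⁻¹ • n)⁻¹) = n * (p • x.1) * n⁻¹
      rw [smul_mul', smul_mul', smul_inv', smul_inv_smul]
    · rintro ⟨_, ⟨n, rfl⟩, rfl⟩
      refine ⟨p • n, ?_⟩
      apply Subtype.ext
      show (p • n) * (p • x.1) * (p • n)⁻¹ = p • (n * x.1 * n⁻¹)
      rw [smul_mul', smul_mul', smul_inv']
  have hinj : ∀ p : P, Function.Injective (fun y : X => p • y) := fun p => MulAction.injective p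
  have hsize : ∀ x y : X, (MulAction.orbit N x).ncard = (MulAction.orbit N y).ncard := by
    intro x y
    obtain ⟨p, rfl⟩ := htrX x y
    rw [horb, Set.ncard_image_of_injective _ (hinj p)]
  have hone : ∀ x : X, (MulAction.orbit N x).ncard = 1 := by
    intro x
    have h1 : (MulAction.orbit N x).ncard ∣ Nat.card N := by
      rw [← MulAction.index_stabilizer]
      exact Subgroup.index_dvd_card _
    have h2 : Nat.card X ∣ Nat.card P := by
      have : MulAction.IsPretransitive P X := ⟨htrX⟩
      rw [← MulAction.index_stabilizer_of_transitive P x]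
      exact Subgroup.index_dvd_card _
    have h3 : (MulAction.orbit N x).ncard ∣ Nat.card X := by
      have e := MulAction.selfEquivSigmaOrbits N X
      have hfO : Finite (MulAction.orbitRel.Quotient N X) := Quotient.finite _
      let _ := Fintype.ofFinite (MulAction.orbitRel.Quotient N X)
      rw [Nat.card_congr e, Nat.card_sigma]
      refine Finset.dvd_sum fun ω _ => ?_
      rw [Nat.card_coe_set_eq]
      exact dvd_of_eq (hsize x _)
    obtain ⟨k, hk⟩ := (IsPGroup.iff_card).1 hz.pgroup
    have h4 : (MulAction.orbit N x).ncard ∣ 2 ^ k := by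
      rw [← hk]
      exact h3.trans h2
    have h5 : Nat.Coprime (2 ^ k) (Nat.card N) := Nat.Coprime.pow_left k (Nat.coprime_two_left.2 hN)
    exact Nat.dvd_one.1 (by
      rw [← h5]
      exact Nat.dvd_gcd h4 h1)
  obtain ⟨n, rfl⟩ := hE.surj t
  apply hE.cent
  intro l
  by_cases hl : l = 1
  · subst hl
    rw [map_one, mul_one, one_mul]
  · let x : X := ⟨ι l, (hE.exact _).2 ⟨l, rfl⟩, fun h => hl (hE.inj (by rw [h, map_one]))⟩
    obtain ⟨y, hy⟩ := Set.ncard_eq_one.1 (hone x)
    have h1 : x ∈ MulAction.orbit N x := MulAction.mem_orbit_self x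
    have h2 : n • x ∈ MulAction.orbit N x := MulAction.mem_orbit x n
    rw [hy, Set.mem_singleton_iff] at h1 h2
    have h3 : n • x = x := h2.trans h1.symm
    have h4 := congrArg Subtype.val h3
    rw [hNX] at h4
    exact mul_inv_eq_iff_eq_mul.1 h4

end

end Pool.Agent.Lib_MP_8306f4_co.CaseB
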