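import Pool.Agent.Lib_MP_8306f4_co.CaseB.Defs
import Pool.Agent.Lib_MP_8306f4_co.CaseB.GBasics
import Pool.Agent.Lib_MP_8306f4_co.CaseB.GThree
import Pool.Agent.Lib_MP_8306f4_co.CaseB.GFit

/-!
# MP_8306f4_co, case B, piece RThree

Notation. x·y = qop f x y = x f(x⁻¹y) on N; lambda_m: y -> m y is always an automorphism of it
(f commutes with nothing needed). 1·y = f(y). If Equi P f, then y -> p•y is an automorphism.
core(A): a∘b = 2b-a. For every x: y -> x·y is bijective (f bijective), for every y: x -> x·y is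
bijective (x⁻¹f(x) bijective). '2 is invertible': all groups N have odd order.

## R2 (RThree.lean): three_up [G3]: u=n⁻¹(z•n), z^n(x):=n⁻¹(z•(n x n⁻¹))n = u(z•x)u⁻¹. J={x∈L : z•x=x⁻¹}: L=J×C_L(z), J central in L of order 3; J' the
same for z^n. V=J J' ≤ Z(L), order 3 or 9, exponent 3, invariant under z and z^n, hence under conj_u; conj_u = z^n∘z is trivial on
L/V. Let u0 = a power of u of order prime to 3 (3'-part): conj_{u0} is trivial on V (odd order prime to 3 in Aut(V), |Aut(Z3²)|=48)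
and on L/V, coprime action: trivial on L. So u0∈Z(L); z•u=u⁻¹ so z•u0=u0⁻¹, u0∈J, u0³=1, u0=1. So all u are 3-elements:
threeGroup_of_elements gives H ≤ L (h3), so all n⁻¹(z•n) lie in {x∈L : z•x=x⁻¹}=J, size 3: |N:fixS z| ≤ 3, and it is ≥3 (odd, ≠1).
-/

universe u v w

namespace Pool.Agent.Lib_MP_8306f4_co.CaseB

open Pool.Agent.Lib_MP_8306f4_co

namespace RThree

/-- the elements inverted by `z` -/
theorem exists_J {P : Type v} [Group P] {z : P} {N : Type u} [Group N] [Finite N]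
    [MulDistribMulAction P N] (hz2 : z * z = 1) (hN : Odd (Nat.card N)) (L : Subgroup N)
    (hLz : ∀ x ∈ L, z • x ∈ L)
    (hcard : Nat.card L = 3 * Nat.card ((fixS z : Subgroup N) ⊓ L : Subgroup N)) :
    ∃ J : Subgroup N, Nat.card J ∣ 3 ∧ J ≤ L ∧ (∀ x ∈ J, ∀ y ∈ L, x * y = y * x) ∧
      (∀ x ∈ L, z • x = x⁻¹ → x ∈ J) ∧ (∀ x ∈ L, x⁻¹ * (z • x) ∈ J) := by
  have hinv : PInv (Subgroup.zpowers z) L := by
    rintro ⟨p, hp⟩ x hx
    obtain ⟨k, rfl⟩ := Subgroup.mem_zpowers_iff.1 hp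
    change z ^ k • x ∈ L
    have hz2' : z ^ (2 : ℤ) = 1 := by
      rw [zpow_two, hz2]
    rcases Int.even_or_odd' k with ⟨m, rfl | rfl⟩
    · rw [zpow_mul, hz2', one_zpow, one_smul]
      exact hx
    · rw [zpow_add, zpow_mul, hz2', one_zpow, one_mul, zpow_one]
      exact hLz x hx
  obtain ⟨L', _, _, ι, hι, hιe, hιr⟩ := exists_sub (P := Subgroup.zpowers z) L hinv
  let z' : Subgroup.zpowers z := ⟨z, Subgroup.mem_zpowers z⟩
  have hz' : z' * z' = 1 := Subtype.ext hz2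
  have hιz : ∀ x, ι (z' • x) = z • ι x := fun x => hιe z' x
  have hfinL' : Finite L' := Finite.of_injective ι hι
  have hιL : ∀ x, ι x ∈ L := fun x => hιr ▸ ⟨x, rfl⟩
  have hcardL : Nat.card L' = Nat.card L := by
    rw [← hιr]
    exact Nat.card_congr (Equiv.ofInjective ι hι)
  have hoddL : Odd (Nat.card L') := by
    rw [hcardL]
    exact hN.of_dvd_nat (Subgroup.card_subgroup_dvd_card L)
  have hcardF : Nat.card (fixS z' : Subgroup L') =
      Nat.card ((fixS z : Subgroup N) ⊓ L : Subgroup N) := by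
    refine Nat.card_congr (Equiv.ofBijective (fun x => ⟨ι x.1, ?_, hιL x.1⟩) ⟨?_, ?_⟩)
    · change z • ι x.1 = ι x.1
      rw [← hιz, (mem_fixS.1 x.2)]
    · intro x y hxy
      exact Subtype.ext (hι (congrArg Subtype.val hxy))
    · rintro ⟨x, hx1, hx2⟩
      rw [SetLike.mem_coe, ← hιr] at hx2
      obtain ⟨y, rfl⟩ := hx2
      refine ⟨⟨y, ?_⟩, rfl⟩
      change z' • y = y
      apply hι
      rw [hιz]
      exact hx1
  obtain ⟨e, he⟩ := struct_three (z := z') (N := L') hz' hoddL (by rw [hcardL, hcardF, hcard])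
  let j : Multiplicative (ZMod 3) →* N :=
    (ι.comp e.symm.toMonoidHom).comp (MonoidHom.inl _ _)
  have hj : ∀ t, j t = ι (e.symm (t, 1)) := fun t => rfl
  refine ⟨j.range, ?_, ?_, ?_, ?_, ?_⟩
  · have h1 : Nat.card j.range ∣ Nat.card (Multiplicative (ZMod 3)) := Subgroup.card_range_dvd j
    have h2 : Nat.card (Multiplicative (ZMod 3)) = 3 := by
      rw [Nat.card_congr Multiplicative.toAdd, Nat.card_zmod]
    rwa [h2] at h1
  · rintro _ ⟨t, rfl⟩
    exact hιL _
  · rintro _ ⟨t, rfl⟩ y hy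
    rw [← hιr] at hy
    obtain ⟨y, rfl⟩ := hy
    rw [hj, ← map_mul, ← map_mul]
    congr 1
    apply e.injective
    rw [map_mul, map_mul, MulEquiv.apply_symm_apply]
    ext
    · change t * (e y).1 = (e y).1 * t
      exact mul_comm _ _
    · simp
  · intro x hx hzx
    rw [← hιr] at hx
    obtain ⟨x, rfl⟩ := hx
    rw [← hιz, ← map_inv] at hzx
    have h1 := hι hzx
    have h2 : e (z' • x) = (e x)⁻¹ := by rw [h1, map_inv]
    rw [he] at h2
    have h3 : (e x).2 = (e x).2⁻¹ := congrArg Prod.snd h2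
    have h4 : (e x).2 = 1 := by
      have h5 : (e x).2 ^ 2 = 1 := by
        rw [pow_two]
        nth_rewrite 1 [h3]
        exact inv_mul_cancel _
      have h6 : Odd (Nat.card (fixS z' : Subgroup L')) :=
        hoddL.of_dvd_nat (Subgroup.card_subgroup_dvd_card _)
      have h7 : orderOf (e x).2 ∣ 2 := orderOf_dvd_of_pow_eq_one h5
      have h8 : orderOf (e x).2 ∣ Nat.card (fixS z' : Subgroup L') := orderOf_dvd_natCard _
      have h9 : Nat.Coprime 2 (Nat.card (fixS z' : Subgroup L')) :=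
        (Nat.coprime_two_left).2 h6
      have h10 : orderOf (e x).2 ∣ 1 := by
        rw [← h9]
        exact Nat.dvd_gcd h7 h8
      exact orderOf_eq_one_iff.1 (Nat.dvd_one.1 h10)
    refine ⟨(e x).1, ?_⟩
    rw [hj, ← h4]
    simp
  · intro x hx
    rw [← hιr] at hx
    obtain ⟨x, rfl⟩ := hx
    refine ⟨(e x).1⁻¹ * (e x).1⁻¹, ?_⟩
    rw [hj, ← hιz, ← map_inv, ← map_mul]
    congr 1
    apply e.injective
    rw [MulEquiv.apply_symm_apply, map_mul, he, map_inv]
    ext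
    · rfl
    · simp

/-- the subgroup `V` -/
theorem exists_V {P : Type v} [Group P] {z : P} {N : Type u} [Group N] [Finite N]
    [MulDistribMulAction P N] (hz2 : z * z = 1) (L : Subgroup N) [L.Normal]
    (hLz : ∀ x ∈ L, z • x ∈ L) (J : Subgroup N) (hJ3 : Nat.card J ∣ 3) (hJL : J ≤ L)
    (hJc : ∀ x ∈ J, ∀ y ∈ L, x * y = y * x) (hJm : ∀ x ∈ L, x⁻¹ * (z • x) ∈ J) (n : N) :
    ∃ V : Subgroup N, Nat.card V ∣ 9 ∧ V ≤ L ∧ (∀ x ∈ V, ∀ y ∈ L, x * y = y * x) ∧
      (∀ x ∈ V, x ^ 3 = 1) ∧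
      ∀ y ∈ L, y⁻¹ * ((n⁻¹ * (z • n)) * y * (n⁻¹ * (z • n))⁻¹) ∈ V := by
  have hJ1 : ∀ x ∈ J, x ^ 3 = 1 := by
    intro x hx
    have h1 : orderOf (⟨x, hx⟩ : J) ∣ 3 := (orderOf_dvd_natCard _).trans hJ3
    have h2 := orderOf_dvd_iff_pow_eq_one.1 h1
    exact congrArg Subtype.val h2
  have hLn : ∀ x, n * x * n⁻¹ ∈ L ↔ x ∈ L := by
    intro x
    refine ⟨fun h => ?_, fun h => ‹L.Normal›.conj_mem x h n⟩
    have := ‹L.Normal›.conj_mem _ h n⁻¹
    simpa [mul_assoc] using this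
  let J' : Subgroup N := J.comap (MulAut.conj n).toMonoidHom
  have hJ' : ∀ x, x ∈ J' ↔ n * x * n⁻¹ ∈ J := fun x => Iff.rfl
  have hJ'L : J' ≤ L := fun x hx => (hLn x).1 (hJL hx)
  have hJ'c : ∀ x ∈ J', ∀ y ∈ L, x * y = y * x := by
    intro x hx y hy
    have h1 := hJc _ ((hJ' x).1 hx) _ ((hLn y).2 hy)
    have h2 : n * (x * y) * n⁻¹ = n * (y * x) * n⁻¹ := by
      calc n * (x * y) * n⁻¹ = (n * x * n⁻¹) * (n * y * n⁻¹) := by group
        _ = (n * y * n⁻¹) * (n * x * n⁻¹) := h1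
        _ = _ := by group
    exact mul_left_cancel (mul_right_cancel h2)
  have hJ'1 : ∀ x ∈ J', x ^ 3 = 1 := by
    intro x hx
    have h1 := hJ1 _ ((hJ' x).1 hx)
    rw [conj_pow] at h1
    have h2 : n * x ^ 3 * n⁻¹ = n * 1 * n⁻¹ := by
      rw [h1]; group
    exact mul_left_cancel (mul_right_cancel h2)
  have hJ'3 : Nat.card J' ∣ 3 := by
    have h1 : Nat.card J' = Nat.card J := by
      refine Nat.card_congr (Equiv.ofBijective (fun x => ⟨n * x.1 * n⁻¹, (hJ' _).1 x.2⟩) ⟨?_, ?_⟩)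
      · intro x y hxy
        have h2 : n * x.1 * n⁻¹ = n * y.1 * n⁻¹ := congrArg Subtype.val hxy
        exact Subtype.ext (mul_left_cancel (mul_right_cancel h2))
      · rintro ⟨x, hx⟩
        have h3 : n * (n⁻¹ * x * n) * n⁻¹ = x := by group
        refine ⟨⟨n⁻¹ * x * n, ?_⟩, Subtype.ext h3⟩
        rw [hJ', h3]
        exact hx
    rwa [h1]
  have hcomm : ∀ (x : J) (y : J'), Commute (J.subtype x) (J'.subtype y) :=
    fun x y => hJc _ x.2 _ (hJ'L y.2)
  let φ : J × J' →* N := MonoidHom.noncommCoprod J.subtype J'.subtype hcomm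
  have hφ : ∀ x, φ x = (x.1 : N) * (x.2 : N) := fun x => rfl
  refine ⟨φ.range, ?_, ?_, ?_, ?_, ?_⟩
  · have h1 : Nat.card φ.range ∣ Nat.card (J × J') := Subgroup.card_range_dvd φ
    rw [Nat.card_prod] at h1
    exact h1.trans (Nat.mul_dvd_mul hJ3 hJ'3)
  · rintro _ ⟨x, rfl⟩
    rw [hφ]
    exact L.mul_mem (hJL x.1.2) (hJ'L x.2.2)
  · rintro _ ⟨x, rfl⟩ y hy
    rw [hφ]
    exact (Commute.mul_left (hJc _ x.1.2 y hy : Commute _ _) (hJ'c _ x.2.2 y hy : Commute _ _))
  · rintro _ ⟨x, rfl⟩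
    have h1 : Commute (x.1 : N) (x.2 : N) := hcomm x.1 x.2
    rw [hφ, h1.mul_pow, hJ1 _ x.1.2, hJ'1 _ x.2.2, one_mul]
  · intro y hy
    have hzz : z • (z • y) = y := by rw [smul_smul, hz2, one_smul]
    have h1 : y⁻¹ * (z • y) ∈ J := hJm y hy
    have h2 : (z • y)⁻¹ * (n⁻¹ * (z • (n * (z • y) * n⁻¹)) * n) ∈ J' := by
      rw [hJ']
      have := hJm (n * (z • y) * n⁻¹) ((hLn _).2 (hLz y hy))
      convert this using 1
      group
    refine ⟨(⟨_, h1⟩, ⟨_, h2⟩), ?_⟩
    rw [hφ]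
    simp only [smul_mul', smul_inv', hzz]
    group

theorem elt {P : Type v} [Group P] {z : P} {N : Type u} [Group N] [Finite N]
    [MulDistribMulAction P N] (hz2 : z * z = 1) (hN : Odd (Nat.card N)) (L : Subgroup N)
    [L.Normal] (hLz : ∀ x ∈ L, z • x ∈ L) (hC : ∀ n, (∀ l ∈ L, n * l = l * n) → n ∈ L)
    (J : Subgroup N) (hJ3 : Nat.card J ∣ 3) (hJL : J ≤ L)
    (hJc : ∀ x ∈ J, ∀ y ∈ L, x * y = y * x) (hJi : ∀ x ∈ L, z • x = x⁻¹ → x ∈ J)
    (hJm : ∀ x ∈ L, x⁻¹ * (z • x) ∈ J) (n : N) :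
    ∃ k : ℕ, (n⁻¹ * (z • n)) ^ (3 ^ k) = 1 := by
  obtain ⟨V, hV9, hVL, hVc, hV3, hVu⟩ := exists_V hz2 L hLz J hJ3 hJL hJc hJm n
  have hzu : z • (n⁻¹ * (z • n)) = (n⁻¹ * (z • n))⁻¹ := by
    rw [smul_mul', smul_inv', smul_smul, hz2, one_smul]
    group
  generalize n⁻¹ * (z • n) = u at hzu hVu ⊢
  have hconj : ∀ k : ℕ, ∀ y ∈ L, y⁻¹ * (u ^ k * y * (u ^ k)⁻¹) ∈ V := by
    intro k
    induction k with
    | zero =>
      intro y _
      have h1 : y⁻¹ * (u ^ 0 * y * (u ^ 0)⁻¹) = 1 := by group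
      rw [h1]
      exact V.one_mem
    | succ k ih =>
      intro y hy
      have h1 := ih y hy
      have h2 := hVu y hy
      have h3 := hVu _ (hVL h1)
      have h4 : y⁻¹ * (u ^ (k + 1) * y * (u ^ (k + 1))⁻¹) =
          (y⁻¹ * (u * y * u⁻¹)) * ((y⁻¹ * (u ^ k * y * (u ^ k)⁻¹)) *
            ((y⁻¹ * (u ^ k * y * (u ^ k)⁻¹))⁻¹ * (u * (y⁻¹ * (u ^ k * y * (u ^ k)⁻¹)) * u⁻¹))) := by
        rw [pow_succ' u k]
        group
      rw [h4]
      exact V.mul_mem h2 (V.mul_mem h1 h3)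
  have hprime : ∀ {p : ℕ}, p.Prime → p ∣ orderOf u → p = 3 := by
    intro p hp hpu
    by_contra hp3
    have hpfact := Fact.mk hp
    have hpN : p ∣ Nat.card N := hpu.trans (orderOf_dvd_natCard u)
    have hp2 : p ≠ 2 := by
      rintro rfl
      exact (Nat.not_even_iff_odd.2 hN) (even_iff_two_dvd.2 hpN)
    obtain ⟨k, hk⟩ : ∃ k, orderOf (u ^ k) = p :=
      ⟨orderOf u / p, orderOf_pow_orderOf_div (orderOf_pos u).ne' hpu⟩
    have hVi : ∀ g ∈ Subgroup.zpowers (u ^ k), ∀ v ∈ V, g * v * g⁻¹ ∈ V := by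
      intro g hg v hv
      rw [← mem_powers_iff_mem_zpowers] at hg
      obtain ⟨j, rfl⟩ := hg
      change (u ^ k) ^ j * v * ((u ^ k) ^ j)⁻¹ ∈ V
      rw [← pow_mul]
      have h1 := V.mul_mem hv (hconj (k * j) v (hVL hv))
      rwa [mul_inv_cancel_left] at h1
    let act : MulAction (Subgroup.zpowers (u ^ k)) V :=
      { smul := fun g v => ⟨g.1 * v.1 * g.1⁻¹, hVi g.1 g.2 v.1 v.2⟩
        one_smul := by
          intro v
          apply Subtype.ext
          change (1 : N) * v.1 * (1 : N)⁻¹ = v.1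
          group
        mul_smul := by
          intro a b v
          apply Subtype.ext
          change (a.1 * b.1) * v.1 * (a.1 * b.1)⁻¹ = a.1 * (b.1 * v.1 * b.1⁻¹) * a.1⁻¹
          group }
    have hpg : IsPGroup p (Subgroup.zpowers (u ^ k)) :=
      IsPGroup.of_card (n := 1) (by rw [Nat.card_zpowers, hk, pow_one])
    have hmod := hpg.card_modEq_card_fixedPoints V
    let F : Subgroup N := V ⊓ Subgroup.centralizer {u ^ k}
    have hF : ∀ x, x ∈ F ↔ x ∈ V ∧ u ^ k * x = x * u ^ k := by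
      intro x
      change x ∈ V ∧ x ∈ Subgroup.centralizer {u ^ k} ↔ _
      rw [Subgroup.mem_centralizer_singleton_iff]
      constructor
      · rintro ⟨h1, h2⟩
        exact ⟨h1, h2.symm⟩
      · rintro ⟨h1, h2⟩
        exact ⟨h1, h2.symm⟩
    have hFcard : Nat.card (MulAction.fixedPoints (Subgroup.zpowers (u ^ k)) V) = Nat.card F := by
      refine Nat.card_congr (Equiv.ofBijective (fun x => ⟨x.1.1, ?_⟩) ⟨?_, ?_⟩)
      · rw [hF]
        refine ⟨x.1.2, ?_⟩
        have h1 := x.2 ⟨u ^ k, Subgroup.mem_zpowers _⟩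
        have h2 : u ^ k * x.1.1 * (u ^ k)⁻¹ = x.1.1 := congrArg Subtype.val h1
        exact mul_inv_eq_iff_eq_mul.1 h2
      · intro x y hxy
        apply Subtype.ext
        apply Subtype.ext
        exact congrArg (fun t : F => (t : N)) hxy
      · rintro ⟨x, hx⟩
        rw [hF] at hx
        refine ⟨⟨⟨x, hx.1⟩, ?_⟩, rfl⟩
        rintro ⟨g, hg⟩
        apply Subtype.ext
        change g * x * g⁻¹ = x
        obtain ⟨j, rfl⟩ := Subgroup.mem_zpowers_iff.1 hg
        have h1 : Commute (u ^ k) x := hx.2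
        rw [mul_inv_eq_iff_eq_mul]
        exact (h1.zpow_left j)
    rw [hFcard] at hmod
    have hFV : F ≤ V := inf_le_left
    have hcF : Nat.card F ∣ Nat.card V := Subgroup.card_dvd_of_le hFV
    have hFVcard : Nat.card F = Nat.card V := by
      have h9 : (9 : ℕ) = 3 ^ 2 := by norm_num
      rw [h9] at hV9
      obtain ⟨i, hi, hVi'⟩ := (Nat.dvd_prime_pow Nat.prime_three).1 hV9
      obtain ⟨j, hj, hFj⟩ := (Nat.dvd_prime_pow Nat.prime_three).1 (hcF.trans hV9)
      have hle : Nat.card F ≤ Nat.card V := Nat.le_of_dvd Nat.card_pos hcF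
      have hdvd : p ∣ Nat.card V - Nat.card F := (Nat.modEq_iff_dvd' hle).1 hmod.symm
      rw [hVi', hFj] at hdvd hle ⊢
      have hno : ∀ a b : ℕ, p ∣ 2 ^ a * 3 ^ b → False := by
        intro a b h
        rcases (Nat.Prime.dvd_mul hp).1 h with h | h
        · exact hp2 ((Nat.prime_dvd_prime_iff_eq hp Nat.prime_two).1 (hp.dvd_of_dvd_pow h))
        · exact hp3 ((Nat.prime_dvd_prime_iff_eq hp Nat.prime_three).1 (hp.dvd_of_dvd_pow h))
      interval_cases i <;> interval_cases j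
      · rfl
      · norm_num at hle
      · norm_num at hle
      · exact (hno 1 0 (by norm_num at hdvd ⊢; exact hdvd)).elim
      · rfl
      · norm_num at hle
      · exact (hno 3 0 (by norm_num at hdvd ⊢; exact hdvd)).elim
      · exact (hno 1 1 (by norm_num at hdvd ⊢; exact hdvd)).elim
      · rfl
    have hFeq : F = V := Subgroup.eq_of_le_of_card_ge hFV hFVcard.ge
    have hcen : ∀ y ∈ L, u ^ k * y = y * u ^ k := by
      intro y hy
      obtain ⟨v, hv, hvy⟩ : ∃ v ∈ V, u ^ k * y * (u ^ k)⁻¹ = y * v :=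
        ⟨_, hconj k y hy, by rw [mul_inv_cancel_left]⟩
      have hvc : u ^ k * v = v * u ^ k := by
        have : v ∈ F := by rw [hFeq]; exact hv
        exact ((hF v).1 this).2
      have hj : ∀ j : ℕ, (u ^ k) ^ j * y * ((u ^ k) ^ j)⁻¹ = y * v ^ j := by
        intro j
        induction j with
        | zero => group
        | succ j ih =>
          have h1 : (u ^ k) ^ (j + 1) * y * ((u ^ k) ^ (j + 1))⁻¹ =
              u ^ k * ((u ^ k) ^ j * y * ((u ^ k) ^ j)⁻¹) * (u ^ k)⁻¹ := by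
            rw [pow_succ' (u ^ k) j]
            group
          have h2 : Commute (u ^ k) (v ^ j) := Commute.pow_right hvc j
          rw [h1, ih]
          calc u ^ k * (y * v ^ j) * (u ^ k)⁻¹
              = (u ^ k * y * (u ^ k)⁻¹) * (u ^ k * v ^ j * (u ^ k)⁻¹) := by group
            _ = (y * v) * v ^ j := by
              rw [hvy, h2.eq, mul_inv_cancel_right]
            _ = y * v ^ (j + 1) := by
              rw [pow_succ', mul_assoc]
      have h1 := hj p
      have h2 : (u ^ k) ^ p = 1 := orderOf_dvd_iff_pow_eq_one.1 (dvd_of_eq hk)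
      rw [h2, one_mul, inv_one, mul_one] at h1
      have h3 : v ^ p = 1 := by
        have : y * 1 = y * v ^ p := by rw [mul_one]; exact h1
        exact (mul_left_cancel this).symm
      have h4 : orderOf v ∣ p := orderOf_dvd_of_pow_eq_one h3
      have h5 : orderOf v ∣ 3 := orderOf_dvd_of_pow_eq_one (hV3 v hv)
      have h6 : Nat.Coprime p 3 := (Nat.coprime_primes hp Nat.prime_three).2 hp3
      have h7 : orderOf v ∣ 1 := by
        rw [← h6]
        exact Nat.dvd_gcd h4 h5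
      have h8 : v = 1 := orderOf_eq_one_iff.1 (Nat.dvd_one.1 h7)
      rw [h8, mul_one] at hvy
      exact mul_inv_eq_iff_eq_mul.1 hvy
    have hwL : u ^ k ∈ L := hC _ hcen
    have hwz : z • (u ^ k) = (u ^ k)⁻¹ := by
      rw [smul_pow', hzu, inv_pow]
    have hwJ : u ^ k ∈ J := hJi _ hwL hwz
    have h1 : orderOf (⟨u ^ k, hwJ⟩ : J) ∣ 3 := (orderOf_dvd_natCard _).trans hJ3
    rw [Subgroup.orderOf_mk, hk] at h1
    exact hp3 ((Nat.prime_dvd_prime_iff_eq hp Nat.prime_three).1 h1)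
  have h1 := Nat.eq_prime_pow_of_unique_prime_dvd (orderOf_pos u).ne' hprime
  exact ⟨_, orderOf_dvd_iff_pow_eq_one.1 (dvd_of_eq h1)⟩

end RThree

section
variable {P : Type v} [Group P] {z : P}

/-- The case `|L : C_L(z)| = 3`. -/
theorem three_up {N : Type u} [Group N] [Finite N] [MulDistribMulAction P N]
    [Group.IsSolvable N] (hz2 : z * z = 1) (hN : Odd (Nat.card N)) (L : Subgroup N) [L.Normal]
    [Group.IsNilpotent L] (hLz : ∀ x ∈ L, z • x ∈ L)
    (hC : ∀ n, (∀ l ∈ L, n * l = l * n) → n ∈ L)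
    (h3 : ∀ H : Subgroup N, H.Normal → (∀ x ∈ H, z • x ∈ H) → IsPGroup 3 H → H ≤ L)
    (hcard : Nat.card L = 3 * Nat.card ((fixS z : Subgroup N) ⊓ L : Subgroup N)) :
    Nat.card N = 3 * Nat.card (fixS z : Subgroup N) := by
  obtain ⟨J, hJ3, hJL, hJc, hJi, hJm⟩ := RThree.exists_J hz2 hN L hLz hcard
  obtain ⟨H, hH1, hH2, hH3, hH4⟩ := threeGroup_of_elements hz2 hN
    (RThree.elt hz2 hN L hLz hC J hJ3 hJL hJc hJi hJm)
  have hHL := h3 H hH1 hH4 hH2
  have hmem : ∀ n : N, n * (z • n)⁻¹ ∈ J := by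
    intro n
    have h1 : n * (z • n)⁻¹ ∈ L := by
      apply hHL
      have := hH3 n⁻¹
      rwa [inv_inv, smul_inv'] at this
    apply hJi _ h1
    rw [smul_mul', smul_inv', smul_smul, hz2, one_smul]
    group
  have hidx : (fixS z : Subgroup N).index ≤ 3 := by
    have h1 : Nat.card J ≤ 3 := Nat.le_of_dvd (by norm_num) hJ3
    refine le_trans ?_ h1
    let g : N ⧸ (fixS z : Subgroup N) → J := Quotient.lift (fun n => ⟨n * (z • n)⁻¹, hmem n⟩) (by
      intro a b hab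
      apply Subtype.ext
      change a * (z • a)⁻¹ = b * (z • b)⁻¹
      have h2 : z • (a⁻¹ * b) = a⁻¹ * b := QuotientGroup.leftRel_apply.1 hab
      rw [smul_mul', smul_inv'] at h2
      have h3 : z • b = (z • a) * (a⁻¹ * b) := by
        rw [← h2]; group
      rw [h3]
      group)
    refine Nat.card_le_card_of_injective g ?_
    intro x y
    refine Quotient.inductionOn₂ x y ?_
    intro a b hab
    apply Quotient.sound
    change (QuotientGroup.leftRel _) a b
    rw [QuotientGroup.leftRel_apply]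
    change z • (a⁻¹ * b) = a⁻¹ * b
    have h2 : a * (z • a)⁻¹ = b * (z • b)⁻¹ := congrArg Subtype.val hab
    rw [smul_mul', smul_inv']
    have h3 : (z • a)⁻¹ = a⁻¹ * (b * (z • b)⁻¹) := by rw [← h2]; group
    rw [h3]
    group
  have hmul := Subgroup.card_mul_index (fixS z : Subgroup N)
  have hodd : Odd (fixS z : Subgroup N).index :=
    hN.of_dvd_nat (Subgroup.index_dvd_card _)
  have hne : (fixS z : Subgroup N).index ≠ 1 := by
    intro h
    rw [Subgroup.index_eq_one] at h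
    rw [h, top_inf_eq] at hcard
    have : 0 < Nat.card L := Nat.card_pos
    omega
  have h3' : (fixS z : Subgroup N).index = 3 := by
    obtain ⟨m, hm⟩ := hodd
    omega
  rw [← hmul, h3', mul_comm]

end

end Pool.Agent.Lib_MP_8306f4_co.CaseB
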