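import Pool.Agent.Lib_MP_8306f4_co.CaseB.Defs
import Pool.Agent.Lib_MP_8306f4_co.CaseB.Psi
import Pool.Agent.Lib_MP_8306f4_co.CaseB.LemmaA

/-!
# MP_8306f4_co, case B, piece StepS3

Notation. x·y = qop f x y = x f(x⁻¹y) on N; lambda_m: y -> m y is always an automorphism of it
(f commutes with nothing needed). 1·y = f(y). If Equi P f, then y -> p•y is an automorphism.
core(A): a∘b = 2b-a. For every x: y -> x·y is bijective (f bijective), for every y: x -> x·y is
bijective (x⁻¹f(x) bijective). '2 is invertible': all groups N have odd order.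

## S2 (StepS3.lean): step_s3 [S1, H2]
C: φ₀ orthomorphism without proper invariant subgroup (exists_no_invariant, from square). f(v,c)=(v⁻¹, φ_v(c)),
φ_1=φ₀, φ_v=ψ for v≠1 (note v⁻¹=v² in Z₃). First coordinate is a hom to core(Z₃). HomFree φ₀
(homFree_of_no_invariant): α permutes the cosets of C; α in A_1: identity on the coset v=1 (aut_eq_left);
replace α by zα: α fixes the three cosets; α(v,c)=(v,d_v c) (aut_eq_left). Comparing (1,a)·(w,b):
ψ(a⁻¹d_w a y)=a⁻¹d_{w⁻¹}a ψ(y), and the same for w⁻¹: exists_psi gives d_w=1.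

-/

universe u v w

set_option linter.unusedSectionVars false

namespace Pool.Agent.Lib_MP_8306f4_co.CaseB

open Pool.Agent.Lib_MP_8306f4_co

namespace StepS3

/-- the cyclic group of order three -/
abbrev Z3 : Type := Multiplicative (ZMod 3)

lemma z3_a : ∀ v : Z3, v⁻¹ * v⁻¹ = v := by decide

lemma z3_b : ∀ v : Z3, v * (v⁻¹ * v)⁻¹ = v := by decide

lemma z3_inv_eq_one : ∀ v : Z3, v⁻¹ = 1 ↔ v = 1 := by decide

lemma z3_cases : ∀ v w : Z3, v ≠ 1 → w ≠ 1 → w = v ∨ w = v⁻¹ := by decide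

lemma z3_core : ∀ v w : Z3, Multiplicative.toAdd (v * (v⁻¹ * w)⁻¹) =
    2 • Multiplicative.toAdd w - Multiplicative.toAdd v := by decide

section

variable {C : Type u} [Group C]

open Classical in
/-- the orthomorphism of the model -/
noncomputable def fM (φ ψ : C → C) (x : Z3 × C) : Z3 × C :=
  (x.1⁻¹, if x.1 = 1 then φ x.2 else ψ x.2)

lemma fM_one (φ ψ : C → C) (c : C) : fM φ ψ (1, c) = (1, φ c) := by
  simp [fM]

lemma fM_ne (φ ψ : C → C) {v : Z3} (hv : v ≠ 1) (c : C) : fM φ ψ (v, c) = (v⁻¹, ψ c) := by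
  simp [fM, hv]

lemma fM_fst (φ ψ : C → C) (x : Z3 × C) : (fM φ ψ x).1 = x.1⁻¹ := rfl

lemma fM_z (φ ψ : C → C) (x : Z3 × C) :
    fM φ ψ (x.1⁻¹, x.2) = ((fM φ ψ x).1⁻¹, (fM φ ψ x).2) := by
  by_cases hx : x.1 = 1
  · simp [fM, hx]
  · have : x.1⁻¹ ≠ 1 := fun h => hx ((z3_inv_eq_one _).1 h)
    simp [fM, hx]

lemma fM_isOrth [Finite C] {φ ψ : C → C} (hφ : IsOrth φ) (hψ : IsOrth ψ) :
    IsOrth (fM φ ψ) := by
  refine ⟨Finite.injective_iff_bijective.1 ?_, Finite.injective_iff_bijective.1 ?_⟩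
  · rintro ⟨v, c⟩ ⟨w, d⟩ h
    have h1 : v⁻¹ = w⁻¹ := congrArg Prod.fst h
    have h2 : v = w := inv_injective h1
    subst h2
    by_cases hv : v = 1
    · subst hv
      rw [fM_one, fM_one] at h
      rw [hφ.1.1 (congrArg Prod.snd h)]
    · rw [fM_ne _ _ hv, fM_ne _ _ hv] at h
      rw [hψ.1.1 (congrArg Prod.snd h)]
  · rintro ⟨v, c⟩ ⟨w, d⟩ h
    have h1 : v⁻¹ * v⁻¹ = w⁻¹ * w⁻¹ := congrArg Prod.fst h
    have h2 : v = w := by rwa [z3_a, z3_a] at h1
    subst h2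
    by_cases hv : v = 1
    · subst hv
      have h3 : c⁻¹ * φ c = d⁻¹ * φ d := by
        have := congrArg Prod.snd h
        simpa [fM] using this
      rw [hφ.2.1 h3]
    · have h3 : c⁻¹ * ψ c = d⁻¹ * ψ d := by
        have := congrArg Prod.snd h
        simpa [fM, hv] using this
      rw [hψ.2.1 h3]

lemma qop_same (φ ψ : C → C) (v : Z3) (a b : C) :
    qop (fM φ ψ) (v, a) (v, b) = (v, qop φ a b) := by
  have h1 : (v, a)⁻¹ * (v, b) = ((1 : Z3), a⁻¹ * b) := by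
    ext
    · simp
    · simp
  rw [qop, h1, fM_one]
  simp [qop]

lemma qop_one (φ ψ : C → C) {w : Z3} (hw : w ≠ 1) (a b : C) :
    qop (fM φ ψ) (1, a) (w, b) = (w⁻¹, a * ψ (a⁻¹ * b)) := by
  have h1 : ((1 : Z3), a)⁻¹ * (w, b) = (w, a⁻¹ * b) := by
    ext
    · simp
    · simp
  rw [qop, h1, fM_ne _ _ hw]
  simp

lemma qop_fst (φ ψ : C → C) (x y : Z3 × C) :
    Multiplicative.toAdd (qop (fM φ ψ) x y).1 =
      2 • Multiplicative.toAdd y.1 - Multiplicative.toAdd x.1 := by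
  have : (qop (fM φ ψ) x y).1 = x.1 * (x.1⁻¹ * y.1)⁻¹ := rfl
  rw [this, z3_core]

variable {φ ψ : C → C}

/-- automorphisms permute the cosets of `C`. -/
lemma fst_const (hhom : HomFree φ) {β : Equiv.Perm (Z3 × C)}
    (hβ : β ∈ autGroup (qop (fM φ ψ))) (v : Z3) (c : C) : (β (v, c)).1 = (β (v, 1)).1 := by
  have h := hhom 3 Nat.prime_three (fun c => Multiplicative.toAdd (β (v, c)).1) ?_ c
  · exact Multiplicative.toAdd.injective h
  · intro a b
    have h1 := hβ (v, a) (v, b)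
    rw [qop_same] at h1
    have h2 := qop_fst φ ψ (β (v, a)) (β (v, b))
    rw [← h1] at h2
    exact h2

/-- an automorphism which maps the coset `v` into itself acts on it by a left multiplication -/
lemma snd_left [Finite C] (hinv : ∀ H : Subgroup C, (∀ x ∈ H, φ x ∈ H) → H = ⊤)
    (hhom : HomFree φ) {β : Equiv.Perm (Z3 × C)}
    (hβ : β ∈ autGroup (qop (fM φ ψ))) {v : Z3} (hv : (β (v, 1)).1 = v) (c : C) :
    β (v, c) = (v, (β (v, 1)).2 * c) := by
  have h1 : ∀ c, β (v, c) = (v, (β (v, c)).2) := by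
    intro c
    ext
    · simp only
      rw [fst_const hhom hβ, hv]
    · rfl
  have hinj : Function.Injective (fun c => (β (v, c)).2) := by
    intro a b hab
    have h2 : β (v, a) = β (v, b) := by
      rw [h1 a, h1 b]
      exact congrArg (Prod.mk v) hab
    have h3 := β.injective h2
    exact congrArg Prod.snd h3
  let σ : Equiv.Perm C := Equiv.ofBijective _ (Finite.injective_iff_bijective.1 hinj)
  have hσv : ∀ c, β (v, c) = (v, σ c) := h1
  have hσ : σ ∈ autGroup (qop φ) := by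
    intro a b
    have h2 := hβ (v, a) (v, b)
    rw [qop_same, hσv, hσv, hσv, qop_same] at h2
    exact congrArg Prod.snd h2
  have h2 := aut_eq_left hinv hσ c
  rw [hσv c, h2]
  rfl

/-- an automorphism which fixes `1` and the cosets is the identity -/
lemma eq_id [Finite C] (hinv : ∀ H : Subgroup C, (∀ x ∈ H, φ x ∈ H) → H = ⊤)
    (hhom : HomFree φ)
    (hψ : ∀ d e : C, (∀ a y, ψ (a⁻¹ * d * a * y) = a⁻¹ * e * a * ψ y) →
        (∀ a y, ψ (a⁻¹ * e * a * y) = a⁻¹ * d * a * ψ y) → d = 1)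
    {β : Equiv.Perm (Z3 × C)} (hβ : β ∈ autGroup (qop (fM φ ψ))) (hβ1 : β 1 = 1)
    (hfix : ∀ v, (β (v, 1)).1 = v) (x : Z3 × C) : β x = x := by
  have hl : ∀ v c, β (v, c) = (v, (β (v, 1)).2 * c) := fun v c =>
    snd_left hinv hhom hβ (hfix v) c
  have h1 : ∀ c, β (1, c) = (1, c) := by
    intro c
    rw [hl]
    have : β ((1 : Z3), (1 : C)) = 1 := hβ1
    rw [this]
    simp
  have key : ∀ w : Z3, w ≠ 1 → ∀ a y, ψ (a⁻¹ * (β (w, 1)).2 * a * y) =
      a⁻¹ * (β (w⁻¹, 1)).2 * a * ψ y := by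
    intro w hw a y
    have h2 := hβ (1, a) (w, a * y)
    rw [qop_one _ _ hw, h1, hl w (a * y), qop_one _ _ hw, hl] at h2
    have h3 := congrArg Prod.snd h2
    simp only [inv_mul_cancel_left] at h3
    have h4 : a⁻¹ * ((β (w, 1)).2 * (a * y)) = a⁻¹ * (β (w, 1)).2 * a * y := by group
    rw [h4] at h3
    have h5 : a⁻¹ * (β (w⁻¹, 1)).2 * a * ψ y = a⁻¹ * ((β (w⁻¹, 1)).2 * (a * ψ y)) := by group
    rw [h5, h3, inv_mul_cancel_left]
  have hone : ∀ w : Z3, (β (w, 1)).2 = 1 := by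
    intro w
    by_cases hw : w = 1
    · subst hw
      rw [h1]
    · have hw' : w⁻¹ ≠ 1 := fun h => hw ((z3_inv_eq_one _).1 h)
      refine hψ _ (β (w⁻¹, 1)).2 (key w hw) ?_
      have := key w⁻¹ hw'
      rwa [inv_inv] at this
  obtain ⟨v, c⟩ := x
  rw [hl, hone, one_mul]

/-- the involution of the model -/
def zM : Equiv.Perm (Z3 × C) where
  toFun x := (x.1⁻¹, x.2)
  invFun x := (x.1⁻¹, x.2)
  left_inv x := by simp
  right_inv x := by simp

lemma zM_mem (φ ψ : C → C) : (zM : Equiv.Perm (Z3 × C)) ∈ autGroup (qop (fM φ ψ)) := by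
  intro x y
  change ((qop (fM φ ψ) x y).1⁻¹, (qop (fM φ ψ) x y).2) =
    (x.1⁻¹, x.2) * fM φ ψ ((x.1⁻¹, x.2)⁻¹ * (y.1⁻¹, y.2))
  have h1 : ((x.1⁻¹, x.2)⁻¹ * (y.1⁻¹, y.2) : Z3 × C) = ((x⁻¹ * y).1⁻¹, (x⁻¹ * y).2) := by
    ext
    · simp [mul_comm]
    · simp
  rw [h1, fM_z]
  ext
  · simp [qop, mul_comm]
  · simp [qop]

lemma model [Finite C] (hinv : ∀ H : Subgroup C, (∀ x ∈ H, φ x ∈ H) → H = ⊤)
    (hhom : HomFree φ)
    (hψ : ∀ d e : C, (∀ a y, ψ (a⁻¹ * d * a * y) = a⁻¹ * e * a * ψ y) →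
        (∀ a y, ψ (a⁻¹ * e * a * y) = a⁻¹ * d * a * ψ y) → d = 1)
    {β : Equiv.Perm (Z3 × C)} (hβ : β ∈ autGroup (qop (fM φ ψ))) (hβ1 : β 1 = 1) :
    (∀ x, β x = x) ∨ ∀ x, β x = (x.1⁻¹, x.2) := by
  -- `β` commutes with `f`
  have hfix1 : ∀ β : Equiv.Perm (Z3 × C), β ∈ autGroup (qop (fM φ ψ)) → β 1 = 1 →
      ∀ c, β (1, c) = (1, c) := by
    intro β hβ hβ1 c
    have h1 : β ((1 : Z3), (1 : C)) = ((1 : Z3), (1 : C)) := hβ1
    have h2 := snd_left hinv hhom hβ (v := 1) (by rw [h1]) c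
    rw [h2, h1, one_mul]
  have hcomm : ∀ β : Equiv.Perm (Z3 × C), β ∈ autGroup (qop (fM φ ψ)) → β 1 = 1 →
      ∀ x, β (fM φ ψ x) = fM φ ψ (β x) := by
    intro β hβ hβ1 x
    have h1 := hβ 1 x
    rw [hβ1] at h1
    simpa [qop] using h1
  have hne : ∀ β : Equiv.Perm (Z3 × C), β ∈ autGroup (qop (fM φ ψ)) → β 1 = 1 →
      ∀ x : Z3 × C, x.1 ≠ 1 → (β x).1 ≠ 1 := by
    intro β hβ hβ1 x hx h
    apply hx
    have h1 : β x = β (1, (β x).2) := by
      rw [hfix1 β hβ hβ1]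
      ext
      · exact congrArg _ h
      · rfl
    have h2 := β.injective h1
    rw [h2]
  have hfixall : ∀ β : Equiv.Perm (Z3 × C), β ∈ autGroup (qop (fM φ ψ)) → β 1 = 1 →
      ∀ w : Z3, w ≠ 1 → (β (w, 1)).1 = w → ∀ v, (β (v, 1)).1 = v := by
    intro β hβ hβ1 w hw h v
    by_cases hv : v = 1
    · subst hv
      rw [hfix1 β hβ hβ1]
    · rcases z3_cases w v hw hv with rfl | rfl
      · exact h
      · have h1 := hcomm β hβ hβ1 (w, 1)
        rw [fM_ne _ _ hw] at h1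
        have h2 := congrArg Prod.fst h1
        rw [fM_fst, h, fst_const hhom hβ] at h2
        exact h2
  let w : Z3 := Multiplicative.ofAdd 1
  have hw : w ≠ 1 := by decide
  rcases z3_cases w (β (w, 1)).1 hw (hne β hβ hβ1 _ hw) with h | h
  · left
    exact eq_id hinv hhom hψ hβ hβ1 (hfixall β hβ hβ1 w hw h)
  · right
    have hγ : (zM * β : Equiv.Perm (Z3 × C)) ∈ autGroup (qop (fM φ ψ)) := mul_mem (zM_mem φ ψ) hβ
    have hγ1 : (zM * β : Equiv.Perm (Z3 × C)) 1 = 1 := by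
      rw [Equiv.Perm.mul_apply, hβ1]
      ext
      · simp [zM]
      · simp [zM]
    have h3 := eq_id hinv hhom hψ hγ hγ1 (hfixall _ hγ hγ1 w hw (by
      rw [Equiv.Perm.mul_apply]
      change ((β (w, 1)).1)⁻¹ = w
      rw [h, inv_inv]))
    intro x
    have h4 := h3 x
    rw [Equiv.Perm.mul_apply] at h4
    have h5 : β x = zM (zM (β x)) := by simp [zM]
    rw [h5, h4]
    rfl

end

end StepS3

open StepS3 in
theorem step_s3 {P : Type v} [Group P] {z : P} (hz1 : z ≠ 1) (hP : ∀ p : P, p = 1 ∨ p = z)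
    {C N : Type u} [Group C] [Finite C] (hC : Odd (Nat.card C)) (hC3 : Nat.card C ≠ 3) [Group N]
    [MulDistribMulAction P N] (e : N ≃* Multiplicative (ZMod 3) × C)
    (he : ∀ x, e (z • x) = ((e x).1⁻¹, (e x).2)) : RepGood P N := by
  obtain ⟨ψ, hψo, hψ⟩ := exists_psi hC hC3
  obtain ⟨φ, hφo, hinv⟩ := exists_no_invariant (G := C) ⟨ψ, hψo⟩
  have hhom : HomFree φ := homFree_of_no_invariant hφo hinv
  have hf := fM_isOrth hφo hψo
  refine ⟨fun x => e.symm (fM φ ψ (e x)), ⟨?_, ?_⟩, ?_, ?_⟩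
  · exact e.symm.bijective.comp (hf.1.comp e.bijective)
  · have : (fun x => x⁻¹ * e.symm (fM φ ψ (e x))) =
        e.symm ∘ (fun x => x⁻¹ * fM φ ψ x) ∘ e := by
      ext x
      simp
    rw [this]
    exact e.symm.bijective.comp (hf.2.comp e.bijective)
  · intro p x
    rcases hP p with rfl | rfl
    · simp
    · apply e.injective
      rw [he]
      simp only [MulEquiv.apply_symm_apply]
      rw [he, fM_z]
  · intro α hα hα1
    let β : Equiv.Perm (Z3 × C) := (e.symm.toEquiv.trans α).trans e.toEquiv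
    have hβα : ∀ x, β x = e (α (e.symm x)) := fun x => rfl
    have hq : ∀ x y, e.symm (qop (fM φ ψ) x y) =
        qop (fun x => e.symm (fM φ ψ (e x))) (e.symm x) (e.symm y) := by
      intro x y
      simp [qop]
    have hβ : β ∈ autGroup (qop (fM φ ψ)) := by
      intro x y
      rw [hβα, hq, hα]
      simp [qop, hβα]
    have hβ1 : β 1 = 1 := by
      rw [hβα]
      simp [hα1]
    have hαβ : ∀ x, e (α x) = β (e x) := by
      intro x
      rw [hβα]
      simp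
    rcases model hinv hhom hψ hβ hβ1 with h | h
    · refine ⟨1, fun x => ?_⟩
      apply e.injective
      rw [hαβ, h, one_smul]
    · refine ⟨z, fun x => ?_⟩
      apply e.injective
      rw [hαβ, h, he]

end Pool.Agent.Lib_MP_8306f4_co.CaseB
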