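import Pool.Agent.Lib_MP_8306f4_co.CaseB.NilMain
import Pool.Agent.Lib_MP_8306f4_co.CaseB.RC
import Pool.Agent.Lib_MP_8306f4_co.CaseB.RSmall
import Pool.Agent.Lib_MP_8306f4_co.CaseB.RThree
import Pool.Agent.Lib_MP_8306f4_co.CaseB.RExc
import Pool.Agent.Lib_MP_8306f4_co.CaseB.StepS3
import Pool.Agent.Lib_MP_8306f4_co.CaseB.Base21

/-!
# Solvable groups: the main theorem
-/

universe u v w

namespace Pool.Agent.Lib_MP_8306f4_co.CaseB

open Pool.Agent.Lib_MP_8306f4_co

section
variable {P : Type v} [Group P] {z : P}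

lemma square_orth {T : Type u} [Group T] [Finite T] (hT : Odd (Nat.card T)) :
    IsOrth (fun x : T => x ^ 2) := by
  have h2 : Nat.Coprime (Nat.card T) 2 := (Nat.coprime_two_left.2 hT).symm
  refine ⟨?_, ?_⟩
  · exact (powCoprime h2).bijective
  · have : (fun x : T => x⁻¹ * x ^ 2) = id := by
      ext x
      simp [sq]
    rw [this]
    exact Function.bijective_id

lemma square_equi {T : Type u} [Group T] [MulDistribMulAction P T] :
    Equi P (fun x : T => x ^ 2) := by
  intro p x
  exact (smul_pow' p x 2).symm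

lemma qop_square {T : Type u} [Group T] (x y : T) :
    qop (fun x : T => x ^ 2) x y = y * x⁻¹ * y := by
  simp only [qop, sq]
  group

theorem rep_of_ext_tn {L N T : Type u} [Group L] [Group N] [Finite N] [Group T]
    [MulDistribMulAction P L] [MulDistribMulAction P N] [MulDistribMulAction P T]
    [Group.IsSolvable N] (hz : TwoCyc z) (hN : Odd (Nat.card N)) {ι : L →* N} {π : N →* T}
    (hE : Ext P ι π) {φ₁ φ₂ : L → L} (h1 : IsOrth φ₁) (h1e : Equi P φ₁) (h11 : φ₁ 1 = 1)
    (h1r : Rig P φ₁) (h1h : HomFree φ₁)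
    (h2 : IsOrth φ₂) (h2e : Equi P φ₂) (hTN : TN φ₂) : RepGood P N := by
  have hfin : Finite P := hz.fin
  have hTf : Finite T := Finite.of_surjective π hE.surj
  have hTs : Group.IsSolvable T := Group.isSolvable_of_surjective hE.surj
  have hTo : Odd (Nat.card T) := by
    rw [card_ker_mul π hE.surj] at hN
    exact (Nat.odd_mul.1 hN).2
  have hcon : ∀ h : L → T, (∀ x y, h (qop φ₁ x y) = qop (fun x : T => x ^ 2) (h x) (h y)) →
      ∀ x, h x = h 1 := by
    intro h hh
    refine homFree_solv h1h h ?_
    intro x y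
    rw [hh, qop_square]
  obtain ⟨r, f, hf⟩ := exists_glued hz.pgroup hN hE (square_orth hTo) square_equi (one_pow 2)
    h1 h1e h11 h2 h2e
  refine ⟨f, hf.orth, hf.equi, ?_⟩
  intro α hα hα1
  obtain ⟨p₀, β, hβ, h3, h4, pt, h5⟩ := glued_setup hz.pgroup hN hE hf h1r hcon hα hα1
  have h6 := glued_tn hz.pgroup hN hE hf hTN hβ h4 pt h5
  refine ⟨p₀, fun x => ?_⟩
  rw [h3, h6]
  rfl

theorem repGood_congr {N : Type u} {N' : Type w} [Group N] [Group N']
    [MulDistribMulAction P N] [MulDistribMulAction P N'] (e : N ≃* N')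
    (he : ∀ (p : P) x, e (p • x) = p • e x) (h : RepGood P N) : RepGood P N' := by
  obtain ⟨f, h1, h2, h3⟩ := h
  have hq : ∀ x y, e (qop f x y) = qop (fun x => e (f (e.symm x))) (e x) (e y) := by
    intro x y
    simp [qop]
  refine ⟨fun x => e (f (e.symm x)), ⟨?_, ?_⟩, ?_, ?_⟩
  · exact e.bijective.comp (h1.1.comp e.symm.bijective)
  · have : (fun x => x⁻¹ * e (f (e.symm x))) = e ∘ (fun x => x⁻¹ * f x) ∘ e.symm := by
      ext x
      simp
    rw [this]
    exact e.bijective.comp (h1.2.comp e.symm.bijective)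
  · intro p x
    obtain ⟨y, rfl⟩ := e.surjective x
    change e (f (e.symm (p • e y))) = p • e (f (e.symm (e y)))
    rw [← he, e.symm_apply_apply, e.symm_apply_apply, h2, he]
  · intro α hα hα1
    obtain ⟨p, hp⟩ := h3 (e.toEquiv.trans (α.trans e.symm.toEquiv)) (by
      intro x y
      change e.symm (α (e (qop f x y))) = qop f (e.symm (α (e x))) (e.symm (α (e y)))
      apply e.injective
      rw [hq, hq, hα, e.apply_symm_apply, e.apply_symm_apply, e.apply_symm_apply])
      (by change e.symm (α (e 1)) = 1; rw [map_one, hα1, map_one])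
    refine ⟨p, fun x => ?_⟩
    have := hp (e.symm x)
    change e.symm (α (e (e.symm x))) = p • e.symm x at this
    rw [e.apply_symm_apply] at this
    apply e.symm.injective
    rw [this]
    apply e.injective
    rw [he, e.apply_symm_apply, e.apply_symm_apply]

/-- The case `L` good. -/
theorem rep_of_wgood {L N T : Type u} [Group L] [Group N] [Finite N] [Group T]
    [MulDistribMulAction P L] [MulDistribMulAction P N] [MulDistribMulAction P T]
    [Group.IsSolvable N] [Group.IsNilpotent L] (hz : TwoCyc z) (hN : Odd (Nat.card N))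
    {ι : L →* N} {π : N →* T} (hE : Ext P ι π) (hL : WGood P L)
    (hmax : ∀ H : Subgroup N, H.Normal → PInv P H → IsPGroup 3 H → ∀ x ∈ H, π x = 1) :
    RepGood P N := by
  have hfin : Finite P := hz.fin
  have hLf : Finite L := Finite.of_injective ι hE.inj
  have hcN : Nat.card N = Nat.card L * Nat.card T := by
    rw [card_ker_mul π hE.surj]
    congr 1
    rw [Nat.card_congr (MonoidHom.ofInjective hE.inj).toEquiv]
    congr 1
    have : π.ker = ι.range := by
      ext x
      rw [MonoidHom.mem_ker, hE.exact]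
      rfl
    rw [this]
  have hLo : Odd (Nat.card L) := by
    rw [hcN] at hN
    exact (Nat.odd_mul.1 hN).1
  rcases subsingleton_or_nontrivial T with hT | hT
  · -- `N = L`
    have hsurj : Function.Surjective ι := by
      intro x
      exact (hE.exact x).1 (Subsingleton.elim _ _)
    exact repGood_congr (MulEquiv.ofBijective ι ⟨hE.inj, hsurj⟩) (fun p x => hE.equi p x)
      hL.repGood
  -- `z` is nontrivial on `L`
  have hzL : ∃ l : L, z • l ≠ l := by
    by_contra hcon
    push Not at hcon
    exact hz.ne_one (hE.faith z hcon)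
  obtain ⟨l₀, hl₀⟩ := hzL
  have hLnt : Nontrivial L := ⟨l₀, 1, fun h => hl₀ (by rw [h, smul_one])⟩
  have hL' := hL
  obtain ⟨φ, hφ⟩ := hL
  by_cases hmin : PMin P (⊤ : Subgroup L)
  · -- `P`-minimal
    have hLc : ∀ x y : L, x * y = y * x := by
      have hcinv : PInv P (Subgroup.center L) := by
        intro p x hx
        rw [Subgroup.mem_center_iff] at hx ⊢
        intro g
        have := congrArg (fun y => p • y) (hx (p⁻¹ • g))
        simpa [smul_mul'] using this
      rcases hmin.2.2 _ hcinv le_top with h | h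
      · exact absurd h (Group.IsNilpotent.center_ne_bot L)
      · intro x y
        have hx : y ∈ Subgroup.center L := h ▸ Subgroup.mem_top y
        exact Subgroup.mem_center_iff.1 hx x
    have hinv : ∀ l : L, z • l = l⁻¹ := by
      have hfi : PInv P (fixS z : Subgroup L) := by
        intro p x hx
        change z • (p • x) = p • x
        rw [← mul_smul, hz.comm z p, mul_smul]
        congr 1
      rcases hmin.2.2 _ hfi le_top with h | h
      · apply inv_of_fix hz.sq
        intro x hx
        have : x ∈ (fixS z : Subgroup L) := hx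
        rw [h] at this
        exact Subgroup.mem_bot.1 this
      · exfalso
        apply hl₀
        have : l₀ ∈ (fixS z : Subgroup L) := h ▸ Subgroup.mem_top l₀
        exact this
    by_cases hTN : TN φ
    · exact rep_of_ext_tn hz hN hE hφ.orth hφ.equi hφ.one hφ.rig hφ.hom hφ.orth hφ.equi hTN
    · exfalso
      obtain ⟨t, ht⟩ := exists_ne (1 : T)
      refine ht (trans_top hz hN hE ?_ hinv t)
      intro a b ha hb
      exact tn_of_pmin hz.cyclic hLc hmin hφ.orth hφ.equi hφ.one hφ.rig hTN a b ha hb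
  by_cases h3 : ∃ k, Nat.card L = 3 ^ k
  · exact caseC hz hN hE h3 hL' hmax hT
  · -- a prime `s ≥ 5`
    obtain ⟨s, hs, hsd, hs3⟩ : ∃ s : ℕ, s.Prime ∧ s ∣ Nat.card L ∧ s ≠ 3 := by
      by_contra hcon
      push Not at hcon
      apply h3
      exact ⟨_, Nat.eq_prime_pow_of_unique_prime_dvd Nat.card_pos.ne' (fun {d} hd hdv =>
        hcon d hd hdv)⟩
    have : Fact s.Prime := ⟨hs⟩
    -- a central element of order `s`
    obtain ⟨x, hxc, hxs, hx1⟩ := central_of_prime (G := L) hs hsd
    let H : Subgroup L :=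
      { carrier := {y | y ∈ Subgroup.center L ∧ y ^ s = 1}
        one_mem' := ⟨Subgroup.one_mem _, one_pow s⟩
        mul_mem' := by
          rintro a b ⟨ha, ha'⟩ ⟨hb, hb'⟩
          refine ⟨Subgroup.mul_mem _ ha hb, ?_⟩
          have : Commute a b := (Subgroup.mem_center_iff.1 hb a)
          rw [this.mul_pow, ha', hb', one_mul]
        inv_mem' := by
          rintro a ⟨ha, ha'⟩
          exact ⟨Subgroup.inv_mem _ ha, by rw [inv_pow, ha', inv_one]⟩ }
    have hHne : H ≠ ⊥ := by
      intro h
      have : x ∈ H := ⟨hxc, hxs⟩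
      rw [h] at this
      exact hx1 (Subgroup.mem_bot.1 this)
    have hHi : PInv P H := by
      rintro p y ⟨hy, hy'⟩
      refine ⟨?_, ?_⟩
      · rw [Subgroup.mem_center_iff] at hy ⊢
        intro g
        have := congrArg (fun y => p • y) (hy (p⁻¹ • g))
        simpa [smul_mul'] using this
      · rw [← smul_pow', hy', smul_one]
    obtain ⟨B, hBH, hBm⟩ := exists_pmin_le H hHne hHi
    have hBc : ∀ a ∈ B, ∀ b ∈ B, a * b = b * a := fun a _ b hb =>
      Subgroup.mem_center_iff.1 (hBH hb).1 a
    obtain ⟨φ₂, h4, h5, h6⟩ := exists_tn hLo B (by rintro rfl; exact hmin hBm) hBm.1 hBm.2.1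
      hBc (by
        -- the order is a power of `s`
        have hp : IsPGroup s B := fun b => ⟨1, by
          rw [pow_one]
          exact Subtype.ext (hBH b.2).2⟩
        obtain ⟨k, hk⟩ := IsPGroup.iff_card.1 hp
        rw [hk]
        exact Nat.Coprime.pow_right k ((Nat.coprime_primes Nat.prime_three hs).2 hs3.symm))
    exact rep_of_ext_tn hz hN hE hφ.orth hφ.equi hφ.one hφ.rig hφ.hom h4 h5 h6

/-- The main theorem for solvable groups `N`. -/
theorem rep_main (hz : TwoCyc z) {N : Type u} [Group N] [Finite N] [MulDistribMulAction P N]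
    [Group.IsSolvable N] (hN : Odd (Nat.card N)) (hx : ∃ x : N, z • x ≠ x) :
    RepGood P N ∨ ExcR N z := by
  have hfin : Finite P := hz.fin
  obtain ⟨x₀, hx₀⟩ := hx
  obtain ⟨L, hLn, hLi, hLnil, hLC, hLmax⟩ := exists_fitting (P := P) (N := N)
  obtain ⟨T, iT, aT, π, hs, he, hker⟩ := exists_quot (P := P) L hLi
  obtain ⟨L', iL, aL, ι, hι, hιe, hrange⟩ := exists_sub (P := P) L hLi
  have hexact : ∀ x, π x = 1 ↔ ∃ l, ι l = x := by
    intro x
    rw [← MonoidHom.mem_ker, hker, ← hrange]
    rfl
  have hmem : ∀ x, x ∈ L ↔ ∃ l, ι l = x := by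
    intro x
    rw [← hrange]
    rfl
  have hzL : ¬ ∀ l ∈ L, z • l = l := fun h => hx₀ (faith_of_cent hz.sq hN L hLC h x₀)
  have hE : Ext P ι π := by
    refine ⟨hι, hs, hexact, hιe, he, ?_, ?_⟩
    · intro n hn
      rw [hexact, ← hmem]
      apply hLC
      intro l hl
      obtain ⟨l', rfl⟩ := (hmem l).1 hl
      exact hn l'
    · intro p hp
      by_contra hp1
      apply hzL
      intro l hl
      obtain ⟨l', rfl⟩ := (hmem l).1 hl
      obtain ⟨k, hk⟩ := Subgroup.mem_zpowers_iff.1 (hz.mem_zpowers hp1)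
      rw [← hιe]
      congr 1
      have h1 : p ∈ MulAction.stabilizer P l' := hp l'
      have h2 : p ^ k ∈ MulAction.stabilizer P l' := Subgroup.zpow_mem _ h1 k
      rw [hk] at h2
      exact h2
  have hLf : Finite L' := Finite.of_injective ι hι
  have hcL : Nat.card L' = Nat.card L := by
    rw [Nat.card_congr (MonoidHom.ofInjective hι).toEquiv, hrange]
  have hLnil' : Group.IsNilpotent L' := by
    have e : L ≃* L' := (MulEquiv.subgroupCongr hrange.symm).trans (MonoidHom.ofInjective hι).symm
    exact Group.nilpotent_of_mulEquiv e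
  have hLo : Odd (Nat.card L') := by
    rw [hcL]
    have h1 := Subgroup.card_subgroup_dvd_card L
    exact Odd.of_dvd_nat hN h1
  have hzL' : ∃ l : L', z • l ≠ l := by
    by_contra hcon
    push Not at hcon
    exact hz.ne_one (hE.faith z hcon)
  have htop : Nat.card N = Nat.card L → L = ⊤ := fun h => Subgroup.eq_top_of_card_eq L h.symm
  have hinvN : L = ⊤ → (∀ l : L', z • l = l⁻¹) → ∀ x : N, z • x = x⁻¹ := by
    intro h h' x
    have hx : x ∈ L := h ▸ Subgroup.mem_top x
    obtain ⟨l, rfl⟩ := (hmem x).1 hx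
    rw [← hιe, h', map_inv]
  rcases nil_main hz _ L' rfl hLo hzL' with h | h
  · left
    refine rep_of_wgood hz hN hE h ?_
    intro H hHn hHi hHp x hx
    rw [hexact, ← hmem]
    exact hLmax 3 Nat.prime_three H hHn hHi hHp hx
  · have hsmall := aut_small hN L hLC
    rw [← hcL] at hsmall
    rcases h with ⟨h2, h3⟩ | ⟨h2, h3, h4⟩ | ⟨h2, h3, h4, h5⟩ | ⟨h2, h3, h4⟩
    · -- `|L : C_L(z)| = 3`
      have hP : ∀ p : P, p = 1 ∨ p = z := by
        intro p
        by_contra hcon
        push Not at hcon
        have h6 : ({1, z, p} : Set P).ncard = 3 := by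
          rw [Set.ncard_eq_three]
          exact ⟨1, z, p, hz.ne_one.symm, hcon.1.symm, hcon.2.symm, rfl⟩
        have h7 : ({1, z, p} : Set P).ncard ≤ Nat.card P := Set.ncard_le_card _
        omega
      have h6 : Nat.card N = 3 * Nat.card (fixS z : Subgroup N) := by
        refine three_up hz.sq hN L (fun x hx => hLi z x hx) hLC ?_ ?_
        · intro H hHn hHz hHp
          refine hLmax 3 Nat.prime_three H hHn ?_ hHp
          intro p x hx
          rcases hP p with rfl | rfl
          · rwa [one_smul]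
          · exact hHz x hx
        · rw [← hcL, h3]
          congr 1
          refine Nat.card_congr (Equiv.ofBijective (fun l => ⟨ι l.1, ?_, ?_⟩) ⟨?_, ?_⟩)
          · change z • ι l.1 = ι l.1
            rw [← hιe]
            congr 1
            exact l.2
          · change ι l.1 ∈ L
            exact (hmem _).2 ⟨_, rfl⟩
          · intro a b hab
            exact Subtype.ext (hι (congrArg Subtype.val hab))
          · rintro ⟨y, hy1, hy2⟩
            obtain ⟨l, rfl⟩ := (hmem y).1 hy2
            refine ⟨⟨l, ?_⟩, rfl⟩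
            apply hι
            rw [hιe]
            exact hy1
      by_cases h7 : Nat.card (fixS z : Subgroup N) = 3
      · right
        refine Or.inr (Or.inr (Or.inl ⟨h2, ?_, h7⟩))
        rw [h6, h7]
      · left
        obtain ⟨e, he'⟩ := struct_three hz.sq hN h6
        refine step_s3 hz.ne_one hP ?_ h7 e he'
        rw [h6] at hN
        exact (Nat.odd_mul.1 hN).2
    · rcases h4 with h4 | h4
      · have h5 := hsmall.1 h4
        have h6 := htop (by rw [h5, ← hcL, h4])
        exact Or.inr (Or.inl ⟨h2, hinvN h6 h3, Or.inl h5⟩)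
      · rcases hsmall.2.1 h4 with h5 | h5
        · have h6 := htop (by rw [h5, ← hcL, h4])
          exact Or.inr (Or.inl ⟨h2, hinvN h6 h3, Or.inr h5⟩)
        · left
          refine base_21 hz h2 ι hι hιe h4 h5 h3 ?_
          intro n hn
          rw [← hmem]
          apply hLC
          intro l hl
          obtain ⟨l', rfl⟩ := (hmem l).1 hl
          exact hn l'
    · obtain ⟨k, hk⟩ := hsmall.2.2 h4
      have h6 : L = ⊤ := by
        rw [eq_top_iff]
        apply hLmax 3 Nat.prime_three ⊤ inferInstance (fun _ _ _ => Subgroup.mem_top _)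
        have h7 : IsPGroup 3 N := IsPGroup.of_card hk
        exact h7.to_subgroup ⊤
      have h7 : Nat.card N = 9 := by
        rw [← h4, hcL, h6, Nat.card_congr Subgroup.topEquiv.toEquiv]
      refine Or.inr (Or.inr (Or.inl ⟨h2, hinvN h6 h3, h7, ?_⟩))
      intro x
      have hx : x ∈ L := h6 ▸ Subgroup.mem_top x
      obtain ⟨l, rfl⟩ := (hmem x).1 hx
      rw [← map_pow, h5, map_one]
    · obtain ⟨k, hk⟩ := hsmall.2.2 h4
      have h6 : L = ⊤ := by
        rw [eq_top_iff]
        apply hLmax 3 Nat.prime_three ⊤ inferInstance (fun _ _ _ => Subgroup.mem_top _)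
        have h7 : IsPGroup 3 N := IsPGroup.of_card hk
        exact h7.to_subgroup ⊤
      have h7 : Nat.card N = 9 := by
        rw [← h4, hcL, h6, Nat.card_congr Subgroup.topEquiv.toEquiv]
      exact Or.inr (Or.inr (Or.inr (Or.inr ⟨h2, hinvN h6 h3, h7⟩)))

end

end Pool.Agent.Lib_MP_8306f4_co.CaseB
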